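import Pool.Agent.GRO.GAU

/-!
# REL1: relative words
`wrd s g` is the list `s 0, (g 0).toWord, s 1, (g 1).toWord, ...`.
* `wrd_CR`: reducedness: in every `g i` the word is reduced; `s i` and a letter of a label have
  different first coordinates (`hs`, `mem_FY`); if `g i = 1` use `hr i`. The same at the cyclic
  junction (`i = m - 1`, `i + 1 = 0` in `Fin m`).
* `wrd_edg`: generalize: for a list `L` of pairs `(s, w)` (blocks) define the flattened list; the
  edges are `pe (bar s_i) w_i s_{i+1}` by `pe_append`, the last one goes to the first letter `s_0`.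
  (For example: `pe (bar (s 0)) (w 0 ++ s 1 :: w 1 ++ ...) (s 0)` by induction on the number of
  blocks, then identify the last block using `Fin.last + 1 = 0`.)
* `mk_wrd`: `FreeGroup.mk (L1 ++ L2) = mk L1 * mk L2`, `FreeGroup.mk_toWord`.
-/

set_option autoImplicit false

namespace Pool.Agent.GRO

variable {k : ℕ}

theorem wrd_length {m : ℕ} (s : Fin m → Lt k) (g : Fin m → FG k) :
    (wrd s g).length = m + ∑ i, (g i).norm := by
  unfold wrd
  rw [List.length_flatten, List.map_ofFn, List.sum_ofFn]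
  simp only [Function.comp_apply, List.length_cons]
  rw [Finset.sum_add_distrib]
  simp [FreeGroup.norm, add_comm]

private theorem REL1_aux (q : Lt k) : ∀ (n : ℕ) (s : Fin (n + 1) → Lt k)
    (W : Fin (n + 1) → List (Lt k)),
    pe (bar (s 0)) (W 0 ++ (List.ofFn fun i : Fin n => s i.succ :: W i.succ).flatten) q =
      (List.ofFn fun i : Fin (n + 1) => pe (bar (s i)) (W i)
        (if h : i.val + 1 < n + 1 then s ⟨i.val + 1, h⟩ else q)).flatten := by
  intro n
  induction n with
  | zero =>
    intro s W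
    simp
  | succ n ih =>
    intro s W
    rw [List.ofFn_succ, List.flatten_cons, List.cons_append, pe_append]
    have h := ih (fun i => s i.succ) (fun i => W i.succ)
    rw [h, List.ofFn_succ (n := n + 1), List.flatten_cons]
    congr 1
    simp

private theorem REL1_edg {m : ℕ} [NeZero m] (s : Fin m → Lt k) (W : Fin m → List (Lt k)) :
    edg (List.ofFn fun i => s i :: W i).flatten =
      (List.ofFn fun i => pe (bar (s i)) (W i) (s (i + 1))).flatten := by
  cases m with
  | zero => exact absurd rfl (NeZero.ne 0)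
  | succ n =>
    rw [List.ofFn_succ, List.flatten_cons, List.cons_append]
    show pe (bar (s 0)) (W 0 ++ _) (s 0) = _
    rw [REL1_aux]
    congr 2
    funext i
    congr 1
    by_cases hi : i.val + 1 < n + 1
    · rw [dif_pos hi]
      congr 1
      apply Fin.ext
      rw [Fin.val_add, Fin.val_one', Nat.add_mod_mod, Nat.mod_eq_of_lt hi]
    · rw [dif_neg hi]
      congr 1
      apply Fin.ext
      have h2 : i.val = n := by omega
      rw [Fin.val_add, Fin.val_one', Nat.add_mod_mod, h2]
      simp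

private theorem REL1_edg' {m : ℕ} [NeZero m] (s : Fin m → Lt k) (g : Fin m → FG k) :
    edg (wrd s g) = (List.ofFn fun i => pe (bar (s i)) (g i).toWord (s (i + 1))).flatten :=
  REL1_edg s fun i => (g i).toWord

theorem mk_wrd {m : ℕ} (s : Fin m → Lt k) (g : Fin m → FG k) :
    FreeGroup.mk (wrd s g) = (List.ofFn fun i => lt (s i) * g i).prod := by
  have key : ∀ L : List (List (Lt k)),
      FreeGroup.mk L.flatten = (L.map fun l => (FreeGroup.mk l : FG k)).prod := by
    intro L
    induction L with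
    | nil => rfl
    | cons a L ih =>
      rw [List.flatten_cons, List.map_cons, List.prod_cons, ← ih, FreeGroup.mul_mk]
  unfold wrd
  rw [key, List.map_ofFn]
  congr 2
  funext i
  show FreeGroup.mk (s i :: (g i).toWord) = _
  rw [show s i :: (g i).toWord = [s i] ++ (g i).toWord from rfl, ← FreeGroup.mul_mk,
    FreeGroup.mk_toWord]
  rfl

theorem wrd_edg {m : ℕ} [NeZero m] (s : Fin m → Lt k) (g : Fin m → FG k) :
    (edg (wrd s g)).Perm
      (List.ofFn fun i => pe (bar (s i)) (g i).toWord (s (i + 1))).flatten := by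
  rw [REL1_edg']

theorem wrd_countP {m : ℕ} [NeZero m] (s : Fin m → Lt k) (g : Fin m → FG k)
    (f : Lt k × Lt k → Bool) :
    (edg (wrd s g)).countP f = ∑ i, (pe (bar (s i)) (g i).toWord (s (i + 1))).countP f := by
  rw [REL1_edg', List.countP_flatten, List.map_ofFn, List.sum_ofFn]
  rfl

theorem mem_edg_wrd {m : ℕ} [NeZero m] (s : Fin m → Lt k) (g : Fin m → FG k)
    (e : Lt k × Lt k) :
    e ∈ edg (wrd s g) ↔ ∃ i, e ∈ pe (bar (s i)) (g i).toWord (s (i + 1)) := by
  rw [REL1_edg', List.mem_flatten]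
  constructor
  · rintro ⟨l, hl, he⟩
    rw [List.mem_ofFn] at hl
    obtain ⟨i, rfl⟩ := hl
    exact ⟨i, he⟩
  · rintro ⟨i, he⟩
    exact ⟨_, List.mem_ofFn.2 ⟨i, rfl⟩, he⟩

theorem wrd_CR {Y : Finset (Fin k)} {m : ℕ} [NeZero m] {s : Fin m → Lt k} {g : Fin m → FG k}
    (h : Val Y s g) : CR (wrd s g) := by
  rw [PE_CR_iff]
  constructor
  · intro h0
    have h1 := wrd_length s g
    rw [h0, List.length_nil] at h1
    have := NeZero.ne m
    omega
  · intro e he
    rw [mem_edg_wrd] at he
    obtain ⟨i, he⟩ := he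
    revert e
    rw [PE_pe_ne_iff]
    have hw : ∀ a ∈ (g i).toWord, a.1 ∈ Y := (mem_FY Y (g i)).1 (h.hg i)
    have hred : List.IsChain (fun a b : Lt k => a.1 = b.1 → a.2 = b.2) (g i).toWord :=
      FreeGroup.isReduced_toWord
    by_cases hg : g i = 1
    · rw [hg, FreeGroup.toWord_one, List.nil_append, List.isChain_cons_cons]
      refine ⟨?_, List.isChain_singleton _⟩
      intro h1
      by_contra h2
      apply h.hr i hg
      have h3 : (s (i + 1)).2 = !(s i).2 := by
        cases hq : (s (i + 1)).2 <;> cases ha : (s i).2 <;> simp_all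
      ext
      · simp [bar, h1]
      · simp [bar, h3]
    · have hne : (g i).toWord ≠ [] := by
        intro h0
        exact hg (FreeGroup.toWord_eq_nil_iff.1 h0)
      rw [List.isChain_cons, List.isChain_append]
      refine ⟨?_, hred, List.isChain_singleton _, ?_⟩
      · intro y hy h1
        exfalso
        have hy' : y ∈ (g i).toWord.head? := by
          rw [List.head?_append_of_ne_nil _ hne] at hy
          exact hy
        have := hw y (List.mem_of_mem_head? hy')
        rw [← h1] at this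
        exact h.hs i this
      · intro x hx y hy h1
        exfalso
        have hy' : y = s (i + 1) := by simpa using hy.symm
        subst hy'
        have := hw x (List.mem_of_mem_getLast? hx)
        rw [h1] at this
        exact h.hs (i + 1) this

private theorem REL1_inv_head {g : FG k} {c : Lt k} :
    (g⁻¹).toWord.head? = some c ↔ g.toWord.getLast? = some (bar c) := by
  rw [FreeGroup.toWord_inv, FreeGroup.invRev, List.head?_reverse, List.getLast?_map]
  cases h : g.toWord.getLast? with
  | none => simp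
  | some d =>
    simp only [Option.map_some, Option.some.injEq]
    constructor
    · intro h1
      rw [← h1]
      simp [bar]
    · intro h1
      rw [h1]
      simp [bar]

private theorem REL1_cases {Y : Finset (Fin k)} : ∀ (w : List (Lt k)) (p q : Lt k),
    (∀ a ∈ w, a.1 ∈ Y) → ∀ e ∈ pe p w q,
    (w = [] ∧ e = (p, q)) ∨ (∃ c, w.head? = some c ∧ e = (p, c)) ∨
      (∃ c, w.getLast? = some (bar c) ∧ e = (c, q)) ∨ (e.1.1 ∈ Y ∧ e.2.1 ∈ Y) := by
  intro w
  induction w with
  | nil =>
    intro p q _ e he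
    simp only [pe, List.mem_singleton] at he
    exact Or.inl ⟨rfl, he⟩
  | cons a w ih =>
    intro p q hw e he
    simp only [pe, List.mem_cons] at he
    rcases he with he | he
    · exact Or.inr (Or.inl ⟨a, rfl, he⟩)
    · have ha : a.1 ∈ Y := hw a (List.mem_cons_self ..)
      rcases ih (bar a) q (fun b hb => hw b (List.mem_cons_of_mem _ hb)) e he with
        ⟨h1, h2⟩ | ⟨c, h1, h2⟩ | ⟨c, h1, h2⟩ | h
      · refine Or.inr (Or.inr (Or.inl ⟨bar a, ?_, h2⟩))
        rw [h1, bar_bar]
        rfl
      · refine Or.inr (Or.inr (Or.inr ?_))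
        rw [h2]
        exact ⟨ha, hw c (List.mem_cons_of_mem _ (List.mem_of_mem_head? h1))⟩
      · refine Or.inr (Or.inr (Or.inl ⟨c, ?_, h2⟩))
        rw [List.getLast?_cons, h1]
        rfl
      · exact Or.inr (Or.inr (Or.inr h))

/-- The first and the last edge of a passage, the inner edges. -/
theorem pe_cases {Y : Finset (Fin k)} {p q : Lt k} {g : FG k} (hg : g ∈ FY Y) {e : Lt k × Lt k}
    (he : e ∈ pe p g.toWord q) :
    (g = 1 ∧ e = (p, q)) ∨ (∃ c, g.toWord.head? = some c ∧ e = (p, c)) ∨
      (∃ c, (g⁻¹).toWord.head? = some c ∧ e = (c, q)) ∨ (e.1.1 ∈ Y ∧ e.2.1 ∈ Y) := by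
  rcases REL1_cases g.toWord p q ((mem_FY Y g).1 hg) e he with
    ⟨h1, h2⟩ | h | ⟨c, h1, h2⟩ | h
  · exact Or.inl ⟨FreeGroup.toWord_eq_nil_iff.1 h1, h2⟩
  · exact Or.inr (Or.inl h)
  · exact Or.inr (Or.inr (Or.inl ⟨c, REL1_inv_head.2 h1, h2⟩))
  · exact Or.inr (Or.inr (Or.inr h))

theorem pe_first {p q c : Lt k} {g : FG k} (h : g.toWord.head? = some c) :
    (p, c) ∈ pe p g.toWord q := by
  cases hw : g.toWord with
  | nil => rw [hw] at h; simp at h
  | cons a w =>
    rw [hw] at h
    simp only [List.head?_cons, Option.some.injEq] at h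
    subst h
    simp [pe]

theorem pe_last {p q c : Lt k} {g : FG k} (h : (g⁻¹).toWord.head? = some c) :
    (c, q) ∈ pe p g.toWord q := by
  rw [REL1_inv_head] at h
  rcases List.eq_nil_or_concat' g.toWord with hw | ⟨w, a, hw⟩
  · rw [hw] at h
    simp at h
  · rw [hw] at h ⊢
    rw [List.getLast?_concat, Option.some.injEq] at h
    rw [show w ++ [a] = w ++ a :: [] from rfl, pe_append, h]
    simp [pe, bar_bar]

theorem pe_one (p q : Lt k) : pe p (1 : FG k).toWord q = [(p, q)] := by
  rw [FreeGroup.toWord_one]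
  rfl

/-- Every letter of a relative word is one of the `s i` or a letter of a label. -/
theorem mem_wrd {m : ℕ} (s : Fin m → Lt k) (g : Fin m → FG k) (a : Lt k) :
    a ∈ wrd s g ↔ ∃ i, a = s i ∨ a ∈ (g i).toWord := by
  unfold wrd
  rw [List.mem_flatten]
  constructor
  · rintro ⟨l, hl, he⟩
    rw [List.mem_ofFn] at hl
    obtain ⟨i, rfl⟩ := hl
    exact ⟨i, List.mem_cons.1 he⟩
  · rintro ⟨i, he⟩
    exact ⟨_, List.mem_ofFn.2 ⟨i, rfl⟩, List.mem_cons.2 he⟩

theorem port_iff {Y : Finset (Fin k)} {m : ℕ} [NeZero m] {s : Fin m → Lt k}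
    {g : Fin m → FG k} (h : Val Y s g) {p : Lt k} (hp : p.1 ∉ Y) :
    Port s p ↔ Used (wrd s g) p := by
  unfold Port Used
  rw [mem_wrd, mem_wrd]
  constructor
  · rintro ⟨i, hi | hi⟩
    · exact Or.inl ⟨i, Or.inl hi⟩
    · exact Or.inr ⟨i, Or.inl (by rw [hi, bar_bar])⟩
  · rintro (⟨i, hi | hi⟩ | ⟨i, hi | hi⟩)
    · exact ⟨i, Or.inl hi⟩
    · exact absurd ((mem_FY Y (g i)).1 (h.hg i) _ hi) hp
    · exact ⟨i, Or.inr (by rw [← hi, bar_bar])⟩
    · exact absurd ((mem_FY Y (g i)).1 (h.hg i) _ hi) hp

end Pool.Agent.GRO
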