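import Pool.Agent.GRO.CUT
import Pool.Agent.GRO.REL1

/-!
# ADJ: adjacency in terms of relative words
By `mem_edg_wrd`, `pe_cases`, `pe_first`, `pe_last`, `pe_one`. (A letter outside `Y` occurs in the
edges of the passage `i` only as the start `bar (s i)` of the first edge and as the end `s (i+1)` of
the last edge.)
-/

set_option autoImplicit false

namespace Pool.Agent.GRO

variable {k : ℕ}

private theorem adj_head {Y : Finset (Fin k)} {g : FG k} (hg : g ∈ FY Y) {c : Lt k}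
    (h : g.toWord.head? = some c) : c.1 ∈ Y :=
  (mem_FY Y g).mp hg c (List.mem_of_mem_head? (by rw [h]; rfl))

private theorem adj_head_inv {Y : Finset (Fin k)} {g : FG k} (hg : g ∈ FY Y) {c : Lt k}
    (h : (g⁻¹).toWord.head? = some c) : c.1 ∈ Y :=
  adj_head ((FY Y).inv_mem hg) h

theorem adj_comm {l : List (Lt k)} {x y : Lt k} : Adj l x y ↔ Adj l y x := by
  unfold Adj
  exact or_comm

private theorem adj_out_aux {Y : Finset (Fin k)} {m : ℕ} [NeZero m] {s : Fin m → Lt k}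
    {g : Fin m → FG k} (hv : Val Y s g) {x y : Lt k} (hx : x.1 ∉ Y) (hy : y.1 ∉ Y) :
    (x, y) ∈ edg (wrd s g) ↔ ∃ i, g i = 1 ∧ (x = bar (s i) ∧ y = s (i + 1)) := by
  rw [mem_edg_wrd]
  constructor
  · rintro ⟨i, hi⟩
    refine ⟨i, ?_⟩
    rcases pe_cases (hv.hg i) hi with ⟨h1, h2⟩ | ⟨c, h1, h2⟩ | ⟨c, h1, h2⟩ | ⟨h1, h2⟩
    · rw [Prod.mk.injEq] at h2
      exact ⟨h1, h2⟩
    · rw [Prod.mk.injEq] at h2
      exact absurd (by rw [h2.2]; exact adj_head (hv.hg i) h1) hy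
    · rw [Prod.mk.injEq] at h2
      exact absurd (by rw [h2.1]; exact adj_head_inv (hv.hg i) h1) hx
    · exact absurd h1 hx
  · rintro ⟨i, h1, h2, h3⟩
    refine ⟨i, ?_⟩
    rw [h1, pe_one, h2, h3]
    exact List.mem_singleton.mpr rfl

theorem adj_out {Y : Finset (Fin k)} {m : ℕ} [NeZero m] {s : Fin m → Lt k} {g : Fin m → FG k}
    (hv : Val Y s g) {x y : Lt k} (hx : x.1 ∉ Y) (hy : y.1 ∉ Y) :
    Adj (wrd s g) x y ↔
      ∃ i, g i = 1 ∧ ((x = bar (s i) ∧ y = s (i + 1)) ∨ (y = bar (s i) ∧ x = s (i + 1))) := by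
  unfold Adj
  rw [adj_out_aux hv hx hy, adj_out_aux hv hy hx]
  constructor
  · rintro (⟨i, h1, h2⟩ | ⟨i, h1, h2⟩)
    · exact ⟨i, h1, Or.inl h2⟩
    · exact ⟨i, h1, Or.inr h2⟩
  · rintro ⟨i, h1, h2 | h2⟩
    · exact Or.inl ⟨i, h1, h2⟩
    · exact Or.inr ⟨i, h1, h2⟩

theorem adj_lv {Y : Finset (Fin k)} {m : ℕ} [NeZero m] {s : Fin m → Lt k} {g : Fin m → FG k}
    (hv : Val Y s g) {x c : Lt k} (hx : x.1 ∉ Y) (hc : c.1 ∈ Y) :
    Adj (wrd s g) x c ↔ Lv s g x c := by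
  unfold Adj Lv
  rw [mem_edg_wrd, mem_edg_wrd]
  constructor
  · rintro (⟨i, hi⟩ | ⟨i, hi⟩)
    · refine ⟨i, Or.inl ?_⟩
      rcases pe_cases (hv.hg i) hi with ⟨h1, h2⟩ | ⟨d, h1, h2⟩ | ⟨d, h1, h2⟩ | ⟨h1, h2⟩
      · rw [Prod.mk.injEq] at h2
        exact absurd (by rw [← h2.2]; exact hc) (hv.hs (i + 1))
      · rw [Prod.mk.injEq] at h2
        exact ⟨h2.1, by rw [h1, h2.2]⟩
      · rw [Prod.mk.injEq] at h2
        exact absurd (by rw [h2.1]; exact adj_head_inv (hv.hg i) h1) hx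
      · exact absurd h1 hx
    · refine ⟨i, Or.inr ?_⟩
      rcases pe_cases (hv.hg i) hi with ⟨h1, h2⟩ | ⟨d, h1, h2⟩ | ⟨d, h1, h2⟩ | ⟨h1, h2⟩
      · rw [Prod.mk.injEq] at h2
        exact absurd (show (bar (s i)).1 ∈ Y by rw [← h2.1]; exact hc) (hv.hs i)
      · rw [Prod.mk.injEq] at h2
        exact absurd (by rw [h2.2]; exact adj_head (hv.hg i) h1) hx
      · rw [Prod.mk.injEq] at h2
        exact ⟨h2.2, by rw [h1, h2.1]⟩
      · exact absurd h2 hx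
  · rintro ⟨i, ⟨h1, h2⟩ | ⟨h1, h2⟩⟩
    · refine Or.inl ⟨i, ?_⟩
      rw [h1]
      exact pe_first h2
    · refine Or.inr ⟨i, ?_⟩
      rw [h1]
      exact pe_last h2

theorem lv_mem {Y : Finset (Fin k)} {m : ℕ} [NeZero m] {s : Fin m → Lt k} {g : Fin m → FG k}
    (hv : Val Y s g) {x c : Lt k} (h : Lv s g x c) : c.1 ∈ Y ∧ x.1 ∉ Y := by
  obtain ⟨i, ⟨h1, h2⟩ | ⟨h1, h2⟩⟩ := h
  · refine ⟨adj_head (hv.hg i) h2, ?_⟩
    rw [h1]
    exact hv.hs i
  · refine ⟨adj_head_inv (hv.hg i) h2, ?_⟩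
    rw [h1]
    exact hv.hs (i + 1)

theorem adj_used {l : List (Lt k)} {x y : Lt k} (h : Adj l x y) : Used l x ∧ Used l y := by
  unfold Used
  rcases h with h | h
  · have h1 := edg_used _ h
    exact ⟨Or.inr h1.1, Or.inl h1.2⟩
  · have h1 := edg_used _ h
    exact ⟨Or.inl h1.2, Or.inr h1.1⟩

theorem adj_ne {l : List (Lt k)} (hl : CR l) {x y : Lt k} (h : Adj l x y) : x ≠ y := by
  rcases h with h | h
  · exact edg_ne hl _ h
  · exact (edg_ne hl _ h).symm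

/-- A used letter has a neighbour. -/
theorem used_adj {l : List (Lt k)} {x : Lt k} (h : Used l x) : ∃ y, Adj l x y := by
  rcases h with h | h
  · obtain ⟨⟨y, hy⟩, _⟩ := used_edg h
    exact ⟨y, Or.inr hy⟩
  · obtain ⟨_, ⟨y, hy⟩⟩ := used_edg h
    rw [bar_bar] at hy
    exact ⟨y, Or.inl hy⟩

end Pool.Agent.GRO
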