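import Pool.Agent.GRO.FBC

/-!
# ANA1: the recursive inequality
`Z = Σ exp (-s |l|)` over the finite set `O_N = {l ∈ O, |l| ≤ N}`. Let `b = s - s0 > 0`,
`t_i = t0 ^ 3 ^ i`, `B' = (N + 1) B`. Each `l ∈ O_N` has `(i, n, v)` by `hMS`. The sum over the `l` of
the first kind is at most the sum over `i ≤ J`, `n ≤ c1 t_i`, `v ∈ O_N`, `δ ≤ N` with
`8 δ ≥ t_i ^ 3` of `card {l | |l| = |v| + δ, Ch n l v} * exp (-s (|v| + δ))`
`≤ B'^n exp (s0 δ) exp (-s |v|) exp (-s δ) ≤ B'^n exp (-s |v|) exp (-b t_i^3 / 8)`, so at most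
`Z * Σ_i (c1 t_i + 1) * (N + 1) * B'^(c1 t_i) * exp (-b t_i^3 / 8)`.
Second kind: `|v| ≤ c1 t_i`: there are at most `(2 k + 1)^(c1 t_i + 1)` such lists `v` (lists over an
alphabet with `2 k` elements of length `≤ L`: at most `(2 k + 1)^(L + 1)`), and
`B'^n exp (s0 δ) exp (-s (|v| + δ)) ≤ B'^n` (`s ≥ s0 ≥ 0`), so at most
`Σ_i (c1 t_i + 1) * (N + 1) * B'^(c1 t_i) * (2 k + 1)^(c1 t_i + 1)`.
-/

set_option autoImplicit false

namespace Pool.Agent.GRO

variable {k : ℕ}

open Classical in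
/-- The sum `Σ exp (-s |l|)` over the words of `O` of length `≤ N`. -/
noncomputable def ZN (O : Set (List (Lt k))) (N : ℕ) (s : ℝ) : ℝ :=
  ∑ l ∈ (len_finite O N).toFinset, Real.exp (-s * l.length)

private theorem ANA1_card_lists (F : Finset (List (Lt k))) (L : ℕ) (hF : ∀ l ∈ F, l.length ≤ L) :
    (F.card : ℝ) ≤ (2 * (k : ℝ) + 1) ^ (L + 1) := by
  have h1 : F.card ≤ Fintype.card (Fin L → Option (Lt k)) := by
    rw [← Finset.card_univ]
    refine Finset.card_le_card_of_injOn (fun l => fun i : Fin L => l[(i : ℕ)]?)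
      (fun _ _ => Finset.mem_coe.2 (Finset.mem_univ _)) ?_
    intro l hl l' hl' h
    apply List.ext_getElem?
    intro i
    by_cases hi : i < L
    · exact congrFun h ⟨i, hi⟩
    · rw [List.getElem?_eq_none (by have := hF l hl; omega),
        List.getElem?_eq_none (by have := hF l' hl'; omega)]
  have h2 : Fintype.card (Fin L → Option (Lt k)) = (2 * k + 1) ^ L := by
    simp [Fintype.card_pi, Fintype.card_option, Fintype.card_prod, mul_comm]
  rw [h2] at h1
  have h3 : (F.card : ℝ) ≤ (2 * (k : ℝ) + 1) ^ L := by exact_mod_cast h1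
  refine h3.trans (pow_le_pow_right₀ ?_ (Nat.le_succ L))
  have : (0 : ℝ) ≤ k := Nat.cast_nonneg k
  linarith

theorem ana_rec (O : Set (List (Lt k))) (R : List (Lt k) → List (Lt k) → Prop) {s0 s : ℝ}
    (hs0 : 0 ≤ s0) (hs : s0 < s) (c1 J t0 N : ℕ) (B : ℝ) (hB : 1 ≤ B) (hFB : FB O N s0 R B)
    (hMS : ∀ l ∈ O, l.length ≤ N → ∃ i ≤ J, ∃ n ≤ c1 * t0 ^ 3 ^ i, ∃ v ∈ O, Ch O R n l v ∧
      v.length ≤ l.length ∧
      (8 * v.length + (t0 ^ 3 ^ i) ^ 3 ≤ 8 * l.length ∨ v.length ≤ c1 * t0 ^ 3 ^ i)) :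
    ZN O N s ≤
      ZN O N s * (∑ i ∈ Finset.range (J + 1), ((c1 * t0 ^ 3 ^ i : ℕ) + 1) * ((N : ℝ) + 1) *
        (((N : ℝ) + 1) * B) ^ (c1 * t0 ^ 3 ^ i) *
        Real.exp (-(s - s0) * ((t0 ^ 3 ^ i : ℕ) : ℝ) ^ 3 / 8)) +
      ∑ i ∈ Finset.range (J + 1), ((c1 * t0 ^ 3 ^ i : ℕ) + 1) * ((N : ℝ) + 1) *
        (((N : ℝ) + 1) * B) ^ (c1 * t0 ^ 3 ^ i) * (2 * (k : ℝ) + 1) ^ (c1 * t0 ^ 3 ^ i + 1) := by
  classical
  set F := (len_finite O N).toFinset with hF
  have memF : ∀ l, l ∈ F ↔ l ∈ O ∧ l.length ≤ N := by intro l; simp [hF]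
  set t : ℕ → ℕ := fun i => t0 ^ 3 ^ i with ht
  set B' : ℝ := ((N : ℝ) + 1) * B with hB'
  have hN0 : (0 : ℝ) ≤ N := Nat.cast_nonneg N
  have hB1 : 1 ≤ B' := by rw [hB']; nlinarith
  let Fib : ℕ → ℕ → List (Lt k) → Set (List (Lt k)) := fun n δ v =>
    {l | l ∈ O ∧ l.length ≤ N ∧ l.length = v.length + δ ∧ Ch O R n l v}
  let Q : ℕ → ℕ → List (Lt k) → Prop := fun i δ v =>
    (t i) ^ 3 ≤ 8 * δ ∨ v.length ≤ c1 * t i
  let E : ℕ → List (Lt k) → ℝ := fun δ v => Real.exp (-s * ((v.length : ℝ) + δ))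
  have hfibcard : ∀ n δ, ∀ v ∈ F, ((F.filter fun l => l ∈ Fib n δ v).card : ℝ) ≤
      B' ^ n * Real.exp (s0 * δ) := by
    intro n δ v hv
    have h1 := fb_chain hs0 hB hFB n v ((memF v).1 hv).1 δ
    refine le_trans ?_ h1
    have h2 : (F.filter fun l => l ∈ Fib n δ v).card ≤ (Fib n δ v).ncard := by
      rw [← Set.ncard_coe_finset]
      refine Set.ncard_le_ncard ?_ ((len_finite O N).subset fun l hl => ⟨hl.1, hl.2.1⟩)
      intro l hl
      exact (Finset.mem_filter.1 (Finset.mem_coe.1 hl)).2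
    exact_mod_cast h2
  -- pointwise bound
  have hpt : ∀ l ∈ F, Real.exp (-s * l.length) ≤
      ∑ i ∈ Finset.range (J + 1), ∑ n ∈ Finset.range (c1 * t i + 1),
        ∑ δ ∈ Finset.range (N + 1), ∑ v ∈ F,
          if Q i δ v ∧ l ∈ Fib n δ v then E δ v else 0 := by
    intro l hl
    obtain ⟨hlO, hlN⟩ := (memF l).1 hl
    obtain ⟨i, hi, n, hn, v, hv, hch, hle, hor⟩ := hMS l hlO hlN
    have hvF : v ∈ F := (memF v).2 ⟨hv, hle.trans hlN⟩
    have hnn : ∀ i n δ v, 0 ≤ (if Q i δ v ∧ l ∈ Fib n δ v then E δ v else 0) := by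
      intro i n δ v
      split_ifs
      · exact (Real.exp_pos _).le
      · exact le_rfl
    set δ := l.length - v.length with hδ
    have hδ1 : l.length = v.length + δ := by omega
    have hQ : Q i δ v := by
      rcases hor with h | h
      · left; show (t0 ^ 3 ^ i) ^ 3 ≤ 8 * δ; omega
      · right; exact h
    have hval : (if Q i δ v ∧ l ∈ Fib n δ v then E δ v else 0) = Real.exp (-s * l.length) := by
      rw [if_pos ⟨hQ, hlO, hlN, hδ1, hch⟩]
      show Real.exp (-s * ((v.length : ℝ) + δ)) = _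
      congr 2
      exact_mod_cast hδ1.symm
    rw [← hval]
    refine le_trans ?_ (Finset.single_le_sum (f := fun i => ∑ n ∈ Finset.range (c1 * t i + 1),
        ∑ δ ∈ Finset.range (N + 1), ∑ v ∈ F,
          if Q i δ v ∧ l ∈ Fib n δ v then E δ v else 0)
        (fun i _ => Finset.sum_nonneg fun n _ => Finset.sum_nonneg fun δ _ =>
          Finset.sum_nonneg fun v _ => hnn i n δ v) (Finset.mem_range.2 (by omega : i < J + 1)))
    refine le_trans ?_ (Finset.single_le_sum (f := fun n =>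
        ∑ δ ∈ Finset.range (N + 1), ∑ v ∈ F,
          if Q i δ v ∧ l ∈ Fib n δ v then E δ v else 0)
        (fun n _ => Finset.sum_nonneg fun δ _ =>
          Finset.sum_nonneg fun v _ => hnn i n δ v)
        (Finset.mem_range.2 (by show n < c1 * t0 ^ 3 ^ i + 1; omega)))
    refine le_trans ?_ (Finset.single_le_sum (f := fun δ => ∑ v ∈ F,
          if Q i δ v ∧ l ∈ Fib n δ v then E δ v else 0)
        (fun δ _ => Finset.sum_nonneg fun v _ => hnn i n δ v)
        (Finset.mem_range.2 (by omega : δ < N + 1)))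
    exact Finset.single_le_sum (f := fun v => if Q i δ v ∧ l ∈ Fib n δ v then E δ v else 0)
      (fun v _ => hnn i n δ v) hvF
  -- bound of each term
  have hterm : ∀ i, ∀ n ∈ Finset.range (c1 * t i + 1), ∀ δ, ∀ v ∈ F,
      (∑ l ∈ F, if Q i δ v ∧ l ∈ Fib n δ v then E δ v else 0) ≤
      B' ^ (c1 * t i) * Real.exp (-(s - s0) * ((t i : ℕ) : ℝ) ^ 3 / 8) *
        Real.exp (-s * v.length) +
      (if v.length ≤ c1 * t i then B' ^ (c1 * t i) else 0) := by
    intro i n hn δ v hv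
    have hn1 : n ≤ c1 * t i := by have := Finset.mem_range.1 hn; omega
    have hpow : B' ^ n ≤ B' ^ (c1 * t i) := pow_le_pow_right₀ hB1 hn1
    have hpos : 0 ≤ B' ^ (c1 * t i) := by positivity
    have hsum : (∑ l ∈ F, if Q i δ v ∧ l ∈ Fib n δ v then E δ v else 0) =
        if Q i δ v then ((F.filter fun l => l ∈ Fib n δ v).card : ℝ) * E δ v else 0 := by
      by_cases hq : Q i δ v
      · simp only [hq, true_and, if_true]
        rw [← Finset.sum_filter, Finset.sum_const, nsmul_eq_mul]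
      · simp [hq]
    rw [hsum]
    have hA : 0 ≤ B' ^ (c1 * t i) * Real.exp (-(s - s0) * ((t i : ℕ) : ℝ) ^ 3 / 8) *
        Real.exp (-s * v.length) := by positivity
    by_cases hq : Q i δ v
    · rw [if_pos hq]
      have hE : ((F.filter fun l => l ∈ Fib n δ v).card : ℝ) * E δ v ≤
          B' ^ (c1 * t i) * (Real.exp (-(s - s0) * δ) * Real.exp (-s * v.length)) := by
        have h1 : ((F.filter fun l => l ∈ Fib n δ v).card : ℝ) * E δ v ≤
            (B' ^ (c1 * t i) * Real.exp (s0 * δ)) * E δ v :=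
          mul_le_mul_of_nonneg_right ((hfibcard n δ v hv).trans
            (mul_le_mul_of_nonneg_right hpow (Real.exp_pos _).le)) (Real.exp_pos _).le
        refine h1.trans (le_of_eq ?_)
        show B' ^ (c1 * t i) * Real.exp (s0 * δ) * Real.exp (-s * ((v.length : ℝ) + δ)) = _
        rw [mul_assoc, ← Real.exp_add, ← Real.exp_add]
        congr 2; ring
      rcases hq with hq | hq
      · have h2 : Real.exp (-(s - s0) * δ) ≤
            Real.exp (-(s - s0) * ((t i : ℕ) : ℝ) ^ 3 / 8) := by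
          apply Real.exp_le_exp.2
          have : ((t i : ℕ) : ℝ) ^ 3 ≤ 8 * (δ : ℝ) := by exact_mod_cast hq
          nlinarith
        have h3 : B' ^ (c1 * t i) * (Real.exp (-(s - s0) * δ) * Real.exp (-s * v.length)) ≤
            B' ^ (c1 * t i) * Real.exp (-(s - s0) * ((t i : ℕ) : ℝ) ^ 3 / 8) *
            Real.exp (-s * v.length) := by
          rw [mul_assoc]
          exact mul_le_mul_of_nonneg_left
            (mul_le_mul_of_nonneg_right h2 (Real.exp_pos _).le) hpos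
        have h4 : 0 ≤ (if v.length ≤ c1 * t i then B' ^ (c1 * t i) else 0) := by
          split_ifs
          · exact hpos
          · exact le_rfl
        linarith
      · rw [if_pos hq]
        have h2 : Real.exp (-(s - s0) * δ) * Real.exp (-s * v.length) ≤ 1 := by
          rw [← Real.exp_add]
          apply Real.exp_le_one_iff.2
          have a1 : (0 : ℝ) ≤ δ := Nat.cast_nonneg δ
          have a2 : (0 : ℝ) ≤ v.length := Nat.cast_nonneg _
          nlinarith [mul_nonneg (sub_nonneg.2 hs.le) a1, mul_nonneg (hs0.trans hs.le) a2]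
        have h3 := mul_le_mul_of_nonneg_left h2 hpos
        linarith
    · rw [if_neg hq]
      have h4 : 0 ≤ (if v.length ≤ c1 * t i then B' ^ (c1 * t i) else 0) := by
        split_ifs
        · exact hpos
        · exact le_rfl
      linarith
  -- the number of short words
  have hshort : ∀ i, (∑ v ∈ F, if v.length ≤ c1 * t i then B' ^ (c1 * t i) else 0) ≤
      B' ^ (c1 * t i) * (2 * (k : ℝ) + 1) ^ (c1 * t i + 1) := by
    intro i
    rw [← Finset.sum_filter, Finset.sum_const, nsmul_eq_mul, mul_comm]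
    exact mul_le_mul_of_nonneg_left (ANA1_card_lists _ _ fun l hl => (Finset.mem_filter.1 hl).2)
      (by positivity)
  have hZ : ZN O N s = ∑ l ∈ F, Real.exp (-s * l.length) := rfl
  rw [hZ]
  calc ∑ l ∈ F, Real.exp (-s * l.length)
      ≤ ∑ l ∈ F, ∑ i ∈ Finset.range (J + 1), ∑ n ∈ Finset.range (c1 * t i + 1),
        ∑ δ ∈ Finset.range (N + 1), ∑ v ∈ F,
          (if Q i δ v ∧ l ∈ Fib n δ v then E δ v else 0) := Finset.sum_le_sum hpt
    _ = ∑ i ∈ Finset.range (J + 1), ∑ n ∈ Finset.range (c1 * t i + 1),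
        ∑ δ ∈ Finset.range (N + 1), ∑ v ∈ F, ∑ l ∈ F,
          (if Q i δ v ∧ l ∈ Fib n δ v then E δ v else 0) := by
        rw [Finset.sum_comm]
        refine Finset.sum_congr rfl fun i _ => ?_
        rw [Finset.sum_comm]
        refine Finset.sum_congr rfl fun n _ => ?_
        rw [Finset.sum_comm]
        refine Finset.sum_congr rfl fun δ _ => ?_
        rw [Finset.sum_comm]
    _ ≤ ∑ i ∈ Finset.range (J + 1), ∑ n ∈ Finset.range (c1 * t i + 1),
        ∑ δ ∈ Finset.range (N + 1), ∑ v ∈ F,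
          (B' ^ (c1 * t i) * Real.exp (-(s - s0) * ((t i : ℕ) : ℝ) ^ 3 / 8) *
            Real.exp (-s * v.length) +
          (if v.length ≤ c1 * t i then B' ^ (c1 * t i) else 0)) :=
        Finset.sum_le_sum fun i _ => Finset.sum_le_sum fun n hn => Finset.sum_le_sum fun δ _ =>
          Finset.sum_le_sum fun v hv => hterm i n hn δ v hv
    _ = ∑ i ∈ Finset.range (J + 1), (((c1 * t i : ℕ) : ℝ) + 1) * ((N : ℝ) + 1) *
          (B' ^ (c1 * t i) * Real.exp (-(s - s0) * ((t i : ℕ) : ℝ) ^ 3 / 8) *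
            (∑ v ∈ F, Real.exp (-s * v.length)) +
          ∑ v ∈ F, (if v.length ≤ c1 * t i then B' ^ (c1 * t i) else 0)) := by
        refine Finset.sum_congr rfl fun i _ => ?_
        rw [Finset.sum_const, Finset.sum_const, Finset.card_range, Finset.card_range,
          Finset.sum_add_distrib, ← Finset.mul_sum, nsmul_eq_mul, nsmul_eq_mul]
        push_cast
        ring
    _ ≤ ∑ i ∈ Finset.range (J + 1), (((c1 * t i : ℕ) : ℝ) + 1) * ((N : ℝ) + 1) *
          (B' ^ (c1 * t i) * Real.exp (-(s - s0) * ((t i : ℕ) : ℝ) ^ 3 / 8) *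
            (∑ v ∈ F, Real.exp (-s * v.length)) +
          B' ^ (c1 * t i) * (2 * (k : ℝ) + 1) ^ (c1 * t i + 1)) :=
        Finset.sum_le_sum fun i _ => mul_le_mul_of_nonneg_left
          (add_le_add le_rfl (hshort i)) (by positivity)
    _ = _ := by
        rw [Finset.mul_sum, ← Finset.sum_add_distrib]
        refine Finset.sum_congr rfl fun i _ => ?_
        simp only [ht]
        ring

end Pool.Agent.GRO
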