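import Mathlib

/-!
# ANA2: asymptotics (pure real analysis)
Take `t0 N = (Nat.log 2 (N + 2))^2 + c1` and `B = (N+2)^c`. With `L = log (N + 2)`, `t = t0^(3^i) ≥ t0 ≥
a L²` (some `a > 0`):
* `coef_small`: each summand is at most
  `exp (C * t * L - b t³ / 8)` with `C = C(c, c1)` (use `c1 t + 1 ≤ exp (c1 t)`, `N + 1 ≤ exp L`), and
  `t³ ≥ t * t0² ≥ a² t L⁴`, so the exponent is `≤ -t` for large `N`, uniformly in `i ≤ J`, and the sum
  is at most `(J + 1) exp (-t0) ≤ 1 / 2`.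
* `rem_small`: each summand is at most `exp (C t_J L)` with `t_J = t0^(3^J) ≤ (C' L)^(2 * 3^J)`, which is
  `exp (o(N))`.
-/

set_option autoImplicit false

open Filter

namespace Pool.Agent.GRO

/-- The first threshold. -/
def tn (c1 N : ℕ) : ℕ := (Nat.log 2 (N + 2)) ^ 2 + c1

private theorem ANA2_log_tendsto : Tendsto (fun N : ℕ => Nat.log 2 (N + 2)) atTop atTop :=
  Filter.tendsto_atTop.2 fun b => eventually_atTop.2 ⟨2 ^ b, fun _ hN =>
    Nat.le_log_of_pow_le one_lt_two (le_trans hN (Nat.le_add_right _ _))⟩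

private theorem ANA2_N_le (N : ℕ) : (N : ℝ) + 2 ≤ Real.exp ((Nat.log 2 (N + 2) : ℕ) + 1) := by
  have h1 : N + 2 < 2 ^ (Nat.log 2 (N + 2) + 1) := Nat.lt_pow_succ_log_self one_lt_two _
  have h2 : ((N + 2 : ℕ) : ℝ) ≤ ((2 ^ (Nat.log 2 (N + 2) + 1) : ℕ) : ℝ) := by exact_mod_cast h1.le
  have h3 : (2 : ℝ) ≤ Real.exp 1 := by
    have := Real.add_one_le_exp (1 : ℝ); linarith
  have h4 : (2 : ℝ) ^ (Nat.log 2 (N + 2) + 1) ≤ (Real.exp 1) ^ (Nat.log 2 (N + 2) + 1) :=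
    pow_le_pow_left₀ (by norm_num) h3 _
  have h5 : (Real.exp 1) ^ (Nat.log 2 (N + 2) + 1) = Real.exp ((Nat.log 2 (N + 2) : ℕ) + 1) := by
    rw [← Real.exp_nat_mul]; congr 1; push_cast; ring
  rw [← h5]
  refine le_trans ?_ h4
  have : ((N + 2 : ℕ) : ℝ) = (N : ℝ) + 2 := by push_cast; ring
  rw [← this]
  refine h2.trans (le_of_eq ?_)
  push_cast; ring

private theorem ANA2_pow_le (N : ℕ) : (2 : ℝ) ^ (Nat.log 2 (N + 2)) ≤ (N : ℝ) + 2 := by
  have h1 : 2 ^ (Nat.log 2 (N + 2)) ≤ N + 2 := Nat.pow_log_le_self 2 (by omega)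
  have : (((2 ^ (Nat.log 2 (N + 2)) : ℕ)) : ℝ) ≤ ((N + 2 : ℕ) : ℝ) := by exact_mod_cast h1
  push_cast at this
  exact this

private theorem ANA2_term (c c1 N t : ℕ) (ht : 1 ≤ t) (L : ℝ) (hL : 1 ≤ L)
    (hN : (N : ℝ) + 2 ≤ Real.exp L) :
    (((c1 * t : ℕ) : ℝ) + 1) * ((N : ℝ) + 1) * (((N : ℝ) + 1) * ((N : ℝ) + 2) ^ c) ^ (c1 * t) ≤
      Real.exp (((c1 : ℝ) + 1 + (c + 1) * c1) * t * L) := by
  have hN0 : (0 : ℝ) ≤ N := Nat.cast_nonneg N
  have ht1 : (1 : ℝ) ≤ t := by exact_mod_cast ht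
  have hc : (0 : ℝ) ≤ c := Nat.cast_nonneg c
  have hc1 : (0 : ℝ) ≤ c1 := Nat.cast_nonneg c1
  have e1 : ((c1 * t : ℕ) : ℝ) + 1 ≤ Real.exp ((c1 : ℝ) * t) := by
    have := Real.add_one_le_exp ((c1 : ℝ) * t)
    push_cast; exact this
  have e2 : (N : ℝ) + 1 ≤ Real.exp L := by linarith
  have e3 : ((N : ℝ) + 1) * ((N : ℝ) + 2) ^ c ≤ Real.exp (((c : ℝ) + 1) * L) := by
    have : Real.exp (((c : ℝ) + 1) * L) = Real.exp L * Real.exp L ^ c := by
      rw [← Real.exp_nat_mul, ← Real.exp_add]; congr 1; ring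
    rw [this]
    exact mul_le_mul e2 (pow_le_pow_left₀ (by linarith) hN c) (by positivity) (Real.exp_pos _).le
  have e4 : (((N : ℝ) + 1) * ((N : ℝ) + 2) ^ c) ^ (c1 * t) ≤
      Real.exp (((c1 : ℝ) * t) * (((c : ℝ) + 1) * L)) := by
    have : Real.exp (((c1 : ℝ) * t) * (((c : ℝ) + 1) * L)) =
        (Real.exp (((c : ℝ) + 1) * L)) ^ (c1 * t) := by
      rw [← Real.exp_nat_mul]; congr 1; push_cast; ring
    rw [this]
    exact pow_le_pow_left₀ (by positivity) e3 _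
  calc _ ≤ Real.exp ((c1 : ℝ) * t) * Real.exp L *
        Real.exp (((c1 : ℝ) * t) * (((c : ℝ) + 1) * L)) := by
        refine mul_le_mul (mul_le_mul e1 e2 (by positivity) (Real.exp_pos _).le) e4
          (by positivity) (by positivity)
    _ = Real.exp ((c1 : ℝ) * t + L + ((c1 : ℝ) * t) * (((c : ℝ) + 1) * L)) := by
        rw [← Real.exp_add, ← Real.exp_add]
    _ ≤ _ := by
        apply Real.exp_le_exp.2
        have a1 : (c1 : ℝ) * t ≤ c1 * t * L := by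
          have : 0 ≤ (c1 : ℝ) * t := by positivity
          nlinarith
        have a2 : L ≤ t * L := by nlinarith
        nlinarith

theorem coef_small {b : ℝ} (hb : 0 < b) (c c1 J : ℕ) :
    ∀ᶠ N : ℕ in atTop,
      (∑ i ∈ Finset.range (J + 1), ((c1 * (tn c1 N) ^ 3 ^ i : ℕ) + 1) * ((N : ℝ) + 1) *
        (((N : ℝ) + 1) * ((N : ℝ) + 2) ^ c) ^ (c1 * (tn c1 N) ^ 3 ^ i) *
        Real.exp (-b * (((tn c1 N) ^ 3 ^ i : ℕ) : ℝ) ^ 3 / 8)) ≤ 1 / 2 := by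
  set C : ℝ := (c1 : ℝ) + 1 + (c + 1) * c1 with hC
  have hC1 : 1 ≤ C := by
    have hc : (0 : ℝ) ≤ c := Nat.cast_nonneg c
    have hc1 : (0 : ℝ) ≤ c1 := Nat.cast_nonneg c1
    have : 0 ≤ ((c : ℝ) + 1) * c1 := by positivity
    linarith
  set M : ℝ := Real.log (2 * ((J : ℝ) + 1)) with hM
  have hM0 : 0 ≤ M := Real.log_nonneg (by have : (0:ℝ) ≤ J := Nat.cast_nonneg J; linarith)
  obtain ⟨n0, hn0⟩ := exists_nat_ge (8 * (2 * C + M) / b)
  filter_upwards [ANA2_log_tendsto.eventually_ge_atTop (n0 + 1)] with N hN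
  set n := Nat.log 2 (N + 2) with hn
  have hn1 : 1 ≤ n := by omega
  have hnr : (1 : ℝ) ≤ n := by exact_mod_cast hn1
  have hkey : 8 * (2 * C + M) ≤ b * n := by
    have h1 : (n0 : ℝ) ≤ n := by exact_mod_cast (by omega : n0 ≤ n)
    have h2 : 8 * (2 * C + M) / b ≤ n := hn0.trans h1
    rw [div_le_iff₀ hb] at h2
    linarith
  have hterm : ∀ i ∈ Finset.range (J + 1), (((c1 * (tn c1 N) ^ 3 ^ i : ℕ) : ℝ) + 1) * ((N : ℝ) + 1) *
        (((N : ℝ) + 1) * ((N : ℝ) + 2) ^ c) ^ (c1 * (tn c1 N) ^ 3 ^ i) *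
        Real.exp (-b * (((tn c1 N) ^ 3 ^ i : ℕ) : ℝ) ^ 3 / 8) ≤ Real.exp (-M) := by
    intro i _
    have htn : n ^ 2 ≤ tn c1 N := Nat.le_add_right _ _
    have htn1 : 1 ≤ tn c1 N := le_trans (Nat.one_le_pow _ _ hn1) htn
    set t := (tn c1 N) ^ 3 ^ i with ht
    have ht1 : n ^ 2 ≤ t := htn.trans (Nat.le_self_pow (by positivity) _)
    have ht2 : 1 ≤ t := le_trans (Nat.one_le_pow _ _ hn1) ht1
    have h1 := ANA2_term c c1 N t ht2 ((n : ℝ) + 1) (by linarith) (ANA2_N_le N)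
    calc _ ≤ Real.exp (C * t * ((n : ℝ) + 1)) * Real.exp (-b * ((t : ℕ) : ℝ) ^ 3 / 8) :=
          mul_le_mul_of_nonneg_right h1 (Real.exp_pos _).le
      _ = Real.exp (C * t * ((n : ℝ) + 1) + -b * ((t : ℕ) : ℝ) ^ 3 / 8) := by rw [Real.exp_add]
      _ ≤ Real.exp (-M) := by
          apply Real.exp_le_exp.2
          have htr : ((n : ℝ)) ^ 2 ≤ t := by exact_mod_cast ht1
          have ht0 : (1 : ℝ) ≤ t := by exact_mod_cast ht2
          have h2 : ((n : ℝ)) ^ 4 ≤ (t : ℝ) ^ 2 := by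
            have := pow_le_pow_left₀ (by positivity) htr 2
            nlinarith [this]
          -- C (n+1) + M ≤ b t^2 / 8
          have h3 : (n : ℝ) ^ 2 ≤ (n : ℝ) ^ 4 := by
            have : (1 : ℝ) ≤ (n : ℝ) ^ 2 := by nlinarith
            nlinarith
          have h4 : (2 * C + M) * n ≤ b * (n : ℝ) ^ 2 / 8 := by nlinarith
          have h5 : C * ((n : ℝ) + 1) + M ≤ (2 * C + M) * n := by nlinarith
          have h6 : C * ((n : ℝ) + 1) + M ≤ b * (t : ℝ) ^ 2 / 8 := by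
            have : b * (n : ℝ) ^ 2 ≤ b * (t : ℝ) ^ 2 :=
              mul_le_mul_of_nonneg_left (h3.trans h2) hb.le
            linarith
          have h7 : (C * ((n : ℝ) + 1) + M) * t ≤ b * (t : ℝ) ^ 2 / 8 * t :=
            mul_le_mul_of_nonneg_right h6 (by linarith)
          have h8 : M ≤ M * t := by nlinarith
          nlinarith
  calc _ ≤ ∑ i ∈ Finset.range (J + 1), Real.exp (-M) := Finset.sum_le_sum hterm
    _ = ((J : ℝ) + 1) * Real.exp (-M) := by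
        rw [Finset.sum_const, Finset.card_range, nsmul_eq_mul]; push_cast; ring
    _ = 1 / 2 := by
        have hJ : (0 : ℝ) < 2 * ((J : ℝ) + 1) := by positivity
        rw [Real.exp_neg, hM, Real.exp_log hJ]
        field_simp
    _ ≤ 1 / 2 := le_rfl

theorem rem_small {ε : ℝ} (hε : 0 < ε) (c c1 J k : ℕ) :
    ∀ᶠ N : ℕ in atTop,
      (∑ i ∈ Finset.range (J + 1), ((c1 * (tn c1 N) ^ 3 ^ i : ℕ) + 1) * ((N : ℝ) + 1) *
        (((N : ℝ) + 1) * ((N : ℝ) + 2) ^ c) ^ (c1 * (tn c1 N) ^ 3 ^ i) *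
        (2 * (k : ℝ) + 1) ^ (c1 * (tn c1 N) ^ 3 ^ i + 1)) ≤ Real.exp (ε * N) / 2 := by
  set C : ℝ := (c1 : ℝ) + 1 + (c + 1) * c1 + 2 * k * (c1 + 1) with hC
  have hC1 : 1 ≤ C := by
    have hc : (0 : ℝ) ≤ c := Nat.cast_nonneg c
    have hc1 : (0 : ℝ) ≤ c1 := Nat.cast_nonneg c1
    have : 0 ≤ ((c : ℝ) + 1) * c1 := by positivity
    have : 0 ≤ 2 * (k : ℝ) * (c1 + 1) := by positivity
    linarith
  set M : ℝ := Real.log (2 * ((J : ℝ) + 1)) with hM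
  have hM0 : 0 ≤ M := Real.log_nonneg (by have : (0:ℝ) ≤ J := Nat.cast_nonneg J; linarith)
  set K : ℕ := 3 * 3 ^ J + 2 with hK
  have hlo : ∀ᶠ n : ℕ in atTop, (C + M + 2 * ε) * (n : ℝ) ^ K ≤ ε * (2 : ℝ) ^ n := by
    have h := (isLittleO_pow_const_const_pow_of_one_lt (R := ℝ) K (r := (2 : ℝ)) one_lt_two).def
      (c := ε / (C + M + 2 * ε)) (by positivity)
    filter_upwards [h] with n hn
    rw [Real.norm_of_nonneg (by positivity), Real.norm_of_nonneg (by positivity)] at hn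
    have h0 : 0 < C + M + 2 * ε := by positivity
    calc (C + M + 2 * ε) * (n : ℝ) ^ K ≤ (C + M + 2 * ε) * (ε / (C + M + 2 * ε) * 2 ^ n) :=
          mul_le_mul_of_nonneg_left hn h0.le
      _ = ε * (2 : ℝ) ^ n := by field_simp
  filter_upwards [ANA2_log_tendsto.eventually hlo,
    ANA2_log_tendsto.eventually_ge_atTop (c1 + 2)] with N hN1 hN2
  set n := Nat.log 2 (N + 2) with hn
  have hn2 : 2 ≤ n := by omega
  have hnr : (2 : ℝ) ≤ n := by exact_mod_cast hn2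
  have htn : n ^ 2 ≤ tn c1 N := Nat.le_add_right _ _
  have htn1 : 1 ≤ tn c1 N := le_trans (Nat.one_le_pow _ _ (by omega)) htn
  have htn3 : tn c1 N ≤ n ^ 3 := by
    have h1 : c1 ≤ n := by omega
    show n ^ 2 + c1 ≤ n ^ 3
    nlinarith [sq_nonneg n]
  have hexp : ∀ t : ℕ, t ≤ (tn c1 N) ^ 3 ^ J → C * t * ((n : ℝ) + 1) ≤ ε * N - M := by
    intro t ht
    have h1 : (t : ℝ) ≤ (n : ℝ) ^ (3 * 3 ^ J) := by
      have : t ≤ n ^ (3 * 3 ^ J) := by
        refine ht.trans ?_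
        rw [pow_mul]
        exact Nat.pow_le_pow_left htn3 _
      exact_mod_cast this
    have h2 : (n : ℝ) + 1 ≤ (n : ℝ) ^ 2 := by nlinarith
    have h3 : (t : ℝ) * ((n : ℝ) + 1) ≤ (n : ℝ) ^ K := by
      rw [hK, pow_add]
      exact mul_le_mul h1 h2 (by positivity) (by positivity)
    have h4 := ANA2_pow_le N
    have h5 : (1 : ℝ) ≤ (n : ℝ) ^ K := one_le_pow₀ (by linarith)
    have h6 : ε * (2 : ℝ) ^ n ≤ ε * ((N : ℝ) + 2) := mul_le_mul_of_nonneg_left h4 hε.le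
    have h7 : C * ((t : ℝ) * ((n : ℝ) + 1)) ≤ C * (n : ℝ) ^ K :=
      mul_le_mul_of_nonneg_left h3 (by linarith)
    have h8 : M ≤ M * (n : ℝ) ^ K := by nlinarith
    have h9 : 2 * ε ≤ 2 * ε * (n : ℝ) ^ K := by nlinarith
    nlinarith
  have hterm : ∀ i ∈ Finset.range (J + 1), (((c1 * (tn c1 N) ^ 3 ^ i : ℕ) : ℝ) + 1) * ((N : ℝ) + 1) *
        (((N : ℝ) + 1) * ((N : ℝ) + 2) ^ c) ^ (c1 * (tn c1 N) ^ 3 ^ i) *
        (2 * (k : ℝ) + 1) ^ (c1 * (tn c1 N) ^ 3 ^ i + 1) ≤ Real.exp (ε * N - M) := by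
    intro i hi
    have hiJ : 3 ^ i ≤ 3 ^ J := Nat.pow_le_pow_right (by norm_num) (by
      have := Finset.mem_range.1 hi; omega)
    set t := (tn c1 N) ^ 3 ^ i with ht
    have htJ : t ≤ (tn c1 N) ^ 3 ^ J := Nat.pow_le_pow_right htn1 hiJ
    have ht2 : 1 ≤ t := Nat.one_le_pow _ _ htn1
    have h1 := ANA2_term c c1 N t ht2 ((n : ℝ) + 1) (by linarith) (ANA2_N_le N)
    have h2 : (2 * (k : ℝ) + 1) ^ (c1 * t + 1) ≤ Real.exp (2 * k * (c1 + 1) * t * ((n : ℝ) + 1)) := by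
      have e1 : 2 * (k : ℝ) + 1 ≤ Real.exp (2 * k) := Real.add_one_le_exp _
      have e2 : (2 * (k : ℝ) + 1) ^ (c1 * t + 1) ≤ (Real.exp (2 * k)) ^ (c1 * t + 1) :=
        pow_le_pow_left₀ (by positivity) e1 _
      refine e2.trans ?_
      rw [← Real.exp_nat_mul]
      apply Real.exp_le_exp.2
      have ht0 : (1 : ℝ) ≤ t := by exact_mod_cast ht2
      have hc1 : (0 : ℝ) ≤ c1 := Nat.cast_nonneg c1
      have hk0 : (0 : ℝ) ≤ k := Nat.cast_nonneg k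
      push_cast
      have e3 : (c1 : ℝ) * t + 1 ≤ (c1 + 1) * t := by nlinarith
      have e4 : ((c1 : ℝ) + 1) * t ≤ (c1 + 1) * t * ((n : ℝ) + 1) := by
        have : 0 ≤ ((c1 : ℝ) + 1) * t := by positivity
        nlinarith
      calc ((c1 : ℝ) * t + 1) * (2 * k) ≤ ((c1 + 1) * t * ((n : ℝ) + 1)) * (2 * k) :=
            mul_le_mul_of_nonneg_right (e3.trans e4) (by positivity)
        _ = 2 * k * (c1 + 1) * t * ((n : ℝ) + 1) := by ring
    calc _ ≤ Real.exp (((c1 : ℝ) + 1 + (c + 1) * c1) * t * ((n : ℝ) + 1)) *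
          Real.exp (2 * k * (c1 + 1) * t * ((n : ℝ) + 1)) :=
          mul_le_mul h1 h2 (by positivity) (Real.exp_pos _).le
      _ = Real.exp (C * t * ((n : ℝ) + 1)) := by
          rw [← Real.exp_add]; congr 1; rw [hC]; ring
      _ ≤ Real.exp (ε * N - M) := Real.exp_le_exp.2 (hexp t htJ)
  calc _ ≤ ∑ i ∈ Finset.range (J + 1), Real.exp (ε * N - M) := Finset.sum_le_sum hterm
    _ = ((J : ℝ) + 1) * Real.exp (ε * N - M) := by
        rw [Finset.sum_const, Finset.card_range, nsmul_eq_mul]; push_cast; ring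
    _ = Real.exp (ε * N) / 2 := by
        have hJ : (0 : ℝ) < 2 * ((J : ℝ) + 1) := by positivity
        rw [Real.exp_sub, hM, Real.exp_log hJ]
        field_simp
    _ ≤ Real.exp (ε * N) / 2 := le_rfl

end Pool.Agent.GRO
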