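import Pool.Agent.GRO.GAU

/-!
# CNTF: counting words of a free factor
* `cntF`: the reduced words of length `n` over `r = card Y` generators: for `n = 0` one, for `n ≥ 1` at
  most `2 r (2 r - 1)^(n-1)`. (Induction: a reduced word of length `n + 1` is a reduced word of
  length `n` prolonged by a letter different from the inverse of the last letter.) Note `2 r ≤ 2 k + 1`
  and for `r = 0` only the empty word (natural subtraction `2 * 0 - 1 = 0`).
* `cntLow`: words of length `n + 1` over `Y` whose first letter is not one of two given letters: there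
  are at least `2 r - 2 ≥ 1` first letters, then `2 r - 1` choices for each further letter. Build an
  injective map from `Fin n → Fin (2 r - 1)` (for every letter `c` fix an injection of
  `Fin (2 r - 1)` into the letters over `Y` different from `bar c`).
-/

set_option autoImplicit false

namespace Pool.Agent.GRO

variable {k : ℕ}

private theorem cntf_bar (a b : Lt k) : b ≠ bar a ↔ (a.1 = b.1 → a.2 = b.2) := by
  obtain ⟨a1, a2⟩ := a
  obtain ⟨b1, b2⟩ := b
  simp only [bar, ne_eq, Prod.mk.injEq]
  cases a2 <;> cases b2 <;> simp [eq_comm]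

/-- letters over `Y` -/
private def cntfL (Y : Finset (Fin k)) : Finset (Lt k) := Y ×ˢ Finset.univ

private theorem cntf_mem (Y : Finset (Fin k)) (a : Lt k) : a ∈ cntfL Y ↔ a.1 ∈ Y := by
  unfold cntfL
  simp [Finset.mem_product]

private theorem cntf_card (Y : Finset (Fin k)) : (cntfL Y).card = 2 * Y.card := by
  unfold cntfL
  rw [Finset.card_product]
  simp [mul_comm]

/-- the words of length `n` over `Y` which can follow the letter `a` -/
private def cntfW (Y : Finset (Fin k)) : ℕ → Lt k → Finset (List (Lt k))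
  | 0, _ => {[]}
  | n + 1, a => ((cntfL Y).erase (bar a)).biUnion fun b => (cntfW Y n b).image (b :: ·)

private theorem cntfW_card (Y : Finset (Fin k)) (n : ℕ) (a : Lt k) (ha : a.1 ∈ Y) :
    (cntfW Y n a).card = (2 * Y.card - 1) ^ n := by
  induction n generalizing a with
  | zero => simp [cntfW]
  | succ n ih =>
    unfold cntfW
    rw [Finset.card_biUnion]
    · have h1 : ∀ b ∈ (cntfL Y).erase (bar a),
          ((cntfW Y n b).image (b :: ·)).card = (2 * Y.card - 1) ^ n := by
        intro b hb
        rw [Finset.card_image_of_injective _ (List.cons_injective)]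
        exact ih b ((cntf_mem Y b).1 (Finset.mem_of_mem_erase hb))
      rw [Finset.sum_congr rfl h1, Finset.sum_const, Finset.card_erase_of_mem, cntf_card,
        smul_eq_mul, pow_succ, mul_comm]
      rw [cntf_mem]
      exact ha
    · intro b _ b' _ hbb
      refine Finset.disjoint_left.2 fun l h1 h2 => hbb ?_
      rw [Finset.mem_image] at h1 h2
      obtain ⟨l1, -, rfl⟩ := h1
      obtain ⟨l2, -, h3⟩ := h2
      simp only [List.cons.injEq] at h3
      exact h3.1.symm

private theorem cntfW_mem (Y : Finset (Fin k)) (n : ℕ) (a : Lt k) (l : List (Lt k)) :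
    l ∈ cntfW Y n a ↔ l.length = n ∧ (∀ x ∈ l, x.1 ∈ Y) ∧ FreeGroup.IsReduced (a :: l) := by
  induction n generalizing a l with
  | zero =>
    unfold cntfW
    rw [Finset.mem_singleton]
    constructor
    · rintro rfl
      simp
    · rintro ⟨h, -, -⟩
      exact List.length_eq_zero_iff.1 h
  | succ n ih =>
    unfold cntfW
    rw [Finset.mem_biUnion]
    constructor
    · rintro ⟨b, hb, hl⟩
      rw [Finset.mem_image] at hl
      obtain ⟨l', hl', rfl⟩ := hl
      rw [Finset.mem_erase, cntf_mem] at hb
      obtain ⟨h1, h2, h3⟩ := (ih b l').1 hl'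
      refine ⟨by simp [h1], ?_, ?_⟩
      · intro x hx
        rcases List.mem_cons.1 hx with rfl | hx
        · exact hb.2
        · exact h2 x hx
      · exact List.isChain_cons_cons.2 ⟨(cntf_bar a b).1 hb.1, h3⟩
    · rintro ⟨h1, h2, h3⟩
      rcases l with _ | ⟨b, l'⟩
      · simp at h1
      · have h4 := List.isChain_cons_cons.1 h3
        refine ⟨b, ?_, ?_⟩
        · rw [Finset.mem_erase, cntf_mem]
          exact ⟨(cntf_bar a b).2 h4.1, h2 b (List.mem_cons_self ..)⟩
        · rw [Finset.mem_image]
          refine ⟨l', (ih b l').2 ⟨by simpa using h1, fun x hx => h2 x (List.mem_cons_of_mem _ hx),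
            h4.2⟩, rfl⟩

theorem cntF (Y : Finset (Fin k)) (n : ℕ) :
    {h : FG k | h ∈ FY Y ∧ h.norm = n}.Finite ∧
      {h : FG k | h ∈ FY Y ∧ h.norm = n}.ncard ≤ (2 * k + 1) * (2 * Y.card - 1) ^ n := by
  classical
  rcases n with _ | n
  · have hsub : {h : FG k | h ∈ FY Y ∧ h.norm = 0} ⊆ {1} := by
      rintro h ⟨-, h2⟩
      exact FreeGroup.norm_eq_zero.1 h2
    refine ⟨(Set.finite_singleton _).subset hsub, ?_⟩
    have := Set.ncard_le_ncard hsub (Set.finite_singleton _)
    rw [Set.ncard_singleton] at this
    simp only [pow_zero, mul_one]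
    omega
  · set A : Finset (FG k) := (cntfL Y).biUnion fun b =>
      (cntfW Y n b).image fun l => FreeGroup.mk (b :: l) with hA
    have hsub : {h : FG k | h ∈ FY Y ∧ h.norm = n + 1} ⊆ ↑A := by
      rintro h ⟨h1, h2⟩
      rw [mem_FY] at h1
      have h3 : h.toWord.length = n + 1 := h2
      have h4 : FreeGroup.IsReduced h.toWord := FreeGroup.isReduced_toWord
      have h5 : FreeGroup.mk h.toWord = h := FreeGroup.mk_toWord
      rcases hw : h.toWord with _ | ⟨b, l⟩
      · rw [hw] at h3
        simp at h3
      · rw [hw] at h1 h3 h4 h5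
        rw [Finset.mem_coe, hA, Finset.mem_biUnion]
        refine ⟨b, (cntf_mem Y b).2 (h1 b (List.mem_cons_self ..)), ?_⟩
        rw [Finset.mem_image]
        exact ⟨l, (cntfW_mem Y n b l).2 ⟨by simpa using h3,
          fun x hx => h1 x (List.mem_cons_of_mem _ hx), h4⟩, h5⟩
    refine ⟨(Finset.finite_toSet _).subset hsub, ?_⟩
    have h1 := Set.ncard_le_ncard hsub (Finset.finite_toSet _)
    rw [Set.ncard_coe_finset] at h1
    refine h1.trans ?_
    have h2 : A.card ≤ (2 * Y.card) * (2 * Y.card - 1) ^ n := by
      rw [hA]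
      refine Finset.card_biUnion_le.trans ?_
      refine (Finset.sum_le_card_nsmul _ _ ((2 * Y.card - 1) ^ n) fun b hb => ?_).trans
        (le_of_eq ?_)
      · refine Finset.card_image_le.trans ?_
        rw [cntfW_card Y n b ((cntf_mem Y b).1 hb)]
      · rw [smul_eq_mul, cntf_card]
    refine h2.trans ?_
    have e : (2 * k + 1) * (2 * Y.card - 1) ^ (n + 1) =
        ((2 * k + 1) * (2 * Y.card - 1)) * (2 * Y.card - 1) ^ n := by
      rw [pow_succ]
      ring
    rw [e]
    refine Nat.mul_le_mul_right _ ?_
    rcases Nat.eq_zero_or_pos Y.card with h0 | h0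
    · simp [h0]
    · have h3 : Y.card ≤ k := by
        have := Finset.card_le_univ Y
        simpa using this
      calc 2 * Y.card ≤ (2 * k + 1) * 1 := by omega
        _ ≤ (2 * k + 1) * (2 * Y.card - 1) := Nat.mul_le_mul_left _ (by omega)

theorem cntLow (Y : Finset (Fin k)) (hY : 2 ≤ Y.card) (c c' : Lt k) (n : ℕ) :
    ∃ H : Finset (FG k), H.card = (2 * Y.card - 1) ^ n ∧
      ∀ h ∈ H, h ∈ FY Y ∧ h.norm = n + 1 ∧ h.toWord.head? ≠ some c ∧
        h.toWord.head? ≠ some c' := by
  classical
  have hne : (((cntfL Y).erase c).erase c').Nonempty := by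
    rw [← Finset.card_pos]
    have h1 : (cntfL Y).card - 1 ≤ ((cntfL Y).erase c).card := Finset.pred_card_le_card_erase
    have h2 : ((cntfL Y).erase c).card - 1 ≤ (((cntfL Y).erase c).erase c').card :=
      Finset.pred_card_le_card_erase
    rw [cntf_card] at h1
    omega
  obtain ⟨a, ha⟩ := hne
  rw [Finset.mem_erase, Finset.mem_erase, cntf_mem] at ha
  obtain ⟨ha1, ha2, ha3⟩ := ha
  have hword : ∀ l ∈ cntfW Y n a, (FreeGroup.mk (a :: l)).toWord = a :: l := by
    intro l hl
    rw [FreeGroup.toWord_mk]
    exact FreeGroup.IsReduced.reduce_eq ((cntfW_mem Y n a l).1 hl).2.2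
  refine ⟨(cntfW Y n a).image fun l => FreeGroup.mk (a :: l), ?_, ?_⟩
  · rw [Finset.card_image_of_injOn, cntfW_card Y n a ha3]
    intro l hl l' hl' h
    have h2 := congrArg FreeGroup.toWord h
    simp only at h2
    rw [hword l hl, hword l' hl'] at h2
    simpa using h2
  · intro h hh
    rw [Finset.mem_image] at hh
    obtain ⟨l, hl, rfl⟩ := hh
    have hm := (cntfW_mem Y n a l).1 hl
    refine ⟨?_, ?_, ?_, ?_⟩
    · rw [mem_FY, hword l hl]
      intro x hx
      rcases List.mem_cons.1 hx with rfl | hx
      · exact ha3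
      · exact hm.2.1 x hx
    · change (FreeGroup.mk (a :: l)).toWord.length = n + 1
      rw [hword l hl, List.length_cons, hm.1]
    · rw [hword l hl]
      simpa using ha2
    · rw [hword l hl]
      simpa using ha1

end Pool.Agent.GRO
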