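import Pool.Agent.GRO.GAU
import Pool.Agent.helper56.GrowthB

/-!
# CONJ: conjugacy classes and cyclically reduced words
* `rot_conj`: `l = l1 ++ l2`, `l' = l2 ++ l1`.
* `conj_rot`: conjugate cyclically reduced words are rotations of each other. (Check Mathlib, e.g.
  `FreeGroup.IsCyclicallyReduced`, and `Pool/Agent/helper56/Growth*.lean`. Direct proof: if
  `mk l' = c * mk l * c⁻¹` argue by induction on `c.norm`: if `c = 1`, equality of reduced words.
  Otherwise let `a` be the last letter of `c`, `c = c' a`. If `l` does not begin with `a⁻¹` and does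
  not end with `a` then `c l c⁻¹` is reduced as written but not cyclically reduced, contradiction
  unless ...; if `l = a⁻¹ :: l1`, replace `l` by its rotation `l1 ++ [a⁻¹]` and `c` by `c'`; if
  `l = l1 ++ [a]`, replace `l` by `a :: l1` and `c` by `c'`.)
* `fib_conj`: if one such word `l0` exists, all are rotations of `l0`, i.e. `l0.rotate r` with
  `r < l0.length ≤ N`.
* `exists_CR`: Mathlib has the cyclic reduction of a word; or take an element of minimal norm in
  the conjugacy class.
-/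

set_option autoImplicit false

namespace Pool.Agent.GRO

variable {k : ℕ}

theorem rot_conj {l l' : List (Lt k)} (h : l ~r l') :
    IsConj (FreeGroup.mk l) (FreeGroup.mk l') := by
  obtain ⟨n, rfl⟩ := h
  have key : ∀ n ≤ l.length, IsConj (FreeGroup.mk l) (FreeGroup.mk (l.rotate n)) := by
    intro n hn
    rw [List.rotate_eq_drop_append_take hn, ← FreeGroup.mul_mk]
    conv_lhs => rw [← List.take_append_drop n l]
    rw [← FreeGroup.mul_mk, isConj_iff]
    exact ⟨(FreeGroup.mk (l.take n))⁻¹, by group⟩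
  rw [← List.rotate_mod]
  rcases Nat.eq_zero_or_pos l.length with h0 | h0
  · rw [List.length_eq_zero_iff] at h0
    subst h0
    rw [List.rotate_nil]
  · exact key _ (Nat.mod_lt _ h0).le

theorem conj_rot {l l' : List (Lt k)} (hl : CR l) (hl' : CR l')
    (h : IsConj (FreeGroup.mk l) (FreeGroup.mk l')) : l ~r l' := by
  rw [isConj_iff] at h
  obtain ⟨c, hc⟩ := h
  refine Pool.Agent.Growth56.isRotated_of_conj c.toWord l l' FreeGroup.isReduced_toWord hl.1 hl'.1 ?_
  rw [FreeGroup.mk_toWord]
  exact hc.symm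

theorem CR_toWord {l : List (Lt k)} (hl : CR l) : (FreeGroup.mk l).toWord = l := by
  rw [FreeGroup.toWord_mk, hl.1.isReduced.reduce_eq]

theorem CR_ne_one {l : List (Lt k)} (hl : CR l) : FreeGroup.mk l ≠ 1 := by
  intro h
  apply hl.2
  rw [← CR_toWord hl, h, FreeGroup.toWord_one]

theorem exists_CR {g : FG k} (hg : g ≠ 1) : ∃ v, CR v ∧ IsConj (FreeGroup.mk v) g := by
  have h1 := FreeGroup.reduceCyclically.conj_conjugator_reduceCyclically g.toWord
  refine ⟨FreeGroup.reduceCyclically g.toWord,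
    ⟨FreeGroup.reduceCyclically.isCyclicallyReduced FreeGroup.isReduced_toWord, ?_⟩, ?_⟩
  · intro h2
    apply hg
    rw [h2, List.append_nil] at h1
    have h3 := congrArg FreeGroup.mk h1
    rw [FreeGroup.mk_toWord, ← FreeGroup.mul_mk, ← FreeGroup.inv_mk, mul_inv_cancel] at h3
    exact h3.symm
  · rw [isConj_iff]
    refine ⟨FreeGroup.mk (FreeGroup.reduceCyclically.conjugator g.toWord), ?_⟩
    have h3 := congrArg FreeGroup.mk h1
    rw [FreeGroup.mk_toWord, ← FreeGroup.mul_mk, ← FreeGroup.mul_mk, ← FreeGroup.inv_mk] at h3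
    exact h3

private theorem conj_fib_aux {l0 : List (Lt k)} (h0 : CR l0) (g : FG k) (N : ℕ)
    (hg : IsConj (FreeGroup.mk l0) g) (l : List (Lt k))
    (hl : CR l ∧ l.length ≤ N ∧ IsConj (FreeGroup.mk l) g) :
    l ∈ (Finset.range l0.length).image fun r => l0.rotate r := by
  have h1 : l0 ~r l := conj_rot h0 hl.1 (hg.trans hl.2.2.symm)
  obtain ⟨n, hn⟩ := h1
  rw [Finset.mem_image]
  refine ⟨n % l0.length, Finset.mem_range.mpr (Nat.mod_lt _ (List.length_pos_iff.mpr h0.2)), ?_⟩
  rw [List.rotate_mod]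
  exact hn

theorem fib_conj (g : FG k) (N : ℕ) :
    {l | CR l ∧ l.length ≤ N ∧ IsConj (FreeGroup.mk l) g}.Finite ∧
      {l | CR l ∧ l.length ≤ N ∧ IsConj (FreeGroup.mk l) g}.ncard ≤ N := by
  rcases Set.eq_empty_or_nonempty {l | CR l ∧ l.length ≤ N ∧ IsConj (FreeGroup.mk l) g} with h | h
  · rw [h]
    simp
  · obtain ⟨l0, h0, h0N, h0g⟩ := h
    have hsub : {l | CR l ∧ l.length ≤ N ∧ IsConj (FreeGroup.mk l) g} ⊆
        ((Finset.range l0.length).image fun r => l0.rotate r : Finset (List (Lt k))) := by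
      intro l hl
      exact conj_fib_aux h0 g N h0g l hl
    refine ⟨(Finset.finite_toSet _).subset hsub, ?_⟩
    calc _ ≤ ((((Finset.range l0.length).image fun r => l0.rotate r : Finset (List (Lt k))) :
          Set (List (Lt k)))).ncard := Set.ncard_le_ncard hsub (Finset.finite_toSet _)
      _ = ((Finset.range l0.length).image fun r => l0.rotate r).card := Set.ncard_coe_finset _
      _ ≤ (Finset.range l0.length).card := Finset.card_image_le
      _ = l0.length := Finset.card_range _
      _ ≤ N := h0N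

theorem orb_aut {w : FG k} {l v : List (Lt k)} (hl : l ∈ Orb w) (hv : CR v)
    (φ : MulAut (FG k)) (h : IsConj (FreeGroup.mk v) (φ (FreeGroup.mk l))) : v ∈ Orb w := by
  obtain ⟨_, ψ, hψ⟩ := hl
  rw [isConj_iff] at h
  obtain ⟨c, hc⟩ := h
  refine ⟨hv, MulAut.conj c⁻¹ * (φ * ψ), ?_⟩
  rw [MulAut.mul_apply, MulAut.mul_apply, hψ, MulAut.conj_apply, ← hc]
  group

theorem orb_rot {w : FG k} {l l' : List (Lt k)} (h : l ~r l') (hl : l ∈ Orb w) :
    l' ∈ Orb w :=
  orb_aut hl (CR_rot h hl.1) 1 (rot_conj h).symm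

theorem orb_gau {w : FG k} {l v : List (Lt k)} (hl : l ∈ Orb w) (hv : CR v)
    (Y : Finset (Fin k)) (h : Lt k → FG k) (hh : ∀ p, h p ∈ FY Y)
    (hc : IsConj (FreeGroup.mk v) (gauH Y h (FreeGroup.mk l))) : v ∈ Orb w := by
  obtain ⟨φ, hφ⟩ := gau_aut Y h hh
  refine orb_aut hl hv φ ?_
  rw [hφ]
  exact hc

/-- All words of bounded length form a finite set. -/
theorem len_finite (O : Set (List (Lt k))) (N : ℕ) : {l | l ∈ O ∧ l.length ≤ N}.Finite :=
  (List.finite_length_le (Lt k) N).subset fun _ hl => hl.2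

end Pool.Agent.GRO
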