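import Pool.Agent.GRO.CUT

/-!
# CONN: the relation `conn t l`, classes, transitions
* `conn_equiv`: symmetric by `cap_compl`; transitive: if `x ∈ S`, `z ∉ S` then `y ∈ S` or not.
* `cls_cap`: for every `y` with `¬ conn t l x y` choose `S y` with `x ∈ S y`, `y ∉ S y`,
  `cap < t`. A letter `z` with `conn t l x z` lies in `S y` (otherwise `S y` separates `x`, `z`).
  So the class is the intersection of the `S y`; use `cap_iInter_le` and `card (Lt k) = 2 k`.
* `tran_le`: every transition edge `e` is counted in `cap l (class of e.1)`.
* `str_conn`: if `¬ conn t l a (bar a)`, let `S` = class of `a`; `NG` gives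
  `8 cap {a} < T + 8 * (2 k t)`. If `b ≠ a` and `conn t l a b` then `conn T l a b`, so
  `T ≤ cap l {a}`: contradiction with `4 k t ≤ T`.
-/

set_option autoImplicit false

namespace Pool.Agent.GRO

variable {k : ℕ}

theorem conn_equiv (t : ℕ) (l : List (Lt k)) : Equivalence (conn t l) := by
  refine ⟨?_, ?_, ?_⟩
  · intro x S h1 h2
    exact absurd h1 h2
  · intro x y h S h1 h2
    have := h Sᶜ (Finset.mem_compl.2 h2) (by simpa using h1)
    rwa [cap_compl] at this
  · intro x y z h1 h2 S h3 h4
    by_cases hy : y ∈ S
    · exact h2 S hy h4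
    · exact h1 S h3 hy

theorem conn_mono {t t' : ℕ} (h : t ≤ t') (l : List (Lt k)) (x y : Lt k) :
    conn t' l x y → conn t l x y :=
  fun hc S h1 h2 => h.trans (hc S h1 h2)

private theorem conn_card : Fintype.card (Lt k) = 2 * k := by
  simp [mul_comm]

open Classical in
theorem cls_cap (t : ℕ) (l : List (Lt k)) (x : Lt k) :
    cap l (Finset.univ.filter fun y => conn t l x y) ≤ 2 * k * t := by
  have hex : ∀ y : Lt k, ∃ S : Finset (Lt k), ¬ conn t l x y → (x ∈ S ∧ y ∉ S ∧ cap l S < t) := by
    intro y
    by_cases h : conn t l x y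
    · exact ⟨∅, fun h' => absurd h h'⟩
    · unfold conn at h
      push Not at h
      obtain ⟨S, h1, h2, h3⟩ := h
      exact ⟨S, fun _ => ⟨h1, h2, h3⟩⟩
  choose S hS using hex
  set I : Finset (Lt k) := Finset.univ.filter fun y => ¬ conn t l x y with hI
  have hle := cap_iInter_le l I S (Finset.univ.filter fun y => conn t l x y) (by
    intro z
    simp only [Finset.mem_filter, Finset.mem_univ, true_and, hI]
    constructor
    · intro hz i hi
      by_contra hzi
      have h1 := hz (S i) (hS i hi).1 hzi
      exact absurd h1 (not_le.2 (hS i hi).2.2)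
    · intro h
      by_contra hz
      exact (hS z hz).2.1 (h z hz))
  refine hle.trans ?_
  calc ∑ i ∈ I, cap l (S i) ≤ ∑ i ∈ I, t := Finset.sum_le_sum fun i hi => by
        simp only [Finset.mem_filter, Finset.mem_univ, true_and, hI] at hi
        exact (hS i hi).2.2.le
    _ = I.card * t := by simp
    _ ≤ (2 * k) * t := Nat.mul_le_mul_right _ (by
        rw [← conn_card (k := k)]
        exact Finset.card_le_univ _)

open Classical in
theorem tran_le {C : Lt k → Lt k → Prop} (hC : Equivalence C) (l : List (Lt k)) (B : ℕ)
    (h : ∀ x, cap l (Finset.univ.filter fun y => C x y) ≤ B) : tran C l ≤ 2 * k * B := by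
  have h1 : tran C l ≤ ∑ x : Lt k, cap l (Finset.univ.filter fun y => C x y) := by
    unfold tran cap
    induction edg l with
    | nil => simp
    | cons e L ih =>
      simp only [List.countP_cons, Finset.sum_add_distrib]
      refine Nat.add_le_add ih ?_
      by_cases hc : C e.1 e.2
      · simp [hc]
      · have h2 : (if decide (¬ C e.1 e.2) = true then 1 else 0) = 1 := by simp [hc]
        rw [h2]
        refine le_trans (le_of_eq ?_) (Finset.single_le_sum
          (f := fun x => if (decide (e.1 ∈ Finset.univ.filter fun y => C x y) !=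
            decide (e.2 ∈ Finset.univ.filter fun y => C x y)) = true then 1 else 0)
          (fun i _ => Nat.zero_le _) (Finset.mem_univ e.1))
        simp [hC.refl e.1, hc]
  refine h1.trans ?_
  calc ∑ x : Lt k, cap l (Finset.univ.filter fun y => C x y) ≤ ∑ _x : Lt k, B :=
        Finset.sum_le_sum fun x _ => h x
    _ = 2 * k * B := by
        rw [Finset.sum_const, Finset.card_univ, conn_card, smul_eq_mul]

/-- A cut which is a union of classes has capacity at most the number of transitions. -/
theorem cap_le_tran {C : Lt k → Lt k → Prop} (l : List (Lt k)) (S : Finset (Lt k))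
    (hS : ∀ x y, C x y → (x ∈ S ↔ y ∈ S)) : cap l S ≤ tran C l := by
  classical
  unfold cap tran
  refine List.countP_mono_left fun e _ he => ?_
  simp only [decide_eq_true_eq]
  intro hc
  have := hS _ _ hc
  simp [this] at he

open Classical in
theorem cap_cls_le_tran {C : Lt k → Lt k → Prop} (hC : Equivalence C) (l : List (Lt k))
    (x : Lt k) : cap l (Finset.univ.filter fun y => C x y) ≤ tran C l := by
  refine cap_le_tran l _ fun y z hyz => ?_
  simp only [Finset.mem_filter, Finset.mem_univ, true_and]
  exact ⟨fun h => hC.trans h hyz, fun h => hC.trans h (hC.symm hyz)⟩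

theorem str_conn {t T : ℕ} {l : List (Lt k)} (hl : CR l) (ht : 1 ≤ t) (hT : 4 * k * t ≤ T)
    (hgap : ∀ x y, conn t l x y → conn T l x y) (hng : NG T l) : Str (conn t l) := by
  classical
  refine ⟨conn_equiv t l, ?_⟩
  intro a ha b hb
  by_contra hne
  have h1 := hng (Finset.univ.filter fun y => conn t l a y) a
    (by simp [(conn_equiv t l).refl a]) (by simpa using ha)
  have h2 := cls_cap t l a
  have h3 : T ≤ cap l {a} := hgap a b hb {a} (by simp) (by simpa using hne)
  have hk : 1 ≤ k := by
    have := a.1.2
    omega
  have h4 : 4 * k * t = 2 * (2 * k * t) := by ring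
  have h5 : 1 ≤ 2 * k * t := by
    have : 1 * 1 ≤ k * t := Nat.mul_le_mul hk ht
    nlinarith
  nlinarith

private theorem conn_cases (a b : Lt k) (h : a.1 = b.1) : a = b ∨ a = bar b := by
  obtain ⟨a1, a2⟩ := a
  obtain ⟨b1, b2⟩ := b
  simp only at h
  subst h
  cases a2 <;> cases b2 <;> simp [bar]

/-- In a structured partition, the class of a block letter is `Y ×` both signs. -/
theorem Yb_spec {C : Lt k → Lt k → Prop} (hC : Str C) {y : Fin k} (hy : C (y, true) (y, false))
    (p q : Lt k) (hp : p.1 ∈ Yb C y) : C p q ↔ q.1 ∈ Yb C y := by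
  classical
  have hE := hC.eqv
  -- all letters in the class of a block letter come with their inverses
  have hblock : ∀ x : Fin k, C (y, true) (x, true) → C (x, true) (x, false) := by
    intro x hx
    by_contra hc
    have h1 : (y, true) = (x, true) := hC.sgl (x, true) (by simpa [bar] using hc) _ (hE.symm hx)
    simp only [Prod.mk.injEq, and_true] at h1
    subst h1
    exact hc hy
  have hmem : ∀ z : Lt k, z.1 ∈ Yb C y ↔ C (y, true) z := by
    intro z
    obtain ⟨z1, z2⟩ := z
    unfold Yb
    simp only [Finset.mem_filter, Finset.mem_univ, true_and]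
    cases z2
    · constructor
      · intro h
        exact hE.trans h (hblock _ h)
      · intro h
        -- C (y,true) (z1,false)
        by_contra hc
        have h2 : ¬ C (z1, false) (bar (z1, false)) := by
          intro h3
          exact hc (hE.trans h (by simpa [bar] using h3))
        have h4 : (y, true) = (z1, false) := hC.sgl (z1, false) h2 _ (hE.symm h)
        simp at h4
    · rfl
  rw [hmem] at hp
  rw [hmem]
  exact ⟨fun h => hE.trans hp h, fun h => hE.trans (hE.symm hp) h⟩

theorem mem_Yb_self {C : Lt k → Lt k → Prop} (hC : Str C) (y : Fin k) : y ∈ Yb C y := by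
  classical
  unfold Yb
  simp only [Finset.mem_filter, Finset.mem_univ, true_and]
  exact hC.eqv.refl _

/-- If there is no block, every edge is a transition. -/
theorem length_eq_tran {C : Lt k → Lt k → Prop} (hC : Str C)
    (h : ∀ y : Fin k, ¬ C (y, true) (y, false)) {l : List (Lt k)} (hl : CR l) :
    l.length = tran C l := by
  classical
  have hb : ∀ a : Lt k, ¬ C a (bar a) := by
    rintro ⟨a1, a2⟩ hc
    cases a2
    · exact h a1 (hC.eqv.symm (by simpa [bar] using hc))
    · exact h a1 (by simpa [bar] using hc)
  rw [← edg_length l]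
  unfold tran
  symm
  rw [List.countP_eq_length]
  intro e he
  simp only [decide_eq_true_eq]
  intro hc
  exact edg_ne hl e he (hC.sgl e.1 (hb e.1) e.2 hc).symm

theorem NA_le (C : Lt k → Lt k → Prop) (l : List (Lt k)) : NA C l ≤ 2 * k ^ 2 := by
  classical
  unfold NA
  refine (Finset.card_le_univ _).trans ?_
  rw [Fintype.card_prod, conn_card, Fintype.card_fin]
  nlinarith

end Pool.Agent.GRO
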