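import Pool.Agent.GRO.PE

/-!
# CUT: calculus of cuts
All statements are pointwise inequalities for `countP` over the list `edg l` (prove them first for
an arbitrary list of pairs by induction; for `cap_insert`, `cap_singleton`, ... use `edg_ne`).
-/

set_option autoImplicit false

namespace Pool.Agent.GRO

variable {k : ℕ}

private theorem cut_count {α : Type*} (L : List α) (f : α → Bool) :
    L.countP f = (L.map fun e => if f e then 1 else 0).sum := by
  induction L with
  | nil => rfl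
  | cons a L ih => rw [List.countP_cons, List.map_cons, List.sum_cons, ih, add_comm]

private theorem cut_le {α : Type*} (L : List α) (f g : α → Bool) (h : ∀ e ∈ L, f e → g e) :
    L.countP f ≤ L.countP g :=
  List.countP_mono_left h

theorem cap_compl (l : List (Lt k)) (S : Finset (Lt k)) : cap l Sᶜ = cap l S := by
  unfold cap
  refine List.countP_congr fun e _ => ?_
  by_cases h1 : e.1 ∈ S <;> by_cases h2 : e.2 ∈ S <;> simp [h1, h2]

theorem cap_inter_union (l : List (Lt k)) (S S' : Finset (Lt k)) :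
    cap l (S ∩ S') + cap l (S ∪ S') ≤ cap l S + cap l S' := by
  unfold cap
  induction edg l with
  | nil => simp
  | cons e L ih =>
    simp only [List.countP_cons]
    have : (if (decide (e.1 ∈ S ∩ S') != decide (e.2 ∈ S ∩ S')) = true then 1 else 0) +
        (if (decide (e.1 ∈ S ∪ S') != decide (e.2 ∈ S ∪ S')) = true then 1 else 0) ≤
        (if (decide (e.1 ∈ S) != decide (e.2 ∈ S)) = true then 1 else 0) +
        (if (decide (e.1 ∈ S') != decide (e.2 ∈ S')) = true then 1 else 0) := by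
      by_cases h1 : e.1 ∈ S <;> by_cases h2 : e.2 ∈ S <;> by_cases h3 : e.1 ∈ S' <;>
        by_cases h4 : e.2 ∈ S' <;> simp [h1, h2, h3, h4]
    omega

/-- The capacity of an intersection is at most the sum of the capacities. -/
theorem cap_iInter_le (l : List (Lt k)) {ι : Type} (I : Finset ι) (f : ι → Finset (Lt k))
    (A : Finset (Lt k)) (hA : ∀ x, x ∈ A ↔ ∀ i ∈ I, x ∈ f i) :
    cap l A ≤ ∑ i ∈ I, cap l (f i) := by
  unfold cap
  induction edg l with
  | nil => simp
  | cons e L ih =>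
    simp only [List.countP_cons, Finset.sum_add_distrib]
    refine Nat.add_le_add ih ?_
    by_cases h : (decide (e.1 ∈ A) != decide (e.2 ∈ A)) = true
    · rw [if_pos h]
      have : ∃ i ∈ I, (decide (e.1 ∈ f i) != decide (e.2 ∈ f i)) = true := by
        by_contra hc
        push Not at hc
        have h3 : ∀ i ∈ I, (e.1 ∈ f i ↔ e.2 ∈ f i) := by
          intro i hi
          have := hc i hi
          simpa using this
        have h2 : e.1 ∈ A ↔ e.2 ∈ A := by
          rw [hA, hA]
          exact ⟨fun h i hi => (h3 i hi).1 (h i hi), fun h i hi => (h3 i hi).2 (h i hi)⟩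
        simp [h2] at h
      obtain ⟨i, hi, hi2⟩ := this
      calc 1 = (if (decide (e.1 ∈ f i) != decide (e.2 ∈ f i)) = true then 1 else 0) := by
            rw [if_pos hi2]
        _ ≤ _ := Finset.single_le_sum
            (f := fun i => if (decide (e.1 ∈ f i) != decide (e.2 ∈ f i)) = true then 1 else 0)
            (fun i _ => Nat.zero_le _) hi
    · rw [if_neg h]
      exact Nat.zero_le _

/-- Disjoint unions. -/
theorem cap_union (l : List (Lt k)) {S S' : Finset (Lt k)} (h : Disjoint S S') :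
    cap l (S ∪ S') + 2 * ebt l S S' = cap l S + cap l S' := by
  unfold cap ebt
  have hd : ∀ x, x ∈ S → x ∉ S' := fun x h1 h2 => Finset.disjoint_left.1 h h1 h2
  induction edg l with
  | nil => simp
  | cons e L ih =>
    simp only [List.countP_cons]
    have : (if (decide (e.1 ∈ S ∪ S') != decide (e.2 ∈ S ∪ S')) = true then 1 else 0) +
        2 * (if decide ((e.1 ∈ S ∧ e.2 ∈ S') ∨ (e.1 ∈ S' ∧ e.2 ∈ S)) = true then 1 else 0) =
        (if (decide (e.1 ∈ S) != decide (e.2 ∈ S)) = true then 1 else 0) +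
        (if (decide (e.1 ∈ S') != decide (e.2 ∈ S')) = true then 1 else 0) := by
      have d1 := hd e.1
      have d2 := hd e.2
      by_cases h1 : e.1 ∈ S <;> by_cases h2 : e.2 ∈ S <;> by_cases h3 : e.1 ∈ S' <;>
        by_cases h4 : e.2 ∈ S' <;> simp_all
    omega

theorem cap_insert (l : List (Lt k)) {S : Finset (Lt k)} {a : Lt k} (h : a ∉ S) :
    cap l (insert a S) + 2 * ebt l S {a} = cap l S + cap l {a} := by
  have h2 : insert a S = S ∪ {a} := by
    ext x
    simp [or_comm]
  rw [h2]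
  exact cap_union l (Finset.disjoint_singleton_right.2 h)

/-- If `S`, `S'`, `{a}` partition the letters then `cap S = e(S,a) + e(S,S')`. -/
theorem cap_eq_add (l : List (Lt k)) {S S' : Finset (Lt k)} {a : Lt k} (h1 : a ∉ S)
    (h2 : a ∉ S') (h3 : Disjoint S S') (h4 : ∀ x, x ∈ S ∨ x ∈ S' ∨ x = a) :
    cap l S = ebt l S {a} + ebt l S S' ∧ cap l {a} = ebt l S {a} + ebt l S' {a} ∧
      cap l (insert a S) = cap l S' := by
  have hd : ∀ x, x ∈ S → x ∉ S' := fun x h1 h2 => Finset.disjoint_left.1 h3 h1 h2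
  have e1 : cap l (insert a S) = cap l S' := by
    rw [← cap_compl l S']
    congr 1
    ext x
    simp only [Finset.mem_insert, Finset.mem_compl]
    constructor
    · rintro (rfl | hx)
      · exact h2
      · exact hd x hx
    · intro hx
      rcases h4 x with h | h | h
      · exact Or.inr h
      · exact absurd h hx
      · exact Or.inl h
  have e2 := cap_insert l h1
  have e3 : cap l S = ebt l S {a} + ebt l S S' := by
    unfold cap ebt
    induction edg l with
    | nil => simp
    | cons e L ih =>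
      simp only [List.countP_cons]
      have : (if (decide (e.1 ∈ S) != decide (e.2 ∈ S)) = true then 1 else 0) =
          (if decide ((e.1 ∈ S ∧ e.2 ∈ ({a} : Finset (Lt k))) ∨
            (e.1 ∈ ({a} : Finset (Lt k)) ∧ e.2 ∈ S)) = true then 1 else 0) +
          (if decide ((e.1 ∈ S ∧ e.2 ∈ S') ∨ (e.1 ∈ S' ∧ e.2 ∈ S)) = true then 1 else 0) := by
        have c1 : (e.1 ∈ S ∧ e.1 ∉ S' ∧ e.1 ≠ a) ∨ (e.1 ∉ S ∧ e.1 ∈ S' ∧ e.1 ≠ a) ∨
            (e.1 ∉ S ∧ e.1 ∉ S' ∧ e.1 = a) := by
          rcases h4 e.1 with h | h | h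
          · exact Or.inl ⟨h, hd _ h, fun h' => h1 (h' ▸ h)⟩
          · exact Or.inr (Or.inl ⟨fun h' => hd _ h' h, h, fun h' => h2 (h' ▸ h)⟩)
          · exact Or.inr (Or.inr ⟨fun h' => h1 (h ▸ h'), fun h' => h2 (h ▸ h'), h⟩)
        have c2 : (e.2 ∈ S ∧ e.2 ∉ S' ∧ e.2 ≠ a) ∨ (e.2 ∉ S ∧ e.2 ∈ S' ∧ e.2 ≠ a) ∨
            (e.2 ∉ S ∧ e.2 ∉ S' ∧ e.2 = a) := by
          rcases h4 e.2 with h | h | h
          · exact Or.inl ⟨h, hd _ h, fun h' => h1 (h' ▸ h)⟩
          · exact Or.inr (Or.inl ⟨fun h' => hd _ h' h, h, fun h' => h2 (h' ▸ h)⟩)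
          · exact Or.inr (Or.inr ⟨fun h' => h1 (h ▸ h'), fun h' => h2 (h ▸ h'), h⟩)
        rcases c1 with ⟨p1, p2, p3⟩ | ⟨p1, p2, p3⟩ | ⟨p1, p2, p3⟩ <;>
          rcases c2 with ⟨q1, q2, q3⟩ | ⟨q1, q2, q3⟩ | ⟨q1, q2, q3⟩ <;>
          simp [h1, h2, p1, p2, p3, q1, q2, q3]
      omega
  have e4 : cap l S' = ebt l S' {a} + ebt l S S' := by
    unfold cap ebt
    induction edg l with
    | nil => simp
    | cons e L ih =>
      simp only [List.countP_cons]
      have : (if (decide (e.1 ∈ S') != decide (e.2 ∈ S')) = true then 1 else 0) =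
          (if decide ((e.1 ∈ S' ∧ e.2 ∈ ({a} : Finset (Lt k))) ∨
            (e.1 ∈ ({a} : Finset (Lt k)) ∧ e.2 ∈ S')) = true then 1 else 0) +
          (if decide ((e.1 ∈ S ∧ e.2 ∈ S') ∨ (e.1 ∈ S' ∧ e.2 ∈ S)) = true then 1 else 0) := by
        have c1 : (e.1 ∈ S ∧ e.1 ∉ S' ∧ e.1 ≠ a) ∨ (e.1 ∉ S ∧ e.1 ∈ S' ∧ e.1 ≠ a) ∨
            (e.1 ∉ S ∧ e.1 ∉ S' ∧ e.1 = a) := by
          rcases h4 e.1 with h | h | h
          · exact Or.inl ⟨h, hd _ h, fun h' => h1 (h' ▸ h)⟩
          · exact Or.inr (Or.inl ⟨fun h' => hd _ h' h, h, fun h' => h2 (h' ▸ h)⟩)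
          · exact Or.inr (Or.inr ⟨fun h' => h1 (h ▸ h'), fun h' => h2 (h ▸ h'), h⟩)
        have c2 : (e.2 ∈ S ∧ e.2 ∉ S' ∧ e.2 ≠ a) ∨ (e.2 ∉ S ∧ e.2 ∈ S' ∧ e.2 ≠ a) ∨
            (e.2 ∉ S ∧ e.2 ∉ S' ∧ e.2 = a) := by
          rcases h4 e.2 with h | h | h
          · exact Or.inl ⟨h, hd _ h, fun h' => h1 (h' ▸ h)⟩
          · exact Or.inr (Or.inl ⟨fun h' => hd _ h' h, h, fun h' => h2 (h' ▸ h)⟩)
          · exact Or.inr (Or.inr ⟨fun h' => h1 (h ▸ h'), fun h' => h2 (h ▸ h'), h⟩)
        rcases c1 with ⟨p1, p2, p3⟩ | ⟨p1, p2, p3⟩ | ⟨p1, p2, p3⟩ <;>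
          rcases c2 with ⟨q1, q2, q3⟩ | ⟨q1, q2, q3⟩ | ⟨q1, q2, q3⟩ <;>
          simp [h1, h2, p1, p2, p3, q1, q2, q3]
      omega
  refine ⟨e3, ?_, e1⟩
  omega

theorem ebt_le_left (l : List (Lt k)) {S S' : Finset (Lt k)} (h : Disjoint S S') :
    ebt l S S' ≤ cap l S := by
  unfold ebt cap
  refine cut_le _ _ _ fun e _ he => ?_
  have hd : ∀ x, x ∈ S' → x ∉ S := fun x h1 h2 => Finset.disjoint_left.1 h h2 h1
  simp only [decide_eq_true_eq] at he
  rcases he with ⟨h1, h2⟩ | ⟨h1, h2⟩
  · simp [h1, hd _ h2]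
  · simp [h2, hd _ h1]

theorem ebt_comm (l : List (Lt k)) (S S' : Finset (Lt k)) : ebt l S S' = ebt l S' S := by
  unfold ebt
  refine List.countP_congr fun e _ => ?_
  simp only [decide_eq_true_eq]
  tauto

private theorem cut_pe (p q a : Lt k) (w : List (Lt k)) (hne : ∀ e ∈ pe p w q, e.1 ≠ e.2) :
    ((pe p w q).countP fun e => decide (e.1 ∈ ({a} : Finset (Lt k))) !=
      decide (e.2 ∈ ({a} : Finset (Lt k)))) =
      (w.countP fun b => decide (b.1 = a.1)) + (if p = a then 1 else 0) +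
        (if q = a then 1 else 0) := by
  induction w generalizing p with
  | nil =>
    have h := hne (p, q) (by simp [pe])
    simp only at h
    simp only [pe, List.countP_cons, List.countP_nil, Finset.mem_singleton]
    by_cases h1 : p = a
    · subst h1
      have h2 : ¬ q = p := fun h' => h h'.symm
      simp [h2]
    · by_cases h2 : q = a <;> simp [h1, h2]
  | cons c w ih =>
    have hne' : ∀ e ∈ pe (bar c) w q, e.1 ≠ e.2 := fun e he =>
      hne e (by simp only [pe, List.mem_cons]; exact Or.inr he)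
    have h := hne (p, c) (by simp [pe])
    simp only at h
    have ih' := ih (bar c) hne'
    simp only [Finset.mem_singleton] at ih' ⊢
    simp only [pe, List.countP_cons]
    rw [ih']
    have hb : bar c = a ↔ c = bar a := by
      constructor
      · rintro rfl; rw [bar_bar]
      · rintro rfl; rw [bar_bar]
    have hca : (c.1 = a.1) ↔ (c = a ∨ c = bar a) := by
      obtain ⟨c1, c2⟩ := c
      obtain ⟨a1, a2⟩ := a
      simp only [bar, Prod.mk.injEq]
      cases c2 <;> cases a2 <;> simp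
    have hba : bar a ≠ a := bar_ne a
    by_cases h1 : c = a
    · subst h1
      have h2 : ¬ p = c := h
      have h3 : ¬ bar c = c := bar_ne c
      simp [h2, h3]
      omega
    · by_cases h2 : c = bar a
      · have h4 : bar c = a := hb.2 h2
        have h5 : c.1 = a.1 := hca.2 (Or.inr h2)
        by_cases h6 : p = a
        · simp [h1, h4, h5, h6]
          omega
        · simp [h1, h4, h5, h6]
      · have h4 : ¬ bar c = a := fun h' => h2 (hb.1 h')
        have h5 : ¬ c.1 = a.1 := fun h' => (hca.1 h').elim h1 h2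
        by_cases h6 : p = a
        · simp [h1, h4, h5, h6]
          omega
        · simp [h1, h4, h5, h6]

theorem cap_singleton {l : List (Lt k)} (hl : CR l) (a : Lt k) :
    cap l {a} = l.countP fun b => decide (b.1 = a.1) := by
  have hne := edg_ne hl
  unfold cap
  rcases l with _ | ⟨c, w⟩
  · rfl
  · change ((pe (bar c) w c).countP _) = _
    rw [cut_pe (bar c) c a w hne, List.countP_cons]
    have hb : bar c = a ↔ c = bar a := by
      constructor
      · rintro rfl; rw [bar_bar]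
      · rintro rfl; rw [bar_bar]
    have hca : (c.1 = a.1) ↔ (c = a ∨ c = bar a) := by
      obtain ⟨c1, c2⟩ := c
      obtain ⟨a1, a2⟩ := a
      simp only [bar, Prod.mk.injEq]
      cases c2 <;> cases a2 <;> simp
    by_cases h1 : c = a
    · subst h1
      have h3 : ¬ bar c = c := bar_ne c
      simp [h3]
    · by_cases h2 : c = bar a
      · have h4 : bar c = a := hb.2 h2
        have h5 : c.1 = a.1 := hca.2 (Or.inr h2)
        simp [h1, h4, h5]
      · have h4 : ¬ bar c = a := fun h' => h2 (hb.1 h')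
        have h5 : ¬ c.1 = a.1 := fun h' => (hca.1 h').elim h1 h2
        simp [h1, h4, h5]

theorem cap_singleton_bar {l : List (Lt k)} (hl : CR l) (a : Lt k) :
    cap l {bar a} = cap l {a} := by
  rw [cap_singleton hl, cap_singleton hl]
  rfl

theorem used_iff {l : List (Lt k)} (hl : CR l) (a : Lt k) : Used l a ↔ 0 < cap l {a} := by
  rw [cap_singleton hl, List.countP_pos_iff]
  unfold Used
  constructor
  · rintro (h | h)
    · exact ⟨a, h, by simp⟩
    · exact ⟨bar a, h, by simp [bar]⟩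
  · rintro ⟨b, hb, h⟩
    obtain ⟨b1, b2⟩ := b
    obtain ⟨a1, a2⟩ := a
    simp only [decide_eq_true_eq] at h
    subst h
    unfold bar
    cases b2 <;> cases a2 <;> simp_all

/-- An edge with exactly one end in `S` makes the capacity positive, and conversely. -/
theorem cap_pos_iff (l : List (Lt k)) (S : Finset (Lt k)) :
    0 < cap l S ↔ ∃ x y, Adj l x y ∧ x ∈ S ∧ y ∉ S := by
  unfold cap
  rw [List.countP_pos_iff]
  constructor
  · rintro ⟨⟨x, y⟩, he, h⟩
    by_cases h1 : x ∈ S
    · have h2 : y ∉ S := by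
        intro h2
        simp [h1, h2] at h
      exact ⟨x, y, Or.inl he, h1, h2⟩
    · have h2 : y ∈ S := by
        by_contra h2
        simp [h1, h2] at h
      exact ⟨y, x, Or.inr he, h2, h1⟩
  · rintro ⟨x, y, he | he, h1, h2⟩
    · exact ⟨_, he, by simp [h1, h2]⟩
    · exact ⟨_, he, by simp [h1, h2]⟩

theorem ebt_pos_iff (l : List (Lt k)) (S S' : Finset (Lt k)) :
    0 < ebt l S S' ↔ ∃ x y, Adj l x y ∧ x ∈ S ∧ y ∈ S' := by
  unfold ebt
  rw [List.countP_pos_iff]
  constructor
  · rintro ⟨⟨x, y⟩, he, h⟩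
    simp only [decide_eq_true_eq] at h
    rcases h with ⟨h1, h2⟩ | ⟨h1, h2⟩
    · exact ⟨x, y, Or.inl he, h1, h2⟩
    · exact ⟨y, x, Or.inr he, h2, h1⟩
  · rintro ⟨x, y, he | he, h1, h2⟩
    · exact ⟨_, he, by simp [h1, h2]⟩
    · exact ⟨_, he, by simp [h1, h2]⟩

/-- Lemma CYC: a disconnecting cut which contains a used letter contains all used letters. -/
theorem cyc_closed {l : List (Lt k)} (hl : CR l) (hz : ZC l) {S : Finset (Lt k)}
    (h0 : cap l S = 0) {x : Lt k} (hx : x ∈ S) (hu : Used l x) : ∀ y, Used l y → y ∈ S := by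
  -- `S` is closed under inversion of used letters
  have hinv : ∀ z, Used l z → z ∈ S → bar z ∈ S := by
    intro z hz1 hz2
    by_contra hz3
    have := hz S z h0 hz2 hz3
    have h2 := (used_iff hl z).1 hz1
    omega
  -- edges do not leave `S`
  have hedge : ∀ e ∈ edg l, (e.1 ∈ S ↔ e.2 ∈ S) := by
    intro e he
    by_contra hc
    have : 0 < cap l S := by
      rw [cap_pos_iff]
      by_cases h1 : e.1 ∈ S
      · exact ⟨e.1, e.2, Or.inl he, h1, fun h2 => hc ⟨fun _ => h2, fun _ => h1⟩⟩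
      · by_cases h2 : e.2 ∈ S
        · exact ⟨e.2, e.1, Or.inr he, h2, h1⟩
        · exact absurd ⟨fun h => absurd h h1, fun h => absurd h h2⟩ hc
    omega
  have husd : ∀ z, z ∈ l → (z ∈ S ↔ bar z ∈ S) := by
    intro z hz1
    have hu1 : Used l z := Or.inl hz1
    have hu2 : Used l (bar z) := Or.inr (by rw [bar_bar]; exact hz1)
    exact ⟨hinv z hu1, fun h => by have := hinv _ hu2 h; rwa [bar_bar] at this⟩
  have key : ∀ (w : List (Lt k)) (p q : Lt k), (∀ e ∈ pe p w q, (e.1 ∈ S ↔ e.2 ∈ S)) →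
      (∀ z ∈ w, (z ∈ S ↔ bar z ∈ S)) → ∀ z ∈ w, (z ∈ S ↔ p ∈ S) := by
    intro w
    induction w with
    | nil => intro p q _ _ z hz; simp at hz
    | cons c w ih =>
      intro p q he hw z hz
      have h1 : p ∈ S ↔ c ∈ S := he (p, c) (by simp [pe])
      rcases List.mem_cons.1 hz with rfl | hz
      · exact h1.symm
      · have h2 := ih (bar c) q (fun e he' => he e (by simp only [pe, List.mem_cons]; exact Or.inr he'))
          (fun z hz => hw z (List.mem_cons_of_mem _ hz)) z hz
        rw [h2, ← hw c (List.mem_cons_self ..), h1]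
  rcases l with _ | ⟨c, w⟩
  · exact absurd rfl hl.2
  · have hall : ∀ z ∈ c :: w, (z ∈ S ↔ bar c ∈ S) := by
      intro z hz
      rcases List.mem_cons.1 hz with rfl | hz1
      · exact husd z (List.mem_cons_self ..)
      · exact key w (bar c) c hedge (fun z hz => husd z (List.mem_cons_of_mem _ hz)) z hz1
    have hall2 : ∀ z, Used (c :: w) z → (z ∈ S ↔ bar c ∈ S) := by
      rintro z (hz1 | hz1)
      · exact hall z hz1
      · rw [← hall _ hz1]
        have := husd _ hz1
        rw [bar_bar] at this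
        exact this.symm
    intro y hy
    exact (hall2 y hy).2 ((hall2 x hu).1 hx)

end Pool.Agent.GRO
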