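import Pool.Agent.GRO.SLD
import Pool.Agent.GRO.CONN

/-!
# DESC: descent by block slides
Let `Y = Yb C y`. Prove by strong induction on `L - used length` the following: for every
class-constant `h0` with values in `FY Y` and `v0 = wrd s (gg s g h0)` there is a class-constant
`h1` with values in `FY Y` such that with `h = h0 * h1` (pointwise; `gg_gg`)
`(wrd s (gg s g h)).length + max norm of h1 ≤ v0.length` and the final alternative holds (so for
`h0 = 1` we get all claims). Step: if the alternative fails at `v0`, then `I3 C T v0` holds and there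
are `Q`, `a` with `2 * ebt v0 Q {a} > cap v0 Q`. Edges between `Q` and `a` are transitions (`C x a`
with `x.1 ∉ Y` is impossible by `Yb_spec`), so `cap v0 Q < 2 * tran C v0 ≤ 4 * M` (`tran_gg`), hence
`2 * cap v0 Q < 8 * M ≤ T` and `Q` is a union of classes by `I3`; so `onK Q (lt a)` is
class-constant, and by `slide_length` the length drops at least by 1, the norms grow by at most 1.
-/

set_option autoImplicit false

namespace Pool.Agent.GRO

variable {k : ℕ}

private theorem desc_lt_mem {Y : Finset (Fin k)} {a : Lt k} (ha : a.1 ∈ Y) : lt a ∈ FY Y := by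
  obtain ⟨x, b⟩ := a
  have hx : FreeGroup.of x ∈ FY Y :=
    Subgroup.subset_closure ⟨x, by simpa using ha, rfl⟩
  cases b
  · have : lt (x, false) = (FreeGroup.of x : FG k)⁻¹ := by
      simp [lt, FreeGroup.of, FreeGroup.inv_mk, FreeGroup.invRev]
    rw [this]; exact Subgroup.inv_mem _ hx
  · exact hx

private theorem desc_norm_lt (a : Lt k) : (lt a).norm ≤ 1 := by
  simpa [lt] using (FreeGroup.norm_mk_le (L₁ := [a]))

private theorem desc_aux {C : Lt k → Lt k → Prop} (hC : Str C) {T M : ℕ} {y : Fin k}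
    (hy : C (y, true) (y, false)) {m : ℕ} [NeZero m] {s : Fin m → Lt k} {g : Fin m → FG k}
    (hv : Val (Yb C y) s g) (hM : tran C (wrd s g) ≤ M) (hT : 8 * M ≤ T) :
    ∀ n : ℕ, ∀ h0 : Lt k → FG k, (∀ p, h0 p ∈ FY (Yb C y)) → (∀ p q, C p q → h0 p = h0 q) →
      (wrd s (gg s g h0)).length ≤ n →
      ∃ h1 : Lt k → FG k, (∀ p, h1 p ∈ FY (Yb C y)) ∧ (∀ p q, C p q → h1 p = h1 q) ∧
        (∀ p, (h1 p).norm + (wrd s (gg s g fun p => h0 p * h1 p)).length ≤
          (wrd s (gg s g h0)).length) ∧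
        (wrd s (gg s g fun p => h0 p * h1 p)).length ≤ (wrd s (gg s g h0)).length ∧
        (¬ I3 C T (wrd s (gg s g fun p => h0 p * h1 p)) ∨
          ∀ (Q : Finset (Lt k)) (a : Lt k), (∀ p ∈ Q, p.1 ∉ Yb C y) → a.1 ∈ Yb C y →
            2 * ebt (wrd s (gg s g fun p => h0 p * h1 p)) Q {a} ≤
              cap (wrd s (gg s g fun p => h0 p * h1 p)) Q) := by
  classical
  intro n
  induction n using Nat.strong_induction_on with
  | _ n ih =>
  intro h0 hF hc hn
  by_cases halt : (¬ I3 C T (wrd s (gg s g h0)) ∨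
          ∀ (Q : Finset (Lt k)) (a : Lt k), (∀ p ∈ Q, p.1 ∉ Yb C y) → a.1 ∈ Yb C y →
            2 * ebt (wrd s (gg s g h0)) Q {a} ≤ cap (wrd s (gg s g h0)) Q)
  · refine ⟨fun _ => 1, fun _ => Subgroup.one_mem _, fun _ _ _ => rfl, ?_, ?_, ?_⟩
    · intro p; simp
    · simp
    · simpa using halt
  · push Not at halt
    obtain ⟨hI, Q, a, hQ, ha, hlt⟩ := halt
    have hYs : ∀ p q : Lt k, p.1 ∈ Yb C y → (C p q ↔ q.1 ∈ Yb C y) := fun p q hp =>
      Yb_spec hC hy p q hp
    have htr : tran C (wrd s (gg s g h0)) ≤ 2 * tran C (wrd s g) :=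
      tran_gg hYs hC.eqv hv hc hF
    have heb : ebt (wrd s (gg s g h0)) Q {a} ≤ tran C (wrd s (gg s g h0)) := by
      unfold ebt tran
      apply List.countP_mono_left
      intro e _ he
      simp only [Finset.mem_singleton, decide_eq_true_eq] at he ⊢
      rcases he with ⟨h1, h2⟩ | ⟨h1, h2⟩
      · intro hcc
        rw [h2] at hcc
        exact hQ _ h1 ((hYs a e.1 ha).1 (hC.eqv.symm hcc))
      · intro hcc
        rw [h1] at hcc
        exact hQ _ h2 ((hYs a e.2 ha).1 hcc)
    have hcap : 2 * cap (wrd s (gg s g h0)) Q < T := by omega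
    have hQc : ∀ p q, C p q → (p ∈ Q ↔ q ∈ Q) := hI Q hcap
    have hv0 : Val (Yb C y) s (gg s g h0) := gg_val hv hF
    have hsl := slide_length hv0 Q hQ ha
    rw [gg_gg] at hsl
    set h0' : Lt k → FG k := fun p => h0 p * onK Q (lt a) p with hh0'
    have hK : ∀ p, onK Q (lt a) p ∈ FY (Yb C y) := by
      intro p
      unfold onK
      split_ifs
      · exact desc_lt_mem ha
      · exact Subgroup.one_mem _
    have hKc : ∀ p q, C p q → onK Q (lt a) p = onK Q (lt a) q := by
      intro p q hpq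
      unfold onK
      have := hQc p q hpq
      by_cases hp : p ∈ Q
      · simp [hp, this.1 hp]
      · have hq : q ∉ Q := fun h => hp (this.2 h)
        simp [hp, hq]
    have hKn : ∀ p, (onK Q (lt a) p).norm ≤ 1 := by
      intro p
      unfold onK
      split_ifs
      · exact desc_norm_lt a
      · simp
    have hF' : ∀ p, h0' p ∈ FY (Yb C y) := fun p => Subgroup.mul_mem _ (hF p) (hK p)
    have hc' : ∀ p q, C p q → h0' p = h0' q := by
      intro p q hpq
      simp only [hh0', hc p q hpq, hKc p q hpq]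
    have hlen : (wrd s (gg s g h0')).length < (wrd s (gg s g h0)).length := by omega
    obtain ⟨h1, a1, a2, a3, a4, a5⟩ := ih _ (lt_of_lt_of_le hlen hn) h0' hF' hc' le_rfl
    have hfun : (fun p => h0 p * (onK Q (lt a) p * h1 p)) = fun p => h0' p * h1 p := by
      funext p; simp only [hh0', mul_assoc]
    refine ⟨fun p => onK Q (lt a) p * h1 p, fun p => Subgroup.mul_mem _ (hK p) (a1 p), ?_, ?_, ?_, ?_⟩
    · intro p q hpq
      simp only [hKc p q hpq, a2 p q hpq]
    · intro p
      simp only [hfun]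
      have hnm := FreeGroup.norm_mul_le (onK Q (lt a) p) (h1 p)
      have := hKn p
      have := a3 p
      omega
    · simp only [hfun]
      omega
    · simp only [hfun]
      exact a5

theorem desc {C : Lt k → Lt k → Prop} (hC : Str C) {T M : ℕ} {y : Fin k}
    (hy : C (y, true) (y, false)) {m : ℕ} [NeZero m] {s : Fin m → Lt k} {g : Fin m → FG k}
    (hv : Val (Yb C y) s g) (hM : tran C (wrd s g) ≤ M) (hT : 8 * M ≤ T) :
    ∃ h : Lt k → FG k, (∀ p, h p ∈ FY (Yb C y)) ∧ (∀ p q, C p q → h p = h q) ∧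
      (∀ p, (h p).norm ≤ (wrd s g).length) ∧
      (wrd s (gg s g h)).length ≤ (wrd s g).length ∧
      (¬ I3 C T (wrd s (gg s g h)) ∨
        ∀ (Q : Finset (Lt k)) (a : Lt k), (∀ p ∈ Q, p.1 ∉ Yb C y) → a.1 ∈ Yb C y →
          2 * ebt (wrd s (gg s g h)) Q {a} ≤ cap (wrd s (gg s g h)) Q) := by
  obtain ⟨h1, a1, a2, a3, a4, a5⟩ := desc_aux hC hy hv hM hT _ (fun _ => 1)
    (fun _ => Subgroup.one_mem _) (fun _ _ _ => rfl) le_rfl
  have e1 : (fun p => (1 : FG k) * h1 p) = h1 := by funext p; simp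
  rw [gg_one] at a3 a4
  simp only [e1] at a3 a4 a5
  exact ⟨h1, a1, a2, fun p => by have := a3 p; omega, a4, a5⟩

end Pool.Agent.GRO
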