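import Pool.Agent.GRO.FIN
import Pool.Agent.helper56.GrowthC

/-!
# DIS: the words `x_1 ^ p ... x_k ^ p`
Adapted from `Pool/Agent/Results/MP_1babb5_al/ConjectureFails.lean` (helper56), with the exact value
of the growth.
-/

set_option autoImplicit false

open Filter Pool.Agent.Growth56

namespace Pool.Agent.GRO

/-- The smallest positive number of occurrences of `x ^ {±1}` in the reduced word of some element
of the orbit of `w`. -/
noncomputable def mu {k : ℕ} (x : Fin k) (w : FreeGroup (Fin k)) : ℕ :=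
  sInf {n : ℕ | 0 < n ∧ ∃ g ∈ orbit w, occ x g = n}

/-- All cyclic words of length `N` come from words of length `N`. -/
private theorem DIS_ofLength_bound {k : ℕ} (S : Set (ConjClasses (FreeGroup (Fin k)))) (N : ℕ) :
    (ofLength S N).Finite ∧ (ofLength S N).ncard ≤ (k * 2) ^ N := by
  classical
  let f : (Fin N → Fin k × Bool) → ConjClasses (FreeGroup (Fin k)) :=
    fun l => ConjClasses.mk (FreeGroup.mk (List.ofFn l))
  have hsub : ofLength S N ⊆ Set.range f := by
    rintro c ⟨_, g, hg, _, hN⟩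
    subst hN
    refine ⟨fun i => g.toWord.get i, ?_⟩
    change ConjClasses.mk (FreeGroup.mk (List.ofFn fun i => g.toWord.get i)) = c
    rw [List.ofFn_get, FreeGroup.mk_toWord]
    exact ConjClasses.mem_carrier_iff_mk_eq.1 hg
  have hfin : (Set.range f).Finite := Set.finite_range f
  refine ⟨hfin.subset hsub, ?_⟩
  calc (ofLength S N).ncard ≤ (Set.range f).ncard := Set.ncard_le_ncard hsub hfin
    _ ≤ Nat.card (Fin N → Fin k × Bool) := by
        rw [← Set.image_univ, ← Set.ncard_univ]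
        exact Set.ncard_image_le
    _ = (k * 2) ^ N := by simp

private theorem DIS_growth_bounded {k : ℕ} (S : Set (ConjClasses (FreeGroup (Fin k)))) :
    IsBoundedUnder (· ≤ ·) atTop
      (fun N : ℕ => ((ofLength S N).ncard : ℝ) ^ (1 / (N : ℝ))) := by
  refine ⟨(k * 2 : ℕ) + 1, ?_⟩
  rw [Filter.eventually_map]
  filter_upwards [eventually_ge_atTop 1] with N hN
  have h1 : ((ofLength S N).ncard : ℝ) ≤ ((k * 2 : ℕ) : ℝ) ^ N := by
    exact_mod_cast (DIS_ofLength_bound S N).2
  calc ((ofLength S N).ncard : ℝ) ^ (1 / (N : ℝ))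
      ≤ (((k * 2 : ℕ) : ℝ) ^ N) ^ (1 / (N : ℝ)) := by
        apply Real.rpow_le_rpow (by positivity) h1 (by positivity)
    _ = ((k * 2 : ℕ) : ℝ) := by
        rw [← Real.rpow_natCast, ← Real.rpow_mul (by positivity)]
        rw [mul_one_div_cancel (by positivity), Real.rpow_one]
    _ ≤ (k * 2 : ℕ) + 1 := by linarith

private theorem DIS_countP_pw {m : ℕ} (p : ℕ) (x : Fin (m + 3)) (l : List (Fin (m + 3))) :
    (pw p l).countP (fun a => a.1 = x) = l.count x * p := by
  induction l with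
  | nil => simp [pw]
  | cons i l ih =>
    have h2 : pw p (i :: l) = List.replicate p (i, true) ++ pw p l := by simp [pw]
    rw [h2, List.countP_append, ih, List.count_cons, List.countP_replicate]
    by_cases h : i = x
    · simp [h]
      ring
    · simp [h]

private theorem DIS_toWord_ww (m p : ℕ) : (ww (m + 3) p).toWord = pw p (List.finRange (m + 3)) := by
  rw [ww, ← mk_pw, FreeGroup.toWord_mk]
  exact (reduced_of_true (pw_true _ _)).reduce_eq

private theorem DIS_occ_ww (m p : ℕ) (x : Fin (m + 3)) : occ x (ww (m + 3) p) = p := by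
  rw [occ, DIS_toWord_ww, DIS_countP_pw, List.count_eq_one_of_mem (List.nodup_finRange _)
    (List.mem_finRange x), one_mul]

private theorem DIS_mu_ww (m p : ℕ) (hp : p.Prime) (hp2 : p ≠ 2) (x : Fin (m + 3)) :
    mu x (ww (m + 3) p) = p := by
  have : Fact p.Prime := ⟨hp⟩
  have hmem : p ∈ {n : ℕ | 0 < n ∧ ∃ g ∈ orbit (ww (m + 3) p), occ x g = n} :=
    ⟨hp.pos, ww (m + 3) p, ⟨1, rfl⟩, DIS_occ_ww m p x⟩
  apply le_antisymm
  · exact Nat.sInf_le hmem
  · refine le_csInf ⟨p, hmem⟩ ?_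
    rintro n ⟨_, g, ⟨φ, rfl⟩, rfl⟩
    exact occ_ge hp2 x φ

private theorem DIS_mem_cyclicWords {k : ℕ} (w : FreeGroup (Fin k)) (φ : MulAut (FreeGroup (Fin k))) :
    ConjClasses.mk (φ w) ∈ cyclicWords w := by
  intro g hg
  have h1 : ConjClasses.mk g = ConjClasses.mk (φ w) := ConjClasses.mem_carrier_iff_mk_eq.1 hg
  rw [ConjClasses.mk_eq_mk_iff_isConj] at h1
  obtain ⟨c, hc⟩ := isConj_iff.1 h1.symm
  exact ⟨MulAut.conj c * φ, by rw [MulAut.mul_apply, MulAut.conj_apply, hc]⟩

private theorem DIS_card_lower (m p : ℕ) (hp : 0 < p) (n : ℕ) :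
    (2 * m + 3) ^ n ≤
      (ofLength (cyclicWords (ww (m + 3) p)) (2 * (n + 1) + (m + 3) * p)).ncard := by
  let a0 : Fin (m + 3) × Bool := (Fin.last (m + 2), true)
  have ha0 : a0.1 ≠ 0 := by
    intro h
    have := congrArg Fin.val h
    simp [a0] at this
  let F : (Fin n → Fin (2 * m + 3)) → ConjClasses (FreeGroup (Fin (m + 3))) :=
    fun f => ConjClasses.mk (FreeGroup.mk (Lw p (build a0 (List.ofFn f))))
  have hF : Function.Injective F := by
    intro f f' h
    have h1 := Lw_inj hp (build_reduced _ _) (build_ne_zero _ _ ha0) (build_head _ _)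
      (build_reduced _ _) (build_ne_zero _ _ ha0) (build_head _ _)
      (by rw [build_length, build_length]; simp) h
    exact List.ofFn_injective (build_inj _ _ _ h1)
  have hsub : Set.range F ⊆ ofLength (cyclicWords (ww (m + 3) p)) (2 * (n + 1) + (m + 3) * p) := by
    rintro _ ⟨f, rfl⟩
    refine ⟨?_, FreeGroup.mk (Lw p (build a0 (List.ofFn f))), ?_, ?_, ?_⟩
    · change ConjClasses.mk (FreeGroup.mk (Lw p (build a0 (List.ofFn f)))) ∈ _
      rw [mk_Lw p (build_ne_zero _ _ ha0)]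
      exact DIS_mem_cyclicWords _ _
    · exact ConjClasses.mem_carrier_mk
    · have h1 := Lw_cyc hp (build_reduced (List.ofFn f) a0) (build_ne_zero _ _ ha0)
        (build_head _ _)
      rw [FreeGroup.toWord_mk, h1.isReduced.reduce_eq]
      exact h1
    · have h1 := Lw_cyc hp (build_reduced (List.ofFn f) a0) (build_ne_zero _ _ ha0)
        (build_head _ _)
      rw [FreeGroup.toWord_mk, h1.isReduced.reduce_eq, Lw_length, build_length]
      simp
  calc (2 * m + 3) ^ n = (Set.range F).ncard := by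
        rw [← Set.image_univ, Set.ncard_image_of_injective _ hF, Set.ncard_univ]
        simp
    _ ≤ _ := Set.ncard_le_ncard hsub (DIS_ofLength_bound _ _).1

private theorem DIS_growth_lower (m p : ℕ) (hp : 0 < p) :
    ((2 * m + 3 : ℕ) : ℝ) ^ ((1 : ℝ) / 2) ≤ growth (cyclicWords (ww (m + 3) p)) := by
  apply le_of_forall_lt
  intro c hc
  -- the exponents tend to `1 / 2`
  have hlim : Tendsto (fun n : ℕ => ((2 * m + 3 : ℕ) : ℝ) ^
      ((n : ℝ) / ((2 * (n + 1) + (m + 3) * p : ℕ) : ℝ))) atTop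
      (nhds (((2 * m + 3 : ℕ) : ℝ) ^ ((1 : ℝ) / 2))) := by
    have h0 : ((2 * m + 3 : ℕ) : ℝ) ≠ 0 := by positivity
    refine (Real.continuousAt_const_rpow h0).tendsto.comp ?_
    have h1 : Tendsto (fun n : ℕ => (1 : ℝ) / (2 + ((2 + (m + 3) * p : ℕ) : ℝ) / (n : ℝ))) atTop
        (nhds (1 / (2 + 0))) := by
      apply Tendsto.div tendsto_const_nhds _ (by norm_num)
      exact Tendsto.add tendsto_const_nhds (tendsto_const_div_atTop_nhds_zero_nat _)
    rw [add_zero] at h1
    refine h1.congr' ?_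
    filter_upwards [eventually_gt_atTop 0] with n hn
    have hn' : (n : ℝ) ≠ 0 := by positivity
    push_cast
    field_simp
    ring_nf
  obtain ⟨c', hc1, hc2⟩ := exists_between hc
  have hev := hlim.eventually (lt_mem_nhds hc2)
  refine lt_of_lt_of_le hc1 ?_
  apply le_limsup_of_frequently_le _ (DIS_growth_bounded _)
  rw [frequently_atTop]
  intro N
  obtain ⟨n, hn, hnN⟩ := (hev.and (eventually_ge_atTop N)).exists
  refine ⟨2 * (n + 1) + (m + 3) * p, by omega, ?_⟩
  refine hn.le.trans ?_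
  have h1 : (((2 * m + 3 : ℕ) : ℝ)) ^ n ≤
      ((ofLength (cyclicWords (ww (m + 3) p)) (2 * (n + 1) + (m + 3) * p)).ncard : ℝ) := by
    exact_mod_cast DIS_card_lower m p hp n
  calc ((2 * m + 3 : ℕ) : ℝ) ^ ((n : ℝ) / ((2 * (n + 1) + (m + 3) * p : ℕ) : ℝ))
      = (((2 * m + 3 : ℕ) : ℝ) ^ n) ^ (1 / ((2 * (n + 1) + (m + 3) * p : ℕ) : ℝ)) := by
        rw [← Real.rpow_natCast, ← Real.rpow_mul (by positivity)]
        congr 1
        ring
    _ ≤ _ := Real.rpow_le_rpow (by positivity) h1 (by positivity)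


theorem dis (k : ℕ) (hk : 3 ≤ k) (p : ℕ) (hp : p.Prime) (hp2 : p ≠ 2)
    (w : FreeGroup (Fin k))
    (hw : w = ((List.finRange k).map (fun i => FreeGroup.of i ^ p)).prod) :
    w ≠ 1 ∧ ¬ Prim w ∧ (∀ x : Fin k, mu x w = p) ∧
      growth (cyclicWords w) = Real.sqrt (2 * k - 3) := by
  obtain ⟨m, rfl⟩ : ∃ m, k = m + 3 := ⟨k - 3, by omega⟩
  have hww : w = ww (m + 3) p := hw
  subst hww
  have hcast : (2 * ((m + 3 : ℕ) : ℝ) - 3) = ((2 * m + 3 : ℕ) : ℝ) := by
    push_cast
    ring
  have hmu := DIS_mu_ww m p hp hp2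
  have hgr := DIS_growth_lower m p hp.pos
  have hne : ww (m + 3) p ≠ 1 := by
    intro h
    have := DIS_occ_ww m p 0
    rw [h] at this
    simp [occ] at this
    exact hp.ne_zero this.symm
  have hnp : ¬ Prim (ww (m + 3) p) := by
    rintro ⟨φ, i, hφ⟩
    have : Fact p.Prime := ⟨hp⟩
    have h1 := occ_ge hp2 i φ.symm
    rw [← hφ, MulEquiv.symm_apply_apply] at h1
    have h2 : (FreeGroup.of i : FreeGroup (Fin (m + 3))).toWord.countP (fun a => a.1 = i) = 1 := by
      rw [FreeGroup.toWord_of]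
      simp
    have h3 := hp.two_le
    omega
  refine ⟨hne, hnp, hmu, ?_⟩
  apply le_antisymm (fin_second hk hne hnp 0).1
  rw [Real.sqrt_eq_rpow, hcast]
  exact hgr

end Pool.Agent.GRO
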