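import Mathlib

/-!
# Project GRO (MP_1babb5_al): definitions

Letters, cyclic words (lists), Whitehead graph edges, capacities, relative words, gauges,
reduction relations.
-/

set_option autoImplicit false

namespace Pool.Agent.GRO

/-- Letters: `(x, true)` is the generator `x`, `(x, false)` its inverse. -/
abbrev Lt (k : ℕ) := Fin k × Bool

abbrev FG (k : ℕ) := FreeGroup (Fin k)

variable {k : ℕ}

/-- The inverse letter. -/
def bar (a : Lt k) : Lt k := (a.1, !a.2)

/-- A letter as an element of the free group. -/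
def lt (a : Lt k) : FG k := FreeGroup.mk [a]

/-- Nonempty cyclically reduced words. -/
def CR (l : List (Lt k)) : Prop := FreeGroup.IsCyclicallyReduced l ∧ l ≠ []

/-- The Whitehead edges of a passage: leave the direction `p`, read the word `w`, go into the
direction `q`. -/
def pe : Lt k → List (Lt k) → Lt k → List (Lt k × Lt k)
  | p, [], q => [(p, q)]
  | p, c :: w, q => (p, c) :: pe (bar c) w q

/-- The edges of the Whitehead graph of the cyclic word `l`: one edge `(bar a, b)` for every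
cyclically consecutive pair `a b`. -/
def edg : List (Lt k) → List (Lt k × Lt k)
  | [] => []
  | a :: w => pe (bar a) w a

/-- Capacity of the cut `S`: number of Whitehead edges with exactly one end in `S`. -/
def cap (l : List (Lt k)) (S : Finset (Lt k)) : ℕ :=
  (edg l).countP fun e => decide (e.1 ∈ S) != decide (e.2 ∈ S)

/-- Number of Whitehead edges between `S` and `S'`. -/
def ebt (l : List (Lt k)) (S S' : Finset (Lt k)) : ℕ :=
  (edg l).countP fun e => decide ((e.1 ∈ S ∧ e.2 ∈ S') ∨ (e.1 ∈ S' ∧ e.2 ∈ S))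

/-- Adjacency in the Whitehead graph. -/
def Adj (l : List (Lt k)) (x y : Lt k) : Prop := (x, y) ∈ edg l ∨ (y, x) ∈ edg l

/-- The letter `a` is used by `l` (in one of the two directions). -/
def Used (l : List (Lt k)) (a : Lt k) : Prop := a ∈ l ∨ bar a ∈ l

/-- `x` and `y` are not separated by a cut of capacity `< t`. -/
def conn (t : ℕ) (l : List (Lt k)) (x y : Lt k) : Prop :=
  ∀ S : Finset (Lt k), x ∈ S → y ∉ S → t ≤ cap l S

open Classical in
/-- Number of edges between different classes of `C`. -/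
noncomputable def tran (C : Lt k → Lt k → Prop) (l : List (Lt k)) : ℕ :=
  (edg l).countP fun e => decide (¬ C e.1 e.2)

/-- The free factor generated by the letters in `Y`. -/
def FY (Y : Finset (Fin k)) : Subgroup (FG k) :=
  Subgroup.closure ((FreeGroup.of) '' (Y : Set (Fin k)))

/-- The relative word `s 0 g 0 s 1 g 1 ...`. -/
def wrd {m : ℕ} (s : Fin m → Lt k) (g : Fin m → FG k) : List (Lt k) :=
  (List.ofFn fun i => s i :: (g i).toWord).flatten

/-- Valid relative words with respect to `Y`. -/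
structure Val (Y : Finset (Fin k)) {m : ℕ} [NeZero m] (s : Fin m → Lt k) (g : Fin m → FG k) :
    Prop where
  hs : ∀ i, (s i).1 ∉ Y
  hg : ∀ i, g i ∈ FY Y
  hr : ∀ i, g i = 1 → s (i + 1) ≠ bar (s i)

/-- Gauge transformation of the labels. -/
def gg {m : ℕ} [NeZero m] (s : Fin m → Lt k) (g : Fin m → FG k) (h : Lt k → FG k) :
    Fin m → FG k :=
  fun i => (h (bar (s i)))⁻¹ * g i * h (s (i + 1))

/-- Gauge endomorphism: `x ↦ x` for `x ∈ Y` and `x ↦ h x * x * (h (bar x))⁻¹` otherwise. -/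
def gauH (Y : Finset (Fin k)) (h : Lt k → FG k) : FG k →* FG k :=
  FreeGroup.lift fun x =>
    if x ∈ Y then FreeGroup.of x
    else h (x, true) * FreeGroup.of x * (h (x, false))⁻¹

open Classical in
/-- `h` on `K`, trivial elsewhere. -/
noncomputable def onK (K : Finset (Lt k)) (h : FG k) : Lt k → FG k :=
  fun p => if p ∈ K then h else 1

/-- The Whitehead automorphism of `(S, a)`. -/
noncomputable def whH (S : Finset (Lt k)) (a : Lt k) : FG k →* FG k :=
  gauH {a.1} (onK S (lt a))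

/-- The cyclically reduced words in the orbit of `w`. -/
def Orb (w : FG k) : Set (List (Lt k)) :=
  {l | CR l ∧ ∃ φ : MulAut (FG k), φ w = FreeGroup.mk l}

/-! ### Reduction relations -/

/-- Whitehead moves that do not increase the length. -/
def RW (l v : List (Lt k)) : Prop :=
  ∃ (S : Finset (Lt k)) (a : Lt k), a ∈ S ∧ bar a ∉ S ∧ v.length ≤ l.length ∧
    IsConj (FreeGroup.mk v) (whH S a (FreeGroup.mk l))

/-- Runs: all ends of the set `K` of ports are pushed along `h`, `|h|` letters are saved at each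
of the `cap l K` ends. -/
def RR (l v : List (Lt k)) : Prop :=
  ∃ (Y : Finset (Fin k)) (K : Finset (Lt k)) (h : FG k), (∀ p ∈ K, p.1 ∉ Y) ∧ h ∈ FY Y ∧
    0 < cap l K ∧ v.length + h.norm * cap l K ≤ l.length ∧
    IsConj (FreeGroup.mk v) (gauH Y (onK K h) (FreeGroup.mk l))

/-- `p` is a port of the relative word. -/
def Port {m : ℕ} (s : Fin m → Lt k) (p : Lt k) : Prop := ∃ i, p = s i ∨ p = bar (s i)

/-- One step between ports: same class or an empty passage. -/
def StP (C : Lt k → Lt k → Prop) {m : ℕ} [NeZero m] (s : Fin m → Lt k) (g : Fin m → FG k)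
    (p q : Lt k) : Prop :=
  C p q ∨ ∃ i, g i = 1 ∧ ((p = bar (s i) ∧ q = s (i + 1)) ∨ (q = bar (s i) ∧ p = s (i + 1)))

/-- A nonempty passage leaves the port `q` with first letter `c`. -/
def Lv {m : ℕ} [NeZero m] (s : Fin m → Lt k) (g : Fin m → FG k) (q c : Lt k) : Prop :=
  ∃ i, (q = bar (s i) ∧ (g i).toWord.head? = some c) ∨
    (q = s (i + 1) ∧ ((g i)⁻¹).toWord.head? = some c)

/-- Every port is connected, for every forbidden letter `b`, to a passage which starts with
another letter. -/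
def Gates (C : Lt k → Lt k → Prop) {m : ℕ} [NeZero m] (s : Fin m → Lt k)
    (g : Fin m → FG k) : Prop :=
  ∀ p, Port s p → ∀ b : Lt k, ∃ q c, Relation.ReflTransGen (StP C s g) p q ∧ Lv s g q c ∧ c ≠ b

/-- Gauge reductions from a word with gates. -/
def RG (N : ℕ) (l v : List (Lt k)) : Prop :=
  ∃ (C : Lt k → Lt k → Prop) (Y : Finset (Fin k)) (m : ℕ) (_ : NeZero m) (s : Fin m → Lt k)
    (g : Fin m → FG k) (h : Lt k → FG k),
    Equivalence C ∧ (∀ p q, C p q → (p.1 ∈ Y ↔ q.1 ∈ Y)) ∧ Val Y s g ∧ (∀ p, h p ∈ FY Y) ∧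
    (∀ p q, C p q → h p = h q) ∧ (∀ p, (h p).norm ≤ N) ∧ Gates C s g ∧
    l ~r wrd s g ∧ v ~r wrd s (gg s g h) ∧ v.length ≤ l.length

/-- The union of the three relations. -/
def RB (N : ℕ) (l v : List (Lt k)) : Prop := RW l v ∨ RR l v ∨ RG N l v

/-- Chains of exactly `n` steps of a relation inside the set `O`, with non-increasing length. -/
def Ch (O : Set (List (Lt k))) (R : List (Lt k) → List (Lt k) → Prop) :
    ℕ → List (Lt k) → List (Lt k) → Prop
  | 0 => fun l v => l = v
  | n + 1 => fun l v => ∃ l' ∈ O, l'.length ≤ l.length ∧ R l l' ∧ Ch O R n l' v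

/-- Exponential bound for the fibres of a relation. -/
def FB (O : Set (List (Lt k))) (N : ℕ) (s0 : ℝ) (R : List (Lt k) → List (Lt k) → Prop)
    (B : ℝ) : Prop :=
  ∀ v ∈ O, ∀ δ : ℕ,
    (({l | l ∈ O ∧ l.length ≤ N ∧ l.length = v.length + δ ∧ R l v}.ncard : ℕ) : ℝ) ≤
      B * Real.exp (s0 * δ)

/-- The hypothesis on the exponent `s0`. -/
def Hyp (w : FG k) (s0 : ℝ) : Prop :=
  ∀ l ∈ Orb w, ∀ (Y : Finset (Fin k)) (K : Finset (Lt k)), (∀ p ∈ K, p.1 ∉ Y) → 0 < cap l K →
    (2 * (Y.card : ℝ) - 1) ≤ Real.exp (s0 * cap l K)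

/-! ### Structured partitions and invariants -/

/-- The equivalence relations which occur: a letter which is not equivalent to its inverse is
alone in its class. -/
structure Str (C : Lt k → Lt k → Prop) : Prop where
  eqv : Equivalence C
  sgl : ∀ a, ¬ C a (bar a) → ∀ b, C a b → b = a

open Classical in
/-- The block of the letter `y`. -/
noncomputable def Yb (C : Lt k → Lt k → Prop) (y : Fin k) : Finset (Fin k) :=
  Finset.univ.filter fun x => C (y, true) (x, true)

/-- Cuts of capacity `< T / 2` do not split classes. -/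
def I3 (C : Lt k → Lt k → Prop) (T : ℕ) (l : List (Lt k)) : Prop :=
  ∀ S : Finset (Lt k), 2 * cap l S < T → ∀ x y, C x y → (x ∈ S ↔ y ∈ S)

/-- No Whitehead move saves `T / 8`. -/
def NG (T : ℕ) (l : List (Lt k)) : Prop :=
  ∀ (S : Finset (Lt k)) (a : Lt k), a ∈ S → bar a ∉ S → 8 * cap l {a} < T + 8 * cap l S

/-- No cut vertex. -/
def NC (l : List (Lt k)) : Prop :=
  ∀ (a : Lt k) (S : Finset (Lt k)), a ∉ S → bar a ∉ S →
    (∀ x y, Adj l x y → x ∈ S → y ∉ S → y = a) → cap l S = 0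

/-- No disconnecting cut separates a used letter from its inverse. -/
def ZC (l : List (Lt k)) : Prop :=
  ∀ (S : Finset (Lt k)) (z : Lt k), cap l S = 0 → z ∈ S → bar z ∉ S → cap l {z} = 0

/-- Steps between letters outside `Y`: same class or adjacent. -/
def StY (C : Lt k → Lt k → Prop) (Y : Finset (Fin k)) (l : List (Lt k)) (x y : Lt k) : Prop :=
  x.1 ∉ Y ∧ y.1 ∉ Y ∧ (C x y ∨ Adj l x y)

/-- All-agree: all edges from the component of `x` into `Y` go to one letter. -/
def AA (C : Lt k → Lt k → Prop) (Y : Finset (Fin k)) (l : List (Lt k)) (x : Lt k) : Prop :=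
  x.1 ∉ Y ∧ ∃ a : Lt k, a.1 ∈ Y ∧
    (∃ x', Relation.ReflTransGen (StY C Y l) x x' ∧ Adj l x' a) ∧
    ∀ x' y, Relation.ReflTransGen (StY C Y l) x x' → y.1 ∈ Y → Adj l x' y → y = a

open Classical in
/-- Number of all-agree pairs. -/
noncomputable def NA (C : Lt k → Lt k → Prop) (l : List (Lt k)) : ℕ :=
  (Finset.univ.filter fun yx : Fin k × Lt k =>
    C (yx.1, true) (yx.1, false) ∧ AA C (Yb C yx.1) l yx.2).card

/-- The potential of the retraction. -/
noncomputable def Psi (C : Lt k → Lt k → Prop) (l : List (Lt k)) : ℕ :=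
  tran C l * (2 * k ^ 2 + 1) + NA C l

/-! ### Sign functions (partitions of the ports and ends of `F(Y)`) -/

/-- Separated passages. -/
def SepP (Y : Finset (Fin k)) {m : ℕ} [NeZero m] (s : Fin m → Lt k) (g : Fin m → FG k)
    (σ : FG k → Lt k → Prop) : Set (FG k × Fin m) :=
  {x | x.1 ∈ FY Y ∧ ¬ (σ x.1 (bar (s x.2)) ↔ σ (x.1 * g x.2) (s (x.2 + 1)))}

/-- Signs are locally constant far away. -/
def TameS (Y : Finset (Fin k)) (σ : FG k → Lt k → Prop) (τ : FG k → Prop) (ρ : ℕ) : Prop :=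
  ∀ V ∈ FY Y, ρ ≤ V.norm → ∀ U ∈ FY Y, V.toWord <+: U.toWord →
    ((τ U ↔ τ V) ∧ ∀ p : Lt k, p.1 ∉ Y → (σ U p ↔ τ V))

/-- Existence of a bichromatic tame sign function with at most `c` separated passages. -/
def HasSgn (Y : Finset (Fin k)) {m : ℕ} [NeZero m] (s : Fin m → Lt k) (g : Fin m → FG k)
    (c : ℕ) : Prop :=
  ∃ (σ : FG k → Lt k → Prop) (τ : FG k → Prop) (ρ : ℕ), TameS Y σ τ ρ ∧
    {V | V ∈ FY Y ∧ τ V}.Infinite ∧ {V | V ∈ FY Y ∧ ¬ τ V}.Infinite ∧
    (SepP Y s g σ).Finite ∧ (SepP Y s g σ).ncard ≤ c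

/-- Subsets of the free group which are locally constant far away. -/
def TameE (E : Set (FG k)) (ρ : ℕ) : Prop :=
  ∀ g v : FG k, ρ ≤ g.norm → g.toWord <+: v.toWord → (v ∈ E ↔ g ∈ E)

/-- The lines of `u` separated by `E`. -/
def SepE (E : Set (FG k)) (u : FG k) : Set (FG k ⧸ Subgroup.zpowers u) :=
  {q | ∃ g : FG k, (g : FG k ⧸ Subgroup.zpowers u) = q ∧
    ¬ ((∀ᶠ n : ℕ in Filter.atTop, g * u ^ n ∈ E) ↔
      (∀ᶠ n : ℕ in Filter.atTop, g * (u⁻¹) ^ n ∈ E))}

/-- A tame set which splits the ends of `F(Y)` and separates at most `c` lines of `u`. -/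
def HasE (Y : Finset (Fin k)) (u : FG k) (c : ℕ) (E : Set (FG k)) (ρ : ℕ) : Prop :=
  TameE E ρ ∧ {V | V ∈ FY Y ∧ V ∈ E}.Infinite ∧ {V | V ∈ FY Y ∧ V ∉ E}.Infinite ∧
    (SepE E u).Finite ∧ (SepE E u).ncard ≤ c

/-- Periodic letters of the line of `l`. -/
def Lz (a0 : Lt k) (l : List (Lt k)) (j : ℤ) : Lt k :=
  l.getD ((j % (l.length : ℤ)).toNat) a0

/-- Vertices of the line of `l` through `1`. -/
def Pz (l : List (Lt k)) (j : ℤ) : FG k :=
  (FreeGroup.mk l) ^ (j / (l.length : ℤ)) * FreeGroup.mk (l.take ((j % (l.length : ℤ)).toNat))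

end Pool.Agent.GRO
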