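import Pool.Agent.GRO.Defs

/-!
# Defs2: further definitions (signs of edges, cones, positions, vertices of passages)
-/

set_option autoImplicit false

open Filter

namespace Pool.Agent.GRO

variable {k : ℕ}

/-- The forward end of the line through `h` is in `E`. -/
def EndP (E : Set (FG k)) (u h : FG k) : Prop := ∀ᶠ n : ℕ in atTop, h * u ^ n ∈ E

/-- The backward end of the line through `h` is in `E`. -/
def EndM (E : Set (FG k)) (u h : FG k) : Prop := ∀ᶠ n : ℕ in atTop, h * (u⁻¹) ^ n ∈ E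

/-- All lines of `l` through the edge from `g` in direction `q` have the sign `ε` in this
direction. -/
def AllSg (E : Set (FG k)) (a0 : Lt k) (l : List (Lt k)) (g : FG k) (q : Lt k) (ε : Prop) : Prop :=
  (∀ j : ℤ, Lz a0 l j = q → (EndP E (FreeGroup.mk l) (g * (Pz l j)⁻¹) ↔ ε)) ∧
  (∀ j : ℤ, bar (Lz a0 l (j - 1)) = q → (EndM E (FreeGroup.mk l) (g * (Pz l j)⁻¹) ↔ ε))

/-- `x` is `V` or lies beyond `V` in one of the directions in `A`. -/
def InOm (V : FG k) (A : Lt k → Prop) (x : FG k) : Prop :=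
  x = V ∨ ∃ q, A q ∧ (V * lt q).toWord <+: x.toWord

/-- The position of the letter `s i` in the relative word. -/
def pos {m : ℕ} (g : Fin m → FG k) (i : Fin m) : ℕ :=
  ∑ i' ∈ Finset.univ.filter (fun i' : Fin m => i' < i), (1 + (g i').norm)

/-- The start of the passage `i` whose vertex number `j` is `V`. -/
def stv {m : ℕ} (g : Fin m → FG k) (V : FG k) (i : Fin m) (j : ℕ) : FG k :=
  V * (FreeGroup.mk ((g i).toWord.take j))⁻¹

/-- The sign of the direction `x` at the vertex `V`. -/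
def dsg (Y : Finset (Fin k)) (σ : FG k → Lt k → Prop) (τ : FG k → Prop) (V : FG k) (x : Lt k) :
    Prop :=
  (x.1 ∈ Y ∧ τ (V * lt x)) ∨ (x.1 ∉ Y ∧ σ V x)

/-- The sign function is constant below all vertices outside the finite subtree `D`. -/
structure OKD (Y : Finset (Fin k)) (σ : FG k → Lt k → Prop) (τ : FG k → Prop)
    (D : Finset (FG k)) : Prop where
  mem : ∀ V ∈ D, V ∈ FY Y
  one : (1 : FG k) ∈ D
  pre : ∀ V ∈ D, ∀ U : FG k, U.toWord <+: V.toWord → U ∈ D
  out : ∀ V ∈ FY Y, V ∉ D → ∀ U ∈ FY Y, V.toWord <+: U.toWord →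
    (τ U ↔ τ V) ∧ ∀ p : Lt k, p.1 ∉ Y → (σ U p ↔ τ V)

end Pool.Agent.GRO
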