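import Pool.Agent.GRO.REL1

/-!
# ENC1: directed passages and the way to a gate
* `lab_gg`: `gg s g h i = (h (bar (s i)))⁻¹ * g i * h (s (i+1))` and its inverse.
* `gate_walk`: define `rch n p b` by recursion: `rch 0 p b := ∃ d, C p (src s d) ∧ lab g d ≠ 1 ∧
  (lab g d).toWord.head? ≠ some b`, `rch (n+1) p b := ∃ d, C p (src s d) ∧ lab g d = 1 ∧
  rch n (tgt s d) b`. `Gates` implies `∃ n, rch n p b` for every port (head induction on
  `Relation.ReflTransGen`: a class step is absorbed by transitivity of `C`, an empty passage is a `d`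
  with `lab g d = 1`; at the end `Lv` gives `d`). `dist p b` = the least such `n` (`0` if there is none),
  `δ p b` = a corresponding `d`.
-/

set_option autoImplicit false

namespace Pool.Agent.GRO

variable {k : ℕ}

/-- Start of a directed passage. -/
def src {m : ℕ} [NeZero m] (s : Fin m → Lt k) (d : Fin m × Bool) : Lt k :=
  if d.2 then bar (s d.1) else s (d.1 + 1)

/-- End of a directed passage. -/
def tgt {m : ℕ} [NeZero m] (s : Fin m → Lt k) (d : Fin m × Bool) : Lt k :=
  if d.2 then s (d.1 + 1) else bar (s d.1)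

/-- Label of a directed passage. -/
def lab {m : ℕ} (g : Fin m → FG k) (d : Fin m × Bool) : FG k :=
  if d.2 then g d.1 else (g d.1)⁻¹

theorem lab_gg {m : ℕ} [NeZero m] (s : Fin m → Lt k) (g : Fin m → FG k) (h : Lt k → FG k)
    (d : Fin m × Bool) : lab (gg s g h) d = (h (src s d))⁻¹ * lab g d * h (tgt s d) := by
  obtain ⟨i, b⟩ := d
  cases b
  · simp only [lab, src, tgt, gg, Bool.false_eq_true, if_false]
    group
  · simp only [lab, src, tgt, gg, if_true]

theorem port_src {m : ℕ} [NeZero m] (s : Fin m → Lt k) (d : Fin m × Bool) :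
    Port s (src s d) ∧ Port s (tgt s d) := by
  obtain ⟨i, b⟩ := d
  cases b
  · simp only [src, tgt, Bool.false_eq_true, if_false]
    exact ⟨⟨i + 1, Or.inl rfl⟩, ⟨i, Or.inr rfl⟩⟩
  · simp only [src, tgt, if_true]
    exact ⟨⟨i, Or.inr rfl⟩, ⟨i + 1, Or.inl rfl⟩⟩

/-- A gate with forbidden letter `b` can be reached in `n` empty steps. -/
def enc1Rch (C : Lt k → Lt k → Prop) {m : ℕ} [NeZero m] (s : Fin m → Lt k)
    (g : Fin m → FG k) (b : Lt k) : ℕ → Lt k → Prop
  | 0, p => ∃ d : Fin m × Bool, C p (src s d) ∧ lab g d ≠ 1 ∧ (lab g d).toWord.head? ≠ some b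
  | n + 1, p => ∃ d : Fin m × Bool, C p (src s d) ∧ lab g d = 1 ∧ enc1Rch C s g b n (tgt s d)

theorem enc1_trans {C : Lt k → Lt k → Prop} (hC : Equivalence C) {m : ℕ} [NeZero m]
    {s : Fin m → Lt k} {g : Fin m → FG k} {b : Lt k} {n : ℕ} {p q : Lt k} (hpq : C p q)
    (h : enc1Rch C s g b n q) : enc1Rch C s g b n p := by
  cases n with
  | zero =>
    obtain ⟨d, h1, h2, h3⟩ := h
    exact ⟨d, hC.trans hpq h1, h2, h3⟩
  | succ n =>
    obtain ⟨d, h1, h2, h3⟩ := h
    exact ⟨d, hC.trans hpq h1, h2, h3⟩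

theorem enc1_exists {C : Lt k → Lt k → Prop} (hC : Equivalence C) {m : ℕ} [NeZero m]
    {s : Fin m → Lt k} {g : Fin m → FG k} (hG : Gates C s g) {p : Lt k} (hp : Port s p)
    (b : Lt k) : ∃ n, enc1Rch C s g b n p := by
  obtain ⟨q, c, hpq, hlv, hcb⟩ := hG p hp b
  clear hp
  induction hpq using Relation.ReflTransGen.head_induction_on with
  | refl =>
    refine ⟨0, ?_⟩
    obtain ⟨i, h1 | h1⟩ := hlv
    · refine ⟨(i, true), ?_, ?_, ?_⟩
      · rw [h1.1]
        exact hC.refl _
      · intro h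
        simp only [lab, if_true] at h
        rw [h] at h1
        simp at h1
      · simp only [lab, if_true]
        rw [h1.2]
        intro h
        exact hcb (Option.some.inj h)
    · refine ⟨(i, false), ?_, ?_, ?_⟩
      · rw [h1.1]
        exact hC.refl _
      · intro h
        simp only [lab, Bool.false_eq_true, if_false] at h
        rw [h] at h1
        simp at h1
      · simp only [lab, Bool.false_eq_true, if_false]
        rw [h1.2]
        intro h
        exact hcb (Option.some.inj h)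
  | head hst _ ih =>
    obtain ⟨n, hn⟩ := ih
    rcases hst with h | ⟨i, hi, h | h⟩
    · exact ⟨n, enc1_trans hC h hn⟩
    · refine ⟨n + 1, (i, true), ?_, ?_, ?_⟩
      · rw [h.1]
        exact hC.refl _
      · simp only [lab, if_true]
        exact hi
      · simp only [tgt, if_true]
        rw [← h.2]
        exact hn
    · refine ⟨n + 1, (i, false), ?_, ?_, ?_⟩
      · rw [h.2]
        exact hC.refl _
      · simp only [lab, Bool.false_eq_true, if_false, hi, inv_one]
      · simp only [tgt, Bool.false_eq_true, if_false]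
        rw [← h.1]
        exact hn

theorem gate_walk {C : Lt k → Lt k → Prop} (hC : Equivalence C) {m : ℕ} [NeZero m]
    {s : Fin m → Lt k} {g : Fin m → FG k} (hG : Gates C s g) :
    ∃ (dist : Lt k → Lt k → ℕ) (δ : Lt k → Lt k → Fin m × Bool), ∀ p, Port s p → ∀ b : Lt k,
      C p (src s (δ p b)) ∧
        ((lab g (δ p b) ≠ 1 ∧ (lab g (δ p b)).toWord.head? ≠ some b) ∨
          (lab g (δ p b) = 1 ∧ dist (tgt s (δ p b)) b < dist p b)) := by
  classical
  have key : ∀ p b : Lt k, ∃ d : Fin m × Bool, Port s p → C p (src s d) ∧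
      ((lab g d ≠ 1 ∧ (lab g d).toWord.head? ≠ some b) ∨
        (lab g d = 1 ∧ sInf {n | enc1Rch C s g b n (tgt s d)} < sInf {n | enc1Rch C s g b n p})) := by
    intro p b
    by_cases hp : Port s p
    · have hne : {n | enc1Rch C s g b n p}.Nonempty := enc1_exists hC hG hp b
      have hmem := Nat.sInf_mem hne
      rcases hn : sInf {n | enc1Rch C s g b n p} with _ | n
      · rw [hn] at hmem
        obtain ⟨d, h1, h2, h3⟩ := hmem
        exact ⟨d, fun _ => ⟨h1, Or.inl ⟨h2, h3⟩⟩⟩
      · rw [hn] at hmem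
        obtain ⟨d, h1, h2, h3⟩ := hmem
        refine ⟨d, fun _ => ⟨h1, Or.inr ⟨h2, ?_⟩⟩⟩
        have : sInf {n | enc1Rch C s g b n (tgt s d)} ≤ n := Nat.sInf_le h3
        omega
    · exact ⟨(0, true), fun h => absurd h hp⟩
  choose δ hδ using key
  exact ⟨fun p b => sInf {n | enc1Rch C s g b n p}, δ, fun p hp b => hδ p b hp⟩

end Pool.Agent.GRO
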