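import Pool.Agent.GRO.ENC1

/-!
# ENC2: the walk determines the gauge
Notation: `κ p = (h p)⁻¹`, `(p_n, b_n) = wst n`, `d_n = δ p_n b_n`, `g' = gg s g h`,
`P_n = wpr g' ... n = ∏_{j<n} lab g' d_j`, `Γ_n = ∏_{j<n} lab g d_j`, `W_n = κ p * Γ_n`.
* All `p_n` are ports. `κ (src s d_n) = κ p_n` (`C p_n (src s d_n)`), so by `lab_gg`
  `κ p_n * lab g d_n = lab g' d_n * κ p_{n+1}` and `W_n = P_n * κ p_n`.
* Invariants: `(κ p).toWord <+: W_n.toWord` and if `c` is the last letter of `W_n.toWord` then
  `b_n = bar c`. Step: if `lab g d_n = 1` nothing changes. Otherwise the first letter of `lab g d_n`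
  is not `b_n`, so `W_{n+1}.toWord = W_n.toWord ++ (lab g d_n).toWord`.
* `W_n.norm` is nondecreasing and tends to infinity: in an empty step `dist p_{n+1} b < dist p_n b` with the
  same `b`, so nonempty steps occur infinitely often.
* As soon as `W_n.norm ≥ (κ p).norm + N`: `P_n = W_n * (κ p_n)⁻¹`, and `(κ p_n)⁻¹` has norm `≤ N`, so it
  cancels at most the last `N` letters of `W_n`; so `(κ p).toWord <+: P_n.toWord`.
-/

set_option autoImplicit false

open Filter

namespace Pool.Agent.GRO

variable {k : ℕ}

/-- The states of the walk. -/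
def wst {m : ℕ} [NeZero m] (s : Fin m → Lt k) (δ : Lt k → Lt k → Fin m × Bool)
    (β : Lt k → Lt k → Lt k) (p b : Lt k) : ℕ → Lt k × Lt k
  | 0 => (p, b)
  | n + 1 => (tgt s (δ (wst s δ β p b n).1 (wst s δ β p b n).2),
      β (wst s δ β p b n).1 (wst s δ β p b n).2)

/-- The product of the labels along the walk. -/
def wpr {m : ℕ} [NeZero m] (g' : Fin m → FG k) (s : Fin m → Lt k)
    (δ : Lt k → Lt k → Fin m × Bool) (β : Lt k → Lt k → Lt k) (p b : Lt k) : ℕ → FG k
  | 0 => 1
  | n + 1 => wpr g' s δ β p b n * lab g' (δ (wst s δ β p b n).1 (wst s δ β p b n).2)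

theorem enc2_append {x y : FG k}
    (h : ∀ c, x.toWord.getLast? = some c → y.toWord.head? ≠ some (bar c)) :
    (x * y).toWord = x.toWord ++ y.toWord := by
  rw [FreeGroup.toWord_mul]
  apply FreeGroup.IsReduced.reduce_eq
  refine List.isChain_append.2 ⟨FreeGroup.isReduced_toWord, FreeGroup.isReduced_toWord, ?_⟩
  intro c hc d hd
  intro hcd
  by_contra hne
  apply h c hc
  have : d = bar c := by
    unfold bar
    ext
    · simp [hcd]
    · have : d.2 = !c.2 := by
        cases h1 : c.2 <;> cases h2 : d.2 <;> simp_all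
      simp [this]
  rw [← this]
  exact hd

theorem enc2_letter (x : FG k) (c : Lt k) :
    (x * FreeGroup.mk [c]).toWord = x.toWord ++ [c] ∨
      x.toWord = (x * FreeGroup.mk [c]).toWord ++ [bar c] := by
  have hc : (FreeGroup.mk [c] : FG k).toWord = [c] := by
    rw [FreeGroup.toWord_mk]
    exact FreeGroup.reduce_singleton c
  by_cases h : x.toWord.getLast? = some (bar c)
  · right
    obtain ⟨L, hL⟩ : ∃ L, x.toWord = L ++ [bar c] := by
      have := List.getLast?_eq_some_iff.1 h
      obtain ⟨ys, hys⟩ := this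
      exact ⟨ys, hys⟩
    have hred : FreeGroup.IsReduced L := by
      have h1 : FreeGroup.IsReduced x.toWord := FreeGroup.isReduced_toWord
      rw [hL] at h1
      exact (List.isChain_append.1 h1).1
    have hx : x * FreeGroup.mk [c] = FreeGroup.mk L := by
      have h1 : x = FreeGroup.mk L * FreeGroup.mk [bar c] := by
        rw [FreeGroup.mul_mk, ← hL, FreeGroup.mk_toWord]
      have h2 : (FreeGroup.mk [bar c] : FG k) = (FreeGroup.mk [c])⁻¹ := by
        rw [FreeGroup.inv_mk]
        rfl
      rw [h1, h2, inv_mul_cancel_right]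
    rw [hx, FreeGroup.toWord_mk, hred.reduce_eq, hL]
  · left
    rw [enc2_append, hc]
    intro d hd
    rw [hc]
    intro h1
    simp only [List.head?_cons, Option.some.injEq] at h1
    apply h
    rw [hd, h1]
    unfold bar
    simp

theorem enc2_cancel_aux (u : List (Lt k)) : ∀ (w : List (Lt k)) (x : FG k), u <+: x.toWord →
    u.length + w.length ≤ x.toWord.length → u <+: (x * FreeGroup.mk w).toWord := by
  intro w
  induction w with
  | nil =>
    intro x hx _
    have : (FreeGroup.mk [] : FG k) = 1 := rfl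
    rw [this, mul_one]
    exact hx
  | cons c w ih =>
    intro x hx hlen
    have h1 : x * FreeGroup.mk (c :: w) = (x * FreeGroup.mk [c]) * FreeGroup.mk w := by
      rw [mul_assoc, FreeGroup.mul_mk]
      rfl
    rw [h1]
    simp only [List.length_cons] at hlen
    rcases enc2_letter x c with h | h
    · apply ih
      · rw [h]
        exact hx.trans (List.prefix_append _ _)
      · rw [h, List.length_append]
        simp only [List.length_cons, List.length_nil]
        omega
    · have h2 : x.toWord.length = (x * FreeGroup.mk [c]).toWord.length + 1 := by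
        conv_lhs => rw [h]
        simp
      apply ih
      · rw [h] at hx
        refine List.prefix_of_prefix_length_le hx (List.prefix_append _ _) ?_
        omega
      · omega

theorem enc2_cancel {u : List (Lt k)} {x y : FG k} (hx : u <+: x.toWord)
    (hlen : u.length + y.norm ≤ x.norm) : u <+: (x * y).toWord := by
  have := enc2_cancel_aux u y.toWord x hx hlen
  rwa [FreeGroup.mk_toWord] at this

theorem walk_prefix {C : Lt k → Lt k → Prop} {m : ℕ} [NeZero m]
    {s : Fin m → Lt k} {g : Fin m → FG k} {h : Lt k → FG k} (hh : ∀ p q, C p q → h p = h q)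
    {N : ℕ} (hN : ∀ p, (h p).norm ≤ N) {dist : Lt k → Lt k → ℕ}
    {δ : Lt k → Lt k → Fin m × Bool} {β : Lt k → Lt k → Lt k}
    (hδ : ∀ p, Port s p → ∀ b : Lt k, C p (src s (δ p b)) ∧
      ((lab g (δ p b) ≠ 1 ∧ (lab g (δ p b)).toWord.head? ≠ some b) ∨
        (lab g (δ p b) = 1 ∧ dist (tgt s (δ p b)) b < dist p b)))
    (hβ : ∀ p b, (lab g (δ p b) = 1 → β p b = b) ∧
      ∀ c, (lab g (δ p b)).toWord.getLast? = some c → β p b = bar c)
    {p : Lt k} (hp : Port s p) {b : Lt k}
    (hb : ∀ c, ((h p)⁻¹).toWord.getLast? = some c → b = bar c) :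
    ∀ᶠ n : ℕ in atTop, ((h p)⁻¹).toWord <+: (wpr (gg s g h) s δ β p b n).toWord := by
  -- the states are ports
  have hport : ∀ n, Port s (wst s δ β p b n).1 := by
    intro n
    cases n with
    | zero => exact hp
    | succ n => exact (port_src s _).2
  obtain ⟨W, hW⟩ : ∃ W : ℕ → FG k, ∀ n, W n =
      wpr (gg s g h) s δ β p b n * (h (wst s δ β p b n).1)⁻¹ := ⟨_, fun n => rfl⟩
  have hW0 : W 0 = (h p)⁻¹ := by
    rw [hW]
    simp [wpr, wst]
  have hWs : ∀ n, W (n + 1) = W n * lab g (δ (wst s δ β p b n).1 (wst s δ β p b n).2) := by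
    intro n
    rw [hW, hW]
    have h1 : wpr (gg s g h) s δ β p b (n + 1) = wpr (gg s g h) s δ β p b n *
        lab (gg s g h) (δ (wst s δ β p b n).1 (wst s δ β p b n).2) := rfl
    have h2 : (wst s δ β p b (n + 1)).1 = tgt s (δ (wst s δ β p b n).1 (wst s δ β p b n).2) := rfl
    rw [h1, h2, lab_gg, hh _ _ (hδ _ (hport n) (wst s δ β p b n).2).1]
    group
  have hbs : ∀ n, (wst s δ β p b (n + 1)).2 =
      β (wst s δ β p b n).1 (wst s δ β p b n).2 := fun n => rfl
  have hps : ∀ n, (wst s δ β p b (n + 1)).1 =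
      tgt s (δ (wst s δ β p b n).1 (wst s δ β p b n).2) := fun n => rfl
  -- invariants
  have hlast : ∀ n, ∀ c, (W n).toWord.getLast? = some c → (wst s δ β p b n).2 = bar c := by
    intro n
    induction n with
    | zero =>
      rw [hW0]
      exact hb
    | succ n ih =>
      intro c hc
      rw [hbs]
      rcases (hδ _ (hport n) (wst s δ β p b n).2).2 with ⟨h1, h2⟩ | ⟨h1, _⟩
      · rw [hWs, enc2_append] at hc
        · apply (hβ _ _).2
          rw [List.getLast?_append_of_ne_nil] at hc
          · exact hc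
          · rw [ne_eq, FreeGroup.toWord_eq_nil_iff]
            exact h1
        · intro c' hc'
          rw [← ih c' hc']
          exact h2
      · rw [(hβ _ _).1 h1]
        rw [hWs, h1, mul_one] at hc
        exact ih c hc
  have hstep : ∀ n, (W (n + 1)).toWord =
      (W n).toWord ++ (lab g (δ (wst s δ β p b n).1 (wst s δ β p b n).2)).toWord := by
    intro n
    rw [hWs]
    rcases (hδ _ (hport n) (wst s δ β p b n).2).2 with ⟨h1, h2⟩ | ⟨h1, _⟩
    · apply enc2_append
      intro c hc
      rw [← hlast n c hc]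
      exact h2
    · rw [h1]
      simp
  have hmono : ∀ n n', n ≤ n' → (W n).toWord <+: (W n').toWord := by
    intro n n' hnn
    induction n', hnn using Nat.le_induction with
    | base => exact List.prefix_refl _
    | succ n' _ ih =>
      rw [hstep]
      exact ih.trans (List.prefix_append _ _)
  have hinc : ∀ D n, dist (wst s δ β p b n).1 (wst s δ β p b n).2 ≤ D →
      ∃ n', n ≤ n' ∧ (W n).norm < (W n').norm := by
    intro D
    induction D with
    | zero =>
      intro n hn
      rcases (hδ _ (hport n) (wst s δ β p b n).2).2 with ⟨h1, h2⟩ | ⟨_, h2⟩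
      · refine ⟨n + 1, by omega, ?_⟩
        unfold FreeGroup.norm
        rw [hstep, List.length_append]
        have : 0 < (lab g (δ (wst s δ β p b n).1 (wst s δ β p b n).2)).toWord.length := by
          rw [List.length_pos_iff, ne_eq, FreeGroup.toWord_eq_nil_iff]
          exact h1
        omega
      · omega
    | succ D ih =>
      intro n hn
      rcases (hδ _ (hport n) (wst s δ β p b n).2).2 with ⟨h1, h2⟩ | ⟨h1, h2⟩
      · refine ⟨n + 1, by omega, ?_⟩
        unfold FreeGroup.norm
        rw [hstep, List.length_append]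
        have : 0 < (lab g (δ (wst s δ β p b n).1 (wst s δ β p b n).2)).toWord.length := by
          rw [List.length_pos_iff, ne_eq, FreeGroup.toWord_eq_nil_iff]
          exact h1
        omega
      · have h3 : dist (wst s δ β p b (n + 1)).1 (wst s δ β p b (n + 1)).2 ≤ D := by
          rw [hps, hbs, (hβ _ _).1 h1]
          omega
        obtain ⟨n', h4, h5⟩ := ih (n + 1) h3
        refine ⟨n', by omega, ?_⟩
        have h6 : (W (n + 1)).norm = (W n).norm := by
          rw [hWs, h1, mul_one]
        omega
  have hinf : ∀ M, ∃ n, M ≤ (W n).norm := by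
    intro M
    induction M with
    | zero => exact ⟨0, Nat.zero_le _⟩
    | succ M ih =>
      obtain ⟨n, hn⟩ := ih
      obtain ⟨n', _, h2⟩ := hinc _ n le_rfl
      exact ⟨n', by omega⟩
  obtain ⟨n0, hn0⟩ := hinf (((h p)⁻¹).toWord.length + N)
  filter_upwards [eventually_ge_atTop n0] with n hn
  have h1 : wpr (gg s g h) s δ β p b n = W n * h (wst s δ β p b n).1 := by
    rw [hW]
    group
  rw [h1]
  apply enc2_cancel
  · rw [← hW0]
    exact hmono 0 n (Nat.zero_le _)
  · have h2 := (hmono n0 n hn).length_le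
    have h3 := hN (wst s δ β p b n).1
    unfold FreeGroup.norm at hn0 h3 ⊢
    omega

end Pool.Agent.GRO
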