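import Pool.Agent.GRO.ENC2

/-!
# ENC3: number of possible labels before a gauge transformation
To every `g` in the set (with a choice of `h`) attach the code `(δ, β, b0, len)`:
`δ : Lt k → Lt k → Fin m × Bool` from `gate_walk`, `β : Lt k → Lt k → Lt k` as in `walk_prefix`
(`β p b = b` if `lab g (δ p b) = 1`, otherwise `bar` of the last letter), `b0 : Lt k → Lt k` with
`b0 p = bar` of the last letter of `(h p)⁻¹`, `len : Lt k → Fin (N + 1)`, `len p = (h p).norm`.
The code determines `g`: if `g, h` and `g1, h1` have the same code (and the same `g'`), then for every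
port `p`, for large `n` both `((h p)⁻¹).toWord` and `((h1 p)⁻¹).toWord` are beginnings of the same word
of the same length, so `h p = h1 p`; and `g i = h (bar (s i)) * g' i * (h (s (i+1)))⁻¹`.
Number of codes: `(2 m)^((2k)^2) * (2k)^((2k)^2) * (2k)^(2k) * (N+1)^(2k)`.
-/

set_option autoImplicit false

namespace Pool.Agent.GRO

variable {k : ℕ}

/-- The codes. -/
abbrev Enc3T (k m N : ℕ) : Type :=
  (Lt k → Lt k → Fin m × Bool) × (Lt k → Lt k → Lt k) × (Lt k → Lt k) × (Lt k → Fin (N + 1))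

/-- `t` is a code of `g`. -/
def Enc3R {C : Lt k → Lt k → Prop} {m : ℕ} [NeZero m] (s : Fin m → Lt k)
    (g' : Fin m → FG k) (N : ℕ) (_ : Equivalence C) (g : Fin m → FG k) (t : Enc3T k m N) : Prop :=
  ∃ h : Lt k → FG k, (∀ p q, C p q → h p = h q) ∧ (∀ p, (h p).norm ≤ N) ∧ gg s g h = g' ∧
    (∃ dist : Lt k → Lt k → ℕ, ∀ p, Port s p → ∀ b : Lt k, C p (src s (t.1 p b)) ∧
      ((lab g (t.1 p b) ≠ 1 ∧ (lab g (t.1 p b)).toWord.head? ≠ some b) ∨
        (lab g (t.1 p b) = 1 ∧ dist (tgt s (t.1 p b)) b < dist p b))) ∧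
    (∀ p b, (lab g (t.1 p b) = 1 → t.2.1 p b = b) ∧
      ∀ c, (lab g (t.1 p b)).toWord.getLast? = some c → t.2.1 p b = bar c) ∧
    (∀ p, ∀ c, ((h p)⁻¹).toWord.getLast? = some c → t.2.2.1 p = bar c) ∧
    (∀ p, (t.2.2.2 p : ℕ) = (h p).norm)

theorem enc3_exists {C : Lt k → Lt k → Prop} (hC : Equivalence C) {m : ℕ} [NeZero m]
    (s : Fin m → Lt k) (g' : Fin m → FG k) (N : ℕ) {g : Fin m → FG k} {h : Lt k → FG k}
    (hh : ∀ p q, C p q → h p = h q) (hN : ∀ p, (h p).norm ≤ N) (hG : Gates C s g)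
    (hg : gg s g h = g') : ∃ t, Enc3R s g' N hC g t := by
  classical
  obtain ⟨dist, δ, hδ⟩ := gate_walk hC hG
  have hβ : ∀ p b : Lt k, ∃ x : Lt k, (lab g (δ p b) = 1 → x = b) ∧
      ∀ c, (lab g (δ p b)).toWord.getLast? = some c → x = bar c := by
    intro p b
    by_cases h1 : lab g (δ p b) = 1
    · refine ⟨b, fun _ => rfl, fun c hc => ?_⟩
      rw [h1] at hc
      simp at hc
    · rcases hl : (lab g (δ p b)).toWord.getLast? with _ | c
      · refine ⟨b, fun _ => rfl, fun c hc => ?_⟩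
        simp at hc
      · refine ⟨bar c, fun h2 => absurd h2 h1, fun c' hc => ?_⟩
        rw [Option.some.inj hc]
  have hb : ∀ p : Lt k, ∃ x : Lt k, ∀ c, ((h p)⁻¹).toWord.getLast? = some c → x = bar c := by
    intro p
    rcases hl : ((h p)⁻¹).toWord.getLast? with _ | c
    · refine ⟨p, fun c hc => ?_⟩
      simp at hc
    · refine ⟨bar c, fun c' hc => ?_⟩
      rw [Option.some.inj hc]
  choose β hβ using hβ
  choose b0 hb0 using hb
  exact ⟨(δ, β, b0, fun p => ⟨(h p).norm, Nat.lt_succ_of_le (hN p)⟩), h, hh, hN, hg, ⟨dist, hδ⟩,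
    hβ, hb0, fun p => rfl⟩

theorem enc3_unique {C : Lt k → Lt k → Prop} (hC : Equivalence C) {m : ℕ} [NeZero m]
    (s : Fin m → Lt k) (g' : Fin m → FG k) (N : ℕ) {g g1 : Fin m → FG k} {t : Enc3T k m N}
    (h0 : Enc3R s g' N hC g t) (h1 : Enc3R s g' N hC g1 t) : g = g1 := by
  obtain ⟨h, hh, hN, hg, ⟨dist, hδ⟩, hβ, hb, hl⟩ := h0
  obtain ⟨h', hh', hN', hg', ⟨dist', hδ'⟩, hβ', hb', hl'⟩ := h1
  have key : ∀ p, Port s p → h p = h' p := by
    intro p hp
    have e1 := walk_prefix hh hN hδ hβ hp (hb p)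
    have e2 := walk_prefix hh' hN' hδ' hβ' hp (hb' p)
    rw [hg] at e1
    rw [hg'] at e2
    obtain ⟨n, h1, h2⟩ := (e1.and e2).exists
    have hlen : ((h p)⁻¹).toWord.length = ((h' p)⁻¹).toWord.length := by
      have h3 : ((h p)⁻¹).norm = ((h' p)⁻¹).norm := by
        rw [FreeGroup.norm_inv_eq, FreeGroup.norm_inv_eq, ← hl, ← hl']
      exact h3
    have h4 : ((h p)⁻¹).toWord = ((h' p)⁻¹).toWord :=
      (List.prefix_of_prefix_length_le h1 h2 hlen.le).eq_of_length hlen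
    exact inv_injective (FreeGroup.toWord_injective h4)
  funext i
  have h1 : (h (bar (s i)))⁻¹ * g i * h (s (i + 1)) =
      (h' (bar (s i)))⁻¹ * g1 i * h' (s (i + 1)) := by
    have e1 := congrFun hg i
    have e2 := congrFun hg' i
    unfold gg at e1 e2
    rw [e1, e2]
  rw [key _ ⟨i, Or.inr rfl⟩, key _ ⟨i + 1, Or.inl rfl⟩] at h1
  exact mul_left_cancel (mul_right_cancel h1)

theorem enc_count {C : Lt k → Lt k → Prop} (hC : Equivalence C) {m : ℕ} [NeZero m]
    (s : Fin m → Lt k) (g' : Fin m → FG k) (N : ℕ) :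
    {g : Fin m → FG k | ∃ h : Lt k → FG k, (∀ p q, C p q → h p = h q) ∧
      (∀ p, (h p).norm ≤ N) ∧ Gates C s g ∧ gg s g h = g'}.Finite ∧
    {g : Fin m → FG k | ∃ h : Lt k → FG k, (∀ p q, C p q → h p = h q) ∧
      (∀ p, (h p).norm ≤ N) ∧ Gates C s g ∧ gg s g h = g'}.ncard ≤
      (2 * m) ^ (4 * k ^ 2) * (2 * k) ^ (4 * k ^ 2) * (2 * k) ^ (2 * k) * (N + 1) ^ (2 * k) := by
  classical
  set S := {g : Fin m → FG k | ∃ h : Lt k → FG k, (∀ p q, C p q → h p = h q) ∧
      (∀ p, (h p).norm ≤ N) ∧ Gates C s g ∧ gg s g h = g'} with hS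
  have hex : ∀ x : S, ∃ t, Enc3R s g' N hC x.1 t := by
    rintro ⟨g, h, hh, hN, hG, hg⟩
    exact enc3_exists hC s g' N hh hN hG hg
  choose f hf using hex
  have hinj : Function.Injective f := by
    intro x y hxy
    have h1 := hf x
    have h2 := hf y
    rw [← hxy] at h2
    exact Subtype.ext (enc3_unique hC s g' N h1 h2)
  have hfin : Finite S := Finite.of_injective f hinj
  refine ⟨hfin, ?_⟩
  rw [← Nat.card_coe_set_eq]
  refine (Nat.card_le_card_of_injective f hinj).trans (le_of_eq ?_)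
  rw [Nat.card_eq_fintype_card]
  simp only [Fintype.card_prod, Fintype.card_pi, Fintype.card_fin, Fintype.card_bool,
    Finset.prod_const, Finset.card_univ]
  have e1 : m * 2 = 2 * m := by ring
  have e2 : k * 2 = 2 * k := by ring
  rw [e1, e2, ← pow_mul, ← pow_mul]
  have e3 : 2 * k * (2 * k) = 4 * k ^ 2 := by ring
  rw [e3]
  ring

end Pool.Agent.GRO
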