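import Pool.Agent.GRO.EX2

/-!
# EX: tame sets which split the ends of a factor and separate few lines
`c0` = maximum over the letters `a` of `(SepE (Ea a) w).ncard`. For `l ∈ Orb w`, `φ w = mk l`, `x ∈ Y`,
`z = φ⁻¹ (FreeGroup.of x) ≠ 1`: `exists_letter` gives `a`, `c`. `E = {g | c * φ⁻¹ g ∈ Ea a}`:
almost invariant (`ai_move`, `ai_first`), tame (`ai_tame`), `SepE E (mk l)` finite (`ai_sep`) with at
most `c0` elements (`sep_move`). The powers `(of x)^n`, `n` large, are in `FY Y` and in `E`; the powers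
`(of x)^(-n)` are not in `E`; they are pairwise different.
-/

set_option autoImplicit false

namespace Pool.Agent.GRO

variable {k : ℕ}

private theorem ex_pow_inj (x : Fin k) (b : Bool) :
    Function.Injective fun n : ℕ => (if b then (FreeGroup.of x : FG k) else (FreeGroup.of x)⁻¹) ^ n := by
  intro n n' h
  have h1 := congrArg (FreeGroup.lift (fun _ : Fin k => Multiplicative.ofAdd (1 : ℤ))) h
  cases b
  · simp only [Bool.false_eq_true, if_false, map_pow, map_inv, FreeGroup.lift_apply_of] at h1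
    have h2 := congrArg Multiplicative.toAdd h1
    simpa using h2
  · simp only [if_true, map_pow, FreeGroup.lift_apply_of] at h1
    have h2 := congrArg Multiplicative.toAdd h1
    simpa using h2

private theorem ex_inf (P : FG k → Prop) (x : Fin k) (b : Bool) (N : ℕ)
    (h : ∀ n, N ≤ n → P ((if b then (FreeGroup.of x : FG k) else (FreeGroup.of x)⁻¹) ^ n)) :
    {V | P V}.Infinite := by
  refine Set.infinite_of_injective_forall_mem
    (f := fun n : ℕ => (if b then (FreeGroup.of x : FG k) else (FreeGroup.of x)⁻¹) ^ (n + N)) ?_ ?_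
  · intro n n' hn
    have := ex_pow_inj x b hn
    omega
  · intro n
    exact h _ (Nat.le_add_left _ _)

theorem ex (w : FG k) :
    ∃ c0 : ℕ, ∀ l ∈ Orb w, ∀ Y : Finset (Fin k), Y.Nonempty →
      ∃ (E : Set (FG k)) (ρ : ℕ), HasE Y (FreeGroup.mk l) c0 E ρ := by
  refine ⟨Finset.univ.sup fun a : Lt k => (SepE (Ea a) w).ncard, ?_⟩
  rintro l ⟨hCR, φ, hφ⟩ Y ⟨x, hx⟩
  have hz : φ.symm (FreeGroup.of x) ≠ 1 := by
    intro h
    have h1 : (FreeGroup.of x : FG k) = 1 := by
      have := congrArg φ h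
      simpa using this
    exact FreeGroup.of_ne_one x h1
  obtain ⟨a, c, h1, h2⟩ := exists_letter hz
  have hAI : AI {g : FG k | c * φ.symm g ∈ Ea a} := ai_move (ai_first a) φ c
  obtain ⟨ρ, hρ⟩ := ai_tame hAI
  have hxF : (FreeGroup.of x : FG k) ∈ FY Y := Subgroup.subset_closure ⟨x, by simpa using hx, rfl⟩
  refine ⟨{g | c * φ.symm g ∈ Ea a}, ρ, hρ, ?_, ?_, ai_sep hAI _, ?_⟩
  · obtain ⟨N, hN⟩ := Filter.eventually_atTop.1 h1
    refine ex_inf (fun V => V ∈ FY Y ∧ V ∈ {g | c * φ.symm g ∈ Ea a}) x true N ?_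
    intro n hn
    refine ⟨Subgroup.pow_mem _ (by simpa using hxF) _, ?_⟩
    have := hN n hn
    simpa using this
  · obtain ⟨N, hN⟩ := Filter.eventually_atTop.1 h2
    refine ex_inf (fun V => V ∈ FY Y ∧ V ∉ {g | c * φ.symm g ∈ Ea a}) x false N ?_
    intro n hn
    refine ⟨Subgroup.pow_mem _ (by simpa using hxF) _, ?_⟩
    have := hN n hn
    simpa using this
  · rw [← hφ, sep_move]
    exact Finset.le_sup (f := fun a : Lt k => (SepE (Ea a) w).ncard) (Finset.mem_univ a)

end Pool.Agent.GRO
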