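import Pool.Agent.GRO.RAY

/-!
# EX1: almost invariant sets
* `ai_tame`: for every letter `a` the set of `g` with `g ∈ E` not equivalent to `g * lt a ∈ E` is
  finite; take `ρ` larger than all norms of its elements (all `a`); then go from `g` to `v` letter by
  letter through prefixes (all of norm `≥ ρ`).
* `ai_first`: multiplication by `b` does not change the first letter if `b.norm < g.norm`.
* `ai_sep`: if the coset of `h` is separated by `E` then there is an integer `n` such that exactly
  one of `h u^n`, `h u^(n+1)` is in `E` (otherwise membership of `h u^n` does not depend on `n`); so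
  the coset contains an element of the finite set `{g | ¬ (g ∈ E ↔ g * u ∈ E)}`.
-/

set_option autoImplicit false

open Filter

namespace Pool.Agent.GRO

variable {k : ℕ}

/-- Almost invariant sets. -/
def AI (E : Set (FG k)) : Prop := ∀ b : FG k, {g : FG k | ¬ (g ∈ E ↔ g * b ∈ E)}.Finite

/-- The elements whose reduced word begins with `a`. -/
def Ea (a : Lt k) : Set (FG k) := {g | g.toWord.head? = some a}

private theorem ex1_ball (n : ℕ) : {g : FG k | g.norm ≤ n}.Finite := by
  have h := (List.finite_length_le (Lt k) n).preimage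
    (f := fun g : FG k => g.toWord) (FreeGroup.toWord_injective.injOn)
  exact h.subset fun g hg => hg

private theorem ex1_step (g : FG k) (c : Lt k) :
    (∃ w, g.toWord = w ++ [bar c] ∧ (g * lt c).toWord = w) ∨
      (g * lt c).toWord = g.toWord ++ [c] := by
  have hred : FreeGroup.IsReduced g.toWord := FreeGroup.isReduced_toWord
  have hlt : (lt c : FG k).toWord = [c] := by
    unfold lt
    rw [FreeGroup.toWord_mk, FreeGroup.reduce_singleton]
  rcases List.eq_nil_or_concat g.toWord with h | ⟨w, d, h⟩
  · right
    rw [FreeGroup.toWord_mul, hlt, h, List.nil_append, FreeGroup.reduce_singleton]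
  · rw [List.concat_eq_append] at h
    by_cases hd : d = bar c
    · left
      subst hd
      refine ⟨w, h, ?_⟩
      have h1 : g * lt c = FreeGroup.mk w := by
        have h2 : g = FreeGroup.mk (w ++ [bar c]) := by rw [← h, FreeGroup.mk_toWord]
        rw [h2, ← FreeGroup.mul_mk]
        have h3 : (FreeGroup.mk [bar c] : FG k) = (lt c)⁻¹ := lt_bar c
        rw [h3, inv_mul_cancel_right]
      rw [h1, FreeGroup.toWord_mk]
      apply FreeGroup.IsReduced.reduce_eq
      rw [h] at hred
      exact List.IsChain.left_of_append hred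
    · right
      rw [FreeGroup.toWord_mul, hlt]
      apply FreeGroup.IsReduced.reduce_eq
      rw [h] at hred ⊢
      refine FreeGroup.IsReduced.append_overlap hred ?_ (by simp)
      rw [List.singleton_append]
      rw [FreeGroup.isReduced_cons_cons]
      refine ⟨?_, FreeGroup.IsReduced.singleton⟩
      intro h1
      by_contra h2
      apply hd
      unfold bar
      apply Prod.ext
      · exact h1
      · simp only
        cases hd2 : d.2 <;> cases hc2 : c.2 <;> simp_all

private theorem ex1_head (g : FG k) (c : Lt k) (h : 2 ≤ g.norm) :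
    (g * lt c).toWord.head? = g.toWord.head? ∧ g.norm ≤ (g * lt c).norm + 1 := by
  unfold FreeGroup.norm at h ⊢
  rcases ex1_step g c with ⟨w, h1, h2⟩ | h1
  · rw [h1, h2]
    rw [h1] at h
    have hw : w ≠ [] := by
      rintro rfl
      simp at h
    refine ⟨?_, by simp⟩
    rw [List.head?_append_of_ne_nil _ hw]
  · rw [h1]
    have hw : g.toWord ≠ [] := by
      intro h0
      rw [h0] at h
      simp at h
    refine ⟨?_, by rw [List.length_append]; omega⟩
    rw [List.head?_append_of_ne_nil _ hw]

private theorem ex1_mul (L : List (Lt k)) : ∀ g : FG k, L.length < g.norm →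
    (g * FreeGroup.mk L).toWord.head? = g.toWord.head? := by
  induction L with
  | nil =>
    intro g _
    rw [← FreeGroup.one_eq_mk, mul_one]
  | cons c L ih =>
    intro g hg
    rw [List.length_cons] at hg
    obtain ⟨h1, h2⟩ := ex1_head g c (by omega)
    have h3 : (FreeGroup.mk (c :: L) : FG k) = lt c * FreeGroup.mk L := by
      unfold lt
      rw [FreeGroup.mul_mk]
      rfl
    rw [h3, ← mul_assoc, ih (g * lt c) (by omega), h1]

theorem ai_first (a : Lt k) : AI (Ea a) := by
  intro b
  refine (ex1_ball b.norm).subset ?_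
  intro g hg
  simp only [Set.mem_setOf_eq] at hg ⊢
  by_contra hcon
  apply hg
  have h1 := ex1_mul b.toWord g (by
    have : b.toWord.length = b.norm := rfl
    omega)
  rw [FreeGroup.mk_toWord] at h1
  unfold Ea
  simp only [Set.mem_setOf_eq]
  rw [h1]

theorem ai_tame {E : Set (FG k)} (h : AI E) : ∃ ρ, TameE E ρ := by
  have hfin : (⋃ c : Lt k, {g : FG k | ¬ (g ∈ E ↔ g * lt c ∈ E)}).Finite :=
    Set.finite_iUnion fun c => h (lt c)
  obtain ⟨M, hM⟩ := (hfin.image (fun g : FG k => g.norm)).bddAbove
  have hstep : ∀ (g : FG k) (c : Lt k), M + 1 ≤ g.norm → (g ∈ E ↔ g * lt c ∈ E) := by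
    intro g c hg
    by_contra hcon
    have h1 : g.norm ≤ M := hM ⟨g, Set.mem_iUnion.2 ⟨c, hcon⟩, rfl⟩
    omega
  have hind : ∀ (t : List (Lt k)) (g : FG k), M + 1 ≤ g.norm →
      FreeGroup.IsReduced (g.toWord ++ t) → (FreeGroup.mk (g.toWord ++ t) ∈ E ↔ g ∈ E) := by
    intro t
    induction t with
    | nil =>
      intro g _ _
      rw [List.append_nil, FreeGroup.mk_toWord]
    | cons c t ih =>
      intro g hg hred
      have h1 : (g * lt c).toWord = g.toWord ++ [c] := by
        have hlt : (lt c : FG k).toWord = [c] := by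
          unfold lt
          rw [FreeGroup.toWord_mk, FreeGroup.reduce_singleton]
        rw [FreeGroup.toWord_mul, hlt]
        apply FreeGroup.IsReduced.reduce_eq
        have h9 : g.toWord ++ c :: t = (g.toWord ++ [c]) ++ t := by simp
        have h8 : FreeGroup.IsReduced ((g.toWord ++ [c]) ++ t) := by
          rw [← h9]
          exact hred
        exact List.IsChain.left_of_append h8
      have h2 : M + 1 ≤ (g * lt c).norm := by
        unfold FreeGroup.norm at hg ⊢
        rw [h1, List.length_append]
        omega
      have h3 := ih (g * lt c) h2 (by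
        rw [h1, List.append_assoc, List.singleton_append]
        exact hred)
      rw [h1, List.append_assoc, List.singleton_append] at h3
      rw [h3, ← hstep g c hg]
  refine ⟨M + 1, ?_⟩
  rintro g v hg ⟨t, ht⟩
  have h1 := hind t g hg (by rw [ht]; exact FreeGroup.isReduced_toWord)
  rw [ht, FreeGroup.mk_toWord] at h1
  exact h1

theorem ai_sep {E : Set (FG k)} (h : AI E) (u : FG k) : (SepE E u).Finite := by
  refine ((h u).image (fun g : FG k => (g : FG k ⧸ Subgroup.zpowers u))).subset ?_
  rintro q ⟨g, rfl, hg⟩
  have hex : ∃ n : ℤ, ¬ (g * u ^ n ∈ E ↔ g * u ^ (n + 1) ∈ E) := by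
    by_contra hcon
    push Not at hcon
    have hconst : ∀ n : ℤ, (g * u ^ n ∈ E ↔ g ∈ E) := by
      intro n
      induction n using Int.induction_on with
      | zero => simp
      | succ n ih => exact (hcon n).symm.trans ih
      | pred n ih =>
        have h1 := hcon (-(n : ℤ) - 1)
        have h2 : -(n : ℤ) - 1 + 1 = -n := by ring
        rw [h2] at h1
        exact h1.trans ih
    apply hg
    have h1 : (∀ᶠ n : ℕ in atTop, g * u ^ n ∈ E) ↔ g ∈ E := by
      have h2 : ∀ n : ℕ, (g * u ^ n ∈ E ↔ g ∈ E) := by
        intro n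
        have := hconst n
        rwa [zpow_natCast] at this
      simp only [h2]
      exact eventually_const
    have h3 : (∀ᶠ n : ℕ in atTop, g * (u⁻¹) ^ n ∈ E) ↔ g ∈ E := by
      have h2 : ∀ n : ℕ, (g * (u⁻¹) ^ n ∈ E ↔ g ∈ E) := by
        intro n
        have := hconst (-n)
        rwa [zpow_neg, zpow_natCast, ← inv_pow] at this
      simp only [h2]
      exact eventually_const
    rw [h1, h3]
  obtain ⟨n, hn⟩ := hex
  refine ⟨g * u ^ n, ?_, ?_⟩
  · simp only [Set.mem_setOf_eq]
    rw [mul_assoc, ← zpow_add_one]
    exact hn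
  · simp only
    rw [QuotientGroup.eq]
    refine ⟨-n, ?_⟩
    simp only [zpow_neg, mul_inv_rev]
    group

end Pool.Agent.GRO
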