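import Pool.Agent.GRO.EX1
import Pool.Agent.GRO.CONJ

/-!
# EX2: transport of almost invariant sets, choice of a letter
* `ai_move`: `g ∈ E' ↔ c * φ⁻¹ g ∈ E`; `g * b ∈ E' ↔ (c * φ⁻¹ g) * φ⁻¹ b ∈ E`; the map
  `g ↦ c * φ⁻¹ g` is a bijection.
* `sep_move`: `h * (φ w)^n ∈ E' ↔ (c * φ⁻¹ h) * w^n ∈ E`. The map `h ↦ c * φ⁻¹ h` induces a bijection of
  the cosets of `⟨φ w⟩` with the cosets of `⟨w⟩` which maps `SepE E' (φ w)` onto `SepE E w`.
* `exists_letter`: `z = c * r * c⁻¹`, `r = mk l`, `l` cyclically reduced (`exists_CR`), `a` = first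
  letter of `l`. `c⁻¹ * z^n = r^n * c⁻¹`: the word of `r^n` is `n` copies of `l` (length `n * |l|`), and
  `c⁻¹` cancels at most `c.norm` letters, so for large `n` it begins with `a`. `c⁻¹ * z^(-n)` begins
  with the inverse of the last letter of `l`, which is not `a` (cyclically reduced).
-/

set_option autoImplicit false

open Filter

namespace Pool.Agent.GRO

variable {k : ℕ}

theorem ai_move {E : Set (FG k)} (h : AI E) (φ : MulAut (FG k)) (c : FG k) :
    AI {g | c * φ.symm g ∈ E} := by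
  intro b
  have h1 := h (φ.symm b)
  have h2 : Set.InjOn (fun g : FG k => c * φ.symm g)
      ((fun g : FG k => c * φ.symm g) ⁻¹' {g : FG k | ¬ (g ∈ E ↔ g * φ.symm b ∈ E)}) := by
    intro x _ y _ hxy
    exact φ.symm.injective (mul_left_cancel hxy)
  refine (h1.preimage h2).subset ?_
  intro g hg
  change ¬ (c * φ.symm g ∈ E ↔ c * φ.symm (g * b) ∈ E) at hg
  change ¬ (c * φ.symm g ∈ E ↔ c * φ.symm g * φ.symm b ∈ E)
  rwa [map_mul, ← mul_assoc] at hg

private theorem EX2_zp (φ : MulAut (FG k)) (w g : FG k) :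
    g ∈ Subgroup.zpowers (φ w) ↔ φ.symm g ∈ Subgroup.zpowers w := by
  rw [Subgroup.mem_zpowers_iff, Subgroup.mem_zpowers_iff]
  constructor
  · rintro ⟨n, hn⟩
    refine ⟨n, ?_⟩
    rw [← hn, map_zpow, MulEquiv.symm_apply_apply]
  · rintro ⟨n, hn⟩
    refine ⟨n, ?_⟩
    rw [← map_zpow, hn, MulEquiv.apply_symm_apply]

theorem sep_move (E : Set (FG k)) (φ : MulAut (FG k)) (c w : FG k) :
    (SepE {g | c * φ.symm g ∈ E} (φ w)).ncard = (SepE E w).ncard := by
  have hwd : ∀ a b : FG k, (QuotientGroup.leftRel (Subgroup.zpowers (φ w))) a b →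
      ((c * φ.symm a : FG k) : FG k ⧸ Subgroup.zpowers w) =
        ((c * φ.symm b : FG k) : FG k ⧸ Subgroup.zpowers w) := by
    intro a b hab
    rw [QuotientGroup.leftRel_apply] at hab
    rw [QuotientGroup.eq, mul_inv_rev, mul_assoc, inv_mul_cancel_left, ← map_inv, ← map_mul]
    exact (EX2_zp φ w _).1 hab
  let ψ : FG k ⧸ Subgroup.zpowers (φ w) → FG k ⧸ Subgroup.zpowers w :=
    Quotient.lift (fun g => ((c * φ.symm g : FG k) : FG k ⧸ Subgroup.zpowers w)) hwd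
  have hψ : ∀ g : FG k, ψ (g : FG k ⧸ Subgroup.zpowers (φ w)) =
      ((c * φ.symm g : FG k) : FG k ⧸ Subgroup.zpowers w) := fun g => rfl
  have hinj : Function.Injective ψ := by
    intro x y hxy
    induction x using QuotientGroup.induction_on with
    | H x =>
      induction y using QuotientGroup.induction_on with
      | H y =>
        rw [hψ, hψ, QuotientGroup.eq, mul_inv_rev, mul_assoc, inv_mul_cancel_left, ← map_inv,
          ← map_mul] at hxy
        rw [QuotientGroup.eq]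
        exact (EX2_zp φ w _).2 hxy
  have himg : ψ '' (SepE {g | c * φ.symm g ∈ E} (φ w)) = SepE E w := by
    have hkey : ∀ g : FG k,
        (¬ ((∀ᶠ n : ℕ in atTop, g * (φ w) ^ n ∈ {g | c * φ.symm g ∈ E}) ↔
          (∀ᶠ n : ℕ in atTop, g * ((φ w)⁻¹) ^ n ∈ {g | c * φ.symm g ∈ E}))) ↔
        (¬ ((∀ᶠ n : ℕ in atTop, (c * φ.symm g) * w ^ n ∈ E) ↔
          (∀ᶠ n : ℕ in atTop, (c * φ.symm g) * (w⁻¹) ^ n ∈ E))) := by
      intro g
      have e1 : ∀ n : ℕ, (g * (φ w) ^ n ∈ {g | c * φ.symm g ∈ E}) ↔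
          ((c * φ.symm g) * w ^ n ∈ E) := by
        intro n
        change c * φ.symm (g * (φ w) ^ n) ∈ E ↔ _
        rw [map_mul, map_pow, MulEquiv.symm_apply_apply, ← mul_assoc]
      have e2 : ∀ n : ℕ, (g * ((φ w)⁻¹) ^ n ∈ {g | c * φ.symm g ∈ E}) ↔
          ((c * φ.symm g) * (w⁻¹) ^ n ∈ E) := by
        intro n
        change c * φ.symm (g * ((φ w)⁻¹) ^ n) ∈ E ↔ _
        rw [map_mul, map_pow, map_inv, MulEquiv.symm_apply_apply, ← mul_assoc]
      simp only [e1, e2]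
    ext q
    constructor
    · rintro ⟨q', ⟨g, hg, hs⟩, rfl⟩
      refine ⟨c * φ.symm g, ?_, (hkey g).1 hs⟩
      rw [← hg, hψ]
    · rintro ⟨g, hg, hs⟩
      have e : c * φ.symm (φ (c⁻¹ * g)) = g := by
        rw [MulEquiv.symm_apply_apply, mul_inv_cancel_left]
      refine ⟨(φ (c⁻¹ * g) : FG k), ⟨φ (c⁻¹ * g), rfl, ?_⟩, ?_⟩
      · rw [hkey, e]
        exact hs
      · rw [hψ, e, hg]
  rw [← himg, Set.ncard_image_of_injective _ hinj]

private theorem EX2_pow {l : List (Lt k)} (hl : CR l) (n : ℕ) :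
    ((FreeGroup.mk l : FG k) ^ n).toWord = (List.replicate n l).flatten := by
  rw [FreeGroup.pow_mk, FreeGroup.toWord_mk]
  exact (hl.1.flatten_replicate n).isReduced.reduce_eq

theorem exists_letter {z : FG k} (hz : z ≠ 1) :
    ∃ (a : Lt k) (c : FG k), (∀ᶠ n : ℕ in atTop, c * z ^ n ∈ Ea a) ∧
      (∀ᶠ n : ℕ in atTop, c * (z⁻¹) ^ n ∉ Ea a) := by
  obtain ⟨l, hl, hconj⟩ := exists_CR hz
  obtain ⟨e, he⟩ := isConj_iff.1 hconj
  obtain ⟨a, l', hl'⟩ : ∃ a l', l = a :: l' := List.exists_cons_of_ne_nil hl.2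
  have hinj : Function.Injective fun n : ℕ => (FreeGroup.mk l : FG k) ^ n := by
    intro n m hnm
    have h1 : ((FreeGroup.mk l : FG k) ^ n).toWord.length =
        ((FreeGroup.mk l : FG k) ^ m).toWord.length := by
      have : (FreeGroup.mk l : FG k) ^ n = (FreeGroup.mk l : FG k) ^ m := hnm
      rw [this]
    rw [EX2_pow hl, EX2_pow hl, List.length_flatten, List.length_flatten, List.map_replicate,
      List.map_replicate, List.sum_replicate, List.sum_replicate, smul_eq_mul, smul_eq_mul] at h1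
    exact Nat.eq_of_mul_eq_mul_right (List.length_pos_iff.2 hl.2) h1
  have hinj' : Function.Injective fun n : ℕ => ((FreeGroup.mk l : FG k) ^ n)⁻¹ := by
    intro n m hnm
    exact hinj (inv_injective hnm)
  have hF := ai_first (k := k) a e⁻¹
  have t1 : ∀ᶠ n : ℕ in atTop, (FreeGroup.mk l : FG k) ^ n ∉
      {g : FG k | ¬ (g ∈ Ea a ↔ g * e⁻¹ ∈ Ea a)} := by
    rw [← Nat.cofinite_eq_atTop]
    exact hinj.tendsto_cofinite.eventually hF.compl_mem_cofinite
  have t2 : ∀ᶠ n : ℕ in atTop, ((FreeGroup.mk l : FG k) ^ n)⁻¹ ∉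
      {g : FG k | ¬ (g ∈ Ea a ↔ g * e⁻¹ ∈ Ea a)} := by
    rw [← Nat.cofinite_eq_atTop]
    exact hinj'.tendsto_cofinite.eventually hF.compl_mem_cofinite
  refine ⟨a, e⁻¹, ?_, ?_⟩
  · filter_upwards [t1, eventually_ge_atTop 1] with n hn hn1
    have h1 : e⁻¹ * z ^ n = (FreeGroup.mk l : FG k) ^ n * e⁻¹ := by
      rw [← he, conj_pow, ← mul_assoc, ← mul_assoc, inv_mul_cancel, one_mul]
    rw [h1]
    have h2 : (FreeGroup.mk l : FG k) ^ n ∈ Ea a := by
      change ((FreeGroup.mk l : FG k) ^ n).toWord.head? = some a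
      rw [EX2_pow hl, List.head?_flatten_replicate (by omega), hl']
      rfl
    have h3 : ¬ ¬ ((FreeGroup.mk l : FG k) ^ n ∈ Ea a ↔
      (FreeGroup.mk l : FG k) ^ n * e⁻¹ ∈ Ea a) := hn
    exact (not_not.1 h3).1 h2
  · filter_upwards [t2, eventually_ge_atTop 1] with n hn hn1
    have h1 : e⁻¹ * (z⁻¹) ^ n = ((FreeGroup.mk l : FG k) ^ n)⁻¹ * e⁻¹ := by
      rw [← he, inv_pow, conj_pow]
      group
    rw [h1]
    have h2 : ((FreeGroup.mk l : FG k) ^ n)⁻¹ ∉ Ea a := by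
      intro h
      have h' : (((FreeGroup.mk l : FG k) ^ n)⁻¹).toWord.head? = some a := h
      rw [FreeGroup.toWord_inv, EX2_pow hl, FreeGroup.invRev, List.head?_reverse,
        List.getLast?_map, List.getLast?_flatten_replicate (by omega)] at h'
      rw [Option.map_eq_some_iff] at h'
      obtain ⟨b, hb, hb2⟩ := h'
      have h4 := hl.1.2 b hb a (by rw [hl']; rfl)
      have h5 : b.1 = a.1 := by rw [← hb2]
      have h6 : b.2 = a.2 := h4 h5
      have h7 : (!b.2) = a.2 := by rw [← hb2]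
      rw [h6] at h7
      cases h8 : a.2 <;> simp [h8] at h7
    have h3 : ¬ ¬ (((FreeGroup.mk l : FG k) ^ n)⁻¹ ∈ Ea a ↔
      ((FreeGroup.mk l : FG k) ^ n)⁻¹ * e⁻¹ ∈ Ea a) := hn
    exact fun h => h2 ((not_not.1 h3).2 h)

end Pool.Agent.GRO
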