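import Pool.Agent.GRO.CONJ

/-!
# FBC: fibres of unions and chains
* `fb_or`: `ncard_union_le`, finiteness by `len_finite`.
* `fb_chain`: induction on `n`. `n = 0`: `l = v`, `δ = 0`, at most one element. `n + 1`: let
  `l → l' → ... → v`, `l'.length = v.length + δ'`, `δ' ≤ δ` (the lengths along a chain do not
  increase). For every `δ' ≤ δ ≤ N` there are at most `((N+1) B)^n exp (s0 δ')` words `l'` and for each
  of them at most `B exp (s0 (δ - δ'))` words `l`. Sum: `(N+1) * B * ((N+1) B)^n * exp (s0 δ)`.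
-/

set_option autoImplicit false

namespace Pool.Agent.GRO

variable {k : ℕ}

theorem fb_or {O : Set (List (Lt k))} {N : ℕ} {s0 : ℝ}
    {R1 R2 : List (Lt k) → List (Lt k) → Prop} {B1 B2 : ℝ} (h1 : FB O N s0 R1 B1)
    (h2 : FB O N s0 R2 B2) : FB O N s0 (fun l v => R1 l v ∨ R2 l v) (B1 + B2) := by
  intro v hv δ
  have e : {l | l ∈ O ∧ l.length ≤ N ∧ l.length = v.length + δ ∧ (R1 l v ∨ R2 l v)} =
      {l | l ∈ O ∧ l.length ≤ N ∧ l.length = v.length + δ ∧ R1 l v} ∪
      {l | l ∈ O ∧ l.length ≤ N ∧ l.length = v.length + δ ∧ R2 l v} := by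
    ext l
    simp only [Set.mem_ofPred_eq, Set.mem_union]
    tauto
  have hle := Set.ncard_union_le
    {l | l ∈ O ∧ l.length ≤ N ∧ l.length = v.length + δ ∧ R1 l v}
    {l | l ∈ O ∧ l.length ≤ N ∧ l.length = v.length + δ ∧ R2 l v}
  have a1 := h1 v hv δ
  have a2 := h2 v hv δ
  rw [e, add_mul]
  refine le_trans (b := ((({l | l ∈ O ∧ l.length ≤ N ∧ l.length = v.length + δ ∧ R1 l v}.ncard +
    {l | l ∈ O ∧ l.length ≤ N ∧ l.length = v.length + δ ∧ R2 l v}.ncard : ℕ)) : ℝ)) ?_ ?_
  · exact_mod_cast hle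
  · push_cast
    exact add_le_add a1 a2

theorem Ch_length {O : Set (List (Lt k))} {R : List (Lt k) → List (Lt k) → Prop} {n : ℕ}
    {l v : List (Lt k)} (h : Ch O R n l v) : v.length ≤ l.length := by
  induction n generalizing l with
  | zero =>
    have : l = v := h
    rw [this]
  | succ n ih =>
    obtain ⟨l', _, h2, _, h4⟩ := h
    exact (ih h4).trans h2

theorem fb_chain {O : Set (List (Lt k))} {N : ℕ} {s0 : ℝ}
    {R : List (Lt k) → List (Lt k) → Prop} {B : ℝ} (hs : 0 ≤ s0) (hB : 1 ≤ B)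
    (h : FB O N s0 R B) (n : ℕ) : FB O N s0 (Ch O R n) ((((N : ℝ) + 1) * B) ^ n) := by
  classical
  induction n with
  | zero =>
    intro v hv δ
    have hsub : {l | l ∈ O ∧ l.length ≤ N ∧ l.length = v.length + δ ∧ Ch O R 0 l v} ⊆ {v} := by
      rintro l ⟨_, _, _, h4⟩
      exact h4
    have h1 : {l | l ∈ O ∧ l.length ≤ N ∧ l.length = v.length + δ ∧ Ch O R 0 l v}.ncard ≤ 1 := by
      refine (Set.ncard_le_ncard hsub (Set.finite_singleton v)).trans ?_
      rw [Set.ncard_singleton]
    have h2 : (1 : ℝ) ≤ Real.exp (s0 * δ) :=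
      Real.one_le_exp (mul_nonneg hs (Nat.cast_nonneg δ))
    have h3 : (({l | l ∈ O ∧ l.length ≤ N ∧ l.length = v.length + δ ∧ Ch O R 0 l v}.ncard : ℕ) : ℝ)
        ≤ 1 := by exact_mod_cast h1
    rw [pow_zero, one_mul]
    exact h3.trans h2
  | succ n ih =>
    intro v hv δ
    have hU : {l : List (Lt k) | l ∈ O ∧ l.length ≤ N}.Finite := len_finite O N
    obtain ⟨U, hUe⟩ : ∃ U : Finset (List (Lt k)), ∀ l, l ∈ U ↔ (l ∈ O ∧ l.length ≤ N) :=
      ⟨hU.toFinset, fun l => by simp⟩
    -- counting sets as finsets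
    have key : ∀ P : List (Lt k) → Prop,
        {l | l ∈ O ∧ l.length ≤ N ∧ P l}.ncard = (U.filter P).card := by
      intro P
      rw [← Set.ncard_coe_finset]
      congr 1
      ext l
      simp only [Set.mem_ofPred_eq, Finset.coe_filter, hUe]
      tauto
    by_cases hδ : δ ≤ N
    swap
    · have he : {l | l ∈ O ∧ l.length ≤ N ∧ l.length = v.length + δ ∧ Ch O R (n + 1) l v} = ∅ := by
        ext l
        simp only [Set.mem_ofPred_eq, Set.mem_empty_iff_false, iff_false]
        rintro ⟨_, a, b, _⟩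
        omega
      rw [he, Set.ncard_empty]
      have : (0 : ℝ) ≤ B := by linarith
      have hN : (0 : ℝ) ≤ (N : ℝ) := Nat.cast_nonneg N
      simp only [Nat.cast_zero]
      positivity
    have hB0 : (0 : ℝ) ≤ B := by linarith
    have hN : (0 : ℝ) ≤ (N : ℝ) := Nat.cast_nonneg N
    set A : ℕ → Finset (List (Lt k)) := fun d =>
      U.filter fun l' => l'.length = v.length + d ∧ Ch O R n l' v with hA
    set F : List (Lt k) → ℕ → Finset (List (Lt k)) := fun l' d =>
      U.filter fun l => l.length = l'.length + d ∧ R l l' with hF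
    have hsub : (U.filter fun l => l.length = v.length + δ ∧ Ch O R (n + 1) l v) ⊆
        (Finset.range (δ + 1)).biUnion fun d => (A d).biUnion fun l' => F l' (δ - d) := by
      intro l hl
      rw [Finset.mem_filter] at hl
      obtain ⟨hlU, hlen, l', hl'O, hl'len, hR, hCh⟩ := hl
      have h1 := Ch_length hCh
      have h2 := (hUe l).1 hlU
      rw [Finset.mem_biUnion]
      refine ⟨l'.length - v.length, ?_, ?_⟩
      · rw [Finset.mem_range]
        omega
      · rw [Finset.mem_biUnion]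
        refine ⟨l', ?_, ?_⟩
        · simp only [hA, Finset.mem_filter]
          refine ⟨(hUe l').2 ⟨hl'O, by omega⟩, by omega, hCh⟩
        · simp only [hF, Finset.mem_filter]
          refine ⟨hlU, by omega, hR⟩
    have hAc : ∀ d, ((A d).card : ℝ) ≤ ((((N : ℝ) + 1) * B) ^ n) * Real.exp (s0 * d) := by
      intro d
      have := ih v hv d
      rw [key] at this
      convert this using 3
      ext x
      simp only [hA, Finset.mem_filter]
    have hFc : ∀ l' ∈ U, ∀ d, ((F l' d).card : ℝ) ≤ B * Real.exp (s0 * d) := by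
      intro l' hl' d
      have := h l' ((hUe l').1 hl').1 d
      rw [key] at this
      convert this using 3
      ext x
      simp only [hF, Finset.mem_filter]
    have c1 : ((U.filter fun l => l.length = v.length + δ ∧ Ch O R (n + 1) l v).card : ℝ) ≤
        ∑ d ∈ Finset.range (δ + 1), ∑ l' ∈ A d, ((F l' (δ - d)).card : ℝ) := by
      have : (U.filter fun l => l.length = v.length + δ ∧ Ch O R (n + 1) l v).card ≤
        ∑ d ∈ Finset.range (δ + 1), ∑ l' ∈ A d, (F l' (δ - d)).card := by
        refine (Finset.card_le_card hsub).trans (Finset.card_biUnion_le.trans ?_)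
        exact Finset.sum_le_sum fun d _ => Finset.card_biUnion_le
      exact_mod_cast this
    have c0 : (({l | l ∈ O ∧ l.length ≤ N ∧ l.length = v.length + δ ∧
        Ch O R (n + 1) l v}.ncard : ℕ) : ℝ) =
        ((U.filter fun l => l.length = v.length + δ ∧ Ch O R (n + 1) l v).card : ℝ) := by
      rw [key]
      congr!
    rw [c0]
    refine c1.trans ?_
    have c2 : ∀ d ∈ Finset.range (δ + 1), ∑ l' ∈ A d, ((F l' (δ - d)).card : ℝ) ≤
        ((((N : ℝ) + 1) * B) ^ n) * B * Real.exp (s0 * δ) := by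
      intro d hd
      have hd' : d ≤ δ := by
        rw [Finset.mem_range] at hd
        omega
      calc ∑ l' ∈ A d, ((F l' (δ - d)).card : ℝ)
          ≤ ∑ l' ∈ A d, B * Real.exp (s0 * ((δ - d : ℕ) : ℝ)) := by
            refine Finset.sum_le_sum fun l' hl' => hFc l' ?_ _
            exact (Finset.mem_filter.1 hl').1
        _ = ((A d).card : ℝ) * (B * Real.exp (s0 * ((δ - d : ℕ) : ℝ))) := by
            rw [Finset.sum_const, nsmul_eq_mul]
        _ ≤ (((((N : ℝ) + 1) * B) ^ n) * Real.exp (s0 * d)) *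
              (B * Real.exp (s0 * ((δ - d : ℕ) : ℝ))) := by
            refine mul_le_mul_of_nonneg_right (hAc d) (by positivity)
        _ = ((((N : ℝ) + 1) * B) ^ n) * B *
              (Real.exp (s0 * d) * Real.exp (s0 * ((δ - d : ℕ) : ℝ))) := by ring
        _ = ((((N : ℝ) + 1) * B) ^ n) * B * Real.exp (s0 * δ) := by
            rw [← Real.exp_add, ← mul_add, Nat.cast_sub hd']
            congr 3
            ring
    refine (Finset.sum_le_sum c2).trans ?_
    rw [Finset.sum_const, Finset.card_range, nsmul_eq_mul, pow_succ]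
    have c3 : ((δ + 1 : ℕ) : ℝ) ≤ (N : ℝ) + 1 := by
      have : (δ : ℝ) ≤ (N : ℝ) := by exact_mod_cast hδ
      push_cast
      linarith
    calc ((δ + 1 : ℕ) : ℝ) * (((((N : ℝ) + 1) * B) ^ n) * B * Real.exp (s0 * δ))
        ≤ ((N : ℝ) + 1) * (((((N : ℝ) + 1) * B) ^ n) * B * Real.exp (s0 * δ)) :=
          mul_le_mul_of_nonneg_right c3 (by positivity)
      _ = (((N : ℝ) + 1) * B) ^ n * (((N : ℝ) + 1) * B) * Real.exp (s0 * δ) := by ring

end Pool.Agent.GRO
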