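import Pool.Agent.GRO.REL1

/-!
# REL2: existence and uniqueness of the relative decomposition
* `exists_rel`: rotate `l` so that it starts with a letter outside `Y`; then split off blocks: a
  list `a :: w` with `a.1 ∉ Y` is `a :: (takeWhile in Y) ++ rest` with `rest = []` or `rest` starts
  with a letter outside `Y`; strong induction on the length gives a list of blocks
  `(s, g)` with `g` reduced in `Y`-letters; convert to `Fin m → _` by `List.get`. `hr`: if `g i = 1`
  then `s i`, `s (i+1)` are cyclically adjacent in a cyclically reduced word.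
* `wrd_unique`: the first block of the list is determined (`takeWhile`), induction.
-/

set_option autoImplicit false

namespace Pool.Agent.GRO

variable {k : ℕ}

/-- the word of a list of blocks -/
def REL2_flat (B : List (Lt k × List (Lt k))) : List (Lt k) :=
  (B.map fun b => b.1 :: b.2).flatten

private theorem rel2_wrd {m : ℕ} (s : Fin m → Lt k) (g : Fin m → FG k) :
    wrd s g = REL2_flat (List.ofFn fun i => (s i, (g i).toWord)) := by
  unfold wrd REL2_flat
  rw [List.map_ofFn]
  rfl

private theorem rel2_blk (Y : Finset (Fin k)) (w : List (Lt k)) :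
    ∃ (y : List (Lt k)) (B : List (Lt k × List (Lt k))), w = y ++ REL2_flat B ∧
      (∀ c ∈ y, c.1 ∈ Y) ∧ ∀ b ∈ B, b.1.1 ∉ Y ∧ ∀ c ∈ b.2, c.1 ∈ Y := by
  induction w with
  | nil => exact ⟨[], [], rfl, by simp, by simp⟩
  | cons a w ih =>
    obtain ⟨y, B, h1, h2, h3⟩ := ih
    by_cases ha : a.1 ∈ Y
    · refine ⟨a :: y, B, by rw [h1]; rfl, ?_, h3⟩
      intro c hc
      rw [List.mem_cons] at hc
      rcases hc with rfl | hc
      · exact ha
      · exact h2 c hc
    · refine ⟨[], (a, y) :: B, ?_, by simp, ?_⟩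
      · rw [h1]
        simp [REL2_flat]
      · intro b hb
        rw [List.mem_cons] at hb
        rcases hb with rfl | hb
        · exact ⟨ha, h2⟩
        · exact h3 b hb

private theorem rel2_uniq (Y : Finset (Fin k)) (w : List (Lt k)) :
    ∀ (y y' : List (Lt k)) (B B' : List (Lt k × List (Lt k))),
      w = y ++ REL2_flat B → w = y' ++ REL2_flat B' →
      (∀ c ∈ y, c.1 ∈ Y) → (∀ b ∈ B, b.1.1 ∉ Y ∧ ∀ c ∈ b.2, c.1 ∈ Y) →
      (∀ c ∈ y', c.1 ∈ Y) → (∀ b ∈ B', b.1.1 ∉ Y ∧ ∀ c ∈ b.2, c.1 ∈ Y) → y = y' ∧ B = B' := by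
  induction w with
  | nil =>
    intro y y' B B' h h' _ _ _ _
    have key : ∀ (y : List (Lt k)) (B : List (Lt k × List (Lt k))), [] = y ++ REL2_flat B →
        y = [] ∧ B = [] := by
      intro y B h
      obtain ⟨h1, h2⟩ := List.append_eq_nil_iff.1 h.symm
      refine ⟨h1, ?_⟩
      cases B with
      | nil => rfl
      | cons b B => simp [REL2_flat] at h2
    obtain ⟨h1, h2⟩ := key y B h
    obtain ⟨h3, h4⟩ := key y' B' h'
    rw [h1, h2, h3, h4]
    exact ⟨rfl, rfl⟩
  | cons a w ih =>
    intro y y' B B' h h' hy hB hy' hB'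
    have key : ∀ (y : List (Lt k)) (B : List (Lt k × List (Lt k))), a :: w = y ++ REL2_flat B →
        (∀ c ∈ y, c.1 ∈ Y) → (∀ b ∈ B, b.1.1 ∉ Y ∧ ∀ c ∈ b.2, c.1 ∈ Y) →
        (a.1 ∈ Y ∧ ∃ y1, y = a :: y1 ∧ w = y1 ++ REL2_flat B) ∨
        (a.1 ∉ Y ∧ y = [] ∧ ∃ b2 B1, B = (a, b2) :: B1 ∧ w = b2 ++ REL2_flat B1) := by
      intro y B h hy hB
      cases y with
      | cons c y1 =>
        simp only [List.cons_append, List.cons.injEq] at h
        obtain ⟨h1, h2⟩ := h
        left
        subst h1
        exact ⟨hy a (by simp), y1, rfl, h2⟩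
      | nil =>
        cases B with
        | nil => simp [REL2_flat] at h
        | cons b B1 =>
          have h1 : a :: w = b.1 :: (b.2 ++ REL2_flat B1) := by
            rw [h]
            simp [REL2_flat]
          simp only [List.cons.injEq] at h1
          obtain ⟨h2, h3⟩ := h1
          right
          have h4 := (hB b (by simp)).1
          rw [← h2] at h4
          exact ⟨h4, rfl, b.2, B1, by rw [h2], h3⟩
    rcases key y B h hy hB with ⟨k1, y1, k2, k3⟩ | ⟨k1, k2, b2, B1, k3, k4⟩
    · rcases key y' B' h' hy' hB' with ⟨m1, y1', m2, m3⟩ | ⟨m1, m2, b2', B1', m3, m4⟩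
      · obtain ⟨e1, e2⟩ := ih y1 y1' B B' k3 m3
          (fun c hc => hy c (by rw [k2]; exact List.mem_cons_of_mem _ hc)) hB
          (fun c hc => hy' c (by rw [m2]; exact List.mem_cons_of_mem _ hc)) hB'
        rw [k2, m2, e1]
        exact ⟨rfl, e2⟩
      · exact absurd k1 m1
    · rcases key y' B' h' hy' hB' with ⟨m1, y1', m2, m3⟩ | ⟨m1, m2, b2', B1', m3, m4⟩
      · exact absurd m1 k1
      · have f1 := (hB (a, b2) (by rw [k3]; simp)).2
        have f2 := (hB' (a, b2') (by rw [m3]; simp)).2
        obtain ⟨e1, e2⟩ := ih b2 b2' B1 B1' k4 m4 f1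
          (fun b hb => hB b (by rw [k3]; exact List.mem_cons_of_mem _ hb)) f2
          (fun b hb => hB' b (by rw [m3]; exact List.mem_cons_of_mem _ hb))
        rw [k2, m2, k3, m3, e1, e2]
        exact ⟨rfl, rfl⟩

theorem exists_rel (Y : Finset (Fin k)) {l : List (Lt k)} (hl : CR l)
    (h : ∃ a ∈ l, a.1 ∉ Y) :
    ∃ (m : ℕ) (_ : NeZero m) (s : Fin m → Lt k) (g : Fin m → FG k),
      Val Y s g ∧ l ~r wrd s g := by
  obtain ⟨a, ha, haY⟩ := h
  obtain ⟨p, q, rfl⟩ := List.append_of_mem ha
  -- rotate
  have hrot : (p ++ a :: q) ~r (a :: q ++ p) := by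
    refine ⟨p.length, ?_⟩
    exact List.rotate_append_length_eq p (a :: q)
  have hCR := CR_rot hrot hl
  set w := a :: q ++ p with hw
  obtain ⟨y, B, h1, h2, h3⟩ := rel2_blk Y w
  have hy : y = [] := by
    cases y with
    | nil => rfl
    | cons c y1 =>
      exfalso
      have h4 : a :: (q ++ p) = c :: (y1 ++ REL2_flat B) := by
        rw [← List.cons_append, ← List.cons_append]
        exact h1
      simp only [List.cons.injEq] at h4
      have h5 := h2 c (by simp)
      rw [← h4.1] at h5
      exact haY h5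
  rw [hy, List.nil_append] at h1
  have hB0 : B ≠ [] := by
    rintro rfl
    rw [hw] at h1
    simp [REL2_flat] at h1
  have hBl : 0 < B.length := List.length_pos_iff.2 hB0
  haveI hm : NeZero B.length := ⟨hBl.ne'⟩
  -- labels are reduced
  have hred : ∀ b ∈ B, FreeGroup.IsReduced b.2 := by
    intro b hb
    have h4 : FreeGroup.IsReduced (REL2_flat B) := by
      rw [← h1]
      exact hCR.1.1
    obtain ⟨B1, B2, rfl⟩ := List.append_of_mem hb
    have h5 : REL2_flat (B1 ++ b :: B2) = (REL2_flat B1 ++ [b.1]) ++ b.2 ++ REL2_flat B2 := by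
      simp [REL2_flat]
    rw [h5] at h4
    exact List.IsChain.right_of_append (List.IsChain.left_of_append h4)
  have hword : ∀ i : Fin B.length, (FreeGroup.mk (B.get i).2 : FG k).toWord = (B.get i).2 := by
    intro i
    rw [FreeGroup.toWord_mk, (hred _ (List.get_mem B i)).reduce_eq]
  have hwrd : wrd (fun i => (B.get i).1) (fun i => FreeGroup.mk (B.get i).2) = w := by
    rw [rel2_wrd, h1]
    congr 1
    simp only [hword]
    exact List.ofFn_get B
  refine ⟨B.length, hm, fun i => (B.get i).1, fun i => FreeGroup.mk (B.get i).2, ⟨?_, ?_, ?_⟩, ?_⟩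
  · intro i
    exact (h3 _ (List.get_mem B i)).1
  · intro i
    rw [mem_FY, hword]
    exact (h3 _ (List.get_mem B i)).2
  · intro i hgi heq
    have hi2 : (B.get i).2 = [] := by
      rw [← hword i, hgi, FreeGroup.toWord_one]
    -- the chain of blocks
    by_cases hi : i.val + 1 < B.length
    · have h4 : FreeGroup.IsReduced (REL2_flat B) := by
        rw [← h1]
        exact hCR.1.1
      unfold FreeGroup.IsReduced REL2_flat at h4
      rw [List.isChain_flatten (by simp)] at h4
      have h5 := (List.isChain_iff_getElem.1 h4.2) i.val (by simpa using hi)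
      have hi1 : (i + 1 : Fin B.length) = ⟨i.val + 1, hi⟩ := by
        apply Fin.ext
        rw [Fin.val_add, Fin.val_one']
        have h6 : 1 < B.length := by omega
        rw [Nat.mod_eq_of_lt h6, Nat.mod_eq_of_lt hi]
      have heq' : (B.get ⟨i.val + 1, hi⟩).1 = bar (B.get i).1 := by
        rw [← hi1]
        exact heq
      simp only [List.getElem_map] at h5
      have h6 : (B[i.val]'i.isLt).2 = [] := hi2
      have h7 := h5 (B[i.val]'i.isLt).1 (by rw [h6]; simp) (B[i.val + 1]'hi).1 (by simp)
      have h8 : (B[i.val + 1]'hi).1 = bar (B[i.val]'i.isLt).1 := heq'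
      rw [h8] at h7
      simp [bar] at h7
    · -- the last block
      have hil : i.val + 1 = B.length := by have := i.isLt; omega
      have hi1 : (i + 1 : Fin B.length) = ⟨0, hBl⟩ := by
        apply Fin.ext
        rw [Fin.val_add, Fin.val_one']
        simp only [Nat.add_mod_mod]
        rw [hil, Nat.mod_self]
      have heq' : (B.get ⟨0, hBl⟩).1 = bar (B.get i).1 := by
        rw [← hi1]
        exact heq
      have h4 := hCR.1.2
      rw [h1] at h4
      have hlast : (REL2_flat B).getLast? = some (B.get i).1 := by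
        obtain ⟨B', b, rfl⟩ : ∃ B' b, B = B' ++ [b] := ⟨B.dropLast, B.getLast hB0,
          (List.dropLast_append_getLast hB0).symm⟩
        have hiv : i.val = B'.length := by
          have h6 : (B' ++ [b]).length = B'.length + 1 := by simp
          omega
        have hbi : (B' ++ [b]).get i = b := by
          rw [List.get_eq_getElem]
          simp [hiv]
        rw [hbi] at hi2 ⊢
        unfold REL2_flat
        rw [List.map_append, List.flatten_append]
        simp [hi2]
      have hfirst : (REL2_flat B).head? = some (B.get ⟨0, hBl⟩).1 := by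
        cases B with
        | nil => exact absurd rfl hB0
        | cons b B => simp [REL2_flat]
      have h5 := h4 _ (by rw [hlast]; exact rfl) _ (by rw [hfirst]; exact rfl)
      rw [heq'] at h5
      simp [bar] at h5
  · rw [hwrd]
    exact hrot

theorem wrd_unique {Y : Finset (Fin k)} {m m' : ℕ} {s : Fin m → Lt k} {g : Fin m → FG k}
    {s' : Fin m' → Lt k} {g' : Fin m' → FG k} (hs : ∀ i, (s i).1 ∉ Y) (hg : ∀ i, g i ∈ FY Y)
    (hs' : ∀ i, (s' i).1 ∉ Y) (hg' : ∀ i, g' i ∈ FY Y) (he : wrd s g = wrd s' g') :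
    ∃ e : m = m', (∀ i, s i = s' (Fin.cast e i)) ∧ ∀ i, g i = g' (Fin.cast e i) := by
  rw [rel2_wrd, rel2_wrd] at he
  have hB : ∀ {m : ℕ} (s : Fin m → Lt k) (g : Fin m → FG k), (∀ i, (s i).1 ∉ Y) →
      (∀ i, g i ∈ FY Y) → ∀ b ∈ List.ofFn (fun i => (s i, (g i).toWord)),
        b.1.1 ∉ Y ∧ ∀ c ∈ b.2, c.1 ∈ Y := by
    intro m s g hs hg b hb
    rw [List.mem_ofFn] at hb
    obtain ⟨i, rfl⟩ := hb
    exact ⟨hs i, (mem_FY Y _).1 (hg i)⟩
  have h1 := (rel2_uniq Y _ [] [] _ _ rfl (by simpa using he) (by simp) (hB s g hs hg) (by simp)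
    (hB s' g' hs' hg')).2
  have h2 := congrArg List.length h1
  rw [List.length_ofFn, List.length_ofFn] at h2
  subst h2
  have h3 := List.ofFn_injective h1
  refine ⟨rfl, fun i => ?_, fun i => ?_⟩
  · have h4 := congrFun h3 i
    simp only [Prod.mk.injEq] at h4
    exact h4.1
  · have h4 := congrFun h3 i
    simp only [Prod.mk.injEq] at h4
    exact FreeGroup.toWord_injective h4.2

end Pool.Agent.GRO
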