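import Pool.Agent.GRO.ENC3
import Pool.Agent.GRO.REL2
import Pool.Agent.GRO.CONJ

/-!
# FBG: fibres of gauge reductions
Fix `v`. To `l` with `RG N l v` attach `C`, `Y`, a rotation number `r ≤ N` with
`wrd s g' = v.rotate r` (`g' = gg s g h`; `v.length ≤ l.length ≤ N`), a rotation number `r' ≤ N` with
`l = (wrd s g).rotate r'`. For fixed `(C, Y, r)` all `(m, s, g')` which occur are the same
(`wrd_unique`; the labels `g'` are in `FY Y` because `g` and `h` are), and `m ≤ N` (`wrd_length`), so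
there are at most `(2 N)^(4k²) * (2k)^(4k²) * (2k)^(2k) * (N+1)^(2k)` possible `g` (`enc_count`). The
number of relations `C` is `2^(4k²)`, of `Y` is `2^k`. In total at most `(N + 2)^c`; `1 ≤ exp (s0 δ)`.
-/

set_option autoImplicit false

namespace Pool.Agent.GRO

variable {k : ℕ}

private theorem FBG_arith (k N m : ℕ) (hm : m ≤ N) :
    (2 * m) ^ (4 * k ^ 2) * (2 * k) ^ (4 * k ^ 2) * (2 * k) ^ (2 * k) * (N + 1) ^ (2 * k) ≤
      (N + 2) ^ (2 * (4 * k ^ 2) + 2 * k * (4 * k ^ 2) + 2 * k * (2 * k) + 2 * k) := by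
  have h1 : 2 * m ≤ (N + 2) ^ 2 := by nlinarith
  have h2 : 2 * k ≤ (N + 2) ^ (2 * k) :=
    (Nat.lt_two_pow_self (n := 2 * k)).le.trans (Nat.pow_le_pow_left (by omega) _)
  have h3 : N + 1 ≤ N + 2 := by omega
  calc (2 * m) ^ (4 * k ^ 2) * (2 * k) ^ (4 * k ^ 2) * (2 * k) ^ (2 * k) * (N + 1) ^ (2 * k)
      ≤ ((N + 2) ^ 2) ^ (4 * k ^ 2) * ((N + 2) ^ (2 * k)) ^ (4 * k ^ 2) *
        ((N + 2) ^ (2 * k)) ^ (2 * k) * (N + 2) ^ (2 * k) := by gcongr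
    _ = _ := by
      rw [← pow_mul, ← pow_mul, ← pow_mul, ← pow_add, ← pow_add, ← pow_add]

private def FBG_A (N : ℕ) (v : List (Lt k)) (C : Lt k → Lt k → Prop)
    (Y : Finset (Fin k)) (r r' : ℕ) : Set (List (Lt k)) :=
  {l | l.length ≤ N ∧ ∃ (m : ℕ) (_ : NeZero m) (s : Fin m → Lt k)
    (g : Fin m → FG k) (h : Lt k → FG k),
    Equivalence C ∧ Val Y s g ∧ (∀ p, h p ∈ FY Y) ∧
    (∀ p q, C p q → h p = h q) ∧ (∀ p, (h p).norm ≤ N) ∧ Gates C s g ∧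
    v.rotate r = wrd s (gg s g h) ∧ (wrd s g).rotate r' = l}

private theorem FBG_gg {Y : Finset (Fin k)} {m : ℕ} [NeZero m] {s : Fin m → Lt k}
    {g : Fin m → FG k} (hv : Val Y s g) {h : Lt k → FG k} (hh : ∀ p, h p ∈ FY Y) (i : Fin m) :
    gg s g h i ∈ FY Y :=
  (FY Y).mul_mem ((FY Y).mul_mem ((FY Y).inv_mem (hh _)) (hv.hg i)) (hh _)

private theorem FBG_card (N : ℕ) (v : List (Lt k)) (C : Lt k → Lt k → Prop)
    (Y : Finset (Fin k)) (r r' : ℕ) :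
    (FBG_A N v C Y r r').Finite ∧ (FBG_A N v C Y r r').ncard ≤
      (N + 2) ^ (2 * (4 * k ^ 2) + 2 * k * (4 * k ^ 2) + 2 * k * (2 * k) + 2 * k) := by
  rcases Set.eq_empty_or_nonempty (FBG_A N v C Y r r') with h0 | ⟨l0, hl0⟩
  · rw [h0]
    exact ⟨Set.finite_empty, by simp⟩
  · obtain ⟨hlen, m, hm, s, g0, h0, hC, hv, hF, -, -, -, hr, hr'⟩ := hl0
    have hmN : m ≤ N := by
      have h1 := wrd_length s g0
      have h2 : (wrd s g0).length = l0.length := by rw [← hr', List.length_rotate]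
      omega
    have hsub : FBG_A N v C Y r r' ⊆ (fun g : Fin m → FG k => (wrd s g).rotate r') ''
        {g : Fin m → FG k | ∃ h : Lt k → FG k, (∀ p q, C p q → h p = h q) ∧
          (∀ p, (h p).norm ≤ N) ∧ Gates C s g ∧ gg s g h = gg s g0 h0} := by
      rintro l ⟨_, m1, hm1, s1, g1, h1, _, hv1, hF1, hc1, hN1, hG1, hr1, hr1'⟩
      have he : wrd s1 (gg s1 g1 h1) = wrd s (gg s g0 h0) := by rw [← hr1, hr]
      obtain ⟨e, e1, e2⟩ := wrd_unique hv1.hs (FBG_gg hv1 hF1) hv.hs (FBG_gg hv hF) he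
      subst e
      have hs : s1 = s := by
        funext i
        simpa using e1 i
      subst hs
      refine ⟨g1, ⟨h1, hc1, hN1, hG1, ?_⟩, hr1'⟩
      funext i
      simpa using e2 i
    obtain ⟨f1, f2⟩ := enc_count hC s (gg s g0 h0) N
    refine ⟨(f1.image _).subset hsub, ?_⟩
    calc (FBG_A N v C Y r r').ncard ≤ _ := Set.ncard_le_ncard hsub (f1.image _)
      _ ≤ _ := Set.ncard_image_le f1
      _ ≤ _ := f2
      _ ≤ _ := FBG_arith k N m hmN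

theorem fbg (w : FG k) {s0 : ℝ} (hs : 0 ≤ s0) :
    ∃ c : ℕ, ∀ N : ℕ, FB (Orb w) N s0 (RG N) (((N : ℝ) + 2) ^ c) := by
  classical
  refine ⟨2 * k * (2 * k) + k + 2 +
    (2 * (4 * k ^ 2) + 2 * k * (4 * k ^ 2) + 2 * k * (2 * k) + 2 * k), ?_⟩
  intro N v hv δ
  set Q := 2 * (4 * k ^ 2) + 2 * k * (4 * k ^ 2) + 2 * k * (2 * k) + 2 * k with hQ
  set A := {l | l ∈ Orb w ∧ l.length ≤ N ∧ l.length = v.length + δ ∧ RG N l v} with hA
  set ι := (Lt k → Lt k → Prop) × Finset (Fin k) × Fin (N + 1) × Fin (N + 1) with hι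
  have hsub : A ⊆ ⋃ x : ι, FBG_A N v x.1 x.2.1 x.2.2.1 x.2.2.2 := by
    rintro l ⟨_, h2, _, C, Y, m, hm, s, g, h, hC, _, hval, hF, hc, hN, hG, r1, r2, r3⟩
    obtain ⟨r, hr, hr1⟩ := List.isRotated_iff_mod.1 r2
    obtain ⟨r', hr', hr1'⟩ := List.isRotated_iff_mod.1 r1.symm
    have h4 : (wrd s g).length = l.length := r1.perm.length_eq.symm
    rw [Set.mem_iUnion]
    refine ⟨(C, Y, ⟨r, by omega⟩, ⟨r', by omega⟩), h2, m, hm, s, g, h, hC, hval, hF, hc, hN, hG,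
      hr1, hr1'⟩
  have hfin : (⋃ x : ι, FBG_A N v x.1 x.2.1 x.2.2.1 x.2.2.2).Finite :=
    Set.finite_iUnion fun x => (FBG_card N v x.1 x.2.1 x.2.2.1 x.2.2.2).1
  have hP : Fintype.card (Lt k → Lt k → Prop) = 2 ^ (2 * k * (2 * k)) := by
    have hLt : Fintype.card (Lt k) = 2 * k := by
      simp [Lt, Fintype.card_prod, mul_comm]
    rw [Fintype.card_fun, Fintype.card_fun, Fintype.card_prop, hLt, ← pow_mul]
  have hcard : Fintype.card ι = 2 ^ (2 * k * (2 * k)) * (2 ^ k * ((N + 1) * (N + 1))) := by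
    have h5 : Fintype.card ((Lt k → Lt k → Prop) × Finset (Fin k) × Fin (N + 1) × Fin (N + 1)) =
        2 ^ (2 * k * (2 * k)) * (2 ^ k * ((N + 1) * (N + 1))) := by
      rw [Fintype.card_prod, Fintype.card_prod, Fintype.card_prod, hP, Fintype.card_finset,
        Fintype.card_fin, Fintype.card_fin]
    exact h5
  have h1 : A.ncard ≤ (N + 2) ^ (2 * k * (2 * k) + k + 2 + Q) := by
    calc A.ncard ≤ (⋃ x : ι, FBG_A N v x.1 x.2.1 x.2.2.1 x.2.2.2).ncard :=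
          Set.ncard_le_ncard hsub hfin
      _ ≤ ∑ x : ι, (FBG_A N v x.1 x.2.1 x.2.2.1 x.2.2.2).ncard :=
          Set.ncard_iUnion_le_of_fintype _
      _ ≤ ∑ _x : ι, (N + 2) ^ Q :=
          Finset.sum_le_sum fun x _ => (FBG_card N v x.1 x.2.1 x.2.2.1 x.2.2.2).2
      _ = 2 ^ (2 * k * (2 * k)) * (2 ^ k * ((N + 1) * (N + 1))) * (N + 2) ^ Q := by
          rw [Finset.sum_const, Finset.card_univ, hcard, smul_eq_mul]
      _ ≤ (N + 2) ^ (2 * k * (2 * k)) * ((N + 2) ^ k * ((N + 2) * (N + 2))) * (N + 2) ^ Q := by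
          gcongr <;> omega
      _ = (N + 2) ^ (2 * k * (2 * k) + k + 2 + Q) := by
          rw [← pow_two (N + 2), ← pow_add, ← pow_add, ← pow_add, add_assoc (2 * k * (2 * k)) k 2]
  have h2 : ((A.ncard : ℕ) : ℝ) ≤ ((N : ℝ) + 2) ^ (2 * k * (2 * k) + k + 2 + Q) := by
    calc ((A.ncard : ℕ) : ℝ) ≤ (((N + 2) ^ (2 * k * (2 * k) + k + 2 + Q) : ℕ) : ℝ) := by
          exact_mod_cast h1
      _ = _ := by push_cast; ring
  have h3 : (1 : ℝ) ≤ Real.exp (s0 * δ) := by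
    apply Real.one_le_exp
    positivity
  have h4 : (0 : ℝ) ≤ ((N : ℝ) + 2) ^ (2 * k * (2 * k) + k + 2 + Q) := by positivity
  calc ((A.ncard : ℕ) : ℝ) ≤ ((N : ℝ) + 2) ^ (2 * k * (2 * k) + k + 2 + Q) := h2
    _ = ((N : ℝ) + 2) ^ (2 * k * (2 * k) + k + 2 + Q) * 1 := (mul_one _).symm
    _ ≤ _ := mul_le_mul_of_nonneg_left h3 h4

end Pool.Agent.GRO
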