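import Pool.Agent.GRO.CONJ
import Pool.Agent.GRO.CNTF

/-!
# FBR: fibres of runs
Fix `v`, `δ`. For `(Y, K, n)` let `A (Y, K, n)` be the set of `l` with `RR l v` by `(Y, K, h)`,
`h.norm = n`, `|l| = |v| + δ`, `|l| ≤ N`. If it is nonempty, with `l0` in it, then
`n * cap l0 K ≤ δ`, `0 < cap l0 K` and `Hyp` give (for `1 ≤ card Y`)
`(2 r - 1)^n ≤ exp (s0 * cap l0 K)^n ≤ exp (s0 * δ)`; for `r = 0` (natural subtraction)
`(2 r - 1)^n = 0^n ≤ 1`. Each `l ∈ A` is a cyclically reduced representative of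
`(gauH Y (onK K h))⁻¹ (mk v)` (the inverse is `gauH Y (onK K h⁻¹)`, or use `gau_aut`), so
`card A ≤ (2 k + 1) * (2 r - 1)^n * N` (`cntF`, `fib_conj`). Sum over `n ≤ δ ≤ N`, `Y`, `K`:
`2^k * 2^(2k) * (N + 1) * (2 k + 1) * N * exp (s0 * δ) ≤ (N + 2)^c * exp (s0 * δ)`.
-/

set_option autoImplicit false

namespace Pool.Agent.GRO

variable {k : ℕ}

private def fbrA (w : FG k) (N : ℕ) (v : List (Lt k)) (δ : ℕ) (Y : Finset (Fin k))
    (K : Finset (Lt k)) (n : ℕ) : Set (List (Lt k)) :=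
  {l | l ∈ Orb w ∧ l.length ≤ N ∧ l.length = v.length + δ ∧ (∀ p ∈ K, p.1 ∉ Y) ∧
    ∃ h : FG k, h ∈ FY Y ∧ h.norm = n ∧ 0 < cap l K ∧ n * cap l K ≤ δ ∧
      IsConj (FreeGroup.mk v) (gauH Y (onK K h) (FreeGroup.mk l))}

private theorem fbrA_card (w : FG k) (N : ℕ) (v : List (Lt k)) (δ : ℕ) (Y : Finset (Fin k))
    (K : Finset (Lt k)) (n : ℕ) :
    (fbrA w N v δ Y K n).ncard ≤ (2 * k + 1) * (2 * Y.card - 1) ^ n * N := by
  classical
  obtain ⟨hfin, hcard⟩ := cntF Y n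
  have hex : ∀ h : FG k, ∃ g : FG k, h ∈ FY Y → ∀ l : List (Lt k),
      IsConj (FreeGroup.mk v) (gauH Y (onK K h) (FreeGroup.mk l)) → IsConj (FreeGroup.mk l) g := by
    intro h
    by_cases hh : h ∈ FY Y
    · obtain ⟨φ, hφ⟩ := gau_aut Y (onK K h) (fun p => onK_mem K hh p)
      refine ⟨φ.symm (FreeGroup.mk v), fun _ l hl => ?_⟩
      rw [← hφ] at hl
      have h1 := MonoidHom.map_isConj ((φ.symm : FG k ≃* FG k) : FG k →* FG k) hl.symm
      have h2 : ((φ.symm : FG k ≃* FG k) : FG k →* FG k) (φ (FreeGroup.mk l)) =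
          FreeGroup.mk l := MulEquiv.symm_apply_apply φ _
      have h3 : IsConj (((φ.symm : FG k ≃* FG k) : FG k →* FG k) (φ (FreeGroup.mk l)))
          (((φ.symm : FG k ≃* FG k) : FG k →* FG k) (FreeGroup.mk v)) := h1
      rw [h2] at h3
      exact h3
    · exact ⟨1, fun h' => absurd h' hh⟩
  choose gg hgg using hex
  have hsub : fbrA w N v δ Y K n ⊆
      ↑(hfin.toFinset.biUnion fun h => (fib_conj (gg h) N).1.toFinset) := by
    rintro l ⟨hl, hlN, -, -, h, hY, hn, -, -, hc⟩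
    rw [Finset.coe_biUnion]
    simp only [Set.mem_iUnion]
    refine ⟨h, ?_, ?_⟩
    · rw [Finset.mem_coe, Set.Finite.mem_toFinset]
      exact ⟨hY, hn⟩
    · rw [Finset.mem_coe, Set.Finite.mem_toFinset]
      exact ⟨hl.1, hlN, hgg h hY l hc⟩
  calc (fbrA w N v δ Y K n).ncard
      ≤ (↑(hfin.toFinset.biUnion fun h => (fib_conj (gg h) N).1.toFinset) :
          Set (List (Lt k))).ncard := Set.ncard_le_ncard hsub (Finset.finite_toSet _)
    _ = (hfin.toFinset.biUnion fun h => (fib_conj (gg h) N).1.toFinset).card :=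
        Set.ncard_coe_finset _
    _ ≤ hfin.toFinset.card * N := by
        apply Finset.card_biUnion_le_card_mul
        intro h _
        have := (fib_conj (gg h) N).2
        rwa [Set.ncard_eq_toFinset_card _ (fib_conj (gg h) N).1] at this
    _ ≤ (2 * k + 1) * (2 * Y.card - 1) ^ n * N := by
        apply Nat.mul_le_mul_right
        rwa [Set.ncard_eq_toFinset_card _ hfin] at hcard

private theorem fbrA_exp (w : FG k) {s0 : ℝ} (hs : 0 ≤ s0) (H : Hyp w s0) (N : ℕ)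
    (v : List (Lt k)) (δ : ℕ) (Y : Finset (Fin k)) (K : Finset (Lt k)) (n : ℕ) :
    ((fbrA w N v δ Y K n).ncard : ℝ) ≤ (2 * k + 1) * N * Real.exp (s0 * δ) := by
  rcases (fbrA w N v δ Y K n).eq_empty_or_nonempty with he | ⟨l, hl, hlN, hlδ, hK, h, hY, hn, hc,
      hcap, hconj⟩
  · rw [he, Set.ncard_empty, Nat.cast_zero]
    positivity
  · have hpow : (((2 * Y.card - 1 : ℕ) : ℝ)) ^ n ≤ Real.exp (s0 * δ) := by
      rcases Nat.eq_zero_or_pos Y.card with h0 | h0
      · rw [h0]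
        have h1 : ((2 * 0 - 1 : ℕ) : ℝ) ^ n ≤ 1 := by
          have : (2 * 0 - 1 : ℕ) = 0 := rfl
          rw [this, Nat.cast_zero]
          exact pow_le_one₀ le_rfl zero_le_one
        have h2 : (1 : ℝ) ≤ Real.exp (s0 * δ) := by
          apply Real.one_le_exp
          positivity
        exact h1.trans h2
      · have h1 : ((2 * Y.card - 1 : ℕ) : ℝ) = 2 * (Y.card : ℝ) - 1 := by
          rw [Nat.cast_sub (by omega)]
          push_cast
          ring
        rw [h1]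
        have h2 := H l hl Y K hK hc
        have h3 : (0 : ℝ) ≤ 2 * (Y.card : ℝ) - 1 := by
          have : (1 : ℝ) ≤ Y.card := by exact_mod_cast h0
          linarith
        calc (2 * (Y.card : ℝ) - 1) ^ n ≤ (Real.exp (s0 * cap l K)) ^ n :=
              pow_le_pow_left₀ h3 h2 n
          _ = Real.exp (s0 * (n * cap l K)) := by
              rw [← Real.exp_nat_mul]
              congr 1
              ring
          _ ≤ Real.exp (s0 * δ) := by
              apply Real.exp_le_exp.2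
              apply mul_le_mul_of_nonneg_left _ hs
              exact_mod_cast hcap
    have h1 := fbrA_card w N v δ Y K n
    have h2 : ((fbrA w N v δ Y K n).ncard : ℝ) ≤
        (2 * k + 1) * ((2 * Y.card - 1 : ℕ) : ℝ) ^ n * N := by exact_mod_cast h1
    refine h2.trans ?_
    have h3 : (0 : ℝ) ≤ (2 * k + 1) * N := by positivity
    nlinarith

theorem fbr (w : FG k) {s0 : ℝ} (hs : 0 ≤ s0) (H : Hyp w s0) :
    ∃ c : ℕ, ∀ N : ℕ, FB (Orb w) N s0 RR (((N : ℝ) + 2) ^ c) := by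
  classical
  refine ⟨(k + 2 * k + (2 * k + 1)) + 2, fun N v hv δ => ?_⟩
  have hsub : {l | l ∈ Orb w ∧ l.length ≤ N ∧ l.length = v.length + δ ∧ RR l v} ⊆
      ⋃ x : Finset (Fin k) × Finset (Lt k) × Fin (N + 1),
        fbrA w N v δ x.1 x.2.1 (x.2.2 : ℕ) := by
    rintro l ⟨hl, hlN, hlδ, Y, K, h, hK, hY, hc, hlen, hconj⟩
    have h1 : h.norm * cap l K ≤ δ := by omega
    have h2 : h.norm ≤ N := by
      have h3 : h.norm ≤ h.norm * cap l K := Nat.le_mul_of_pos_right _ hc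
      omega
    refine Set.mem_iUnion.2 ⟨(Y, K, ⟨h.norm, by omega⟩), ?_⟩
    exact ⟨hl, hlN, hlδ, hK, h, hY, rfl, hc, h1, hconj⟩
  have hfinA : ∀ Y K n, (fbrA w N v δ Y K n).Finite := fun Y K n =>
    (len_finite (Orb w) N).subset fun l hl => ⟨hl.1, hl.2.1⟩
  have hfin : (⋃ x : Finset (Fin k) × Finset (Lt k) × Fin (N + 1),
      fbrA w N v δ x.1 x.2.1 (x.2.2 : ℕ)).Finite := Set.finite_iUnion fun x => hfinA _ _ _
  have hle : (⋃ x : Finset (Fin k) × Finset (Lt k) × Fin (N + 1),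
      fbrA w N v δ x.1 x.2.1 (x.2.2 : ℕ)).ncard ≤
      ∑ x : Finset (Fin k) × Finset (Lt k) × Fin (N + 1),
        (fbrA w N v δ x.1 x.2.1 (x.2.2 : ℕ)).ncard := by
    have h1 : (⋃ x : Finset (Fin k) × Finset (Lt k) × Fin (N + 1),
        fbrA w N v δ x.1 x.2.1 (x.2.2 : ℕ)) =
        ↑(Finset.univ.biUnion fun x : Finset (Fin k) × Finset (Lt k) × Fin (N + 1) =>
          (hfinA x.1 x.2.1 (x.2.2 : ℕ)).toFinset) := by
      ext l
      simp
    rw [h1, Set.ncard_coe_finset]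
    refine Finset.card_biUnion_le.trans (le_of_eq ?_)
    apply Finset.sum_congr rfl
    intro x _
    rw [Set.ncard_eq_toFinset_card _ (hfinA x.1 x.2.1 (x.2.2 : ℕ))]
  have hcard : Fintype.card (Finset (Fin k) × Finset (Lt k) × Fin (N + 1)) =
      2 ^ k * (2 ^ (2 * k) * (N + 1)) := by
    rw [Fintype.card_prod, Fintype.card_prod, Fintype.card_finset, Fintype.card_finset,
      Fintype.card_fin, Fintype.card_fin]
    have : Fintype.card (Lt k) = 2 * k := by
      rw [Fintype.card_prod, Fintype.card_fin, Fintype.card_bool, mul_comm]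
    rw [this]
  have hk : ((2 * k + 1 : ℕ) : ℝ) ≤ 2 ^ (2 * k + 1) := by
    exact_mod_cast (Nat.lt_two_pow_self (n := 2 * k + 1)).le
  calc (({l | l ∈ Orb w ∧ l.length ≤ N ∧ l.length = v.length + δ ∧ RR l v}.ncard : ℕ) : ℝ)
      ≤ ((∑ x : Finset (Fin k) × Finset (Lt k) × Fin (N + 1),
        (fbrA w N v δ x.1 x.2.1 (x.2.2 : ℕ)).ncard : ℕ) : ℝ) := by
        exact_mod_cast (Set.ncard_le_ncard hsub hfin).trans hle
    _ = ∑ x : Finset (Fin k) × Finset (Lt k) × Fin (N + 1),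
        ((fbrA w N v δ x.1 x.2.1 (x.2.2 : ℕ)).ncard : ℝ) := by push_cast; rfl
    _ ≤ ∑ _x : Finset (Fin k) × Finset (Lt k) × Fin (N + 1),
        ((2 * k + 1) * N * Real.exp (s0 * δ)) :=
        Finset.sum_le_sum fun x _ => fbrA_exp w hs H N v δ _ _ _
    _ = (2 : ℝ) ^ k * (2 ^ (2 * k) * (N + 1)) * ((2 * k + 1) * N * Real.exp (s0 * δ)) := by
        rw [Finset.sum_const, Finset.card_univ, hcard, nsmul_eq_mul]
        push_cast
        ring
    _ = ((2 : ℝ) ^ (k + 2 * k) * (2 * k + 1)) * ((N + 1) * N) * Real.exp (s0 * δ) := by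
        rw [pow_add]
        ring
    _ ≤ ((2 : ℝ) ^ (k + 2 * k) * 2 ^ (2 * k + 1)) * ((N + 2) * (N + 2)) * Real.exp (s0 * δ) := by
        have h1 : (2 * (k : ℝ) + 1) ≤ 2 ^ (2 * k + 1) := by
          have := hk
          push_cast at this
          exact this
        have h2 : ((N : ℝ) + 1) * N ≤ (N + 2) * (N + 2) := by
          have : (0 : ℝ) ≤ N := Nat.cast_nonneg N
          nlinarith
        gcongr
    _ = (2 : ℝ) ^ (k + 2 * k + (2 * k + 1)) * ((N : ℝ) + 2) ^ 2 * Real.exp (s0 * δ) := by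
        rw [pow_add (2 : ℝ) (k + 2 * k) (2 * k + 1)]
        ring
    _ ≤ ((N : ℝ) + 2) ^ (k + 2 * k + (2 * k + 1)) * ((N : ℝ) + 2) ^ 2 * Real.exp (s0 * δ) := by
        have : (0 : ℝ) ≤ N := Nat.cast_nonneg N
        gcongr
        linarith
    _ = ((N : ℝ) + 2) ^ ((k + 2 * k + (2 * k + 1)) + 2) * Real.exp (s0 * δ) := by
        rw [← pow_add]

end Pool.Agent.GRO
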