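import Pool.Agent.GRO.CONJ

/-!
# FBW: fibres of Whitehead moves
For given `(S, a)` the words `l` are cyclically reduced representatives of the class of
`(whH S a)⁻¹ (mk v)` (`wh_aut`): at most `N` by `fib_conj`. There are at most `2^(2k) * 2k` pairs
`(S, a)`; `2^(2k) * (2k) * N ≤ (N + 2)^c` with `c = 4 k + 1`; `1 ≤ exp (s0 * δ)`.
-/

set_option autoImplicit false

namespace Pool.Agent.GRO

variable {k : ℕ}

theorem fbw (w : FG k) {s0 : ℝ} (hs : 0 ≤ s0) :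
    ∃ c : ℕ, ∀ N : ℕ, FB (Orb w) N s0 RW (((N : ℝ) + 2) ^ c) := by
  classical
  refine ⟨4 * k + 1, fun N v hv δ => ?_⟩
  choose φ hφ using fun Sa : Finset (Lt k) × Lt k => wh_aut (k := k) Sa.1 Sa.2
  let T : Finset (Lt k) × Lt k → Set (List (Lt k)) := fun Sa =>
    {l | CR l ∧ l.length ≤ N ∧ IsConj (FreeGroup.mk l) ((φ Sa)⁻¹ (FreeGroup.mk v))}
  have hsub : {l | l ∈ Orb w ∧ l.length ≤ N ∧ l.length = v.length + δ ∧ RW l v} ⊆
      ⋃ Sa ∈ (Finset.univ : Finset (Finset (Lt k) × Lt k)), T Sa := by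
    rintro l ⟨hl, hlN, -, S, a, -, -, -, hc⟩
    simp only [Finset.mem_univ, Set.iUnion_true, Set.mem_iUnion]
    refine ⟨(S, a), hl.1, hlN, ?_⟩
    rw [← hφ (S, a)] at hc
    have h1 := MonoidHom.map_isConj ((φ (S, a))⁻¹ : MulAut (FG k)).toMonoidHom hc.symm
    simpa using h1
  have hfin : ∀ Sa, (T Sa).Finite := fun Sa => (fib_conj _ N).1
  have hcard : ({l | l ∈ Orb w ∧ l.length ≤ N ∧ l.length = v.length + δ ∧ RW l v}.ncard : ℕ) ≤
      2 ^ (2 * k) * (2 * k) * N := by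
    calc _ ≤ (⋃ Sa ∈ (Finset.univ : Finset (Finset (Lt k) × Lt k)), T Sa).ncard := by
          refine Set.ncard_le_ncard hsub ?_
          exact Set.Finite.biUnion (Finset.finite_toSet _) fun Sa _ => hfin Sa
      _ ≤ ∑ Sa : Finset (Lt k) × Lt k, (T Sa).ncard := Finset.set_ncard_biUnion_le _ _
      _ ≤ ∑ _Sa : Finset (Lt k) × Lt k, N := Finset.sum_le_sum fun Sa _ => (fib_conj _ N).2
      _ = 2 ^ (2 * k) * (2 * k) * N := by
          rw [Finset.sum_const, Finset.card_univ, Fintype.card_prod, Fintype.card_finset,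
            Fintype.card_prod, Fintype.card_fin, Fintype.card_bool, smul_eq_mul, mul_comm k 2]
  have hN : (2 : ℝ) ≤ (N : ℝ) + 2 := by
    have : (0 : ℝ) ≤ N := Nat.cast_nonneg _
    linarith
  have h1 : (((2 ^ (2 * k) * (2 * k) * N : ℕ)) : ℝ) ≤ ((N : ℝ) + 2) ^ (4 * k + 1) := by
    have h2 : (2 : ℝ) ^ (2 * k) ≤ ((N : ℝ) + 2) ^ (2 * k) := pow_le_pow_left₀ (by norm_num) hN _
    have h3 : ((2 * k : ℕ) : ℝ) ≤ ((N : ℝ) + 2) ^ (2 * k) := by
      refine le_trans ?_ h2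
      have := Nat.lt_two_pow_self (n := 2 * k)
      exact_mod_cast this.le
    have h4 : (N : ℝ) ≤ (N : ℝ) + 2 := by linarith
    have h5 : (0 : ℝ) ≤ N := Nat.cast_nonneg _
    push_cast at h3 ⊢
    calc (2 : ℝ) ^ (2 * k) * (2 * k) * N ≤
          ((N : ℝ) + 2) ^ (2 * k) * ((N : ℝ) + 2) ^ (2 * k) * ((N : ℝ) + 2) := by
          gcongr
      _ = ((N : ℝ) + 2) ^ (4 * k + 1) := by ring
  have h6 : (1 : ℝ) ≤ Real.exp (s0 * δ) := Real.one_le_exp (by positivity)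
  calc _ ≤ (((2 ^ (2 * k) * (2 * k) * N : ℕ)) : ℝ) := by exact_mod_cast hcard
    _ ≤ ((N : ℝ) + 2) ^ (4 * k + 1) := h1
    _ ≤ _ := le_mul_of_one_le_right (by positivity) h6

end Pool.Agent.GRO
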