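import Pool.Agent.GRO.GDefs
import Pool.Agent.GRO.CONJ

/-!
# GLU: growth and the number of cyclically reduced words
* `ofLength_le`: map a word `l ∈ Orb w` of length `N ≥ 1` to its class; this is onto
  `ofLength (cyclicWords w) N` (a class `c ⊆ orbit w` with a cyclically reduced `g`, `|g| = N`:
  `l = g.toWord`). `le_ofLength`: each class has at most `N` cyclically reduced words (`fib_conj`).
  Elements of `Orb w` give classes contained in the orbit (inner automorphisms).
* `growth_le`: for `s > s0`, eventually `ncard ^ (1/N) ≤ exp s`; `limsup ≤ exp s`, let `s → s0`.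
* `growth_bdd`: at most `(2 k)^N` words of length `N` (see `growth_bounded` in
  `Pool/Agent/Results/MP_1babb5_al/ConjectureFails.lean`).
* `le_growth`: if `growth < g0 = b^(1/c)`, choose `g1 ≥ 1` with `growth < g1 < g0`; eventually
  `ncard (ofLength N) ≤ g1 ^ N`, so the number of words of `Orb w` of length `≤ L + c n` is at most
  `C + (L + c n + 1)^2 * g1^(L + c n)`, which is `< b^n = g0^(c n)` for large `n`.
-/

set_option autoImplicit false

open Filter

namespace Pool.Agent.GRO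

variable {k : ℕ}

private theorem glu_bound (S : Set (ConjClasses (FreeGroup (Fin k)))) (N : ℕ) :
    (ofLength S N).Finite ∧ (ofLength S N).ncard ≤ (k * 2) ^ N := by
  classical
  let f : (Fin N → Fin k × Bool) → ConjClasses (FreeGroup (Fin k)) :=
    fun l => ConjClasses.mk (FreeGroup.mk (List.ofFn l))
  have hsub : ofLength S N ⊆ Set.range f := by
    rintro c ⟨_, g, hg, _, hN⟩
    subst hN
    refine ⟨fun i => g.toWord.get i, ?_⟩
    change ConjClasses.mk (FreeGroup.mk (List.ofFn fun i => g.toWord.get i)) = c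
    rw [List.ofFn_get, FreeGroup.mk_toWord]
    exact ConjClasses.mem_carrier_iff_mk_eq.1 hg
  have hfin : (Set.range f).Finite := Set.finite_range f
  refine ⟨hfin.subset hsub, ?_⟩
  calc (ofLength S N).ncard ≤ (Set.range f).ncard := Set.ncard_le_ncard hsub hfin
    _ ≤ Nat.card (Fin N → Fin k × Bool) := by
        rw [← Set.image_univ, ← Set.ncard_univ]
        exact Set.ncard_image_le
    _ = (k * 2) ^ N := by simp

private theorem glu_fin (w : FG k) (N : ℕ) : {l | l ∈ Orb w ∧ l.length = N}.Finite :=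
  (len_finite (Orb w) N).subset fun _ hl => ⟨hl.1, hl.2.le⟩

private theorem glu_mem {w : FG k} {l : List (Lt k)} (hl : l ∈ Orb w) :
    ConjClasses.mk (FreeGroup.mk l) ∈ ofLength (cyclicWords w) l.length := by
  obtain ⟨hCR, φ, hφ⟩ := hl
  refine ⟨?_, FreeGroup.mk l, ConjClasses.mem_carrier_mk, ?_, ?_⟩
  · rw [← hφ]
    intro g hg
    have h1 : ConjClasses.mk g = ConjClasses.mk (φ w) := ConjClasses.mem_carrier_iff_mk_eq.1 hg
    rw [ConjClasses.mk_eq_mk_iff_isConj] at h1
    obtain ⟨c, hc⟩ := isConj_iff.1 h1.symm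
    exact ⟨MulAut.conj c * φ, by rw [MulAut.mul_apply, MulAut.conj_apply, hc]⟩
  · rw [CR_toWord hCR]
    exact hCR.1
  · rw [CR_toWord hCR]

theorem ofLength_finite (w : FG k) (N : ℕ) : (ofLength (cyclicWords w) N).Finite :=
  (glu_bound _ N).1

theorem ofLength_le (w : FG k) {N : ℕ} (hN : 1 ≤ N) :
    (ofLength (cyclicWords w) N).ncard ≤ {l | l ∈ Orb w ∧ l.length = N}.ncard := by
  have hsub : ofLength (cyclicWords w) N ⊆
      (fun l : List (Lt k) => ConjClasses.mk (FreeGroup.mk l)) ''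
        {l | l ∈ Orb w ∧ l.length = N} := by
    rintro c ⟨hc, g, hg, h1, h2⟩
    refine ⟨g.toWord, ⟨⟨⟨h1, ?_⟩, ?_⟩, h2⟩, ?_⟩
    · intro h
      rw [h] at h2
      simp at h2
      omega
    · obtain ⟨φ, hφ⟩ := hc hg
      exact ⟨φ, by rw [hφ, FreeGroup.mk_toWord]⟩
    · simp only [FreeGroup.mk_toWord]
      exact ConjClasses.mem_carrier_iff_mk_eq.1 hg
  exact (Set.ncard_le_ncard hsub ((glu_fin w N).image _)).trans (Set.ncard_image_le (glu_fin w N))

theorem le_ofLength (w : FG k) (N : ℕ) :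
    {l | l ∈ Orb w ∧ l.length = N}.ncard ≤ N * (ofLength (cyclicWords w) N).ncard := by
  classical
  rw [Set.ncard_eq_toFinset_card _ (glu_fin w N), Set.ncard_eq_toFinset_card _ (ofLength_finite w N)]
  refine Finset.card_le_mul_card_image_of_maps_to
    (f := fun l : List (Lt k) => ConjClasses.mk (FreeGroup.mk l)) ?_ N ?_
  · intro l hl
    rw [Set.Finite.mem_toFinset] at hl ⊢
    have := glu_mem hl.1
    rwa [hl.2] at this
  · intro c hc
    obtain ⟨g, rfl⟩ := ConjClasses.exists_rep c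
    have h := fib_conj g N
    rw [Set.ncard_eq_toFinset_card _ h.1] at h
    refine le_trans (Finset.card_le_card ?_) h.2
    intro l hl
    rw [Finset.mem_filter, Set.Finite.mem_toFinset] at hl
    rw [Set.Finite.mem_toFinset]
    exact ⟨hl.1.1.1, hl.1.2.le, ConjClasses.mk_eq_mk_iff_isConj.1 hl.2⟩

theorem growth_bdd (w : FG k) :
    IsBoundedUnder (· ≤ ·) atTop
      (fun N : ℕ => ((ofLength (cyclicWords w) N).ncard : ℝ) ^ (1 / (N : ℝ))) := by
  refine ⟨(k * 2 : ℕ) + 1, ?_⟩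
  rw [Filter.eventually_map]
  filter_upwards [eventually_ge_atTop 1] with N hN
  have h1 : ((ofLength (cyclicWords w) N).ncard : ℝ) ≤ ((k * 2 : ℕ) : ℝ) ^ N := by
    exact_mod_cast (glu_bound (cyclicWords w) N).2
  calc ((ofLength (cyclicWords w) N).ncard : ℝ) ^ (1 / (N : ℝ))
      ≤ (((k * 2 : ℕ) : ℝ) ^ N) ^ (1 / (N : ℝ)) := by
        apply Real.rpow_le_rpow (by positivity) h1 (by positivity)
    _ = ((k * 2 : ℕ) : ℝ) := by
        rw [← Real.rpow_natCast, ← Real.rpow_mul (by positivity)]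
        rw [mul_one_div_cancel (by positivity), Real.rpow_one]
    _ ≤ (k * 2 : ℕ) + 1 := by linarith

private theorem glu_cobdd (w : FG k) :
    IsCoboundedUnder (· ≤ ·) atTop
      (fun N : ℕ => ((ofLength (cyclicWords w) N).ncard : ℝ) ^ (1 / (N : ℝ))) :=
  Filter.IsBoundedUnder.isCoboundedUnder_le ⟨0, by
    rw [Filter.eventually_map]
    exact Filter.Eventually.of_forall fun N => by positivity⟩

theorem growth_le {w : FG k} {s0 : ℝ}
    (H : ∀ s > s0, ∃ N0 : ℕ, ∀ N ≥ N0,
      (({l | l ∈ Orb w ∧ l.length = N}.ncard : ℕ) : ℝ) ≤ Real.exp (s * N)) :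
    growth (cyclicWords w) ≤ Real.exp s0 := by
  have h1 : ∀ s > s0, growth (cyclicWords w) ≤ Real.exp s := by
    intro s hs
    obtain ⟨N0, hN0⟩ := H s hs
    refine Filter.limsup_le_of_le (glu_cobdd w) ?_
    filter_upwards [eventually_ge_atTop (max N0 1)] with N hN
    have hN1 : 1 ≤ N := le_trans (le_max_right _ _) hN
    have h2 : ((ofLength (cyclicWords w) N).ncard : ℝ) ≤ Real.exp (s * N) :=
      le_trans (by exact_mod_cast ofLength_le w hN1) (hN0 N (le_trans (le_max_left _ _) hN))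
    have hNp : (0 : ℝ) < N := by exact_mod_cast hN1
    calc ((ofLength (cyclicWords w) N).ncard : ℝ) ^ (1 / (N : ℝ))
        ≤ (Real.exp (s * N)) ^ (1 / (N : ℝ)) :=
          Real.rpow_le_rpow (by positivity) h2 (by positivity)
      _ = Real.exp s := by
          rw [← Real.exp_mul]
          congr 1
          field_simp
  have h2 : Tendsto Real.exp (nhdsWithin s0 (Set.Ioi s0)) (nhds (Real.exp s0)) :=
    (Real.continuous_exp.tendsto s0).mono_left nhdsWithin_le_nhds
  refine ge_of_tendsto h2 ?_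
  filter_upwards [self_mem_nhdsWithin] with s hs
  exact h1 s hs

private theorem glu_count (w : FG k) (M : ℕ) :
    {l | l ∈ Orb w ∧ l.length ≤ M}.ncard ≤
      ∑ N ∈ Finset.range (M + 1), N * (ofLength (cyclicWords w) N).ncard := by
  classical
  have h : {l | l ∈ Orb w ∧ l.length ≤ M} ⊆
      ↑((Finset.range (M + 1)).biUnion fun N => (glu_fin w N).toFinset) := by
    intro l hl
    simp only [Finset.coe_biUnion, Set.mem_iUnion, Finset.mem_coe, Finset.mem_range,
      Set.Finite.mem_toFinset]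
    exact ⟨l.length, by have := hl.2; omega, hl.1, rfl⟩
  have h2 := Set.ncard_le_ncard h (Finset.finite_toSet _)
  rw [Set.ncard_coe_finset] at h2
  refine h2.trans (Finset.card_biUnion_le.trans (Finset.sum_le_sum fun N _ => ?_))
  rw [← Set.ncard_eq_toFinset_card _ (glu_fin w N)]
  exact le_ofLength w N

theorem le_growth {w : FG k} {c L b : ℕ} (hc : 0 < c) (hb : 2 ≤ b)
    (H : ∀ n : ℕ, b ^ n ≤ {l | l ∈ Orb w ∧ l.length ≤ L + c * n}.ncard) :
    (b : ℝ) ^ (1 / (c : ℝ)) ≤ growth (cyclicWords w) := by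
  by_contra hcon
  push Not at hcon
  have hb1 : (1 : ℝ) < b := by exact_mod_cast hb
  have hcp : (0 : ℝ) < c := by exact_mod_cast hc
  have hg0 : (1 : ℝ) < (b : ℝ) ^ (1 / (c : ℝ)) := Real.one_lt_rpow hb1 (by positivity)
  obtain ⟨g1, hg1, hg2⟩ := exists_between (max_lt hcon hg0)
  have hg3 : growth (cyclicWords w) < g1 := lt_of_le_of_lt (le_max_left _ _) hg1
  have hg4 : 1 < g1 := lt_of_le_of_lt (le_max_right _ _) hg1
  have hev := Filter.eventually_lt_of_limsup_lt hg3 (growth_bdd w)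
  obtain ⟨N0, hN0⟩ := Filter.eventually_atTop.1 hev
  set a : ℕ → ℝ := fun N => ((ofLength (cyclicWords w) N).ncard : ℝ) with ha
  have ha0 : ∀ N, 0 ≤ a N := fun N => Nat.cast_nonneg _
  set C : ℝ := ∑ N ∈ Finset.range (N0 + 1), a N with hC
  have hC0 : 0 ≤ C := Finset.sum_nonneg fun N _ => ha0 N
  have hg1p : (0 : ℝ) ≤ g1 := by linarith
  have hbd : ∀ N, a N ≤ C + g1 ^ N := by
    intro N
    by_cases h : N < N0 + 1
    · have : a N ≤ C := Finset.single_le_sum (f := a) (fun N _ => ha0 N) (Finset.mem_range.2 h)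
      have h2 : (0 : ℝ) ≤ g1 ^ N := by positivity
      linarith
    · have hN1 : 1 ≤ N := by omega
      have hNp : (0 : ℝ) < N := by exact_mod_cast hN1
      have h2 := hN0 N (by omega)
      have h3 : a N = (a N ^ (1 / (N : ℝ))) ^ (N : ℝ) := by
        rw [← Real.rpow_mul (ha0 N), one_div_mul_cancel hNp.ne', Real.rpow_one]
      have h4 : (a N ^ (1 / (N : ℝ))) ^ (N : ℝ) ≤ g1 ^ (N : ℝ) :=
        Real.rpow_le_rpow (Real.rpow_nonneg (ha0 N) _) h2.le hNp.le
      rw [← h3, Real.rpow_natCast] at h4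
      linarith
  -- the count
  have hcnt : ∀ M : ℕ, (({l | l ∈ Orb w ∧ l.length ≤ M}.ncard : ℕ) : ℝ) ≤
      ((M : ℝ) + 1) ^ 2 * ((C + 1) * g1 ^ M) := by
    intro M
    have h1 : (({l | l ∈ Orb w ∧ l.length ≤ M}.ncard : ℕ) : ℝ) ≤
        ∑ N ∈ Finset.range (M + 1), (N : ℝ) * a N := by
      have := glu_count w M
      have h2 : (({l | l ∈ Orb w ∧ l.length ≤ M}.ncard : ℕ) : ℝ) ≤
        ((∑ N ∈ Finset.range (M + 1), N * (ofLength (cyclicWords w) N).ncard : ℕ) : ℝ) := by
        exact_mod_cast this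
      refine h2.trans (le_of_eq ?_)
      push_cast
      rfl
    refine h1.trans ?_
    have h2 : ∀ N ∈ Finset.range (M + 1), (N : ℝ) * a N ≤ ((M : ℝ) + 1) * ((C + 1) * g1 ^ M) := by
      intro N hN
      rw [Finset.mem_range] at hN
      have hNM : (N : ℝ) ≤ (M : ℝ) + 1 := by
        have : (N : ℝ) ≤ ((M + 1 : ℕ) : ℝ) := by exact_mod_cast hN.le
        push_cast at this
        exact this
      have hp : g1 ^ N ≤ g1 ^ M := pow_le_pow_right₀ hg4.le (by omega)
      have hp1 : 1 ≤ g1 ^ M := one_le_pow₀ hg4.le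
      have h3 : a N ≤ (C + 1) * g1 ^ M := by
        have := hbd N
        nlinarith
      exact mul_le_mul hNM h3 (ha0 N) (by positivity)
    refine (Finset.sum_le_sum h2).trans (le_of_eq ?_)
    rw [Finset.sum_const, Finset.card_range, nsmul_eq_mul]
    push_cast
    ring
  -- the contradiction
  set q : ℝ := g1 ^ c / b with hq
  have hbp : (0 : ℝ) < b := by linarith
  have hgc : g1 ^ c < b := by
    have h1 : g1 ^ (c : ℝ) < ((b : ℝ) ^ (1 / (c : ℝ))) ^ (c : ℝ) :=
      Real.rpow_lt_rpow hg1p hg2 hcp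
    rw [← Real.rpow_mul hbp.le, one_div_mul_cancel hcp.ne', Real.rpow_one,
      Real.rpow_natCast] at h1
    exact h1
  have hq0 : 0 ≤ q := by positivity
  have hq1 : q < 1 := (div_lt_one hbp).2 hgc
  have hlim := tendsto_pow_const_mul_const_pow_of_abs_lt_one 2
    (show |q| < 1 by rwa [abs_of_nonneg hq0])
  have hlim2 : Tendsto (fun n : ℕ => (((L : ℝ) + c + 1) ^ 2 * ((C + 1) * g1 ^ L)) *
      ((n : ℝ) ^ 2 * q ^ n)) atTop
      (nhds ((((L : ℝ) + c + 1) ^ 2 * ((C + 1) * g1 ^ L)) * 0)) := hlim.const_mul _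
  rw [mul_zero] at hlim2
  have hev2 := (hlim2.eventually (gt_mem_nhds (show (0 : ℝ) < 1 by norm_num))).and
    (eventually_ge_atTop 1)
  obtain ⟨n, hn1, hn2⟩ := hev2.exists
  have hn3 : (1 : ℝ) ≤ n := by exact_mod_cast hn2
  have h5 : ((b : ℝ)) ^ n ≤ (((L + c * n : ℕ) : ℝ) + 1) ^ 2 * ((C + 1) * g1 ^ (L + c * n)) := by
    refine le_trans ?_ (hcnt (L + c * n))
    exact_mod_cast H n
  have h6 : (((L + c * n : ℕ) : ℝ) + 1) ≤ ((L : ℝ) + c + 1) * n := by
    push_cast
    nlinarith [(Nat.cast_nonneg L : (0 : ℝ) ≤ L)]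
  have h7 : (((L + c * n : ℕ) : ℝ) + 1) ^ 2 ≤ (((L : ℝ) + c + 1) * n) ^ 2 :=
    pow_le_pow_left₀ (by positivity) h6 2
  have h8 : ((b : ℝ)) ^ n ≤ (((L : ℝ) + c + 1) * n) ^ 2 * ((C + 1) * g1 ^ (L + c * n)) :=
    h5.trans (mul_le_mul_of_nonneg_right h7 (by positivity))
  have h9 : (((L : ℝ) + c + 1) * n) ^ 2 * ((C + 1) * g1 ^ (L + c * n)) =
      ((((L : ℝ) + c + 1) ^ 2 * ((C + 1) * g1 ^ L)) * ((n : ℝ) ^ 2 * q ^ n)) * (b : ℝ) ^ n := by
    rw [hq, div_pow, pow_add, pow_mul]
    field_simp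
  rw [h9] at h8
  have h10 : (0 : ℝ) < (b : ℝ) ^ n := by positivity
  nlinarith

/-- Infinitely many lengths give growth at least `1`. -/
theorem one_le_growth {w : FG k} (H : ∀ B : ℕ, ∃ l ∈ Orb w, B < l.length) :
    1 ≤ growth (cyclicWords w) := by
  refine Filter.le_limsup_of_frequently_le ?_ (growth_bdd w)
  rw [Filter.frequently_atTop]
  intro N
  obtain ⟨l, hl, hN⟩ := H N
  refine ⟨l.length, hN.le, ?_⟩
  have h1 : 0 < (ofLength (cyclicWords w) l.length).ncard :=
    (Set.ncard_pos (ofLength_finite w _)).2 ⟨_, glu_mem hl⟩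
  exact Real.one_le_rpow (by exact_mod_cast h1) (by positivity)

/-- Boundedly many lengths give growth `0`. -/
theorem growth_zero {w : FG k} {B : ℕ} (H : ∀ l ∈ Orb w, l.length ≤ B) :
    growth (cyclicWords w) = 0 := by
  have h : (fun N : ℕ => ((ofLength (cyclicWords w) N).ncard : ℝ) ^ (1 / (N : ℝ))) =ᶠ[atTop]
      fun _ => (0 : ℝ) := by
    filter_upwards [eventually_gt_atTop B] with N hN
    have hN1 : 1 ≤ N := by omega
    have h1 := ofLength_le w hN1
    have h2 : {l | l ∈ Orb w ∧ l.length = N} = ∅ := by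
      ext l
      simp only [Set.mem_setOf_eq, Set.mem_empty_iff_false, iff_false]
      rintro ⟨hl, hl2⟩
      have := H l hl
      omega
    rw [h2, Set.ncard_empty] at h1
    have h3 : (ofLength (cyclicWords w) N).ncard = 0 := by omega
    rw [h3]
    have hNp : (0 : ℝ) < N := by exact_mod_cast hN1
    simp only [Nat.cast_zero]
    exact Real.zero_rpow (by positivity)
  unfold growth
  rw [Filter.limsup_congr h]
  exact Filter.limsup_const 0

/-- Cyclically reduced elements of the orbit and words in `Orb w`. -/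
theorem orb_orbit {w : FG k} (hw : w ≠ 1) (g : FG k) :
    (g ∈ orbit w ∧ FreeGroup.IsCyclicallyReduced g.toWord) ↔ g.toWord ∈ Orb w := by
  constructor
  · rintro ⟨⟨φ, hφ⟩, h⟩
    refine ⟨⟨h, ?_⟩, φ, by rw [hφ, FreeGroup.mk_toWord]⟩
    intro hn
    rw [FreeGroup.toWord_eq_nil_iff] at hn
    rw [hn] at hφ
    exact hw (by simpa using hφ)
  · rintro ⟨h, φ, hφ⟩
    exact ⟨⟨φ, by rw [hφ, FreeGroup.mk_toWord]⟩, h.1⟩

end Pool.Agent.GRO
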