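import Pool.Agent.GRO.REL1

/-!
# REL3: gauge transformations of relative words
* `gg_val`: membership in the subgroup; `hr`: if `s (i+1) = bar (s i)` then the new label is the
  conjugate of `g i` by `h (bar (s i))`, so it is `1` only if `g i = 1`.
* `gg_conj`: by `mk_wrd`, `gauH_lt`, `gauH_FY` the right-hand side is
  `∏ h (s i) * s i * (h (bar (s i)))⁻¹ * g i`, the left one is
  `∏ s i * (h (bar (s i)))⁻¹ * g i * h (s (i+1))`; they are conjugate by `h (s 0)` (telescoping:
  for partial products `∏_{i<j} (h (s i) s i (h (bar (s i)))⁻¹ g i) * h (s j)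
   = h (s 0) * ∏_{i<j} (s i * g' i)`).
-/

set_option autoImplicit false

namespace Pool.Agent.GRO

variable {k : ℕ}

theorem gg_val {Y : Finset (Fin k)} {m : ℕ} [NeZero m] {s : Fin m → Lt k} {g : Fin m → FG k}
    (hv : Val Y s g) {h : Lt k → FG k} (hh : ∀ p, h p ∈ FY Y) : Val Y s (gg s g h) := by
  refine ⟨hv.hs, fun i => ?_, fun i hi hsi => ?_⟩
  · exact (FY Y).mul_mem ((FY Y).mul_mem ((FY Y).inv_mem (hh _)) (hv.hg i)) (hh _)
  · apply hv.hr i ?_ hsi
    unfold gg at hi
    rw [hsi] at hi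
    have h1 : g i = h (bar (s i)) * ((h (bar (s i)))⁻¹ * g i * h (bar (s i))) *
        (h (bar (s i)))⁻¹ := by group
    rw [h1, hi]
    group

theorem gg_gg {m : ℕ} [NeZero m] (s : Fin m → Lt k) (g : Fin m → FG k) (h h' : Lt k → FG k) :
    gg s (gg s g h) h' = gg s g fun p => h p * h' p := by
  funext i
  unfold gg
  group

theorem gg_one {m : ℕ} [NeZero m] (s : Fin m → Lt k) (g : Fin m → FG k) :
    gg s g (fun _ => 1) = g := by
  funext i
  unfold gg
  group

/-- Telescoping products. -/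
private theorem REL3_tel {G : Type*} [Group G] (c : ℕ → G) :
    ∀ (n : ℕ) (F : Fin n → G),
      (List.ofFn fun i : Fin n => (c i)⁻¹ * F i * c (i + 1)).prod =
        (c 0)⁻¹ * (List.ofFn F).prod * c n := by
  intro n
  induction n with
  | zero =>
    intro F
    simp
  | succ n ih =>
    intro F
    rw [List.ofFn_succ', List.ofFn_succ' (f := F)]
    have h1 := ih fun i => F i.castSucc
    simp only [List.concat_eq_append, List.prod_append, List.prod_cons, List.prod_nil, mul_one,
      Fin.val_castSucc, Fin.val_last]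
    rw [h1]
    group

theorem gg_conj {Y : Finset (Fin k)} {m : ℕ} [NeZero m] {s : Fin m → Lt k} {g : Fin m → FG k}
    (hv : Val Y s g) {h : Lt k → FG k} (hh : ∀ p, h p ∈ FY Y) :
    IsConj (FreeGroup.mk (wrd s (gg s g h))) (gauH Y h (FreeGroup.mk (wrd s g))) := by
  rw [isConj_iff]
  refine ⟨h (s 0), ?_⟩
  rw [mk_wrd, mk_wrd, map_list_prod, List.map_ofFn]
  have h1 : (⇑(gauH Y h) ∘ fun i => lt (s i) * g i) =
      fun i => h (s i) * lt (s i) * (h (bar (s i)))⁻¹ * g i := by
    funext i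
    simp only [Function.comp_apply, map_mul]
    rw [gauH_lt Y h (hv.hs i), gauH_FY Y h (hv.hg i)]
  rw [h1]
  have h2 := REL3_tel (fun j : ℕ => h (s (Fin.ofNat m j))) m
    fun i => h (s i) * lt (s i) * (h (bar (s i)))⁻¹ * g i
  have h3 : (fun i : Fin m => (h (s (Fin.ofNat m i)))⁻¹ *
      (h (s i) * lt (s i) * (h (bar (s i)))⁻¹ * g i) * h (s (Fin.ofNat m (i + 1)))) =
      fun i => lt (s i) * gg s g h i := by
    funext i
    have e1 : Fin.ofNat m (i : ℕ) = i := by
      apply Fin.ext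
      simp [Fin.ofNat, Nat.mod_eq_of_lt i.2]
    have e2 : Fin.ofNat m ((i : ℕ) + 1) = i + 1 := by
      apply Fin.ext
      rw [Fin.val_add, Fin.val_one']
      simp [Fin.ofNat]
    rw [e1, e2]
    unfold gg
    group
  rw [h3] at h2
  have e3 : Fin.ofNat m m = 0 := by
    apply Fin.ext
    simp [Fin.ofNat]
  have e4 : Fin.ofNat m 0 = 0 := by
    apply Fin.ext
    simp [Fin.ofNat]
  simp only [e3, e4] at h2
  rw [h2]
  group

/-- The same for a rotation of the word. -/
theorem gg_conj_rot {Y : Finset (Fin k)} {m : ℕ} [NeZero m] {s : Fin m → Lt k}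
    {g : Fin m → FG k} (hv : Val Y s g) {h : Lt k → FG k} (hh : ∀ p, h p ∈ FY Y)
    {l : List (Lt k)} (hl : l ~r wrd s g) :
    IsConj (FreeGroup.mk (wrd s (gg s g h))) (gauH Y h (FreeGroup.mk l)) := by
  refine (gg_conj hv hh).trans ?_
  apply MonoidHom.map_isConj
  obtain ⟨n, hn⟩ := hl
  rw [← hn, isConj_iff]
  refine ⟨FreeGroup.mk (l.take (n % l.length)), ?_⟩
  rw [List.rotate_eq_drop_append_take_mod]
  have h1 : FreeGroup.mk l = FreeGroup.mk (l.take (n % l.length)) *
      FreeGroup.mk (l.drop (n % l.length)) := by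
    rw [FreeGroup.mul_mk, List.take_append_drop]
  rw [← FreeGroup.mul_mk, h1]
  group

end Pool.Agent.GRO
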