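import Pool.Agent.GRO.REL1

/-!
# WH1: one passage of a Whitehead move
Let `a ∈ S`, `bar a ∉ S`, `p`, `q` letters different from `a`, `bar a`; the passage
`p → a ^ n → q`. The word of `(lt a) ^ n` is `replicate n a` for `n ≥ 0` and `replicate (-n) (bar a)`
for `n < 0`, so the edges are, for `n > 0`: `(p, a)`, `(bar a, a)` (`n - 1` times), `(bar a, q)`; for
`n = 0`: `(p, q)`; for `n < 0`: `(p, bar a)`, `(a, bar a)` (`-n-1` times), `(a, q)`.
Hence the number of edges cut by `S` is `|n - [p ∈ S] + [q ∈ S]|` in all cases; the number of edges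
cut by `{a}` is `|n|`; the number of transitions of `C` is `|n| + 1` if `n ≠ 0` and `[¬ C p q]` if
`n = 0` when `{a}` and `{bar a}` are classes.
-/

set_option autoImplicit false

namespace Pool.Agent.GRO

variable {k : ℕ}

private theorem WH1_pow (a : Lt k) (n : ℕ) :
    (lt a ^ n : FG k) = FreeGroup.mk (List.replicate n a) := by
  induction n with
  | zero => rfl
  | succ n ih =>
    rw [pow_succ', ih, List.replicate_succ]
    show FreeGroup.mk [a] * _ = _
    rw [FreeGroup.mul_mk]
    rfl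

private theorem WH1_word (a : Lt k) (n : ℕ) : (lt a ^ n : FG k).toWord = List.replicate n a := by
  rw [WH1_pow, FreeGroup.toWord_mk]
  apply FreeGroup.IsReduced.reduce_eq
  exact List.isChain_replicate_of_rel _ (fun _ => rfl)

private theorem WH1_word' (a : Lt k) (n : ℕ) :
    (lt a ^ (-(n : ℤ)) : FG k).toWord = List.replicate n (bar a) := by
  rw [zpow_neg, ← inv_zpow, ← lt_bar, zpow_natCast, WH1_word]

theorem FY_single {a : Lt k} {g : FG k} (hg : g ∈ FY {a.1}) : ∃ n : ℤ, g = lt a ^ n := by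
  unfold FY at hg
  rw [Finset.coe_singleton, Set.image_singleton, Subgroup.mem_closure_singleton] at hg
  obtain ⟨n, hn⟩ := hg
  obtain ⟨x, b⟩ := a
  cases b with
  | true => exact ⟨n, hn.symm⟩
  | false =>
    refine ⟨-n, ?_⟩
    have h : lt ((x, false) : Lt k) = (FreeGroup.of x)⁻¹ := rfl
    rw [h, inv_zpow, zpow_neg, inv_inv]
    exact hn.symm

theorem norm_lt_zpow (a : Lt k) (n : ℤ) : (lt a ^ n).norm = n.natAbs := by
  unfold FreeGroup.norm
  rcases Int.eq_nat_or_neg n with ⟨m, rfl | rfl⟩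
  · rw [zpow_natCast, WH1_word, List.length_replicate, Int.natAbs_natCast]
  · rw [WH1_word', List.length_replicate, Int.natAbs_neg, Int.natAbs_natCast]

private theorem WH1_rep0 (a q : Lt k) (n : ℕ) :
    pe (bar a) (List.replicate n a) q = List.replicate n (bar a, a) ++ [(bar a, q)] := by
  induction n with
  | zero => rfl
  | succ n ih =>
    rw [List.replicate_succ, List.replicate_succ, List.cons_append, ← ih]
    rfl

private theorem WH1_rep (p a q : Lt k) (n : ℕ) :
    pe p (List.replicate (n + 1) a) q =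
      (p, a) :: (List.replicate n (bar a, a) ++ [(bar a, q)]) := by
  rw [List.replicate_succ, ← WH1_rep0]
  rfl

private theorem WH1_count (f : Lt k × Lt k → Bool) (p a q : Lt k) (n : ℕ) (hf : f (bar a, a) = true) :
    (pe p (List.replicate (n + 1) a) q).countP f =
      (if f (p, a) then 1 else 0) + n + (if f (bar a, q) then 1 else 0) := by
  rw [WH1_rep, List.countP_cons, List.countP_append, List.countP_replicate, if_pos hf]
  simp only [List.countP_cons, List.countP_nil]
  omega

/-- Positive, zero and negative exponents. -/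
private theorem WH1_cases (n : ℤ) : n = 0 ∨ (∃ m : ℕ, n = (m : ℤ) + 1) ∨
    ∃ m : ℕ, n = -((m : ℤ) + 1) := by
  rcases lt_trichotomy n 0 with h | h | h
  · exact Or.inr (Or.inr ⟨(-n - 1).toNat, by omega⟩)
  · exact Or.inl h
  · exact Or.inr (Or.inl ⟨(n - 1).toNat, by omega⟩)

theorem pass_cap {S : Finset (Lt k)} {a : Lt k} (ha : a ∈ S) (hb : bar a ∉ S) {p q : Lt k}
    (hp : p.1 ≠ a.1) (hq : q.1 ≠ a.1) (n : ℤ) :
    ((pe p (lt a ^ n).toWord q).countP fun e => decide (e.1 ∈ S) != decide (e.2 ∈ S)) =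
      (n - (if p ∈ S then 1 else 0) + (if q ∈ S then 1 else 0)).natAbs := by
  rcases WH1_cases n with rfl | ⟨m, rfl⟩ | ⟨m, rfl⟩
  · rw [zpow_zero, pe_one]
    by_cases h1 : p ∈ S <;> by_cases h2 : q ∈ S <;> simp [h1, h2]
  · rw [show ((m : ℤ) + 1) = ((m + 1 : ℕ) : ℤ) by push_cast; ring, zpow_natCast, WH1_word,
      WH1_count _ _ _ _ _ (by simp [ha, hb])]
    by_cases h1 : p ∈ S <;> by_cases h2 : q ∈ S <;> simp [h1, h2, ha, hb] <;> omega
  · rw [show (-((m : ℤ) + 1)) = -((m + 1 : ℕ) : ℤ) by push_cast; ring, WH1_word',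
      WH1_count _ _ _ _ _ (by simp [ha, hb, bar_bar])]
    by_cases h1 : p ∈ S <;> by_cases h2 : q ∈ S <;> simp [h1, h2, ha, hb, bar_bar] <;> omega

theorem pass_single {a : Lt k} {p q : Lt k} (hp : p.1 ≠ a.1) (hq : q.1 ≠ a.1) (n : ℤ) :
    ((pe p (lt a ^ n).toWord q).countP fun e =>
      decide (e.1 ∈ ({a} : Finset (Lt k))) != decide (e.2 ∈ ({a} : Finset (Lt k)))) =
      n.natAbs := by
  have h1 : p ∉ ({a} : Finset (Lt k)) := by
    rw [Finset.mem_singleton]
    rintro rfl
    exact hp rfl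
  have h2 : q ∉ ({a} : Finset (Lt k)) := by
    rw [Finset.mem_singleton]
    rintro rfl
    exact hq rfl
  have h3 : bar a ∉ ({a} : Finset (Lt k)) := by
    rw [Finset.mem_singleton]
    exact bar_ne a
  rw [pass_cap (Finset.mem_singleton_self a) h3 hp hq n, if_neg h1, if_neg h2]
  simp

open Classical in
theorem pass_tran {C : Lt k → Lt k → Prop} (hC : Equivalence C) {a : Lt k}
    (h1 : ∀ x, C a x → x = a) (h2 : ∀ x, C (bar a) x → x = bar a) {p q : Lt k}
    (hp : p.1 ≠ a.1) (hq : q.1 ≠ a.1) (n : ℤ) :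
    ((pe p (lt a ^ n).toWord q).countP fun e => decide (¬ C e.1 e.2)) =
      if n = 0 then (if C p q then 0 else 1) else n.natAbs + 1 := by
  have e1 : ¬ C a (bar a) := fun h => bar_ne a (h1 _ h)
  have e2 : ¬ C (bar a) a := fun h => e1 (hC.symm h)
  have e3 : ¬ C p a := fun h => hp (by rw [h1 _ (hC.symm h)])
  have e4 : ¬ C p (bar a) := fun h => hp (by rw [h2 _ (hC.symm h)]; rfl)
  have e5 : ¬ C a q := fun h => hq (by rw [h1 _ h])
  have e6 : ¬ C (bar a) q := fun h => hq (by rw [h2 _ h]; rfl)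
  rcases WH1_cases n with rfl | ⟨m, rfl⟩ | ⟨m, rfl⟩
  · rw [zpow_zero, pe_one]
    by_cases h : C p q <;> simp [h]
  · rw [if_neg (by omega), show ((m : ℤ) + 1) = ((m + 1 : ℕ) : ℤ) by push_cast; ring,
      zpow_natCast, WH1_word, WH1_count _ _ _ _ _ (by simp [e2])]
    simp only [e3, e6, not_false_eq_true, decide_true, if_true]
    omega
  · rw [if_neg (by omega), show (-((m : ℤ) + 1)) = -((m + 1 : ℕ) : ℤ) by push_cast; ring,
      WH1_word', WH1_count _ _ _ _ _ (by simp [e1, bar_bar])]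
    simp only [e4, bar_bar, e5, not_false_eq_true, decide_true, if_true]
    omega

end Pool.Agent.GRO
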