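import Pool.Agent.GRO.REL2
import Pool.Agent.GRO.WH1
import Pool.Agent.GRO.REL3
import Pool.Agent.GRO.CONJ

/-!
# K2I: rank two, orbits with bounded words
Suppose `|l| ≤ B` for all `l ∈ Orb w`.
* `alt_sign`: let `{x, y}` be the two generators and suppose `l ∈ Orb w` has a letter over `y`;
  `l ~r wrd s g`, `Y = {x}`, `g i = (of x)^(e i)` (`FY_single`, or `mem_FY`). For `K = {(y, true)}` and
  `h = (of x)^n` (`n` any integer) `wrd s (gg s g (onK K h)) ∈ Orb w`. If exactly one of
  `bar (s i)`, `s (i+1)` is `(y, true)`, the exponent `e i` becomes `e i ± n`: unbounded length. So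
  `bar (s i) = (y, true) ↔ s (i+1) = (y, true)`, i.e. the signs of the letters over `y` alternate
  cyclically. In particular (go around the cycle) both signs occur.
* If `l` has no letter over `y` then `l = (x^±)^n`; the automorphism `x ↦ x y` gives a word in `Orb w`
  whose letters over `y` all have the same sign: contradiction. So both generators occur and their
  signs alternate. Then between two letters over `y` there is exactly one letter (not zero: `hr`,
  not two: two consecutive equal letters over `x` do not alternate). So `l` is, up to rotation,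
  `(y x^δ y⁻¹ x^{-δ})^n`: with `δ = 1` this is `[y, x]^n = [x, y]^{-n}`, with `δ = -1` it is
  `(y x⁻¹ y⁻¹ x)^n`, conjugate to `[x, y]^n`.
-/

set_option autoImplicit false

namespace Pool.Agent.GRO

private theorem k2i_norm (h g : FG 2) : h.norm ≤ (h⁻¹ * g * 1).norm + g.norm ∧
    h.norm ≤ (1⁻¹ * g * h).norm + g.norm := by
  constructor
  · have e : h = g * (h⁻¹ * g * 1)⁻¹ := by group
    calc h.norm = (g * (h⁻¹ * g * 1)⁻¹).norm := by rw [← e]
      _ ≤ g.norm + ((h⁻¹ * g * 1)⁻¹).norm := FreeGroup.norm_mul_le _ _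
      _ = _ := by rw [FreeGroup.norm_inv_eq, add_comm]
  · have e : h = g⁻¹ * (1⁻¹ * g * h) := by group
    calc h.norm = (g⁻¹ * (1⁻¹ * g * h)).norm := by rw [← e]
      _ ≤ (g⁻¹).norm + (1⁻¹ * g * h).norm := FreeGroup.norm_mul_le _ _
      _ = _ := by rw [FreeGroup.norm_inv_eq, add_comm]

private theorem k2i_alt {w : FG 2} {B : ℕ} (H : ∀ l ∈ Orb w, l.length ≤ B) {a b : Fin 2}
    (hab : a ≠ b) {m : ℕ} [NeZero m] {s : Fin m → Lt 2} {g : Fin m → FG 2} (hv : Val {a} s g)
    (ho : wrd s g ∈ Orb w) (i : Fin m) : s (i + 1) = bar (s i) := by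
  classical
  set n : ℤ := ((B + 1 + (g i).norm : ℕ) : ℤ) with hn
  set h : FG 2 := lt (a, true) ^ n with hh
  have hhm : h ∈ FY ({a} : Finset (Fin 2)) :=
    Subgroup.zpow_mem _ (lt_mem_FY (a := (a, true)) (Finset.mem_singleton_self a)) _
  have hhn : h.norm = B + 1 + (g i).norm := by
    rw [hh, norm_lt_zpow, hn, Int.natAbs_natCast]
  set K : Finset (Lt 2) := {(b, true)} with hK
  have hhK : ∀ p, onK K h p ∈ FY ({a} : Finset (Fin 2)) := fun p => onK_mem K hhm p
  have hv' := gg_val hv hhK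
  have hCR := wrd_CR hv'
  have ho' := orb_gau ho hCR {a} _ hhK (gg_conj hv hhK)
  have hlen := H _ ho'
  rw [wrd_length] at hlen
  have hi : (gg s g (onK K h) i).norm ≤ B := by
    have h1 : (gg s g (onK K h) i).norm ≤ ∑ i, (gg s g (onK K h) i).norm :=
      Finset.single_le_sum (f := fun i => (gg s g (onK K h) i).norm)
        (fun _ _ => Nat.zero_le _) (Finset.mem_univ i)
    omega
  have hb : ∀ j, (s j).1 = b := by
    intro j
    have h1 := hv.hs j
    rw [Finset.mem_singleton] at h1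
    have h2 := (s j).1.isLt
    have h3 := a.isLt
    have h4 := b.isLt
    have h5 : (s j).1.val ≠ a.val := fun e => h1 (Fin.ext e)
    have h6 : a.val ≠ b.val := fun e => hab (Fin.ext e)
    exact Fin.ext (by omega)
  obtain ⟨n1, n2⟩ := k2i_norm h (g i)
  rw [gg] at hi
  have e1 : s i = (b, (s i).2) := Prod.ext (hb i) rfl
  have e2 : s (i + 1) = (b, (s (i + 1)).2) := Prod.ext (hb (i + 1)) rfl
  rcases hs1 : (s i).2 with _ | _ <;> rcases hs2 : (s (i + 1)).2 with _ | _
  · exfalso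
    rw [hs1] at e1
    rw [hs2] at e2
    have k1 : onK K h (bar (s i)) = h := by
      rw [onK, if_pos]
      rw [e1, hK, Finset.mem_singleton]
      rfl
    have k2 : onK K h (s (i + 1)) = 1 := by
      rw [onK, if_neg]
      rw [e2, hK, Finset.mem_singleton]
      simp
    rw [k1, k2] at hi
    omega
  · rw [e2, e1, hs1, hs2]
    rfl
  · rw [e2, e1, hs1, hs2]
    rfl
  · exfalso
    rw [hs1] at e1
    rw [hs2] at e2
    have k1 : onK K h (bar (s i)) = 1 := by
      rw [onK, if_neg]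
      rw [e1, hK, Finset.mem_singleton]
      simp [bar]
    have k2 : onK K h (s (i + 1)) = h := by
      rw [onK, if_pos]
      rw [e2, hK, Finset.mem_singleton]
    rw [k1, k2] at hi
    omega

private theorem k2i_dec {w : FG 2} {B : ℕ} (H : ∀ l ∈ Orb w, l.length ≤ B) {a b : Fin 2}
    (hab : a ≠ b) {l : List (Lt 2)} (hl : l ∈ Orb w) (hc : ∃ c ∈ l, c.1 = b) :
    ∃ (m : ℕ) (_ : NeZero m) (s : Fin m → Lt 2) (g : Fin m → FG 2),
      Val {a} s g ∧ l ~r wrd s g ∧ (∀ i, s (i + 1) = bar (s i)) ∧ ∀ i, g i ≠ 1 := by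
  obtain ⟨c, hc, hcb⟩ := hc
  obtain ⟨m, hm, s, g, hv, hr⟩ := exists_rel {a} hl.1 ⟨c, hc, by
    rw [Finset.mem_singleton, hcb]; exact fun e => hab e.symm⟩
  have ho := orb_rot hr hl
  have halt := k2i_alt H hab hv ho
  exact ⟨m, hm, s, g, hv, hr, halt, fun i hi => hv.hr i hi (halt i)⟩

private theorem k2i_tele {G : Type*} [Group G] (U V : ℕ → G) (n : ℕ) :
    (List.ofFn fun i : Fin n => V i * U (i + 1)).prod =
      (U 0)⁻¹ * (List.ofFn fun i : Fin n => U i * V i).prod * U n := by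
  induction n with
  | zero => simp
  | succ n ih =>
    rw [List.ofFn_succ', List.ofFn_succ', List.concat_eq_append, List.concat_eq_append,
      List.prod_append, List.prod_append]
    simp only [List.prod_singleton, Fin.val_castSucc, Fin.val_last]
    rw [ih]
    group

private theorem k2i_pow {G : Type*} [Group G] (U V : ℕ → G) (hU : ∀ n, U (n + 1) = (U n)⁻¹)
    (hV : ∀ n, V (n + 1) = (V n)⁻¹) (t : ℕ) :
    (List.ofFn fun i : Fin (2 * t) => U i * V i).prod =
      (U 0 * V 0 * (U 0)⁻¹ * (V 0)⁻¹) ^ t ∧ U (2 * t) = U 0 ∧ V (2 * t) = V 0 := by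
  induction t with
  | zero => simp
  | succ t ih =>
    obtain ⟨h1, h2, h3⟩ := ih
    refine ⟨?_, ?_, ?_⟩
    · change (List.ofFn fun i : Fin (2 * t + 1 + 1) => U i * V i).prod = _
      rw [List.ofFn_succ', List.ofFn_succ', List.concat_eq_append, List.concat_eq_append,
        List.prod_append, List.prod_append]
      simp only [List.prod_singleton, Fin.val_castSucc, Fin.val_last]
      rw [h1, hU (2 * t), hV (2 * t), h2, h3, pow_succ]
      group
    · rw [mul_add, mul_one, hU, hU, h2, inv_inv]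
    · rw [mul_add, mul_one, hV, hV, h3, inv_inv]

private theorem k2i_pconj {G : Type*} [Group G] {a b : G} (h : IsConj a b) (m : ℤ) :
    IsConj (a ^ m) (b ^ m) := by
  obtain ⟨c, hc⟩ := isConj_iff.mp h
  rw [isConj_iff]
  exact ⟨c, by rw [← hc, conj_zpow]⟩

private theorem k2i_comm {G : Type*} [Group G] (x y u v : G) (hu : u = y ∨ u = y⁻¹)
    (hv : v = x ∨ v = x⁻¹) :
    IsConj (u * v * u⁻¹ * v⁻¹) (x * y * x⁻¹ * y⁻¹) ∨
      IsConj (u * v * u⁻¹ * v⁻¹) (x * y * x⁻¹ * y⁻¹)⁻¹ := by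
  rcases hu with rfl | rfl <;> rcases hv with rfl | rfl
  · right
    rw [isConj_iff]
    exact ⟨1, by group⟩
  · left
    rw [isConj_iff]
    exact ⟨x, by group⟩
  · left
    rw [isConj_iff]
    exact ⟨y, by group⟩
  · right
    rw [isConj_iff]
    exact ⟨y * x, by group⟩

theorem bounded_comm {w : FG 2} {B : ℕ} (hw : w ≠ 1) (H : ∀ l ∈ Orb w, l.length ≤ B) :
    let x : FG 2 := FreeGroup.of 0
    let y : FG 2 := FreeGroup.of 1
    ∃ l ∈ Orb w, ∃ m : ℤ, IsConj (FreeGroup.mk l) ((x * y * x⁻¹ * y⁻¹) ^ m) := by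
  classical
  intro x y
  have h01 : (0 : Fin 2) ≠ 1 := by decide
  -- a word in the orbit
  obtain ⟨l, hl⟩ : ∃ l, l ∈ Orb w := by
    obtain ⟨v, hv, hc⟩ := exists_CR hw
    obtain ⟨c, hc⟩ := isConj_iff.mp hc.symm
    exact ⟨v, hv, MulAut.conj c, by rw [MulAut.conj_apply, hc]⟩
  -- it contains a letter over 1
  have hone : ∃ c ∈ l, c.1 = (1 : Fin 2) := by
    obtain ⟨c, hc⟩ := List.exists_mem_of_ne_nil l hl.1.2
    by_cases h1 : c.1 = 1
    · exact ⟨c, hc, h1⟩
    · have h0 : c.1 = 0 := by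
        have := c.1.isLt
        have h2 : c.1.val ≠ 1 := fun e => h1 (Fin.ext e)
        exact Fin.ext (by simp; omega)
      obtain ⟨m, hm, s, g, hv, hr, -, hg⟩ := k2i_dec H h01.symm hl ⟨c, hc, h0⟩
      obtain ⟨d, hd⟩ := List.exists_mem_of_ne_nil (g 0).toWord (by
        rw [Ne, FreeGroup.toWord_eq_nil_iff]; exact hg 0)
      refine ⟨d, hr.mem_iff.mpr ((mem_wrd s g d).mpr ⟨0, Or.inr hd⟩), ?_⟩
      have := (mem_FY {1} (g 0)).mp (hv.hg 0) d hd
      rwa [Finset.mem_singleton] at this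
  obtain ⟨m, hm, s, g, hv, hr, halt, hg⟩ := k2i_dec H h01 hl hone
  have ho := orb_rot hr hl
  -- no two adjacent letters over 0
  have hedge : ∀ e ∈ edg (wrd s g), ¬ (e.1.1 = 0 ∧ e.2.1 = 0) := by
    intro e he
    have hz : ∃ c ∈ wrd s g, c.1 = (0 : Fin 2) := by
      obtain ⟨d, hd⟩ := List.exists_mem_of_ne_nil (g 0).toWord (by
        rw [Ne, FreeGroup.toWord_eq_nil_iff]; exact hg 0)
      refine ⟨d, (mem_wrd s g d).mpr ⟨0, Or.inr hd⟩, ?_⟩
      have := (mem_FY {0} (g 0)).mp (hv.hg 0) d hd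
      rwa [Finset.mem_singleton] at this
    obtain ⟨m', hm', s', g', hv', hr', -, hg'⟩ := k2i_dec H h01.symm ho hz
    have he' : e ∈ edg (wrd s' g') := (edg_rot hr').mem_iff.mp he
    obtain ⟨i, hi⟩ := (mem_edg_wrd s' g' e).mp he'
    have hY : ∀ c ∈ (g' i).toWord, c.1 = 1 := fun c hc => by
      have := (mem_FY {1} (g' i)).mp (hv'.hg i) c hc
      rwa [Finset.mem_singleton] at this
    have hY' : ∀ c ∈ ((g' i)⁻¹).toWord, c.1 = 1 := fun c hc => by
      have := (mem_FY {1} (g' i)⁻¹).mp (Subgroup.inv_mem _ (hv'.hg i)) c hc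
      rwa [Finset.mem_singleton] at this
    rintro ⟨z1, z2⟩
    rcases pe_cases (hv'.hg i) hi with ⟨h1, -⟩ | ⟨c, hc, rfl⟩ | ⟨c, hc, rfl⟩ | ⟨h1, h2⟩
    · exact hg' i h1
    · rw [hY c (List.mem_of_mem_head? hc)] at z2
      exact h01 z2.symm
    · rw [hY' c (List.mem_of_mem_head? hc)] at z1
      exact h01 z1.symm
    · rw [Finset.mem_singleton, z1] at h1
      exact h01 h1
  -- the labels are single letters
  have hsing : ∀ i, ∃ c : Lt 2, c.1 = 0 ∧ g i = lt c := by
    intro i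
    have hY : ∀ c ∈ (g i).toWord, c.1 = 0 := fun c hc => by
      have := (mem_FY {0} (g i)).mp (hv.hg i) c hc
      rwa [Finset.mem_singleton] at this
    rcases hw' : (g i).toWord with _ | ⟨c, _ | ⟨d, r⟩⟩
    · exact absurd (FreeGroup.toWord_eq_nil_iff.mp hw') (hg i)
    · refine ⟨c, hY c (by rw [hw']; simp), ?_⟩
      rw [lt, ← hw', FreeGroup.mk_toWord]
    · exfalso
      refine hedge (bar c, d) ((mem_edg_wrd s g _).mpr ⟨i, ?_⟩) ⟨?_, ?_⟩
      · rw [hw']
        simp [pe]
      · exact hY c (by rw [hw']; simp)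
      · exact hY d (by rw [hw']; simp)
  choose c hc0 hgc using hsing
  have hgc' : g = fun i => lt (c i) := funext hgc
  have hsb : ∀ j, (s j).1 = 1 := by
    intro j
    have h1 := hv.hs j
    rw [Finset.mem_singleton] at h1
    have h2 := (s j).1.isLt
    have h5 : (s j).1.val ≠ 0 := fun e => h1 (Fin.ext e)
    exact Fin.ext (by simp; omega)
  have hltn : ∀ a : Lt 2, lt a ≠ 1 := by
    intro a ha
    have h1 := norm_lt_zpow a 1
    rw [zpow_one, ha, FreeGroup.norm_one] at h1
    exact absurd h1 (by decide)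
  -- the sequences
  set U : ℕ → FG 2 := fun n => lt (s (Fin.ofNat m n)) with hU
  set V : ℕ → FG 2 := fun n => lt (c (Fin.ofNat m n)) with hV
  have hcast : ∀ i : Fin m, Fin.ofNat m i.val = i := fun i => by
    ext
    simp [Fin.ofNat, Nat.mod_eq_of_lt i.isLt]
  have hcast1 : ∀ n : ℕ, Fin.ofNat m (n + 1) = Fin.ofNat m n + 1 := fun n => by
    ext
    simp [Fin.ofNat, Fin.add_def, Nat.add_mod]
  have hcastm : Fin.ofNat m m = Fin.ofNat m 0 := by
    ext
    simp [Fin.ofNat]
  -- the swapped word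
  have hv2 : Val {1} c (fun i => lt (s (i + 1))) := by
    refine ⟨fun i => ?_, fun i => ?_, fun i hi => absurd hi (hltn _)⟩
    · rw [hc0, Finset.mem_singleton]; exact h01
    · exact lt_mem_FY (by rw [hsb, Finset.mem_singleton])
  have hp1 : FreeGroup.mk (wrd s g) = (List.ofFn fun i : Fin m => U i * V i).prod := by
    rw [mk_wrd]
    congr 2
    funext i
    simp only [hU, hV, hcast, hgc i]
  have hp2 : FreeGroup.mk (wrd c fun i => lt (s (i + 1))) =
      (List.ofFn fun i : Fin m => V i * U (i + 1)).prod := by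
    rw [mk_wrd]
    congr 2
    funext i
    simp only [hU, hV, hcast1, hcast]
  have ho2 : wrd c (fun i => lt (s (i + 1))) ∈ Orb w := by
    refine orb_aut ho (wrd_CR hv2) 1 ?_
    rw [MulAut.one_apply, hp1, hp2, k2i_tele, isConj_iff]
    have e : U m = U 0 := by
      simp only [hU]
      rw [hcastm]
    exact ⟨U 0, by rw [e]; group⟩
  have halt2 := k2i_alt H h01.symm hv2 ho2
  have hU1 : ∀ n, U (n + 1) = (U n)⁻¹ := fun n => by
    simp only [hU]
    rw [hcast1, halt, lt_bar]
  have hV1 : ∀ n, V (n + 1) = (V n)⁻¹ := fun n => by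
    simp only [hV]
    rw [hcast1, halt2, lt_bar]
  -- the number of blocks is even
  obtain ⟨t, ht⟩ : ∃ t, m = 2 * t := by
    rcases Nat.even_or_odd' m with ⟨t, h | h⟩
    · exact ⟨t, h⟩
    · exfalso
      have h1 := (k2i_pow U V hU1 hV1 t).2.1
      have h2 : U m = (U 0)⁻¹ := by rw [h, hU1, h1]
      have h3 : U m = U 0 := by
        simp only [hU]
        rw [hcastm]
      have h4 : lt (s (Fin.ofNat m 0)) = lt (bar (s (Fin.ofNat m 0))) := by
        rw [lt_bar]
        exact h3.symm.trans h2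
      have h5 := congrArg FreeGroup.toWord h4
      rw [lt, lt, FreeGroup.toWord_mk, FreeGroup.toWord_mk] at h5
      simp [FreeGroup.reduce] at h5
      exact bar_ne _ h5.symm
  subst ht
  have hfin := (k2i_pow U V hU1 hV1 t).1
  refine ⟨wrd s g, ho, ?_⟩
  rw [hp1, hfin]
  have hu : U 0 = y ∨ U 0 = y⁻¹ := by
    have e1 : s (Fin.ofNat (2 * t) 0) = (1, (s (Fin.ofNat (2 * t) 0)).2) := Prod.ext (hsb _) rfl
    simp only [hU]
    rw [e1]
    cases (s (Fin.ofNat (2 * t) 0)).2
    · right; rfl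
    · left; rfl
  have hv' : V 0 = x ∨ V 0 = x⁻¹ := by
    have e1 : c (Fin.ofNat (2 * t) 0) = (0, (c (Fin.ofNat (2 * t) 0)).2) := Prod.ext (hc0 _) rfl
    simp only [hV]
    rw [e1]
    cases (c (Fin.ofNat (2 * t) 0)).2
    · right; rfl
    · left; rfl
  rcases k2i_comm x y (U 0) (V 0) hu hv' with h | h
  · refine ⟨t, ?_⟩
    have := k2i_pconj h t
    rwa [zpow_natCast] at this
  · refine ⟨-t, ?_⟩
    have := k2i_pconj h t
    rw [zpow_natCast, inv_zpow'] at this
    exact this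

end Pool.Agent.GRO
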