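import Pool.Agent.GRO.MSG
import Pool.Agent.GRO.ANA1
import Pool.Agent.GRO.ANA2
import Pool.Agent.GRO.FBW
import Pool.Agent.GRO.FBR
import Pool.Agent.GRO.FBG

/-!
# UB: the upper bound
`fbw`, `fbr`, `fbg`, `fb_or` give `FB (Orb w) N s0 (RB N) ((N+2)^c)` for a common `c` (three summands,
`3 (N+2)^c' ≤ (N+2)^(c'+2)`). For `s > s0` put `s1 = (s + s0) / 2`, `ε = (s - s0) / 2`; `ana_rec` with
`s1`, `t0 = tn c1 N`, `msg`, and `coef_small` (`b = s1 - s0`), `rem_small`: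
`Z ≤ Z / 2 + exp (ε N) / 2`, so `Z ≤ exp (ε N)`. Every word of length `N` contributes `exp (-s1 N)` to
`Z`, so their number is at most `exp ((s1 + ε) N) = exp (s N)`.
-/

set_option autoImplicit false

open Filter

namespace Pool.Agent.GRO

variable {k : ℕ}

private theorem UB_mono {O : Set (List (Lt k))} {N : ℕ} {s0 : ℝ}
    {R : List (Lt k) → List (Lt k) → Prop} {B B' : ℝ} (h : FB O N s0 R B) (hB : B ≤ B') :
    FB O N s0 R B' := by
  intro v hv δ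
  exact (h v hv δ).trans (mul_le_mul_of_nonneg_right hB (Real.exp_pos _).le)

private theorem UB_fb (w : FG k) {s0 : ℝ} (hs : 0 ≤ s0) (H : Hyp w s0) :
    ∃ c : ℕ, ∀ N : ℕ, FB (Orb w) N s0 (RB N) (((N : ℝ) + 2) ^ c) := by
  obtain ⟨a, ha⟩ := fbw w hs
  obtain ⟨b, hb⟩ := fbr w hs H
  obtain ⟨d, hd⟩ := fbg w hs
  refine ⟨a + b + d + 2, fun N => ?_⟩
  have h := fb_or (ha N) (fb_or (hb N) (hd N))
  refine UB_mono (R := RB N) h ?_
  have hx : (1 : ℝ) ≤ (N : ℝ) + 2 := by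
    have : (0 : ℝ) ≤ N := Nat.cast_nonneg _
    linarith
  have hx2 : (3 : ℝ) ≤ ((N : ℝ) + 2) ^ 2 := by
    have : (0 : ℝ) ≤ N := Nat.cast_nonneg _
    nlinarith
  have h1 : ((N : ℝ) + 2) ^ a ≤ ((N : ℝ) + 2) ^ (a + b + d) :=
    pow_le_pow_right₀ hx (by omega)
  have h2 : ((N : ℝ) + 2) ^ b ≤ ((N : ℝ) + 2) ^ (a + b + d) :=
    pow_le_pow_right₀ hx (by omega)
  have h3 : ((N : ℝ) + 2) ^ d ≤ ((N : ℝ) + 2) ^ (a + b + d) :=
    pow_le_pow_right₀ hx (by omega)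
  have h4 : (0 : ℝ) ≤ ((N : ℝ) + 2) ^ (a + b + d) := by positivity
  calc ((N : ℝ) + 2) ^ a + (((N : ℝ) + 2) ^ b + ((N : ℝ) + 2) ^ d)
      ≤ 3 * ((N : ℝ) + 2) ^ (a + b + d) := by linarith
    _ ≤ ((N : ℝ) + 2) ^ 2 * ((N : ℝ) + 2) ^ (a + b + d) := mul_le_mul_of_nonneg_right hx2 h4
    _ = ((N : ℝ) + 2) ^ (a + b + d + 2) := by ring

theorem ub {w : FG k} {s0 : ℝ} (hs : 0 ≤ s0) (H : Hyp w s0) :
    ∀ s > s0, ∃ N0 : ℕ, ∀ N ≥ N0,
      (({l | l ∈ Orb w ∧ l.length = N}.ncard : ℕ) : ℝ) ≤ Real.exp (s * N) := by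
  classical
  intro s hs1
  obtain ⟨c, hc⟩ := UB_fb w hs H
  obtain ⟨c1, hms⟩ := msg w
  have hb : 0 < (s + s0) / 2 - s0 := by linarith
  have hε : 0 < (s - s0) / 2 := by linarith
  have e1 := coef_small hb c c1 (4 * k ^ 2)
  have e2 := rem_small hε c c1 (4 * k ^ 2) k
  obtain ⟨N0, hN0⟩ := eventually_atTop.1 (e1.and e2)
  refine ⟨N0, fun N hN => ?_⟩
  obtain ⟨g1, g2⟩ := hN0 N hN
  have hB : (1 : ℝ) ≤ ((N : ℝ) + 2) ^ c := by
    apply one_le_pow₀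
    have : (0 : ℝ) ≤ N := Nat.cast_nonneg _
    linarith
  have hrec := ana_rec (Orb w) (RB N) hs (show s0 < (s + s0) / 2 by linarith) c1 (4 * k ^ 2)
    (tn c1 N) N (((N : ℝ) + 2) ^ c) hB (hc N)
    (fun l hl hlN => hms (tn c1 N) N (by unfold tn; omega) l hl hlN)
  have hZ0 : 0 ≤ ZN (Orb w) N ((s + s0) / 2) := by
    unfold ZN
    exact Finset.sum_nonneg fun _ _ => (Real.exp_pos _).le
  have hZ : ZN (Orb w) N ((s + s0) / 2) ≤ Real.exp ((s - s0) / 2 * N) := by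
    have h1 := mul_le_mul_of_nonneg_left g1 hZ0
    linarith [hrec, h1, g2]
  have hlow : (({l | l ∈ Orb w ∧ l.length = N}.ncard : ℕ) : ℝ) *
      Real.exp (-((s + s0) / 2) * N) ≤ ZN (Orb w) N ((s + s0) / 2) := by
    have hfin : {l | l ∈ Orb w ∧ l.length = N}.Finite :=
      (len_finite (Orb w) N).subset fun l hl => ⟨hl.1, hl.2.le⟩
    rw [Set.ncard_eq_toFinset_card _ hfin, ← nsmul_eq_mul, ← Finset.sum_const]
    unfold ZN
    calc ∑ _l ∈ hfin.toFinset, Real.exp (-((s + s0) / 2) * N)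
        = ∑ l ∈ hfin.toFinset, Real.exp (-((s + s0) / 2) * l.length) := by
          refine Finset.sum_congr rfl fun l hl => ?_
          rw [(hfin.mem_toFinset.1 hl).2]
      _ ≤ ∑ l ∈ (len_finite (Orb w) N).toFinset, Real.exp (-((s + s0) / 2) * l.length) := by
          refine Finset.sum_le_sum_of_subset_of_nonneg ?_ fun _ _ _ => (Real.exp_pos _).le
          intro l hl
          rw [Set.Finite.mem_toFinset] at hl ⊢
          exact ⟨hl.1, hl.2.le⟩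
  have hexp : Real.exp (s * N) = Real.exp ((s - s0) / 2 * N) *
      Real.exp ((s + s0) / 2 * N) := by
    rw [← Real.exp_add]
    congr 1
    ring
  have hone : Real.exp (-((s + s0) / 2) * N) * Real.exp ((s + s0) / 2 * N) = 1 := by
    rw [← Real.exp_add]
    have : -((s + s0) / 2) * (N : ℝ) + (s + s0) / 2 * N = 0 := by ring
    rw [this, Real.exp_zero]
  calc (({l | l ∈ Orb w ∧ l.length = N}.ncard : ℕ) : ℝ)
      = (({l | l ∈ Orb w ∧ l.length = N}.ncard : ℕ) : ℝ) *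
          Real.exp (-((s + s0) / 2) * N) * Real.exp ((s + s0) / 2 * N) := by
        rw [mul_assoc, hone, mul_one]
    _ ≤ Real.exp ((s - s0) / 2 * N) * Real.exp ((s + s0) / 2 * N) :=
        mul_le_mul_of_nonneg_right (hlow.trans hZ) (Real.exp_pos _).le
    _ = Real.exp (s * N) := hexp.symm

end Pool.Agent.GRO
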