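import Pool.Agent.GRO.NIE3
import Pool.Agent.GRO.K2I
import Pool.Agent.GRO.GLU
import Pool.Agent.GRO.UB

/-!
# K2: rank two
* `Hyp w 0`: if `card Y = 2` then `Y` is everything and `K = ∅`, `cap l ∅ = 0`; otherwise
  `2 card Y - 1 ≤ 1`. So `growth ≤ 1` (`ub`, `growth_le`).
* If `w` is not conjugate to a power of `[x, y]` then `Orb w` is unbounded: otherwise `bounded_comm`
  gives `φ w = mk l` conjugate to `[x, y]^m`, so `w` is conjugate to `φ⁻¹ ([x, y]^m)`, which by
  `aut_comm` is conjugate to `[x, y]^{±m}`. `one_le_growth`.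
* If `w` is conjugate to `[x, y]^m` then every `l ∈ Orb w` is conjugate to `[x, y]^{±m}` (`aut_comm`), so
  its length is bounded (the cyclically reduced words of the two classes are rotations of two words;
  `conj_rot`). `growth_zero`.
-/

set_option autoImplicit false

namespace Pool.Agent.GRO

private theorem hyp_zero {w : FG 2} : Hyp w 0 := by
  intro l _ Y K hK hcap
  rw [zero_mul, Real.exp_zero]
  have hY : Y.card ≤ 2 := by
    have := Finset.card_le_univ Y
    simpa using this
  rcases Nat.lt_or_ge Y.card 2 with h | h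
  · have h1 : (Y.card : ℝ) ≤ 1 := by exact_mod_cast Nat.lt_succ_iff.mp h
    linarith
  · exfalso
    have hc : Y.card = Fintype.card (Fin 2) := by
      rw [Fintype.card_fin]; omega
    have hu : Y = Finset.univ := (Finset.card_eq_iff_eq_univ Y).mp hc
    have hKe : K = ∅ := by
      rw [Finset.eq_empty_iff_forall_notMem]
      intro p hp
      exact hK p hp (by rw [hu]; exact Finset.mem_univ _)
    rw [hKe] at hcap
    have h0 : cap l ∅ = 0 := by
      unfold cap
      rw [List.countP_eq_zero]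
      intro e _
      simp
    omega

theorem k2 {w : FG 2} (hw : w ≠ 1) :
    let x : FG 2 := FreeGroup.of 0
    let y : FG 2 := FreeGroup.of 1
    ((∃ (m : ℤ) (c : FG 2), w = c * (x * y * x⁻¹ * y⁻¹) ^ m * c⁻¹) →
      growth (cyclicWords w) = 0) ∧
    ((¬ ∃ (m : ℤ) (c : FG 2), w = c * (x * y * x⁻¹ * y⁻¹) ^ m * c⁻¹) →
      growth (cyclicWords w) = 1) := by
  intro x y
  have key : ∀ (w' : FG 2) (φ : MulAut (FG 2)) (m : ℤ), IsConj w' (φ ((x * y * x⁻¹ * y⁻¹) ^ m)) →
      IsConj w' ((x * y * x⁻¹ * y⁻¹) ^ m) ∨ IsConj w' ((x * y * x⁻¹ * y⁻¹) ^ (-m)) := by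
    intro w' φ m h
    rcases aut_comm φ m with h1 | h1
    · exact Or.inl (h.trans h1)
    · exact Or.inr (h.trans h1)
  constructor
  · rintro ⟨m, c, hm⟩
    have h1 : (x * y * x⁻¹ * y⁻¹) ^ m ≠ 1 := by
      intro h
      apply hw
      rw [hm, h]
      group
    have h2 : (x * y * x⁻¹ * y⁻¹) ^ (-m) ≠ 1 := by
      rw [zpow_neg]
      exact inv_ne_one.mpr h1
    obtain ⟨v1, hv1, hc1⟩ := exists_CR h1
    obtain ⟨v2, hv2, hc2⟩ := exists_CR h2
    apply growth_zero (B := max v1.length v2.length)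
    rintro l ⟨hl, φ, hφ⟩
    have h3 : IsConj (FreeGroup.mk l) (φ ((x * y * x⁻¹ * y⁻¹) ^ m)) := by
      rw [← hφ, hm, map_mul, map_mul, map_inv]
      exact (isConj_iff.mpr ⟨φ c, rfl⟩).symm
    rcases key _ φ m h3 with h4 | h4
    · have h5 := conj_rot hl hv1 (h4.trans hc1.symm)
      have h6 := h5.perm.length_eq
      omega
    · have h5 := conj_rot hl hv2 (h4.trans hc2.symm)
      have h6 := h5.perm.length_eq
      omega
  · intro hnot
    apply le_antisymm
    · have h1 := growth_le (ub le_rfl (hyp_zero (w := w)))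
      rwa [Real.exp_zero] at h1
    · apply one_le_growth
      intro B
      by_contra hcon
      push Not at hcon
      obtain ⟨l, ⟨hl, φ, hφ⟩, m, hm⟩ := bounded_comm hw hcon
      change IsConj (FreeGroup.mk l) ((x * y * x⁻¹ * y⁻¹) ^ m) at hm
      have h1 : IsConj w (φ⁻¹ ((x * y * x⁻¹ * y⁻¹) ^ m)) := by
        have h2 : w = φ⁻¹ (FreeGroup.mk l) := by
          rw [← hφ, ← MulAut.mul_apply, inv_mul_cancel, MulAut.one_apply]
        obtain ⟨c, hc⟩ := isConj_iff.mp hm
        rw [isConj_iff]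
        refine ⟨φ⁻¹ c, ?_⟩
        rw [← hc, h2]
        simp only [map_mul, map_inv]
      rcases key _ _ m h1 with h4 | h4
      · obtain ⟨c, hc⟩ := isConj_iff.mp h4.symm
        exact hnot ⟨m, c, hc.symm⟩
      · obtain ⟨c, hc⟩ := isConj_iff.mp h4.symm
        exact hnot ⟨-m, c, hc.symm⟩

end Pool.Agent.GRO
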