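import Pool.Agent.GRO.FML1

/-!
# PRIM: one occurrence means primitive; squares of generators
* `prim_of_one`: `l ∈ Orb w` with `cap l {(x, true)} = 1`: rotate so that `l = (x, b) :: u`, `u` a word in
  the other generators. The automorphism `gauH Y h`, `Y = univ \ {x}`, maps
  `mk l` to `lt (x, b)` for suitable `h` (`b = true`: `x ↦ x * u⁻¹`; `b = false`: `x ↦ u * x`). If
  `b = false` compose with `x ↦ x⁻¹`.
* `one_of_prim`: `w = φ (of i)`: `of i` is in the orbit of `w`, it is cyclically reduced with one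
  occurrence of `i`; `muC_indep`.
* `sq`: every element `g` of the orbit of `(of x)^2` is a square, so all exponent sums are even
  (homomorphism to `Multiplicative ℤ` or to `ZMod 2`), and the number of occurrences of `x` has the
  parity of the exponent sum. So `muC ≠ 1`; and `(of x)^2` has two occurrences.
-/

set_option autoImplicit false

namespace Pool.Agent.GRO

variable {k : ℕ}

private theorem PRIM_cons (a : Lt k) (t : List (Lt k)) :
    (FreeGroup.mk (a :: t) : FG k) = lt a * FreeGroup.mk t := by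
  unfold lt
  rw [FreeGroup.mul_mk]
  rfl

private theorem PRIM_mem {Y : Finset (Fin k)} (t : List (Lt k)) (h : ∀ a ∈ t, a.1 ∈ Y) :
    (FreeGroup.mk t : FG k) ∈ FY Y := by
  induction t with
  | nil => exact (FY Y).one_mem
  | cons a t ih =>
    rw [PRIM_cons]
    exact (FY Y).mul_mem (lt_mem_FY (h a (by simp))) (ih fun b hb => h b (by simp [hb]))

private theorem PRIM_flip (x : Fin k) :
    ∃ θ : MulAut (FG k), θ (FreeGroup.of x)⁻¹ = FreeGroup.of x := by
  let f : FG k →* FG k :=
    FreeGroup.lift fun y => if y = x then (FreeGroup.of x)⁻¹ else FreeGroup.of y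
  have hf : f.comp f = MonoidHom.id (FG k) := by
    ext y
    by_cases hy : y = x
    · subst hy
      simp [f]
    · simp [f, hy]
  refine ⟨MonoidHom.toMulEquiv f f hf hf, ?_⟩
  change f (FreeGroup.of x)⁻¹ = FreeGroup.of x
  simp [f]

private theorem PRIM_count {l : List (Lt k)} {x : Fin k}
    (h : (l.countP fun b => decide (b.1 = x)) = 1) :
    ∃ (l1 l2 : List (Lt k)) (b : Bool), l = l1 ++ (x, b) :: l2 ∧ ∀ a ∈ l2 ++ l1, a.1 ≠ x := by
  have hpos : 0 < l.countP fun b => decide (b.1 = x) := by omega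
  obtain ⟨a, ha, hax⟩ := List.countP_pos_iff.1 hpos
  have hax' : a.1 = x := of_decide_eq_true hax
  obtain ⟨l1, l2, rfl⟩ := List.append_of_mem ha
  rw [List.countP_append, List.countP_cons, if_pos hax] at h
  have h1 : (l1.countP fun b => decide (b.1 = x)) = 0 := by omega
  have h2 : (l2.countP fun b => decide (b.1 = x)) = 0 := by omega
  rw [List.countP_eq_zero] at h1 h2
  refine ⟨l1, l2, a.2, ?_, ?_⟩
  · rw [← hax']
  · intro c hc
    rcases List.mem_append.1 hc with hc | hc
    · intro e
      exact h2 c hc (decide_eq_true e)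
    · intro e
      exact h1 c hc (decide_eq_true e)

theorem prim_of_one {w : FG k} (hw : w ≠ 1) {x : Fin k} (h : muC x w = 1) : Prim w := by
  obtain ⟨-, l, hl, hc⟩ := muC_mem hw x
  rw [h, cap_singleton hl.1] at hc
  obtain ⟨l1, l2, b, rfl, hne⟩ := PRIM_count hc
  have hrot : (l1 ++ (x, b) :: l2) ~r ((x, b) :: l2 ++ l1) := List.isRotated_append
  obtain ⟨-, φ, hφ⟩ := orb_rot hrot hl
  set Y : Finset (Fin k) := Finset.univ.erase x with hY
  set u : FG k := FreeGroup.mk (l2 ++ l1) with hu
  have huY : u ∈ FY Y := PRIM_mem _ fun a ha => Finset.mem_erase.2 ⟨hne a ha, Finset.mem_univ _⟩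
  have e1 : (FreeGroup.mk ((x, b) :: l2 ++ l1) : FG k) = lt (x, b) * u := PRIM_cons (x, b) _
  have hx : (x, b).1 ∉ Y := by simp [hY]
  let g : Lt k → FG k := fun p => if p = bar (x, b) then u else 1
  have hg : ∀ p, g p ∈ FY Y := by
    intro p
    change (if p = bar (x, b) then u else 1) ∈ FY Y
    split_ifs
    · exact huY
    · exact (FY Y).one_mem
  obtain ⟨ψ, hψ⟩ := gau_aut Y g hg
  have g1 : g (x, b) = 1 := if_neg fun e => bar_ne (x, b) e.symm
  have g2 : g (bar (x, b)) = u := if_pos rfl
  have e2 : ψ (FreeGroup.mk ((x, b) :: l2 ++ l1)) = lt (x, b) := by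
    rw [hψ, e1, map_mul, gauH_lt Y g hx, gauH_FY Y g huY, g1, g2]
    group
  have e3 : ∃ θ : MulAut (FG k), θ (lt (x, b)) = FreeGroup.of x := by
    cases b with
    | true => exact ⟨1, rfl⟩
    | false =>
      obtain ⟨θ, hθ⟩ := PRIM_flip x
      refine ⟨θ, ?_⟩
      have : (lt (x, false) : FG k) = (FreeGroup.of x)⁻¹ := rfl
      rw [this]
      exact hθ
  obtain ⟨θ, hθ⟩ := e3
  refine ⟨(θ * ψ * φ)⁻¹, x, ?_⟩
  rw [MulAut.inv_apply, MulEquiv.symm_apply_eq]
  change FreeGroup.of x = θ (ψ (φ w))
  rw [hφ, e2, hθ]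

theorem one_of_prim {w : FG k} (h : Prim w) (x : Fin k) : muC x w = 1 := by
  obtain ⟨φ, i, rfl⟩ := h
  have hw : φ (FreeGroup.of i) ≠ 1 := by
    intro e
    have := φ.map_eq_one_iff.1 e
    exact FreeGroup.of_ne_one i this
  have hCR : CR ([(i, true)] : List (Lt k)) := by
    refine ⟨?_, by simp⟩
    simp [FreeGroup.isCyclicallyReduced_iff]
  have hl : ([(i, true)] : List (Lt k)) ∈ Orb (φ (FreeGroup.of i)) := by
    refine ⟨hCR, φ⁻¹, ?_⟩
    rw [MulAut.inv_apply, MulEquiv.symm_apply_apply]
    rfl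
  have hc : cap ([(i, true)] : List (Lt k)) {(i, true)} = 1 := by
    rw [cap_singleton hCR]
    simp
  have h1 := muC_le hl (i, true) (by omega)
  rw [hc] at h1
  have h2 := (muC_mem hw i).1
  rw [muC_indep hw x i]
  have h3 : muC i (φ (FreeGroup.of i)) ≤ 1 := h1
  omega

private theorem PRIM_par (x : Fin k) (l : List (Lt k)) :
    (FreeGroup.lift fun y : Fin k =>
      if y = x then Multiplicative.ofAdd (1 : ZMod 2) else 1) (FreeGroup.mk l) =
      Multiplicative.ofAdd (((l.countP fun b => decide (b.1 = x)) : ℕ) : ZMod 2) := by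
  induction l with
  | nil =>
    simp only [List.countP_nil, Nat.cast_zero, ofAdd_zero]
    exact map_one _
  | cons a t ih =>
    rw [PRIM_cons, map_mul, ih, List.countP_cons]
    obtain ⟨y, b⟩ := a
    have e : (FreeGroup.lift fun y : Fin k =>
        if y = x then Multiplicative.ofAdd (1 : ZMod 2) else 1) (lt (y, b)) =
        Multiplicative.ofAdd (if decide (y = x) = true then (1 : ZMod 2) else 0) := by
      unfold lt
      rw [FreeGroup.lift_mk]
      by_cases hy : y = x
      · cases b
        · simp only [List.map_cons, List.map_nil, List.prod_cons, List.prod_nil, mul_one, hy,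
            if_true, decide_true, cond_false]
          rw [← ofAdd_neg]
          congr 1
        · simp [hy]
      · cases b <;> simp [hy]
    rw [e, ← ofAdd_add]
    congr 1
    push_cast
    simp only [decide_eq_true_eq]
    split_ifs <;> ring

theorem sq (x y : Fin k) : muC y (FreeGroup.of x ^ 2) = 2 ∧ ¬ Prim (FreeGroup.of x ^ 2) := by
  have hw : (FreeGroup.of x ^ 2 : FG k) ≠ 1 := by
    intro e
    have h1 := congrArg FreeGroup.norm e
    rw [FreeGroup.norm_of_pow, FreeGroup.norm_one] at h1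
    omega
  have hCR : CR ([(x, true), (x, true)] : List (Lt k)) := by
    refine ⟨?_, by simp⟩
    simp [FreeGroup.isCyclicallyReduced_iff]
  have hl : ([(x, true), (x, true)] : List (Lt k)) ∈ Orb (FreeGroup.of x ^ 2) := by
    refine ⟨hCR, 1, ?_⟩
    rfl
  have hc : cap ([(x, true), (x, true)] : List (Lt k)) {(x, true)} = 2 := by
    rw [cap_singleton hCR]
    simp
  have h1 := muC_le hl (x, true) (by omega)
  rw [hc] at h1
  have h1' : muC x (FreeGroup.of x ^ 2) ≤ 2 := h1
  obtain ⟨h2, l, hlO, hcl⟩ := muC_mem hw x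
  have h3 : muC x (FreeGroup.of x ^ 2) ≠ 1 := by
    intro e
    rw [e, cap_singleton hlO.1] at hcl
    obtain ⟨hCRl, φ, hφ⟩ := hlO
    have hp := PRIM_par x l
    rw [← hφ, hcl, map_pow, map_pow] at hp
    have h4 : ∀ z : Multiplicative (ZMod 2), z ^ 2 = 1 := by decide
    rw [h4] at hp
    have h5 : (1 : Multiplicative (ZMod 2)) ≠ Multiplicative.ofAdd (((1 : ℕ)) : ZMod 2) := by
      decide
    exact h5 hp
  have h4 : muC y (FreeGroup.of x ^ 2) = 2 := by
    rw [muC_indep hw y x]
    omega
  refine ⟨h4, fun hP => ?_⟩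
  have := one_of_prim hP y
  omega

end Pool.Agent.GRO
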