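import Pool.Agent.GRO.FML
import Pool.Agent.GRO.PRIM
import Pool.Agent.GRO.K2

/-!
# FIN: the largest growth
`3 ≤ k`. Let `x` be a generator, `e = (2k-3)^(1/muC x w)`, `f_r = (2r-1)^(1/sgm r w)`; the growth is the
greatest element of `FSet x w` (`formula`), `muC ≥ 1`, `sgm ≥ 2` (`sgm_mem`, `sgm_ne_one`).
* `w` primitive: `muC = 1`, `e = 2k - 3`, `f_r ≤ 2r - 1 ≤ 2k - 3`.
* Otherwise `muC ≥ 2` (`prim_of_one`), all elements are `≤ (2k-3)^(1/2)`; the growth is one of the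
  elements; if it is `(2k-3)^(1/2)` then `muC = 2` (as `2k - 3 > 1`) or `f_r = (2k-3)^(1/2)`, where
  `f_r ≤ (2r-1)^(1/2)` forces `r = k - 1` and `sgm = 2`.
* `ex_max`: `w = (of x)^2`, `sq`.
-/

set_option autoImplicit false

namespace Pool.Agent.GRO

variable {k : ℕ}

private theorem fin_r {w : FG k} (hw : w ≠ 1) {r : ℕ} (h1 : 1 ≤ r) (h2 : r + 1 ≤ k) :
    2 ≤ sgm r w ∧ (1 : ℝ) ≤ 2 * (r : ℝ) - 1 ∧ 2 * (r : ℝ) - 1 ≤ 2 * (k : ℝ) - 3 := by
  have h3 := (sgm_mem hw h1 h2).1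
  have h4 := sgm_ne_one r w
  have h5 : (1 : ℝ) ≤ r := by exact_mod_cast h1
  have h6 : (r : ℝ) + 1 ≤ k := by exact_mod_cast h2
  exact ⟨by omega, by linarith, by linarith⟩

private theorem fin_exp {n : ℕ} (hn : 2 ≤ n) : (1 : ℝ) / n ≤ 1 / 2 := by
  have : (2 : ℝ) ≤ n := by exact_mod_cast hn
  exact one_div_le_one_div_of_le (by norm_num) this

private theorem fin_exp_lt {n : ℕ} (hn : 2 < n) : (1 : ℝ) / n < 1 / 2 := by
  have : (2 : ℝ) < n := by exact_mod_cast hn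
  exact one_div_lt_one_div_of_lt (by norm_num) this

theorem fin_prim (hk : 3 ≤ k) {w : FG k} (h : Prim w) :
    growth (cyclicWords w) = 2 * (k : ℝ) - 3 := by
  obtain ⟨φ, i, hφ⟩ := id h
  have hw : w ≠ 1 := by
    rintro rfl
    have : FreeGroup.of i = (1 : FG k) := by
      apply φ.injective
      rw [hφ, map_one]
    exact FreeGroup.of_ne_one i this
  have hG := formula hk hw i
  have hm := one_of_prim h i
  have hk' : (3 : ℝ) ≤ k := by exact_mod_cast hk
  have h1 : (2 * (k : ℝ) - 3) ^ (1 / (muC i w : ℝ)) = 2 * (k : ℝ) - 3 := by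
    rw [hm, Nat.cast_one, div_one, Real.rpow_one]
  refine le_antisymm ?_ ?_
  · rcases hG.1 with e | ⟨r, hr1, hr2, e⟩
    · rw [e, h1]
    · obtain ⟨h3, h4, h5⟩ := fin_r hw hr1 hr2
      rw [e]
      calc (2 * (r : ℝ) - 1) ^ (1 / (sgm r w : ℝ)) ≤ (2 * (r : ℝ) - 1) ^ (1 : ℝ) := by
            apply Real.rpow_le_rpow_of_exponent_le h4
            exact (fin_exp h3).trans (by norm_num)
        _ = 2 * (r : ℝ) - 1 := Real.rpow_one _
        _ ≤ _ := h5
  · have := hG.2 (Or.inl rfl)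
    rwa [h1] at this

theorem fin_second (hk : 3 ≤ k) {w : FG k} (hw : w ≠ 1) (h : ¬ Prim w) (x : Fin k) :
    growth (cyclicWords w) ≤ Real.sqrt (2 * k - 3) ∧
      (growth (cyclicWords w) = Real.sqrt (2 * k - 3) ↔ muC x w = 2 ∨ sgm (k - 1) w = 2) := by
  have hG := formula hk hw x
  have hk' : (3 : ℝ) ≤ k := by exact_mod_cast hk
  have hb : (1 : ℝ) < 2 * (k : ℝ) - 3 := by linarith
  have hm : 2 ≤ muC x w := by
    have h1 := (muC_mem hw x).1
    have h2 : muC x w ≠ 1 := fun e => h (prim_of_one hw e)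
    omega
  have key : ∀ z ∈ FSet x w, z ≤ Real.sqrt (2 * k - 3) ∧
      (z = Real.sqrt (2 * k - 3) → muC x w = 2 ∨ sgm (k - 1) w = 2) := by
    rintro z (rfl | ⟨r, hr1, hr2, rfl⟩)
    · rw [Real.sqrt_eq_rpow]
      refine ⟨Real.rpow_le_rpow_of_exponent_le hb.le (fin_exp hm), fun e => Or.inl ?_⟩
      by_contra hne
      have := Real.rpow_lt_rpow_of_exponent_lt hb
        (fin_exp_lt (lt_of_le_of_ne hm (Ne.symm hne)))
      exact absurd e this.ne
    · obtain ⟨h3, h4, h5⟩ := fin_r hw hr1 hr2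
      rw [Real.sqrt_eq_rpow]
      have h6 : (2 * (r : ℝ) - 1) ^ (1 / (sgm r w : ℝ)) ≤ (2 * (r : ℝ) - 1) ^ (1 / 2 : ℝ) :=
        Real.rpow_le_rpow_of_exponent_le h4 (fin_exp h3)
      refine ⟨h6.trans (Real.rpow_le_rpow (by linarith) h5 (by norm_num)), fun e => Or.inr ?_⟩
      have hr : r = k - 1 := by
        by_contra hne
        have h7 : r + 1 < k := by omega
        have h8 : (r : ℝ) + 1 < k := by exact_mod_cast h7
        have h9 : (2 * (r : ℝ) - 1) ^ (1 / 2 : ℝ) < (2 * (k : ℝ) - 3) ^ (1 / 2 : ℝ) :=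
          Real.rpow_lt_rpow (by linarith) (by linarith) (by norm_num)
        exact absurd e (h6.trans_lt h9).ne
      subst hr
      have h10 : 2 * ((k - 1 : ℕ) : ℝ) - 1 = 2 * (k : ℝ) - 3 := by
        rw [Nat.cast_sub (by omega)]
        push_cast
        ring
      by_contra hne
      rw [h10] at e
      have := Real.rpow_lt_rpow_of_exponent_lt hb
        (fin_exp_lt (lt_of_le_of_ne h3 (Ne.symm hne)))
      exact absurd e this.ne
  refine ⟨(key _ hG.1).1, (key _ hG.1).2, ?_⟩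
  intro hor
  refine le_antisymm (key _ hG.1).1 ?_
  rcases hor with e | e
  · have := hG.2 (Or.inl rfl)
    rw [e] at this
    rw [Real.sqrt_eq_rpow]
    exact_mod_cast this
  · have := hG.2 (Or.inr ⟨k - 1, by omega, by omega, rfl⟩)
    rw [e] at this
    have h10 : 2 * ((k - 1 : ℕ) : ℝ) - 1 = 2 * (k : ℝ) - 3 := by
      rw [Nat.cast_sub (by omega)]
      push_cast
      ring
    rw [h10] at this
    rw [Real.sqrt_eq_rpow]
    exact_mod_cast this

theorem ex_max (hk : 3 ≤ k) (x : Fin k) :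
    ¬ Prim (FreeGroup.of x ^ 2 : FG k) ∧
      growth (cyclicWords (FreeGroup.of x ^ 2 : FG k)) = Real.sqrt (2 * k - 3) := by
  have hs := sq x x
  have hw : (FreeGroup.of x ^ 2 : FG k) ≠ 1 := by
    intro e
    have h1 := congrArg (FreeGroup.lift (fun _ : Fin k => Multiplicative.ofAdd (1 : ℤ))) e
    rw [MonoidHom.map_pow, FreeGroup.lift_apply_of, MonoidHom.map_one] at h1
    exact absurd h1 (by decide)
  exact ⟨hs.2, (fin_second hk hw hs.2 x).2.2 (Or.inl hs.1)⟩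

end Pool.Agent.GRO
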