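import Pool.Agent.GRO.LOW1
import Pool.Agent.GRO.GLU
import Pool.Agent.GRO.REL2
import Pool.Agent.GRO.CNTF

/-!
# LOW: the lower bound
`0 < cap l K` and `K` outside `Y` show that `l` has a letter outside `Y` (an end in `K` of a cut edge),
so `l ~r wrd s g` (`exists_rel`), `cap` is the same. With `c, c'` from `push_inj` and `H` from
`cntLow` (`b = 2 card Y - 1 ≥ 3`): `h ↦ wrd s (gg s g (onK K h))` is injective on `H`
(`wrd_unique`, `gg_val`), its values are in `Orb w` (`gg_conj`, `orb_gau`, `onK_mem`) and have length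
`≤ (|l| + cap l K) + cap l K * n` (`push_length`). Apply `le_growth`.
-/

set_option autoImplicit false

namespace Pool.Agent.GRO

variable {k : ℕ}

theorem low {w : FG k} {l : List (Lt k)} (hl : l ∈ Orb w) {Y : Finset (Fin k)}
    {K : Finset (Lt k)} (hK : ∀ p ∈ K, p.1 ∉ Y) (hc : 0 < cap l K) (hY : 2 ≤ Y.card) :
    (2 * (Y.card : ℝ) - 1) ^ (1 / (cap l K : ℝ)) ≤ growth (cyclicWords w) := by
  classical
  have hex : ∃ a ∈ l, a.1 ∉ Y := by
    obtain ⟨x, y, hA, hx, _⟩ := (cap_pos_iff l K).1 hc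
    rcases hA with h | h
    · exact ⟨bar x, (edg_used _ h).1, hK x hx⟩
    · exact ⟨x, (edg_used _ h).2, hK x hx⟩
  obtain ⟨m, hm, s, g, hv, hrot⟩ := exists_rel Y hl.1 hex
  have hcap : cap (wrd s g) K = cap l K := (cap_rot hrot K).symm
  have hlen : (wrd s g).length = l.length := hrot.perm.length_eq.symm
  obtain ⟨c, c', hcc⟩ := push_inj hv hK (by rw [hcap]; exact hc)
  have hcast : ((2 * Y.card - 1 : ℕ) : ℝ) = 2 * (Y.card : ℝ) - 1 := by
    rw [Nat.cast_sub (by omega)]
    push_cast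
    ring
  rw [← hcast]
  refine le_growth (L := l.length + cap l K) hc (by omega) ?_
  intro n
  obtain ⟨H, hcard, hH⟩ := cntLow Y hY c c' n
  rw [← hcard, ← Set.ncard_coe_finset]
  refine Set.ncard_le_ncard_of_injOn (fun h => wrd s (gg s g (onK K h))) ?_ ?_
    (len_finite (Orb w) _)
  · intro h hh
    obtain ⟨h1, h2, _, _⟩ := hH h (Finset.mem_coe.1 hh)
    have hv' : Val Y s (gg s g (onK K h)) := gg_val hv (fun p => onK_mem K h1 p)
    refine ⟨orb_gau hl (wrd_CR hv') Y (onK K h) (fun p => onK_mem K h1 p)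
      (gg_conj_rot hv (fun p => onK_mem K h1 p) hrot), ?_⟩
    refine (push_length hv hK h).trans ?_
    rw [hcap, hlen, h2]
    apply le_of_eq
    ring
  · intro h hh h' hh' he
    obtain ⟨h1, h2, h3, h4⟩ := hH h (Finset.mem_coe.1 hh)
    obtain ⟨h1', h2', h3', h4'⟩ := hH h' (Finset.mem_coe.1 hh')
    have hv1 : Val Y s (gg s g (onK K h)) := gg_val hv (fun p => onK_mem K h1 p)
    have hv2 : Val Y s (gg s g (onK K h')) := gg_val hv (fun p => onK_mem K h1' p)
    obtain ⟨e, _, h5⟩ := wrd_unique hv1.hs hv1.hg hv2.hs hv2.hg he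
    refine hcc h h' (by rw [h2, h2']) h3 h4 h3' h4' ?_
    funext i
    have h6 := h5 i
    simpa using h6

end Pool.Agent.GRO
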