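import Pool.Agent.GRO.FML1
import Pool.Agent.GRO.LOW
import Pool.Agent.GRO.UB

/-!
# FML: the formula
* `low_all`: every element of `FSet` is `≤ growth`: for `muC`: `muC_mem`, `low` with
  `Y = univ \ {x}` (`card = k - 1 ≥ 2`), `K = {(x, true)}`; for `sgm`: `sgm_mem`, if `r ≥ 2` `low` with
  `Y = A`, `K` = the letters over `Aᶜ` (same capacity, `cap_compl`); if `r = 1` the number is `1`, which
  is `≤ (2k-3)^(1/muC) ≤ growth`.
* `hyp_of`: let `e` be an upper bound of `FSet`, `1 ≤ e` (for example because `(2k-3)^(1/muC) ≥ 1`). For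
  `l ∈ Orb w`, `Y`, `K` as in `Hyp`, `c = cap l K > 0`, show `2 card Y - 1 ≤ e ^ c`. If there is
  `z ∈ K` with `bar z ∉ K`: `wh_move` with `(K, z)` gives `v ∈ Orb w` with `cap v {z} = c`, so
  `muC x w = muC z.1 w ≤ c` and `2 card Y - 1 ≤ 2 k - 3 = ((2k-3)^(1/muC))^muC ≤ e^muC ≤ e^c`
  (`z.1 ∉ Y`, so `card Y ≤ k - 1`). Otherwise `K` is the set of all letters over a set `A'` of
  generators, `A = A'ᶜ ⊇ Y`, `1 ≤ card A ≤ k - 1` (`K` is neither empty nor everything because
  `cap l K > 0`), `sgm (card A) w ≤ cap l (letters over A) = c` (`cap_compl`), and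
  `2 card Y - 1 ≤ 2 r - 1 ≤ e^(sgm r) ≤ e^c`, `r = card A`.
* `formula`: the finite nonempty set `FSet` has a greatest element `e`; `hyp_of` and `ub` with
  `s0 = log e`, `growth_le`: `growth ≤ e`; `low_all`: `e ≤ growth`.
-/

set_option autoImplicit false

namespace Pool.Agent.GRO

variable {k : ℕ}

/-- The set of numbers whose maximum is the growth. -/
def FSet (x : Fin k) (w : FG k) : Set ℝ :=
  {z | z = (2 * (k : ℝ) - 3) ^ (1 / (muC x w : ℝ)) ∨
    ∃ r : ℕ, 1 ≤ r ∧ r + 1 ≤ k ∧ z = (2 * (r : ℝ) - 1) ^ (1 / (sgm r w : ℝ))}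

private theorem FML_root_le {a e : ℝ} {m c : ℕ} (ha : 0 ≤ a) (he : 1 ≤ e) (hm : 0 < m)
    (hmc : m ≤ c) (h : a ^ (1 / (m : ℝ)) ≤ e) : a ≤ e ^ c := by
  have h1 : a = (a ^ (1 / (m : ℝ))) ^ m := by
    rw [← Real.rpow_natCast, ← Real.rpow_mul ha]
    have : (1 / (m : ℝ)) * (m : ℝ) = 1 := by
      field_simp
    rw [this, Real.rpow_one]
  calc a = (a ^ (1 / (m : ℝ))) ^ m := h1
    _ ≤ e ^ m := pow_le_pow_left₀ (Real.rpow_nonneg ha _) h m
    _ ≤ e ^ c := pow_le_pow_right₀ he hmc

private theorem FML_one_le (hk : 3 ≤ k) (m : ℕ) :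
    (1 : ℝ) ≤ (2 * (k : ℝ) - 3) ^ (1 / (m : ℝ)) := by
  have h3 : (3 : ℝ) ≤ k := by exact_mod_cast hk
  apply Real.one_le_rpow
  · linarith
  · positivity

private theorem FML_low_mu (hk : 3 ≤ k) {w : FG k} (hw : w ≠ 1) (x : Fin k) :
    (2 * (k : ℝ) - 3) ^ (1 / (muC x w : ℝ)) ≤ growth (cyclicWords w) := by
  obtain ⟨hpos, l, hl, hcap⟩ := muC_mem hw x
  have hcard : (Finset.univ.erase x : Finset (Fin k)).card = k - 1 := by
    rw [Finset.card_erase_of_mem (Finset.mem_univ _), Finset.card_univ, Fintype.card_fin]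
  have h := low (w := w) hl (Y := Finset.univ.erase x) (K := {(x, true)})
    (by
      intro p hp
      rw [Finset.mem_singleton] at hp
      subst hp
      simp)
    (by rw [hcap]; exact hpos) (by rw [hcard]; omega)
  rw [hcard, hcap] at h
  have h2 : (2 * ((k - 1 : ℕ) : ℝ) - 1) = 2 * (k : ℝ) - 3 := by
    rw [Nat.cast_sub (by omega)]
    push_cast
    ring
  rw [h2] at h
  exact h

theorem low_all (hk : 3 ≤ k) {w : FG k} (hw : w ≠ 1) (x : Fin k) :
    ∀ z ∈ FSet x w, z ≤ growth (cyclicWords w) := by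
  intro z hz
  rcases hz with rfl | ⟨r, h1, h2, rfl⟩
  · exact FML_low_mu hk hw x
  · rcases Nat.lt_or_ge r 2 with hr | hr
    · have hr1 : r = 1 := by omega
      subst hr1
      have : (2 * ((1 : ℕ) : ℝ) - 1) ^ (1 / (sgm 1 w : ℝ)) = 1 := by
        have h0 : (2 * ((1 : ℕ) : ℝ) - 1) = 1 := by norm_num
        rw [h0, Real.one_rpow]
      rw [this]
      exact le_trans (FML_one_le hk _) (FML_low_mu hk hw x)
    · obtain ⟨hpos, l, hl, A, hA, hcap⟩ := sgm_mem hw h1 h2
      have hK : cap l (Finset.univ.filter fun p : Lt k => p.1 ∈ A)ᶜ = sgm r w := by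
        rw [cap_compl, hcap]
      have h := low (w := w) hl (Y := A)
        (K := (Finset.univ.filter fun p : Lt k => p.1 ∈ A)ᶜ)
        (by
          intro p hp
          simpa using hp)
        (by rw [hK]; exact hpos) (by rw [hA]; exact hr)
      rw [hA, hK] at h
      exact h

theorem hyp_of (hk : 3 ≤ k) {w : FG k} (hw : w ≠ 1) (x : Fin k) {e : ℝ} (he : 1 ≤ e)
    (H : ∀ z ∈ FSet x w, z ≤ e) : Hyp w (Real.log e) := by
  intro l hl Y K hKY hc
  have hexp : Real.exp (Real.log e * (cap l K : ℝ)) = e ^ (cap l K) := by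
    rw [mul_comm, Real.exp_nat_mul, Real.exp_log (by linarith)]
  rw [hexp]
  by_cases hz : ∃ z ∈ K, bar z ∉ K
  · obtain ⟨z, hzK, hzb⟩ := hz
    obtain ⟨v, hv, hconj, -, hcapv, -⟩ := wh_move hl.1 hzK hzb
    have hvO : v ∈ Orb w := orb_wh hl hv hconj
    have hmu := muC_le hvO z (by rw [hcapv]; exact hc)
    rw [hcapv] at hmu
    rw [← muC_indep hw x z.1] at hmu
    have hpos := (muC_mem hw x).1
    have hYc : Y.card ≤ k - 1 := by
      have hsub : Y ⊆ Finset.univ.erase z.1 := by
        intro y hy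
        rw [Finset.mem_erase]
        refine ⟨?_, Finset.mem_univ _⟩
        rintro rfl
        exact hKY z hzK hy
      have := Finset.card_le_card hsub
      rwa [Finset.card_erase_of_mem (Finset.mem_univ _), Finset.card_univ,
        Fintype.card_fin] at this
    have h3 : (3 : ℝ) ≤ k := by exact_mod_cast hk
    have hYr : (Y.card : ℝ) ≤ (k : ℝ) - 1 := by
      have : Y.card + 1 ≤ k := by omega
      have h' : ((Y.card + 1 : ℕ) : ℝ) ≤ (k : ℝ) := by exact_mod_cast this
      push_cast at h'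
      linarith
    have hroot := FML_root_le (a := 2 * (k : ℝ) - 3) (by linarith) he hpos hmu
      (H _ (Or.inl rfl))
    linarith
  · push Not at hz
    set A : Finset (Fin k) := Finset.univ.filter fun i => (i, true) ∉ K with hAdef
    have hbarmem : ∀ p : Lt k, bar p ∈ K ↔ p ∈ K := by
      intro p
      constructor
      · intro hp
        have := hz _ hp
        rwa [bar_bar] at this
      · intro hp
        exact hz _ hp
    have hmemA : ∀ p : Lt k, p.1 ∈ A ↔ p ∉ K := by
      rintro ⟨i, b⟩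
      rw [hAdef]
      simp only [Finset.mem_filter, Finset.mem_univ, true_and]
      cases b with
      | true => exact Iff.rfl
      | false =>
        have := hbarmem (i, true)
        have hb : bar ((i, true) : Lt k) = (i, false) := rfl
        rw [hb] at this
        rw [this]
    have hfil : (Finset.univ.filter fun p : Lt k => p.1 ∈ A) = Kᶜ := by
      ext p
      rw [Finset.mem_compl, ← hmemA p]
      simp
    have hcapA : cap l (Finset.univ.filter fun p : Lt k => p.1 ∈ A) = cap l K := by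
      rw [hfil, cap_compl]
    obtain ⟨a, b, -, haK, hbK⟩ := (cap_pos_iff l K).1 hc
    have hA1 : 1 ≤ A.card := by
      apply Finset.card_pos.2
      exact ⟨b.1, (hmemA b).2 hbK⟩
    have hA2 : A.card + 1 ≤ k := by
      have haA : a.1 ∉ A := by
        rw [hmemA a]
        simpa using haK
      have := Finset.card_lt_univ_of_notMem haA
      rw [Fintype.card_fin] at this
      omega
    have hsg := sgm_le hl A (by rw [hcapA]; exact hc)
    rw [hcapA] at hsg
    have hpos := (sgm_mem hw hA1 hA2).1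
    have hYA : Y.card ≤ A.card := by
      apply Finset.card_le_card
      intro y hy
      rw [hAdef]
      simp only [Finset.mem_filter, Finset.mem_univ, true_and]
      intro hyK
      exact hKY _ hyK hy
    have hYr : (Y.card : ℝ) ≤ (A.card : ℝ) := by exact_mod_cast hYA
    have hAr : (1 : ℝ) ≤ (A.card : ℝ) := by exact_mod_cast hA1
    have hroot := FML_root_le (a := 2 * (A.card : ℝ) - 1) (by linarith) he hpos hsg
      (H _ (Or.inr ⟨A.card, hA1, hA2, rfl⟩))
    linarith

private theorem FML_finite (x : Fin k) (w : FG k) : (FSet x w).Finite := by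
  have h : FSet x w ⊆ {(2 * (k : ℝ) - 3) ^ (1 / (muC x w : ℝ))} ∪
      ((fun r : ℕ => (2 * (r : ℝ) - 1) ^ (1 / (sgm r w : ℝ))) '' (Set.Iic k)) := by
    rintro z (rfl | ⟨r, h1, h2, rfl⟩)
    · exact Or.inl rfl
    · exact Or.inr ⟨r, by simp only [Set.mem_Iic]; omega, rfl⟩
  exact ((Set.finite_singleton _).union ((Set.finite_Iic k).image _)).subset h

theorem formula (hk : 3 ≤ k) {w : FG k} (hw : w ≠ 1) (x : Fin k) :
    IsGreatest (FSet x w) (growth (cyclicWords w)) := by
  have hne : (FSet x w).Nonempty := ⟨_, Or.inl rfl⟩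
  obtain ⟨e, heF, hmax⟩ := Set.exists_max_image (FSet x w) id (FML_finite x w) hne
  have hle : ∀ z ∈ FSet x w, z ≤ e := fun z hz => hmax z hz
  have he1 : 1 ≤ e := le_trans (FML_one_le hk _) (hle _ (Or.inl rfl))
  have hlog : 0 ≤ Real.log e := Real.log_nonneg he1
  have hup : growth (cyclicWords w) ≤ e := by
    have := growth_le (ub hlog (hyp_of hk hw x he1 hle))
    rwa [Real.exp_log (by linarith)] at this
  have hlo : e ≤ growth (cyclicWords w) := low_all hk hw x e heF
  have heq : growth (cyclicWords w) = e := le_antisymm hup hlo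
  rw [heq]
  exact ⟨heF, fun z hz => hle z hz⟩

end Pool.Agent.GRO
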