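import Pool.Agent.GRO.WH1
import Pool.Agent.GRO.REL2
import Pool.Agent.GRO.REL3
import Pool.Agent.GRO.CUT
import Pool.Agent.GRO.CONJ

/-!
# WH: Whitehead moves and capacities
Let `Y = {a.1}`.
* If all letters of `l` are `a` or `bar a`, then (CR) `l = replicate n a` or `replicate n (bar a)`;
  take `v = l` (`whH S a` fixes `lt a`, because `a.1 ∈ {a.1}`). All edges are `(bar a, a)` resp.
  `(a, bar a)`; they are cut by `S` and by `{a}` and are transitions.
* Otherwise `l ~r wrd s g` with `Val {a.1} s g` (`exists_rel`), `g i = lt a ^ (n i)` (`FY_single`),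
  `v = wrd s (gg s g (onK S (lt a)))`: the new exponents are `n i - [bar (s i) ∈ S] + [s (i+1) ∈ S]`.
  Compare passage by passage with `wrd_countP`, `wrd_length`, `pass_cap`, `pass_single`,
  `pass_tran`: length: `m + Σ |n' i| = m + cap l S` and `l.length = m + cap l {a}`.
  `cap v {a} = Σ |n' i| = cap l S`. For `tran`, with `S` saturated: if `n = 0 ≠ n'` then exactly one
  of `p, q` is in `S`, so `¬ C p q`, and the count goes from `1` to `2`; symmetric if `n ≠ 0 = n'`;
  otherwise clear.
-/

set_option autoImplicit false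

namespace Pool.Agent.GRO

variable {k : ℕ}

private theorem WH_two {a b : Lt k} (h : b.1 = a.1) : b = a ∨ b = bar a := by
  obtain ⟨x, i⟩ := a
  obtain ⟨y, j⟩ := b
  simp only at h
  subst h
  cases i <;> cases j <;> simp [bar]

private theorem WH_onK (S : Finset (Lt k)) (a p : Lt k) :
    onK S (lt a) p = lt a ^ ((if p ∈ S then 1 else 0 : ℤ)) := by
  unfold onK
  by_cases h : p ∈ S
  · rw [if_pos h, if_pos h, zpow_one]
  · rw [if_neg h, if_neg h, zpow_zero]

theorem wh_move {l : List (Lt k)} (hl : CR l) {S : Finset (Lt k)} {a : Lt k} (ha : a ∈ S)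
    (hb : bar a ∉ S) :
    ∃ v, CR v ∧ IsConj (FreeGroup.mk v) (whH S a (FreeGroup.mk l)) ∧
      v.length + cap l {a} = l.length + cap l S ∧ cap v {a} = cap l S ∧
      ∀ C : Lt k → Lt k → Prop, Equivalence C → (∀ x y, C x y → (x ∈ S ↔ y ∈ S)) →
        (∀ x, C a x → x = a) → (∀ x, C (bar a) x → x = bar a) →
        tran C v + cap l {a} = tran C l + cap l S := by
  by_cases hall : ∀ b ∈ l, b.1 = a.1
  · -- only letters `a`, `bar a`
    have hcap : cap l {a} = cap l S := by
      unfold cap
      apply List.countP_congr
      intro e he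
      obtain ⟨h1, h2⟩ := edg_used e he
      have h3 := edg_ne hl e he
      have h4 : e.1.1 = a.1 := hall (bar e.1) h1
      have h5 : e.2.1 = a.1 := hall _ h2
      have hba : bar a ≠ a := bar_ne a
      rcases WH_two h4 with h6 | h6 <;> rcases WH_two h5 with h7 | h7
      · exact absurd (h6.trans h7.symm) h3
      · rw [h6, h7]
        simp [ha, hb, hba]
      · rw [h6, h7]
        simp [ha, hb, hba]
      · exact absurd (h6.trans h7.symm) h3
    refine ⟨l, hl, ?_, by rw [hcap], hcap, ?_⟩
    · have h1 : (FreeGroup.mk l : FG k) ∈ FY {a.1} := by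
        rw [mem_FY, CR_toWord hl]
        intro b hb'
        rw [Finset.mem_singleton]
        exact hall b hb'
      unfold whH
      rw [gauH_FY _ _ h1]
    · intro C _ _ _ _
      rw [hcap]
  · push Not at hall
    have hex : ∃ b ∈ l, b.1 ∉ ({a.1} : Finset (Fin k)) := by
      obtain ⟨b, hb1, hb2⟩ := hall
      exact ⟨b, hb1, by rwa [Finset.mem_singleton]⟩
    obtain ⟨m, hm, s, g, hV, hrot⟩ := exists_rel {a.1} hl hex
    have hh : ∀ p, onK S (lt a) p ∈ FY {a.1} :=
      onK_mem S (lt_mem_FY (Finset.mem_singleton_self a.1))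
    have hV' := gg_val hV hh
    have hgi : ∀ i, ∃ n : ℤ, g i = lt a ^ n := fun i => FY_single (hV.hg i)
    choose n hn using hgi
    let n' : Fin m → ℤ := fun i =>
      n i - (if bar (s i) ∈ S then 1 else 0) + (if s (i + 1) ∈ S then 1 else 0)
    have hn' : ∀ i, gg s g (onK S (lt a)) i = lt a ^ (n' i) := by
      intro i
      unfold gg
      rw [WH_onK, WH_onK, hn i, ← zpow_neg, ← zpow_add, ← zpow_add]
      congr 1
      show _ = n i - _ + _
      ring
    have hp : ∀ i, (bar (s i)).1 ≠ a.1 := by
      intro i h
      apply hV.hs i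
      rw [Finset.mem_singleton]
      exact h
    have hq : ∀ i, (s (i + 1)).1 ≠ a.1 := by
      intro i h
      apply hV.hs (i + 1)
      rw [Finset.mem_singleton]
      exact h
    have hlen : l.length = m + ∑ i, (n i).natAbs := by
      rw [hrot.perm.length_eq, wrd_length]
      congr 1
      apply Finset.sum_congr rfl
      intro i _
      rw [hn i, norm_lt_zpow]
    have hlen' : (wrd s (gg s g (onK S (lt a)))).length = m + ∑ i, (n' i).natAbs := by
      rw [wrd_length]
      congr 1
      apply Finset.sum_congr rfl
      intro i _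
      rw [hn' i, norm_lt_zpow]
    have hcapS : cap l S = ∑ i, (n' i).natAbs := by
      rw [cap_rot hrot]
      unfold cap
      rw [wrd_countP]
      apply Finset.sum_congr rfl
      intro i _
      rw [hn i, pass_cap ha hb (hp i) (hq i)]
    have hcapa : cap l {a} = ∑ i, (n i).natAbs := by
      rw [cap_rot hrot]
      unfold cap
      rw [wrd_countP]
      apply Finset.sum_congr rfl
      intro i _
      rw [hn i, pass_single (hp i) (hq i)]
    have hcapv : cap (wrd s (gg s g (onK S (lt a)))) {a} = ∑ i, (n' i).natAbs := by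
      unfold cap
      rw [wrd_countP]
      apply Finset.sum_congr rfl
      intro i _
      rw [hn' i, pass_single (hp i) (hq i)]
    refine ⟨wrd s (gg s g (onK S (lt a))), wrd_CR hV', gg_conj_rot hV hh hrot, ?_, ?_, ?_⟩
    · rw [hlen', hlen, hcapS, hcapa]
      ring
    · rw [hcapv, hcapS]
    · intro C hC hsat h1 h2
      classical
      have ht : tran C l = ∑ i, (if n i = 0 then (if C (bar (s i)) (s (i + 1)) then 0 else 1)
          else (n i).natAbs + 1) := by
        rw [tran_rot C hrot]
        unfold tran
        rw [wrd_countP]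
        apply Finset.sum_congr rfl
        intro i _
        rw [hn i, pass_tran hC h1 h2 (hp i) (hq i)]
      have ht' : tran C (wrd s (gg s g (onK S (lt a)))) =
          ∑ i, (if n' i = 0 then (if C (bar (s i)) (s (i + 1)) then 0 else 1)
          else (n' i).natAbs + 1) := by
        unfold tran
        rw [wrd_countP]
        apply Finset.sum_congr rfl
        intro i _
        rw [hn' i, pass_tran hC h1 h2 (hp i) (hq i)]
      rw [ht, ht', hcapS, hcapa, ← Finset.sum_add_distrib, ← Finset.sum_add_distrib]
      apply Finset.sum_congr rfl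
      intro i _
      have hdef : n' i = n i - (if bar (s i) ∈ S then 1 else 0) +
        (if s (i + 1) ∈ S then 1 else 0) := rfl
      by_cases hCi : C (bar (s i)) (s (i + 1))
      · have hs := hsat _ _ hCi
        have he : n' i = n i := by
          rw [hdef]
          by_cases h3 : bar (s i) ∈ S
          · rw [if_pos h3, if_pos (hs.1 h3)]
            ring
          · rw [if_neg h3, if_neg (fun h4 => h3 (hs.2 h4))]
            ring
        rw [he]
      · rw [if_neg hCi]
        by_cases h3 : n i = 0 <;> by_cases h4 : n' i = 0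
        · rw [if_pos h3, if_pos h4, h3, h4]
        · rw [if_pos h3, if_neg h4, h3]
          simp only [Int.natAbs_zero]
          omega
        · rw [if_neg h3, if_pos h4, h4]
          simp only [Int.natAbs_zero]
          omega
        · rw [if_neg h3, if_neg h4]
          omega

theorem orb_wh {w : FG k} {l v : List (Lt k)} (hl : l ∈ Orb w) (hv : CR v)
    {S : Finset (Lt k)} {a : Lt k} (h : IsConj (FreeGroup.mk v) (whH S a (FreeGroup.mk l))) :
    v ∈ Orb w := by
  obtain ⟨φ, hφ⟩ := wh_aut S a
  exact orb_aut hl hv φ (by rw [hφ]; exact h)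

end Pool.Agent.GRO
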