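import Pool.Agent.GRO.GLU
import Pool.Agent.GRO.WH

/-!
# FML1: occurrences, alternations and capacities
* `cap_occ`: `cap_singleton`. `cap_alt`: the edges of `l` are the pairs `(bar a, b)` for the cyclically
  consecutive pairs `(a, b)`, i.e. for the elements of `l.zip (l.rotate 1)`; `bar a` is over `A` iff
  `a` is.
* `muC_mem`: the set is nonempty: `Orb w` is nonempty (`exists_CR`), its word has a letter over some
  `y`; apply the automorphism which exchanges `x` and `y` (`FreeGroup.freeGroupCongr`), it maps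
  cyclically reduced words to cyclically reduced words. `muC_indep`: the same automorphism.
* `sgm_mem`: if `l ∈ Orb w` has letters over two different generators `x, y`, choose `A` with
  `x ∈ A`, `y ∉ A`, `card A = r`; going around `l` there is an alternation. If all letters are over
  `x`, `l = replicate n (x, b)`, apply the automorphism `x ↦ x * y` (`gauH`, or `wh_move`) and get
  `((x, b), (y, _))`-words like `(x y)^n` or `(y⁻¹ x⁻¹)^n`.
* `sgm_even`: going around a cycle the number of changes is even, so it is not `1`.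
-/

set_option autoImplicit false

namespace Pool.Agent.GRO

variable {k : ℕ}

theorem FML1_pe_zip (p q : Lt k) (w : List (Lt k)) :
    pe (bar p) w q = ((p :: w).zip (w ++ [q])).map fun e => (bar e.1, e.2) := by
  induction w generalizing p with
  | nil => simp [pe]
  | cons c w ih => simp [pe, ih]

theorem FML1_edg_zip (l : List (Lt k)) :
    edg l = (l.zip (l.rotate 1)).map fun e => (bar e.1, e.2) := by
  cases l with
  | nil => simp [edg]
  | cons a w =>
    rw [edg, FML1_pe_zip]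
    simp

theorem cap_occ {l : List (Lt k)} (hl : CR l) (a : Lt k) :
    cap l {a} = occ a.1 (FreeGroup.mk l) := by
  rw [cap_singleton hl, occ, CR_toWord hl]

theorem FML1_cap_zip (l : List (Lt k)) (A : Finset (Fin k)) :
    cap l (Finset.univ.filter fun p : Lt k => p.1 ∈ A) =
      (l.zip (l.rotate 1)).countP fun e => decide (e.1.1 ∈ A) != decide (e.2.1 ∈ A) := by
  unfold cap
  rw [FML1_edg_zip, List.countP_map]
  congr 1
  funext e
  simp [bar]

theorem cap_alt {l : List (Lt k)} (hl : CR l) (A : Finset (Fin k)) :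
    cap l (Finset.univ.filter fun p : Lt k => p.1 ∈ A) = alt A (FreeGroup.mk l) := by
  rw [alt, CR_toWord hl, FML1_cap_zip]

theorem FML1_exists_orb {w : FG k} (hw : w ≠ 1) : ∃ l, l ∈ Orb w := by
  obtain ⟨v, hv, hc⟩ := exists_CR hw
  refine ⟨v, hv, ?_⟩
  obtain ⟨c, hc⟩ := isConj_iff.1 hc
  refine ⟨MulAut.conj c⁻¹, ?_⟩
  rw [MulAut.conj_apply, ← hc]
  group

theorem FML1_mem_orbit {w : FG k} {l : List (Lt k)} (hl : l ∈ Orb w) :
    FreeGroup.mk l ∈ orbit w ∧ FreeGroup.IsCyclicallyReduced (FreeGroup.mk l).toWord := by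
  refine ⟨hl.2, ?_⟩
  rw [CR_toWord hl.1]
  exact hl.1.1

/-- The letters after a permutation of the generators. -/
def FML1_sw (e : Equiv.Perm (Fin k)) (l : List (Lt k)) : List (Lt k) :=
  l.map fun p => (e p.1, p.2)

theorem FML1_sw_red (e : Equiv.Perm (Fin k)) {l : List (Lt k)} (h : FreeGroup.IsReduced l) :
    FreeGroup.IsReduced (FML1_sw e l) := by
  unfold FreeGroup.IsReduced FML1_sw at *
  rw [List.isChain_map]
  refine h.imp ?_
  intro a b hab h1
  exact hab (e.injective h1)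

theorem FML1_sw_CR (e : Equiv.Perm (Fin k)) {l : List (Lt k)} (h : CR l) : CR (FML1_sw e l) := by
  refine ⟨⟨FML1_sw_red e h.1.1, ?_⟩, ?_⟩
  · intro a ha b hb hab
    unfold FML1_sw at ha hb
    rw [List.getLast?_map, Option.mem_def, Option.map_eq_some_iff] at ha
    rw [List.head?_map, Option.mem_def, Option.map_eq_some_iff] at hb
    obtain ⟨a', ha', rfl⟩ := ha
    obtain ⟨b', hb', rfl⟩ := hb
    exact h.1.2 a' ha' b' hb' (e.injective hab)
  · unfold FML1_sw
    simpa using h.2

theorem FML1_sw_orb (e : Equiv.Perm (Fin k)) {w : FG k} {l : List (Lt k)} (h : l ∈ Orb w) :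
    FML1_sw e l ∈ Orb w := by
  refine orb_aut h (FML1_sw_CR e h.1) (FreeGroup.freeGroupCongr e) ?_
  have : FreeGroup.freeGroupCongr e (FreeGroup.mk l) = FreeGroup.mk (FML1_sw e l) := by
    simp [FreeGroup.freeGroupCongr, FML1_sw]
  rw [this]

theorem FML1_sw_cap (e : Equiv.Perm (Fin k)) {l : List (Lt k)} (h : CR l) (x : Fin k) :
    cap (FML1_sw e l) {(e x, true)} = cap l {(x, true)} := by
  rw [cap_singleton (FML1_sw_CR e h), cap_singleton h]
  unfold FML1_sw
  rw [List.countP_map]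
  congr 1
  funext b
  simp

theorem FML1_single {l : List (Lt k)} (h : CR l) (a : Lt k) :
    cap l {a} = cap l {(a.1, true)} := by
  rw [cap_singleton h, cap_singleton h]

theorem muC_le {w : FG k} {l : List (Lt k)} (hl : l ∈ Orb w) (a : Lt k) (h : 0 < cap l {a}) :
    muC a.1 w ≤ cap l {a} := by
  obtain ⟨h1, h2⟩ := FML1_mem_orbit hl
  exact Nat.sInf_le ⟨h, FreeGroup.mk l, h1, h2, (cap_occ hl.1 a).symm⟩

theorem muC_mem {w : FG k} (hw : w ≠ 1) (x : Fin k) :
    0 < muC x w ∧ ∃ l ∈ Orb w, cap l {(x, true)} = muC x w := by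
  have hne : {n : ℕ | 0 < n ∧ ∃ g ∈ orbit w, FreeGroup.IsCyclicallyReduced g.toWord ∧
      occ x g = n}.Nonempty := by
    obtain ⟨l, hl⟩ := FML1_exists_orb hw
    obtain ⟨a, ha⟩ := List.exists_mem_of_ne_nil l hl.1.2
    set e : Equiv.Perm (Fin k) := Equiv.swap a.1 x with he
    have h1 := FML1_sw_orb e hl
    have h2 := FML1_sw_cap e hl.1 a.1
    have h3 : 0 < cap l {(a.1, true)} := by
      rw [cap_singleton hl.1]
      exact List.countP_pos_iff.2 ⟨a, ha, by simp⟩
    have h4 : e a.1 = x := by simp [he]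
    rw [h4] at h2
    obtain ⟨h5, h6⟩ := FML1_mem_orbit h1
    refine ⟨cap (FML1_sw e l) {(x, true)}, by omega, FreeGroup.mk (FML1_sw e l), h5, h6, ?_⟩
    exact (cap_occ h1.1 (x, true)).symm
  have hm := Nat.sInf_mem hne
  obtain ⟨h1, g, hg, hc, ho⟩ := hm
  refine ⟨h1, g.toWord, (orb_orbit hw g).1 ⟨hg, hc⟩, ?_⟩
  rw [cap_occ ((orb_orbit hw g).1 ⟨hg, hc⟩).1, FreeGroup.mk_toWord]
  exact ho

theorem FML1_muC_le {w : FG k} (hw : w ≠ 1) (x y : Fin k) : muC x w ≤ muC y w := by
  obtain ⟨h0, l, hl, h1⟩ := muC_mem hw y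
  set e : Equiv.Perm (Fin k) := Equiv.swap y x with he
  have h2 := FML1_sw_cap e hl.1 y
  have h4 : e y = x := by simp [he]
  rw [h4] at h2
  have h3 : muC x w ≤ cap (FML1_sw e l) {(x, true)} :=
    muC_le (FML1_sw_orb e hl) (x, true) (by omega)
  omega

theorem muC_indep {w : FG k} (hw : w ≠ 1) (x y : Fin k) : muC x w = muC y w :=
  le_antisymm (FML1_muC_le hw x y) (FML1_muC_le hw y x)

theorem FML1_chain (A : Finset (Fin k)) (p q : Lt k) (w : List (Lt k))
    (h : ((pe (bar p) w q).countP fun e =>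
      decide (e.1 ∈ (Finset.univ.filter fun p : Lt k => p.1 ∈ A)) !=
        decide (e.2 ∈ (Finset.univ.filter fun p : Lt k => p.1 ∈ A))) = 0) :
    ∀ c ∈ w, (c.1 ∈ A ↔ p.1 ∈ A) := by
  induction w generalizing p with
  | nil => simp
  | cons c w ih =>
    rw [pe, List.countP_cons] at h
    have h1 : (decide ((bar p, c).1 ∈ (Finset.univ.filter fun p : Lt k => p.1 ∈ A)) !=
        decide ((bar p, c).2 ∈ (Finset.univ.filter fun p : Lt k => p.1 ∈ A))) = false := by
      by_contra hc
      rw [Bool.not_eq_false] at hc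
      rw [if_pos hc] at h
      omega
    have h2 : (c.1 ∈ A ↔ p.1 ∈ A) := by
      simp [bar] at h1
      exact h1.symm
    have h3 := ih c (by omega)
    intro d hd
    rcases List.mem_cons.1 hd with rfl | hd
    · exact h2
    · exact (h3 d hd).trans h2

theorem FML1_cut {l : List (Lt k)} {A : Finset (Fin k)} {c d : Lt k} (hc : c ∈ l) (hd : d ∈ l)
    (h1 : c.1 ∈ A) (h2 : d.1 ∉ A) :
    0 < cap l (Finset.univ.filter fun p : Lt k => p.1 ∈ A) := by
  by_contra h
  have h0 : cap l (Finset.univ.filter fun p : Lt k => p.1 ∈ A) = 0 := by omega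
  cases l with
  | nil => simp at hc
  | cons a w =>
    have h3 := FML1_chain A a a w h0
    have h4 : ∀ c ∈ a :: w, (c.1 ∈ A ↔ a.1 ∈ A) := by
      intro c hc
      rcases List.mem_cons.1 hc with rfl | hc
      · exact Iff.rfl
      · exact h3 c hc
    exact h2 ((h4 d hd).2 ((h4 c hc).1 h1))

theorem FML1_two {w : FG k} (hw : w ≠ 1) (hk : 2 ≤ k) :
    ∃ l ∈ Orb w, ∃ c ∈ l, ∃ d ∈ l, c.1 ≠ d.1 := by
  obtain ⟨l, hl⟩ := FML1_exists_orb hw
  by_cases hh : ∃ c ∈ l, ∃ d ∈ l, c.1 ≠ d.1
  · exact ⟨l, hl, hh⟩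
  push Not at hh
  obtain ⟨c, hc⟩ := List.exists_mem_of_ne_nil l hl.1.2
  have : Nontrivial (Fin k) := Fin.nontrivial_iff_two_le.2 hk
  obtain ⟨y, hy⟩ := exists_ne c.1
  have hall : ∀ d ∈ l, d.1 = c.1 := fun d hd => (hh c hc d hd).symm
  have hy0 : cap l {(y, true)} = 0 := by
    rw [cap_singleton hl.1, List.countP_eq_zero]
    intro b hb
    simp only [decide_eq_true_eq]
    rw [hall b hb]
    exact hy.symm
  set S : Finset (Lt k) := {(y, true), c} with hS
  have ha : (y, true) ∈ S := by simp [hS]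
  have hb : bar ((y, true) : Lt k) ∉ S := by
    simp only [hS, bar, Finset.mem_insert, Finset.mem_singleton]
    rintro (h | h)
    · simp at h
    · exact hy (by rw [← h])
  obtain ⟨v, hv, hvc, hlen, hcap, -⟩ := wh_move hl.1 ha hb
  have hvo : v ∈ Orb w := orb_wh hl hv hvc
  have hSpos : 0 < cap l S := by
    rw [cap_pos_iff]
    obtain ⟨z, hz⟩ := (used_edg hc).1
    have h1 := edg_used (z, c) hz
    have h2 := edg_ne hl.1 (z, c) hz
    refine ⟨c, z, Or.inr hz, by simp [hS], ?_⟩
    simp only [hS, Finset.mem_insert, Finset.mem_singleton]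
    rintro (h | h)
    · have := hall _ h1.1
      simp only [h, bar] at this
      exact hy this
    · exact h2 h
  have hlpos : 0 < l.length := List.length_pos_iff.2 hl.1.2
  have hp1 : 0 < cap v {(y, true)} := by omega
  have hp2 : cap v {(y, true)} < v.length := by omega
  rw [cap_singleton hv] at hp1 hp2
  obtain ⟨d, hd, hd1⟩ := List.countP_pos_iff.1 hp1
  have : ∃ d' ∈ v, ¬ (d'.1 = y) := by
    by_contra hcon
    push Not at hcon
    have : (v.countP fun b => decide (b.1 = ((y, true) : Lt k).1)) = v.length := by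
      rw [List.countP_eq_length]
      intro b hb
      simpa using hcon b hb
    omega
  obtain ⟨d', hd', hd'1⟩ := this
  refine ⟨v, hvo, d, hd, d', hd', ?_⟩
  simp only [decide_eq_true_eq] at hd1
  rw [hd1]
  exact fun h => hd'1 h.symm

theorem sgm_le {w : FG k} {l : List (Lt k)} (hl : l ∈ Orb w) (A : Finset (Fin k))
    (h : 0 < cap l (Finset.univ.filter fun p : Lt k => p.1 ∈ A)) :
    sgm A.card w ≤ cap l (Finset.univ.filter fun p : Lt k => p.1 ∈ A) := by
  obtain ⟨h1, h2⟩ := FML1_mem_orbit hl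
  exact Nat.sInf_le ⟨h, FreeGroup.mk l, h1, h2, A, rfl, (cap_alt hl.1 A).symm⟩

theorem sgm_mem {w : FG k} (hw : w ≠ 1) {r : ℕ} (h1 : 1 ≤ r) (h2 : r + 1 ≤ k) :
    0 < sgm r w ∧ ∃ l ∈ Orb w, ∃ A : Finset (Fin k), A.card = r ∧
      cap l (Finset.univ.filter fun p : Lt k => p.1 ∈ A) = sgm r w := by
  have hne : {n : ℕ | 0 < n ∧ ∃ g ∈ orbit w, FreeGroup.IsCyclicallyReduced g.toWord ∧
    ∃ A : Finset (Fin k), A.card = r ∧ alt A g = n}.Nonempty := by
    obtain ⟨l, hl, c, hc, d, hd, hcd⟩ := FML1_two hw (by omega)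
    obtain ⟨A, hA1, hA2, hA3⟩ := Finset.exists_subsuperset_card_eq
      (s := {c.1}) (t := Finset.univ.erase d.1) (n := r) (by simpa using hcd)
      (by simpa using h1) (by simp; omega)
    have h3 := FML1_cut hc hd (hA1 (by simp)) (A := A) (fun h => by simpa using hA2 h)
    obtain ⟨h5, h6⟩ := FML1_mem_orbit hl
    exact ⟨_, h3, FreeGroup.mk l, h5, h6, A, hA3, (cap_alt hl.1 A).symm⟩
  have hm := Nat.sInf_mem hne
  obtain ⟨h1, g, hg, hc, A, hA, ho⟩ := hm
  refine ⟨h1, g.toWord, (orb_orbit hw g).1 ⟨hg, hc⟩, A, hA, ?_⟩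
  rw [cap_alt ((orb_orbit hw g).1 ⟨hg, hc⟩).1, FreeGroup.mk_toWord]
  exact ho

theorem FML1_par (A : Finset (Fin k)) (p q : Lt k) (w : List (Lt k)) :
    Even (((p :: w).zip (w ++ [q])).countP fun e =>
      decide (e.1.1 ∈ A) != decide (e.2.1 ∈ A)) ↔ (p.1 ∈ A ↔ q.1 ∈ A) := by
  induction w generalizing p with
  | nil =>
    by_cases h1 : p.1 ∈ A <;> by_cases h2 : q.1 ∈ A <;> simp [h1, h2]
  | cons c w ih =>
    rw [List.cons_append, List.zip_cons_cons, List.countP_cons]
    have := ih c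
    by_cases h1 : p.1 ∈ A <;> by_cases h2 : q.1 ∈ A <;> by_cases h3 : c.1 ∈ A <;>
      simp [h1, h2, h3] at this ⊢ <;> first | exact this | (simp [Nat.even_add_one, this])

theorem sgm_ne_one (r : ℕ) (w : FG k) : sgm r w ≠ 1 := by
  intro h
  have hne : {n : ℕ | 0 < n ∧ ∃ g ∈ orbit w, FreeGroup.IsCyclicallyReduced g.toWord ∧
    ∃ A : Finset (Fin k), A.card = r ∧ alt A g = n}.Nonempty := by
    by_contra hc
    rw [Set.not_nonempty_iff_eq_empty] at hc
    unfold sgm at h
    rw [hc] at h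
    simp at h
  obtain ⟨-, g, -, -, A, -, hA⟩ := Nat.sInf_mem hne
  change alt A g = sgm r w at hA
  rw [h] at hA
  unfold alt at hA
  cases hg : g.toWord with
  | nil => rw [hg] at hA; simp at hA
  | cons a t =>
    have := (FML1_par A a a t).2 Iff.rfl
    rw [hg] at hA
    rw [List.rotate_cons_succ, List.rotate_zero] at hA
    rw [hA] at this
    simp at this

end Pool.Agent.GRO
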