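import Pool.Agent.GRO.ADJ
import Pool.Agent.GRO.CONN

/-!
# GATES
Let `Y = Yb C y`, `l = wrd s g`, `p` a port, `b` a letter. Suppose that every `c` with `Lv s g q c`,
`q` reachable from `p` by `StP C s g`, equals `b`. Let `A` be the Finset of all letters reachable
from `p`. All letters of `A` are outside `Y` (ports are outside `Y`; classes: `Yb_spec`). If `x ∈ A`,
`y' ∉ A`, `Adj l x y'` then `y'` is over `Y` (otherwise `adj_out` gives an empty passage, a step) and
`Lv s g x y'` by `adj_lv`, so `y' = b`. So: if `b.1 ∈ Y`, then `b, bar b ∉ A` and `NC` gives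
`cap l A = 0`; if `b.1 ∉ Y` there is no such edge and `cap l A = 0` (`cap_pos_iff`). `p ∈ A` is used
(`port_iff`), so by `cyc_closed` all used letters are in `A`. But `(y, true)` is used: `I3` for the
cut `{(y, true)}` and `C (y, true) (y, false)` give `T ≤ 2 * cap l {(y, true)}`; contradiction.
-/

set_option autoImplicit false

namespace Pool.Agent.GRO

variable {k : ℕ}

theorem gates {C : Lt k → Lt k → Prop} (hC : Str C) {T : ℕ} (hT : 0 < T) {y : Fin k}
    (hy : C (y, true) (y, false)) {m : ℕ} [NeZero m] {s : Fin m → Lt k} {g : Fin m → FG k}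
    (hv : Val (Yb C y) s g) (hI : I3 C T (wrd s g)) (hN : NC (wrd s g)) (hZ : ZC (wrd s g)) :
    Gates C s g := by
  classical
  intro p hp b
  by_contra hcon
  push Not at hcon
  have hYs : ∀ p q : Lt k, p.1 ∈ Yb C y → (C p q ↔ q.1 ∈ Yb C y) := fun p q hp =>
      Yb_spec hC hy p q hp
  have hl : CR (wrd s g) := wrd_CR hv
  have hport : ∀ q, Port s q → q.1 ∉ Yb C y := by
    rintro q ⟨i, rfl | rfl⟩
    · exact hv.hs i
    · exact hv.hs i
  have hout : ∀ x, Relation.ReflTransGen (StP C s g) p x → x.1 ∉ Yb C y := by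
    intro x hx
    induction hx with
    | refl => exact hport p hp
    | tail _ hst ih =>
      rename_i u v _
      rcases hst with hc | ⟨i, _, ⟨_, h2⟩ | ⟨h2, _⟩⟩
      · intro hv'
        exact ih ((hYs v u hv').1 (hC.eqv.symm hc))
      · rw [h2]; exact hv.hs _
      · rw [h2]; exact hv.hs _
  set A : Finset (Lt k) := Finset.univ.filter fun x => Relation.ReflTransGen (StP C s g) p x with hA
  have hmem : ∀ x, x ∈ A ↔ Relation.ReflTransGen (StP C s g) p x := by
    intro x; simp [hA]
  have hedge : ∀ x y', Adj (wrd s g) x y' → x ∈ A → y' ∉ A → y' = b ∧ y'.1 ∈ Yb C y := by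
    intro x y' hadj hx hy'
    have hxr := (hmem x).1 hx
    have hxo := hout x hxr
    by_cases hyY : y'.1 ∈ Yb C y
    · exact ⟨hcon x y' hxr ((adj_lv hv hxo hyY).1 hadj), hyY⟩
    · exfalso
      obtain ⟨i, h1, h2⟩ := (adj_out hv hxo hyY).1 hadj
      apply hy'
      rw [hmem]
      refine hxr.tail (Or.inr ⟨i, h1, ?_⟩)
      exact h2
  have hcap : cap (wrd s g) A = 0 := by
    by_cases hb : b.1 ∈ Yb C y
    · refine hN b A ?_ ?_ ?_
      · intro h; exact hout b ((hmem b).1 h) hb
      · intro h; exact hout (bar b) ((hmem _).1 h) hb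
      · intro x y' h1 h2 h3
        exact (hedge x y' h1 h2 h3).1
    · by_contra h0
      obtain ⟨x, y', h1, h2, h3⟩ := (cap_pos_iff _ _).1 (Nat.pos_of_ne_zero h0)
      obtain ⟨e, h4⟩ := hedge x y' h1 h2 h3
      rw [e] at h4
      exact hb h4
  have hpA : p ∈ A := (hmem p).2 Relation.ReflTransGen.refl
  have hpu : Used (wrd s g) p := (port_iff hv (hport p hp)).1 hp
  have hall := cyc_closed hl hZ hcap hpA hpu
  have hyu : Used (wrd s g) (y, true) := by
    rw [used_iff hl]
    by_contra h0
    have h1 : 2 * cap (wrd s g) {(y, true)} < T := by omega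
    have h2 := hI {(y, true)} h1 _ _ hy
    simp at h2
  exact hout _ ((hmem _).1 (hall _ hyu)) (mem_Yb_self hC y)

end Pool.Agent.GRO
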