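import Pool.Agent.GRO.PE

/-!
# GAU: free factors `FY Y` and gauge automorphisms
* `mem_FY`: `→` closure induction (`toWord_mul_sublist`, `toWord_inv`); `←` write `g` as the product
  of its letters.
* `gauH_comp`: compare on generators; `gauH Y h` fixes `FY Y`.
* `gau_aut`: the inverse is `gauH Y (fun p => (h p)⁻¹)` by `gauH_comp`.
-/

set_option autoImplicit false

namespace Pool.Agent.GRO

variable {k : ℕ}

private theorem gau_ltt (x : Fin k) : (lt (x, true) : FG k) = FreeGroup.of x := rfl

private theorem gau_ltf (x : Fin k) : (lt (x, false) : FG k) = (FreeGroup.of x)⁻¹ := by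
  unfold lt
  rw [show (FreeGroup.of x : FG k) = FreeGroup.mk [(x, true)] from rfl, FreeGroup.inv_mk]
  rfl

theorem lt_bar (a : Lt k) : lt (bar a) = (lt a)⁻¹ := by
  unfold lt
  rw [FreeGroup.inv_mk]
  rfl

theorem lt_mem_FY {Y : Finset (Fin k)} {a : Lt k} (ha : a.1 ∈ Y) : lt a ∈ FY Y := by
  obtain ⟨x, b⟩ := a
  have h : (FreeGroup.of x : FG k) ∈ FY Y := Subgroup.subset_closure ⟨x, ha, rfl⟩
  cases b
  · rw [gau_ltf]
    exact (FY Y).inv_mem h
  · rw [gau_ltt]
    exact h

theorem mem_FY (Y : Finset (Fin k)) (g : FG k) : g ∈ FY Y ↔ ∀ a ∈ g.toWord, a.1 ∈ Y := by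
  constructor
  · intro hg
    unfold FY at hg
    induction hg using Subgroup.closure_induction with
    | mem x hx =>
      obtain ⟨y, hy, rfl⟩ := hx
      intro a ha
      rw [FreeGroup.toWord_of] at ha
      simp only [List.mem_singleton] at ha
      rw [ha]
      exact hy
    | one =>
      intro a ha
      rw [FreeGroup.toWord_one] at ha
      simp at ha
    | mul x y _ _ hx hy =>
      intro a ha
      have h1 := (FreeGroup.toWord_mul_sublist x y).subset ha
      rcases List.mem_append.1 h1 with h | h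
      · exact hx a h
      · exact hy a h
    | inv x _ hx =>
      intro a ha
      rw [FreeGroup.toWord_inv, FreeGroup.invRev] at ha
      simp only [List.mem_reverse, List.mem_map] at ha
      obtain ⟨b, hb, rfl⟩ := ha
      exact hx b hb
  · intro h
    rw [← FreeGroup.mk_toWord (x := g)]
    generalize g.toWord = L at h
    induction L with
    | nil =>
      rw [← FreeGroup.one_eq_mk]
      exact (FY Y).one_mem
    | cons c L ih =>
      have h1 : (FreeGroup.mk (c :: L) : FG k) = lt c * FreeGroup.mk L := by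
        unfold lt
        rw [FreeGroup.mul_mk]
        rfl
      rw [h1]
      exact (FY Y).mul_mem (lt_mem_FY (h c (by simp))) (ih fun a ha => h a (by simp [ha]))

theorem gauH_lt (Y : Finset (Fin k)) (h : Lt k → FG k) {p : Lt k} (hp : p.1 ∉ Y) :
    gauH Y h (lt p) = h p * lt p * (h (bar p))⁻¹ := by
  obtain ⟨x, b⟩ := p
  simp only at hp
  cases b
  · rw [gau_ltf, map_inv]
    unfold gauH
    rw [FreeGroup.lift_apply_of, if_neg hp]
    simp only [bar, Bool.not_false, mul_inv_rev, inv_inv]
    group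
  · rw [gau_ltt]
    unfold gauH
    rw [FreeGroup.lift_apply_of, if_neg hp]
    rfl

theorem gauH_FY (Y : Finset (Fin k)) (h : Lt k → FG k) {g : FG k} (hg : g ∈ FY Y) :
    gauH Y h g = g := by
  unfold FY at hg
  induction hg using Subgroup.closure_induction with
  | mem x hx =>
    obtain ⟨y, hy, rfl⟩ := hx
    unfold gauH
    rw [FreeGroup.lift_apply_of, if_pos (by exact_mod_cast hy)]
  | one => rw [map_one]
  | mul x y _ _ hx hy => rw [map_mul, hx, hy]
  | inv x _ hx => rw [map_inv, hx]

theorem gauH_comp (Y : Finset (Fin k)) (h h' : Lt k → FG k) (hh' : ∀ p, h' p ∈ FY Y) :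
    (gauH Y h).comp (gauH Y h') = gauH Y fun p => h' p * h p := by
  apply FreeGroup.ext_hom
  intro x
  rw [MonoidHom.comp_apply]
  by_cases hx : x ∈ Y
  · have h1 : ∀ h'' : Lt k → FG k, gauH Y h'' (FreeGroup.of x) = FreeGroup.of x := by
      intro h''
      unfold gauH
      rw [FreeGroup.lift_apply_of, if_pos hx]
    rw [h1, h1, h1]
  · have h1 : ∀ h'' : Lt k → FG k, gauH Y h'' (FreeGroup.of x) =
        h'' (x, true) * FreeGroup.of x * (h'' (x, false))⁻¹ := by
      intro h''
      unfold gauH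
      rw [FreeGroup.lift_apply_of, if_neg hx]
    rw [h1 h', h1, map_mul, map_mul, map_inv, gauH_FY Y h (hh' _), gauH_FY Y h (hh' _), h1 h]
    group

theorem gauH_one (Y : Finset (Fin k)) : gauH Y (fun _ => 1) = MonoidHom.id (FG k) := by
  apply FreeGroup.ext_hom
  intro x
  unfold gauH
  rw [FreeGroup.lift_apply_of]
  simp

theorem gau_aut (Y : Finset (Fin k)) (h : Lt k → FG k) (hh : ∀ p, h p ∈ FY Y) :
    ∃ φ : MulAut (FG k), ∀ g, φ g = gauH Y h g := by
  have h1 : (gauH Y h).comp (gauH Y fun p => (h p)⁻¹) = MonoidHom.id (FG k) := by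
    rw [gauH_comp Y h _ (fun p => (FY Y).inv_mem (hh p))]
    simp only [inv_mul_cancel]
    exact gauH_one Y
  have h2 : (gauH Y fun p => (h p)⁻¹).comp (gauH Y h) = MonoidHom.id (FG k) := by
    rw [gauH_comp Y _ h hh]
    simp only [mul_inv_cancel]
    exact gauH_one Y
  refine ⟨MonoidHom.toMulEquiv (gauH Y h) (gauH Y fun p => (h p)⁻¹) h2 h1, ?_⟩
  intro g
  rfl

theorem onK_mem {Y : Finset (Fin k)} (K : Finset (Lt k)) {h : FG k} (hh : h ∈ FY Y) (p : Lt k) :
    onK K h p ∈ FY Y := by
  unfold onK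
  split_ifs
  · exact hh
  · exact (FY Y).one_mem

theorem wh_aut (S : Finset (Lt k)) (a : Lt k) :
    ∃ φ : MulAut (FG k), ∀ g, φ g = whH S a g :=
  gau_aut {a.1} (onK S (lt a)) fun p => onK_mem S (lt_mem_FY (by simp)) p

end Pool.Agent.GRO
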