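import Mathlib

/-!
# Growth of automorphism orbits of cyclic words: the definitions of the final statement
-/

set_option autoImplicit false

open Filter

namespace Pool.Agent.GRO

/-- The orbit `Aut(F_k) · w`. -/
def orbit {k : ℕ} (w : FreeGroup (Fin k)) : Set (FreeGroup (Fin k)) :=
  {g | ∃ φ : MulAut (FreeGroup (Fin k)), φ w = g}

/-- The set of cyclic words (conjugacy classes) contained in the orbit of `w`. -/
def cyclicWords {k : ℕ} (w : FreeGroup (Fin k)) : Set (ConjClasses (FreeGroup (Fin k))) :=
  {c | c.carrier ⊆ orbit w}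

/-- The members of length `N` of a set of cyclic words: the length of a cyclic word is the length
of any cyclically reduced word in the class. -/
def ofLength {k : ℕ} (S : Set (ConjClasses (FreeGroup (Fin k)))) (N : ℕ) :
    Set (ConjClasses (FreeGroup (Fin k))) :=
  {c | c ∈ S ∧ ∃ g ∈ c.carrier, FreeGroup.IsCyclicallyReduced g.toWord ∧ g.toWord.length = N}

/-- The growth `limsup |S_N| ^ (1 / N)` of a set of cyclic words. -/
noncomputable def growth {k : ℕ} (S : Set (ConjClasses (FreeGroup (Fin k)))) : ℝ :=
  limsup (fun N : ℕ => ((ofLength S N).ncard : ℝ) ^ (1 / (N : ℝ))) atTop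

/-- The number of occurrences of `x` and `x⁻¹` in the reduced word of `g`. -/
def occ {k : ℕ} (x : Fin k) (g : FreeGroup (Fin k)) : ℕ :=
  g.toWord.countP fun a => a.1 = x

/-- The number of cyclically consecutive pairs of letters of the reduced word of `g` of which
exactly one is `x` or `x⁻¹` for some `x` in `A`. -/
def alt {k : ℕ} (A : Finset (Fin k)) (g : FreeGroup (Fin k)) : ℕ :=
  (g.toWord.zip (g.toWord.rotate 1)).countP fun e => decide (e.1.1 ∈ A) != decide (e.2.1 ∈ A)

/-- The smallest positive number of occurrences of `x ^ {±1}` in a cyclically reduced element of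
the orbit of `w`. -/
noncomputable def muC {k : ℕ} (x : Fin k) (w : FreeGroup (Fin k)) : ℕ :=
  sInf {n : ℕ | 0 < n ∧ ∃ g ∈ orbit w, FreeGroup.IsCyclicallyReduced g.toWord ∧ occ x g = n}

/-- The smallest positive number of cyclic alternations, in a cyclically reduced element of the
orbit of `w`, between `r` of the generators and the other ones. -/
noncomputable def sgm {k : ℕ} (r : ℕ) (w : FreeGroup (Fin k)) : ℕ :=
  sInf {n : ℕ | 0 < n ∧ ∃ g ∈ orbit w, FreeGroup.IsCyclicallyReduced g.toWord ∧
    ∃ A : Finset (Fin k), A.card = r ∧ alt A g = n}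

/-- Primitive elements: members of a basis. -/
def Prim {k : ℕ} (w : FreeGroup (Fin k)) : Prop :=
  ∃ (φ : MulAut (FreeGroup (Fin k))) (i : Fin k), φ (FreeGroup.of i) = w

end Pool.Agent.GRO
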