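import Pool.Agent.GRO.LB3
import Pool.Agent.GRO.RSB

/-!
# LB: the final contradiction
`Y = Yb C y`. Take `σ, τ, ρ` from `HasSgn`. `D0` = all `V ∈ FY Y` of norm `< ρ`, together with `1`:
finite (finitely many words of bounded length), closed under beginnings, `OKD` by `TameS` (a vertex
`V ∈ FY Y` outside `D0` has norm `≥ ρ`). Induction on `card D` for the statement: no `σ, τ, D` with
`OKD Y σ τ D`, both signs of `τ` infinite on `FY Y`, `SepP` finite with at most `c` elements.
* `D = {1}`: `lb_root`.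
* Otherwise choose `V ∈ D` of maximal norm; `V ≠ 1`. `z = bar (last letter of V)`,
  `V * lt x ∉ D` for `x ≠ z` over `Y` (norm `|V| + 1`). Let `P` = all `x ≠ z` with `dsg V x`, `P'` = all
  `x ≠ z` with `¬ dsg V x`. The letter `bar z` is over `Y`, `bar z ≠ z`, so it is in `P` or `P'`; call
  this set `Q'`, the other one `Q`. `ebt Q Q' ≤ c` (`cut_le`). `NG` for `(insert z Q, z)`
  (`bar z ∉ insert z Q`) and `cap_eq_add` (`cap (insert z Q) = cap Q'`,
  `cap {z} = e(Q,z) + e(Q',z)`, `cap Q' = e(Q',z) + e(Q,Q')`): `8 e(Q,z) < T + 8 c`, hence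
  `8 cap Q < T + 16 c ≤ 4 T`, `2 cap Q < T`. If `Q` contains a letter `x` over `Y` then `C x z`,
  `x ∈ Q`, `z ∉ Q` contradicts `I3`. So `Q` consists of ports; `flip` (with `ε` = the sign of `Q'`;
  `hsl` from the hypothesis `hQ`) gives a smaller `D`; the infinite sets change by at most one
  element.
-/

set_option autoImplicit false

namespace Pool.Agent.GRO

variable {k : ℕ}

private theorem LB_fin (ρ : ℕ) : {V : FG k | V.norm < ρ}.Finite := by
  have h : ({l : List (Lt k) | l.length < ρ} : Set (List (Lt k))).Finite :=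
    List.finite_length_lt _ _
  exact (h.preimage (FreeGroup.toWord_injective.injOn)).subset (fun V hV => hV)

private theorem LB_start {Y : Finset (Fin k)} {σ : FG k → Lt k → Prop} {τ : FG k → Prop} {ρ : ℕ}
    (hT : TameS Y σ τ ρ) : ∃ D : Finset (FG k), OKD Y σ τ D := by
  classical
  have hfin : ({V : FG k | V ∈ FY Y ∧ V.norm < ρ} ∪ {1} : Set (FG k)).Finite :=
    ((LB_fin ρ).subset (fun V hV => hV.2)).union (Set.finite_singleton 1)
  refine ⟨hfin.toFinset, ?_, ?_, ?_, ?_⟩
  · intro V hV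
    rw [Set.Finite.mem_toFinset] at hV
    rcases hV with hV | hV
    · exact hV.1
    · rw [Set.mem_singleton_iff] at hV
      rw [hV]
      exact one_mem _
  · rw [Set.Finite.mem_toFinset]
    exact Or.inr rfl
  · intro V hV U hU
    rw [Set.Finite.mem_toFinset] at hV ⊢
    rcases hV with hV | hV
    · left
      refine ⟨(mem_FY Y U).2 fun a ha => (mem_FY Y V).1 hV.1 a (hU.subset ha), ?_⟩
      exact lt_of_le_of_lt hU.length_le hV.2
    · right
      rw [Set.mem_singleton_iff] at hV ⊢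
      rw [hV, FreeGroup.toWord_one, List.prefix_nil, FreeGroup.toWord_eq_nil_iff] at hU
      exact hU
  · intro V hV hVD U hU hpre
    rw [Set.Finite.mem_toFinset] at hVD
    have h1 : ρ ≤ V.norm := by
      by_contra hlt
      exact hVD (Or.inl ⟨hV, not_le.1 hlt⟩)
    exact hT V hV h1 U hU hpre

private theorem LB_last {V : FG k} (hV : V ≠ 1) :
    ∃ (w : List (Lt k)) (c : Lt k), V.toWord = w ++ [c] ∧
      (V * lt (bar c)).norm + 1 = V.norm ∧ ∀ x, x ≠ bar c → (V * lt x).norm = V.norm + 1 := by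
  have hne : V.toWord ≠ [] := fun h => hV (FreeGroup.toWord_eq_nil_iff.1 h)
  obtain ⟨w, c, hwc⟩ : ∃ (w : List (Lt k)) (c : Lt k), V.toWord = w ++ [c] :=
    ⟨V.toWord.dropLast, V.toWord.getLast hne, (List.dropLast_append_getLast hne).symm⟩
  have hred : FreeGroup.IsReduced (w ++ [c]) := by
    rw [← hwc]
    exact FreeGroup.isReduced_toWord
  have hVn : V.norm = w.length + 1 := by
    show V.toWord.length = _
    rw [hwc]
    simp
  have hVeq : V = FreeGroup.mk w * lt c := by
    rw [lt, FreeGroup.mul_mk, ← hwc, FreeGroup.mk_toWord]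
  refine ⟨w, c, hwc, ?_, ?_⟩
  · have h1 : V * lt (bar c) = FreeGroup.mk w := by
      rw [hVeq, lt_bar, mul_inv_cancel_right]
    rw [h1, hVn]
    have hw : FreeGroup.IsReduced w := red_sub hred ⟨[], [c], by simp⟩
    show (FreeGroup.mk w).toWord.length + 1 = _
    rw [FreeGroup.toWord_mk, hw.reduce_eq]
  · intro x hx
    have h2 : FreeGroup.IsReduced ([c] ++ [x]) := by
      show FreeGroup.IsReduced [c, x]
      rw [FreeGroup.isReduced_cons_cons]
      refine ⟨fun h => ?_, FreeGroup.IsReduced.singleton⟩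
      by_contra hne2
      apply hx
      refine Prod.ext h.symm ?_
      show x.2 = !c.2
      cases h3 : c.2 <;> cases h4 : x.2 <;> simp_all
    have h3 : FreeGroup.IsReduced (w ++ [c] ++ [x]) :=
      hred.append_overlap h2 (by simp)
    have h4 : V * lt x = FreeGroup.mk (w ++ [c] ++ [x]) := by
      rw [← FreeGroup.mul_mk, ← hwc, FreeGroup.mk_toWord]
      rfl
    show (V * lt x).toWord.length = _
    rw [h4, FreeGroup.toWord_mk, h3.reduce_eq, hVn]
    simp

private theorem LB_ind {C : Lt k → Lt k → Prop} (hC : Str C) {T c : ℕ} (hT : 0 < T)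
    (hc : 16 * c ≤ 3 * T) {y : Fin k} (hy : C (y, true) (y, false)) {m : ℕ} [NeZero m]
    {s : Fin m → Lt k} {g : Fin m → FG k} (hv : Val (Yb C y) s g) (hI : I3 C T (wrd s g))
    (hN : NG T (wrd s g))
    (hQ : ∀ (Q : Finset (Lt k)) (a : Lt k), (∀ p ∈ Q, p.1 ∉ Yb C y) → a.1 ∈ Yb C y →
      2 * ebt (wrd s g) Q {a} ≤ cap (wrd s g) Q) :
    ∀ (n : ℕ) (σ : FG k → Lt k → Prop) (τ : FG k → Prop) (D : Finset (FG k)), D.card = n →
      OKD (Yb C y) σ τ D → {V | V ∈ FY (Yb C y) ∧ τ V}.Infinite →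
      {V | V ∈ FY (Yb C y) ∧ ¬ τ V}.Infinite →
      (SepP (Yb C y) s g σ).Finite → (SepP (Yb C y) s g σ).ncard ≤ c → False := by
  classical
  intro n
  induction n with
  | zero =>
    intro σ τ D hD hO
    have := hO.one
    rw [Finset.card_eq_zero] at hD
    rw [hD] at this
    simp at this
  | succ n ih =>
    intro σ τ D hDc hO h1 h2 hS hcard
    by_cases hD1 : D = {1}
    · rw [hD1] at hO
      exact lb_root hC hT hc hy hv hI hO h1 h2 hS hcard
    obtain ⟨V, hVD, hmax⟩ := Finset.exists_max_image D (fun V => V.norm) ⟨1, hO.one⟩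
    have hV1 : V ≠ 1 := by
      intro hV
      apply hD1
      ext U
      rw [Finset.mem_singleton]
      constructor
      · intro hU
        have h := hmax U hU
        rw [hV, FreeGroup.norm_one] at h
        exact FreeGroup.norm_eq_zero.1 (Nat.le_zero.1 h)
      · intro hU
        rw [hU]
        exact hO.one
    obtain ⟨w, c', hwc, hz1, hx1⟩ := LB_last hV1
    have hVY : V ∈ FY (Yb C y) := hO.mem V hVD
    have hcY : c'.1 ∈ Yb C y := (mem_FY _ V).1 hVY c' (by rw [hwc]; simp)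
    set z : Lt k := bar c' with hz
    have hzY : z.1 ∈ Yb C y := hcY
    have hbz : bar z = c' := by
      rw [hz]
      simp [bar]
    have hbzne : bar z ≠ z := by
      intro h
      have h3 := congrArg Prod.snd h
      simp [bar] at h3
    have hbelow : ∀ x, x ≠ z → x.1 ∈ Yb C y → V * lt x ∉ D ∧ (V * lt x).norm = V.norm + 1 := by
      intro x hx _
      refine ⟨fun hmem => ?_, hx1 x hx⟩
      have h := hmax _ hmem
      have h' := hx1 x hx
      omega
    let ε : Prop := dsg (Yb C y) σ τ V (bar z)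
    let Q' : Finset (Lt k) := Finset.univ.filter fun x => x ≠ z ∧ (dsg (Yb C y) σ τ V x ↔ ε)
    let Q : Finset (Lt k) := Finset.univ.filter fun x => x ≠ z ∧ ¬ (dsg (Yb C y) σ τ V x ↔ ε)
    have mQ' : ∀ x, x ∈ Q' ↔ x ≠ z ∧ (dsg (Yb C y) σ τ V x ↔ ε) := fun x => by simp [Q']
    have mQ : ∀ x, x ∈ Q ↔ x ≠ z ∧ ¬ (dsg (Yb C y) σ τ V x ↔ ε) := fun x => by simp [Q]
    have hbzQ' : bar z ∈ Q' := (mQ' _).2 ⟨hbzne, Iff.rfl⟩
    have hbzQ : bar z ∉ Q := fun h => ((mQ _).1 h).2 Iff.rfl
    have hzQ : z ∉ Q := fun h => ((mQ _).1 h).1 rfl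
    have hzQ' : z ∉ Q' := fun h => ((mQ' _).1 h).1 rfl
    have hdis : Disjoint Q Q' := by
      rw [Finset.disjoint_left]
      intro x hx hx'
      exact ((mQ _).1 hx).2 ((mQ' _).1 hx').2
    have hall : ∀ x, x ∈ Q ∨ x ∈ Q' ∨ x = z := by
      intro x
      by_cases hxz : x = z
      · exact Or.inr (Or.inr hxz)
      by_cases hxe : (dsg (Yb C y) σ τ V x ↔ ε)
      · exact Or.inr (Or.inl ((mQ' _).2 ⟨hxz, hxe⟩))
      · exact Or.inl ((mQ _).2 ⟨hxz, hxe⟩)
    have hcut : ebt (wrd s g) Q Q' ≤ c := by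
      refine le_trans ?_ hcard
      by_cases hε : ε
      · rw [ebt_comm]
        refine cut_le hv hO hVY (A := Q') (B := Q) ?_ ?_ hS
        · intro x hx
          have hx' := (mQ' _).1 hx
          exact ⟨hx'.2.2 hε, hbelow x hx'.1⟩
        · intro x hx
          have hx' := (mQ _).1 hx
          refine ⟨fun h => hx'.2 ⟨fun _ => hε, fun _ => h⟩, hbelow x hx'.1⟩
      · refine cut_le hv hO hVY (A := Q) (B := Q') ?_ ?_ hS
        · intro x hx
          have hx' := (mQ _).1 hx
          refine ⟨?_, hbelow x hx'.1⟩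
          by_contra h
          exact hx'.2 ⟨fun h' => absurd h' h, fun h' => absurd h' hε⟩
        · intro x hx
          have hx' := (mQ' _).1 hx
          exact ⟨fun h => hε (hx'.2.1 h), hbelow x hx'.1⟩
    obtain ⟨e1, e2, e3⟩ := cap_eq_add (wrd s g) hzQ hzQ' hdis hall
    have hall' : ∀ x, x ∈ Q' ∨ x ∈ Q ∨ x = z := by
      intro x
      rcases hall x with h | h | h
      · exact Or.inr (Or.inl h)
      · exact Or.inl h
      · exact Or.inr (Or.inr h)
    obtain ⟨f1, -, -⟩ := cap_eq_add (wrd s g) hzQ' hzQ hdis.symm hall'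
    rw [ebt_comm (wrd s g) Q' Q] at f1
    have hNG := hN (insert z Q) z (Finset.mem_insert_self _ _) (by
      rw [Finset.mem_insert]
      rintro (h | h)
      · exact hbzne h
      · exact hbzQ h)
    have hsmall : 2 * cap (wrd s g) Q < T := by omega
    have hport : ∀ x ∈ Q, x.1 ∉ Yb C y := by
      intro x hx hxY
      have hCxz : C x z := (Yb_spec hC hy x z hxY).2 hzY
      exact hzQ ((hI Q hsmall x z hCxz).1 hx)
    obtain ⟨σ', τ', hO', hτ', hS', hn'⟩ := flip hv hO hVD hV1 hmax hzY hz1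
      (Q := Q) (Q' := Q') (ε := ε)
      (fun x hx => ⟨hport x hx, by
        have hx' := (mQ _).1 hx
        constructor
        · intro h hε
          exact hx'.2 ⟨fun _ => hε, fun _ => h⟩
        · intro hε
          by_contra h
          exact hx'.2 ⟨fun h' => absurd h' h, fun h' => absurd h' hε⟩⟩)
      (fun x hx => ((mQ' _).1 hx).2) hzQ hzQ' hdis hall (hQ Q z hport hzY) hS
    refine ih σ' τ' (D.erase V) ?_ hO' ?_ ?_ hS' (hn'.trans hcard)
    · rw [Finset.card_erase_of_mem hVD, hDc]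
      rfl
    · refine (h1.sdiff (Set.finite_singleton V)).mono ?_
      rintro U ⟨⟨hU1, hU2⟩, hU3⟩
      exact ⟨hU1, (hτ' U hU3).2 hU2⟩
    · refine (h2.sdiff (Set.finite_singleton V)).mono ?_
      rintro U ⟨⟨hU1, hU2⟩, hU3⟩
      exact ⟨hU1, fun h => hU2 ((hτ' U hU3).1 h)⟩

theorem lb {C : Lt k → Lt k → Prop} (hC : Str C) {T c : ℕ} (hT : 0 < T)
    (hc : 16 * c ≤ 3 * T) {y : Fin k} (hy : C (y, true) (y, false)) {m : ℕ} [NeZero m]
    {s : Fin m → Lt k} {g : Fin m → FG k} (hv : Val (Yb C y) s g) (hI : I3 C T (wrd s g))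
    (hN : NG T (wrd s g))
    (hQ : ∀ (Q : Finset (Lt k)) (a : Lt k), (∀ p ∈ Q, p.1 ∉ Yb C y) → a.1 ∈ Yb C y →
      2 * ebt (wrd s g) Q {a} ≤ cap (wrd s g) Q)
    (H : HasSgn (Yb C y) s g c) : False := by
  obtain ⟨σ, τ, ρ, hTame, h1, h2, hS, hcard⟩ := H
  obtain ⟨D, hD⟩ := LB_start hTame
  exact LB_ind hC hT hc hy hv hI hN hQ _ σ τ D rfl hD h1 h2 hS hcard

end Pool.Agent.GRO
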