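import Pool.Agent.GRO.CUT
import Pool.Agent.GRO.REL1
import Pool.Agent.GRO.Defs2

/-!
# LB1: passages through a vertex
The passage `i` has the edges `(pe (bar (s i)) (g i).toWord (s (i+1)))[j]?`, `0 ≤ j ≤ |g i|`:
the first entry is `bar (s i)` for `j = 0` and `bar ((g i).toWord[j-1])` for `j ≥ 1`; the second entry
is `(g i).toWord[j]` for `j < |g i|` and `s (i+1)` for `j = |g i|`.
* `ebt_count`, `cap_count`: `countP` over a list = number of the indices `j`; `wrd_countP`.
* `stv_inj`: `mk (take j w)` has norm `j` for reduced `w` and `j ≤ |w|`.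
* `through_left`: `j = 0`: `stv = V`, `x = bar (s i)`. `j ≥ 1`: `x = bar c_j` is over `Y`,
  `stv = V * (c_1 ... c_j)⁻¹ = (V * lt x) * (c_1 ... c_{j-1})⁻¹`, reduced as written because of the norm
  hypothesis; so it is below the vertex `V * lt x ∉ D` and `OKD.out` applies.
* `through_right`: `stv * g i = V * (c_{j+1} ... c_n)`. For `j = n`: `= V`, `y = s (i+1)`.
-/

set_option autoImplicit false

namespace Pool.Agent.GRO

variable {k : ℕ}

/-- `e` is the edge number `j` of the passage `i`. -/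
def PEd {m : ℕ} [NeZero m] (s : Fin m → Lt k) (g : Fin m → FG k) (i : Fin m) (j : ℕ)
    (e : Lt k × Lt k) : Prop :=
  (pe (bar (s i)) (g i).toWord (s (i + 1)))[j]? = some e

private theorem lb1_zip (w : List (Lt k)) : ∀ p q : Lt k,
    pe p w q = (p :: w.map bar).zip (w ++ [q]) := by
  induction w with
  | nil => intro p q; rfl
  | cons c w ih =>
    intro p q
    change (p, c) :: pe (bar c) w q = _
    rw [ih (bar c) q]
    rfl

private theorem lb1_iff {w : List (Lt k)} {p q x y : Lt k} {j : ℕ} :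
    (pe p w q)[j]? = some (x, y) ↔
      (p :: w.map bar)[j]? = some x ∧ (w ++ [q])[j]? = some y := by
  rw [lb1_zip, List.getElem?_zip_eq_some]

private theorem lb1_left {w : List (Lt k)} {p q x y : Lt k} {j : ℕ}
    (h : (pe p w q)[j]? = some (x, y)) :
    j ≤ w.length ∧ ((j = 0 ∧ x = p) ∨ ∃ j', j = j' + 1 ∧ ∃ h : j' < w.length, x = bar w[j']) := by
  obtain ⟨h1, h2⟩ := lb1_iff.1 h
  cases j with
  | zero =>
    simp only [List.getElem?_cons_zero, Option.some.injEq] at h1
    exact ⟨Nat.zero_le _, Or.inl ⟨rfl, h1.symm⟩⟩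
  | succ j' =>
    rw [List.getElem?_cons_succ, List.getElem?_map] at h1
    have hlt : j' < w.length := by
      by_contra hcon
      rw [List.getElem?_eq_none (by omega)] at h1
      simp at h1
    rw [List.getElem?_eq_getElem hlt] at h1
    simp only [Option.map_some, Option.some.injEq] at h1
    exact ⟨hlt, Or.inr ⟨j', rfl, hlt, h1.symm⟩⟩

private theorem lb1_right {w : List (Lt k)} {p q x y : Lt k} {j : ℕ}
    (h : (pe p w q)[j]? = some (x, y)) :
    (j = w.length ∧ y = q) ∨ ∃ h : j < w.length, y = w[j] := by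
  obtain ⟨h1, h2⟩ := lb1_iff.1 h
  rcases lt_trichotomy j w.length with hl | he | hg
  · right
    rw [List.getElem?_append_left hl, List.getElem?_eq_getElem hl] at h2
    exact ⟨hl, (Option.some.inj h2).symm⟩
  · left
    rw [List.getElem?_append_right (by omega), he, Nat.sub_self] at h2
    simp only [List.getElem?_cons_zero, Option.some.injEq] at h2
    exact ⟨he, h2.symm⟩
  · exfalso
    rw [List.getElem?_eq_none (by simp; omega)] at h2
    simp at h2

private theorem lb1_count (L : List (Lt k × Lt k)) (f : Lt k × Lt k → Bool) :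
    {j : ℕ | ∃ e, L[j]? = some e ∧ f e = true}.Finite ∧
      {j : ℕ | ∃ e, L[j]? = some e ∧ f e = true}.ncard = L.countP f := by
  induction L with
  | nil => simp
  | cons a L ih =>
    obtain ⟨ih1, ih2⟩ := ih
    have hset : {j : ℕ | ∃ e, (a :: L)[j]? = some e ∧ f e = true} =
        {j : ℕ | j = 0 ∧ f a = true} ∪
          Nat.succ '' {j : ℕ | ∃ e, L[j]? = some e ∧ f e = true} := by
      ext j
      cases j with
      | zero =>
        constructor
        · rintro ⟨e, h1, h2⟩
          left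
          have h3 : a = e := by simpa using h1
          exact ⟨rfl, h3 ▸ h2⟩
        · rintro (⟨-, h⟩ | ⟨j', -, hj'⟩)
          · exact ⟨a, rfl, h⟩
          · exact absurd hj' (Nat.succ_ne_zero _)
      | succ j =>
        constructor
        · rintro ⟨e, h1, h2⟩
          right
          exact ⟨j, ⟨e, by simpa using h1, h2⟩, rfl⟩
        · rintro (⟨h, -⟩ | ⟨j', ⟨e, h1, h2⟩, hj'⟩)
          · exact absurd h (Nat.succ_ne_zero _)
          · cases hj'
            exact ⟨e, by simpa using h1, h2⟩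
    have hf0 : {j : ℕ | j = 0 ∧ f a = true}.Finite :=
      (Set.finite_singleton 0).subset fun j hj => hj.1
    have hf1 : (Nat.succ '' {j : ℕ | ∃ e, L[j]? = some e ∧ f e = true}).Finite := ih1.image _
    rw [hset]
    refine ⟨hf0.union hf1, ?_⟩
    rw [Set.ncard_union_eq ?_ hf0 hf1, Set.ncard_image_of_injective _ Nat.succ_injective, ih2,
      List.countP_cons]
    · cases hfa : f a
      · simp
      · have : {j : ℕ | j = 0 ∧ true = true} = {0} := by
          ext j; simp
        rw [this, Set.ncard_singleton]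
        simp
        ring
    · rw [Set.disjoint_left]
      rintro j ⟨rfl, -⟩ ⟨j', -, hj'⟩
      exact Nat.succ_ne_zero _ hj'

theorem count_ncard {m : ℕ} [NeZero m] (s : Fin m → Lt k) (g : Fin m → FG k)
    (f : Lt k × Lt k → Bool) :
    {x : Fin m × ℕ | ∃ e, PEd s g x.1 x.2 e ∧ f e = true}.Finite ∧
      {x : Fin m × ℕ | ∃ e, PEd s g x.1 x.2 e ∧ f e = true}.ncard =
        (edg (wrd s g)).countP f := by
  classical
  have hfin : ∀ i : Fin m, {j : ℕ | ∃ e, (pe (bar (s i)) (g i).toWord (s (i + 1)))[j]? = some e ∧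
      f e = true}.Finite := fun i => (lb1_count _ f).1
  have hset : {x : Fin m × ℕ | ∃ e, PEd s g x.1 x.2 e ∧ f e = true} =
      ↑((Finset.univ : Finset (Fin m)).biUnion fun i => (hfin i).toFinset.image (Prod.mk i)) := by
    ext x
    obtain ⟨i, j⟩ := x
    simp only [Finset.coe_biUnion, Set.mem_iUnion, Finset.coe_image, Set.mem_image,
      Finset.mem_coe, Finset.mem_univ, Set.Finite.mem_toFinset]
    constructor
    · intro h
      exact ⟨i, trivial, j, h, rfl⟩
    · rintro ⟨i', -, j', h, h'⟩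
      cases h'
      exact h
  rw [hset]
  refine ⟨Finset.finite_toSet _, ?_⟩
  rw [Set.ncard_coe_finset, Finset.card_biUnion, wrd_countP]
  · apply Finset.sum_congr rfl
    intro i _
    rw [Finset.card_image_of_injective _ (Prod.mk_right_injective i), ← (lb1_count _ f).2,
      Set.ncard_eq_toFinset_card _ (hfin i)]
  · intro i _ i' _ hii
    rw [Function.onFun, Finset.disjoint_left]
    intro x hx hx'
    obtain ⟨j, -, rfl⟩ := Finset.mem_image.1 hx
    obtain ⟨j', -, h⟩ := Finset.mem_image.1 hx'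
    exact hii (Prod.ext_iff.1 h).1.symm

private theorem lb1_FY {Y : Finset (Fin k)} {L : List (Lt k)} (h : ∀ a ∈ L, a.1 ∈ Y) :
    FreeGroup.mk L ∈ FY Y := by
  rw [mem_FY]
  intro a ha
  rw [FreeGroup.toWord_mk] at ha
  exact h a ((FreeGroup.Red.sublist FreeGroup.reduce.red).subset ha)

theorem stv_mem {Y : Finset (Fin k)} {m : ℕ} [NeZero m] {s : Fin m → Lt k} {g : Fin m → FG k}
    (hv : Val Y s g) {V : FG k} (hV : V ∈ FY Y) (i : Fin m) (j : ℕ) : stv g V i j ∈ FY Y := by
  unfold stv
  refine (FY Y).mul_mem hV ((FY Y).inv_mem (lb1_FY ?_))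
  intro a ha
  exact (mem_FY Y (g i)).1 (hv.hg i) a (List.mem_of_mem_take ha)

private theorem lb1_take {L : List (Lt k)} (h : FreeGroup.IsReduced L) (j : ℕ) :
    FreeGroup.IsReduced (L.take j) := by
  have h1 : FreeGroup.IsReduced (L.take j ++ L.drop j) := by
    rw [List.take_append_drop]
    exact h
  exact List.IsChain.left_of_append h1

private theorem lb1_drop {L : List (Lt k)} (h : FreeGroup.IsReduced L) (j : ℕ) :
    FreeGroup.IsReduced (L.drop j) := by
  have h1 : FreeGroup.IsReduced (L.take j ++ L.drop j) := by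
    rw [List.take_append_drop]
    exact h
  exact List.IsChain.right_of_append h1

private theorem lb1_red_take (g : FG k) (j : ℕ) :
    (FreeGroup.mk (g.toWord.take j) : FG k).toWord = g.toWord.take j := by
  rw [FreeGroup.toWord_mk]
  apply FreeGroup.IsReduced.reduce_eq
  exact lb1_take FreeGroup.isReduced_toWord j

theorem stv_inj {m : ℕ} [NeZero m] (s : Fin m → Lt k) (g : Fin m → FG k) (V : FG k) (i : Fin m)
    {j j' : ℕ} {e e' : Lt k × Lt k} (h : PEd s g i j e) (h' : PEd s g i j' e')
    (hj : stv g V i j = stv g V i j') : j = j' := by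
  have h1 : j ≤ (g i).toWord.length := (lb1_left (x := e.1) (y := e.2) h).1
  have h2 : j' ≤ (g i).toWord.length := (lb1_left (x := e'.1) (y := e'.2) h').1
  unfold stv at hj
  have h3 := inv_injective (mul_left_cancel hj)
  have h4 := congrArg FreeGroup.toWord h3
  rw [lb1_red_take, lb1_red_take] at h4
  have h5 := congrArg List.length h4
  rw [List.length_take, List.length_take] at h5
  omega

private theorem lb1_app {V : FG k} {x : Lt k} (h : (V * lt x).norm = V.norm + 1) :
    (V * lt x).toWord = V.toWord ++ [x] := by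
  have hlt : (lt x : FG k).toWord = [x] := by
    unfold lt
    rw [FreeGroup.toWord_mk, FreeGroup.reduce_singleton]
  have h1 := FreeGroup.toWord_mul_sublist V (lt x)
  rw [hlt] at h1
  apply h1.eq_of_length
  unfold FreeGroup.norm at h
  rw [h]
  simp

/-- going below a vertex -/
private theorem lb1_below {Y : Finset (Fin k)} {σ : FG k → Lt k → Prop} {τ : FG k → Prop}
    {D : Finset (FG k)} (hD : OKD Y σ τ D) {V : FG k} (hV : V ∈ FY Y) {x : Lt k} (hxY : x.1 ∈ Y)
    (hx : V * lt x ∉ D ∧ (V * lt x).norm = V.norm + 1) {L : List (Lt k)}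
    (hL : ∀ a ∈ L, a.1 ∈ Y) (hred : FreeGroup.IsReduced (x :: L)) {p : Lt k} (hp : p.1 ∉ Y) :
    σ (V * lt x * FreeGroup.mk L) p ↔ τ (V * lt x) := by
  have hU : V * lt x ∈ FY Y := (FY Y).mul_mem hV (lt_mem_FY hxY)
  have hU2 : V * lt x * FreeGroup.mk L ∈ FY Y := (FY Y).mul_mem hU (lb1_FY hL)
  have h1 := lb1_app hx.2
  have h2 : (V * lt x * FreeGroup.mk L).toWord = (V * lt x).toWord ++ L := by
    have h3 : V * lt x * FreeGroup.mk L = FreeGroup.mk ((V * lt x).toWord ++ L) := by
      rw [← FreeGroup.mul_mk, FreeGroup.mk_toWord]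
    rw [h3, FreeGroup.toWord_mk]
    apply FreeGroup.IsReduced.reduce_eq
    rw [h1]
    apply FreeGroup.IsReduced.append_overlap
    · rw [← h1]
      exact FreeGroup.isReduced_toWord
    · rw [List.singleton_append]
      exact hred
    · simp
  exact ((hD.out (V * lt x) hU hx.1 _ hU2 ⟨L, h2.symm⟩).2 p hp)

private theorem lb1_invRev {L : List (Lt k)} (h : FreeGroup.IsReduced L) :
    FreeGroup.IsReduced (FreeGroup.invRev L) := by
  rw [FreeGroup.isReduced_iff_reduce_eq] at h ⊢
  rw [FreeGroup.reduce_invRev, h]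

theorem through_left {Y : Finset (Fin k)} {m : ℕ} [NeZero m] {s : Fin m → Lt k}
    {g : Fin m → FG k} (hv : Val Y s g) {σ : FG k → Lt k → Prop} {τ : FG k → Prop}
    {D : Finset (FG k)} (hD : OKD Y σ τ D) {V : FG k} (hV : V ∈ FY Y) {i : Fin m} {j : ℕ}
    {x y : Lt k} (he : PEd s g i j (x, y))
    (hx : x.1 ∈ Y → V * lt x ∉ D ∧ (V * lt x).norm = V.norm + 1) :
    σ (stv g V i j) (bar (s i)) ↔ dsg Y σ τ V x := by
  have hgi := (mem_FY Y (g i)).1 (hv.hg i)
  obtain ⟨h0, ⟨rfl, rfl⟩ | ⟨j', rfl, hj', rfl⟩⟩ := lb1_left he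
  · have h1 : stv g V i 0 = V := by
      unfold stv
      rw [List.take_zero, ← FreeGroup.one_eq_mk, inv_one, mul_one]
    rw [h1]
    unfold dsg
    have h2 : (bar (s i)).1 ∉ Y := hv.hs i
    simp [h2]
  · have hcY : ((g i).toWord[j']).1 ∈ Y := hgi _ (List.getElem_mem hj')
    have hxY : (bar ((g i).toWord[j'])).1 ∈ Y := hcY
    have hx' := hx hxY
    have h1 : stv g V i (j' + 1) = V * lt (bar ((g i).toWord[j'])) *
        FreeGroup.mk (FreeGroup.invRev ((g i).toWord.take j')) := by
      unfold stv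
      rw [List.take_succ_eq_append_getElem hj', ← FreeGroup.mul_mk, mul_inv_rev, lt_bar,
        ← FreeGroup.inv_mk, mul_assoc]
      rfl
    rw [h1, lb1_below (p := bar (s i)) hD hV hxY hx' ?_ ?_ (hv.hs i)]
    · unfold dsg
      simp [hxY]
    · intro a ha
      unfold FreeGroup.invRev at ha
      simp only [List.mem_reverse, List.mem_map] at ha
      obtain ⟨b, hb, rfl⟩ := ha
      exact hgi b (List.mem_of_mem_take hb)
    · have h2 : bar ((g i).toWord[j']) :: FreeGroup.invRev ((g i).toWord.take j') =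
          FreeGroup.invRev ((g i).toWord.take (j' + 1)) := by
        rw [List.take_succ_eq_append_getElem hj']
        unfold FreeGroup.invRev
        rw [List.map_append, List.reverse_append]
        rfl
      rw [h2]
      exact lb1_invRev (lb1_take FreeGroup.isReduced_toWord _)

theorem through_right {Y : Finset (Fin k)} {m : ℕ} [NeZero m] {s : Fin m → Lt k}
    {g : Fin m → FG k} (hv : Val Y s g) {σ : FG k → Lt k → Prop} {τ : FG k → Prop}
    {D : Finset (FG k)} (hD : OKD Y σ τ D) {V : FG k} (hV : V ∈ FY Y) {i : Fin m} {j : ℕ}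
    {x y : Lt k} (he : PEd s g i j (x, y))
    (hy : y.1 ∈ Y → V * lt y ∉ D ∧ (V * lt y).norm = V.norm + 1) :
    σ (stv g V i j * g i) (s (i + 1)) ↔ dsg Y σ τ V y := by
  have hgi := (mem_FY Y (g i)).1 (hv.hg i)
  have hst : stv g V i j * g i = V * FreeGroup.mk ((g i).toWord.drop j) := by
    unfold stv
    have h1 : g i = FreeGroup.mk ((g i).toWord.take j) * FreeGroup.mk ((g i).toWord.drop j) := by
      rw [FreeGroup.mul_mk, List.take_append_drop, FreeGroup.mk_toWord]
    conv_lhs => rw [mul_assoc]; rhs; rhs; rw [h1]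
    rw [← mul_assoc, ← mul_assoc, inv_mul_cancel_right]
  rw [hst]
  rcases lb1_right he with ⟨rfl, rfl⟩ | ⟨hj, rfl⟩
  · rw [List.drop_length, ← FreeGroup.one_eq_mk, mul_one]
    unfold dsg
    have h2 : (s (i + 1)).1 ∉ Y := hv.hs (i + 1)
    simp [h2]
  · have hyY : ((g i).toWord[j]).1 ∈ Y := hgi _ (List.getElem_mem hj)
    have hy' := hy hyY
    have h1 : V * FreeGroup.mk ((g i).toWord.drop j) = V * lt ((g i).toWord[j]) *
        FreeGroup.mk ((g i).toWord.drop (j + 1)) := by
      rw [List.drop_eq_getElem_cons hj]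
      unfold lt
      rw [mul_assoc, FreeGroup.mul_mk]
      rfl
    rw [h1, lb1_below hD hV hyY hy' ?_ ?_ (hv.hs (i + 1))]
    · unfold dsg
      simp [hyY]
    · intro a ha
      exact hgi a (List.mem_of_mem_drop ha)
    · rw [← List.drop_eq_getElem_cons hj]
      exact lb1_drop FreeGroup.isReduced_toWord _

/-- A passage which starts at `V`, resp. ends at `V`, is the passage with `j = 0`, resp. with
`j = |g i|`. -/
theorem stv_zero {m : ℕ} [NeZero m] (s : Fin m → Lt k) (g : Fin m → FG k) (V : FG k)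
    (i : Fin m) : stv g V i 0 = V ∧ ∃ y, PEd s g i 0 (bar (s i), y) := by
  constructor
  · unfold stv
    rw [List.take_zero, ← FreeGroup.one_eq_mk, inv_one, mul_one]
  · unfold PEd
    cases (g i).toWord with
    | nil => exact ⟨s (i + 1), rfl⟩
    | cons c w => exact ⟨c, rfl⟩

theorem stv_last {m : ℕ} [NeZero m] (s : Fin m → Lt k) (g : Fin m → FG k) (V : FG k)
    (i : Fin m) : stv g (V * g i) i (g i).norm = V ∧
      ∃ x, PEd s g i (g i).norm (x, s (i + 1)) := by
  constructor
  · unfold stv FreeGroup.norm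
    rw [List.take_length, FreeGroup.mk_toWord, mul_inv_cancel_right]
  · unfold PEd FreeGroup.norm
    have hlt : (g i).toWord.length < (bar (s i) :: (g i).toWord.map bar).length := by simp
    refine ⟨(bar (s i) :: (g i).toWord.map bar)[(g i).toWord.length], ?_⟩
    rw [lb1_iff]
    refine ⟨List.getElem?_eq_getElem hlt, ?_⟩
    rw [List.getElem?_append_right le_rfl, Nat.sub_self]
    rfl

theorem PEd_cases {Y : Finset (Fin k)} {m : ℕ} [NeZero m] {s : Fin m → Lt k}
    {g : Fin m → FG k} (hv : Val Y s g) {i : Fin m} {j : ℕ} {x y : Lt k}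
    (he : PEd s g i j (x, y)) :
    (x.1 ∉ Y ↔ j = 0) ∧ (j = 0 → x = bar (s i)) ∧ (y.1 ∉ Y ↔ j = (g i).norm) ∧
      (j = (g i).norm → y = s (i + 1)) ∧ x ≠ y := by
  have hgi := (mem_FY Y (g i)).1 (hv.hg i)
  have hne : x ≠ y := by
    have h1 : (x, y) ∈ edg (wrd s g) := by
      rw [mem_edg_wrd]
      exact ⟨i, List.mem_of_getElem? he⟩
    exact edg_ne (wrd_CR hv) _ h1
  obtain ⟨-, hl⟩ := lb1_left he
  have hr := lb1_right he
  refine ⟨?_, ?_, ?_, ?_, hne⟩
  · rcases hl with ⟨rfl, rfl⟩ | ⟨j', rfl, hj', rfl⟩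
    · exact ⟨fun _ => rfl, fun _ => hv.hs i⟩
    · have hcY : ((g i).toWord[j']).1 ∈ Y := hgi _ (List.getElem_mem hj')
      exact ⟨fun h => absurd hcY h, fun h => absurd h (Nat.succ_ne_zero _)⟩
  · intro h
    rcases hl with ⟨_, h2⟩ | ⟨j', h2, -⟩
    · exact h2
    · omega
  · unfold FreeGroup.norm
    rcases hr with ⟨h1, rfl⟩ | ⟨hj, rfl⟩
    · exact ⟨fun _ => h1, fun _ => hv.hs (i + 1)⟩
    · have hcY : ((g i).toWord[j]).1 ∈ Y := hgi _ (List.getElem_mem hj)
      exact ⟨fun h => absurd hcY h, fun h => by omega⟩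
  · unfold FreeGroup.norm
    intro h
    rcases hr with ⟨_, h2⟩ | ⟨hj, -⟩
    · exact h2
    · omega

end Pool.Agent.GRO
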