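import Pool.Agent.GRO.LB1
import Pool.Agent.GRO.CONN

/-!
# LB2: counting at a vertex; the root
* `cut_le`: let `A`, `B` be disjoint sets of letters with `dsg V x` for `x ∈ A`, `¬ dsg V x` for
  `x ∈ B`, and for all letters `x ∈ A ∪ B` over `Y`: `V * lt x ∉ D`, norm `+1`. The map
  `(i, j) ↦ (stv g V i j, i)` is injective (`stv_inj`) from the edges between `A` and `B` to `SepP`
  (`through_left`, `through_right`).
* `lb_root`: `D = {1}`, `V = 1`, `S` = all `x` with `dsg 1 x`, `cap l S ≤ c` (`A = S`, `B = Sᶜ`,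
  `cap l S = ebt l S Sᶜ`). There are `V, V' ≠ 1` in `FY Y` with `τ V`, `¬ τ V'` (infinite sets, `D`
  finite); their first letters `a`, `a'` (over `Y`) satisfy `τ (lt a)`, `¬ τ (lt a')` by `OKD.out`
  (`lt a ∉ {1}`). So `a ∈ S`, `a' ∉ S`, `C a a'` (`Yb_spec`), and `I3` gives `T ≤ 2 * c`.
-/

set_option autoImplicit false

namespace Pool.Agent.GRO

variable {k : ℕ}

theorem cut_le {Y : Finset (Fin k)} {m : ℕ} [NeZero m] {s : Fin m → Lt k}
    {g : Fin m → FG k} (hv : Val Y s g) {σ : FG k → Lt k → Prop} {τ : FG k → Prop}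
    {D : Finset (FG k)} (hD : OKD Y σ τ D) {V : FG k} (hV : V ∈ FY Y) {A B : Finset (Lt k)}
    (hA : ∀ x ∈ A, dsg Y σ τ V x ∧ (x.1 ∈ Y → V * lt x ∉ D ∧ (V * lt x).norm = V.norm + 1))
    (hB : ∀ x ∈ B, ¬ dsg Y σ τ V x ∧ (x.1 ∈ Y → V * lt x ∉ D ∧ (V * lt x).norm = V.norm + 1))
    (hS : (SepP Y s g σ).Finite) : ebt (wrd s g) A B ≤ (SepP Y s g σ).ncard := by
  have hc := count_ncard s g
    (fun e => decide ((e.1 ∈ A ∧ e.2 ∈ B) ∨ (e.1 ∈ B ∧ e.2 ∈ A)))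
  unfold ebt
  rw [← hc.2]
  refine Set.ncard_le_ncard_of_injOn (fun z : Fin m × ℕ => (stv g V z.1 z.2, z.1)) ?_ ?_ hS
  · rintro ⟨i, j⟩ ⟨⟨x, y⟩, he, hf⟩
    rw [decide_eq_true_eq] at hf
    simp only at he hf
    refine ⟨stv_mem hv hV i j, ?_⟩
    simp only
    rcases hf with ⟨h1, h2⟩ | ⟨h1, h2⟩
    · rw [through_left hv hD hV he (hA x h1).2, through_right hv hD hV he (hB y h2).2]
      exact fun h => (hB y h2).1 (h.1 (hA x h1).1)
    · rw [through_left hv hD hV he (hB x h1).2, through_right hv hD hV he (hA y h2).2]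
      exact fun h => (hB x h1).1 (h.2 (hA y h2).1)
  · rintro ⟨i, j⟩ ⟨e, he, _⟩ ⟨i', j'⟩ ⟨e', he', _⟩ heq
    obtain ⟨h1, h2⟩ := Prod.mk.inj heq
    simp only at h1 h2 he he'
    subst h2
    rw [stv_inj s g V i he he' h1]

private theorem lb2_word (x : Lt k) : (lt x).toWord = [x] := by
  unfold lt
  rw [FreeGroup.toWord_mk]
  rfl

private theorem lb2_ne (x : Lt k) : lt x ≠ 1 := by
  intro h
  have := lb2_word x
  rw [h, FreeGroup.toWord_one] at this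
  exact List.cons_ne_nil _ _ this.symm

private theorem lb2_letter {Y : Finset (Fin k)} {σ : FG k → Lt k → Prop} {τ : FG k → Prop}
    (hD : OKD Y σ τ {1}) {V : FG k} (hV : V ∈ FY Y) (h1 : V ≠ 1) :
    ∃ a : Lt k, a.1 ∈ Y ∧ (τ V ↔ τ (lt a)) := by
  have hw : V.toWord ≠ [] := fun e => h1 (FreeGroup.toWord_eq_nil_iff.1 e)
  obtain ⟨a, w, haw⟩ := List.exists_cons_of_ne_nil hw
  have haY : a.1 ∈ Y := (mem_FY Y V).1 hV a (by rw [haw]; exact List.mem_cons_self)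
  refine ⟨a, haY, (hD.out (lt a) (lt_mem_FY haY) ?_ V hV ?_).1⟩
  · rw [Finset.mem_singleton]; exact lb2_ne a
  · rw [lb2_word, haw]
    exact ⟨w, rfl⟩

theorem lb_root {C : Lt k → Lt k → Prop} (hC : Str C) {T c : ℕ} (hT : 0 < T)
    (hc : 16 * c ≤ 3 * T) {y : Fin k} (hy : C (y, true) (y, false)) {m : ℕ} [NeZero m]
    {s : Fin m → Lt k} {g : Fin m → FG k} (hv : Val (Yb C y) s g) (hI : I3 C T (wrd s g))
    {σ : FG k → Lt k → Prop} {τ : FG k → Prop} (hD : OKD (Yb C y) σ τ {1})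
    (h1 : {V | V ∈ FY (Yb C y) ∧ τ V}.Infinite) (h2 : {V | V ∈ FY (Yb C y) ∧ ¬ τ V}.Infinite)
    (hS : (SepP (Yb C y) s g σ).Finite) (hcard : (SepP (Yb C y) s g σ).ncard ≤ c) : False := by
  classical
  set S : Finset (Lt k) := Finset.univ.filter fun x => dsg (Yb C y) σ τ 1 x with hSdef
  have hmem : ∀ x, x ∈ S ↔ dsg (Yb C y) σ τ 1 x := fun x => by
    rw [hSdef, Finset.mem_filter]
    exact ⟨fun h => h.2, fun h => ⟨Finset.mem_univ _, h⟩⟩
  have hnorm : ∀ x : Lt k, (1 : FG k) * lt x ∉ ({1} : Finset (FG k)) ∧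
      ((1 : FG k) * lt x).norm = (1 : FG k).norm + 1 := by
    intro x
    rw [one_mul, Finset.mem_singleton]
    refine ⟨lb2_ne x, ?_⟩
    unfold FreeGroup.norm
    rw [lb2_word, FreeGroup.toWord_one]
    rfl
  have hle : ebt (wrd s g) S Sᶜ ≤ (SepP (Yb C y) s g σ).ncard := by
    refine cut_le hv hD (Subgroup.one_mem _) (fun x hx => ⟨(hmem x).1 hx, fun _ => hnorm x⟩)
      (fun x hx => ⟨fun h => ?_, fun _ => hnorm x⟩) hS
    exact (Finset.mem_compl.1 hx) ((hmem x).2 h)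
  have hcap : cap (wrd s g) S = ebt (wrd s g) S Sᶜ := by
    unfold cap ebt
    refine List.countP_congr fun e _ => ?_
    simp only [Finset.mem_compl, decide_eq_true_eq]
    by_cases p1 : e.1 ∈ S <;> by_cases p2 : e.2 ∈ S <;> simp [p1, p2]
  have hI' := hI S (by omega)
  obtain ⟨V, ⟨hV, hτ⟩, hV1⟩ := (h1.sdiff (Set.finite_singleton 1)).nonempty
  obtain ⟨V', ⟨hV', hτ'⟩, hV1'⟩ := (h2.sdiff (Set.finite_singleton 1)).nonempty
  obtain ⟨a, haY, ha⟩ := lb2_letter hD hV hV1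
  obtain ⟨a', haY', ha'⟩ := lb2_letter hD hV' hV1'
  have hCa : C a a' := (Yb_spec hC hy a a' haY).2 haY'
  have m1 : a ∈ S := (hmem a).2 (Or.inl ⟨haY, by rw [one_mul]; exact ha.1 hτ⟩)
  have m2 := (hmem a').1 ((hI' a a' hCa).1 m1)
  rcases m2 with ⟨_, m3⟩ | ⟨m3, _⟩
  · rw [one_mul] at m3
    exact hτ' (ha'.2 m3)
  · exact m3 haY'

end Pool.Agent.GRO
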