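import Pool.Agent.GRO.LB2
import Pool.Agent.GRO.RSB

/-!
# LB3: the flip at a deepest vertex
`V ∈ D` has maximal norm in `D`, `V ≠ 1`, `z = bar (last letter of V)`; for all letters `x ≠ z` over
`Y`, `V * lt x ∉ D` and its norm is `|V| + 1`.
* `flip_count`: all directions at `V` in `Q` (ports only) have the sign opposite to `ε`, all
  directions in `Q'` have the sign `ε`, and `Q`, `Q'`, `{z}` partition the letters. Put
  `σ' U p = if U = V then ε else σ U p`, `τ' U = if U = V then ε else τ U`. `OKD (D.erase V) σ' τ'`: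
  `out` for the vertex `V` itself: the words properly below `V` begin with `V * lt x`, `x` over `Y`,
  `x ≠ z`, so `x ∈ Q'` (`Q` has only ports) and `τ (V * lt x) ↔ ε`; for other vertices outside `D`
  nothing below them is `V`.
  Counting: `X` = image of the edges between `Q` and `Q'` under `(i, j) ↦ (stv g V i j, i)`, `X'` =
  image of the edges between `Q` and `{z}`. `|X| = ebt Q Q'` (injective), `X ⊆ SepP σ`
  (`through_left/right`), `X` is disjoint from `SepP σ'` (one end is at `(V, p)`, `p ∈ Q`, with new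
  sign `ε`; the other end has the sign of a direction in `Q'` at `V`, which is `ε` before and after),
  `|X'| ≤ ebt Q {z}`, and `SepP σ' ⊆ (SepP σ \ X) ∪ X'`: if the status of `(U, i)` changes then one of
  its ends is `(V, p)` with `p ∈ Q`: start: `U = V`, `bar (s i) ∈ Q` (edge `j = 0`, `stv_zero`); end:
  `U * g i = V`, `s (i+1) ∈ Q` (edge `j = |g i|`, `stv_last`); the other letter of this edge is in
  `Q` (then it is a port, so the passage is empty, both ends are at `V` in `Q`, both signs were
  equal and are equal), in `Q'` (`X`) or is `z` (`X'`).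
  `cap Q = ebt Q {z} + ebt Q Q'` (`cap_eq_add`) and `2 ebt Q {z} ≤ cap Q` give
  `ebt Q {z} ≤ ebt Q Q'`, so the number does not increase.
-/

set_option autoImplicit false

namespace Pool.Agent.GRO

variable {k : ℕ}

/-- The starting points of the passages with an edge between `Q` and `Q2` at `V`. -/
def LB3_X {m : ℕ} [NeZero m] (s : Fin m → Lt k) (g : Fin m → FG k) (V : FG k)
    (Q Q2 : Finset (Lt k)) : Set (FG k × Fin m) :=
  {x | ∃ j x0 y0, PEd s g x.2 j (x0, y0) ∧ ((x0 ∈ Q ∧ y0 ∈ Q2) ∨ (x0 ∈ Q2 ∧ y0 ∈ Q)) ∧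
    x.1 = stv g V x.2 j}

theorem LB3_card {m : ℕ} [NeZero m] (s : Fin m → Lt k) (g : Fin m → FG k) (V : FG k)
    (Q Q2 : Finset (Lt k)) :
    (LB3_X s g V Q Q2).Finite ∧ (LB3_X s g V Q Q2).ncard = ebt (wrd s g) Q Q2 := by
  classical
  obtain ⟨hf, hc⟩ := count_ncard s g
    (fun e => decide ((e.1 ∈ Q ∧ e.2 ∈ Q2) ∨ (e.1 ∈ Q2 ∧ e.2 ∈ Q)))
  have himg : LB3_X s g V Q Q2 = (fun x : Fin m × ℕ => (stv g V x.1 x.2, x.1)) ''
      {x : Fin m × ℕ | ∃ e, PEd s g x.1 x.2 e ∧
        (fun e : Lt k × Lt k =>
          decide ((e.1 ∈ Q ∧ e.2 ∈ Q2) ∨ (e.1 ∈ Q2 ∧ e.2 ∈ Q))) e = true} := by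
    ext ⟨U, i⟩
    constructor
    · rintro ⟨j, x0, y0, h1, h2, h3⟩
      refine ⟨(i, j), ⟨(x0, y0), h1, ?_⟩, ?_⟩
      · simpa using h2
      · exact Prod.ext h3.symm rfl
    · rintro ⟨⟨i', j⟩, ⟨⟨x0, y0⟩, h1, h2⟩, h3⟩
      obtain ⟨rfl, rfl⟩ := Prod.mk.inj h3
      exact ⟨j, x0, y0, h1, by simpa using h2, rfl⟩
  constructor
  · rw [himg]
    exact hf.image _
  · rw [himg, Set.ncard_image_of_injOn, hc]
    · rfl
    · rintro ⟨i, j⟩ ⟨e, he, -⟩ ⟨i', j'⟩ ⟨e', he', -⟩ h
      obtain ⟨h1, h2⟩ := Prod.mk.inj h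
      simp only at h1 h2 he he'
      subst h2
      rw [stv_inj s g V i he he' h1]

theorem LB3_prefix {V U : FG k} (h : V.toWord <+: U.toWord) (hne : U ≠ V) :
    V.norm < U.norm := by
  rcases Nat.lt_or_ge V.norm U.norm with h1 | h1
  · exact h1
  · exfalso
    apply hne
    apply FreeGroup.toWord_injective
    exact (h.eq_of_length_le h1).symm

theorem LB3_stv_last {m : ℕ} (g : Fin m → FG k) (V : FG k) (i : Fin m) :
    stv g V i (g i).norm * g i = V := by
  unfold stv
  have h : (g i).toWord.take (g i).norm = (g i).toWord := List.take_length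
  rw [h, FreeGroup.mk_toWord, inv_mul_cancel_right]

theorem LB3_stv_zero {m : ℕ} (g : Fin m → FG k) (V : FG k) (i : Fin m) :
    stv g V i 0 = V := by
  unfold stv
  rw [List.take_zero, ← FreeGroup.one_eq_mk, inv_one, mul_one]

theorem LB3_lt_word (a : Lt k) : (lt a).toWord = [a] := by
  unfold lt
  rw [FreeGroup.toWord_mk, FreeGroup.reduce_singleton]

/-- Letters over `Y` different from `z`. -/
theorem LB3_up {V : FG k} {z : Lt k} (hzV : (V * lt z).norm + 1 = V.norm) {x : Lt k}
    (hx : x ≠ z) : (V * lt x).toWord = V.toWord ++ [x] := by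
  -- the last letter of `V` is `bar z`
  have hV : V = (V * lt z) * lt (bar z) := by
    rw [lt_bar, mul_inv_cancel_right]
  have hw : V.toWord = (V * lt z).toWord ++ [bar z] := by
    have h := FreeGroup.toWord_mul_sublist (V * lt z) (lt (bar z))
    rw [← hV, LB3_lt_word] at h
    apply h.eq_of_length
    rw [List.length_append]
    change V.norm = (V * lt z).norm + 1
    exact hzV.symm
  rw [FreeGroup.toWord_mul, LB3_lt_word]
  apply FreeGroup.IsReduced.reduce_eq
  rw [hw, List.append_assoc]
  have h1 : FreeGroup.IsReduced ((V * lt z).toWord ++ [bar z]) := by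
    rw [← hw]
    exact FreeGroup.isReduced_toWord
  have h2 : FreeGroup.IsReduced ([bar z] ++ [x]) := by
    change FreeGroup.IsReduced [bar z, x]
    rw [FreeGroup.isReduced_cons_cons]
    refine ⟨?_, FreeGroup.IsReduced.singleton⟩
    intro h
    by_contra hc
    apply hx
    refine Prod.ext h.symm ?_
    have h3 : (bar z).2 = !z.2 := rfl
    rw [h3] at hc
    revert hc
    cases x.2 <;> cases z.2 <;> simp
  have h3 := h1.append_overlap h2 (by simp)
  simpa using h3

theorem flip {Y : Finset (Fin k)} {m : ℕ} [NeZero m] {s : Fin m → Lt k}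
    {g : Fin m → FG k} (hv : Val Y s g) {σ : FG k → Lt k → Prop} {τ : FG k → Prop}
    {D : Finset (FG k)} (hD : OKD Y σ τ D) {V : FG k} (hVD : V ∈ D) (hV1 : V ≠ 1)
    (hmax : ∀ U ∈ D, U.norm ≤ V.norm) {z : Lt k} (hz : z.1 ∈ Y)
    (hzV : (V * lt z).norm + 1 = V.norm) {Q Q' : Finset (Lt k)} {ε : Prop}
    (hQ : ∀ x ∈ Q, x.1 ∉ Y ∧ (dsg Y σ τ V x ↔ ¬ ε)) (hQ' : ∀ x ∈ Q', dsg Y σ τ V x ↔ ε)
    (h1 : z ∉ Q) (h2 : z ∉ Q') (h3 : Disjoint Q Q') (h4 : ∀ x, x ∈ Q ∨ x ∈ Q' ∨ x = z)
    (hsl : 2 * ebt (wrd s g) Q {z} ≤ cap (wrd s g) Q) (hS : (SepP Y s g σ).Finite) :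
    ∃ (σ' : FG k → Lt k → Prop) (τ' : FG k → Prop), OKD Y σ' τ' (D.erase V) ∧
      (∀ U, U ≠ V → (τ' U ↔ τ U)) ∧ (SepP Y s g σ').Finite ∧
      (SepP Y s g σ').ncard ≤ (SepP Y s g σ).ncard := by
  classical
  -- letters over `Y`
  have hup : ∀ x : Lt k, x ≠ z → V * lt x ∉ D ∧ (V * lt x).norm = V.norm + 1 := by
    intro x hx
    have h5 : (V * lt x).norm = V.norm + 1 := by
      change (V * lt x).toWord.length = _
      rw [LB3_up hzV hx, List.length_append]
      rfl
    refine ⟨fun h => ?_, h5⟩
    have := hmax _ h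
    omega
  have hVY : V ∈ FY Y := hD.mem V hVD
  have hQz : ∀ x ∈ Q, x ≠ z := fun x hx h => h1 (h ▸ hx)
  have hQz' : ∀ x ∈ Q', x ≠ z := fun x hx h => h2 (h ▸ hx)
  -- the new signs
  obtain ⟨σ', hσ'⟩ : ∃ σ' : FG k → Lt k → Prop,
      ∀ U p, σ' U p ↔ ((U = V ∧ ε) ∨ (U ≠ V ∧ σ U p)) := ⟨_, fun _ _ => Iff.rfl⟩
  obtain ⟨τ', hτ'⟩ : ∃ τ' : FG k → Prop,
      ∀ U, τ' U ↔ ((U = V ∧ ε) ∨ (U ≠ V ∧ τ U)) := ⟨_, fun _ => Iff.rfl⟩
  have hσV : ∀ p, σ' V p ↔ ε := fun p => by rw [hσ']; tauto
  have hσne : ∀ U p, U ≠ V → (σ' U p ↔ σ U p) := fun U p h => by rw [hσ']; tauto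
  have hτV : τ' V ↔ ε := by rw [hτ']; tauto
  have hτne : ∀ U, U ≠ V → (τ' U ↔ τ U) := fun U h => by rw [hτ']; tauto
  refine ⟨σ', τ', ?_, hτne, ?_⟩
  · refine ⟨fun U hU => hD.mem U (Finset.mem_of_mem_erase hU), ?_, ?_, ?_⟩
    · exact Finset.mem_erase.2 ⟨fun h => hV1 h.symm, hD.one⟩
    · intro V0 hV0 U hU
      rw [Finset.mem_erase] at hV0
      refine Finset.mem_erase.2 ⟨?_, hD.pre V0 hV0.2 U hU⟩
      rintro rfl
      have h5 := LB3_prefix hU hV0.1
      have h6 := hmax V0 hV0.2
      omega
    · intro V0 hV0Y hV0 U hUY hU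
      by_cases hVV : V0 = V
      · subst hVV
        by_cases hUV : U = V0
        · subst hUV
          exact ⟨Iff.rfl, fun p _ => by rw [hσV, hτV]⟩
        · -- the next letter
          obtain ⟨t, ht⟩ := hU
          rcases t with _ | ⟨x, t⟩
          · exfalso
            apply hUV
            apply FreeGroup.toWord_injective
            rw [← ht, List.append_nil]
          · have hxY : x.1 ∈ Y := by
              apply (mem_FY Y U).1 hUY x
              rw [← ht]
              simp
            have hxz : x ≠ z := by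
              rintro rfl
              -- `V0` ends with `bar x`, so `V0.toWord ++ x :: t` is not reduced
              have hV : V0 = (V0 * lt x) * lt (bar x) := by
                rw [lt_bar, mul_inv_cancel_right]
              have hw : V0.toWord = (V0 * lt x).toWord ++ [bar x] := by
                have h := FreeGroup.toWord_mul_sublist (V0 * lt x) (lt (bar x))
                rw [← hV, LB3_lt_word] at h
                apply h.eq_of_length
                rw [List.length_append]
                change V0.norm = (V0 * lt x).norm + 1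
                exact hzV.symm
              have hr : FreeGroup.IsReduced U.toWord := FreeGroup.isReduced_toWord
              rw [← ht, hw] at hr
              have hr2 : FreeGroup.IsReduced [bar x, x] := by
                apply red_sub hr
                exact ⟨(V0 * lt x).toWord, t, by simp⟩
              rw [FreeGroup.isReduced_cons_cons] at hr2
              have h8 := hr2.1 rfl
              have h9 : (bar x).2 = !x.2 := rfl
              rw [h9] at h8
              revert h8
              cases x.2 <;> simp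
            have hxQ : x ∈ Q' := by
              rcases h4 x with h | h | h
              · exact absurd hxY (hQ x h).1
              · exact h
              · exact absurd h hxz
            have hτx : τ (V0 * lt x) ↔ ε := by
              rw [← hQ' x hxQ]
              unfold dsg
              tauto
            have hxFY : V0 * lt x ∈ FY Y := (FY Y).mul_mem hVY (lt_mem_FY hxY)
            have hpre : (V0 * lt x).toWord <+: U.toWord := by
              rw [LB3_up hzV hxz, ← ht]
              exact ⟨t, by simp⟩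
            have ho := hD.out (V0 * lt x) hxFY (hup x hxz).1 U hUY hpre
            refine ⟨?_, fun p hp => ?_⟩
            · rw [hτne U hUV, hτV, ho.1, hτx]
            · rw [hσne U p hUV, hτV, ho.2 p hp, hτx]
      · have hV0D : V0 ∉ D := fun h => hV0 (Finset.mem_erase.2 ⟨hVV, h⟩)
        have hUV : U ≠ V := by
          rintro rfl
          exact hV0D (hD.pre U hVD V0 hU)
        have ho := hD.out V0 hV0Y hV0D U hUY hU
        refine ⟨?_, fun p hp => ?_⟩
        · rw [hτne U hUV, hτne V0 hVV, ho.1]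
        · rw [hσne U p hUV, hτne V0 hVV, ho.2 p hp]
  · -- counting
    obtain ⟨hXf, hXc⟩ := LB3_card s g V Q Q'
    obtain ⟨hXf', hXc'⟩ := LB3_card s g V Q {z}
    have hle : ebt (wrd s g) Q {z} ≤ ebt (wrd s g) Q Q' := by
      have := (cap_eq_add (wrd s g) h1 h2 h3 h4).1
      omega
    -- signs of both ends
    have hleft : ∀ {i : Fin m} {j : ℕ} {x y : Lt k}, PEd s g i j (x, y) → x ≠ z →
        (σ (stv g V i j) (bar (s i)) ↔ dsg Y σ τ V x) := fun he hx =>
      through_left hv hD hVY he fun _ => hup _ hx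
    have hright : ∀ {i : Fin m} {j : ℕ} {x y : Lt k}, PEd s g i j (x, y) → y ≠ z →
        (σ (stv g V i j * g i) (s (i + 1)) ↔ dsg Y σ τ V y) := fun he hy =>
      through_right hv hD hVY he fun _ => hup _ hy
    have hXsub : LB3_X s g V Q Q' ⊆ SepP Y s g σ := by
      rintro ⟨U, i⟩ ⟨j, x, y, he, hxy, hU⟩
      simp only at he hU
      subst hU
      refine ⟨stv_mem hv hVY i j, ?_⟩
      show ¬ (σ (stv g V i j) (bar (s i)) ↔ σ (stv g V i j * g i) (s (i + 1)))
      rcases hxy with ⟨hx, hy⟩ | ⟨hx, hy⟩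
      · rw [hleft he (hQz x hx), hright he (hQz' y hy), (hQ x hx).2, hQ' y hy]
        tauto
      · rw [hleft he (hQz' x hx), hright he (hQz y hy), (hQ y hy).2, hQ' x hx]
        tauto
    have hXdis : ∀ a ∈ LB3_X s g V Q Q', a ∉ SepP Y s g σ' := by
      rintro ⟨U, i⟩ ⟨j, x, y, he, hxy, hU⟩ ⟨-, hs⟩
      simp only at he hU hs
      subst hU
      apply hs
      rcases hxy with ⟨hx, hy⟩ | ⟨hx, hy⟩
      · have hj : j = 0 := (PEd_cases hv he).1.1 (hQ x hx).1
        subst hj
        have hz0 := LB3_stv_zero g V i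
        have hr := hright he (hQz' y hy)
        rw [hz0] at hr ⊢
        rw [hσV]
        by_cases hg : V * g i = V
        · rw [hg, hσV]
        · rw [hσne _ _ hg, hr, hQ' y hy]
      · have hj : j = (g i).norm := (PEd_cases hv he).2.2.1.1 (hQ y hy).1
        subst hj
        have hz0 := LB3_stv_last g V i
        have hr := hleft he (hQz' x hx)
        rw [hz0, hσV]
        by_cases hg : stv g V i (g i).norm = V
        · rw [hg, hσV]
        · rw [hσne _ _ hg, hr, hQ' x hx]
    have hsub : SepP Y s g σ' ⊆ (SepP Y s g σ \ LB3_X s g V Q Q') ∪ LB3_X s g V Q {z} := by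
      rintro ⟨U, i⟩ hUi
      have hnX : (U, i) ∉ LB3_X s g V Q Q' := fun h => hXdis _ h hUi
      by_cases hX' : (U, i) ∈ LB3_X s g V Q {z}
      · exact Or.inr hX'
      left
      refine ⟨?_, hnX⟩
      obtain ⟨hUY, hs⟩ := hUi
      simp only at hUY hs
      refine ⟨hUY, ?_⟩
      show ¬ (σ U (bar (s i)) ↔ σ (U * g i) (s (i + 1)))
      have hA : σ' U (bar (s i)) ↔ σ U (bar (s i)) := by
        by_cases hUV : U = V
        · subst hUV
          obtain ⟨-, y, hy⟩ := stv_zero s g U i
          have hxY : (bar (s i)).1 ∉ Y := hv.hs i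
          rcases h4 (bar (s i)) with h | h | h
          · exfalso
            rcases h4 y with h' | h' | h'
            · have : 0 = (g i).norm := (PEd_cases hv hy).2.2.1.1 (hQ y h').1
              have hg1 : g i = 1 := FreeGroup.norm_eq_zero.1 this.symm
              apply hs
              rw [hg1, mul_one, hσV, hσV]
            · exact hnX ⟨0, _, _, hy, Or.inl ⟨h, h'⟩, (LB3_stv_zero g U i).symm⟩
            · exact hX' ⟨0, _, _, hy, Or.inl ⟨h, Finset.mem_singleton.2 h'⟩,
                (LB3_stv_zero g U i).symm⟩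
          · rw [hσV, ← hQ' _ h]
            unfold dsg
            tauto
          · exfalso
            rw [h] at hxY
            exact hxY hz
        · exact hσne _ _ hUV
      have hB : σ' (U * g i) (s (i + 1)) ↔ σ (U * g i) (s (i + 1)) := by
        by_cases hUV : U * g i = V
        · obtain ⟨hst, x, hx⟩ := stv_last s g U i
          rw [hUV] at hst
          have hyY : (s (i + 1)).1 ∉ Y := hv.hs (i + 1)
          rcases h4 (s (i + 1)) with h | h | h
          · exfalso
            rcases h4 x with h' | h' | h'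
            · have : (g i).norm = 0 := (PEd_cases hv hx).1.1 (hQ x h').1
              have hg1 : g i = 1 := FreeGroup.norm_eq_zero.1 this
              apply hs
              have hU : U = V := by rw [← hUV, hg1, mul_one]
              rw [hg1, mul_one, hU, hσV, hσV]
            · exact hnX ⟨(g i).norm, _, _, hx, Or.inr ⟨h', h⟩, hst.symm⟩
            · exact hX' ⟨(g i).norm, _, _, hx, Or.inr ⟨Finset.mem_singleton.2 h', h⟩,
                hst.symm⟩
          · rw [hUV, hσV, ← hQ' _ h]
            unfold dsg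
            tauto
          · exfalso
            rw [h] at hyY
            exact hyY hz
        · exact hσne _ _ hUV
      rw [← hA, ← hB]
      exact hs
    have hfin : ((SepP Y s g σ \ LB3_X s g V Q Q') ∪ LB3_X s g V Q {z}).Finite :=
      (hS.subset Set.diff_subset).union hXf'
    refine ⟨hfin.subset hsub, ?_⟩
    have c1 := Set.ncard_le_ncard hsub hfin
    have c2 := Set.ncard_union_le (SepP Y s g σ \ LB3_X s g V Q Q') (LB3_X s g V Q {z})
    have c3 := Set.ncard_diff_add_ncard_of_subset hXsub hS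
    omega

end Pool.Agent.GRO
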