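import Pool.Agent.GRO.LIN
import Pool.Agent.GRO.CUT

/-!
# LIN2: Whitehead edges are passages of the line
The edges of `l` are the pairs `(bar (Lz (j-1)), Lz j)` for `j = 0, ..., n-1` (`j = 0` is the last
edge `(bar (last letter), first letter)` of `edg l`; `edg l` is a permutation of this list). The
counting statements follow: `countP` of a list `List.ofFn f` (or of a permutation of it) is the
cardinality of a filter of `Finset.range n`.
-/

set_option autoImplicit false

namespace Pool.Agent.GRO

variable {k : ℕ}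

private theorem LIN2_pe_zip (q : Lt k) : ∀ (w : List (Lt k)) (p : Lt k),
    pe p w q = List.zip (p :: w.map bar) (w ++ [q])
  | [], p => rfl
  | c :: w, p => by
    have h := LIN2_pe_zip q w (bar c)
    simp only [pe, List.map_cons, List.cons_append, List.zip_cons_cons]
    rw [h]

private theorem LIN2_range_perm {α : Type} (f : ℕ → α) (n : ℕ) (h : f n = f 0) :
    ((List.range n).map fun j => f (j + 1)).Perm ((List.range n).map f) := by
  have h1 : (List.range (n + 1)).map f = f 0 :: (List.range n).map fun j => f (j + 1) := by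
    rw [List.range_succ_eq_map, List.map_cons, List.map_map]
    rfl
  have h2 : (List.range (n + 1)).map f = (List.range n).map f ++ [f 0] := by
    rw [List.range_succ, List.map_append, List.map_singleton, h]
  have h3 : (f 0 :: (List.range n).map fun j => f (j + 1)).Perm (f 0 :: (List.range n).map f) := by
    rw [← h1, h2]
    exact List.perm_append_singleton _ _
  exact h3.cons_inv

theorem edg_perm_Lz (a0 : Lt k) (l : List (Lt k)) :
    (edg l).Perm ((List.range l.length).map fun j : ℕ =>
      (bar (Lz a0 l ((j : ℤ) - 1)), Lz a0 l j)) := by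
  cases l with
  | nil => exact List.Perm.refl _
  | cons a w =>
    set l := a :: w with hl
    set f : ℕ → Lt k × Lt k := fun j => (bar (Lz a0 l ((j : ℤ) - 1)), Lz a0 l j) with hf
    have h0 : f l.length = f 0 := by
      simp only [hf]
      have e1 : (l.length : ℤ) - 1 = (((0 : ℕ) : ℤ) - 1) + l.length := by push_cast; ring
      have e2 : (l.length : ℤ) = ((0 : ℕ) : ℤ) + l.length := by push_cast; ring
      rw [e1, Lz_add]
      congr 1
      rw [← Lz_add a0 l ((0 : ℕ) : ℤ), ← e2]
    refine List.Perm.trans (List.Perm.of_eq ?_) (LIN2_range_perm f l.length h0)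
    have h1 : edg l = List.zip (bar a :: w.map bar) (w ++ [a]) := by
      rw [hl]
      exact LIN2_pe_zip a w (bar a)
    rw [h1]
    apply List.ext_getElem
    · simp [hl]
    · intro i h2 h3
      have hi : i < w.length + 1 := by simpa using h2
      have hil : i < l.length := by rw [hl]; simpa using hi
      simp only [List.getElem_zip, List.getElem_map, List.getElem_range, hf]
      have e1 : (((i + 1 : ℕ) : ℤ) - 1) = (i : ℤ) := by push_cast; ring
      rw [e1, Lz_nat a0 i hil]
      have e3 : (bar a :: w.map bar) = l.map bar := by rw [hl, List.map_cons]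
      have e4 : (bar a :: w.map bar)[i]'(by simpa using hi) = bar l[i] := by
        simp only [e3, List.getElem_map]
      rw [e4]
      congr 1
      by_cases h4 : i < w.length
      · have h5 : i + 1 < l.length := by rw [hl, List.length_cons]; omega
        rw [Lz_nat a0 (i + 1) h5, List.getElem_append_left h4]
        simp only [hl, List.getElem_cons_succ]
      · have h5 : i = w.length := by omega
        subst h5
        have e5 : ((w.length + 1 : ℕ) : ℤ) = ((0 : ℕ) : ℤ) + l.length := by
          rw [hl, List.length_cons]; push_cast; ring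
        rw [e5, Lz_add, Lz_nat a0 0 (by rw [hl]; simp), List.getElem_append_right le_rfl]
        simp only [hl, Nat.sub_self, List.getElem_cons_zero]

private theorem LIN2_mem (a0 : Lt k) {l : List (Lt k)} (hl : l ≠ []) (x y : Lt k) :
    (x, y) ∈ edg l ↔ ∃ j : ℤ, x = bar (Lz a0 l (j - 1)) ∧ y = Lz a0 l j := by
  rw [(edg_perm_Lz a0 l).mem_iff, List.mem_map]
  constructor
  · rintro ⟨j, _, hj⟩
    rw [Prod.mk.injEq] at hj
    exact ⟨j, hj.1.symm, hj.2.symm⟩
  · rintro ⟨j, h1, h2⟩
    have hn : 0 < (l.length : ℤ) := by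
      have := List.length_pos_iff.2 hl
      exact_mod_cast this
    have h3 := Int.emod_nonneg j hn.ne'
    have h4 := Int.emod_lt_of_pos j hn
    have h5 := Int.emod_add_mul_ediv j l.length
    refine ⟨(j % l.length).toNat, ?_, ?_⟩
    · rw [List.mem_range]; omega
    · rw [Prod.mk.injEq, Int.toNat_of_nonneg h3, h1, h2]
      constructor
      · congr 1
        rw [← Lz_add_mul a0 l (j % l.length - 1) (j / l.length)]
        congr 1
        nlinarith [h5]
      · rw [← Lz_add_mul a0 l (j % l.length) (j / l.length)]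
        congr 1
        nlinarith [h5]

theorem adj_Lz (a0 : Lt k) {l : List (Lt k)} (hl : l ≠ []) (x y : Lt k) :
    Adj l x y ↔ ∃ j : ℤ, (x = bar (Lz a0 l (j - 1)) ∧ y = Lz a0 l j) ∨
      (y = bar (Lz a0 l (j - 1)) ∧ x = Lz a0 l j) := by
  rw [Adj, LIN2_mem a0 hl, LIN2_mem a0 hl, ← exists_or]

theorem used_Lz (a0 : Lt k) {l : List (Lt k)} (hl : l ≠ []) (x : Lt k) :
    Used l x ↔ ∃ j : ℤ, Lz a0 l j = x ∨ bar (Lz a0 l (j - 1)) = x := by
  constructor
  · rintro (h | h)
    · obtain ⟨j, hj⟩ := mem_Lz a0 h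
      exact ⟨j, Or.inl hj⟩
    · obtain ⟨j, hj⟩ := mem_Lz a0 h
      refine ⟨j + 1, Or.inr ?_⟩
      rw [add_sub_cancel_right, hj, bar_bar]
  · rintro ⟨j, h | h⟩
    · rw [← h]
      exact Or.inl (Lz_mem a0 hl j)
    · rw [← h]
      refine Or.inr ?_
      rw [bar_bar]
      exact Lz_mem a0 hl (j - 1)

private theorem LIN2_count (a0 : Lt k) (l : List (Lt k)) (P : Lt k × Lt k → Bool) {α : Type}
    (B : Set α) (hB : B.Finite) (F : ℤ → α)
    (hF : ∀ j : ℤ, 0 ≤ j → j < l.length → P (bar (Lz a0 l (j - 1)), Lz a0 l j) = true → F j ∈ B)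
    (hi : ∀ j j' : ℤ, 0 ≤ j → j < l.length → 0 ≤ j' → j' < l.length → F j = F j' → j = j') :
    (edg l).countP P ≤ B.ncard := by
  rw [(edg_perm_Lz a0 l).countP_eq, List.countP_map, List.countP_eq_length_filter]
  set L := (List.range l.length).filter (P ∘ fun j : ℕ => (bar (Lz a0 l ((j : ℤ) - 1)), Lz a0 l j))
    with hL
  have hnd : L.Nodup := List.nodup_range.filter _
  rw [← List.toFinset_card_of_nodup hnd, ← Set.ncard_coe_finset]
  refine Set.ncard_le_ncard_of_injOn (fun j : ℕ => F j) ?_ ?_ hB
  · intro j hj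
    rw [Finset.mem_coe, List.mem_toFinset, hL, List.mem_filter, List.mem_range] at hj
    exact hF j (Int.natCast_nonneg j) (by exact_mod_cast hj.1) hj.2
  · intro j hj j' hj' h
    rw [Finset.mem_coe, List.mem_toFinset, hL, List.mem_filter, List.mem_range] at hj hj'
    have := hi j j' (Int.natCast_nonneg j) (by exact_mod_cast hj.1) (Int.natCast_nonneg j')
      (by exact_mod_cast hj'.1) h
    exact_mod_cast this

/-- An injection of the edges between `S` and `S'` bounds their number. -/
theorem ebt_le_ncard (a0 : Lt k) (l : List (Lt k)) (S S' : Finset (Lt k)) {α : Type} (B : Set α)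
    (hB : B.Finite) (F : ℤ → α)
    (hF : ∀ j : ℤ, 0 ≤ j → j < l.length →
      ((bar (Lz a0 l (j - 1)) ∈ S ∧ Lz a0 l j ∈ S') ∨
        (bar (Lz a0 l (j - 1)) ∈ S' ∧ Lz a0 l j ∈ S)) → F j ∈ B)
    (hi : ∀ j j' : ℤ, 0 ≤ j → j < l.length → 0 ≤ j' → j' < l.length → F j = F j' → j = j') :
    ebt l S S' ≤ B.ncard := by
  refine LIN2_count a0 l _ B hB F ?_ hi
  intro j h1 h2 h3
  exact hF j h1 h2 (by simpa using h3)

theorem cap_le_ncard (a0 : Lt k) (l : List (Lt k)) (S : Finset (Lt k)) {α : Type} (B : Set α)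
    (hB : B.Finite) (F : ℤ → α)
    (hF : ∀ j : ℤ, 0 ≤ j → j < l.length →
      ¬ (bar (Lz a0 l (j - 1)) ∈ S ↔ Lz a0 l j ∈ S) → F j ∈ B)
    (hi : ∀ j j' : ℤ, 0 ≤ j → j < l.length → 0 ≤ j' → j' < l.length → F j = F j' → j = j') :
    cap l S ≤ B.ncard := by
  refine LIN2_count a0 l _ B hB F ?_ hi
  intro j h1 h2 h3
  refine hF j h1 h2 ?_
  intro h4
  by_cases h5 : Lz a0 l j ∈ S
  · simp [h5, h4.2 h5] at h3
  · have h6 : bar (Lz a0 l (j - 1)) ∉ S := fun h => h5 (h4.1 h)
    simp [h5, h6] at h3

end Pool.Agent.GRO
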