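import Pool.Agent.GRO.RAY
import Pool.Agent.GRO.LIN2
import Pool.Agent.GRO.Defs2

/-!
# LC: all lines through an edge have the same sign if no separated line lies beyond the edge
Induction on `ρ - (g * lt q).norm`. Let `g' = g * lt q`.
* If `ρ ≤ g'.norm`: by `deep_pre`, `deep_back` the sign is `g' ∈ E`.
* Otherwise: for every letter `x ≠ bar q`, `(g' * lt x).norm = g'.norm + 1` and the induction
  hypothesis applies to `(g', x)` (a line all of whose vertices begin with `g' * lt x` has all
  vertices beginning with `g'`): get `ε x`. For an edge `(x, y)` of the Whitehead graph, `x, y ≠ bar q`,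
  `x = bar (L (j-1))`, `y = L j` (`adj_Lz`): the line `h = g' * (Pz l j)⁻¹` passes through `g'` and
  all its vertices begin with `g'` (`ray_pre`, `ray_back` and the vertex `j` itself), so it is not
  separated: `ε x ↔ EndM ↔ EndP ↔ ε y`. Let `A` / `B` be the sets of used letters `x ≠ bar q` with
  `ε x` true / false. If both are nonempty, one of them, `S`, does not contain `q`; an edge leaving
  `S` goes to a used letter, which cannot be in the other set, so it is `bar q`. `NC` (with the letter
  `a = bar q`, `bar a = q`) gives `cap l S = 0`; `cyc_closed` (`S` contains a used letter) gives a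
  contradiction with the other set. So all used letters `x ≠ bar q` have the same sign `ε`.
  A line through the edge `(g, q)` at position `j` (`L j = q`) goes on at `g'` with the
  letter `x = L (j+1) ≠ bar q` (`Lz_red`), and `g * (Pz l j)⁻¹ = g' * (Pz l (j+1))⁻¹` (`Pz_succ`).
  Similarly in the other direction (or apply the argument to `invw l`).
-/

set_option autoImplicit false

open Filter

namespace Pool.Agent.GRO

variable {k : ℕ}

private theorem LC_lt (q : Lt k) : (lt q).toWord = [q] := by
  rw [lt, FreeGroup.toWord_mk, FreeGroup.reduce_singleton]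

private theorem LC_word {g : FG k} {q : Lt k} (hg : (g * lt q).norm = g.norm + 1) :
    (g * lt q).toWord = g.toWord ++ [q] := by
  have h1 := FreeGroup.toWord_mul_sublist g (lt q)
  rw [LC_lt] at h1
  apply h1.eq_of_length
  rw [List.length_append, List.length_singleton]
  exact hg

private theorem LC_red {q x : Lt k} (h : x ≠ bar q) : FreeGroup.IsReduced [q, x] := by
  rw [FreeGroup.IsReduced, List.isChain_pair]
  intro h1
  by_contra h2
  apply h
  unfold bar
  refine Prod.ext h1.symm ?_
  revert h2
  simp only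
  generalize q.2 = a
  generalize x.2 = b
  cases a <;> cases b <;> simp

private theorem LC_next {g : FG k} {q x : Lt k} (hg : (g * lt q).norm = g.norm + 1)
    (hx : x ≠ bar q) : (g * lt q * lt x).toWord = (g * lt q).toWord ++ [x] := by
  rw [FreeGroup.toWord_mul, LC_lt, LC_word hg]
  apply FreeGroup.IsReduced.reduce_eq
  refine FreeGroup.IsReduced.append_overlap ?_ (LC_red hx) (by simp)
  rw [← LC_word hg]
  exact FreeGroup.isReduced_toWord

private theorem LC_norm {g : FG k} {q x : Lt k} (hg : (g * lt q).norm = g.norm + 1)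
    (hx : x ≠ bar q) : (g * lt q * lt x).norm = (g * lt q).norm + 1 := by
  rw [FreeGroup.norm, LC_next hg hx]
  simp [FreeGroup.norm]

/-- all used letters except `bar q` have the same sign -/
private theorem LC_same {l : List (Lt k)} (hl : CR l) (hN : NC l) (hZ : ZC l) (q : Lt k)
    (ε : Lt k → Prop) (h : ∀ x y, x ≠ bar q → y ≠ bar q → Adj l x y → (ε x ↔ ε y)) :
    ∃ ε0 : Prop, ∀ x, Used l x → x ≠ bar q → (ε x ↔ ε0) := by
  classical
  have hadj : ∀ {x y : Lt k}, Adj l x y → Used l x ∧ Used l y := by
    intro x y hxy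
    rcases hxy with h1 | h1
    · have h2 := edg_used _ h1
      exact ⟨Or.inr h2.1, Or.inl h2.2⟩
    · have h2 := edg_used _ h1
      exact ⟨Or.inl h2.2, Or.inr h2.1⟩
  have hsymm : ∀ {x y : Lt k}, Adj l x y → Adj l y x := fun hxy => hxy.symm
  -- the general step: a set of used letters, closed under adjacency away from `bar q`
  have key : ∀ (P : Lt k → Prop), ¬ (P q ∧ Used l q ∧ q ≠ bar q) →
      (∀ x y, x ≠ bar q → y ≠ bar q → Adj l x y → P x → P y) →
      ∀ x, Used l x → x ≠ bar q → P x → ∀ y, Used l y → y ≠ bar q → P y := by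
    intro P hq hP x hx hxq hPx y hy hyq
    let S : Finset (Lt k) := Finset.univ.filter fun z => P z ∧ Used l z ∧ z ≠ bar q
    have hS : ∀ z, z ∈ S ↔ (P z ∧ Used l z ∧ z ≠ bar q) := by
      intro z
      simp [S]
    have h0 : cap l S = 0 := by
      apply hN (bar q) S
      · rw [hS]
        exact fun h1 => h1.2.2 rfl
      · rw [bar_bar, hS]
        exact hq
      · intro u v huv hu hv
        by_contra hvq
        rw [hS] at hu hv
        exact hv ⟨hP u v hu.2.2 hvq huv hu.1, (hadj huv).2, hvq⟩
    have h1 := cyc_closed hl hZ h0 ((hS x).2 ⟨hPx, hx, hxq⟩) hx y hy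
    exact ((hS y).1 h1).1
  by_cases hall : ∀ x, Used l x → x ≠ bar q → ε x
  · exact ⟨True, fun x hx hxq => by simp [hall x hx hxq]⟩
  · push Not at hall
    obtain ⟨y, hy, hyq, hey⟩ := hall
    refine ⟨False, fun x hx hxq => ?_⟩
    simp only [iff_false]
    intro hex
    by_cases hq : ε q
    · have := key (fun z => ¬ ε z) (fun h1 => h1.1 hq)
        (fun u v hu hv huv h1 h2 => h1 ((h u v hu hv huv).2 h2)) y hy hyq hey x hx hxq
      exact this hex
    · have := key ε (fun h1 => hq h1.1)
        (fun u v hu hv huv h1 => (h u v hu hv huv).1 h1) x hx hxq hex y hy hyq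
      exact hey this

theorem lc (a0 : Lt k) {l : List (Lt k)} (hl : CR l) (hN : NC l) (hZ : ZC l) {E : Set (FG k)}
    {ρ : ℕ} (hE : TameE E ρ) (g : FG k) (q : Lt k) (hg : (g * lt q).norm = g.norm + 1)
    (hs : ∀ h : FG k, (∀ j : ℤ, (g * lt q).toWord <+: (h * Pz l j).toWord) →
      (EndP E (FreeGroup.mk l) h ↔ EndM E (FreeGroup.mk l) h)) :
    ∃ ε : Prop, AllSg E a0 l g q ε := by
  obtain ⟨d, hd⟩ : ∃ d : ℕ, ρ ≤ (g * lt q).norm + d := ⟨ρ, by omega⟩
  induction d generalizing g q with
  | zero =>
    refine ⟨g * lt q ∈ E, ?_, ?_⟩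
    · intro j hj
      subst hj
      exact deep_pre a0 hl hE g j hg (by simpa using hd)
    · intro j hj
      subst hj
      exact deep_back a0 hl hE g j hg (by simpa using hd)
  | succ d ih =>
    have hnext : ∀ x, x ≠ bar q → ∃ ε : Prop, AllSg E a0 l (g * lt q) x ε := by
      intro x hx
      refine ih (g * lt q) x (LC_norm hg hx) ?_ ?_
      · intro h hh
        apply hs h
        intro j
        refine List.IsPrefix.trans ?_ (hh j)
        rw [LC_next hg hx]
        exact List.prefix_append _ _
      · rw [LC_norm hg hx]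
        omega
    choose! ε hε using hnext
    have hedge : ∀ j : ℤ, bar (Lz a0 l (j - 1)) ≠ bar q → Lz a0 l j ≠ bar q →
        (ε (bar (Lz a0 l (j - 1))) ↔ ε (Lz a0 l j)) := by
      intro j h1 h2
      have h3 := (hε _ h1).2 j rfl
      have h4 := (hε _ h2).1 j rfl
      have h5 : (EndP E (FreeGroup.mk l) (g * lt q * (Pz l j)⁻¹) ↔
          EndM E (FreeGroup.mk l) (g * lt q * (Pz l j)⁻¹)) := by
        apply hs
        intro i
        rcases lt_trichotomy j i with hji | hji | hji
        · refine List.IsPrefix.trans ?_ (ray_pre a0 hl (g * lt q) j (LC_norm hg h2) i hji)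
          rw [LC_next hg h2]
          exact List.prefix_append _ _
        · subst hji
          rw [inv_mul_cancel_right]
        · refine List.IsPrefix.trans ?_ (ray_back a0 hl (g * lt q) j (LC_norm hg h1) i hji)
          rw [LC_next hg h1]
          exact List.prefix_append _ _
      rw [← h3, ← h4, h5]
    obtain ⟨ε0, h0⟩ := LC_same hl hN hZ q ε (by
      intro x y hx hy hxy
      obtain ⟨j, ⟨h1, h2⟩ | ⟨h1, h2⟩⟩ := (adj_Lz a0 hl.2 x y).1 hxy
      · subst h1
        subst h2
        exact hedge j hx hy
      · subst h1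
        subst h2
        exact (hedge j hy hx).symm)
    refine ⟨ε0, ?_, ?_⟩
    · intro j hj
      have h1 : Lz a0 l (j + 1) ≠ bar q := by
        rw [← hj]
        exact Lz_red a0 hl j
      have h2 := (hε _ h1).1 (j + 1) rfl
      have h3 : g * lt q * (Pz l (j + 1))⁻¹ = g * (Pz l j)⁻¹ := by
        rw [Pz_succ a0 hl.2, hj]
        group
      rw [h3] at h2
      rw [h2]
      exact h0 _ ((used_Lz a0 hl.2 _).2 ⟨j + 1, Or.inl rfl⟩) h1
    · intro j hj
      have h1 : bar (Lz a0 l (j - 1 - 1)) ≠ bar q := by
        rw [← hj, bar_bar]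
        have h2 := Lz_red a0 hl (j - 1 - 1)
        rw [sub_add_cancel] at h2
        exact h2.symm
      have h2 := (hε _ h1).2 (j - 1) rfl
      have h3 : g * lt q * (Pz l (j - 1))⁻¹ = g * (Pz l j)⁻¹ := by
        have h4 := Pz_succ a0 hl.2 (j - 1)
        rw [sub_add_cancel] at h4
        rw [h4, ← hj, lt_bar]
        group
      rw [h3] at h2
      rw [h2]
      exact h0 _ ((used_Lz a0 hl.2 _).2 ⟨j - 1, Or.inr rfl⟩) h1

end Pool.Agent.GRO
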