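import Pool.Agent.GRO.GAU

/-!
# LIN: the line of a cyclically reduced word
`n = l.length > 0`. `Lz a0 l j` = letter number `j mod n`; `Pz l j` = `(mk l)^(j / n) * mk (take (j mod n))`.
* `Pz_succ`: if `(j mod n) + 1 < n` then `(j+1) / n = j / n`, `(j+1) mod n = j mod n + 1`,
  `take (r+1) = take r ++ [l r]`; if `(j mod n) + 1 = n` then `(j+1)/n = j/n + 1`, `(j+1) mod n = 0`.
* `Lz_red`: consecutive letters, cyclically reduced (for `n = 1`: `l = [a]`, `a ≠ bar a`).
* `seg_word`: the list `L j, ..., L (j+i-1)` is reduced, and its product is `(Pz j)⁻¹ * Pz (j+i)`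
  by `Pz_succ`.
* `invw l`: the inverse word; the line of `invw l` is the line of `l` with the other orientation.
-/

set_option autoImplicit false

namespace Pool.Agent.GRO

variable {k : ℕ}

theorem Lz_add (a0 : Lt k) (l : List (Lt k)) (j : ℤ) : Lz a0 l (j + l.length) = Lz a0 l j := by
  unfold Lz
  rw [Int.add_emod_right]

theorem Lz_add_mul (a0 : Lt k) (l : List (Lt k)) (j n : ℤ) :
    Lz a0 l (j + n * l.length) = Lz a0 l j := by
  unfold Lz
  rw [Int.add_mul_emod_self_right]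

theorem Pz_zero {l : List (Lt k)} (hl : l ≠ []) : Pz l 0 = 1 := by
  unfold Pz
  simp
  rfl

private theorem LIN_len {l : List (Lt k)} (hl : l ≠ []) : (0 : ℤ) < (l.length : ℤ) := by
  exact_mod_cast List.length_pos_iff.2 hl

/-- division with remainder -/
private theorem LIN_dm {l : List (Lt k)} (hl : l ≠ []) (j : ℤ) :
    ∃ (q : ℤ) (r : ℕ), r < l.length ∧ j = q * l.length + r := by
  have h0 := LIN_len hl
  refine ⟨j / l.length, (j % l.length).toNat, ?_, ?_⟩
  · have h1 := Int.emod_lt_of_pos j h0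
    have h2 := Int.emod_nonneg j h0.ne'
    omega
  · have h2 := Int.emod_nonneg j h0.ne'
    rw [Int.toNat_of_nonneg h2]
    have := Int.mul_ediv_add_emod j l.length
    linarith

private theorem LIN_mod {l : List (Lt k)} (q : ℤ) (r : ℕ) (hr : r < l.length) :
    ((q * l.length + r) % (l.length : ℤ)).toNat = r := by
  have h1 : (q * l.length + r) % (l.length : ℤ) = r := by
    rw [add_comm, Int.add_mul_emod_self_right]
    exact Int.emod_eq_of_lt (by omega) (by omega)
  rw [h1]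
  simp

private theorem LIN_div {l : List (Lt k)} (q : ℤ) (r : ℕ) (hr : r < l.length) :
    (q * l.length + r) / (l.length : ℤ) = q := by
  have h0 : (l.length : ℤ) ≠ 0 := by omega
  rw [add_comm, Int.add_mul_ediv_right _ _ h0, Int.ediv_eq_zero_of_lt (by omega) (by omega)]
  simp

private theorem LIN_Lz (a0 : Lt k) {l : List (Lt k)} (q : ℤ) (r : ℕ) (hr : r < l.length) :
    Lz a0 l (q * l.length + r) = l[r] := by
  unfold Lz
  rw [LIN_mod q r hr]
  simp [hr]

private theorem LIN_Pz {l : List (Lt k)} (q : ℤ) (r : ℕ) (hr : r < l.length) :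
    Pz l (q * l.length + r) = (FreeGroup.mk l) ^ q * FreeGroup.mk (l.take r) := by
  unfold Pz
  rw [LIN_mod q r hr, LIN_div q r hr]

private theorem LIN_Pz' {l : List (Lt k)} (hl : l ≠ []) (q : ℤ) (r : ℕ) (hr : r ≤ l.length) :
    Pz l (q * l.length + r) = (FreeGroup.mk l) ^ q * FreeGroup.mk (l.take r) := by
  rcases hr.lt_or_eq with h | h
  · exact LIN_Pz q r h
  · have h0 : 0 < l.length := List.length_pos_iff.2 hl
    have e : q * (l.length : ℤ) + (r : ℤ) = (q + 1) * l.length + ((0 : ℕ) : ℤ) := by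
      rw [h]
      push_cast
      ring
    rw [e, LIN_Pz (q + 1) 0 h0, h, List.take_length, zpow_add_one]
    have : (FreeGroup.mk (l.take 0) : FG k) = 1 := by
      rw [List.take_zero]
      rfl
    rw [this, mul_one]

theorem Pz_succ (a0 : Lt k) {l : List (Lt k)} (hl : l ≠ []) (j : ℤ) :
    Pz l (j + 1) = Pz l j * lt (Lz a0 l j) := by
  obtain ⟨q, r, hr, rfl⟩ := LIN_dm hl j
  have e : q * (l.length : ℤ) + (r : ℤ) + 1 = q * l.length + ((r + 1 : ℕ) : ℤ) := by
    push_cast
    ring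
  rw [e, LIN_Pz' hl q (r + 1) hr, LIN_Pz q r hr, LIN_Lz a0 q r hr, mul_assoc]
  congr 1
  rw [lt, FreeGroup.mul_mk, List.take_succ_eq_append_getElem hr]

theorem Pz_add_mul {l : List (Lt k)} (hl : l ≠ []) (j n : ℤ) :
    Pz l (j + n * l.length) = (FreeGroup.mk l) ^ n * Pz l j := by
  obtain ⟨q, r, hr, rfl⟩ := LIN_dm hl j
  have e : q * (l.length : ℤ) + (r : ℤ) + n * l.length = (n + q) * l.length + (r : ℤ) := by
    ring
  rw [e, LIN_Pz _ r hr, LIN_Pz _ r hr, zpow_add, mul_assoc]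

theorem Pz_mul {l : List (Lt k)} (hl : l ≠ []) (n : ℤ) :
    Pz l (n * l.length) = (FreeGroup.mk l) ^ n := by
  have h := Pz_add_mul hl 0 n
  rwa [zero_add, Pz_zero hl, mul_one] at h

theorem Pz_nat {l : List (Lt k)} (i : ℕ) (hi : i ≤ l.length) (hl : l ≠ []) :
    Pz l i = FreeGroup.mk (l.take i) := by
  have h := LIN_Pz' hl 0 i hi
  simpa using h

theorem Lz_nat (a0 : Lt k) {l : List (Lt k)} (i : ℕ) (hi : i < l.length) :
    Lz a0 l i = l[i] := by
  have h := LIN_Lz a0 0 i hi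
  simpa using h

theorem Lz_mem (a0 : Lt k) {l : List (Lt k)} (hl : l ≠ []) (j : ℤ) : Lz a0 l j ∈ l := by
  obtain ⟨q, r, hr, rfl⟩ := LIN_dm hl j
  rw [LIN_Lz a0 q r hr]
  exact List.getElem_mem hr

theorem mem_Lz (a0 : Lt k) {l : List (Lt k)} {a : Lt k} (h : a ∈ l) :
    ∃ j : ℤ, Lz a0 l j = a := by
  obtain ⟨r, hr, h1⟩ := List.getElem_of_mem h
  exact ⟨r, by rw [Lz_nat a0 r hr, h1]⟩

private theorem LIN_bar {a b : Lt k} (h : a.1 = b.1 → a.2 = b.2) : b ≠ bar a := by
  intro h1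
  subst h1
  have h2 := h rfl
  simp [bar] at h2

theorem Lz_red (a0 : Lt k) {l : List (Lt k)} (hl : CR l) (j : ℤ) :
    Lz a0 l (j + 1) ≠ bar (Lz a0 l j) := by
  obtain ⟨⟨hr1, hr2⟩, hn⟩ := hl
  obtain ⟨q, r, hr, rfl⟩ := LIN_dm hn j
  have e : q * (l.length : ℤ) + (r : ℤ) + 1 = q * l.length + ((r + 1 : ℕ) : ℤ) := by
    push_cast
    ring
  rw [LIN_Lz a0 q r hr, e]
  rcases Nat.lt_or_ge (r + 1) l.length with h | h
  · rw [LIN_Lz a0 q (r + 1) h]
    exact LIN_bar (List.isChain_iff_getElem.1 hr1 r h)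
  · have h1 : r + 1 = l.length := le_antisymm hr h
    have h0 : 0 < l.length := List.length_pos_iff.2 hn
    have e2 : q * (l.length : ℤ) + ((r + 1 : ℕ) : ℤ) = (q + 1) * l.length + ((0 : ℕ) : ℤ) := by
      rw [h1]
      push_cast
      ring
    rw [e2, LIN_Lz a0 (q + 1) 0 h0]
    apply LIN_bar
    apply hr2
    · rw [List.getLast?_eq_getElem?]
      have : l.length - 1 = r := by omega
      rw [this]
      simp [hr]
    · rw [List.head?_eq_getElem?]
      simp [h0]

private theorem LIN_red (a0 : Lt k) {l : List (Lt k)} (hl : CR l) (j : ℤ) (i : ℕ) :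
    FreeGroup.IsReduced (List.ofFn fun r : Fin i => Lz a0 l (j + r)) := by
  rw [FreeGroup.IsReduced, List.isChain_iff_getElem]
  intro r hr h1
  simp only [List.getElem_ofFn] at h1 ⊢
  by_contra h2
  have h3 := Lz_red a0 hl (j + r)
  apply h3
  have e : j + (r : ℤ) + 1 = j + ((r + 1 : ℕ) : ℤ) := by
    push_cast
    ring
  rw [e]
  unfold bar
  refine Prod.ext h1.symm ?_
  simp only
  revert h2
  generalize (Lz a0 l (j + (r : ℤ))).2 = x
  generalize (Lz a0 l (j + ((r + 1 : ℕ) : ℤ))).2 = y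
  cases x <;> cases y <;> simp

private theorem LIN_mk (a0 : Lt k) {l : List (Lt k)} (hl : l ≠ []) (j : ℤ) (i : ℕ) :
    FreeGroup.mk (List.ofFn fun r : Fin i => Lz a0 l (j + r)) = (Pz l j)⁻¹ * Pz l (j + i) := by
  induction i with
  | zero =>
    simp
    rfl
  | succ i ih =>
    rw [List.ofFn_succ', List.concat_eq_append, ← FreeGroup.mul_mk]
    have e : j + ((i + 1 : ℕ) : ℤ) = j + i + 1 := by
      push_cast
      ring
    rw [e, Pz_succ a0 hl, ← mul_assoc, ← ih]
    rfl

theorem seg_word (a0 : Lt k) {l : List (Lt k)} (hl : CR l) (j : ℤ) (i : ℕ) :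
    ((Pz l j)⁻¹ * Pz l (j + i)).toWord = List.ofFn fun r : Fin i => Lz a0 l (j + r) := by
  rw [← LIN_mk a0 hl.2, FreeGroup.toWord_mk, (LIN_red a0 hl j i).reduce_eq]

theorem seg_norm {l : List (Lt k)} (hl : CR l) (j : ℤ) (i : ℕ) :
    ((Pz l j)⁻¹ * Pz l (j + i)).norm = i := by
  obtain ⟨a, ha⟩ := List.exists_mem_of_ne_nil l hl.2
  rw [FreeGroup.norm, seg_word a hl]
  simp

theorem Pz_inj {l : List (Lt k)} (hl : CR l) : Function.Injective (Pz l) := by
  have key : ∀ a b : ℤ, a ≤ b → Pz l a = Pz l b → a = b := by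
    intro a b hab h
    obtain ⟨i, rfl⟩ := Int.le.dest hab
    have h1 := seg_norm hl a i
    rw [← h, inv_mul_cancel, FreeGroup.norm_one] at h1
    rw [← h1]
    simp
  intro a b h
  rcases le_total a b with h1 | h1
  · exact key a b h1 h
  · exact (key b a h1 h.symm).symm

/-- The inverse word. -/
def invw (l : List (Lt k)) : List (Lt k) := (l.map bar).reverse

private theorem LIN_invw (l : List (Lt k)) : invw l = FreeGroup.invRev l := rfl

private theorem LIN_len_invw (l : List (Lt k)) : (invw l).length = l.length := by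
  simp [invw]

theorem invw_CR {l : List (Lt k)} (hl : CR l) : CR (invw l) := by
  obtain ⟨⟨hr1, hr2⟩, hn⟩ := hl
  have h0 : 0 < l.length := List.length_pos_iff.2 hn
  refine ⟨⟨?_, ?_⟩, ?_⟩
  · rw [LIN_invw]
    apply FreeGroup.IsReduced.of_reduce_eq
    rw [FreeGroup.reduce_invRev, hr1.reduce_eq]
  · intro a ha b hb hab
    rw [invw, List.getLast?_reverse] at ha
    rw [invw, List.head?_reverse] at hb
    rw [List.head?_map] at ha
    rw [List.getLast?_map] at hb
    simp only [Option.mem_def, Option.map_eq_some_iff] at ha hb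
    obtain ⟨a', ha', rfl⟩ := ha
    obtain ⟨b', hb', rfl⟩ := hb
    have h1 := hr2 b' hb' a' ha' hab.symm
    simp [bar, h1]
  · intro h
    have h1 := congrArg List.length h
    rw [LIN_len_invw] at h1
    simp at h1
    exact hn h1

theorem invw_mk (l : List (Lt k)) : FreeGroup.mk (invw l) = (FreeGroup.mk l)⁻¹ := by
  rw [LIN_invw, FreeGroup.inv_mk]

theorem invw_Lz (a0 : Lt k) {l : List (Lt k)} (hl : l ≠ []) (j : ℤ) :
    Lz a0 (invw l) j = bar (Lz a0 l (-1 - j)) := by
  obtain ⟨q, r, hr, rfl⟩ := LIN_dm hl j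
  have hr' : r < (invw l).length := by rwa [LIN_len_invw]
  have h1 := LIN_Lz a0 (l := invw l) q r hr'
  rw [LIN_len_invw] at h1
  have e : -1 - (q * (l.length : ℤ) + (r : ℤ)) =
      (-q - 1) * l.length + ((l.length - 1 - r : ℕ) : ℤ) := by
    have : ((l.length - 1 - r : ℕ) : ℤ) = (l.length : ℤ) - 1 - r := by omega
    rw [this]
    ring
  rw [h1, e, LIN_Lz a0 _ _ (by omega)]
  simp [invw, List.getElem_reverse]

theorem invw_Pz {l : List (Lt k)} (hl : l ≠ []) (j : ℤ) : Pz (invw l) j = Pz l (-j) := by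
  obtain ⟨a0, ha⟩ := List.exists_mem_of_ne_nil l hl
  have hn : invw l ≠ [] := by
    intro h
    have h1 := congrArg List.length h
    rw [LIN_len_invw] at h1
    simp at h1
    exact hl h1
  have key : ∀ j : ℤ, Pz (invw l) (j + 1) * (Pz l (-(j + 1)))⁻¹ =
      Pz (invw l) j * (Pz l (-j))⁻¹ := by
    intro j
    have h1 := Pz_succ a0 hl (-1 - j)
    have e : -1 - j + 1 = -j := by ring
    have e' : -1 - j = -(j + 1) := by ring
    rw [e] at h1
    rw [Pz_succ a0 hn, invw_Lz a0 hl, lt_bar, h1, mul_inv_rev, e']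
    group
  have key2 : ∀ j : ℤ, Pz (invw l) j * (Pz l (-j))⁻¹ = 1 := by
    intro j
    induction j using Int.induction_on with
    | zero =>
      rw [neg_zero, Pz_zero hl, Pz_zero hn]
      simp
    | succ i ih =>
      rw [key, ih]
    | pred i ih =>
      have h1 := key (-(i : ℤ) - 1)
      rw [sub_add_cancel] at h1
      rw [← h1, ih]
  have h1 := key2 j
  rwa [mul_inv_eq_one] at h1

end Pool.Agent.GRO
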