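import Pool.Agent.GRO.RET

/-!
# LOOP: iteration of the retraction
Strong induction on `Psi C l`. If `I3`, `NG` hold and `NC ∧ ZC` fails, apply `ret_step`; `v ∈ Orb w`
by `orb_wh` resp. `orb_gau` (for `RR` the gauge function `onK K h` takes values in `FY Y`, `onK_mem`).
`Psi C v ≤ Psi C l` implies `tran C v ≤ tran C l`, because
`tran C v * (2 k² + 1) ≤ tran C l * (2 k² + 1) + 2 k²`.
-/

set_option autoImplicit false

namespace Pool.Agent.GRO

variable {k : ℕ}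

theorem tran_of_Psi {C : Lt k → Lt k → Prop} {l v : List (Lt k)} (h : Psi C v ≤ Psi C l) :
    tran C v ≤ tran C l := by
  by_contra hlt
  have h1 : tran C l + 1 ≤ tran C v := by omega
  have h2 := NA_le C l
  have h3 : (tran C l + 1) * (2 * k ^ 2 + 1) ≤ tran C v * (2 * k ^ 2 + 1) :=
    Nat.mul_le_mul_right _ h1
  unfold Psi at h
  rw [add_mul] at h3
  omega

theorem orb_RW {w : FG k} {l v : List (Lt k)} (hl : l ∈ Orb w) (hv : CR v) (h : RW l v) :
    v ∈ Orb w := by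
  obtain ⟨S, a, ha, hb, _, hc⟩ := h
  exact orb_wh hl hv hc

theorem orb_RR {w : FG k} {l v : List (Lt k)} (hl : l ∈ Orb w) (hv : CR v) (h : RR l v) :
    v ∈ Orb w := by
  obtain ⟨Y, K, h', _, hh, _, _, hc⟩ := h
  exact orb_gau hl hv Y (onK K h') (fun p => onK_mem K hh p) hc

theorem loop {w : FG k} {C : Lt k → Lt k → Prop} (hC : Str C) {T : ℕ} (hT : 0 < T) (N : ℕ)
    {l : List (Lt k)} (hl : l ∈ Orb w) :
    ∃ n ≤ Psi C l, ∃ v ∈ Orb w, Ch (Orb w) (RB N) n l v ∧ v.length ≤ l.length ∧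
      Psi C v ≤ Psi C l ∧ (¬ I3 C T v ∨ ¬ NG T v ∨ (NC v ∧ ZC v)) := by
  suffices H : ∀ P : ℕ, ∀ l ∈ Orb w, Psi C l = P →
      ∃ n ≤ Psi C l, ∃ v ∈ Orb w, Ch (Orb w) (RB N) n l v ∧ v.length ≤ l.length ∧
        Psi C v ≤ Psi C l ∧ (¬ I3 C T v ∨ ¬ NG T v ∨ (NC v ∧ ZC v)) from H _ l hl rfl
  intro P
  induction P using Nat.strong_induction_on with
  | _ P ih =>
    intro l hl hP
    by_cases hterm : ¬ I3 C T l ∨ ¬ NG T l ∨ (NC l ∧ ZC l)
    · exact ⟨0, Nat.zero_le _, l, hl, rfl, le_refl _, le_refl _, hterm⟩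
    · push Not at hterm
      obtain ⟨hI, hNG, hNZ⟩ := hterm
      have hNZ' : ¬ (NC l ∧ ZC l) := fun h => hNZ h.1 h.2
      obtain ⟨l', hl', hR, hlen, hPsi⟩ := ret_step hC hT hl.1 hI hNG hNZ'
      have hl'O : l' ∈ Orb w := by
        rcases hR with hR | hR
        · exact orb_RW hl hl' hR
        · exact orb_RR hl hl' hR
      obtain ⟨n, hn, v, hv, hch, hvl, hvP, hend⟩ := ih (Psi C l') (by omega) l' hl'O rfl
      refine ⟨n + 1, by omega, v, hv, ⟨l', hl'O, hlen, ?_, hch⟩, by omega, by omega, hend⟩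
      rcases hR with hR | hR
      · exact Or.inl hR
      · exact Or.inr (Or.inl hR)

end Pool.Agent.GRO
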