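import Pool.Agent.GRO.REL3
import Pool.Agent.GRO.CUT

/-!
# LOW1: pushing a set of ports
* `push_length`: passage by passage (`wrd_length`, `wrd_countP`): if the passage is empty with both
  ends in `K` the new label is `h⁻¹ * h = 1`; empty with one end: length `|h|`, one cut edge; nonempty:
  the length grows at most by `|h| * ([p ∈ K] + [q ∈ K])`, and exactly the first edge (if `p ∈ K`) and
  the last edge (if `q ∈ K`) are cut by `K` (`K` consists of letters outside `Y`).
* `push_inj`: `0 < cap` gives a passage `i` with exactly one end in `K`, or nonempty with both ends in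
  `K`. First case: the new label is `h⁻¹ * g i` or `g i * h`, which determines `h` (take any letters
  `c`, `c'`, e.g. `c = c' = s 0`). Second case: take `c` = first letter of `g i`, `c'` = first letter
  of `(g i)⁻¹`: `h⁻¹ * g i * h` is reduced as written, so its first `h.norm` letters are those of `h⁻¹`.
-/

set_option autoImplicit false

namespace Pool.Agent.GRO

variable {k : ℕ}

private theorem low1_count0 {Y : Finset (Fin k)} {K : Finset (Lt k)} (hK : ∀ p ∈ K, p.1 ∉ Y)
    (q : Lt k) (w : List (Lt k)) : ∀ p : Lt k, p ∉ K → (∀ a ∈ w, a.1 ∈ Y) →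
    (pe p w q).countP (fun e => decide (e.1 ∈ K) != decide (e.2 ∈ K)) =
      if q ∈ K then 1 else 0 := by
  induction w with
  | nil =>
    intro p hp _
    unfold pe
    rw [List.countP_cons, List.countP_nil]
    by_cases hq : q ∈ K <;> simp [hp, hq]
  | cons c w ih =>
    intro p hp hw
    have hcY : c.1 ∈ Y := hw c List.mem_cons_self
    have hc : c ∉ K := fun h => hK c h hcY
    have hbc : bar c ∉ K := fun h => hK _ h hcY
    rw [pe, List.countP_cons, ih (bar c) hbc (fun a ha => hw a (List.mem_cons_of_mem _ ha))]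
    simp [hp, hc]

private theorem low1_count {Y : Finset (Fin k)} {K : Finset (Lt k)} (hK : ∀ p ∈ K, p.1 ∉ Y)
    (p q : Lt k) {w : List (Lt k)} (hw0 : w ≠ []) (hw : ∀ a ∈ w, a.1 ∈ Y) :
    (pe p w q).countP (fun e => decide (e.1 ∈ K) != decide (e.2 ∈ K)) =
      (if p ∈ K then 1 else 0) + if q ∈ K then 1 else 0 := by
  obtain ⟨c, w, rfl⟩ := List.exists_cons_of_ne_nil hw0
  have hcY : c.1 ∈ Y := hw c List.mem_cons_self
  have hc : c ∉ K := fun h => hK c h hcY
  have hbc : bar c ∉ K := fun h => hK _ h hcY
  rw [pe, List.countP_cons, low1_count0 hK q w (bar c) hbc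
    (fun a ha => hw a (List.mem_cons_of_mem _ ha)), add_comm]
  by_cases hp : p ∈ K <;> simp [hp, hc]

private theorem low1_passage {Y : Finset (Fin k)} {K : Finset (Lt k)} (hK : ∀ p ∈ K, p.1 ∉ Y)
    (p q : Lt k) {x : FG k} (hx : x ∈ FY Y) (h : FG k) :
    ((onK K h p)⁻¹ * x * onK K h q).norm ≤ x.norm + h.norm *
      (pe p x.toWord q).countP (fun e => decide (e.1 ∈ K) != decide (e.2 ∈ K)) := by
  by_cases hx1 : x = 1
  · subst hx1
    rw [pe_one, List.countP_cons, List.countP_nil, FreeGroup.norm_one, mul_one]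
    unfold onK
    by_cases hp : p ∈ K <;> by_cases hq : q ∈ K <;> simp [hp, hq]
  · rw [low1_count hK p q (fun e => hx1 (FreeGroup.toWord_eq_nil_iff.1 e)) ((mem_FY Y x).1 hx)]
    have h1 := FreeGroup.norm_mul_le ((onK K h p)⁻¹ * x) (onK K h q)
    have h2 := FreeGroup.norm_mul_le ((onK K h p)⁻¹) x
    rw [FreeGroup.norm_inv_eq] at h2
    have h3 : ∀ z : Lt k, (onK K h z).norm = h.norm * if z ∈ K then 1 else 0 := by
      intro z
      unfold onK
      by_cases hz : z ∈ K <;> simp [hz]
    rw [h3] at h1 h2
    rw [mul_add]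
    omega

theorem push_length {Y : Finset (Fin k)} {m : ℕ} [NeZero m] {s : Fin m → Lt k}
    {g : Fin m → FG k} (hv : Val Y s g) {K : Finset (Lt k)} (hK : ∀ p ∈ K, p.1 ∉ Y) (h : FG k) :
    (wrd s (gg s g (onK K h))).length ≤ (wrd s g).length + h.norm * cap (wrd s g) K := by
  unfold cap
  rw [wrd_length, wrd_length, wrd_countP, Finset.mul_sum, add_assoc, ← Finset.sum_add_distrib]
  refine Nat.add_le_add_left (Finset.sum_le_sum fun i _ => ?_) _
  exact low1_passage hK _ _ (hv.hg i) h

private theorem low1_append {a b : FG k}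
    (H : ∀ x ∈ a.toWord.getLast?, ∀ y ∈ b.toWord.head?, x.1 = y.1 → x.2 = y.2) :
    (a * b).toWord = a.toWord ++ b.toWord := by
  have hr : FreeGroup.IsReduced (a.toWord ++ b.toWord) :=
    List.isChain_append.2 ⟨FreeGroup.isReduced_toWord, FreeGroup.isReduced_toWord, H⟩
  rw [FreeGroup.toWord_mul, hr.reduce_eq]

private theorem low1_last (a : FG k) :
    (a⁻¹).toWord.getLast? = a.toWord.head?.map fun x => (x.1, !x.2) := by
  rw [FreeGroup.toWord_inv, FreeGroup.invRev, List.getLast?_reverse, List.head?_map]

private theorem low1_conj {x h : FG k} {c c' : Lt k} (hx : x.toWord.head? = some c)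
    (hx' : (x⁻¹).toWord.head? = some c') (h1 : h.toWord.head? ≠ some c)
    (h2 : h.toWord.head? ≠ some c') :
    (h⁻¹ * x * h).toWord = (h⁻¹).toWord ++ x.toWord ++ h.toWord := by
  have e1 : (h⁻¹ * x).toWord = (h⁻¹).toWord ++ x.toWord := by
    refine low1_append fun u hu v hv huv => ?_
    rw [low1_last, Option.mem_def, Option.map_eq_some_iff] at hu
    obtain ⟨t, ht, rfl⟩ := hu
    rw [hx, Option.mem_def, Option.some_inj] at hv
    subst hv
    by_contra hne
    apply h1
    rw [ht]
    simp only at huv hne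
    congr 1
    ext
    · rw [huv]
    · revert hne
      cases t.2 <;> cases c.2 <;> simp
  have hxn : x.toWord ≠ [] := by
    intro e
    rw [e] at hx
    simp at hx
  have e2 : (h⁻¹ * x * h).toWord = (h⁻¹ * x).toWord ++ h.toWord := by
    refine low1_append fun u hu v hv huv => ?_
    rw [e1, List.getLast?_append_of_ne_nil _ hxn] at hu
    have hl := low1_last (x⁻¹)
    rw [inv_inv, hx', Option.map_some] at hl
    rw [hl, Option.mem_def, Option.some_inj] at hu
    subst hu
    rw [Option.mem_def] at hv
    by_contra hne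
    apply h2
    rw [hv]
    simp only at huv hne
    congr 1
    ext
    · rw [huv]
    · revert hne
      cases v.2 <;> cases c'.2 <;> simp
  rw [e2, e1]

theorem push_inj {Y : Finset (Fin k)} {m : ℕ} [NeZero m] {s : Fin m → Lt k}
    {g : Fin m → FG k} (hv : Val Y s g) {K : Finset (Lt k)} (hK : ∀ p ∈ K, p.1 ∉ Y)
    (hc : 0 < cap (wrd s g) K) :
    ∃ c c' : Lt k, ∀ h h' : FG k, h.norm = h'.norm → h.toWord.head? ≠ some c →
      h.toWord.head? ≠ some c' → h'.toWord.head? ≠ some c → h'.toWord.head? ≠ some c' →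
      gg s g (onK K h) = gg s g (onK K h') → h = h' := by
  unfold cap at hc
  rw [wrd_countP] at hc
  obtain ⟨i, _, hi⟩ := Finset.exists_ne_zero_of_sum_ne_zero hc.ne'
  by_cases hp : bar (s i) ∈ K
  · by_cases hq : s (i + 1) ∈ K
    · have hg : g i ≠ 1 := by
        intro e
        rw [e, pe_one] at hi
        simp [hp, hq] at hi
      have hw : (g i).toWord ≠ [] := fun e => hg (FreeGroup.toWord_eq_nil_iff.1 e)
      have hw' : ((g i)⁻¹).toWord ≠ [] :=
        fun e => inv_ne_one.2 hg (FreeGroup.toWord_eq_nil_iff.1 e)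
      obtain ⟨c, w, hcw⟩ := List.exists_cons_of_ne_nil hw
      obtain ⟨c', w', hcw'⟩ := List.exists_cons_of_ne_nil hw'
      have hd : (g i).toWord.head? = some c := by rw [hcw]; rfl
      have hd' : ((g i)⁻¹).toWord.head? = some c' := by rw [hcw']; rfl
      refine ⟨c, c', fun h h' hn n1 n2 n3 n4 heq => ?_⟩
      have e := congrFun heq i
      unfold gg onK at e
      simp only [hp, hq, if_true] at e
      have e3 := congrArg FreeGroup.toWord e
      rw [low1_conj hd hd' n1 n2, low1_conj hd hd' n3 n4, List.append_assoc,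
        List.append_assoc] at e3
      have hlen : (h⁻¹).toWord.length = (h'⁻¹).toWord.length := by
        have := hn
        rw [← FreeGroup.norm_inv_eq (x := h), ← FreeGroup.norm_inv_eq (x := h')] at this
        exact this
      have e4 := (List.append_inj e3 hlen).1
      exact inv_injective (FreeGroup.toWord_injective e4)
    · refine ⟨s 0, s 0, fun h h' _ _ _ _ _ heq => ?_⟩
      have e := congrFun heq i
      unfold gg onK at e
      simp only [hp, hq, if_true, if_false, mul_one] at e
      exact inv_injective (mul_right_cancel e)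
  · by_cases hq : s (i + 1) ∈ K
    · refine ⟨s 0, s 0, fun h h' _ _ _ _ _ heq => ?_⟩
      have e := congrFun heq i
      unfold gg onK at e
      simp only [hp, hq, if_true, if_false, inv_one, one_mul] at e
      exact mul_left_cancel e
    · exfalso
      apply hi
      by_cases hg : g i = 1
      · rw [hg, pe_one]
        simp [hp, hq]
      · rw [low1_count hK _ _ (fun e => hg (FreeGroup.toWord_eq_nil_iff.1 e))
          ((mem_FY Y (g i)).1 (hv.hg i))]
        simp [hp, hq]

end Pool.Agent.GRO
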