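import Pool.Agent.GRO.RAY
import Pool.Agent.GRO.LIN2
import Pool.Agent.GRO.CONN
import Pool.Agent.GRO.RSB

/-!
# M0: the case that all letters are in one block
`Y = Yb C y`, `u = mk l`. For `V ∈ FY Y`, `V ≠ 1`, let `Mono V` be: `∃ ε, ∀ U ∈ FY Y,
V.toWord <+: U.toWord → ρ ≤ U.norm → (U ∈ E ↔ ε)`. Claim: `Mono V` for all `V ≠ 1` in `FY Y`, by
induction on `ρ - V.norm`. If `ρ ≤ V.norm`: `TameE`. Otherwise let `z = bar (last letter of V)`. For
every letter `a ≠ z` over `Y`, `Mono (V * lt a)` with sign `ε a`. Let `Q = {x over Y, x ≠ z, ε x}`,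
`Q' = {z}ᶜ \ Q`. If `Q = ∅` or no letter over `Y` is in `Q'`: all signs are equal and `Mono V` (a word
`U` of norm `≥ ρ > |V|` begins with some `V * lt a`). Otherwise:
(i) `ebt l Q Q' ≤ c0`: for a position `j` whose edge `(bar (L (j-1)), L j)` goes between `Q` and `Q'`
(both letters are over `Y` because all letters of `l` are), the line `h = V * (Pz l j)⁻¹` has ends of
different sign (`ev_pre`, `ev_back`: the vertices `h u^n` are in `FY Y`, begin with `V * lt (L j)`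
and have norm `≥ ρ` for large `n`), so its coset is in `SepE E u` (`sep_coset`); different positions
`0 ≤ j, j' < n` give different cosets (`coset_iff`, `Pz_inj`, `Pz_add_mul`); `ebt_le_ncard`.
(ii) By `cap_eq_add` with `S = Q`, `S' = Q'`, `a = z`: `cap Q = e(Q,z) + e(Q,Q')`,
`cap {z} = e(Q,z) + e(Q',z)`, `cap (insert z Q) = cap Q'`, etc. The letter `bar z` is in `Q` or `Q'`.
If `bar z ∈ Q'`: `NG` for `(insert z Q, z)`: `8 cap {z} < T + 8 cap Q'`, so
`8 e(Q,z) < T + 8 e(Q,Q') ≤ T + 8 c0` and `8 cap Q < T + 16 c0 ≤ 4 T`; `Q` contains a letter over `Y`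
and does not contain `z`, so `I3` gives `T ≤ 2 cap Q`: contradiction. The other case is symmetric
(`Q'` contains a letter over `Y`).
At the root: for letters `a` over `Y`, `Mono (lt a)` with sign `ε a`; by `HasE` both signs occur. Let
`S = {x over Y, ε x}`. As in (i) `cap l S ≤ c0`, and `I3` gives `T ≤ 2 c0`, contradiction with
`16 c0 ≤ 3 T`, `0 < T`.
-/

set_option autoImplicit false

open Filter

namespace Pool.Agent.GRO

variable {k : ℕ}

private theorem M0_mk_mem {Y : Finset (Fin k)} (L : List (Lt k)) (h : ∀ a ∈ L, a.1 ∈ Y) :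
    (FreeGroup.mk L : FG k) ∈ FY Y := by
  induction L with
  | nil => exact one_mem _
  | cons a L ih =>
    have e : (FreeGroup.mk (a :: L) : FG k) = lt a * FreeGroup.mk L := by
      rw [lt, FreeGroup.mul_mk, List.singleton_append]
    rw [e]
    exact mul_mem (lt_mem_FY (h a (List.mem_cons_self ..)))
      (ih fun b hb => h b (List.mem_cons_of_mem _ hb))

private theorem M0_Pz_mem {Y : Finset (Fin k)} {l : List (Lt k)} (h : ∀ a ∈ l, a.1 ∈ Y) (j : ℤ) :
    Pz l j ∈ FY Y := by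
  unfold Pz
  exact mul_mem (zpow_mem (M0_mk_mem l h) _)
    (M0_mk_mem _ fun a ha => h a (List.mem_of_mem_take ha))

private theorem M0_ball (n : ℕ) : {g : FG k | g.norm ≤ n}.Finite := by
  have h := (List.finite_length_le (Lt k) n).preimage
    (f := fun g : FG k => g.toWord) (FreeGroup.toWord_injective.injOn)
  exact h.subset fun g hg => hg

private theorem M0_far (h : FG k) (f : ℕ → FG k) (hf : Function.Injective f) (ρ : ℕ) :
    ∀ᶠ n : ℕ in atTop, ρ ≤ (h * f n).norm := by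
  have h1 : Function.Injective fun n => h * f n := fun n m hnm => hf (mul_left_cancel hnm)
  have h2 : ∀ᶠ n : ℕ in atTop, h * f n ∉ {g : FG k | g.norm ≤ ρ} := by
    rw [← Nat.cofinite_eq_atTop]
    exact h1.tendsto_cofinite.eventually (M0_ball ρ).compl_mem_cofinite
  filter_upwards [h2] with n hn
  have : ¬ (h * f n).norm ≤ ρ := hn
  omega

/-- A line which leaves `V` in two directions with different signs is separated. -/
private theorem M0_sep (a0 : Lt k) {Y : Finset (Fin k)} {l : List (Lt k)} (hl : CR l)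
    (hY : ∀ a ∈ l, a.1 ∈ Y) {E : Set (FG k)} {ρ : ℕ} {V : FG k} (hV : V ∈ FY Y) (j : ℤ)
    (h1 : (V * lt (Lz a0 l j)).norm = V.norm + 1)
    (h2 : (V * lt (bar (Lz a0 l (j - 1)))).norm = V.norm + 1) {ε : Lt k → Prop}
    (s1 : ∀ U ∈ FY Y, (V * lt (Lz a0 l j)).toWord <+: U.toWord → ρ ≤ U.norm →
      (U ∈ E ↔ ε (Lz a0 l j)))
    (s2 : ∀ U ∈ FY Y, (V * lt (bar (Lz a0 l (j - 1)))).toWord <+: U.toWord → ρ ≤ U.norm →
      (U ∈ E ↔ ε (bar (Lz a0 l (j - 1)))))
    (hne : ¬ (ε (bar (Lz a0 l (j - 1))) ↔ ε (Lz a0 l j))) :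
    ((V * (Pz l j)⁻¹ : FG k) : FG k ⧸ Subgroup.zpowers (FreeGroup.mk l)) ∈
      SepE E (FreeGroup.mk l) := by
  have hl0 : l ≠ [] := hl.2
  have hlpos : (0 : ℤ) < (l.length : ℤ) := by exact_mod_cast List.length_pos_iff.2 hl0
  have hu : (FreeGroup.mk l : FG k) ∈ FY Y := M0_mk_mem l hY
  have hbase : V * (Pz l j)⁻¹ ∈ FY Y := mul_mem hV (inv_mem (M0_Pz_mem hY j))
  have hinj : Function.Injective fun n : ℕ => (FreeGroup.mk l : FG k) ^ n := by
    intro n m hnm
    have e : Pz l ((n : ℤ) * l.length) = Pz l ((m : ℤ) * l.length) := by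
      rw [Pz_mul hl0, Pz_mul hl0, zpow_natCast, zpow_natCast]
      exact hnm
    have e2 := Pz_inj hl e
    have e3 := mul_right_cancel₀ hlpos.ne' e2
    exact_mod_cast e3
  have hinj' : Function.Injective fun n : ℕ => ((FreeGroup.mk l : FG k)⁻¹) ^ n := by
    intro n m hnm
    apply hinj
    have : ((FreeGroup.mk l : FG k)⁻¹) ^ n = ((FreeGroup.mk l : FG k)⁻¹) ^ m := hnm
    rw [inv_pow, inv_pow] at this
    exact inv_injective this
  rw [sep_coset]
  have c1 : (∀ᶠ n : ℕ in atTop, V * (Pz l j)⁻¹ * (FreeGroup.mk l) ^ n ∈ E) ↔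
      ε (Lz a0 l j) := by
    have e : ∀ᶠ n : ℕ in atTop, (V * (Pz l j)⁻¹ * (FreeGroup.mk l) ^ n ∈ E ↔ ε (Lz a0 l j)) := by
      filter_upwards [ev_pre a0 hl V j h1, M0_far (V * (Pz l j)⁻¹) _ hinj ρ] with n hn1 hn2
      exact s1 _ (mul_mem hbase (pow_mem hu n)) hn1 hn2
    rw [eventually_congr e, eventually_const]
  have c2 : (∀ᶠ n : ℕ in atTop, V * (Pz l j)⁻¹ * ((FreeGroup.mk l)⁻¹) ^ n ∈ E) ↔
      ε (bar (Lz a0 l (j - 1))) := by
    have e : ∀ᶠ n : ℕ in atTop, (V * (Pz l j)⁻¹ * ((FreeGroup.mk l)⁻¹) ^ n ∈ E ↔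
        ε (bar (Lz a0 l (j - 1)))) := by
      filter_upwards [ev_back a0 hl V j h2, M0_far (V * (Pz l j)⁻¹) _ hinj' ρ] with n hn1 hn2
      exact s2 _ (mul_mem hbase (pow_mem (inv_mem hu) n)) hn1 hn2
    rw [eventually_congr e, eventually_const]
  rw [c1, c2]
  exact fun h => hne h.symm

private theorem M0_inj {l : List (Lt k)} (hl : CR l) (V : FG k) (j j' : ℤ) (h1 : 0 ≤ j)
    (h2 : j < l.length) (h3 : 0 ≤ j') (h4 : j' < l.length)
    (h : ((V * (Pz l j)⁻¹ : FG k) : FG k ⧸ Subgroup.zpowers (FreeGroup.mk l)) =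
      ((V * (Pz l j')⁻¹ : FG k) : FG k ⧸ Subgroup.zpowers (FreeGroup.mk l))) : j = j' := by
  have hl0 : l ≠ [] := hl.2
  rw [coset_iff hl] at h
  obtain ⟨n, hn⟩ := h
  rw [mul_assoc] at hn
  have e1 := mul_left_cancel hn
  rw [Pz_mul hl0] at e1
  have e2 : Pz l j = (FreeGroup.mk l) ^ n * Pz l j' := by
    have := congrArg (fun x => Pz l j * x * Pz l j') e1
    simp only [mul_assoc, inv_mul_cancel, mul_one] at this
    rw [this, mul_inv_cancel_left]
  rw [← Pz_add_mul hl0] at e2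
  have e3 := Pz_inj hl e2
  have e4 : n = 0 := by
    rcases lt_trichotomy n 0 with h | h | h
    · have : n * (l.length : ℤ) ≤ -1 * l.length :=
        mul_le_mul_of_nonneg_right (by omega) (by omega)
      omega
    · exact h
    · have : 1 * (l.length : ℤ) ≤ n * l.length :=
        mul_le_mul_of_nonneg_right (by omega) (by omega)
      omega
  rw [e4] at e3
  simpa using e3

/-- The word of a longer element begins with one more letter. -/
private theorem M0_next {V U : FG k} (h : V.toWord <+: U.toWord) (hn : V.norm < U.norm) :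
    ∃ a ∈ U.toWord, (V * lt a).norm = V.norm + 1 ∧ (V * lt a).toWord <+: U.toWord := by
  obtain ⟨w, hw⟩ := h
  have hw0 : w ≠ [] := by
    rintro rfl
    rw [List.append_nil] at hw
    have h1 : V.norm = U.norm := by
      change V.toWord.length = U.toWord.length
      rw [hw]
    omega
  obtain ⟨a, w', rfl⟩ := List.exists_cons_of_ne_nil hw0
  have hred : FreeGroup.IsReduced (V.toWord ++ [a]) := by
    have h1 : FreeGroup.IsReduced U.toWord := FreeGroup.isReduced_toWord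
    rw [← hw] at h1
    exact red_sub h1 ⟨[], w', by simp⟩
  have hword : (V * lt a).toWord = V.toWord ++ [a] := by
    rw [FreeGroup.toWord_mul, RAY_lt_word]
    exact hred.reduce_eq
  refine ⟨a, ?_, ?_, ?_⟩
  · rw [← hw]
    simp
  · change (V * lt a).toWord.length = V.toWord.length + 1
    rw [hword, List.length_append]
    rfl
  · rw [hword, ← hw]
    exact ⟨w', by simp⟩

private theorem M0_step {V : FG k} (hV : V ≠ 1) :
    ∃ z : Lt k, bar z ∈ V.toWord ∧ (V * lt z).norm ≠ V.norm + 1 ∧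
      ∀ a : Lt k, a ≠ z → (V * lt a).norm = V.norm + 1 := by
  have h0 : V.toWord ≠ [] := fun h => hV (FreeGroup.toWord_eq_nil_iff.1 h)
  obtain ⟨w, d, hw⟩ := (List.eq_nil_or_concat V.toWord).resolve_left h0
  rw [List.concat_eq_append] at hw
  refine ⟨bar d, ?_, ?_, ?_⟩
  · rw [bar_bar, hw]
    simp
  · have h1 : V = FreeGroup.mk w * lt d := by
      rw [← FreeGroup.mk_toWord (x := V), hw, lt, FreeGroup.mul_mk]
    have h2 : V * lt (bar d) = FreeGroup.mk w := by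
      rw [h1, lt_bar, mul_inv_cancel_right]
    have h3 : (FreeGroup.mk w : FG k).norm ≤ w.length := FreeGroup.norm_mk_le
    have h4 : V.norm = w.length + 1 := by
      change V.toWord.length = _
      rw [hw, List.length_append]
      rfl
    rw [h2]
    omega
  · intro a ha
    have hred : FreeGroup.IsReduced (V.toWord ++ [a]) := by
      have h1 : FreeGroup.IsReduced V.toWord := FreeGroup.isReduced_toWord
      rw [hw] at h1 ⊢
      refine FreeGroup.IsReduced.append_overlap h1 ?_ (by simp)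
      rw [List.singleton_append, FreeGroup.isReduced_cons_cons]
      refine ⟨?_, FreeGroup.IsReduced.singleton⟩
      intro h2
      by_contra h3
      apply ha
      unfold bar
      apply Prod.ext
      · exact h2.symm
      · simp only
        cases hd2 : d.2 <;> cases ha2 : a.2 <;> simp_all
    change (V * lt a).toWord.length = V.toWord.length + 1
    rw [FreeGroup.toWord_mul, RAY_lt_word, hred.reduce_eq, List.length_append]
    rfl

private theorem M0_mono {C : Lt k → Lt k → Prop} (hC : Str C) {T c0 : ℕ}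
    (hc : 16 * c0 ≤ 3 * T) {y : Fin k} (hy : C (y, true) (y, false)) {l : List (Lt k)}
    (hl : CR l) (hY : ∀ a ∈ l, a.1 ∈ Yb C y) (hI : I3 C T l) (hN : NG T l) {E : Set (FG k)}
    {ρ : ℕ} (HE : HasE (Yb C y) (FreeGroup.mk l) c0 E ρ) :
    ∀ n : ℕ, ∀ V ∈ FY (Yb C y), V ≠ 1 → ρ ≤ V.norm + n →
      ∃ ε : Prop, ∀ U ∈ FY (Yb C y), V.toWord <+: U.toWord → ρ ≤ U.norm → (U ∈ E ↔ ε) := by
  classical
  obtain ⟨a0, -⟩ := List.exists_mem_of_ne_nil l hl.2
  intro n
  induction n with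
  | zero =>
    intro V hV hV1 hρ
    exact ⟨V ∈ E, fun U _ hU _ => HE.1 V U (by omega) hU⟩
  | succ n ih =>
    intro V hV hV1 hρ
    by_cases hρV : ρ ≤ V.norm
    · exact ⟨V ∈ E, fun U _ hU _ => HE.1 V U hρV hU⟩
    obtain ⟨z, hz1, hz3, hz2⟩ := M0_step hV1
    have hzY : z.1 ∈ Yb C y := (mem_FY (Yb C y) V).1 hV (bar z) hz1
    have hex : ∀ a : Lt k, ∃ ε : Prop, a.1 ∈ Yb C y → a ≠ z → ∀ U ∈ FY (Yb C y),
        (V * lt a).toWord <+: U.toWord → ρ ≤ U.norm → (U ∈ E ↔ ε) := by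
      intro a
      by_cases ha : a.1 ∈ Yb C y ∧ a ≠ z
      · have h1 := hz2 a ha.2
        obtain ⟨ε, hε⟩ := ih (V * lt a) (mul_mem hV (lt_mem_FY ha.1)) (by
          intro h
          rw [h, FreeGroup.norm_one] at h1
          omega) (by omega)
        exact ⟨ε, fun _ _ => hε⟩
      · exact ⟨True, fun h1 h2 => absurd ⟨h1, h2⟩ ha⟩
    choose ε hε using hex
    -- the next letter of a vertex below `V`
    have hnext : ∀ U ∈ FY (Yb C y), V.toWord <+: U.toWord → ρ ≤ U.norm →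
        ∃ a : Lt k, a.1 ∈ Yb C y ∧ a ≠ z ∧ (U ∈ E ↔ ε a) := by
      intro U hU hVU hρU
      obtain ⟨a, ha1, ha2, ha3⟩ := M0_next hVU (by omega)
      have haY : a.1 ∈ Yb C y := (mem_FY (Yb C y) U).1 hU a ha1
      have haz : a ≠ z := by
        rintro rfl
        exact hz3 ha2
      exact ⟨a, haY, haz, hε a haY haz U hU ha3 hρU⟩
    by_cases hA : ∀ a : Lt k, a.1 ∈ Yb C y → a ≠ z → ¬ ε a
    · refine ⟨False, fun U hU hVU hρU => ?_⟩
      obtain ⟨a, h1, h2, h3⟩ := hnext U hU hVU hρU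
      rw [h3]
      exact ⟨fun h => hA a h1 h2 h, fun h => h.elim⟩
    by_cases hB : ∀ a : Lt k, a.1 ∈ Yb C y → a ≠ z → ε a
    · refine ⟨True, fun U hU hVU hρU => ?_⟩
      obtain ⟨a, h1, h2, h3⟩ := hnext U hU hVU hρU
      rw [h3]
      exact ⟨fun _ => trivial, fun _ => hB a h1 h2⟩
    exfalso
    push Not at hA hB
    obtain ⟨x1, hx1Y, hx1z, hx1⟩ := hA
    obtain ⟨x2, hx2Y, hx2z, hx2⟩ := hB
    set Q : Finset (Lt k) := Finset.univ.filter fun x => x ≠ z ∧ x.1 ∈ Yb C y ∧ ε x with hQ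
    set Q' : Finset (Lt k) := Finset.univ.filter fun x => x ≠ z ∧ ¬ (x.1 ∈ Yb C y ∧ ε x) with hQ'
    have mQ : ∀ x, x ∈ Q ↔ x ≠ z ∧ x.1 ∈ Yb C y ∧ ε x := by
      intro x
      simp [hQ]
    have mQ' : ∀ x, x ∈ Q' ↔ x ≠ z ∧ ¬ (x.1 ∈ Yb C y ∧ ε x) := by
      intro x
      simp only [hQ', Finset.mem_filter, Finset.mem_univ, true_and]
    have hLY : ∀ j : ℤ, (Lz a0 l j).1 ∈ Yb C y := fun j => hY _ (Lz_mem a0 hl.2 j)
    have hebt : ebt l Q Q' ≤ c0 := by
      refine le_trans ?_ HE.2.2.2.2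
      refine ebt_le_ncard a0 l Q Q' (SepE E (FreeGroup.mk l)) HE.2.2.2.1
        (fun j => ((V * (Pz l j)⁻¹ : FG k) : FG k ⧸ Subgroup.zpowers (FreeGroup.mk l))) ?_ ?_
      · intro j hj0 hj1 hj
        have hb : (bar (Lz a0 l (j - 1))).1 ∈ Yb C y := hLY (j - 1)
        have hz1' : Lz a0 l j ≠ z := by
          rcases hj with ⟨_, h⟩ | ⟨_, h⟩
          · exact ((mQ' _).1 h).1
          · exact ((mQ _).1 h).1
        have hz2' : bar (Lz a0 l (j - 1)) ≠ z := by
          rcases hj with ⟨h, _⟩ | ⟨h, _⟩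
          · exact ((mQ _).1 h).1
          · exact ((mQ' _).1 h).1
        refine M0_sep a0 hl hY hV j (hz2 _ hz1') (hz2 _ hz2') (ρ := ρ) (ε := ε)
          (hε _ (hLY j) hz1') (hε _ hb hz2') ?_
        rcases hj with ⟨h, h'⟩ | ⟨h, h'⟩
        · have t1 := ((mQ _).1 h).2.2
          have t2 := ((mQ' _).1 h').2
          exact fun hc => t2 ⟨hLY j, hc.1 t1⟩
        · have t1 := ((mQ _).1 h').2.2
          have t2 := ((mQ' _).1 h).2
          exact fun hc => t2 ⟨hb, hc.2 t1⟩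
      · intro j j' h1 h2 h3 h4 h5
        exact M0_inj hl V j j' h1 h2 h3 h4 h5
    have hzQ : z ∉ Q := fun h => ((mQ z).1 h).1 rfl
    have hzQ' : z ∉ Q' := fun h => ((mQ' z).1 h).1 rfl
    have hdis : Disjoint Q Q' := by
      rw [Finset.disjoint_left]
      intro x h1 h2
      exact ((mQ' x).1 h2).2 ((mQ x).1 h1).2
    have hcov : ∀ x, x ∈ Q ∨ x ∈ Q' ∨ x = z := by
      intro x
      rw [mQ, mQ']
      tauto
    have hcov' : ∀ x, x ∈ Q' ∨ x ∈ Q ∨ x = z := by
      intro x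
      rw [mQ, mQ']
      tauto
    obtain ⟨p1, p2, p3⟩ := cap_eq_add l hzQ hzQ' hdis hcov
    obtain ⟨q1, q2, q3⟩ := cap_eq_add l hzQ' hzQ hdis.symm hcov'
    have hcomm := ebt_comm l Q Q'
    have hx1Q : x1 ∈ Q := (mQ x1).2 ⟨hx1z, hx1Y, hx1⟩
    have hx2Q : x2 ∈ Q' := (mQ' x2).2 ⟨hx2z, fun h => hx2 h.2⟩
    have hCz : ∀ x : Lt k, x.1 ∈ Yb C y → C x z := fun x hx => (Yb_spec hC hy x z hx).2 hzY
    rcases hcov (bar z) with h | h | h
    · have g1 := hN (insert z Q') z (Finset.mem_insert_self _ _) (by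
        rw [Finset.mem_insert]
        rintro (h' | h')
        · exact bar_ne z h'
        · exact Finset.disjoint_left.1 hdis h h')
      rw [q3] at g1
      have g2 : 2 * cap l Q' < T := by omega
      exact hzQ' ((hI Q' g2 x2 z (hCz x2 hx2Y)).1 hx2Q)
    · have g1 := hN (insert z Q) z (Finset.mem_insert_self _ _) (by
        rw [Finset.mem_insert]
        rintro (h' | h')
        · exact bar_ne z h'
        · exact Finset.disjoint_left.1 hdis h' h)
      rw [p3] at g1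
      have g2 : 2 * cap l Q < T := by omega
      exact hzQ ((hI Q g2 x1 z (hCz x1 hx1Y)).1 hx1Q)
    · exact bar_ne z h

theorem m0 {C : Lt k → Lt k → Prop} (hC : Str C) {T c0 : ℕ} (hT : 0 < T)
    (hc : 16 * c0 ≤ 3 * T) {y : Fin k} (hy : C (y, true) (y, false)) {l : List (Lt k)}
    (hl : CR l) (hY : ∀ a ∈ l, a.1 ∈ Yb C y) (hI : I3 C T l) (hN : NG T l) {E : Set (FG k)}
    {ρ : ℕ} (HE : HasE (Yb C y) (FreeGroup.mk l) c0 E ρ) : False := by
  classical
  obtain ⟨a0, -⟩ := List.exists_mem_of_ne_nil l hl.2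
  have hlt : ∀ a : Lt k, (lt a : FG k).norm = 1 := by
    intro a
    change (lt a : FG k).toWord.length = 1
    rw [RAY_lt_word]
    rfl
  have hex : ∀ a : Lt k, ∃ ε : Prop, a.1 ∈ Yb C y → ∀ U ∈ FY (Yb C y),
      (1 * lt a).toWord <+: U.toWord → ρ ≤ U.norm → (U ∈ E ↔ ε) := by
    intro a
    by_cases ha : a.1 ∈ Yb C y
    · obtain ⟨ε, hε⟩ := M0_mono hC hc hy hl hY hI hN HE ρ (lt a) (lt_mem_FY ha) (by
        intro h
        have h1 := hlt a
        rw [h, FreeGroup.norm_one] at h1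
        omega) (by omega)
      refine ⟨ε, fun _ => ?_⟩
      rw [one_mul]
      exact hε
    · exact ⟨True, fun h => absurd h ha⟩
  choose ε hε using hex
  have hnext : ∀ U ∈ FY (Yb C y), 1 ≤ U.norm → ρ ≤ U.norm →
      ∃ a : Lt k, a.1 ∈ Yb C y ∧ (U ∈ E ↔ ε a) := by
    intro U hU h1 hρU
    obtain ⟨a, ha1, ha2, ha3⟩ := M0_next (V := (1 : FG k)) (U := U) (by simp)
      (by rw [FreeGroup.norm_one]; omega)
    have haY : a.1 ∈ Yb C y := (mem_FY (Yb C y) U).1 hU a ha1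
    exact ⟨a, haY, hε a haY U hU ha3 hρU⟩
  have hbig : ∀ P : Set (FG k), P.Infinite → ∃ U ∈ P, 1 ≤ U.norm ∧ ρ ≤ U.norm := by
    intro P hP
    by_contra hcon
    push Not at hcon
    refine hP ((M0_ball (ρ + 1)).subset fun U hU => ?_)
    change U.norm ≤ ρ + 1
    by_contra h
    have := hcon U hU (by omega)
    omega
  obtain ⟨U1, ⟨hU1Y, hU1E⟩, n1, r1⟩ := hbig _ HE.2.1
  obtain ⟨U2, ⟨hU2Y, hU2E⟩, n2, r2⟩ := hbig _ HE.2.2.1
  obtain ⟨a, haY, ha⟩ := hnext U1 hU1Y n1 r1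
  obtain ⟨b, hbY, hb⟩ := hnext U2 hU2Y n2 r2
  set S : Finset (Lt k) := Finset.univ.filter fun x => x.1 ∈ Yb C y ∧ ε x with hS
  have mS : ∀ x, x ∈ S ↔ x.1 ∈ Yb C y ∧ ε x := by
    intro x
    simp [hS]
  have hLY : ∀ j : ℤ, (Lz a0 l j).1 ∈ Yb C y := fun j => hY _ (Lz_mem a0 hl.2 j)
  have hn1 : ∀ a : Lt k, ((1 : FG k) * lt a).norm = (1 : FG k).norm + 1 := by
    intro a
    rw [one_mul, hlt, FreeGroup.norm_one]
  have hcap : cap l S ≤ c0 := by
    refine le_trans ?_ HE.2.2.2.2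
    refine cap_le_ncard a0 l S (SepE E (FreeGroup.mk l)) HE.2.2.2.1
      (fun j => ((1 * (Pz l j)⁻¹ : FG k) : FG k ⧸ Subgroup.zpowers (FreeGroup.mk l))) ?_ ?_
    · intro j hj0 hj1 hj
      have hbj : (bar (Lz a0 l (j - 1))).1 ∈ Yb C y := hLY (j - 1)
      refine M0_sep a0 hl hY (one_mem _) j (hn1 _) (hn1 _) (ρ := ρ) (ε := ε)
        (hε _ (hLY j)) (hε _ hbj) ?_
      rw [mS, mS] at hj
      intro hcon
      exact hj ⟨fun h => ⟨hLY j, hcon.1 h.2⟩, fun h => ⟨hbj, hcon.2 h.2⟩⟩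
    · intro j j' h1 h2 h3 h4 h5
      exact M0_inj hl 1 j j' h1 h2 h3 h4 h5
  have h2 : 2 * cap l S < T := by omega
  have hCab : C a b := (Yb_spec hC hy a b haY).2 hbY
  have haS : a ∈ S := (mS a).2 ⟨haY, ha.1 hU1E⟩
  have hbS := (mS b).1 ((hI S h2 a b hCab).1 haS)
  exact hU2E (hb.2 hbS.2)

end Pool.Agent.GRO
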