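import Pool.Agent.GRO.STG

/-!
# MSG: combination of the stages
`c1'` from `stage`, `t_i = t0 ^ 3 ^ i`, so `t_{i+1} = t_i ^ 3`; `c1 = (4 k² + 1) * c1' + 1`,
`c1 ≤ t0 ≤ t_i`, so `c1' * t_i ≤ t_i ^ 3 = t_{i+1}`. Let `np t l` = number of pairs `(x, y)` with
`conn t l x y`; `np t l ≤ 4 k²`; `np` is nonincreasing in `t` (`conn_mono`), `np t l ≥ 2 k ≥ 1` (reflexive;
`l` is nonempty, so `k ≥ 1`).
Claim: if `np t_i l + i ≤ 4 k²` then there are `i ≤ i' ≤ 4 k²`, `n ≤ (i' - i + 1) * c1' * t_{i'}` and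
`v` with `Ch n l v` and (`¬ NG t_{i'+1} v` or `v.length ≤ c1' * t_{i'}`). Induction on `4 k² - i`:
if `np t_{i+1} l < np t_i l` apply the claim to `(i+1, l)`. Otherwise the two relations are equal, apply
`stage` with `t = t_i`, `T = t_{i+1}`. In the second alternative `np t_{i+1} v < np t_i l`; apply the
claim to `(i+1, v)` and compose the chains (`Ch_trans`).
If `¬ NG T v`, `T = t_{i'} ^ 3`: there are `S`, `a` with `T + 8 cap v S ≤ 8 cap v {a}`; `wh_move` gives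
`v'` with `8 * v'.length + T ≤ 8 * v.length`; `RW v v'`; one more step.
-/

set_option autoImplicit false

namespace Pool.Agent.GRO

variable {k : ℕ}

theorem Ch_trans {O : Set (List (Lt k))} {R : List (Lt k) → List (Lt k) → Prop} {n n' : ℕ}
    {l v u : List (Lt k)} (h : Ch O R n l v) (h' : Ch O R n' v u) : Ch O R (n + n') l u := by
  induction n generalizing l with
  | zero =>
    have e : l = v := h
    subst e
    rw [Nat.zero_add]
    exact h'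
  | succ n ih =>
    obtain ⟨l', hl', hle, hR, hch⟩ := h
    rw [Nat.succ_add]
    exact ⟨l', hl', hle, hR, ih hch⟩

open Classical in
/-- Number of connected pairs. -/
private noncomputable def MSG_np (t : ℕ) (l : List (Lt k)) : ℕ :=
  (Finset.univ.filter fun p : Lt k × Lt k => conn t l p.1 p.2).card

private theorem MSG_np_le (t : ℕ) (l : List (Lt k)) : MSG_np t l ≤ 4 * k ^ 2 := by
  classical
  unfold MSG_np
  refine (Finset.card_le_univ _).trans ?_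
  simp only [Fintype.card_prod, Fintype.card_fin, Fintype.card_bool]
  apply le_of_eq
  ring

private theorem MSG_np_lt {t t' : ℕ} {l v : List (Lt k)}
    (h : ∀ x y, conn t' v x y → conn t l x y)
    (h' : ∃ x y, conn t l x y ∧ ¬ conn t' v x y) : MSG_np t' v < MSG_np t l := by
  classical
  unfold MSG_np
  apply Finset.card_lt_card
  obtain ⟨x, y, h1, h2⟩ := h'
  rw [Finset.ssubset_iff_of_subset]
  · exact ⟨(x, y), by simpa using h1, by simpa using h2⟩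
  · intro p hp
    simp only [Finset.mem_filter, Finset.mem_univ, true_and] at hp ⊢
    exact h _ _ hp

private theorem MSG_np_pos {l : List (Lt k)} (hl : l ≠ []) (t : ℕ) : 1 ≤ MSG_np t l := by
  classical
  obtain ⟨a, l', rfl⟩ := List.exists_cons_of_ne_nil hl
  unfold MSG_np
  apply Finset.card_pos.2
  exact ⟨(a, a), by simpa using (conn_equiv t (a :: l')).refl a⟩

private theorem MSG_claim {w : FG k} {c1 t0 : ℕ}
    (hst : ∀ N t T : ℕ, 1 ≤ t → c1 * t ≤ T → ∀ l ∈ Orb w, l.length ≤ N →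
      (∀ x y, conn t l x y → conn T l x y) →
      ∃ n ≤ c1 * t, ∃ v ∈ Orb w, Ch (Orb w) (RB N) n l v ∧ v.length ≤ l.length ∧
        (¬ NG T v ∨
          ((∀ x y, conn T v x y → conn t l x y) ∧ ∃ x y, conn t l x y ∧ ¬ conn T v x y) ∨
          v.length ≤ c1 * t)) (h1 : 1 ≤ t0) (hc : c1 ≤ t0) (N : ℕ) :
    ∀ d i, i + d = 4 * k ^ 2 → ∀ l ∈ Orb w, l.length ≤ N →
      MSG_np (t0 ^ 3 ^ i) l + i ≤ 4 * k ^ 2 →
      ∃ i', i ≤ i' ∧ i' ≤ 4 * k ^ 2 ∧ ∃ n, n ≤ (i' - i + 1) * (c1 * t0 ^ 3 ^ i') ∧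
        ∃ v ∈ Orb w, Ch (Orb w) (RB N) n l v ∧ v.length ≤ l.length ∧
          (¬ NG (t0 ^ 3 ^ (i' + 1)) v ∨ v.length ≤ c1 * t0 ^ 3 ^ i') := by
  intro d
  induction d with
  | zero =>
    intro i hi l hl hlN hnp
    exfalso
    have := MSG_np_pos hl.1.2 (t0 ^ 3 ^ i)
    omega
  | succ d ih =>
    intro i hi l hl hlN hnp
    have ht : 1 ≤ t0 ^ 3 ^ i := Nat.one_le_pow _ _ h1
    have hmono : ∀ {a b : ℕ}, a ≤ b → t0 ^ 3 ^ a ≤ t0 ^ 3 ^ b := fun {a b} hab =>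
      Nat.pow_le_pow_right h1 (Nat.pow_le_pow_right (by norm_num) hab)
    have hT : t0 ^ 3 ^ (i + 1) = (t0 ^ 3 ^ i) ^ 3 := by
      rw [pow_succ, pow_mul]
    by_cases heq : ∀ x y, conn (t0 ^ 3 ^ i) l x y → conn (t0 ^ 3 ^ (i + 1)) l x y
    · have hcT : c1 * t0 ^ 3 ^ i ≤ t0 ^ 3 ^ (i + 1) := by
        rw [hT]
        have e1 : t0 ≤ t0 ^ 3 ^ i := by
          calc t0 = t0 ^ 3 ^ 0 := by simp
            _ ≤ t0 ^ 3 ^ i := hmono (Nat.zero_le i)
        have e2 : c1 ≤ t0 ^ 3 ^ i := hc.trans e1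
        calc c1 * t0 ^ 3 ^ i ≤ t0 ^ 3 ^ i * t0 ^ 3 ^ i := Nat.mul_le_mul_right _ e2
          _ ≤ (t0 ^ 3 ^ i) * (t0 ^ 3 ^ i) * (t0 ^ 3 ^ i) := Nat.le_mul_of_pos_right _ ht
          _ = (t0 ^ 3 ^ i) ^ 3 := by ring
      obtain ⟨n, hn, v, hv, hch, hvl, halt⟩ := hst N _ _ ht hcT l hl hlN heq
      rcases halt with h | ⟨h, h'⟩ | h
      · refine ⟨i, le_refl _, by omega, n, ?_, v, hv, hch, hvl, Or.inl h⟩
        simpa using hn
      · have hlt := MSG_np_lt h h'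
        obtain ⟨i', hi1, hi2, n2, hn2, v2, hv2, hch2, hvl2, halt2⟩ :=
          ih (i + 1) (by omega) v hv (hvl.trans hlN) (by omega)
        refine ⟨i', by omega, hi2, n + n2, ?_, v2, hv2, Ch_trans hch hch2, hvl2.trans hvl,
          halt2⟩
        have e3 : c1 * t0 ^ 3 ^ i ≤ c1 * t0 ^ 3 ^ i' := Nat.mul_le_mul_left _ (hmono (by omega))
        have e4 : i' - i + 1 = (i' - (i + 1) + 1) + 1 := by omega
        rw [e4, Nat.add_mul, Nat.one_mul]
        omega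
      · refine ⟨i, le_refl _, by omega, n, ?_, v, hv, hch, hvl, Or.inr h⟩
        simpa using hn
    · push Not at heq
      have hlt : MSG_np (t0 ^ 3 ^ (i + 1)) l < MSG_np (t0 ^ 3 ^ i) l :=
        MSG_np_lt (fun x y h => conn_mono (hmono (by omega)) l x y h) heq
      obtain ⟨i', hi1, hi2, n2, hn2, v2, hv2, hch2, hvl2, halt2⟩ :=
          ih (i + 1) (by omega) l hl hlN (by omega)
      refine ⟨i', by omega, hi2, n2, ?_, v2, hv2, hch2, hvl2, halt2⟩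
      refine hn2.trans (Nat.mul_le_mul_right _ (by omega))

theorem msg (w : FG k) :
    ∃ c1 : ℕ, ∀ t0 N : ℕ, c1 ≤ t0 → ∀ l ∈ Orb w, l.length ≤ N →
      ∃ i ≤ 4 * k ^ 2, ∃ n ≤ c1 * t0 ^ 3 ^ i, ∃ v ∈ Orb w, Ch (Orb w) (RB N) n l v ∧
        v.length ≤ l.length ∧
        (8 * v.length + (t0 ^ 3 ^ i) ^ 3 ≤ 8 * l.length ∨ v.length ≤ c1 * t0 ^ 3 ^ i) := by
  obtain ⟨c, hst⟩ := stage (w := w)
  refine ⟨(4 * k ^ 2 + 1) * c + 1, ?_⟩
  intro t0 N ht0 l hl hlN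
  have h1 : 1 ≤ t0 := by omega
  have hc : c ≤ t0 := by
    have : c ≤ (4 * k ^ 2 + 1) * c := Nat.le_mul_of_pos_left _ (by omega)
    omega
  obtain ⟨i, -, hi, n, hn, v, hv, hch, hvl, halt⟩ :=
    MSG_claim hst h1 hc N (4 * k ^ 2) 0 (by omega) l hl hlN
      (by have := MSG_np_le (t0 ^ 3 ^ 0) l; omega)
  have ht : 1 ≤ t0 ^ 3 ^ i := Nat.one_le_pow _ _ h1
  have hT : t0 ^ 3 ^ (i + 1) = (t0 ^ 3 ^ i) ^ 3 := by
    rw [pow_succ, pow_mul]
  have hn' : n + 1 ≤ ((4 * k ^ 2 + 1) * c + 1) * t0 ^ 3 ^ i := by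
    have e1 : (i - 0 + 1) * (c * t0 ^ 3 ^ i) ≤ (4 * k ^ 2 + 1) * (c * t0 ^ 3 ^ i) :=
      Nat.mul_le_mul_right _ (by omega)
    have e2 : ((4 * k ^ 2 + 1) * c + 1) * t0 ^ 3 ^ i =
      (4 * k ^ 2 + 1) * (c * t0 ^ 3 ^ i) + t0 ^ 3 ^ i := by ring
    rw [e2]
    omega
  have hsmall : c * t0 ^ 3 ^ i ≤ ((4 * k ^ 2 + 1) * c + 1) * t0 ^ 3 ^ i := by
    apply Nat.mul_le_mul_right
    have : c ≤ (4 * k ^ 2 + 1) * c := Nat.le_mul_of_pos_left _ (by omega)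
    omega
  rcases halt with h | h
  · unfold NG at h
    push Not at h
    obtain ⟨S, a, ha, hb, hcap⟩ := h
    obtain ⟨v', hv', hconj, hlen, -, -⟩ := wh_move hv.1 ha hb
    rw [hT] at hcap
    have hle : v'.length ≤ v.length := by omega
    refine ⟨i, hi, n + 1, hn', v', orb_wh hv hv' hconj,
      Ch_snoc hch (orb_wh hv hv' hconj) hle (Or.inl ⟨S, a, ha, hb, hle, hconj⟩),
      hle.trans hvl, Or.inl ?_⟩
    omega
  · exact ⟨i, hi, n, by omega, v, hv, hch, hvl, Or.inr (h.trans hsmall)⟩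

end Pool.Agent.GRO
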