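import Pool.Agent.GRO.CONN
import Pool.Agent.GRO.ADJ

/-!
# NAC: comparison of the number of all-agree pairs
Let `Y0 = Yb C y0`. We show that every pair `(y, x)` counted in `NA C v` is counted in `NA C l`, and
`(y0, x0)` is counted for `l` but not for `v`.
`StY C Y l` is symmetric. Let `(y, x)` be counted for `v`, `Y1 = Yb C y`.
* Case `Y1 = Y0` (as Finsets). By `h1`, `StY C Y0 l` and `StY C Y0 v` are the same relation. If
  `x` is reachable from `x0`, then all-agree for `x` and `x0` is the same condition for `v`, which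
  contradicts `hv0`. Otherwise no letter reachable from `x` is in `K`, and `h3` shows that the
  condition for `x` is the same for `l` and `v`.
* Case `Y1 ≠ Y0`. Then the blocks are disjoint (if `x.1` is in both, `Yb_spec` shows equality). All
  letters over `Y0` are in one class. Reachability for `StY C Y1` is the same in `l` and `v`: a step
  `Adj l z z'` with `z, z'` outside `Y0` is a step in `v` by `h1`; with both over `Y0` it is a step
  in the class; with `z` outside and `z'` over `Y0`: by `h2` there is `c` over `Y0` with `Adj v z c`,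
  and `C c z'`. The same from `v` to `l`. In the same way the neighbours of a component in
  `Y1` are the same for `l` and `v` (if the component contains a letter over `Y0` it contains
  all of them; for `z` over `Y0` and `b` over `Y1` with `Adj l z b`, `h2` (with the letter `b`
  outside `Y0`) gives `c` over `Y0` with `Adj v b c`).
-/

set_option autoImplicit false

namespace Pool.Agent.GRO

variable {k : ℕ}

private theorem NAC_symm {C : Lt k → Lt k → Prop} (hC : Str C) (Y : Finset (Fin k))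
    (l : List (Lt k)) (x y : Lt k) (h : StY C Y l x y) : StY C Y l y x :=
  ⟨h.2.1, h.1, h.2.2.elim (fun h => Or.inl (hC.eqv.symm h)) fun h => Or.inr (adj_comm.1 h)⟩

private theorem NAC_rsymm {C : Lt k → Lt k → Prop} (hC : Str C) (Y : Finset (Fin k))
    (l : List (Lt k)) (x y : Lt k) (h : Relation.ReflTransGen (StY C Y l) x y) :
    Relation.ReflTransGen (StY C Y l) y x := by
  induction h with
  | refl => exact Relation.ReflTransGen.refl
  | tail _ h ih => exact Relation.ReflTransGen.head (NAC_symm hC Y l _ _ h) ih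

private theorem NAC_out {C : Lt k → Lt k → Prop} (Y : Finset (Fin k))
    (l : List (Lt k)) (x y : Lt k) (hx : x.1 ∉ Y) (h : Relation.ReflTransGen (StY C Y l) x y) :
    y.1 ∉ Y := by
  induction h with
  | refl => exact hx
  | tail _ h _ => exact h.2.1

private theorem NAC_step {C : Lt k → Lt k → Prop} (hC : Str C) {y0 : Fin k}
    (hy : C (y0, true) (y0, false)) {Y1 : Finset (Fin k)} (hd : ∀ z ∈ Yb C y0, z ∉ Y1)
    {l v : List (Lt k)}
    (h1 : ∀ x y : Lt k, x.1 ∉ Yb C y0 → y.1 ∉ Yb C y0 → (Adj l x y → Adj v x y))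
    (h2 : ∀ x : Lt k, x.1 ∉ Yb C y0 →
      ((∃ c : Lt k, c.1 ∈ Yb C y0 ∧ Adj l x c) → (∃ c : Lt k, c.1 ∈ Yb C y0 ∧ Adj v x c)))
    {z z' : Lt k} (h : StY C Y1 l z z') : Relation.ReflTransGen (StY C Y1 v) z z' := by
  obtain ⟨hz, hz', hc | ha⟩ := h
  · exact Relation.ReflTransGen.single ⟨hz, hz', Or.inl hc⟩
  · by_cases a1 : z.1 ∈ Yb C y0
    · by_cases a2 : z'.1 ∈ Yb C y0
      · exact Relation.ReflTransGen.single ⟨hz, hz', Or.inl ((Yb_spec hC hy z z' a1).2 a2)⟩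
      · obtain ⟨c, hc, hcv⟩ := h2 z' a2 ⟨z, a1, adj_comm.1 ha⟩
        have hc1 : c.1 ∉ Y1 := hd _ hc
        exact (Relation.ReflTransGen.single (b := c)
          ⟨hz, hc1, Or.inl ((Yb_spec hC hy z c a1).2 hc)⟩).tail
          ⟨hc1, hz', Or.inr (adj_comm.1 hcv)⟩
    · by_cases a2 : z'.1 ∈ Yb C y0
      · obtain ⟨c, hc, hcv⟩ := h2 z a1 ⟨z', a2, ha⟩
        have hc1 : c.1 ∉ Y1 := hd _ hc
        exact (Relation.ReflTransGen.single (b := c)
          ⟨hz, hc1, Or.inr hcv⟩).tail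
          ⟨hc1, hz', Or.inl ((Yb_spec hC hy c z' hc).2 a2)⟩
      · exact Relation.ReflTransGen.single ⟨hz, hz', Or.inr (h1 z z' a1 a2 ha)⟩

private theorem NAC_reach {C : Lt k → Lt k → Prop} (hC : Str C) {y0 : Fin k}
    (hy : C (y0, true) (y0, false)) {Y1 : Finset (Fin k)} (hd : ∀ z ∈ Yb C y0, z ∉ Y1)
    {l v : List (Lt k)}
    (h1 : ∀ x y : Lt k, x.1 ∉ Yb C y0 → y.1 ∉ Yb C y0 → (Adj l x y → Adj v x y))
    (h2 : ∀ x : Lt k, x.1 ∉ Yb C y0 →
      ((∃ c : Lt k, c.1 ∈ Yb C y0 ∧ Adj l x c) → (∃ c : Lt k, c.1 ∈ Yb C y0 ∧ Adj v x c)))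
    {z z' : Lt k} (h : Relation.ReflTransGen (StY C Y1 l) z z') :
    Relation.ReflTransGen (StY C Y1 v) z z' := by
  induction h with
  | refl => exact Relation.ReflTransGen.refl
  | tail _ h ih => exact ih.trans (NAC_step hC hy hd h1 h2 h)

private theorem NAC_nbr {C : Lt k → Lt k → Prop} (hC : Str C) {y0 : Fin k}
    (hy : C (y0, true) (y0, false)) {Y1 : Finset (Fin k)} (hd : ∀ z ∈ Yb C y0, z ∉ Y1)
    {l v : List (Lt k)}
    (h1 : ∀ x y : Lt k, x.1 ∉ Yb C y0 → y.1 ∉ Yb C y0 → (Adj l x y → Adj v x y))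
    (h2 : ∀ x : Lt k, x.1 ∉ Yb C y0 →
      ((∃ c : Lt k, c.1 ∈ Yb C y0 ∧ Adj l x c) → (∃ c : Lt k, c.1 ∈ Yb C y0 ∧ Adj v x c)))
    {x x' y : Lt k} (hx : x.1 ∉ Y1) (h : Relation.ReflTransGen (StY C Y1 v) x x')
    (hyY : y.1 ∈ Y1) (ha : Adj l x' y) :
    ∃ x'', Relation.ReflTransGen (StY C Y1 v) x x'' ∧ Adj v x'' y := by
  have hy0 : y.1 ∉ Yb C y0 := fun h => hd _ h hyY
  by_cases a1 : x'.1 ∈ Yb C y0
  · obtain ⟨c, hc, hcv⟩ := h2 y hy0 ⟨x', a1, adj_comm.1 ha⟩
    exact ⟨c, h.tail ⟨NAC_out Y1 v x x' hx h, hd _ hc, Or.inl ((Yb_spec hC hy x' c a1).2 hc)⟩,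
      adj_comm.1 hcv⟩
  · exact ⟨x', h, h1 x' y a1 hy0 ha⟩

theorem nac {C : Lt k → Lt k → Prop} (hC : Str C) {y0 : Fin k} (hy : C (y0, true) (y0, false))
    {l v : List (Lt k)} {x0 : Lt k}
    (h1 : ∀ x y : Lt k, x.1 ∉ Yb C y0 → y.1 ∉ Yb C y0 → (Adj l x y ↔ Adj v x y))
    (h2 : ∀ x : Lt k, x.1 ∉ Yb C y0 →
      ((∃ c : Lt k, c.1 ∈ Yb C y0 ∧ Adj l x c) ↔ (∃ c : Lt k, c.1 ∈ Yb C y0 ∧ Adj v x c)))
    (h3 : ∀ x c : Lt k, x.1 ∉ Yb C y0 → ¬ Relation.ReflTransGen (StY C (Yb C y0) l) x0 x →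
      c.1 ∈ Yb C y0 → (Adj l x c ↔ Adj v x c))
    (hl0 : AA C (Yb C y0) l x0) (hv0 : ¬ AA C (Yb C y0) v x0) : NA C v < NA C l := by
  classical
  unfold NA
  apply Finset.card_lt_card
  rw [Finset.ssubset_iff_of_subset]
  · refine ⟨(y0, x0), ?_, ?_⟩
    · rw [Finset.mem_filter]; exact ⟨Finset.mem_univ _, hy, hl0⟩
    · rw [Finset.mem_filter]; exact fun h => hv0 h.2.2
  · rintro ⟨y, x⟩ hyx
    rw [Finset.mem_filter] at hyx ⊢
    obtain ⟨_, hyy, hA⟩ := hyx
    refine ⟨Finset.mem_univ _, hyy, ?_⟩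
    simp only at hyy hA ⊢
    by_cases hY : Yb C y = Yb C y0
    · rw [hY] at hA ⊢
      have hSt : StY C (Yb C y0) l = StY C (Yb C y0) v := by
        funext a b
        apply propext
        constructor
        · rintro ⟨ha, hb, h⟩
          exact ⟨ha, hb, h.imp_right (h1 a b ha hb).1⟩
        · rintro ⟨ha, hb, h⟩
          exact ⟨ha, hb, h.imp_right (h1 a b ha hb).2⟩
      by_cases hr : Relation.ReflTransGen (StY C (Yb C y0) l) x0 x
      · exfalso
        apply hv0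
        rw [hSt] at hr
        obtain ⟨_, a, ha, ⟨x', hx', hx'a⟩, hu⟩ := hA
        exact ⟨hl0.1, a, ha, ⟨x', hr.trans hx', hx'a⟩, fun x'' y'' h1' h2' h3' =>
          hu x'' y'' ((NAC_rsymm hC _ _ _ _ hr).trans h1') h2' h3'⟩
      · obtain ⟨hx, a, ha, ⟨x', hx', hx'a⟩, hu⟩ := hA
        have hadj : ∀ x'' c, Relation.ReflTransGen (StY C (Yb C y0) v) x x'' → c.1 ∈ Yb C y0 →
            (Adj l x'' c ↔ Adj v x'' c) := by
          intro x'' c hx'' hc
          refine h3 x'' c (NAC_out _ v x x'' hx hx'') (fun h => hr ?_) hc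
          rw [hSt] at h ⊢
          exact h.trans (NAC_rsymm hC _ _ _ _ hx'')
        refine ⟨hx, a, ha, ⟨x', ?_, (hadj x' a hx' ha).2 hx'a⟩, ?_⟩
        · rw [hSt]; exact hx'
        · intro x'' y'' h1' h2' h3'
          rw [hSt] at h1'
          exact hu x'' y'' h1' h2' ((hadj x'' y'' h1' h2').1 h3')
    · have hd : ∀ z ∈ Yb C y0, z ∉ Yb C y := by
        intro z hz hz'
        apply hY
        have e1 : C (y0, true) (z, true) := (Finset.mem_filter.1 hz).2
        have e2 : C (y, true) (z, true) := (Finset.mem_filter.1 hz').2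
        have e3 : C (y, true) (y0, true) := hC.eqv.trans e2 (hC.eqv.symm e1)
        ext w
        constructor
        · intro hw
          exact Finset.mem_filter.2 ⟨Finset.mem_univ _,
            hC.eqv.trans (hC.eqv.symm e3) (Finset.mem_filter.1 hw).2⟩
        · intro hw
          exact Finset.mem_filter.2 ⟨Finset.mem_univ _,
            hC.eqv.trans e3 (Finset.mem_filter.1 hw).2⟩
      have h1a : ∀ x y : Lt k, x.1 ∉ Yb C y0 → y.1 ∉ Yb C y0 → (Adj l x y → Adj v x y) :=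
        fun x y hx hy => (h1 x y hx hy).1
      have h1b : ∀ x y : Lt k, x.1 ∉ Yb C y0 → y.1 ∉ Yb C y0 → (Adj v x y → Adj l x y) :=
        fun x y hx hy => (h1 x y hx hy).2
      have h2a : ∀ x : Lt k, x.1 ∉ Yb C y0 →
        ((∃ c : Lt k, c.1 ∈ Yb C y0 ∧ Adj l x c) → (∃ c : Lt k, c.1 ∈ Yb C y0 ∧ Adj v x c)) :=
        fun x hx => (h2 x hx).1
      have h2b : ∀ x : Lt k, x.1 ∉ Yb C y0 →
        ((∃ c : Lt k, c.1 ∈ Yb C y0 ∧ Adj v x c) → (∃ c : Lt k, c.1 ∈ Yb C y0 ∧ Adj l x c)) :=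
        fun x hx => (h2 x hx).2
      obtain ⟨hx, a, ha, ⟨x', hx', hx'a⟩, hu⟩ := hA
      refine ⟨hx, a, ha, ?_, ?_⟩
      · exact NAC_nbr hC hy hd h1b h2b hx (NAC_reach hC hy hd h1b h2b hx') ha hx'a
      · intro x'' y'' h1' h2' h3'
        obtain ⟨x3, hx3, hx3a⟩ := NAC_nbr hC hy hd h1a h2a hx
          (NAC_reach hC hy hd h1a h2a h1') h2' h3'
        exact hu x3 y'' hx3 h2' hx3a

end Pool.Agent.GRO
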