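import Mathlib

/-!
# NIE1: Nielsen reduced pairs
`cn a b` = number of letters cancelled in `a * b`: `(|a| + |b| - |a b|) / 2`, i.e. the length of the
longest common beginning of `a⁻¹` and `b`; so `|a b| = |a| + |b| - 2 cn a b`, `a * b` is the first
`|a| - cn` letters of `a` followed by the last `|b| - cn` letters of `b`.
* `nred`: for a list `a_1, ..., a_n` (`n ≥ 1`) of elements of `S` with `a_i a_{i+1} ≠ 1` show by induction
  on `n` (adding `a_{n+1}` at the end): the word of the product `G_n` has length `≥ n`, and it ends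
  with the last `|a_n| - cn a_{n-1} a_n` letters of `a_n` (with all of `a_1` for `n = 1`). By `h2`
  `cn a_n a_{n+1} < |a_n| - cn a_{n-1} a_n` (resp. `< |a_1|` by `h1`, because
  `2 cn a b ≤ min |a| |b|`), so exactly `cn a_n a_{n+1}` letters cancel in `G_n * a_{n+1}`, and
  `|G_{n+1}| = |G_n| + |a_{n+1}| - 2 cn ≥ ...`. For the length it is better to show
  `|G_{n+1}| ≥ (|G_n| - cn a_n a_{n+1}) + (|a_{n+1}| - cn a_n a_{n+1})` and count the surviving parts: let
  `M_n = |G_n| - (|a_n| - cn a_{n-1} a_n)` be the length of the part before the surviving end of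
  `a_n`; `M_{n+1} = M_n + (|a_n| - cn a_{n-1} a_n - cn a_n a_{n+1}) ≥ M_n + 1`, so `M_n ≥ n - 1` and
  `|G_n| ≥ M_n + 1`.
-/

set_option autoImplicit false

namespace Pool.Agent.GRO

/-- Twice the cancellation in `a * b`. -/
def cn2 {α : Type} [DecidableEq α] (a b : FreeGroup α) : ℤ :=
  (a.norm : ℤ) + b.norm - (a * b).norm

theorem nie1_cancel {α : Type} [DecidableEq α] (L1 : List (α × Bool)) :
    ∀ L2 : List (α × Bool), FreeGroup.IsReduced L1 → FreeGroup.IsReduced L2 →
    ∃ x y z, L1 = x ++ FreeGroup.invRev z ∧ L2 = z ++ y ∧ FreeGroup.IsReduced (x ++ y) := by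
  induction L1 using List.reverseRecOn with
  | nil =>
    intro L2 _ h2
    exact ⟨[], L2, [], rfl, rfl, h2⟩
  | append_singleton L l ih =>
    intro L2 h1 h2
    cases L2 with
    | nil => exact ⟨L ++ [l], [], [], by simp [FreeGroup.invRev], rfl, by simpa using h1⟩
    | cons m M =>
      by_cases hm : m = (l.1, !l.2)
      · have hL : FreeGroup.IsReduced L := List.IsChain.left_of_append h1
        have hM : FreeGroup.IsReduced M := List.IsChain.tail h2
        obtain ⟨x, y, z, e1, e2, e3⟩ := ih M hL hM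
        refine ⟨x, y, m :: z, ?_, by rw [e2]; rfl, e3⟩
        rw [e1, hm]
        simp [FreeGroup.invRev]
      · refine ⟨L ++ [l], m :: M, [], by simp [FreeGroup.invRev], rfl, ?_⟩
        refine FreeGroup.IsReduced.append_overlap h1 ?_ (by simp)
        show FreeGroup.IsReduced (l :: m :: M)
        rw [FreeGroup.isReduced_cons_cons]
        refine ⟨?_, h2⟩
        intro h3
        by_contra h4
        apply hm
        refine Prod.ext h3.symm ?_
        show m.2 = !l.2
        cases hl : l.2 <;> cases hm2 : m.2 <;> simp_all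

/-- cancellation in a product -/
theorem nie1_mul {α : Type} [DecidableEq α] (a b : FreeGroup α) :
    ∃ x y z, a.toWord = x ++ FreeGroup.invRev z ∧ b.toWord = z ++ y ∧
      (a * b).toWord = x ++ y := by
  obtain ⟨x, y, z, h1, h2, h3⟩ := nie1_cancel a.toWord b.toWord FreeGroup.isReduced_toWord
    FreeGroup.isReduced_toWord
  refine ⟨x, y, z, h1, h2, ?_⟩
  have h4 : a * b = FreeGroup.mk (x ++ y) := by
    rw [← FreeGroup.mk_toWord (x := a), ← FreeGroup.mk_toWord (x := b), h1, h2]
    rw [← FreeGroup.mul_mk, ← FreeGroup.mul_mk, ← FreeGroup.mul_mk, ← FreeGroup.inv_mk]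
    group
  rw [h4, FreeGroup.toWord_mk, h3.reduce_eq]

theorem nie1_cn2 {α : Type} [DecidableEq α] {a b : FreeGroup α} {x y z : List (α × Bool)}
    (h1 : a.toWord = x ++ FreeGroup.invRev z) (h2 : b.toWord = z ++ y)
    (h3 : (a * b).toWord = x ++ y) : cn2 a b = 2 * z.length := by
  unfold cn2 FreeGroup.norm
  rw [h1, h2, h3, List.length_append, List.length_append, List.length_append,
    FreeGroup.invRev_length]
  push_cast
  ring

private theorem nie1_main {α : Type} [DecidableEq α] (S : Set (FreeGroup α))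
    (h0 : ∀ a ∈ S, a ≠ 1)
    (h1 : ∀ a ∈ S, ∀ b ∈ S, a * b ≠ 1 → cn2 a b ≤ a.norm ∧ cn2 a b ≤ b.norm)
    (h2 : ∀ a ∈ S, ∀ b ∈ S, ∀ c ∈ S, a * b ≠ 1 → b * c ≠ 1 → cn2 a b + cn2 b c < 2 * b.norm)
    (l : List (FreeGroup α)) : ∀ a : FreeGroup α, (∀ x ∈ l ++ [a], x ∈ S) →
      ((l ++ [a]).IsChain fun a b => a * b ≠ 1) →
      ∃ w d e, (l ++ [a]).prod.toWord = w ++ e ∧ a.toWord = d ++ e ∧ l.length ≤ w.length ∧
        e ≠ [] ∧ ∀ b ∈ S, a * b ≠ 1 → cn2 a b < 2 * e.length := by
  induction l using List.reverseRecOn with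
  | nil =>
    intro a hS _
    have ha : a ∈ S := hS a (by simp)
    have hne : a.toWord ≠ [] := by
      rw [Ne, FreeGroup.toWord_eq_nil_iff]
      exact h0 a ha
    refine ⟨[], [], a.toWord, by simp, rfl, le_rfl, hne, ?_⟩
    intro b hb hab
    have h3 := (h1 a ha b hb hab).1
    have h4 : 0 < a.toWord.length := List.length_pos_iff.2 hne
    unfold FreeGroup.norm at h3
    omega
  | append_singleton l p ih =>
    intro a hS hch
    have ha : a ∈ S := hS a (by simp)
    have hp : p ∈ S := hS p (by simp)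
    have hpa : p * a ≠ 1 := by
      rw [List.append_assoc] at hch
      have h3 : List.IsChain (fun a b : FreeGroup α => a * b ≠ 1) ([p] ++ [a]) :=
        List.IsChain.right_of_append hch
      simpa using h3
    obtain ⟨w, d, e, e1, e2, e3, e4, e5⟩ := ih p (fun x hx => hS x (by
      rw [List.mem_append] at hx ⊢
      exact Or.inl (by simpa using hx))) (List.IsChain.left_of_append hch)
    obtain ⟨x, y, z, f1, f2, f3⟩ := nie1_mul p a
    have hc := nie1_cn2 f1 f2 f3
    have hz : (z.length : ℤ) < e.length := by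
      have := e5 a ha hpa
      omega
    -- split e
    have hsplit : ∃ e', x = d ++ e' ∧ e = e' ++ FreeGroup.invRev z ∧ e' ≠ [] := by
      have h3 : d ++ e = x ++ FreeGroup.invRev z := by rw [← e2, f1]
      rcases List.append_eq_append_iff.1 h3 with ⟨as, g1, g2⟩ | ⟨bs, g1, g2⟩
      · refine ⟨as, g1, g2, ?_⟩
        rintro rfl
        have := congrArg List.length g2
        simp only [List.nil_append, FreeGroup.invRev_length] at this
        omega
      · exfalso
        have := congrArg List.length g2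
        rw [List.length_append, FreeGroup.invRev_length] at this
        omega
    obtain ⟨e', g1, g2, g3⟩ := hsplit
    have hred : FreeGroup.IsReduced (w ++ e' ++ y) := by
      refine FreeGroup.IsReduced.append_overlap ?_ ?_ g3
      · have h3 : FreeGroup.IsReduced (w ++ e) := by
          rw [← e1]
          exact FreeGroup.isReduced_toWord
        rw [g2, ← List.append_assoc] at h3
        exact List.IsChain.left_of_append h3
      · have h3 : FreeGroup.IsReduced (x ++ y) := by
          rw [← f3]
          exact FreeGroup.isReduced_toWord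
        rw [g1, List.append_assoc] at h3
        exact List.IsChain.right_of_append h3
    have hprod : (l ++ [p] ++ [a]).prod = FreeGroup.mk (w ++ e' ++ y) := by
      rw [List.prod_append, List.prod_singleton, ← FreeGroup.mk_toWord (x := (l ++ [p]).prod),
        ← FreeGroup.mk_toWord (x := a), e1, g2, f2]
      rw [← FreeGroup.mul_mk, ← FreeGroup.mul_mk, ← FreeGroup.mul_mk, ← FreeGroup.mul_mk,
        ← FreeGroup.mul_mk, ← FreeGroup.inv_mk]
      group
    have hlen := congrArg List.length f2
    rw [List.length_append] at hlen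
    have hcle := (h1 p hp a ha hpa).2
    have hapos : 0 < a.toWord.length := by
      rw [List.length_pos_iff, Ne, FreeGroup.toWord_eq_nil_iff]
      exact h0 a ha
    unfold FreeGroup.norm at hcle
    refine ⟨w ++ e', z, y, ?_, f2, ?_, ?_, ?_⟩
    · rw [hprod, FreeGroup.toWord_mk, hred.reduce_eq]
    · have h4 : 0 < e'.length := List.length_pos_iff.2 g3
      rw [List.length_append, List.length_append, List.length_singleton]
      omega
    · rw [← List.length_pos_iff]
      omega
    · intro b hb hab
      have h5 := h2 p hp a ha b hb hpa hab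
      unfold FreeGroup.norm at h5
      omega

theorem nred {α : Type} [DecidableEq α] (S : Set (FreeGroup α)) (h0 : ∀ a ∈ S, a ≠ 1)
    (h1 : ∀ a ∈ S, ∀ b ∈ S, a * b ≠ 1 → cn2 a b ≤ a.norm ∧ cn2 a b ≤ b.norm)
    (h2 : ∀ a ∈ S, ∀ b ∈ S, ∀ c ∈ S, a * b ≠ 1 → b * c ≠ 1 → cn2 a b + cn2 b c < 2 * b.norm)
    (L : List (FreeGroup α)) (hL : ∀ a ∈ L, a ∈ S) (hne : L ≠ [])
    (hr : L.IsChain fun a b => a * b ≠ 1) : L.length ≤ L.prod.norm := by
  obtain ⟨l, a, rfl⟩ : ∃ l a, L = l ++ [a] := ⟨L.dropLast, L.getLast hne,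
    (List.dropLast_append_getLast hne).symm⟩
  obtain ⟨w, d, e, e1, e2, e3, e4, e5⟩ := nie1_main S h0 h1 h2 l a hL hr
  unfold FreeGroup.norm
  rw [e1, List.length_append, List.length_append, List.length_singleton]
  have : 0 < e.length := List.length_pos_iff.2 e4
  omega

end Pool.Agent.GRO
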