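import Pool.Agent.GRO.NIE1

/-!
# NIE2: a shortest equivalent pair is Nielsen reduced
`F = FreeGroup (Fin 2)`. `Eqv (u, v) (u', v')`: equivalence relation generated by the elementary
moves: `(u, v) ~ (v, u)`, `(u, v) ~ (u⁻¹, v)`, `(u, v) ~ (u * v, v)`, `(u, v) ~ (c u c⁻¹, c v c⁻¹)`.
Invariant (`Eqv_comm`): `u v u⁻¹ v⁻¹` is conjugate to `u' v' u'⁻¹ v'⁻¹` or to its inverse.
Let `(u, v)` have minimal `|u| + |v|` in its class, `u, v ≠ 1`, `u ≠ v^{±1}` (true if `u, v` generate the
free group). `S = {u, u⁻¹, v, v⁻¹}`.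
* `h1`: for `a ∈ {u^±}`, `b ∈ {v^±}` (or exchanged): `|a b| ≥ |a|, |b|` by minimality (replace `u`, resp.
  `v`, by `a b`), which is `cn2 a b ≤ |b|`, `≤ |a|`. For `a = b`: `|a²| > |a|` (write `a = p r p⁻¹`, `r`
  cyclically reduced, nonempty), so `cn2 a a < |a|`.
* `h2`: by `h1` the sum is `≤ 2 |b|`; suppose equality: `cn2 a b = |b| = cn2 b c`. Then `a, c ≠ b`
  (`cn2 b b < |b|`), `a ≠ b⁻¹`, `c ≠ b⁻¹`; so (say `b ∈ {v^±}`) `a, c ∈ {u^±}`. `|b| = 2 h` (`cn2` is
  even), `b = p q⁻¹` reduced, `|p| = |q| = h ≥ 1`; `a` ends with `p⁻¹`, `c` begins with `q`. If `c = a⁻¹`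
  then `c` begins with `p`, so `p = q`, `b = 1`. So `c = a` begins with `q` and ends with `p⁻¹`, and
  `|a| ≥ |b| = 2 h` by `h1`, so `a = q r p⁻¹` reduced as written, `a * b = q r q⁻¹`,
  `q⁻¹ (a b) q = r` has norm `|a| - 2 h`, and `q⁻¹ b q = q⁻¹ p` has norm `≤ 2 h = |b|`. The pair
  `(q⁻¹ (a b) q, q⁻¹ b q)` is equivalent to `(u, v)` and shorter: contradiction.
-/

set_option autoImplicit false

namespace Pool.Agent.GRO

/-- Equivalence of pairs under Nielsen moves and simultaneous conjugation. -/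
inductive NEq : FreeGroup (Fin 2) × FreeGroup (Fin 2) → FreeGroup (Fin 2) × FreeGroup (Fin 2) → Prop
  | refl (P : FreeGroup (Fin 2) × FreeGroup (Fin 2)) : NEq P P
  | trans {P Q R : FreeGroup (Fin 2) × FreeGroup (Fin 2)} : NEq P Q → NEq Q R → NEq P R
  | swap (u v : FreeGroup (Fin 2)) : NEq (u, v) (v, u)
  | inv (u v : FreeGroup (Fin 2)) : NEq (u, v) (u⁻¹, v)
  | mul (u v : FreeGroup (Fin 2)) : NEq (u, v) (u * v, v)
  | conj (c u v : FreeGroup (Fin 2)) : NEq (u, v) (c * u * c⁻¹, c * v * c⁻¹)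

private theorem nie2_inv {G : Type} [Group G] {a b : G} (h : IsConj a b) : IsConj a⁻¹ b⁻¹ := by
  obtain ⟨c, hc⟩ := isConj_iff.1 h
  refine isConj_iff.2 ⟨c, ?_⟩
  rw [← hc]
  group

theorem NEq_comm {P Q : FreeGroup (Fin 2) × FreeGroup (Fin 2)} (h : NEq P Q) :
    IsConj (P.1 * P.2 * P.1⁻¹ * P.2⁻¹) (Q.1 * Q.2 * Q.1⁻¹ * Q.2⁻¹) ∨
      IsConj (P.1 * P.2 * P.1⁻¹ * P.2⁻¹) (Q.1 * Q.2 * Q.1⁻¹ * Q.2⁻¹)⁻¹ := by
  induction h with
  | refl P => exact Or.inl (IsConj.refl _)
  | trans _ _ h1 h2 =>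
    rcases h1 with h1 | h1 <;> rcases h2 with h2 | h2
    · exact Or.inl (h1.trans h2)
    · exact Or.inr (h1.trans h2)
    · exact Or.inr (h1.trans (nie2_inv h2))
    · refine Or.inl (h1.trans ?_)
      have := nie2_inv h2
      rwa [inv_inv] at this
  | swap u v =>
    right
    refine isConj_iff.2 ⟨1, ?_⟩
    simp only
    group
  | inv u v =>
    right
    refine isConj_iff.2 ⟨u⁻¹, ?_⟩
    simp only
    group
  | mul u v =>
    left
    refine isConj_iff.2 ⟨1, ?_⟩
    simp only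
    group
  | conj c u v =>
    left
    refine isConj_iff.2 ⟨c, ?_⟩
    simp only
    group

theorem NEq_gen {P Q : FreeGroup (Fin 2) × FreeGroup (Fin 2)} (h : NEq P Q)
    (hP : Subgroup.closure {P.1, P.2} = ⊤) : Subgroup.closure {Q.1, Q.2} = ⊤ := by
  have key : ∀ u v u' v' : FreeGroup (Fin 2), u ∈ Subgroup.closure {u', v'} →
      v ∈ Subgroup.closure {u', v'} → Subgroup.closure {u, v} = ⊤ →
      Subgroup.closure {u', v'} = ⊤ := by
    intro u v u' v' h1 h2 h3
    rw [eq_top_iff, ← h3, Subgroup.closure_le]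
    rintro x (rfl | hx)
    · exact h1
    · rw [Set.mem_singleton_iff] at hx
      rw [hx]
      exact h2
  induction h with
  | refl P => exact hP
  | trans _ _ h1 h2 => exact h2 (h1 hP)
  | swap u v =>
    exact key u v v u (Subgroup.subset_closure (by simp)) (Subgroup.subset_closure (by simp)) hP
  | inv u v =>
    refine key u v u⁻¹ v ?_ (Subgroup.subset_closure (by simp)) hP
    have h1 : u⁻¹ ∈ Subgroup.closure ({u⁻¹, v} : Set (FreeGroup (Fin 2))) :=
      Subgroup.subset_closure (by simp)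
    have h2 := Subgroup.inv_mem _ h1
    rwa [inv_inv] at h2
  | mul u v =>
    refine key u v (u * v) v ?_ (Subgroup.subset_closure (by simp)) hP
    have h1 : u * v ∈ Subgroup.closure ({u * v, v} : Set (FreeGroup (Fin 2))) :=
      Subgroup.subset_closure (by simp)
    have h2 : v ∈ Subgroup.closure ({u * v, v} : Set (FreeGroup (Fin 2))) :=
      Subgroup.subset_closure (by simp)
    have h3 := Subgroup.mul_mem _ h1 (Subgroup.inv_mem _ h2)
    rwa [mul_inv_cancel_right] at h3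
  | conj c u v =>
    have h1 : Subgroup.closure {c * u * c⁻¹, c * v * c⁻¹} =
        (Subgroup.closure {u, v}).map (MulAut.conj c).toMonoidHom := by
      rw [MonoidHom.map_closure, Set.image_pair]
      rfl
    show Subgroup.closure {c * u * c⁻¹, c * v * c⁻¹} = ⊤
    rw [h1, show Subgroup.closure {u, v} = ⊤ from hP]
    exact Subgroup.map_top_of_surjective _ (MulAut.conj c).surjective

theorem NEq_symm {P Q : FreeGroup (Fin 2) × FreeGroup (Fin 2)} (h : NEq P Q) : NEq Q P := by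
  induction h with
  | refl P => exact NEq.refl P
  | trans _ _ h1 h2 => exact h2.trans h1
  | swap u v => exact NEq.swap v u
  | inv u v =>
    have := NEq.inv u⁻¹ v
    rwa [inv_inv] at this
  | mul u v =>
    have h1 : NEq (u * v, v) (v⁻¹, u * v) := (NEq.swap _ _).trans (NEq.inv _ _)
    have h2 : NEq (v⁻¹, u * v) (u * v * v⁻¹, v⁻¹) := (NEq.swap _ _).trans (NEq.mul _ _)
    have h3 : NEq (u * v * v⁻¹, v⁻¹) (v⁻¹⁻¹, u * v * v⁻¹) := (NEq.swap _ _).trans (NEq.inv _ _)
    have h4 := ((h1.trans h2).trans h3).trans (NEq.swap _ _)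
    rwa [inv_inv, mul_inv_cancel_right] at h4
  | conj c u v =>
    have := NEq.conj c⁻¹ (c * u * c⁻¹) (c * v * c⁻¹)
    have e1 : c⁻¹ * (c * u * c⁻¹) * c⁻¹⁻¹ = u := by group
    have e2 : c⁻¹ * (c * v * c⁻¹) * c⁻¹⁻¹ = v := by group
    rwa [e1, e2] at this

private theorem nie2_invRev {α : Type} (L M : List (α × Bool)) :
    FreeGroup.invRev (L ++ M) = FreeGroup.invRev M ++ FreeGroup.invRev L := by
  simp [FreeGroup.invRev]

/-- squares are longer -/
private theorem nie2_sq {α : Type} [DecidableEq α] {a : FreeGroup α} (ha : a ≠ 1) :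
    cn2 a a < a.norm := by
  obtain ⟨x, y, z, h1, h2, h3⟩ := nie1_mul a a
  have hc := nie1_cn2 h1 h2 h3
  have hl1 := congrArg List.length h1
  have hl2 := congrArg List.length h2
  rw [List.length_append, FreeGroup.invRev_length] at hl1
  rw [List.length_append] at hl2
  by_contra hcon
  push Not at hcon
  unfold FreeGroup.norm at hcon
  have hzx : x.length ≤ z.length := by omega
  have h4 : x ++ FreeGroup.invRev z = z ++ y := by rw [← h1, h2]
  obtain ⟨t, ht1, ht2⟩ : ∃ t, z = x ++ t ∧ FreeGroup.invRev z = t ++ y := by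
    rcases List.append_eq_append_iff.1 h4 with ⟨as, g1, g2⟩ | ⟨bs, g1, g2⟩
    · exact ⟨as, g1, g2⟩
    · have hl := congrArg List.length g1
      rw [List.length_append] at hl
      have hb : bs = [] := by
        rw [← List.length_eq_zero_iff]
        omega
      subst hb
      exact ⟨[], by simpa using g1.symm, by simpa using g2.symm⟩
  rw [ht1, nie2_invRev] at ht2
  obtain ⟨e1, e2⟩ := List.append_inj ht2 (by simp)
  have htred : FreeGroup.IsReduced t := by
    have h5 : FreeGroup.IsReduced a.toWord := FreeGroup.isReduced_toWord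
    rw [h2, ht1] at h5
    exact List.IsChain.right_of_append (List.IsChain.left_of_append h5)
  have ht0 : FreeGroup.mk t = 1 := by
    have h5 : FreeGroup.mk t * FreeGroup.mk t = 1 := by
      have h6 : (FreeGroup.mk t)⁻¹ = FreeGroup.mk t := by rw [FreeGroup.inv_mk, e1]
      nth_rewrite 1 [← h6]
      exact inv_mul_cancel _
    by_contra hne
    have h6 : (FreeGroup.mk t) ^ 2 = 1 ^ 2 := by rw [one_pow, pow_two]; exact h5
    exact hne (pow_left_injective two_ne_zero h6)
  have htn : t = [] := by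
    have h5 := congrArg FreeGroup.toWord ht0
    rw [FreeGroup.toWord_mk, htred.reduce_eq, FreeGroup.toWord_one] at h5
    exact h5
  subst htn
  apply ha
  rw [← FreeGroup.mk_toWord (x := a), h1, ht1, List.append_nil, ← FreeGroup.mul_mk,
    ← FreeGroup.inv_mk]
  exact mul_inv_cancel _

private theorem nie2_key {u v a b c : FreeGroup (Fin 2)}
    (hmin : ∀ Q, NEq (u, v) Q → u.norm + v.norm ≤ Q.1.norm + Q.2.norm)
    (hT : NEq (u, v) (a, b)) (hn : a.norm + b.norm = u.norm + v.norm) (hb : b ≠ 1)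
    (hab : cn2 a b = b.norm) (hbc : cn2 b c = b.norm) (hle : b.norm ≤ a.norm)
    (hc : c = a ∨ c = a⁻¹) : False := by
  obtain ⟨x, y, p, h1, h2, h3⟩ := nie1_mul a b
  obtain ⟨x', y', q, h1', h2', h3'⟩ := nie1_mul b c
  have hc1 := nie1_cn2 h1 h2 h3
  have hc2 := nie1_cn2 h1' h2' h3'
  have l1 := congrArg List.length h1
  have l2 := congrArg List.length h2
  have l3 := congrArg List.length h1'
  have l4 := congrArg List.length h2'
  rw [List.length_append, FreeGroup.invRev_length] at l1 l3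
  rw [List.length_append] at l2 l4
  have hbn : b.norm = b.toWord.length := rfl
  have han : a.norm = a.toWord.length := rfl
  have hpq : p.length = q.length := by omega
  have h4 : p ++ y = x' ++ FreeGroup.invRev q := by rw [← h2, h1']
  obtain ⟨e1, e2⟩ := List.append_inj h4 (by omega)
  have hb0 : 0 < b.toWord.length := by
    rw [List.length_pos_iff, Ne, FreeGroup.toWord_eq_nil_iff]
    exact hb
  rcases hc with rfl | rfl
  · -- c = a
    have h5 : x ++ FreeGroup.invRev p = q ++ y' := by rw [← h1, h2']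
    obtain ⟨r, hr⟩ : ∃ r, x = q ++ r := by
      rcases List.append_eq_append_iff.1 h5 with ⟨as, g1, g2⟩ | ⟨bs, g1, g2⟩
      · have hl := congrArg List.length g1
        rw [List.length_append] at hl
        have hb : as = [] := by
          rw [← List.length_eq_zero_iff]
          omega
        subst hb
        exact ⟨[], by simpa using g1.symm⟩
      · exact ⟨bs, g1⟩
    have l5 := congrArg List.length hr
    rw [List.length_append] at l5
    have hA : c = FreeGroup.mk q * FreeGroup.mk r * (FreeGroup.mk p)⁻¹ := by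
      rw [← FreeGroup.mk_toWord (x := c), h1, hr, FreeGroup.inv_mk, FreeGroup.mul_mk,
        FreeGroup.mul_mk]
    have hB : b = FreeGroup.mk p * (FreeGroup.mk q)⁻¹ := by
      rw [← FreeGroup.mk_toWord (x := b), h2, e2, FreeGroup.inv_mk, FreeGroup.mul_mk]
    have hN := (hT.trans (NEq.mul _ _)).trans (NEq.conj (FreeGroup.mk q)⁻¹ _ _)
    have h6 := hmin _ hN
    simp only at h6
    have f1 : (FreeGroup.mk q)⁻¹ * (c * b) * (FreeGroup.mk q)⁻¹⁻¹ = FreeGroup.mk r := by
      rw [hA, hB]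
      group
    have f2 : (FreeGroup.mk q)⁻¹ * b * (FreeGroup.mk q)⁻¹⁻¹ =
        (FreeGroup.mk q)⁻¹ * FreeGroup.mk p := by
      rw [hB]
      group
    rw [f1, f2] at h6
    have f3 : (FreeGroup.mk r).norm ≤ r.length := FreeGroup.norm_mk_le
    have f4 : ((FreeGroup.mk q)⁻¹ * FreeGroup.mk p).norm ≤ q.length + p.length := by
      refine (FreeGroup.norm_mul_le _ _).trans (add_le_add ?_ FreeGroup.norm_mk_le)
      rw [FreeGroup.norm_inv_eq]
      exact FreeGroup.norm_mk_le
    omega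
  · -- c = a⁻¹
    rw [FreeGroup.toWord_inv, h1, nie2_invRev, FreeGroup.invRev_invRev] at h2'
    obtain ⟨f1, f2⟩ := List.append_inj h2' hpq
    apply hb
    rw [← FreeGroup.mk_toWord (x := b), h2, e2, ← f1, ← FreeGroup.mul_mk, ← FreeGroup.inv_mk]
    exact mul_inv_cancel _

/-- generators do not commute -/
private theorem nie2_comm {u v : FreeGroup (Fin 2)} (hg : Subgroup.closure {u, v} = ⊤)
    (h : u * v = v * u) : False := by
  have h1 : ∀ x : FreeGroup (Fin 2), x * u = u * x ∧ x * v = v * x := by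
    intro x
    have hx : x ∈ Subgroup.closure {u, v} := by rw [hg]; exact Subgroup.mem_top x
    induction hx using Subgroup.closure_induction with
    | mem y hy =>
      rcases hy with rfl | hy
      · exact ⟨rfl, h⟩
      · rw [Set.mem_singleton_iff] at hy
        rw [hy]
        exact ⟨h.symm, rfl⟩
    | one => simp
    | mul y z _ _ hy hz =>
      constructor
      · rw [mul_assoc, hz.1, ← mul_assoc, hy.1, mul_assoc]
      · rw [mul_assoc, hz.2, ← mul_assoc, hy.2, mul_assoc]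
    | inv y _ hy =>
      exact ⟨Commute.inv_left (show Commute y u from hy.1),
        Commute.inv_left (show Commute y v from hy.2)⟩
  have h2 : ∀ x y : FreeGroup (Fin 2), x * y = y * x := by
    intro x y
    have hx : x ∈ Subgroup.closure {u, v} := by rw [hg]; exact Subgroup.mem_top x
    induction hx using Subgroup.closure_induction with
    | mem z hz =>
      rcases hz with rfl | hz
      · exact (h1 y).1.symm
      · rw [Set.mem_singleton_iff] at hz
        rw [hz]
        exact (h1 y).2.symm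
    | one => simp
    | mul z w _ _ hz hw => rw [mul_assoc, hw, ← mul_assoc, hz, mul_assoc]
    | inv z _ hz => exact Commute.inv_left (show Commute z y from hz)
  have h3 := h2 (FreeGroup.of 0) (FreeGroup.of 1)
  exact absurd h3 (by decide)

/-- A shortest pair satisfies the conditions of Nielsen. -/
theorem short_red {u v : FreeGroup (Fin 2)} (hg : Subgroup.closure {u, v} = ⊤)
    (hmin : ∀ Q, NEq (u, v) Q → u.norm + v.norm ≤ Q.1.norm + Q.2.norm) :
    let S : Set (FreeGroup (Fin 2)) := {u, u⁻¹, v, v⁻¹}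
    (∀ a ∈ S, a ≠ 1) ∧
    (∀ a ∈ S, ∀ b ∈ S, a * b ≠ 1 → cn2 a b ≤ a.norm ∧ cn2 a b ≤ b.norm) ∧
    (∀ a ∈ S, ∀ b ∈ S, ∀ c ∈ S, a * b ≠ 1 → b * c ≠ 1 → cn2 a b + cn2 b c < 2 * b.norm) := by
  intro S
  have hu : u ≠ 1 := by
    rintro rfl
    exact nie2_comm hg (by simp)
  have hv : v ≠ 1 := by
    rintro rfl
    exact nie2_comm hg (by simp)
  have hmem : ∀ a ∈ S, (a = u ∨ a = u⁻¹) ∨ (a = v ∨ a = v⁻¹) := by
    intro a ha
    simp only [S, Set.mem_insert_iff, Set.mem_singleton_iff] at ha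
    tauto
  have hne : ∀ a ∈ S, a ≠ 1 := by
    intro a ha
    rcases hmem a ha with (rfl | rfl) | (rfl | rfl)
    · exact hu
    · exact inv_ne_one.2 hu
    · exact hv
    · exact inv_ne_one.2 hv
  -- pairs
  have hI : ∀ a b, NEq (u, v) (a, b) → NEq (u, v) (a⁻¹, b) := fun a b h => h.trans (NEq.inv a b)
  have hW : ∀ a b, NEq (u, v) (a, b) → NEq (u, v) (b, a) := fun a b h => h.trans (NEq.swap a b)
  have hJ : ∀ a b, NEq (u, v) (a, b) → NEq (u, v) (a, b⁻¹) := fun a b h =>
    hW _ _ (hI _ _ (hW _ _ h))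
  have hT : ∀ a b, (a = u ∨ a = u⁻¹) → (b = v ∨ b = v⁻¹) →
      NEq (u, v) (a, b) ∧ a.norm + b.norm = u.norm + v.norm := by
    rintro a b (rfl | rfl) (rfl | rfl)
    · exact ⟨NEq.refl _, rfl⟩
    · exact ⟨hJ _ _ (NEq.refl _), by rw [FreeGroup.norm_inv_eq]⟩
    · exact ⟨hI _ _ (NEq.refl _), by rw [FreeGroup.norm_inv_eq]⟩
    · exact ⟨hI _ _ (hJ _ _ (NEq.refl _)), by rw [FreeGroup.norm_inv_eq, FreeGroup.norm_inv_eq]⟩
  have hT' : ∀ a b, ((a = u ∨ a = u⁻¹) ∧ (b = v ∨ b = v⁻¹) ∨
      (a = v ∨ a = v⁻¹) ∧ (b = u ∨ b = u⁻¹)) →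
      NEq (u, v) (a, b) ∧ a.norm + b.norm = u.norm + v.norm := by
    rintro a b (⟨h1, h2⟩ | ⟨h1, h2⟩)
    · exact hT a b h1 h2
    · obtain ⟨g1, g2⟩ := hT b a h2 h1
      exact ⟨hW _ _ g1, by rw [add_comm]; exact g2⟩
  have hcn : ∀ a b, NEq (u, v) (a, b) → a.norm + b.norm = u.norm + v.norm →
      cn2 a b ≤ a.norm ∧ cn2 a b ≤ b.norm := by
    intro a b h1 h2
    have h3 := hmin _ (h1.trans (NEq.mul a b))
    have h4 := hmin _ ((hW _ _ (hI _ _ (hJ _ _ h1))).trans (NEq.mul _ _))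
    simp only at h3 h4
    rw [← mul_inv_rev, FreeGroup.norm_inv_eq, FreeGroup.norm_inv_eq] at h4
    unfold cn2
    omega
  have hsame : ∀ w x y : FreeGroup (Fin 2), (x = w ∨ x = w⁻¹) → (y = w ∨ y = w⁻¹) →
      (y = x ∨ y = x⁻¹) := by
    rintro w x y (rfl | rfl) (rfl | rfl)
    · exact Or.inl rfl
    · exact Or.inr rfl
    · exact Or.inr (inv_inv _).symm
    · exact Or.inl rfl
  have hH1 : ∀ a ∈ S, ∀ b ∈ S, a * b ≠ 1 → cn2 a b ≤ a.norm ∧ cn2 a b ≤ b.norm := by
    intro a ha b hb hab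
    have hself : (b = a ∨ b = a⁻¹) → cn2 a b ≤ a.norm ∧ cn2 a b ≤ b.norm := by
      rintro (rfl | rfl)
      · have := nie2_sq (hne b hb)
        exact ⟨this.le, this.le⟩
      · exact absurd (mul_inv_cancel a) hab
    rcases hmem a ha with h1 | h1 <;> rcases hmem b hb with h2 | h2
    · exact hself (hsame u a b h1 h2)
    · obtain ⟨g1, g2⟩ := hT' a b (Or.inl ⟨h1, h2⟩)
      exact hcn a b g1 g2
    · obtain ⟨g1, g2⟩ := hT' a b (Or.inr ⟨h1, h2⟩)
      exact hcn a b g1 g2
    · exact hself (hsame v a b h1 h2)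
  refine ⟨hne, hH1, ?_⟩
  intro a ha b hb c hc hab hbc
  by_contra hcon
  push Not at hcon
  have g1 := hH1 a ha b hb hab
  have g2 := hH1 b hb c hc hbc
  have e1 : cn2 a b = b.norm := by omega
  have e2 : cn2 b c = b.norm := by omega
  have hba : ¬ (b = a ∨ b = a⁻¹) := by
    rintro (rfl | rfl)
    · have := nie2_sq (hne b hb)
      omega
    · exact hab (mul_inv_cancel a)
  have hcb : ¬ (c = b ∨ c = b⁻¹) := by
    rintro (rfl | rfl)
    · have := nie2_sq (hne c hc)
      omega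
    · exact hbc (mul_inv_cancel b)
  rcases hmem b hb with h2 | h2
  · rcases hmem a ha with h1 | h1
    · exact hba (hsame u a b h1 h2)
    · rcases hmem c hc with h3 | h3
      · exact hcb (hsame u b c h2 h3)
      · obtain ⟨f1, f2⟩ := hT' a b (Or.inr ⟨h1, h2⟩)
        exact nie2_key hmin f1 f2 (hne b hb) e1 e2 (by omega) (hsame v a c h1 h3)
  · rcases hmem a ha with h1 | h1
    · rcases hmem c hc with h3 | h3
      · obtain ⟨f1, f2⟩ := hT' a b (Or.inl ⟨h1, h2⟩)
        exact nie2_key hmin f1 f2 (hne b hb) e1 e2 (by omega) (hsame u a c h1 h3)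
      · exact hcb (hsame v b c h2 h3)
    · exact hba (hsame v a b h1 h2)

end Pool.Agent.GRO
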