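import Pool.Agent.GRO.NIE2

/-!
# NIE3: automorphisms of the free group of rank two and the commutator
`(φ x0, φ x1)` generate `F`. Choose an equivalent pair `(u, v)` of minimal total length; it generates
(`NEq_gen`). By `short_red` and `nred`, every element which is a product of `n ≥ 1` elements of `S`
(consecutive ones not inverse to each other) has norm `≥ n`. `x0` is such a product (it is in the
closure; cancel adjacent inverse factors), of norm 1, so `x0 ∈ S`; similarly `x1 ∈ S`. So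
`{u^±, v^±} = {x0^±, x1^±}`, `(u, v)` is equivalent to `(x0, x1)`, and `NEq_comm` applies.
-/

set_option autoImplicit false

namespace Pool.Agent.GRO

private theorem nie3_list {G : Type*} [Group G] {u v : G}
    (hg : Subgroup.closure {u, v} = ⊤) (z : G) :
    ∃ L : List G, (∀ a ∈ L, a ∈ ({u, u⁻¹, v, v⁻¹} : Set G)) ∧
      L.IsChain (fun a b => a * b ≠ 1) ∧ L.prod = z := by
  classical
  have hz : z ∈ Subgroup.closure ({u, v} : Set G) := by rw [hg]; trivial
  have hex : ∃ n : ℕ, ∃ L : List G, L.length = n ∧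
      (∀ a ∈ L, a ∈ ({u, u⁻¹, v, v⁻¹} : Set G)) ∧ L.prod = z := by
    have hz' : z ∈ Submonoid.closure (({u, v} : Set G) ∪ ({u, v} : Set G)⁻¹) := by
      rw [← Subgroup.closure_toSubmonoid]
      exact hz
    obtain ⟨L, hL, hp⟩ := Submonoid.exists_list_of_mem_closure hz'
    refine ⟨L.length, L, rfl, fun a ha => ?_, hp⟩
    rcases hL a ha with h | h
    · rcases h with h | h
      · exact Or.inl h
      · exact Or.inr (Or.inr (Or.inl h))
    · rw [Set.mem_inv] at h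
      rcases h with h | h
      · exact Or.inr (Or.inl (by rw [← h, inv_inv]))
      · exact Or.inr (Or.inr (Or.inr (by
          rw [Set.mem_singleton_iff] at h ⊢
          rw [← h, inv_inv])))
  obtain ⟨L, hlen, hL, hp⟩ := Nat.find_spec hex
  refine ⟨L, hL, ?_, hp⟩
  rw [List.isChain_iff_forall_rel_of_append_cons_cons]
  intro a b l₁ l₂ he hab
  have hlt : (l₁ ++ l₂).length < Nat.find hex := by
    rw [← hlen, he]
    simp only [List.length_append, List.length_cons]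
    omega
  apply Nat.find_min hex hlt
  refine ⟨l₁ ++ l₂, rfl, fun c hc => hL c ?_, ?_⟩
  · rw [he]
    simp only [List.mem_append, List.mem_cons] at hc ⊢
    tauto
  · rw [← hp, he]
    simp only [List.prod_append, List.prod_cons]
    rw [← mul_assoc a b, hab, one_mul]

private theorem nie3_min (P0 : FreeGroup (Fin 2) × FreeGroup (Fin 2)) :
    ∃ P, NEq P0 P ∧ ∀ Q, NEq P Q → P.1.norm + P.2.norm ≤ Q.1.norm + Q.2.norm := by
  obtain ⟨P, hP, hmin⟩ := WellFounded.has_min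
    (measure (fun P : FreeGroup (Fin 2) × FreeGroup (Fin 2) => P.1.norm + P.2.norm)).wf
    {P | NEq P0 P} ⟨P0, NEq.refl P0⟩
  exact ⟨P, hP, fun Q hQ => not_lt.mp (hmin Q (NEq.trans hP hQ))⟩

private theorem nie3_key (u v x y : FreeGroup (Fin 2)) (hxy1 : x ≠ y) (hxy2 : x ≠ y⁻¹)
    (hx : x ∈ ({u, u⁻¹, v, v⁻¹} : Set (FreeGroup (Fin 2))))
    (hy : y ∈ ({u, u⁻¹, v, v⁻¹} : Set (FreeGroup (Fin 2)))) : NEq (u, v) (x, y) := by
  have hiu : ∀ a b : FreeGroup (Fin 2), NEq (a, b) (a⁻¹, b) := fun a b => NEq.inv a b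
  have hiv : ∀ a b : FreeGroup (Fin 2), NEq (a, b) (a, b⁻¹) := fun a b =>
    ((NEq.swap a b).trans (NEq.inv b a)).trans (NEq.swap b⁻¹ a)
  simp only [Set.mem_insert_iff, Set.mem_singleton_iff] at hx hy
  rcases hx with hx | hx | hx | hx <;> rcases hy with hy | hy | hy | hy
  · exact absurd (hx.trans hy.symm) hxy1
  · exact absurd (by rw [hx, hy, inv_inv]) hxy2
  · rw [hx, hy]; exact NEq.refl _
  · rw [hx, hy]; exact hiv u v
  · exact absurd (by rw [hx, hy]) hxy2
  · exact absurd (hx.trans hy.symm) hxy1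
  · rw [hx, hy]; exact hiu u v
  · rw [hx, hy]; exact (hiu u v).trans (hiv u⁻¹ v)
  · rw [hx, hy]; exact NEq.swap u v
  · rw [hx, hy]; exact (hiu u v).trans (NEq.swap u⁻¹ v)
  · exact absurd (hx.trans hy.symm) hxy1
  · exact absurd (by rw [hx, hy, inv_inv]) hxy2
  · rw [hx, hy]; exact (hiv u v).trans (NEq.swap u v⁻¹)
  · rw [hx, hy]; exact ((hiu u v).trans (hiv u⁻¹ v)).trans (NEq.swap u⁻¹ v⁻¹)
  · exact absurd (by rw [hx, hy]) hxy2
  · exact absurd (hx.trans hy.symm) hxy1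

private theorem nie3_pair (x y : FreeGroup (Fin 2)) (hx0 : x.norm = 1) (hy0 : y.norm = 1)
    (hxy1 : x ≠ y) (hxy2 : x ≠ y⁻¹) (P0 : FreeGroup (Fin 2) × FreeGroup (Fin 2))
    (h0 : Subgroup.closure ({P0.1, P0.2} : Set (FreeGroup (Fin 2))) = ⊤) : NEq P0 (x, y) := by
  obtain ⟨P, hP, hmin⟩ := nie3_min P0
  have hg : Subgroup.closure ({P.1, P.2} : Set (FreeGroup (Fin 2))) = ⊤ := NEq_gen hP h0
  obtain ⟨s0, s1, s2⟩ := short_red hg hmin
  have hmem : ∀ z : FreeGroup (Fin 2), z.norm = 1 →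
      z ∈ ({P.1, P.1⁻¹, P.2, P.2⁻¹} : Set (FreeGroup (Fin 2))) := by
    intro z hz
    obtain ⟨L, hL, hc, hp⟩ := nie3_list hg z
    have hne : L ≠ [] := by
      rintro rfl
      rw [List.prod_nil] at hp
      rw [← hp, FreeGroup.norm_one] at hz
      exact zero_ne_one hz
    have h1 := nred _ s0 s1 s2 L hL hne hc
    rw [hp, hz] at h1
    rcases L with _ | ⟨a, _ | ⟨b, L⟩⟩
    · exact absurd rfl hne
    · rw [List.prod_singleton] at hp
      rw [← hp]
      exact hL a (List.mem_singleton_self a)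
    · simp only [List.length_cons] at h1
      omega
  exact hP.trans (nie3_key P.1 P.2 x y hxy1 hxy2 (hmem x hx0) (hmem y hy0))

private theorem nie3_main (x y : FreeGroup (Fin 2)) (hx0 : x.norm = 1) (hy0 : y.norm = 1)
    (hxy1 : x ≠ y) (hxy2 : x ≠ y⁻¹) (a b : FreeGroup (Fin 2))
    (h0 : Subgroup.closure ({a, b} : Set (FreeGroup (Fin 2))) = ⊤) :
    IsConj (a * b * a⁻¹ * b⁻¹) (x * y * x⁻¹ * y⁻¹) ∨
      IsConj (a * b * a⁻¹ * b⁻¹) (x * y * x⁻¹ * y⁻¹)⁻¹ :=
  NEq_comm (nie3_pair x y hx0 hy0 hxy1 hxy2 (a, b) h0)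

private theorem nie3_img (x y : FreeGroup (Fin 2))
    (hxy : Subgroup.closure ({x, y} : Set (FreeGroup (Fin 2))) = ⊤)
    (φ : MulAut (FreeGroup (Fin 2))) :
    Subgroup.closure ({φ x, φ y} : Set (FreeGroup (Fin 2))) = ⊤ := by
  have h1 := congrArg (Subgroup.map φ.toMonoidHom) hxy
  rw [MonoidHom.map_closure, Subgroup.map_top_of_surjective _ φ.surjective] at h1
  rw [← h1]
  congr 1
  rw [Set.image_pair]
  rfl

private theorem nie3_gen : Subgroup.closure
    ({FreeGroup.of 0, FreeGroup.of 1} : Set (FreeGroup (Fin 2))) = ⊤ := by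
  rw [← FreeGroup.closure_range_of (Fin 2)]
  congr 1
  ext z
  simp only [Set.mem_insert_iff, Set.mem_singleton_iff, Set.mem_range]
  constructor
  · rintro (h | h)
    · exact ⟨0, h.symm⟩
    · exact ⟨1, h.symm⟩
  · rintro ⟨i, hi⟩
    fin_cases i
    · exact Or.inl hi.symm
    · exact Or.inr hi.symm

private theorem nie3_pow (a b : FreeGroup (Fin 2)) (h : IsConj a b) (m : ℤ) :
    IsConj (a ^ m) (b ^ m) := by
  obtain ⟨c, hc⟩ := isConj_iff.mp h
  rw [isConj_iff]
  exact ⟨c, by rw [← hc, conj_zpow]⟩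

theorem aut_comm (φ : MulAut (FreeGroup (Fin 2))) (m : ℤ) :
    let x : FreeGroup (Fin 2) := FreeGroup.of 0
    let y : FreeGroup (Fin 2) := FreeGroup.of 1
    IsConj (φ ((x * y * x⁻¹ * y⁻¹) ^ m)) ((x * y * x⁻¹ * y⁻¹) ^ m) ∨
      IsConj (φ ((x * y * x⁻¹ * y⁻¹) ^ m)) ((x * y * x⁻¹ * y⁻¹) ^ (-m)) := by
  have h1 : (FreeGroup.of 0 : FreeGroup (Fin 2)) ≠ FreeGroup.of 1 := fun h =>
    absurd (FreeGroup.of_injective h) (by decide)
  have h2 : (FreeGroup.of 0 : FreeGroup (Fin 2)) ≠ (FreeGroup.of 1)⁻¹ := fun h => by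
    have h1 := congrArg FreeGroup.toWord h
    rw [FreeGroup.toWord_inv, FreeGroup.toWord_of, FreeGroup.toWord_of] at h1
    simp [FreeGroup.invRev] at h1
  have h3 := nie3_main _ _ (FreeGroup.norm_of 0) (FreeGroup.norm_of 1) h1 h2 _ _
    (nie3_img _ _ nie3_gen φ)
  have e1 : φ ((FreeGroup.of 0 * FreeGroup.of 1 * (FreeGroup.of 0)⁻¹ * (FreeGroup.of 1)⁻¹) ^ m) =
      (φ (FreeGroup.of 0) * φ (FreeGroup.of 1) * (φ (FreeGroup.of 0))⁻¹ *
        (φ (FreeGroup.of 1))⁻¹) ^ m := by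
    rw [map_zpow, map_mul, map_mul, map_mul, map_inv, map_inv]
  intro x y
  rw [e1]
  rcases h3 with h | h
  · exact Or.inl (nie3_pow _ _ h m)
  · right
    have h4 := nie3_pow _ _ h m
    rw [inv_zpow'] at h4
    exact h4

end Pool.Agent.GRO
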