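import Pool.Agent.GRO.Defs

/-!
# PE: elementary facts about Whitehead edges
Everything is list induction. `edg_rot`: it is enough to treat `a :: w ↦ w ++ [a]`
(`List.IsRotated`), where for `w = b :: w'` one has
`edg (a :: b :: w') = (bar a, b) :: pe (bar b) w' a` and
`edg (b :: (w' ++ [a])) = pe (bar b) w' a ++ [(bar a, b)]` by `pe_append`.
-/

set_option autoImplicit false

namespace Pool.Agent.GRO

variable {k : ℕ}

theorem bar_bar (a : Lt k) : bar (bar a) = a := by
  simp [bar]

theorem bar_ne (a : Lt k) : bar a ≠ a := by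
  intro h
  have := congrArg Prod.snd h
  simp [bar] at this

theorem pe_append (p q c : Lt k) (w1 w2 : List (Lt k)) :
    pe p (w1 ++ c :: w2) q = pe p w1 c ++ pe (bar c) w2 q := by
  induction w1 generalizing p with
  | nil => simp [pe]
  | cons a w ih => simp [pe, ih]

theorem pe_length (p q : Lt k) (w : List (Lt k)) : (pe p w q).length = w.length + 1 := by
  induction w generalizing p with
  | nil => simp [pe]
  | cons a w ih => simp [pe, ih]

theorem edg_length (l : List (Lt k)) : (edg l).length = l.length := by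
  cases l with
  | nil => simp [edg]
  | cons a w => simp [edg, pe_length]

private theorem edg_rot1 (a : Lt k) (w : List (Lt k)) :
    (edg (a :: w)).Perm (edg (w ++ [a])) := by
  cases w with
  | nil => exact List.Perm.refl _
  | cons b w' =>
    have h1 : edg (a :: b :: w') = (bar a, b) :: pe (bar b) w' a := rfl
    have h2 : edg (b :: w' ++ [a]) = pe (bar b) w' a ++ [(bar a, b)] := by
      show pe (bar b) (w' ++ [a]) b = _
      rw [show w' ++ [a] = w' ++ a :: [] from rfl, pe_append]
      rfl
    rw [h1, h2]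
    exact (List.perm_append_singleton _ _).symm

theorem edg_rot {l l' : List (Lt k)} (h : l ~r l') : (edg l).Perm (edg l') := by
  obtain ⟨n, rfl⟩ := h
  induction n with
  | zero => simp
  | succ n ih =>
    refine ih.trans ?_
    rw [← List.rotate_rotate l n 1]
    cases h : l.rotate n with
    | nil => simp
    | cons a w =>
      rw [List.rotate_cons_succ, List.rotate_zero]
      exact edg_rot1 a w

theorem PE_pe_ne_iff (a q : Lt k) (w : List (Lt k)) :
    (∀ e ∈ pe (bar a) w q, e.1 ≠ e.2) ↔
      List.IsChain (fun a b : Lt k => a.1 = b.1 → a.2 = b.2) (a :: (w ++ [q])) := by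
  induction w generalizing a with
  | nil =>
    simp only [pe, List.mem_singleton, forall_eq, List.nil_append, List.isChain_cons_cons,
      List.isChain_singleton, and_true]
    constructor
    · intro h h1
      by_contra h2
      apply h
      ext
      · simp [bar, h1]
      · have : q.2 = !a.2 := by
          cases hq : q.2 <;> cases ha : a.2 <;> simp_all
        simp [bar, this]
    · intro h h1
      have h2 : a.1 = q.1 := by rw [← h1]; rfl
      have h3 := h h2
      have h4 : (bar a).2 = q.2 := by rw [h1]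
      simp only [bar] at h4
      rw [h3] at h4
      simp at h4
  | cons c w ih =>
    have ih' := ih c
    simp only [pe, List.mem_cons, forall_eq_or_imp, List.cons_append, List.isChain_cons_cons]
    rw [ih']
    constructor
    · rintro ⟨h1, h2⟩
      refine ⟨?_, h2⟩
      intro h3
      by_contra h4
      apply h1
      have : c.2 = !a.2 := by
        cases hq : c.2 <;> cases ha : a.2 <;> simp_all
      ext
      · simp [bar, h3]
      · simp [bar, this]
    · rintro ⟨h1, h2⟩
      refine ⟨?_, h2⟩
      intro h3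
      have h4 : a.1 = c.1 := by rw [← h3]; rfl
      have h5 := h1 h4
      have h6 : (bar a).2 = c.2 := by rw [h3]
      simp only [bar] at h6
      rw [h5] at h6
      simp at h6

theorem PE_CR_iff (l : List (Lt k)) : CR l ↔ l ≠ [] ∧ ∀ e ∈ edg l, e.1 ≠ e.2 := by
  cases l with
  | nil => simp [CR]
  | cons a w =>
    have h1 : (∀ e ∈ edg (a :: w), e.1 ≠ e.2) ↔
        List.IsChain (fun a b : Lt k => a.1 = b.1 → a.2 = b.2) (a :: (w ++ [a])) :=
      PE_pe_ne_iff a a w
    rw [h1, ← List.cons_append, List.isChain_append]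
    simp only [CR, FreeGroup.IsCyclicallyReduced, FreeGroup.IsReduced]
    simp only [List.isChain_singleton, List.head?_cons, true_and]
    constructor
    · rintro ⟨h, h2⟩
      exact ⟨h2, h⟩
    · rintro ⟨h, h2⟩
      exact ⟨h2, h⟩

theorem CR_rot {l l' : List (Lt k)} (h : l ~r l') (hl : CR l) : CR l' := by
  rw [PE_CR_iff] at hl ⊢
  refine ⟨?_, ?_⟩
  · rintro rfl
    exact hl.1 (List.isRotated_nil_iff.1 h)
  · intro e he
    exact hl.2 e ((edg_rot h).mem_iff.2 he)

theorem edg_ne {l : List (Lt k)} (hl : CR l) : ∀ e ∈ edg l, e.1 ≠ e.2 :=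
  ((PE_CR_iff l).1 hl).2

private theorem pe_mem (p q : Lt k) (w : List (Lt k)) :
    ∀ e ∈ pe p w q, (e.1 = p ∨ bar e.1 ∈ w) ∧ (e.2 ∈ w ∨ e.2 = q) := by
  induction w generalizing p with
  | nil =>
    intro e he
    simp only [pe, List.mem_singleton] at he
    subst he
    exact ⟨Or.inl rfl, Or.inr rfl⟩
  | cons c w ih =>
    intro e he
    simp only [pe, List.mem_cons] at he
    rcases he with rfl | he
    · exact ⟨Or.inl rfl, Or.inl (List.mem_cons_self ..)⟩
    · obtain ⟨h1, h2⟩ := ih (bar c) e he
      refine ⟨Or.inr ?_, ?_⟩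
      · rcases h1 with h1 | h1
        · rw [h1, bar_bar]
          exact List.mem_cons_self ..
        · exact List.mem_cons_of_mem _ h1
      · rcases h2 with h2 | h2
        · exact Or.inl (List.mem_cons_of_mem _ h2)
        · exact Or.inr h2

theorem edg_used {l : List (Lt k)} : ∀ e ∈ edg l, bar e.1 ∈ l ∧ e.2 ∈ l := by
  intro e he
  cases l with
  | nil => simp [edg] at he
  | cons a w =>
    obtain ⟨h1, h2⟩ := pe_mem (bar a) a w e he
    refine ⟨?_, ?_⟩
    · rcases h1 with h1 | h1
      · rw [h1, bar_bar]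
        exact List.mem_cons_self ..
      · exact List.mem_cons_of_mem _ h1
    · rcases h2 with h2 | h2
      · exact List.mem_cons_of_mem _ h2
      · rw [h2]
        exact List.mem_cons_self ..

theorem used_edg {l : List (Lt k)} {a : Lt k} (ha : a ∈ l) :
    (∃ x, (x, a) ∈ edg l) ∧ (∃ y, (bar a, y) ∈ edg l) := by
  obtain ⟨l1, l2, rfl⟩ := List.append_of_mem ha
  have h : (l1 ++ a :: l2) ~r (a :: (l2 ++ l1)) := by
    have := List.isRotated_append (l := l1) (l' := a :: l2)
    simpa using this
  have hp := edg_rot h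
  have key : ∀ w : List (Lt k), (∃ x, (x, a) ∈ edg (a :: w)) ∧
      (∃ y, (bar a, y) ∈ edg (a :: w)) := by
    intro w
    constructor
    · rcases List.eq_nil_or_concat' w with rfl | ⟨w', c, rfl⟩
      · exact ⟨bar a, by simp [edg, pe]⟩
      · refine ⟨bar c, ?_⟩
        show (bar c, a) ∈ pe (bar a) (w' ++ c :: []) a
        rw [pe_append]
        simp [pe]
    · cases w with
      | nil => exact ⟨a, by simp [edg, pe]⟩
      | cons c w' => exact ⟨c, by simp [edg, pe]⟩
  obtain ⟨⟨x, hx⟩, ⟨y, hy⟩⟩ := key (l2 ++ l1)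
  exact ⟨⟨x, hp.mem_iff.2 hx⟩, ⟨y, hp.mem_iff.2 hy⟩⟩

theorem cap_rot {l l' : List (Lt k)} (h : l ~r l') (S : Finset (Lt k)) : cap l S = cap l' S :=
  (edg_rot h).countP_eq _

theorem ebt_rot {l l' : List (Lt k)} (h : l ~r l') (S S' : Finset (Lt k)) :
    ebt l S S' = ebt l' S S' :=
  (edg_rot h).countP_eq _

theorem tran_rot (C : Lt k → Lt k → Prop) {l l' : List (Lt k)} (h : l ~r l') :
    tran C l = tran C l' :=
  (edg_rot h).countP_eq _

theorem Adj_rot {l l' : List (Lt k)} (h : l ~r l') (x y : Lt k) : Adj l x y ↔ Adj l' x y := by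
  unfold Adj
  rw [(edg_rot h).mem_iff, (edg_rot h).mem_iff]

private theorem Adj_rot_eq {l l' : List (Lt k)} (h : l ~r l') : Adj l = Adj l' := by
  funext x y
  exact propext (Adj_rot h x y)

theorem Psi_rot (C : Lt k → Lt k → Prop) {l l' : List (Lt k)} (h : l ~r l') :
    Psi C l = Psi C l' := by
  have h1 : tran C l = tran C l' := tran_rot C h
  have h2 : Adj l = Adj l' := Adj_rot_eq h
  have h3 : ∀ (Y : Finset (Fin k)), StY C Y l = StY C Y l' := by
    intro Y
    funext x y
    unfold StY
    rw [h2]
  have h4 : ∀ (Y : Finset (Fin k)) (x : Lt k), AA C Y l x = AA C Y l' x := by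
    intro Y x
    unfold AA
    rw [h3, h2]
  have h5 : NA C l = NA C l' := by
    classical
    unfold NA
    refine congrArg Finset.card (Finset.filter_congr ?_)
    intro yx _
    rw [h4]
  unfold Psi
  rw [h1, h5]

theorem NG_rot {T : ℕ} {l l' : List (Lt k)} (h : l ~r l') (hl : NG T l) : NG T l' := by
  intro S a ha hb
  rw [← cap_rot h, ← cap_rot h]
  exact hl S a ha hb

theorem I3_rot {C : Lt k → Lt k → Prop} {T : ℕ} {l l' : List (Lt k)} (h : l ~r l')
    (hl : I3 C T l) : I3 C T l' := by
  intro S hS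
  rw [← cap_rot h] at hS
  exact hl S hS

theorem NC_rot {l l' : List (Lt k)} (h : l ~r l') (hl : NC l) : NC l' := by
  intro a S ha hb hS
  rw [← cap_rot h]
  refine hl a S ha hb ?_
  intro x y hxy
  exact hS x y ((Adj_rot h x y).1 hxy)

theorem ZC_rot {l l' : List (Lt k)} (h : l ~r l') (hl : ZC l) : ZC l' := by
  intro S z hS hz hz'
  rw [← cap_rot h] at hS ⊢
  exact hl S z hS hz hz'

end Pool.Agent.GRO
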