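import Pool.Agent.GRO.LIN
import Pool.Agent.GRO.REL1
import Pool.Agent.GRO.Defs2

/-!
# POS: positions in a relative word
`wrd s g` is the concatenation of the blocks `s i :: (g i).toWord`; the block `i` begins at the
position `pos g i` (induction on `i`, or use the lemmas on `List.flatten`, `List.ofFn`,
`List.getElem`). `pos g i + 1 + |g i| = pos g (i+1)`, or `= length` if `i` is the last index (and then
`i + 1 = 0`, `pos g 0 = 0`). `pos` is strictly increasing.
-/

set_option autoImplicit false

namespace Pool.Agent.GRO

variable {k : ℕ}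

private theorem pos_add_le {m : ℕ} (g : Fin m → FG k) {i i' : Fin m} (h : i < i') :
    pos g i + (1 + (g i).norm) ≤ pos g i' := by
  classical
  unfold pos
  have h1 : (Finset.univ.filter fun j : Fin m => j < i) ∪ {i} ⊆
      Finset.univ.filter fun j : Fin m => j < i' := by
    intro j hj
    simp only [Finset.mem_union, Finset.mem_filter, Finset.mem_univ, true_and,
      Finset.mem_singleton] at hj ⊢
    rcases hj with hj | rfl
    · exact hj.trans h
    · exact h
  have h2 := Finset.sum_le_sum_of_subset (f := fun j => 1 + (g j).norm) h1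
  rw [Finset.sum_union] at h2
  · simpa using h2
  · rw [Finset.disjoint_singleton_right]
    simp

theorem pos_lt {m : ℕ} (s : Fin m → Lt k) (g : Fin m → FG k) (i : Fin m) :
    pos g i + (g i).norm < (wrd s g).length := by
  classical
  rw [wrd_length]
  unfold pos
  have h1 : (Finset.univ.filter fun j : Fin m => j < i) ∪ {i} ⊆ Finset.univ :=
    Finset.subset_univ _
  have h2 := Finset.sum_le_sum_of_subset (f := fun j => 1 + (g j).norm) h1
  rw [Finset.sum_union (by rw [Finset.disjoint_singleton_right]; simp)] at h2
  rw [Finset.sum_singleton, Finset.sum_add_distrib (s := Finset.univ)] at h2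
  simp only [Finset.sum_const, Finset.card_univ, Fintype.card_fin, smul_eq_mul, mul_one] at h2
  omega

theorem pos_inj {m : ℕ} (s : Fin m → Lt k) (g : Fin m → FG k) {i i' : Fin m} {n : ℤ}
    (h : (pos g i : ℤ) = pos g i' + n * (wrd s g).length) : i = i' ∧ n = 0 := by
  have h1 := pos_lt s g i
  have h2 := pos_lt s g i'
  have hn : n = 0 := by
    by_contra hn
    rcases lt_or_gt_of_ne hn with h3 | h3
    · have : n * ((wrd s g).length : ℤ) ≤ -1 * ((wrd s g).length : ℤ) :=
        mul_le_mul_of_nonneg_right (by omega) (by omega)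
      omega
    · have : 1 * ((wrd s g).length : ℤ) ≤ n * ((wrd s g).length : ℤ) :=
        mul_le_mul_of_nonneg_right (by omega) (by omega)
      omega
  subst hn
  refine ⟨?_, rfl⟩
  by_contra hne
  rcases lt_or_gt_of_ne hne with h3 | h3
  · have := pos_add_le g h3
    omega
  · have := pos_add_le g h3
    omega

private theorem pos_split {m : ℕ} (s : Fin m → Lt k) (g : Fin m → FG k) (i : Fin m) :
    ∃ A B : List (Lt k), wrd s g = A ++ (s i :: (g i).toWord ++ B) ∧ A.length = pos g i := by
  classical
  refine ⟨((List.ofFn fun i => s i :: (g i).toWord).take i).flatten,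
    ((List.ofFn fun i => s i :: (g i).toWord).drop (i + 1)).flatten, ?_, ?_⟩
  · unfold wrd
    have h1 : (List.ofFn fun i => s i :: (g i).toWord) =
        (List.ofFn fun i => s i :: (g i).toWord).take i ++
          ((s i :: (g i).toWord) :: (List.ofFn fun i => s i :: (g i).toWord).drop (i + 1)) := by
      conv_lhs => rw [← List.take_append_drop (i : ℕ) (List.ofFn fun i => s i :: (g i).toWord)]
      congr 1
      rw [List.drop_eq_getElem_cons (by simp)]
      simp
    conv_lhs => rw [h1]
    rw [List.flatten_append, List.flatten_cons]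
  · rw [List.length_flatten, List.map_take, List.map_ofFn, List.sum_take_ofFn]
    unfold pos
    refine Finset.sum_congr ?_ ?_
    · ext j
      simp only [Finset.mem_filter, Finset.mem_univ, true_and]
      exact Iff.rfl
    · intro j _
      simp only [Function.comp, List.length_cons, FreeGroup.norm]
      omega

private theorem pos_get {m : ℕ} (a0 : Lt k) (s : Fin m → Lt k) (g : Fin m → FG k) (i : Fin m) :
    Lz a0 (wrd s g) (pos g i) = s i := by
  have h := pos_lt s g i
  rw [Lz_nat a0 (pos g i) (by omega)]
  obtain ⟨A, B, h1, h2⟩ := pos_split s g i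
  have h3 : (wrd s g)[pos g i]? = some (s i) := by
    rw [h1, ← h2]
    simp
  rw [List.getElem?_eq_getElem (by omega)] at h3
  exact Option.some.inj h3

theorem Lz_pos (a0 : Lt k) {m : ℕ} (s : Fin m → Lt k) (g : Fin m → FG k) (i : Fin m) :
    Lz a0 (wrd s g) (pos g i) = s i :=
  pos_get a0 s g i

theorem Lz_pos_lab (a0 : Lt k) {m : ℕ} (s : Fin m → Lt k) (g : Fin m → FG k) (i : Fin m)
    (j : ℕ) (hj : j < (g i).toWord.length) :
    Lz a0 (wrd s g) ((pos g i : ℤ) + 1 + j) = (g i).toWord[j] := by
  have h := pos_lt s g i
  have hn : (g i).norm = (g i).toWord.length := rfl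
  have e : ((pos g i : ℤ) + 1 + j) = ((pos g i + 1 + j : ℕ) : ℤ) := by push_cast; ring
  rw [e, Lz_nat a0 (pos g i + 1 + j) (by omega)]
  obtain ⟨A, B, h1, h2⟩ := pos_split s g i
  have h3 : (wrd s g)[pos g i + 1 + j]? = some ((g i).toWord[j]) := by
    rw [h1, ← h2, add_assoc, List.getElem?_append_right (by omega), Nat.add_sub_cancel_left,
      Nat.add_comm 1 j]
    rw [List.cons_append, List.getElem?_cons_succ, List.getElem?_append_left hj,
      List.getElem?_eq_getElem hj]
  rw [List.getElem?_eq_getElem (by omega)] at h3
  exact Option.some.inj h3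

theorem Lz_pos_next (a0 : Lt k) {m : ℕ} [NeZero m] (s : Fin m → Lt k) (g : Fin m → FG k)
    (i : Fin m) : Lz a0 (wrd s g) ((pos g i : ℤ) + 1 + (g i).norm) = s (i + 1) := by
  classical
  have hv : ((i + 1 : Fin m) : ℕ) = ((i : ℕ) + 1) % m := by
    rw [Fin.val_add, Fin.val_one', Nat.add_mod_mod]
  by_cases h : (i : ℕ) + 1 < m
  · rw [Nat.mod_eq_of_lt h] at hv
    have h1 : pos g (i + 1) = pos g i + (1 + (g i).norm) := by
      unfold pos
      have hs : (Finset.univ.filter fun j : Fin m => j < i + 1) =
          (Finset.univ.filter fun j : Fin m => j < i) ∪ {i} := by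
        ext j
        simp only [Finset.mem_union, Finset.mem_filter, Finset.mem_univ, true_and,
          Finset.mem_singleton, Fin.lt_def, Fin.ext_iff, hv]
        omega
      rw [hs, Finset.sum_union (by rw [Finset.disjoint_singleton_right]; simp),
        Finset.sum_singleton]
    have h2 := Lz_pos a0 s g (i + 1)
    rw [h1] at h2
    rw [← h2]
    congr 1
    push_cast
    ring
  · have h0 : (i : ℕ) + 1 = m := by have := i.2; omega
    rw [h0, Nat.mod_self] at hv
    have h1 : pos g i + (1 + (g i).norm) = (wrd s g).length := by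
      rw [wrd_length]
      unfold pos
      have hs : (Finset.univ : Finset (Fin m)) =
          (Finset.univ.filter fun j : Fin m => j < i) ∪ {i} := by
        ext j
        simp only [Finset.mem_union, Finset.mem_filter, Finset.mem_univ, true_and,
          Finset.mem_singleton, Fin.lt_def, Fin.ext_iff]
        have := j.2
        constructor
        · intro _
          omega
        · intro _
          trivial
      have h2 : ∑ j : Fin m, (1 + (g j).norm) =
          ∑ j ∈ Finset.univ.filter (fun j : Fin m => j < i), (1 + (g j).norm) +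
            (1 + (g i).norm) := by
        conv_lhs => rw [hs]
        rw [Finset.sum_union (by rw [Finset.disjoint_singleton_right]; simp),
          Finset.sum_singleton]
      rw [← h2, Finset.sum_add_distrib]
      simp
    have e : ((pos g i : ℤ) + 1 + (g i).norm) = 0 + ((wrd s g).length : ℤ) := by
      rw [← h1]
      push_cast
      ring
    rw [e, Lz_add]
    have h3 : pos g (i + 1) = 0 := by
      unfold pos
      refine Finset.sum_eq_zero fun j hj => ?_
      simp only [Finset.mem_filter, Finset.mem_univ, true_and, Fin.lt_def, hv] at hj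
      omega
    have h4 := Lz_pos a0 s g (i + 1)
    rw [h3] at h4
    exact h4

theorem seg_pos {m : ℕ} [NeZero m] (s : Fin m → Lt k) (g : Fin m → FG k) (i : Fin m) :
    Pz (wrd s g) ((pos g i : ℤ) + 1 + (g i).norm) = Pz (wrd s g) ((pos g i : ℤ) + 1) * g i := by
  have h := pos_lt s g i
  have hne : wrd s g ≠ [] := by
    intro h0
    rw [h0] at h
    simp at h
  have hn : (g i).norm = (g i).toWord.length := rfl
  have e1 : ((pos g i : ℤ) + 1 + (g i).norm) = ((pos g i + 1 + (g i).norm : ℕ) : ℤ) := by
    push_cast; ring
  have e2 : ((pos g i : ℤ) + 1) = ((pos g i + 1 : ℕ) : ℤ) := by push_cast; ring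
  rw [e1, e2, Pz_nat _ (by omega) hne, Pz_nat _ (by omega) hne]
  obtain ⟨A, B, h1, h2⟩ := pos_split s g i
  have h3 : (wrd s g).take (pos g i + 1 + (g i).norm) =
      (wrd s g).take (pos g i + 1) ++ (g i).toWord := by
    rw [h1, ← h2, add_assoc, List.take_length_add_append, List.take_length_add_append, hn,
      Nat.add_comm 1, List.cons_append, List.take_succ_cons, List.take_left]
    simp
  rw [h3, ← FreeGroup.mul_mk, FreeGroup.mk_toWord]

end Pool.Agent.GRO
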