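import Pool.Agent.GRO.LIN

/-!
# RAY: rays and ends
* `ray_pre`: `g * (Pz j)⁻¹ * Pz (j+i) = (g * lt (L j)) * (L (j+1) ... L (j+i-1))`; the word of
  `g * lt (L j)` ends with `L j` (by the norm hypothesis no cancellation), and `L j, L (j+1), ...` is
  reduced (`seg_word`), so the product is reduced as written.
* `ray_back`: the same for `invw l`.
* `ends_const`: for large `n` (`i = n * l.length - j ≥ 1`) `ray_pre` applies to `g (Pz j)⁻¹ (mk l)^n`.
* `dich`: choose `i0` so large that `(h * Pz l i0).norm ≥ ρ` and the next letter `L i0` extends the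
  word (`h` cancels only finitely many letters: for `i0 ≥ h.norm + ρ`, `h * Pz l i0` has norm
  `≥ i0 - h.norm` and ends with `L (i0 - 1)` once `i0 > h.norm`); then all later vertices begin with
  this vertex.
-/

set_option autoImplicit false

open Filter

namespace Pool.Agent.GRO

variable {k : ℕ}

theorem RAY_lt_word (a : Lt k) : (lt a).toWord = [a] := by
  unfold lt
  rw [FreeGroup.toWord_mk, FreeGroup.reduce_singleton]

theorem RAY_word {g : FG k} {a : Lt k} (hg : (g * lt a).norm = g.norm + 1) :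
    (g * lt a).toWord = g.toWord ++ [a] := by
  have h := FreeGroup.toWord_mul_sublist g (lt a)
  rw [RAY_lt_word] at h
  apply h.eq_of_length
  have : (g * lt a).toWord.length = (g * lt a).norm := rfl
  rw [this, hg, List.length_append]
  rfl

theorem RAY_mul {g x : FG k} {a : Lt k} {w : List (Lt k)}
    (hg : (g * lt a).norm = g.norm + 1) (hx : x.toWord = a :: w) :
    (g * x).toWord = g.toWord ++ a :: w := by
  rw [FreeGroup.toWord_mul, hx]
  apply FreeGroup.IsReduced.reduce_eq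
  have h1 : FreeGroup.IsReduced (g.toWord ++ [a]) := by
    rw [← RAY_word hg]
    exact FreeGroup.isReduced_toWord
  have h2 : FreeGroup.IsReduced ([a] ++ w) := by
    have : [a] ++ w = x.toWord := by rw [hx]; rfl
    rw [this]
    exact FreeGroup.isReduced_toWord
  have h3 := h1.append_overlap h2 (by simp)
  simpa using h3

theorem RAY_seg (a0 : Lt k) {l : List (Lt k)} (hl : CR l) (g : FG k) (j : ℤ)
    (hg : (g * lt (Lz a0 l j)).norm = g.norm + 1) (n : ℕ) :
    ∃ w : List (Lt k), w.length = n ∧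
      (g * ((Pz l j)⁻¹ * Pz l (j + ((n + 1 : ℕ) : ℤ)))).toWord =
        g.toWord ++ Lz a0 l j :: w := by
  refine ⟨List.ofFn fun r : Fin n => Lz a0 l (j + ((r.succ : Fin (n + 1)) : ℕ)), ?_, ?_⟩
  · simp
  · apply RAY_mul hg
    rw [seg_word a0 hl j (n + 1), List.ofFn_succ]
    simp

theorem ray_pre (a0 : Lt k) {l : List (Lt k)} (hl : CR l) (g : FG k) (j : ℤ)
    (hg : (g * lt (Lz a0 l j)).norm = g.norm + 1) (i : ℤ) (hi : j < i) :
    (g * lt (Lz a0 l j)).toWord <+: (g * (Pz l j)⁻¹ * Pz l i).toWord := by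
  obtain ⟨n, hn⟩ : ∃ n : ℕ, i = j + ((n + 1 : ℕ) : ℤ) := by
    refine ⟨(i - j - 1).toNat, ?_⟩
    push_cast
    rw [Int.toNat_of_nonneg (by omega)]
    ring
  subst hn
  obtain ⟨w, -, hw⟩ := RAY_seg a0 hl g j hg n
  rw [mul_assoc, hw, RAY_word hg]
  exact ⟨w, by simp⟩

theorem ray_back (a0 : Lt k) {l : List (Lt k)} (hl : CR l) (g : FG k) (j : ℤ)
    (hg : (g * lt (bar (Lz a0 l (j - 1)))).norm = g.norm + 1) (i : ℤ) (hi : i < j) :
    (g * lt (bar (Lz a0 l (j - 1)))).toWord <+: (g * (Pz l j)⁻¹ * Pz l i).toWord := by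
  have hl0 : l ≠ [] := hl.2
  have e1 : Lz a0 (invw l) (-j) = bar (Lz a0 l (j - 1)) := by
    rw [invw_Lz a0 hl0]
    congr 2
    ring
  have e2 : Pz (invw l) (-j) = Pz l j := by rw [invw_Pz hl0, neg_neg]
  have e3 : Pz (invw l) (-i) = Pz l i := by rw [invw_Pz hl0, neg_neg]
  have h := ray_pre a0 (invw_CR hl) g (-j) (by rw [e1]; exact hg) (-i) (by omega)
  rw [e1, e2, e3] at h
  exact h

theorem ray_norm (a0 : Lt k) {l : List (Lt k)} (hl : CR l) (g : FG k) (j : ℤ)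
    (hg : (g * lt (Lz a0 l j)).norm = g.norm + 1) (i : ℕ) :
    (g * (Pz l j)⁻¹ * Pz l (j + i)).norm = g.norm + i := by
  rcases i with _ | n
  · simp
  · obtain ⟨w, hw1, hw⟩ := RAY_seg a0 hl g j hg n
    rw [mul_assoc]
    change (FreeGroup.toWord _).length = _
    rw [hw, List.length_append, List.length_cons, hw1]
    rfl

/-- Beyond a vertex in general position the ray stays in the cone. -/
theorem ev_pre (a0 : Lt k) {l : List (Lt k)} (hl : CR l) (g : FG k) (j : ℤ)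
    (hg : (g * lt (Lz a0 l j)).norm = g.norm + 1) :
    ∀ᶠ n : ℕ in atTop, (g * lt (Lz a0 l j)).toWord <+:
      (g * (Pz l j)⁻¹ * (FreeGroup.mk l) ^ n).toWord := by
  have hl0 : l ≠ [] := hl.2
  have hpos : 1 ≤ l.length := List.length_pos_of_ne_nil hl0
  filter_upwards [eventually_ge_atTop (j.toNat + 1)] with n hn
  have h := ray_pre a0 hl g j hg ((n : ℤ) * l.length) (by
    have h1 : j ≤ (j.toNat : ℤ) := Int.self_le_toNat j
    have h2 : ((j.toNat + 1 : ℕ) : ℤ) ≤ n := by exact_mod_cast hn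
    have h3 : (n : ℤ) ≤ (n : ℤ) * l.length := by
      have : n * 1 ≤ n * l.length := Nat.mul_le_mul_left n hpos
      rw [mul_one] at this
      exact_mod_cast this
    push_cast at h2
    omega)
  rw [Pz_mul hl0, zpow_natCast] at h
  exact h

theorem ev_back (a0 : Lt k) {l : List (Lt k)} (hl : CR l) (g : FG k) (j : ℤ)
    (hg : (g * lt (bar (Lz a0 l (j - 1)))).norm = g.norm + 1) :
    ∀ᶠ n : ℕ in atTop, (g * lt (bar (Lz a0 l (j - 1)))).toWord <+:
      (g * (Pz l j)⁻¹ * ((FreeGroup.mk l)⁻¹) ^ n).toWord := by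
  have hl0 : l ≠ [] := hl.2
  have e1 : Lz a0 (invw l) (-j) = bar (Lz a0 l (j - 1)) := by
    rw [invw_Lz a0 hl0]
    congr 2
    ring
  have e2 : Pz (invw l) (-j) = Pz l j := by rw [invw_Pz hl0, neg_neg]
  have h := ev_pre a0 (invw_CR hl) g (-j) (by rw [e1]; exact hg)
  rw [e1, e2, invw_mk] at h
  exact h

theorem deep_pre (a0 : Lt k) {l : List (Lt k)} (hl : CR l) {E : Set (FG k)} {ρ : ℕ}
    (hE : TameE E ρ) (g : FG k) (j : ℤ) (hg : (g * lt (Lz a0 l j)).norm = g.norm + 1)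
    (hρ : ρ ≤ (g * lt (Lz a0 l j)).norm) :
    (∀ᶠ n : ℕ in atTop, g * (Pz l j)⁻¹ * (FreeGroup.mk l) ^ n ∈ E) ↔
      g * lt (Lz a0 l j) ∈ E := by
  have h := ev_pre a0 hl g j hg
  rw [eventually_congr (h.mono fun n hn => hE _ _ hρ hn), eventually_const]

theorem deep_back (a0 : Lt k) {l : List (Lt k)} (hl : CR l) {E : Set (FG k)} {ρ : ℕ}
    (hE : TameE E ρ) (g : FG k) (j : ℤ)
    (hg : (g * lt (bar (Lz a0 l (j - 1)))).norm = g.norm + 1)
    (hρ : ρ ≤ (g * lt (bar (Lz a0 l (j - 1)))).norm) :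
    (∀ᶠ n : ℕ in atTop, g * (Pz l j)⁻¹ * ((FreeGroup.mk l)⁻¹) ^ n ∈ E) ↔
      g * lt (bar (Lz a0 l (j - 1))) ∈ E := by
  have h := ev_back a0 hl g j hg
  rw [eventually_congr (h.mono fun n hn => hE _ _ hρ hn), eventually_const]

/-- The number of vertices of a line with bounded norm is finite. -/
theorem far_vertex {l : List (Lt k)} (hl : CR l) (h : FG k) (B : ℕ) :
    ∃ j : ℤ, B < (h * Pz l j).norm := by
  refine ⟨((B + h.norm + 1 : ℕ) : ℤ), ?_⟩
  have h1 := seg_norm hl 0 (B + h.norm + 1)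
  rw [Pz_zero hl.2, inv_one, one_mul, zero_add] at h1
  have h2 := FreeGroup.norm_mul_le h⁻¹ (h * Pz l ((B + h.norm + 1 : ℕ) : ℤ))
  rw [inv_mul_cancel_left, h1, FreeGroup.norm_inv_eq] at h2
  omega

/-- Membership in the coset of the line. -/
theorem coset_iff {l : List (Lt k)} (hl : CR l) (h h' : FG k) :
    (h : FG k ⧸ Subgroup.zpowers (FreeGroup.mk l)) = h' ↔
      ∃ n : ℤ, h' = h * Pz l (n * l.length) := by
  rw [QuotientGroup.eq, Subgroup.mem_zpowers_iff]
  constructor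
  · rintro ⟨n, hn⟩
    refine ⟨n, ?_⟩
    rw [Pz_mul hl.2, hn, mul_inv_cancel_left]
  · rintro ⟨n, hn⟩
    refine ⟨n, ?_⟩
    rw [hn, Pz_mul hl.2, inv_mul_cancel_left]

theorem RAY_shift (E : Set (FG k)) (h u : FG k) (m : ℕ) :
    (∀ᶠ n : ℕ in atTop, h * u ^ m * u ^ n ∈ E) ↔ (∀ᶠ n : ℕ in atTop, h * u ^ n ∈ E) := by
  rw [eventually_atTop, eventually_atTop]
  constructor
  · rintro ⟨N, hN⟩
    refine ⟨N + m, fun n hn => ?_⟩
    have := hN (n - m) (by omega)
    rw [mul_assoc, ← pow_add] at this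
    have e : m + (n - m) = n := by omega
    rw [e] at this
    exact this
  · rintro ⟨N, hN⟩
    refine ⟨N, fun n hn => ?_⟩
    rw [mul_assoc, ← pow_add]
    exact hN _ (by omega)

theorem RAY_sep_nat (E : Set (FG k)) (h u : FG k) (m : ℕ) :
    ((∀ᶠ n : ℕ in atTop, h * u ^ m * u ^ n ∈ E) ↔
      (∀ᶠ n : ℕ in atTop, h * u ^ m * (u⁻¹) ^ n ∈ E)) ↔
    ((∀ᶠ n : ℕ in atTop, h * u ^ n ∈ E) ↔ (∀ᶠ n : ℕ in atTop, h * (u⁻¹) ^ n ∈ E)) := by
  have h1 := RAY_shift E h u m
  have h2 := RAY_shift E (h * u ^ m) u⁻¹ m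
  have e : h * u ^ m * (u⁻¹) ^ m = h := by
    rw [mul_assoc, inv_pow, mul_inv_cancel, mul_one]
  rw [e] at h2
  rw [h1, ← h2]

/-- Being separated depends only on the coset. -/
theorem sep_coset {E : Set (FG k)} {u : FG k} {h : FG k} :
    (h : FG k ⧸ Subgroup.zpowers u) ∈ SepE E u ↔
      ¬ ((∀ᶠ n : ℕ in atTop, h * u ^ n ∈ E) ↔ (∀ᶠ n : ℕ in atTop, h * (u⁻¹) ^ n ∈ E)) := by
  constructor
  · rintro ⟨g, hg, hs⟩
    rw [QuotientGroup.eq, Subgroup.mem_zpowers_iff] at hg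
    obtain ⟨z, hz⟩ := hg
    intro hc
    apply hs
    obtain ⟨m, rfl | rfl⟩ := Int.eq_nat_or_neg z
    · have e : h = g * u ^ m := by
        rw [zpow_natCast] at hz
        rw [hz, mul_inv_cancel_left]
      rw [e] at hc
      exact (RAY_sep_nat E g u m).1 hc
    · have e : g = h * u ^ m := by
        rw [zpow_neg, zpow_natCast] at hz
        have : u ^ m = (g⁻¹ * h)⁻¹ := by rw [← hz, inv_inv]
        rw [this]
        group
      rw [e]
      exact (RAY_sep_nat E h u m).2 hc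
  · intro hs
    exact ⟨h, rfl, hs⟩

end Pool.Agent.GRO
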