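import Pool.Agent.GRO.RUN
import Pool.Agent.GRO.WH

/-!
# RET: one step of the retraction
* `ZC` fails: `cap l S = 0`, `z ∈ S`, `bar z ∉ S`, `0 < cap l {z}`. `S` is a union of classes by `I3`
  (`2 * 0 < T`), so `¬ C z (bar z)`, hence `{z}` and `{bar z}` are classes (`Str.sgl`; for `bar z` use
  `bar_bar` and symmetry). `wh_move` with `(S, z)`: `tran` and the length drop by `cap l {z}`.
* `NC` fails: `a ∉ S`, `bar a ∉ S`, all edges leaving `S` end in `a`, `0 < cap l S`. Then
  `cap l S = ebt l S {a}` and `cap l (insert a S) + cap l S = cap l {a}` (`cap_insert`). By `NG` for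
  `(insert a S, a)`: `8 cap l S < T`, so `S` is a union of classes (`I3`).
  - If `¬ C a (bar a)`: `insert a S` is a union of classes; `wh_move` with `(insert a S, a)`: `tran`
    and the length drop by `cap l S > 0`.
  - If `C a (bar a)`: `y = a.1`, `C (y, true) (y, false)`, `Y = Yb C y`. No letter of `S` is over
    `Y` (else `a ∈ S`, `Yb_spec`). There is an edge `x0 - a` with `x0 ∈ S` (`cap_pos_iff`).
    Everything reachable from `x0` by `StY C Y l` is in `S`. So `AA C Y l x0`: `run_step`.
* In the Whitehead cases `Psi C v < Psi C l` follows from `tran C v < tran C l` and `NA_le`.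
-/

set_option autoImplicit false

namespace Pool.Agent.GRO

variable {k : ℕ}

private theorem ret_bar_bar (a : Lt k) : bar (bar a) = a := by
  rcases a with ⟨x, b⟩
  simp [bar]

private theorem ret_bar_ne (a : Lt k) : bar a ≠ a := by
  rcases a with ⟨x, b⟩
  cases b <;> simp [bar]

private theorem ret_wh {C : Lt k → Lt k → Prop} (hC : Str C) {l : List (Lt k)} (hl : CR l)
    {S : Finset (Lt k)} {a : Lt k} (ha : a ∈ S) (hb : bar a ∉ S)
    (hS : ∀ x y, C x y → (x ∈ S ↔ y ∈ S)) (hlt : cap l S < cap l {a}) :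
    ∃ v, CR v ∧ (RW l v ∨ RR l v) ∧ v.length ≤ l.length ∧ Psi C v < Psi C l := by
  have hnC : ¬ C a (bar a) := fun h => hb ((hS _ _ h).1 ha)
  have h1 : ∀ x, C a x → x = a := hC.sgl a hnC
  have h2 : ∀ x, C (bar a) x → x = bar a := by
    apply hC.sgl (bar a)
    rw [ret_bar_bar]
    exact fun h => hnC (hC.eqv.symm h)
  obtain ⟨v, hv, hconj, hlen, -, htran⟩ := wh_move hl ha hb
  have ht := htran C hC.eqv hS h1 h2
  refine ⟨v, hv, Or.inl ⟨S, a, ha, hb, by omega, hconj⟩, by omega, ?_⟩
  have h3 : tran C v + 1 ≤ tran C l := by omega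
  have h4 := NA_le C v
  unfold Psi
  calc tran C v * (2 * k ^ 2 + 1) + NA C v < (tran C v + 1) * (2 * k ^ 2 + 1) := by
        rw [add_mul]; omega
    _ ≤ tran C l * (2 * k ^ 2 + 1) := Nat.mul_le_mul_right _ h3
    _ ≤ tran C l * (2 * k ^ 2 + 1) + NA C l := Nat.le_add_right _ _

theorem ret_step {C : Lt k → Lt k → Prop} (hC : Str C) {T : ℕ} (hT : 0 < T) {l : List (Lt k)}
    (hl : CR l) (hI : I3 C T l) (hN : NG T l) (h : ¬ (NC l ∧ ZC l)) :
    ∃ v, CR v ∧ (RW l v ∨ RR l v) ∧ v.length ≤ l.length ∧ Psi C v < Psi C l := by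
  classical
  by_cases hZ : ZC l
  · have hNC : ¬ NC l := fun hn => h ⟨hn, hZ⟩
    unfold NC at hNC
    push Not at hNC
    obtain ⟨a, S, haS, hbS, hadj, hcap⟩ := hNC
    have hcap' : 0 < cap l S := Nat.pos_of_ne_zero hcap
    have hle : cap l S ≤ ebt l S {a} := by
      unfold cap ebt
      apply List.countP_mono_left
      intro e he hp
      have hA : Adj l e.1 e.2 := Or.inl he
      have hA' : Adj l e.2 e.1 := Or.inr he
      by_cases h1 : e.1 ∈ S <;> by_cases h2 : e.2 ∈ S
      · simp [h1, h2] at hp
      · have h3 := hadj _ _ hA h1 h2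
        simp only [decide_eq_true_eq]
        exact Or.inl ⟨h1, by simp [h3]⟩
      · have h3 := hadj _ _ hA' h2 h1
        simp only [decide_eq_true_eq]
        exact Or.inr ⟨by simp [h3], h2⟩
      · simp [h1, h2] at hp
    have hdis : Disjoint S ({a} : Finset (Lt k)) := by
      rw [Finset.disjoint_singleton_right]
      exact haS
    have hge := ebt_le_left l hdis
    have hins := cap_insert l haS
    have hb' : bar a ∉ insert a S := by
      rw [Finset.mem_insert, not_or]
      exact ⟨ret_bar_ne a, hbS⟩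
    have hng := hN (insert a S) a (Finset.mem_insert_self a S) hb'
    have hsat : ∀ x y, C x y → (x ∈ S ↔ y ∈ S) := hI S (by omega)
    by_cases hCa : C a (bar a)
    · have hy : C (a.1, true) (a.1, false) := by
        rcases a with ⟨y, b⟩
        cases b
        · exact hC.eqv.symm hCa
        · exact hCa
      have haY : a.1 ∈ Yb C a.1 := mem_Yb_self hC a.1
      have hSY : ∀ x ∈ S, x.1 ∉ Yb C a.1 := by
        intro x hx hxY
        have h1 : C x a := (Yb_spec hC hy x a hxY).2 haY
        exact haS ((hsat _ _ h1).1 hx)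
      obtain ⟨x0, y0, hxy, hx0, hy0⟩ := (cap_pos_iff l S).1 hcap'
      have hy0a : y0 = a := hadj _ _ hxy hx0 hy0
      have hreach : ∀ x', Relation.ReflTransGen (StY C (Yb C a.1) l) x0 x' → x' ∈ S := by
        intro x' hx'
        induction hx' with
        | refl => exact hx0
        | tail _ hst ih =>
          obtain ⟨_, hc1, hc2⟩ := hst
          rcases hc2 with hc2 | hc2
          · exact (hsat _ _ hc2).1 ih
          · by_contra hno
            have := hadj _ _ hc2 ih hno
            rw [this] at hc1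
            exact hc1 haY
      have hAA : AA C (Yb C a.1) l x0 := by
        refine ⟨hSY x0 hx0, a, haY, ⟨x0, Relation.ReflTransGen.refl, hy0a ▸ hxy⟩, ?_⟩
        intro x' y hr hyY hA
        have hx' := hreach x' hr
        refine hadj _ _ hA hx' ?_
        intro hyS
        exact hSY y hyS hyY
      obtain ⟨v, hv, hRR, hlen, hPsi⟩ := run_step hC hl hy hAA
      exact ⟨v, hv, Or.inr hRR, hlen.le, hPsi⟩
    · have h1 : ∀ x, C a x → x = a := hC.sgl a hCa
      have hsat' : ∀ x y, C x y → (x ∈ insert a S ↔ y ∈ insert a S) := by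
        intro x y hxy
        by_cases hxa : x = a
        · subst hxa
          rw [h1 y hxy]
        · by_cases hya : y = a
          · subst hya
            exact absurd (h1 x (hC.eqv.symm hxy)) hxa
          · simp only [Finset.mem_insert, hxa, hya, false_or]
            exact hsat x y hxy
      exact ret_wh hC hl (Finset.mem_insert_self a S) hb' hsat' (by omega)
  · unfold ZC at hZ
    push Not at hZ
    obtain ⟨S, z, hcap, hzS, hbS, hz⟩ := hZ
    have hsat : ∀ x y, C x y → (x ∈ S ↔ y ∈ S) := hI S (by omega)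
    exact ret_wh hC hl hzS hbS hsat (by omega)

end Pool.Agent.GRO
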