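import Pool.Agent.GRO.RUN3
import Pool.Agent.GRO.REL2
import Pool.Agent.GRO.CONJ

/-!
# RUN: one run
Let `Y = Yb C y`, `K` = the set of letters reachable from `x0` by `StY C Y l`, `a` the letter of the
all-agree condition. `l` has a letter outside `Y` (an end of the edge leaving `K`), so
`l ~r wrd s g` (`exists_rel`); all conditions are invariant under rotations (`Adj_rot`, `cap_rot`,
`Psi_rot`). Apply `lcp` to the set `S` of all nonempty labels read from an end in `K`:
`S = {x | x ≠ 1 ∧ ∃ i, (bar (s i) ∈ K ∧ x = g i) ∨ (s (i+1) ∈ K ∧ x = (g i)⁻¹)}` (nonempty; all begin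
with `a` by `adj_lv`). Get `h`, `v = wrd s (gg s g (onK K h))`. `hK` of `run_cases`: an empty
passage is an edge between two letters outside `Y`. `run_length` gives `RR l v` (with `gg_conj_rot`)
and the length drop, because `0 < cap l K` (the edge to `a`) and `h ≠ 1`.
If a label vanishes, `tran C v < tran C l` by `run_tran`, and `NA ≤ 2 k²` (`NA_le`) gives
`Psi C v < Psi C l`. Otherwise `h ∉ S`-alternative of `lcp` holds [if `h ∈ S` via a passage with one
end in `K` then this label vanishes; via a passage with both ends in `K`: `g i = h` and both ends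
begin with `h`, but then `both_ends` gives `norm ≥ 2 |h| + 1 > |h|`, contradiction], so `hmax`
holds (the first letters of `g'` read from the ends in `K` are those of `h⁻¹ * x`: for a passage
with both ends in `K`, `(g i).toWord = h ++ g' i ++ h⁻¹` with `g' i ≠ 1`), `run_na` and `run_tran`
give `Psi C v < Psi C l`.
-/

set_option autoImplicit false

namespace Pool.Agent.GRO

variable {k : ℕ}

private theorem AA_rot {C : Lt k → Lt k → Prop} {Y : Finset (Fin k)} {l l' : List (Lt k)}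
    (h : l ~r l') {x : Lt k} (hx : AA C Y l x) : AA C Y l' x := by
  have h1 : Adj l = Adj l' := by
    funext a b
    exact propext (Adj_rot h a b)
  have h2 : StY C Y l = StY C Y l' := by
    funext a b
    simp only [StY, h1]
  unfold AA at hx ⊢
  rw [h1, h2] at hx
  exact hx

private theorem reach_out {C : Lt k → Lt k → Prop} {Y : Finset (Fin k)} {l : List (Lt k)}
    {x0 x : Lt k} (h0 : x0.1 ∉ Y) (h : Relation.ReflTransGen (StY C Y l) x0 x) : x.1 ∉ Y := by
  induction h with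
  | refl => exact h0
  | tail _ h2 _ => exact h2.2.1

private theorem head_of_ne {x : FG k} (hx : x ≠ 1) : ∃ c, x.toWord.head? = some c := by
  have h1 : x.toWord ≠ [] := by
    intro h
    exact hx (FreeGroup.toWord_eq_nil_iff.mp h)
  obtain ⟨c, w, hw⟩ := List.exists_cons_of_ne_nil h1
  exact ⟨c, by rw [hw]; rfl⟩

private theorem ne_of_head {x : FG k} {c : Lt k} (h : x.toWord.head? = some c) : x ≠ 1 := by
  intro h1
  rw [h1, FreeGroup.toWord_one] at h
  simp at h

private theorem conj_head {h x : FG k} (h1 : x ≠ 1) (hx : h.toWord <+: x.toWord)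
    (hx' : h.toWord <+: (x⁻¹).toWord) {c : Lt k} (hc : (h⁻¹ * x).toWord.head? = some c) :
    (h⁻¹ * x * h).toWord.head? = some c := by
  obtain ⟨h2, h3⟩ := both_ends h1 hx hx'
  have h4 := left_end hx
  rw [h4, List.append_assoc] at h2
  have h5 := List.append_cancel_left h2
  obtain ⟨d, hd⟩ := head_of_ne h3
  rw [h5, List.head?_append, hd] at hc
  rw [hd]
  simpa using hc

theorem run_step {C : Lt k → Lt k → Prop} (hC : Str C) {l : List (Lt k)} (hl : CR l) {y : Fin k}
    (hy : C (y, true) (y, false)) {x0 : Lt k} (hx : AA C (Yb C y) l x0) :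
    ∃ v, CR v ∧ RR l v ∧ v.length < l.length ∧ Psi C v < Psi C l := by
  classical
  have hxx := hx
  obtain ⟨hx0, a', -, ⟨x1', hx1', hadj'⟩, -⟩ := hx
  have hex : ∃ b ∈ l, b.1 ∉ Yb C y := by
    have h1 := reach_out hx0 hx1'
    rcases (adj_used hadj').1 with h2 | h2
    · exact ⟨x1', h2, h1⟩
    · exact ⟨bar x1', h2, h1⟩
  obtain ⟨m, inst, s, g, hv, hrot⟩ := exists_rel (Yb C y) hl hex
  have hAA : AA C (Yb C y) (wrd s g) x0 := AA_rot hrot hxx
  obtain ⟨-, a, ha, ⟨x1, hx1, hadj⟩, hall⟩ := hAA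
  obtain ⟨K, hK⟩ : ∃ K : Finset (Lt k), ∀ x, x ∈ K ↔
      Relation.ReflTransGen (StY C (Yb C y) (wrd s g)) x0 x :=
    ⟨Finset.univ.filter fun x => Relation.ReflTransGen (StY C (Yb C y) (wrd s g)) x0 x,
      fun x => by simp⟩
  have hKY : ∀ p ∈ K, p.1 ∉ Yb C y := fun p hp => reach_out hx0 ((hK p).mp hp)
  have hbs : ∀ i, (bar (s i)).1 ∉ Yb C y := fun i => hv.hs i
  have hKemp : ∀ i, g i = 1 → (bar (s i) ∈ K ↔ s (i + 1) ∈ K) := by
    intro i hi
    have h1 : Adj (wrd s g) (bar (s i)) (s (i + 1)) :=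
      (adj_out hv (hbs i) (hv.hs (i + 1))).mpr ⟨i, hi, Or.inl ⟨rfl, rfl⟩⟩
    constructor
    · intro h2
      exact (hK _).mpr (((hK _).mp h2).tail ⟨hbs i, hv.hs _, Or.inr h1⟩)
    · intro h2
      exact (hK _).mpr (((hK _).mp h2).tail ⟨hv.hs _, hbs i, Or.inr (adj_comm.mp h1)⟩)
  obtain ⟨S, hS⟩ : ∃ S : Set (FG k), ∀ x, x ∈ S ↔ (x ≠ 1 ∧ ∃ i, (bar (s i) ∈ K ∧ x = g i) ∨
      (s (i + 1) ∈ K ∧ x = (g i)⁻¹)) := ⟨{x | _}, fun x => Iff.rfl⟩
  have hSa : ∀ x ∈ S, x.toWord.head? = some a := by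
    intro x hxS
    obtain ⟨h1, i, h2⟩ := (hS x).mp hxS
    obtain ⟨c, hc⟩ := head_of_ne h1
    rcases h2 with ⟨h2, h3⟩ | ⟨h2, h3⟩
    · have h4 : Lv s g (bar (s i)) c := ⟨i, Or.inl ⟨rfl, by rw [← h3]; exact hc⟩⟩
      have h5 := (adj_lv hv (hbs i) (lv_mem hv h4).1).mpr h4
      rw [hc, hall _ _ ((hK _).mp h2) (lv_mem hv h4).1 h5]
    · have h4 : Lv s g (s (i + 1)) c := ⟨i, Or.inr ⟨rfl, by rw [← h3]; exact hc⟩⟩
      have h5 := (adj_lv hv (hv.hs _) (lv_mem hv h4).1).mpr h4
      rw [hc, hall _ _ ((hK _).mp h2) (lv_mem hv h4).1 h5]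
  have hSne : S.Nonempty := by
    obtain ⟨i, h1⟩ := (adj_lv hv (reach_out hx0 hx1) ha).mp hadj
    rcases h1 with ⟨h1, h2⟩ | ⟨h1, h2⟩
    · exact ⟨g i, (hS _).mpr ⟨ne_of_head h2, i, Or.inl ⟨by rw [← h1]; exact (hK _).mpr hx1, rfl⟩⟩⟩
    · exact ⟨(g i)⁻¹, (hS _).mpr ⟨ne_of_head h2, i,
        Or.inr ⟨by rw [← h1]; exact (hK _).mpr hx1, rfl⟩⟩⟩
  obtain ⟨h, hh1, -, hpre, hor⟩ := lcp hSne hSa
  have hhY : h ∈ FY (Yb C y) := by
    obtain ⟨x, hxS⟩ := hSne
    have hxF : x ∈ FY (Yb C y) := by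
      obtain ⟨-, i, h2⟩ := (hS x).mp hxS
      rcases h2 with ⟨-, h3⟩ | ⟨-, h3⟩
      · rw [h3]; exact hv.hg i
      · rw [h3]; exact Subgroup.inv_mem _ (hv.hg i)
    rw [mem_FY] at hxF ⊢
    intro b hb
    exact hxF b ((hpre x hxS).subset hb)
  have H1 : ∀ i, bar (s i) ∈ K → g i ≠ 1 → h.toWord <+: (g i).toWord := fun i h1 h2 =>
    hpre _ ((hS _).mpr ⟨h2, i, Or.inl ⟨h1, rfl⟩⟩)
  have H2 : ∀ i, s (i + 1) ∈ K → g i ≠ 1 → h.toWord <+: ((g i)⁻¹).toWord := fun i h1 h2 =>
    hpre _ ((hS _).mpr ⟨inv_ne_one.mpr h2, i, Or.inr ⟨h1, rfl⟩⟩)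
  have hoK : ∀ p, onK K h p ∈ FY (Yb C y) := onK_mem K hhY
  have hv' := gg_val hv hoK
  have hcases := run_cases hv hKemp H1 H2
  have hlen := run_length hv hKY hhY hKemp H1 H2
  have hcap : 0 < cap (wrd s g) K := by
    rw [cap_pos_iff]
    exact ⟨x1, a, hadj, (hK _).mpr hx1, fun h1 => hKY a h1 ha⟩
  have hnorm : 0 < h.norm := by
    rcases Nat.eq_zero_or_pos h.norm with h1 | h1
    · exact absurd (FreeGroup.norm_eq_zero.mp h1) hh1
    · exact h1
  have hll : l.length = (wrd s g).length := hrot.perm.length_eq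
  have hYs : ∀ p q : Lt k, p.1 ∈ Yb C y → (C p q ↔ q.1 ∈ Yb C y) := fun p q hp =>
    Yb_spec hC hy p q hp
  have htran := run_tran hYs hC.eqv hv hv' (fun i hi => (hcases i).1 hi)
  refine ⟨wrd s (gg s g (onK K h)), wrd_CR hv', ⟨Yb C y, K, h, hKY, hhY, ?_, ?_, ?_⟩, ?_, ?_⟩
  · rw [cap_rot hrot K]; exact hcap
  · rw [cap_rot hrot K, hll]; exact hlen.le
  · exact gg_conj_rot hv hoK hrot
  · rw [hll, ← hlen]
    have := Nat.mul_pos hnorm hcap
    omega
  · rw [Psi_rot C hrot]
    by_cases hvan : ∃ i, g i ≠ 1 ∧ gg s g (onK K h) i = 1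
    · have h1 := htran.2 hvan
      have h2 := NA_le C (wrd s (gg s g (onK K h)))
      have h3 := Nat.mul_le_mul_right (2 * k ^ 2 + 1) (Nat.succ_le_of_lt h1)
      rw [Nat.succ_mul] at h3
      unfold Psi
      omega
    · push Not at hvan
      have hmax : ∃ q ∈ K, ∃ q' ∈ K, ∃ c c', c ≠ c' ∧ Lv s (gg s g (onK K h)) q c ∧
          Lv s (gg s g (onK K h)) q' c' := by
        have hlv : ∀ x ∈ S, ∀ c, (h⁻¹ * x).toWord.head? = some c →
            ∃ q ∈ K, Lv s (gg s g (onK K h)) q c := by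
          intro x hxS c hc
          obtain ⟨hx1, i, h2⟩ := (hS x).mp hxS
          rcases h2 with ⟨h2, h3⟩ | ⟨h2, h3⟩
          · refine ⟨bar (s i), h2, i, Or.inl ⟨rfl, ?_⟩⟩
            subst h3
            by_cases h4 : s (i + 1) ∈ K
            · rw [((hcases i).2.2.2.2 h2 h4 hx1).1]
              exact conj_head hx1 (H1 i h2 hx1) (H2 i h4 hx1) hc
            · rw [((hcases i).2.2.1 h2 h4).1]
              exact hc
          · refine ⟨s (i + 1), h2, i, Or.inr ⟨rfl, ?_⟩⟩
            subst h3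
            have hg1 : g i ≠ 1 := inv_ne_one.mp hx1
            by_cases h4 : bar (s i) ∈ K
            · rw [((hcases i).2.2.2.2 h4 h2 hg1).1]
              have h5 : (h⁻¹ * g i * h)⁻¹ = h⁻¹ * (g i)⁻¹ * h := by group
              rw [h5]
              refine conj_head hx1 (H2 i h2 hg1) ?_ hc
              rw [inv_inv]
              exact H1 i h4 hg1
            · rw [((hcases i).2.2.2.1 h4 h2).1, mul_inv_rev]
              exact hc
        rcases hor with hor | ⟨x, hxS, x', hxS', c, c', hcc, hc, hc'⟩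
        · exfalso
          obtain ⟨-, i, h2⟩ := (hS h).mp hor
          have hboth : bar (s i) ∈ K → s (i + 1) ∈ K → g i ≠ 1 → (g i).norm = h.norm → False := by
            intro h3 h4 h5 h6
            have h7 := ((hcases i).2.2.2.2 h3 h4 h5).2.2
            have h8 := congrArg List.length h7
            rw [List.length_append, List.length_append] at h8
            have h9 : (g i).toWord.length = (g i).norm := rfl
            have h10 : h.toWord.length = h.norm := rfl
            have h11 : (h⁻¹).toWord.length = h.norm := FreeGroup.norm_inv_eq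
            omega
          rcases h2 with ⟨h2, h3⟩ | ⟨h2, h3⟩
          · have hg1 : g i ≠ 1 := by rw [← h3]; exact hh1
            by_cases h4 : s (i + 1) ∈ K
            · exact hboth h2 h4 hg1 (by rw [← h3])
            · apply hvan i hg1
              rw [((hcases i).2.2.1 h2 h4).1, ← h3, inv_mul_cancel]
          · have hg0 : g i = h⁻¹ := by rw [h3, inv_inv]
            have hg1 : g i ≠ 1 := by rw [hg0]; exact inv_ne_one.mpr hh1
            by_cases h4 : bar (s i) ∈ K
            · exact hboth h4 h2 hg1 (by rw [hg0, FreeGroup.norm_inv_eq])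
            · apply hvan i hg1
              rw [((hcases i).2.2.2.1 h4 h2).1, hg0, inv_mul_cancel]
        · obtain ⟨q, hq, hlq⟩ := hlv x hxS c hc
          obtain ⟨q', hq', hlq'⟩ := hlv x' hxS' c' hc'
          exact ⟨q, hq, q', hq', c, c', hcc, hlq, hlq'⟩
      have h1 := run_na hC hy hv (AA_rot hrot hxx) hK hhY H1 H2 hvan hmax
      have h3 := Nat.mul_le_mul_right (2 * k ^ 2 + 1) htran.1
      unfold Psi
      omega

end Pool.Agent.GRO
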