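import Pool.Agent.GRO.REL3
import Pool.Agent.GRO.RSB

/-!
# RUN1: longest common beginnings
* `lcp`: let `x0 ∈ S`; consider the largest `n ≤ x0.norm` such that all elements of `S` begin with
  the first `n` letters of `x0` (`n ≥ 1` by the hypothesis); `h` = product of these letters. If
  `n = x0.norm` then `h = x0 ∈ S`. If some `x ∈ S` has length `n` then `x = h ∈ S`. Otherwise all
  elements of `S` have a next letter, and they are not all equal by maximality.
* `both_ends`: if `x` and `x⁻¹` both begin with `h` (as reduced words) then they do not overlap: if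
  `x.norm < 2 * h.norm`, the last `t = 2 |h| - |x| ≥ 1` letters `σ` of `h` would satisfy
  `σ = invRev σ`, so `(mk σ)² = 1`, `mk σ = 1` (free groups are torsion free) but `σ` is reduced and
  nonempty. So `x.toWord = h.toWord ++ mid ++ (h⁻¹).toWord`, `mid = (h⁻¹ * x * h).toWord`, and
  `mid = []` would give `x = 1`.
-/

set_option autoImplicit false

namespace Pool.Agent.GRO

variable {k : ℕ}

private theorem RUN1_tail {h x : FG k} {r : List (Lt k)} (hr : h.toWord ++ r = x.toWord) :
    (h⁻¹ * x).toWord = r := by
  have h1 : x = h * FreeGroup.mk r := by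
    rw [← FreeGroup.mk_toWord (x := x), ← hr, ← FreeGroup.mul_mk, FreeGroup.mk_toWord]
  have h2 : FreeGroup.IsReduced r := by
    have h3 : FreeGroup.IsReduced x.toWord := FreeGroup.isReduced_toWord
    rw [← hr] at h3
    exact red_sub h3 ⟨h.toWord, [], by simp⟩
  rw [h1, inv_mul_cancel_left, FreeGroup.toWord_mk, h2.reduce_eq]

theorem left_end {h x : FG k} (hx : h.toWord <+: x.toWord) :
    x.toWord = h.toWord ++ (h⁻¹ * x).toWord := by
  obtain ⟨r, hr⟩ := hx
  rw [RUN1_tail hr, hr]

theorem lcp {S : Set (FG k)} (hS : S.Nonempty) {a : Lt k}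
    (ha : ∀ x ∈ S, x.toWord.head? = some a) :
    ∃ h : FG k, h ≠ 1 ∧ h.toWord.head? = some a ∧ (∀ x ∈ S, h.toWord <+: x.toWord) ∧
      (h ∈ S ∨ ∃ x ∈ S, ∃ x' ∈ S, ∃ c c', c ≠ c' ∧
        (h⁻¹ * x).toWord.head? = some c ∧ (h⁻¹ * x').toWord.head? = some c') := by
  classical
  obtain ⟨x0, hx0⟩ := hS
  let P : ℕ → Prop := fun n => ∀ x ∈ S, x0.toWord.take n <+: x.toWord
  have hlen : 1 ≤ x0.toWord.length := by
    have := ha x0 hx0
    cases hw : x0.toWord with
    | nil => rw [hw] at this; simp at this
    | cons c w => simp
  have hP1 : P 1 := by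
    intro x hx
    have h1 := ha x hx
    have h0 := ha x0 hx0
    cases hw : x0.toWord with
    | nil => rw [hw] at h0; simp at h0
    | cons c w =>
      cases hw' : x.toWord with
      | nil => rw [hw'] at h1; simp at h1
      | cons c' w' =>
        rw [hw] at h0
        rw [hw'] at h1
        simp only [List.head?_cons, Option.some.injEq] at h0 h1
        rw [h0, h1]
        exact ⟨w', by simp⟩
  set n := Nat.findGreatest P x0.toWord.length with hn
  have hPn : P n := Nat.findGreatest_spec (P := P) hlen hP1
  have hn1 : 1 ≤ n := Nat.le_findGreatest hlen hP1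
  have hnle : n ≤ x0.toWord.length := Nat.findGreatest_le _
  set h : FG k := FreeGroup.mk (x0.toWord.take n) with hh
  have hword : h.toWord = x0.toWord.take n := by
    have h3 : FreeGroup.IsReduced x0.toWord := FreeGroup.isReduced_toWord
    have h4 : FreeGroup.IsReduced (x0.toWord.take n) :=
      red_sub h3 (List.take_prefix n _).isInfix
    rw [hh, FreeGroup.toWord_mk, h4.reduce_eq]
  have hhead : h.toWord.head? = some a := by
    rw [hword, ← ha x0 hx0]
    cases hw : x0.toWord with
    | nil => simp
    | cons c w =>
      obtain ⟨n', hn'⟩ : ∃ n', n = n' + 1 := ⟨n - 1, by omega⟩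
      rw [hn']
      simp
  refine ⟨h, ?_, hhead, ?_, ?_⟩
  · intro h1
    rw [h1, FreeGroup.toWord_one] at hhead
    simp at hhead
  · intro x hx
    rw [hword]
    exact hPn x hx
  · by_cases hmem : h ∈ S
    · exact Or.inl hmem
    · right
      by_contra hcon
      push Not at hcon
      have hnext : ∀ x ∈ S, ∃ c, (h⁻¹ * x).toWord.head? = some c := by
        intro x hx
        have h1 : h.toWord <+: x.toWord := by
          rw [hword]
          exact hPn x hx
        have h2 := left_end h1
        cases hw : (h⁻¹ * x).toWord with
        | nil =>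
          exfalso
          apply hmem
          have : h⁻¹ * x = 1 := FreeGroup.toWord_eq_nil_iff.1 hw
          have h3 : h = x := by
            rw [inv_mul_eq_one] at this
            exact this
          rw [h3]
          exact hx
        | cons c w => exact ⟨c, rfl⟩
      obtain ⟨c0, hc0⟩ := hnext x0 hx0
      have hall : ∀ x ∈ S, (h⁻¹ * x).toWord.head? = some c0 := by
        intro x hx
        obtain ⟨c, hc⟩ := hnext x hx
        by_cases hcc : c0 = c
        · rw [hcc]
          exact hc
        · exact absurd hc (hcon x0 hx0 x hx c0 c hcc hc0)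
      have hx0w : x0.toWord = h.toWord ++ (h⁻¹ * x0).toWord :=
        left_end (by rw [hword]; exact hPn x0 hx0)
      have hlt : n + 1 ≤ x0.toWord.length := by
        have h5 : h.toWord.length = n := by
          rw [hword, List.length_take]
          omega
        rw [hx0w, List.length_append, h5]
        cases hw : (h⁻¹ * x0).toWord with
        | nil => rw [hw] at hc0; simp at hc0
        | cons c w => simp
      have htake : x0.toWord.take (n + 1) = h.toWord ++ [c0] := by
        have h5 : h.toWord.length = n := by
          rw [hword, List.length_take]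
          omega
        cases hw : (h⁻¹ * x0).toWord with
        | nil => rw [hw] at hc0; simp at hc0
        | cons c w =>
          rw [hw] at hc0
          simp only [List.head?_cons, Option.some.injEq] at hc0
          rw [hx0w, hw, ← h5, List.take_length_add_append, hc0]
          simp
      have hPn1 : P (n + 1) := by
        intro x hx
        rw [htake]
        have h1 : h.toWord <+: x.toWord := by
          rw [hword]
          exact hPn x hx
        have h2 := left_end h1
        have h3 := hall x hx
        cases hw : (h⁻¹ * x).toWord with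
        | nil => rw [hw] at h3; simp at h3
        | cons c w =>
          rw [hw] at h3
          simp only [List.head?_cons, Option.some.injEq] at h3
          rw [h2, hw, h3]
          exact ⟨w, by simp⟩
      have := Nat.le_findGreatest hlt hPn1
      omega

theorem right_end {h x : FG k} (hx : h.toWord <+: (x⁻¹).toWord) :
    x.toWord = (x * h).toWord ++ (h⁻¹).toWord := by
  have h1 := left_end hx
  have h2 : x.toWord = FreeGroup.invRev (x⁻¹).toWord := by
    rw [← FreeGroup.toWord_inv, inv_inv]
  rw [h2, h1, FreeGroup.invRev_append, ← FreeGroup.toWord_inv, ← FreeGroup.toWord_inv]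
  congr 2
  group

private theorem RUN1_inv {σ : List (Lt k)} (hr : FreeGroup.IsReduced σ)
    (h : σ = FreeGroup.invRev σ) : σ = [] := by
  have h1 : (FreeGroup.mk σ : FG k) = (FreeGroup.mk σ)⁻¹ := by
    rw [FreeGroup.inv_mk, ← h]
  have h2 : (FreeGroup.mk σ : FG k) ^ 2 = 1 ^ 2 := by
    rw [pow_two, one_pow]
    nth_rewrite 2 [h1]
    rw [mul_inv_cancel]
  have h3 : (FreeGroup.mk σ : FG k) = 1 := pow_left_injective (by norm_num) h2
  have h4 : (FreeGroup.mk σ : FG k).toWord = [] := by
    rw [h3, FreeGroup.toWord_one]
  rw [FreeGroup.toWord_mk, hr.reduce_eq] at h4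
  exact h4

theorem both_ends {h x : FG k} (h1 : x ≠ 1) (hx : h.toWord <+: x.toWord)
    (hx' : h.toWord <+: (x⁻¹).toWord) :
    x.toWord = h.toWord ++ (h⁻¹ * x * h).toWord ++ (h⁻¹).toWord ∧ h⁻¹ * x * h ≠ 1 := by
  have hA := left_end hx
  have hB := right_end hx'
  have hil : (h⁻¹).toWord.length = h.toWord.length := by
    rw [FreeGroup.toWord_inv, FreeGroup.invRev_length]
  have hlA : x.toWord.length = h.toWord.length + (h⁻¹ * x).toWord.length := by
    rw [← List.length_append, ← hA]
  have hlB : x.toWord.length = (x * h).toWord.length + h.toWord.length := by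
    rw [← hil, ← List.length_append, ← hB]
  have hne : h⁻¹ * x * h ≠ 1 := by
    intro h2
    apply h1
    have h3 : x = h * (h⁻¹ * x * h) * h⁻¹ := by group
    rw [h3, h2]
    group
  refine ⟨?_, hne⟩
  by_cases hlen : 2 * h.toWord.length ≤ x.toWord.length
  · -- no overlap
    have h2 : h.toWord ++ (h⁻¹ * x).toWord = (x * h).toWord ++ (h⁻¹).toWord := by
      rw [← hA, ← hB]
    have h3 : h.toWord <+: (x * h).toWord := by
      have h4 : h.toWord <+: (x * h).toWord ++ (h⁻¹).toWord := by
        rw [← h2]
        exact List.prefix_append _ _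
      exact List.prefix_of_prefix_length_le h4 (List.prefix_append _ _) (by omega)
    have h5 := left_end h3
    rw [hB, h5, mul_assoc h⁻¹ x h]
  · exfalso
    push Not at hlen
    set A := h.toWord with hAdef
    set D := (x * h).toWord with hD
    have hDA : D.length ≤ A.length := by omega
    have h2 : A ++ (h⁻¹ * x).toWord = D ++ FreeGroup.invRev A := by
      rw [← hA, hAdef, ← FreeGroup.toWord_inv, ← hB]
    have h3 : D <+: A := by
      have h4 : D <+: A ++ (h⁻¹ * x).toWord := by
        rw [h2]
        exact List.prefix_append _ _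
      exact List.prefix_of_prefix_length_le h4 (List.prefix_append _ _) hDA
    obtain ⟨σ, hσ⟩ := h3
    rw [← hσ, List.append_assoc, FreeGroup.invRev_append] at h2
    have h5 : σ ++ (h⁻¹ * x).toWord = FreeGroup.invRev σ ++ FreeGroup.invRev D :=
      List.append_cancel_left h2
    have h6 : σ = FreeGroup.invRev σ :=
      List.append_inj_left h5 (by rw [FreeGroup.invRev_length])
    have h7 : FreeGroup.IsReduced σ := by
      have h8 : FreeGroup.IsReduced A := FreeGroup.isReduced_toWord
      rw [← hσ] at h8
      exact red_sub h8 ⟨D, [], by simp⟩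
    have h9 := RUN1_inv h7 h6
    rw [h9, List.append_nil] at hσ
    rw [hσ] at hlB
    omega

end Pool.Agent.GRO
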