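import Pool.Agent.GRO.REL3
import Pool.Agent.GRO.CUT

/-!
# SLD: length change of a slide, effective passages
* `slide_length`: passage by passage (`wrd_countP`, `wrd_length`). For a passage `p → g → q` the new
  label is `a^{-[p ∈ Q]} g a^{[q ∈ Q]}`. If `g = 1`: both in `Q`: nothing changes, exactly one: the
  length grows by 1, the edge `(p, q)` is cut, and it is not an edge between `Q` and `a`. If
  `g ≠ 1`: every end which lies in `Q` contributes `+1`, or `-1` if the first letter of the label,
  read from this end, is `a`. (Left end: `a⁻¹ g`. Right end: the last letter of `a⁻¹ g` is the last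
  letter of `g`, except if `g = a`, where `a⁻¹ g = 1` and the right end contributes `+1` in both
  countings.) The edges of the passage with an end in `Q` are the first one (if `p ∈ Q`) and the
  last one (if `q ∈ Q`), because inner edges have both ends over `Y`.
* `eff`: the passages which are not (empty with both ends in one class).
* `eff_tran`: if `C` has the class `{x | x.1 ∈ Y}` then a passage with `g ≠ 1` has exactly two
  transitions (first and last edge) and an empty one has `[¬ C p q]`.
* `eff_gg`: with `h` constant on classes, `g' i = 1 ∧ C p q ↔ g i = 1 ∧ C p q`.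
-/

set_option autoImplicit false

namespace Pool.Agent.GRO

variable {k : ℕ}

theorem sld_lt_mul (b : Lt k) (g : FG k) :
    (lt b * g).toWord =
      if g.toWord.head? = some (bar b) then g.toWord.tail else b :: g.toWord := by
  have h0 : (lt b * g).toWord = FreeGroup.reduce (b :: g.toWord) := by
    rw [FreeGroup.toWord_mul, lt, FreeGroup.toWord_mk, FreeGroup.reduce_singleton]
    rfl
  rw [h0, FreeGroup.reduce.cons, FreeGroup.reduce_toWord]
  cases hw : g.toWord with
  | nil => simp
  | cons c w =>
    have : (b.1 = c.1 ∧ b.2 = !c.2) ↔ (some c = some (bar b)) := by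
      rw [Option.some_inj, bar, Prod.ext_iff]
      constructor
      · rintro ⟨h1, h2⟩
        exact ⟨h1.symm, by simp [h2]⟩
      · rintro ⟨h1, h2⟩
        refine ⟨h1.symm, ?_⟩
        simp only at h2
        simp [h2]
    simp only [List.head?_cons, List.tail_cons]
    by_cases h : b.1 = c.1 ∧ b.2 = !c.2
    · rw [if_pos h, if_pos (this.1 h)]
    · rw [if_neg h, if_neg (fun hh => h (this.2 hh))]

theorem sld_norm_left (b : Lt k) (g : FG k) :
    (lt b * g).norm + (if g.toWord.head? = some (bar b) then 2 else 0) = g.norm + 1 := by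
  have h := congrArg List.length (sld_lt_mul b g)
  have h1 : (lt b * g).norm = (lt b * g).toWord.length := rfl
  have h2 : g.norm = g.toWord.length := rfl
  rw [h1, h2, h]
  split_ifs with hh
  · cases hw : g.toWord with
    | nil => rw [hw] at hh; simp at hh
    | cons c w => simp
  · simp

theorem sld_head_inv (g : FG k) :
    (g⁻¹).toWord.head? = (g.toWord.getLast?).map bar := by
  rw [FreeGroup.toWord_inv, FreeGroup.invRev, List.head?_reverse, List.getLast?_map]
  rfl

theorem sld_norm_right (a : Lt k) (g : FG k) :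
    (g * lt a).norm + (if g.toWord.getLast? = some (bar a) then 2 else 0) = g.norm + 1 := by
  have h := sld_norm_left (bar a) g⁻¹
  rw [FreeGroup.norm_inv_eq, bar_bar, sld_head_inv] at h
  have h1 : (g * lt a).norm = (lt (bar a) * g⁻¹).norm := by
    rw [← FreeGroup.norm_inv_eq (x := g * lt a), mul_inv_rev, lt_bar]
  rw [h1, ← h]
  congr 2
  apply propext
  constructor
  · intro h; rw [h]; simp [bar_bar]
  · intro h
    rw [Option.map_eq_some_iff] at h
    obtain ⟨x, hx, hx'⟩ := h
    rw [hx, ← hx', bar_bar]

/-- Counting edges of a passage for functions which vanish on inner edges. -/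
theorem sld_count {Y : Finset (Fin k)} (f : Lt k × Lt k → Bool)
    (hf : ∀ x y : Lt k, x.1 ∈ Y → y.1 ∈ Y → f (x, y) = false) (q : Lt k) :
    ∀ (w : List (Lt k)) (c : Lt k) (p : Lt k), (∀ x ∈ c :: w, x.1 ∈ Y) →
      (pe p (c :: w) q).countP f = (if f (p, c) then 1 else 0) +
        (if f (bar ((c :: w).getLast (List.cons_ne_nil _ _)), q) then 1 else 0) := by
  intro w
  induction w with
  | nil =>
    intro c p hw
    by_cases h1 : f (p, c) = true <;> by_cases h2 : f (bar c, q) = true <;>
      simp [pe, List.countP_cons, h1, h2]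
  | cons d w ih =>
    intro c p hw
    have h1 := ih d (bar c) (fun x hx => hw x (List.mem_cons_of_mem _ hx))
    rw [pe, List.countP_cons, h1]
    have h2 : f (bar c, d) = false := hf _ _ (hw c (by simp)) (hw d (by simp))
    rw [h2, List.getLast_cons (List.cons_ne_nil _ _)]
    simp only [Bool.false_eq_true, if_false]
    omega

theorem sld_pass {Y : Finset (Fin k)} (Q : Finset (Lt k)) (hQ : ∀ p ∈ Q, p.1 ∉ Y)
    {a : Lt k} (ha : a.1 ∈ Y) {p q : Lt k} (hp : p.1 ∉ Y) (hq : q.1 ∉ Y) {g : FG k}
    (hg : g ∈ FY Y) :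
    ((onK Q (lt a) p)⁻¹ * g * onK Q (lt a) q).norm +
      2 * ((pe p g.toWord q).countP fun e =>
        decide ((e.1 ∈ Q ∧ e.2 ∈ ({a} : Finset (Lt k))) ∨
          (e.1 ∈ ({a} : Finset (Lt k)) ∧ e.2 ∈ Q))) =
      g.norm + (pe p g.toWord q).countP fun e => decide (e.1 ∈ Q) != decide (e.2 ∈ Q) := by
  classical
  have haQ : ∀ x : Lt k, x.1 ∈ Y → x ∉ Q := fun x hx hx' => hQ x hx' hx
  have hpa : p ≠ a := fun h => hp (h ▸ ha)
  have hqa : q ≠ a := fun h => hq (h ▸ ha)
  rw [mem_FY] at hg
  cases hw : g.toWord with
  | nil =>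
    have hg1 : g = 1 := FreeGroup.toWord_eq_nil_iff.1 hw
    subst hg1
    simp only [pe, List.countP_cons, List.countP_nil, Finset.mem_singleton, hpa, hqa, and_false,
      false_and, or_self, decide_false, Bool.false_eq_true, if_false, mul_one,
      FreeGroup.norm_one, mul_zero, add_zero, zero_add]
    by_cases h1 : p ∈ Q <;> by_cases h2 : q ∈ Q
    · simp [onK, h1, h2]
    · have : (lt a).norm = 1 := by
        have := sld_norm_left a 1
        simpa using this
      simp [onK, h1, h2, this]
    · have : (lt a).norm = 1 := by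
        have := sld_norm_left a 1
        simpa using this
      simp [onK, h1, h2, this]
    · simp [onK, h1, h2]
  | cons c w =>
    rw [hw] at hg
    have hcY : c.1 ∈ Y := hg c (by simp)
    have hlY : ((c :: w).getLast (List.cons_ne_nil _ _)).1 ∈ Y :=
      hg _ (List.getLast_mem _)
    set d := (c :: w).getLast (List.cons_ne_nil _ _) with hd
    have hbd : (bar d).1 ∈ Y := hlY
    rw [sld_count (Y := Y) _ (by
        intro x y hx hy
        simp [haQ x hx, haQ y hy]) q w c p hg,
      sld_count (Y := Y) _ (by
        intro x y hx hy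
        simp [haQ x hx, haQ y hy]) q w c p hg]
    rw [← hd]
    have hlast : g.toWord.getLast? = some d := by
      rw [hw, List.getLast?_eq_some_getLast (List.cons_ne_nil _ _)]
    have hhead : g.toWord.head? = some c := by rw [hw]; rfl
    simp only [Finset.mem_singleton, haQ c hcY, haQ _ hbd, hpa, hqa, and_false, false_and,
      or_false, false_or, decide_eq_true_eq, decide_false, Bool.bne_false, Bool.false_bne]
    have hbar : ∀ x y : Lt k, bar x = y ↔ x = bar y := by
      intro x y
      constructor
      · rintro rfl; rw [bar_bar]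
      · rintro rfl; rw [bar_bar]
    have hL : ∀ x : Lt k, (onK Q (lt a) x) = if x ∈ Q then lt a else 1 := fun x => rfl
    rw [hL, hL]
    by_cases h1 : p ∈ Q <;> by_cases h2 : q ∈ Q
    · simp only [h1, h2, if_true, true_and, and_true]
      rw [← lt_bar]
      have e1 := sld_norm_left (bar a) g
      have e2 := sld_norm_right a (lt (bar a) * g)
      rw [bar_bar, hhead] at e1
      simp only [Option.some_inj] at e1
      have e3 : (lt (bar a) * g).toWord.getLast? = some (bar a) ↔ d = bar a := by
        rw [sld_lt_mul, bar_bar, hhead]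
        simp only [Option.some_inj]
        by_cases hca : c = a
        · rw [if_pos hca, hw, List.tail_cons]
          cases w with
          | nil =>
            have hdc : d = c := by rw [hd]; rfl
            rw [hdc, hca]
            simp [eq_comm, bar_ne]
            exact fun h => bar_ne a h.symm
          | cons c' w' =>
            rw [List.getLast_cons (List.cons_ne_nil _ _)] at hd
            rw [List.getLast?_eq_some_getLast (List.cons_ne_nil _ _), ← hd, Option.some_inj]
        · rw [if_neg hca, List.getLast?_cons, hlast]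
          simp
      rw [if_congr e3 rfl rfl] at e2
      rw [if_congr (hbar d a) rfl rfl]
      split_ifs at e1 e2 ⊢ <;> omega
    · simp only [h1, h2, if_true, if_false, true_and, and_false, mul_one]
      rw [← lt_bar]
      have e1 := sld_norm_left (bar a) g
      rw [bar_bar, hhead] at e1
      simp only [Option.some_inj] at e1
      split_ifs at e1 ⊢ <;> simp_all <;> omega
    · simp only [h1, h2, if_true, if_false, false_and, and_true, inv_one, one_mul]
      have e2 := sld_norm_right a g
      rw [hlast] at e2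
      simp only [Option.some_inj] at e2
      rw [if_congr (hbar d a) rfl rfl]
      split_ifs at e2 ⊢ <;> simp_all <;> omega
    · simp [h1, h2]

theorem slide_length {Y : Finset (Fin k)} {m : ℕ} [NeZero m] {s : Fin m → Lt k}
    {g : Fin m → FG k} (hv : Val Y s g) (Q : Finset (Lt k)) (hQ : ∀ p ∈ Q, p.1 ∉ Y)
    {a : Lt k} (ha : a.1 ∈ Y) :
    (wrd s (gg s g (onK Q (lt a)))).length + 2 * ebt (wrd s g) Q {a} =
      (wrd s g).length + cap (wrd s g) Q := by
  rw [wrd_length, wrd_length, ebt, cap, wrd_countP, wrd_countP, Finset.mul_sum, add_assoc,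
    add_assoc, ← Finset.sum_add_distrib, ← Finset.sum_add_distrib]
  congr 1
  refine Finset.sum_congr rfl fun i _ => ?_
  exact sld_pass Q hQ ha (p := bar (s i)) (q := s (i + 1)) (hv.hs i) (hv.hs (i + 1)) (hv.hg i)

open Classical in
/-- Effective passages. -/
noncomputable def eff (C : Lt k → Lt k → Prop) {m : ℕ} [NeZero m] (s : Fin m → Lt k)
    (g : Fin m → FG k) : Finset (Fin m) :=
  Finset.univ.filter fun i => ¬ (g i = 1 ∧ C (bar (s i)) (s (i + 1)))

open Classical in
theorem sld_eff_pass {C : Lt k → Lt k → Prop} {Y : Finset (Fin k)}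
    (hY : ∀ p q : Lt k, p.1 ∈ Y → (C p q ↔ q.1 ∈ Y)) (hC : Equivalence C) {p q : Lt k}
    (hp : p.1 ∉ Y) (hq : q.1 ∉ Y) {g : FG k} (hg : g ∈ FY Y) :
    (if ¬ (g = 1 ∧ C p q) then 1 else 0) ≤
        (pe p g.toWord q).countP (fun e => decide (¬ C e.1 e.2)) ∧
      (pe p g.toWord q).countP (fun e => decide (¬ C e.1 e.2)) ≤
        2 * (if ¬ (g = 1 ∧ C p q) then 1 else 0) := by
  rw [mem_FY] at hg
  cases hw : g.toWord with
  | nil =>
    have hg1 : g = 1 := FreeGroup.toWord_eq_nil_iff.1 hw
    subst hg1
    by_cases h : C p q <;> simp [pe, h]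
  | cons c w =>
    rw [hw] at hg
    have hg1 : g ≠ 1 := by
      rintro rfl
      simp at hw
    have hcY : c.1 ∈ Y := hg c (by simp)
    have hlY : ((c :: w).getLast (List.cons_ne_nil _ _)).1 ∈ Y :=
      hg _ (List.getLast_mem _)
    rw [sld_count (Y := Y) _ (by
        intro x y hx hy
        simp [(hY x y hx).2 hy]) q w c p hg]
    have n1 : ¬ C p c := fun h => hp ((hY c p hcY).1 (hC.symm h))
    have n2 : ¬ C (bar ((c :: w).getLast (List.cons_ne_nil _ _))) q := fun h =>
      hq ((hY (bar ((c :: w).getLast (List.cons_ne_nil _ _))) q hlY).1 h)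
    simp only [n1, n2, hg1, false_and, not_false_eq_true, decide_true, if_true]
    omega

theorem eff_tran {C : Lt k → Lt k → Prop} {Y : Finset (Fin k)}
    (hY : ∀ p q : Lt k, p.1 ∈ Y → (C p q ↔ q.1 ∈ Y)) (hC : Equivalence C) {m : ℕ} [NeZero m]
    {s : Fin m → Lt k} {g : Fin m → FG k} (hv : Val Y s g) :
    (eff C s g).card ≤ tran C (wrd s g) ∧ tran C (wrd s g) ≤ 2 * (eff C s g).card := by
  classical
  have key := fun i => sld_eff_pass hY hC (p := bar (s i)) (q := s (i + 1)) (hv.hs i)
    (hv.hs (i + 1)) (hv.hg i)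
  have hcard : (eff C s g).card =
      ∑ i, if ¬ (g i = 1 ∧ C (bar (s i)) (s (i + 1))) then 1 else 0 := by
    rw [eff, Finset.card_filter]
  have htr : tran C (wrd s g) = ∑ i, (pe (bar (s i)) (g i).toWord (s (i + 1))).countP
      (fun e => decide (¬ C e.1 e.2)) := by
    rw [tran, wrd_countP]
  rw [hcard, htr]
  constructor
  · exact Finset.sum_le_sum fun i _ => by convert (key i).1
  · rw [Finset.mul_sum]
    exact Finset.sum_le_sum fun i _ => by convert (key i).2

theorem eff_gg {C : Lt k → Lt k → Prop} {m : ℕ} [NeZero m] (s : Fin m → Lt k)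
    (g : Fin m → FG k) {h : Lt k → FG k} (hh : ∀ p q, C p q → h p = h q) :
    eff C s (gg s g h) = eff C s g := by
  classical
  unfold eff
  refine Finset.filter_congr fun i _ => ?_
  apply not_congr
  constructor
  · rintro ⟨h1, h2⟩
    refine ⟨?_, h2⟩
    rw [gg, hh _ _ h2] at h1
    have : g i = h (s (i + 1)) * ((h (s (i + 1)))⁻¹ * g i * h (s (i + 1))) *
      (h (s (i + 1)))⁻¹ := by group
    rw [this, h1]; group
  · rintro ⟨h1, h2⟩
    refine ⟨?_, h2⟩
    rw [gg, hh _ _ h2, h1]; group

theorem tran_gg {C : Lt k → Lt k → Prop} {Y : Finset (Fin k)}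
    (hY : ∀ p q : Lt k, p.1 ∈ Y → (C p q ↔ q.1 ∈ Y)) (hC : Equivalence C) {m : ℕ} [NeZero m]
    {s : Fin m → Lt k} {g : Fin m → FG k} (hv : Val Y s g) {h : Lt k → FG k}
    (hh : ∀ p q, C p q → h p = h q) (hF : ∀ p, h p ∈ FY Y) :
    tran C (wrd s (gg s g h)) ≤ 2 * tran C (wrd s g) := by
  have h1 := (eff_tran hY hC (gg_val hv hF)).2
  have h2 := (eff_tran hY hC hv).1
  rw [eff_gg s g hh] at h1
  omega

end Pool.Agent.GRO
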