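import Pool.Agent.GRO.RUN1
import Pool.Agent.GRO.SLD
import Pool.Agent.GRO.ADJ

/-!
# RUN2: length and transitions under a run
Notation: `g' = gg s g (onK K h)`. For every passage `p = bar (s i)`, `q = s (i+1)`:
* `p, q ∉ K`: `g' i = g i`; `p, q ∈ K`: `g' i = h⁻¹ * g i * h`; `p ∈ K`, `q ∉ K`: `g' i = h⁻¹ * g i`;
  `p ∉ K`, `q ∈ K`: `g' i = g i * h`. Empty labels: by `hK` both or none of the ends are in `K` and
  the label stays empty. Nonempty labels with an end in `K`: `hh` applies; use `left_end`,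
  `right_end`, `both_ends`.
* Length: `|g i| - |g' i| = |h| * ([p ∈ K] + [q ∈ K])` for `g i ≠ 1`, and the number of edges of the
  passage cut by `K` is `[p ∈ K] + [q ∈ K]` (first and last edge), `0` for empty labels.
* Transitions: `2` for a nonempty label, `[¬ C p q]` for an empty one.
-/

set_option autoImplicit false

namespace Pool.Agent.GRO

variable {k : ℕ}

theorem run_cases {Y : Finset (Fin k)} {m : ℕ} [NeZero m] {s : Fin m → Lt k} {g : Fin m → FG k}
    (hv : Val Y s g) {K : Finset (Lt k)} {h : FG k}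
    (hK : ∀ i, g i = 1 → (bar (s i) ∈ K ↔ s (i + 1) ∈ K))
    (h1 : ∀ i, bar (s i) ∈ K → g i ≠ 1 → h.toWord <+: (g i).toWord)
    (h2 : ∀ i, s (i + 1) ∈ K → g i ≠ 1 → h.toWord <+: ((g i)⁻¹).toWord) (i : Fin m) :
    (g i = 1 → gg s g (onK K h) i = 1) ∧
    (bar (s i) ∉ K → s (i + 1) ∉ K → gg s g (onK K h) i = g i) ∧
    (bar (s i) ∈ K → s (i + 1) ∉ K → gg s g (onK K h) i = h⁻¹ * g i ∧
      (g i).toWord = h.toWord ++ (gg s g (onK K h) i).toWord) ∧
    (bar (s i) ∉ K → s (i + 1) ∈ K → gg s g (onK K h) i = g i * h ∧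
      (g i).toWord = (gg s g (onK K h) i).toWord ++ (h⁻¹).toWord) ∧
    (bar (s i) ∈ K → s (i + 1) ∈ K → g i ≠ 1 → gg s g (onK K h) i = h⁻¹ * g i * h ∧
      gg s g (onK K h) i ≠ 1 ∧
      (g i).toWord = h.toWord ++ (gg s g (onK K h) i).toWord ++ (h⁻¹).toWord) := by
  have hgg : gg s g (onK K h) i = (onK K h (bar (s i)))⁻¹ * g i * onK K h (s (i + 1)) := rfl
  refine ⟨?_, ?_, ?_, ?_, ?_⟩
  · intro hg
    have h3 := hK i hg
    rw [hgg, hg]
    by_cases hb : bar (s i) ∈ K
    · have hb' := h3.1 hb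
      simp [onK, hb, hb']
    · have hb' : s (i + 1) ∉ K := fun h4 => hb (h3.2 h4)
      simp [onK, hb, hb']
  · intro hp hq
    rw [hgg]
    simp [onK, hp, hq]
  · intro hp hq
    have hne : g i ≠ 1 := fun h3 => hq ((hK i h3).1 hp)
    have e : gg s g (onK K h) i = h⁻¹ * g i := by
      rw [hgg]
      simp [onK, hp, hq]
    rw [e]
    exact ⟨rfl, left_end (h1 i hp hne)⟩
  · intro hp hq
    have hne : g i ≠ 1 := fun h3 => hp ((hK i h3).2 hq)
    have e : gg s g (onK K h) i = g i * h := by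
      rw [hgg]
      simp [onK, hp, hq]
    rw [e]
    exact ⟨rfl, right_end (h2 i hq hne)⟩
  · intro hp hq hne
    have e : gg s g (onK K h) i = h⁻¹ * g i * h := by
      rw [hgg]
      simp [onK, hp, hq]
    rw [e]
    have h3 := both_ends hne (h1 i hp hne) (h2 i hq hne)
    exact ⟨rfl, h3.2, h3.1⟩

theorem run2_count_in {Y : Finset (Fin k)} {K : Finset (Lt k)} (hKY : ∀ p ∈ K, p.1 ∉ Y)
    (q : Lt k) : ∀ (w : List (Lt k)) (p : Lt k), p.1 ∈ Y → (∀ a ∈ w, a.1 ∈ Y) →
    (pe p w q).countP (fun e => decide (e.1 ∈ K) != decide (e.2 ∈ K)) =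
      if q ∈ K then 1 else 0 := by
  intro w
  induction w with
  | nil =>
    intro p hp _
    have hpK : p ∉ K := fun h => hKY p h hp
    by_cases hq : q ∈ K <;> simp [pe, hpK, hq]
  | cons c w ih =>
    intro p hp hw
    have hpK : p ∉ K := fun h => hKY p h hp
    have hc : c.1 ∈ Y := hw c (by simp)
    have hcK : c ∉ K := fun h => hKY c h hc
    have h1 := ih (bar c) hc (fun a ha => hw a (by simp [ha]))
    simp only [pe, List.countP_cons, hpK, hcK]
    rw [h1]
    simp

theorem run2_count {Y : Finset (Fin k)} {K : Finset (Lt k)} (hKY : ∀ p ∈ K, p.1 ∉ Y)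
    (p q : Lt k) {w : List (Lt k)} (hw : ∀ a ∈ w, a.1 ∈ Y) (hne : w ≠ []) :
    (pe p w q).countP (fun e => decide (e.1 ∈ K) != decide (e.2 ∈ K)) =
      (if p ∈ K then 1 else 0) + if q ∈ K then 1 else 0 := by
  cases w with
  | nil => exact absurd rfl hne
  | cons c w =>
    have hc : c.1 ∈ Y := hw c (by simp)
    have hcK : c ∉ K := fun h => hKY c h hc
    have h1 := run2_count_in hKY q w (bar c) hc (fun a ha => hw a (by simp [ha]))
    simp only [pe, List.countP_cons, hcK]
    rw [h1]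
    by_cases hp : p ∈ K <;> simp [hp, add_comm]

theorem run_length {Y : Finset (Fin k)} {m : ℕ} [NeZero m] {s : Fin m → Lt k}
    {g : Fin m → FG k} (hv : Val Y s g) {K : Finset (Lt k)} (hKY : ∀ p ∈ K, p.1 ∉ Y) {h : FG k}
    (hh : h ∈ FY Y) (hK : ∀ i, g i = 1 → (bar (s i) ∈ K ↔ s (i + 1) ∈ K))
    (h1 : ∀ i, bar (s i) ∈ K → g i ≠ 1 → h.toWord <+: (g i).toWord)
    (h2 : ∀ i, s (i + 1) ∈ K → g i ≠ 1 → h.toWord <+: ((g i)⁻¹).toWord) :
    (wrd s (gg s g (onK K h))).length + h.norm * cap (wrd s g) K = (wrd s g).length := by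
  have hcap : cap (wrd s g) K = ∑ i, (pe (bar (s i)) (g i).toWord (s (i + 1))).countP
      (fun e => decide (e.1 ∈ K) != decide (e.2 ∈ K)) := by
    unfold cap
    exact wrd_countP s g _
  rw [wrd_length, wrd_length, hcap, Finset.mul_sum, add_assoc, ← Finset.sum_add_distrib]
  congr 1
  apply Finset.sum_congr rfl
  intro i _
  obtain ⟨c1, c2, c3, c4, c5⟩ := run_cases hv hK h1 h2 i
  by_cases hg : g i = 1
  · rw [c1 hg, hg, pe_one]
    have h3 := hK i hg
    by_cases hb : bar (s i) ∈ K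
    · have hb' := h3.1 hb
      simp [hb, hb']
    · have hb' : s (i + 1) ∉ K := fun h4 => hb (h3.2 h4)
      simp [hb, hb']
  · have hw : ∀ a ∈ (g i).toWord, a.1 ∈ Y := (mem_FY Y (g i)).1 (hv.hg i)
    have hwne : (g i).toWord ≠ [] := by
      rw [ne_eq, FreeGroup.toWord_eq_nil_iff]
      exact hg
    rw [run2_count hKY _ _ hw hwne]
    by_cases hp : bar (s i) ∈ K
    · by_cases hq : s (i + 1) ∈ K
      · obtain ⟨_, _, e⟩ := c5 hp hq hg
        have h3 : (g i).norm = h.norm + (gg s g (onK K h) i).norm + h.norm := by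
          have h4 : (g i).norm = (g i).toWord.length := rfl
          rw [h4, e, List.length_append, List.length_append]
          have h5 : (h⁻¹).toWord.length = h.norm := FreeGroup.norm_inv_eq
          rw [h5]
          rfl
        rw [if_pos hp, if_pos hq, h3]
        ring
      · obtain ⟨_, e⟩ := c3 hp hq
        have h3 : (g i).norm = h.norm + (gg s g (onK K h) i).norm := by
          have h4 : (g i).norm = (g i).toWord.length := rfl
          rw [h4, e, List.length_append]
          rfl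
        rw [if_pos hp, if_neg hq, h3]
        ring
    · by_cases hq : s (i + 1) ∈ K
      · obtain ⟨_, e⟩ := c4 hp hq
        have h3 : (g i).norm = (gg s g (onK K h) i).norm + h.norm := by
          have h4 : (g i).norm = (g i).toWord.length := rfl
          rw [h4, e, List.length_append]
          have h5 : (h⁻¹).toWord.length = h.norm := FreeGroup.norm_inv_eq
          rw [h5]
          rfl
        rw [if_neg hp, if_pos hq, h3]
        ring
      · rw [c2 hp hq, if_neg hp, if_neg hq]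
        ring

open Classical in
theorem run2_tran_in {C : Lt k → Lt k → Prop} {Y : Finset (Fin k)}
    (hY : ∀ p q : Lt k, p.1 ∈ Y → (C p q ↔ q.1 ∈ Y)) {q : Lt k} (hq : q.1 ∉ Y) :
    ∀ (w : List (Lt k)) (p : Lt k), p.1 ∈ Y → (∀ a ∈ w, a.1 ∈ Y) →
    (pe p w q).countP (fun e => decide (¬ C e.1 e.2)) = 1 := by
  intro w
  induction w with
  | nil =>
    intro p hp _
    have h1 : ¬ C p q := fun h => hq ((hY p q hp).1 h)
    simp [pe, h1]
  | cons c w ih =>
    intro p hp hw
    have hc : c.1 ∈ Y := hw c (by simp)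
    have h1 := ih (bar c) hc (fun a ha => hw a (by simp [ha]))
    have h2 : C p c := (hY p c hp).2 hc
    simp only [pe, List.countP_cons]
    rw [h1]
    simp [h2]

open Classical in
theorem run2_tran_two {C : Lt k → Lt k → Prop} {Y : Finset (Fin k)}
    (hY : ∀ p q : Lt k, p.1 ∈ Y → (C p q ↔ q.1 ∈ Y)) (hC : Equivalence C) {p q : Lt k}
    (hp : p.1 ∉ Y) (hq : q.1 ∉ Y) {w : List (Lt k)} (hw : ∀ a ∈ w, a.1 ∈ Y) (hne : w ≠ []) :
    (pe p w q).countP (fun e => decide (¬ C e.1 e.2)) = 2 := by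
  cases w with
  | nil => exact absurd rfl hne
  | cons c w =>
    have hc : c.1 ∈ Y := hw c (by simp)
    have h1 := run2_tran_in hY hq w (bar c) hc (fun a ha => hw a (by simp [ha]))
    have h2 : ¬ C p c := fun h => hp ((hY c p hc).1 (hC.symm h))
    simp only [pe, List.countP_cons]
    rw [h1]
    simp [h2]

open Classical in
theorem run2_tran_one {C : Lt k → Lt k → Prop} (p q : Lt k) :
    (pe p [] q).countP (fun e => decide (¬ C e.1 e.2)) ≤ 1 := by
  simp only [pe]
  exact List.countP_le_length.trans (by simp)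

theorem run_tran {C : Lt k → Lt k → Prop} {Y : Finset (Fin k)}
    (hY : ∀ p q : Lt k, p.1 ∈ Y → (C p q ↔ q.1 ∈ Y)) (hC : Equivalence C) {m : ℕ} [NeZero m]
    {s : Fin m → Lt k} {g g' : Fin m → FG k} (hv : Val Y s g) (hv' : Val Y s g')
    (h : ∀ i, g i = 1 → g' i = 1) :
    tran C (wrd s g') ≤ tran C (wrd s g) ∧
      ((∃ i, g i ≠ 1 ∧ g' i = 1) → tran C (wrd s g') < tran C (wrd s g)) := by
  classical
  have hc : ∀ (f : Fin m → FG k), tran C (wrd s f) =
      ∑ i, (pe (bar (s i)) (f i).toWord (s (i + 1))).countP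
        (fun e => decide (¬ C e.1 e.2)) := by
    intro f
    unfold tran
    exact wrd_countP s f _
  have two : ∀ (f : Fin m → FG k), Val Y s f → ∀ i, f i ≠ 1 →
      (pe (bar (s i)) (f i).toWord (s (i + 1))).countP (fun e => decide (¬ C e.1 e.2)) = 2 := by
    intro f hf i hi
    refine run2_tran_two hY hC (p := bar (s i)) (hf.hs i) (hf.hs (i + 1))
      ((mem_FY Y (f i)).1 (hf.hg i)) ?_
    rw [ne_eq, FreeGroup.toWord_eq_nil_iff]
    exact hi
  have one : ∀ (f : Fin m → FG k) (i : Fin m), f i = 1 →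
      (pe (bar (s i)) (f i).toWord (s (i + 1))).countP (fun e => decide (¬ C e.1 e.2)) ≤ 1 := by
    intro f i hi
    rw [hi, FreeGroup.toWord_one]
    exact run2_tran_one _ _
  have hle : ∀ i, (pe (bar (s i)) (g' i).toWord (s (i + 1))).countP
        (fun e => decide (¬ C e.1 e.2)) ≤
      (pe (bar (s i)) (g i).toWord (s (i + 1))).countP (fun e => decide (¬ C e.1 e.2)) := by
    intro i
    by_cases hi : g i = 1
    · rw [h i hi, hi]
    · rw [two g hv i hi]
      by_cases hi' : g' i = 1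
      · have := one g' i hi'
        omega
      · rw [two g' hv' i hi']
  rw [hc, hc]
  refine ⟨Finset.sum_le_sum fun i _ => hle i, ?_⟩
  rintro ⟨i, hi, hi'⟩
  refine Finset.sum_lt_sum (fun i _ => hle i) ⟨i, Finset.mem_univ i, ?_⟩
  rw [two g hv i hi]
  have := one g' i hi'
  omega

end Pool.Agent.GRO
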