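import Pool.Agent.GRO.RUN2
import Pool.Agent.GRO.NAC

/-!
# RUN3: a run without vanishing labels makes the number of all-agree pairs smaller
Let `Y = Yb C y0`, `g' = gg s g (onK K h)`, `l = wrd s g`, `v = wrd s g'`. Apply `nac` with
* `h1`: `adj_out`: the empty labels are the same (`hnv`, `run_cases`).
* `h2`: `adj_lv`: `x` is adjacent to `Y` iff a nonempty passage leaves `x`.
* `h3`: if `x ∉ K`: a nonempty passage leaving `x` has the same first letter in `g` and `g'`: by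
  `run_cases` the label is unchanged or `(g i).toWord = (g' i).toWord ++ (h⁻¹).toWord` read from
  `x`, and `g' i ≠ 1`.
* `hv0`: reachability for `v` is the same as for `l` (`h1`), so the component of `x0` is `K`. By
  `hmax` two passages leave `K` in `g'` with different first letters `c ≠ c'`.
-/

set_option autoImplicit false

namespace Pool.Agent.GRO

variable {k : ℕ}

private theorem run3_ne {x : FG k} : (∃ c, x.toWord.head? = some c) ↔ x ≠ 1 := by
  rw [← Option.isSome_iff_exists, List.isSome_head?, ne_eq, ne_eq, FreeGroup.toWord_eq_nil_iff]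

private theorem run3_ex {Y : Finset (Fin k)} {m : ℕ} [NeZero m] {s : Fin m → Lt k}
    {g : Fin m → FG k} (hv : Val Y s g) {x : Lt k} (hx : x.1 ∉ Y) :
    (∃ c : Lt k, c.1 ∈ Y ∧ Adj (wrd s g) x c) ↔
      ∃ i, g i ≠ 1 ∧ (x = bar (s i) ∨ x = s (i + 1)) := by
  constructor
  · rintro ⟨c, hc, hA⟩
    rw [adj_lv hv hx hc] at hA
    obtain ⟨i, ⟨h1, h2⟩ | ⟨h1, h2⟩⟩ := hA
    · exact ⟨i, run3_ne.1 ⟨c, h2⟩, Or.inl h1⟩
    · exact ⟨i, fun e => run3_ne.1 ⟨c, h2⟩ (by rw [e, inv_one]), Or.inr h1⟩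
  · rintro ⟨i, hg, h1 | h1⟩
    · obtain ⟨c, hc⟩ := run3_ne.2 hg
      have hL : Lv s g x c := ⟨i, Or.inl ⟨h1, hc⟩⟩
      exact ⟨c, (lv_mem hv hL).1, (adj_lv hv hx (lv_mem hv hL).1).2 hL⟩
    · obtain ⟨c, hc⟩ := run3_ne.2 (inv_ne_one.2 hg)
      have hL : Lv s g x c := ⟨i, Or.inr ⟨h1, hc⟩⟩
      exact ⟨c, (lv_mem hv hL).1, (adj_lv hv hx (lv_mem hv hL).1).2 hL⟩

private theorem run3_head {x y z : FG k} (h : x.toWord = y.toWord ++ z.toWord) (hy : y ≠ 1) :
    x.toWord.head? = y.toWord.head? := by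
  rw [h, List.head?_append_of_ne_nil]
  exact fun e => hy (FreeGroup.toWord_eq_nil_iff.1 e)

theorem run_na {C : Lt k → Lt k → Prop} (hC : Str C) {y0 : Fin k} (hy : C (y0, true) (y0, false))
    {m : ℕ} [NeZero m] {s : Fin m → Lt k} {g : Fin m → FG k} (hv : Val (Yb C y0) s g)
    {x0 : Lt k} (hx : AA C (Yb C y0) (wrd s g) x0) {K : Finset (Lt k)}
    (hK : ∀ x, x ∈ K ↔ Relation.ReflTransGen (StY C (Yb C y0) (wrd s g)) x0 x) {h : FG k}
    (hh : h ∈ FY (Yb C y0))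
    (h1 : ∀ i, bar (s i) ∈ K → g i ≠ 1 → h.toWord <+: (g i).toWord)
    (h2 : ∀ i, s (i + 1) ∈ K → g i ≠ 1 → h.toWord <+: ((g i)⁻¹).toWord)
    (hnv : ∀ i, g i ≠ 1 → gg s g (onK K h) i ≠ 1)
    (hmax : ∃ q ∈ K, ∃ q' ∈ K, ∃ c c', c ≠ c' ∧ Lv s (gg s g (onK K h)) q c ∧
      Lv s (gg s g (onK K h)) q' c') :
    NA C (wrd s (gg s g (onK K h))) < NA C (wrd s g) := by
  have hv' : Val (Yb C y0) s (gg s g (onK K h)) := gg_val hv (onK_mem K hh)
  have hKY : ∀ x ∈ K, x.1 ∉ Yb C y0 := by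
    intro x hxK
    have hr := (hK x).1 hxK
    rcases Relation.ReflTransGen.cases_tail hr with e | ⟨z, _, hz⟩
    · rw [e]; exact hx.1
    · exact hz.2.1
  have hst : ∀ {x y : Lt k}, StY C (Yb C y0) (wrd s g) x y → x ∈ K → y ∈ K := by
    intro x y hs hxK
    exact (hK y).2 (((hK x).1 hxK).tail hs)
  have hKe : ∀ i, g i = 1 → (bar (s i) ∈ K ↔ s (i + 1) ∈ K) := by
    intro i hi
    have n1 : (bar (s i)).1 ∉ Yb C y0 := hv.hs i
    have n2 : (s (i + 1)).1 ∉ Yb C y0 := hv.hs (i + 1)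
    constructor
    · exact hst ⟨n1, n2, Or.inr ((adj_out hv n1 n2).2 ⟨i, hi, Or.inl ⟨rfl, rfl⟩⟩)⟩
    · exact hst ⟨n2, n1, Or.inr ((adj_out hv n2 n1).2 ⟨i, hi, Or.inr ⟨rfl, rfl⟩⟩)⟩
  have hc := run_cases hv hKe h1 h2
  have hone : ∀ i, g i = 1 ↔ gg s g (onK K h) i = 1 :=
    fun i => ⟨(hc i).1, fun e => by_contra fun e' => hnv i e' e⟩
  have H1 : ∀ x y : Lt k, x.1 ∉ Yb C y0 → y.1 ∉ Yb C y0 →
      (Adj (wrd s g) x y ↔ Adj (wrd s (gg s g (onK K h))) x y) := by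
    intro x y hx hy
    rw [adj_out hv hx hy, adj_out hv' hx hy]
    exact exists_congr fun i => and_congr_left fun _ => hone i
  have H3 : ∀ x c : Lt k, x.1 ∉ Yb C y0 →
      ¬ Relation.ReflTransGen (StY C (Yb C y0) (wrd s g)) x0 x →
      c.1 ∈ Yb C y0 → (Adj (wrd s g) x c ↔ Adj (wrd s (gg s g (onK K h))) x c) := by
    intro x c hxY hxr hcY
    have hxK : x ∉ K := fun e => hxr ((hK x).1 e)
    rw [adj_lv hv hxY hcY, adj_lv hv' hxY hcY]
    unfold Lv
    refine exists_congr fun i => or_congr (and_congr_right fun hxi => ?_)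
      (and_congr_right fun hxi => ?_)
    · rw [hxi] at hxK
      by_cases hq : s (i + 1) ∈ K
      · by_cases hg : g i = 1
        · rw [hg, (hone i).1 hg]
        · rw [run3_head ((hc i).2.2.2.1 hxK hq).2 (hnv i hg)]
      · rw [(hc i).2.1 hxK hq]
    · rw [hxi] at hxK
      by_cases hq : bar (s i) ∈ K
      · by_cases hg : g i = 1
        · rw [hg, (hone i).1 hg]
        · have e := ((hc i).2.2.1 hq hxK).2
          have e' : ((g i)⁻¹).toWord = ((gg s g (onK K h) i)⁻¹).toWord ++ (h⁻¹).toWord := by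
            rw [FreeGroup.toWord_inv, FreeGroup.toWord_inv, FreeGroup.toWord_inv, e,
              FreeGroup.invRev_append]
          rw [run3_head e' (inv_ne_one.2 (hnv i hg))]
      · rw [(hc i).2.1 hq hxK]
  refine nac hC hy H1 ?_ H3 hx ?_
  · intro x hxY
    rw [run3_ex hv hxY, run3_ex hv' hxY]
    exact exists_congr fun i => and_congr_left fun _ => not_congr (hone i)
  · rintro ⟨_, a, _, _, hall⟩
    obtain ⟨q, hq, q', hq', c, c', hcc, hL, hL'⟩ := hmax
    have hreach : ∀ z ∈ K, Relation.ReflTransGen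
        (StY C (Yb C y0) (wrd s (gg s g (onK K h)))) x0 z := by
      intro z hz
      have hle : StY C (Yb C y0) (wrd s g) ≤
          StY C (Yb C y0) (wrd s (gg s g (onK K h))) := by
        rintro u w ⟨hu, hw, h5⟩
        exact ⟨hu, hw, h5.imp id (H1 u w hu hw).1⟩
      exact Relation.ReflTransGen.mono hle x0 z ((hK z).1 hz)
    have m1 := lv_mem hv' hL
    have m2 := lv_mem hv' hL'
    have e1 := hall q c (hreach q hq) m1.1 ((adj_lv hv' m1.2 m1.1).2 hL)
    have e2 := hall q' c' (hreach q' hq') m2.1 ((adj_lv hv' m2.2 m2.1).2 hL')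
    exact hcc (e1.trans e2.symm)

end Pool.Agent.GRO
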