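import Pool.Agent.GRO.SIG2
import Pool.Agent.GRO.SLD

/-!
# SIG: existence of a sign function with few separated passages
`Y = Yb C y`, `l = wrd s g`, `u = mk l`, `a0` = any letter (e.g. `s 0`). `τ V := V ∈ E` and
`σ V p := (∃ q, C p q ∧ ((∃ j, Lz a0 l j = q ∧ EndP E u (V * (Pz l j)⁻¹)) ∨
  (∃ j, bar (Lz a0 l (j-1)) = q ∧ EndM E u (V * (Pz l j)⁻¹)))) ∨ ((∀ q, C p q → ¬ Used l q) ∧ V ∈ E)`.
It depends only on the class of `p`.
* Tame with the same `ρ`: `TameE` for `τ`. For `σ U p`, `U` beginning with `V`, `ρ ≤ |V|`: for `q` in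
  the class of `p`, `(U * lt q).norm = U.norm + 1` (`norm_port`), and `deep_pre`, `deep_back` show that
  all lines through `(U, q)` have the sign `U * lt q ∈ E`, i.e. `V ∈ E`. (If some `q` of the class is
  used, there is such a line by `used_Lz`.)
* The two sets are infinite by `HasE`.
* Separated passages. `(V, p)` is called good if there is `ε` with `∀ q, C p q → AllSg E a0 l V q ε`;
  then `σ V q ↔ ε` for all used `q` in the class. If `(V, p)` is not good, `unmixed` gives `h` with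
  `∀ j, InOm V (C p) (h * Pz l j)` and `¬ (EndP ↔ EndM)`, i.e. the coset of `h` is in `SepE E u`
  (`sep_coset`); choose `F V p := ` this coset. By `om_disj`: `F V p = F V' p'` implies `V = V'`
  (the lines of `h` and `h'` in the same coset have the same vertices, `coset_iff`, `Pz_add_mul`).
  A separated passage `(V, i)` (`V ∈ FY Y`) is effective: `i ∈ eff C s g` (if `g i = 1` and
  `C (bar (s i)) (s (i+1))` the signs agree). Three cases: (1) `(V, bar (s i))` not good: map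
  `(V, i) ↦ (F V (bar (s i)), i) ∈ SepE × eff`, injective; (2) `(V * g i, s (i+1))` not good: map
  `(V, i) ↦ (F (V * g i) (s (i+1)), i)`, injective; (3) both good: by `pl_ends` the line of the
  passage is separated: `(V, i) ↦ ` coset of `pl s g V i`, injective by `pl_inj`. So the number of
  separated passages is at most `c0 + 2 * c0 * card eff ≤ c0 + 2 * c0 * M` (`eff_tran`), and finite.
-/

set_option autoImplicit false

open Filter

namespace Pool.Agent.GRO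

variable {k : ℕ}

/-- lines through `(V, q)` with sign true -/
private def SIG_LS (E : Set (FG k)) (a0 : Lt k) (l : List (Lt k)) (V : FG k) (q : Lt k) : Prop :=
  (∃ j : ℤ, Lz a0 l j = q ∧ EndP E (FreeGroup.mk l) (V * (Pz l j)⁻¹)) ∨
    (∃ j : ℤ, bar (Lz a0 l (j - 1)) = q ∧ EndM E (FreeGroup.mk l) (V * (Pz l j)⁻¹))

/-- the sign of the port `p` at `V` -/
private def SIG_s (C : Lt k → Lt k → Prop) (E : Set (FG k)) (a0 : Lt k) (l : List (Lt k))
    (V : FG k) (p : Lt k) : Prop :=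
  (∃ q, C p q ∧ SIG_LS E a0 l V q) ∨ ((∀ q, C p q → ¬ Used l q) ∧ V ∈ E)

private theorem SIG_LS_used {E : Set (FG k)} {a0 : Lt k} {l : List (Lt k)} (hl : l ≠ [])
    {V : FG k} {q : Lt k} (h : SIG_LS E a0 l V q) : Used l q := by
  rw [used_Lz a0 hl]
  rcases h with ⟨j, h, _⟩ | ⟨j, h, _⟩
  · exact ⟨j, Or.inl h⟩
  · exact ⟨j, Or.inr h⟩

private theorem SIG_cls {C : Lt k → Lt k → Prop} (hC : Equivalence C) {E : Set (FG k)} {a0 : Lt k}
    {l : List (Lt k)} {V : FG k} {p p' : Lt k} (h : C p p') :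
    SIG_s C E a0 l V p ↔ SIG_s C E a0 l V p' := by
  have h1 : ∀ q, C p q ↔ C p' q := fun q =>
    ⟨fun h2 => hC.trans (hC.symm h) h2, fun h2 => hC.trans h h2⟩
  simp only [SIG_s, h1]

private theorem SIG_good {C : Lt k → Lt k → Prop} {E : Set (FG k)} {a0 : Lt k}
    {l : List (Lt k)} (hl : l ≠ []) {V : FG k} {p : Lt k} {ε : Prop}
    (H : ∀ q, C p q → AllSg E a0 l V q ε) (hu : ∃ q, C p q ∧ Used l q) :
    SIG_s C E a0 l V p ↔ ε := by
  constructor
  · rintro (⟨q, h1, ⟨j, h2, h3⟩ | ⟨j, h2, h3⟩⟩ | ⟨h1, _⟩)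
    · exact ((H q h1).1 j h2).1 h3
    · exact ((H q h1).2 j h2).1 h3
    · obtain ⟨q, h2, h3⟩ := hu
      exact absurd h3 (h1 q h2)
  · intro hε
    obtain ⟨q, h1, h2⟩ := hu
    rw [used_Lz a0 hl] at h2
    refine Or.inl ⟨q, h1, ?_⟩
    obtain ⟨j, h3 | h3⟩ := h2
    · exact Or.inl ⟨j, h3, ((H q h1).1 j h3).2 hε⟩
    · exact Or.inr ⟨j, h3, ((H q h1).2 j h3).2 hε⟩

private theorem SIG_out {C : Lt k → Lt k → Prop} (hC : Str C) {y : Fin k}
    (hy : C (y, true) (y, false)) {p q : Lt k} (hp : p.1 ∉ Yb C y) (h : C p q) :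
    q.1 ∉ Yb C y := fun hq => hp ((Yb_spec hC hy q p hq).1 (hC.eqv.symm h))

private theorem SIG_tame {C : Lt k → Lt k → Prop} (hC : Str C) {y : Fin k}
    (hy : C (y, true) (y, false)) {l : List (Lt k)} (hl : CR l) (a0 : Lt k) {E : Set (FG k)} {ρ : ℕ}
    (hE : TameE E ρ) : TameS (Yb C y) (SIG_s C E a0 l) (fun V => V ∈ E) ρ := by
  intro V hV hρ U hU hpre
  refine ⟨hE V U hρ hpre, ?_⟩
  intro p hp
  have hUV := hE V U hρ hpre
  by_cases hu : ∃ q, C p q ∧ Used l q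
  · refine SIG_good hl.2 ?_ hu
    intro q hq
    have hq1 := SIG_out hC hy hp hq
    obtain ⟨n1, n2⟩ := norm_port hU hq1
    have hle : V.norm ≤ U.norm := hpre.length_le
    have n3 : ρ ≤ (U * lt q).norm := by omega
    have h4 : U * lt q ∈ E ↔ V ∈ E := by
      refine hE V (U * lt q) hρ ?_
      rw [n2]
      exact hpre.trans (List.prefix_append _ _)
    constructor
    · intro j hj
      rw [← hj] at n1 n3 h4
      exact (deep_pre a0 hl hE U j n1 n3).trans h4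
    · intro j hj
      rw [← hj] at n1 n3 h4
      exact (deep_back a0 hl hE U j n1 n3).trans h4
  · have hu' : ∀ q, C p q → ¬ Used l q := fun q h1 h2 => hu ⟨q, h1, h2⟩
    constructor
    · rintro (⟨q, h1, h2⟩ | ⟨_, h2⟩)
      · exact absurd (SIG_LS_used hl.2 h2) (hu' q h1)
      · exact hUV.1 h2
    · intro h
      exact Or.inr ⟨hu', hUV.2 h⟩

theorem sig {C : Lt k → Lt k → Prop} (hC : Str C) {T M c0 : ℕ} {y : Fin k}
    (hy : C (y, true) (y, false)) {m : ℕ} [NeZero m] {s : Fin m → Lt k} {g : Fin m → FG k}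
    (hv : Val (Yb C y) s g) (hI : I3 C T (wrd s g)) (hN : NC (wrd s g)) (hZ : ZC (wrd s g))
    (hM : tran C (wrd s g) ≤ M) (hT : 2 * M < T) {E : Set (FG k)} {ρ : ℕ}
    (HE : HasE (Yb C y) (FreeGroup.mk (wrd s g)) c0 E ρ) :
    HasSgn (Yb C y) s g (c0 + 2 * c0 * M) := by
  classical
  obtain ⟨hE, hi1, hi2, hfin, hcard⟩ := HE
  set l := wrd s g with hldef
  have hl : CR l := wrd_CR hv
  set a0 : Lt k := s 0 with ha0
  set Y := Yb C y with hYdef
  have heff : (eff C s g).card ≤ M :=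
    (eff_tran (Yb_spec hC hy) hC.eqv hv).1.trans hM
  -- bad ports
  have hbad : ∀ (V : FG k) (p : Lt k), V ∈ FY Y → p.1 ∉ Y →
      ¬ (∃ ε : Prop, ∀ q, C p q → AllSg E a0 l V q ε) →
      ∃ h : FG k, (∀ j : ℤ, InOm V (C p) (h * Pz l j)) ∧
        (h : FG k ⧸ Subgroup.zpowers (FreeGroup.mk l)) ∈ SepE E (FreeGroup.mk l) := by
    intro V p hV hp hb
    by_contra hcon
    apply hb
    refine unmixed a0 hC hy hl hI hN hZ hM hT hE hV hp ?_
    intro h hh
    by_contra h2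
    exact hcon ⟨h, hh, sep_coset.2 h2⟩
  set bad : FG k → Lt k → Prop := fun V p =>
    V ∈ FY Y ∧ p.1 ∉ Y ∧ ¬ (∃ ε : Prop, ∀ q, C p q → AllSg E a0 l V q ε) with hbaddef
  have hF : ∀ x : FG k × Lt k, ∃ h : FG k, bad x.1 x.2 →
      (∀ j : ℤ, InOm x.1 (C x.2) (h * Pz l j)) ∧
        (h : FG k ⧸ Subgroup.zpowers (FreeGroup.mk l)) ∈ SepE E (FreeGroup.mk l) := by
    intro x
    by_cases hx : bad x.1 x.2
    · obtain ⟨h, h1, h2⟩ := hbad x.1 x.2 hx.1 hx.2.1 hx.2.2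
      exact ⟨h, fun _ => ⟨h1, h2⟩⟩
    · exact ⟨1, fun h => absurd h hx⟩
  choose F hF1 using hF
  have hFinj : ∀ V p V' p', bad V p → bad V' p' →
      ((F (V, p) : FG k) : FG k ⧸ Subgroup.zpowers (FreeGroup.mk l)) = (F (V', p') : FG k) →
      V = V' := by
    intro V p V' p' hb hb' he
    rw [coset_iff hl] at he
    obtain ⟨n, hn⟩ := he
    have H := (hF1 (V, p) hb).1
    have H' := (hF1 (V', p') hb').1
    refine om_disj hl hb.1 hb'.1 (A := C p) (A' := C p') (fun q hq => SIG_out hC hy hb.2.1 hq)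
      (fun q hq => SIG_out hC hy hb'.2.1 hq) (h := F (V, p)) H ?_
    intro j
    have h1 := H' (j - n * l.length)
    have h2 : F (V', p') * Pz l (j - n * l.length) = F (V, p) * Pz l j := by
      rw [hn, mul_assoc, Pz_mul hl.2, ← Pz_add_mul hl.2]
      congr 2
      ring
    rw [h2] at h1
    exact h1
  -- ports are used
  have hub : ∀ i : Fin m, ∃ q, C (bar (s i)) q ∧ Used l q := by
    intro i
    refine ⟨bar (s i), hC.eqv.refl _, Or.inr ?_⟩
    rw [bar_bar, hldef, mem_wrd]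
    exact ⟨i, Or.inl rfl⟩
  have hus : ∀ i : Fin m, ∃ q, C (s i) q ∧ Used l q := by
    intro i
    refine ⟨s i, hC.eqv.refl _, Or.inl ?_⟩
    rw [hldef, mem_wrd]
    exact ⟨i, Or.inl rfl⟩
  -- separated passages are effective
  have hSeff : ∀ x ∈ SepP Y s g (SIG_s C E a0 l), x.2 ∈ eff C s g := by
    rintro ⟨V, i⟩ ⟨hV, hx⟩
    rw [eff, Finset.mem_filter]
    refine ⟨Finset.mem_univ _, ?_⟩
    rintro ⟨h1, h2⟩
    apply hx
    simp only at h1 h2 ⊢
    rw [h1, mul_one]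
    exact SIG_cls hC.eqv h2
  set P := SepP Y s g (SIG_s C E a0 l) with hP
  set S1 := {x | x ∈ P ∧ bad x.1 (bar (s x.2))} with hS1
  set S2 := {x | x ∈ P ∧ bad (x.1 * g x.2) (s (x.2 + 1))} with hS2
  set S3 := {x | x ∈ P ∧ ¬ bad x.1 (bar (s x.2)) ∧ ¬ bad (x.1 * g x.2) (s (x.2 + 1))} with hS3
  have hsub : P ⊆ S1 ∪ S2 ∪ S3 := by
    intro x hx
    by_cases h1 : bad x.1 (bar (s x.2))
    · exact Or.inl (Or.inl ⟨hx, h1⟩)
    · by_cases h2 : bad (x.1 * g x.2) (s (x.2 + 1))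
      · exact Or.inl (Or.inr ⟨hx, h2⟩)
      · exact Or.inr ⟨hx, h1, h2⟩
  set B := SepE E (FreeGroup.mk l) ×ˢ (eff C s g : Set (Fin m)) with hB
  have hBfin : B.Finite := hfin.prod (Finset.finite_toSet _)
  have hBcard : B.ncard ≤ c0 * M := by
    rw [hB, Set.ncard_prod, Set.ncard_coe_finset]
    exact Nat.mul_le_mul hcard heff
  -- case 1
  have m1 : Set.MapsTo (fun x : FG k × Fin m =>
      (((F (x.1, bar (s x.2)) : FG k) : FG k ⧸ Subgroup.zpowers (FreeGroup.mk l)), x.2)) S1 B := by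
    rintro x ⟨hx, hb⟩
    exact ⟨(hF1 (x.1, bar (s x.2)) hb).2, hSeff x hx⟩
  have i1 : Set.InjOn (fun x : FG k × Fin m =>
      (((F (x.1, bar (s x.2)) : FG k) : FG k ⧸ Subgroup.zpowers (FreeGroup.mk l)), x.2)) S1 := by
    rintro ⟨V, i⟩ ⟨_, hb⟩ ⟨V', i'⟩ ⟨_, hb'⟩ he
    rw [Prod.mk.injEq] at he
    obtain ⟨e1, e2⟩ := he
    simp only at e1 e2 hb hb'
    subst e2
    rw [hFinj V _ V' _ hb hb' e1]
  -- case 2
  have m2 : Set.MapsTo (fun x : FG k × Fin m =>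
      (((F (x.1 * g x.2, s (x.2 + 1)) : FG k) :
        FG k ⧸ Subgroup.zpowers (FreeGroup.mk l)), x.2)) S2 B := by
    rintro x ⟨hx, hb⟩
    exact ⟨(hF1 (x.1 * g x.2, s (x.2 + 1)) hb).2, hSeff x hx⟩
  have i2 : Set.InjOn (fun x : FG k × Fin m =>
      (((F (x.1 * g x.2, s (x.2 + 1)) : FG k) :
        FG k ⧸ Subgroup.zpowers (FreeGroup.mk l)), x.2)) S2 := by
    rintro ⟨V, i⟩ ⟨_, hb⟩ ⟨V', i'⟩ ⟨_, hb'⟩ he
    rw [Prod.mk.injEq] at he
    obtain ⟨e1, e2⟩ := he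
    simp only at e1 e2 hb hb'
    subst e2
    have h3 := hFinj _ _ _ _ hb hb' e1
    rw [mul_right_cancel h3]
  -- case 3
  have m3 : Set.MapsTo (fun x : FG k × Fin m =>
      ((pl s g x.1 x.2 : FG k) : FG k ⧸ Subgroup.zpowers (FreeGroup.mk l))) S3
      (SepE E (FreeGroup.mk l)) := by
    rintro ⟨V, i⟩ ⟨hx, h1, h2⟩
    simp only at h1 h2 ⊢
    obtain ⟨hV, hx⟩ := hx
    simp only at hV hx
    have hVg : V * g i ∈ FY Y := (FY Y).mul_mem hV (hv.hg i)
    have g1 : ∃ ε : Prop, ∀ q, C (bar (s i)) q → AllSg E a0 l V q ε := by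
      by_contra hcon
      exact h1 ⟨hV, hv.hs i, hcon⟩
    have g2 : ∃ ε : Prop, ∀ q, C (s (i + 1)) q → AllSg E a0 l (V * g i) q ε := by
      by_contra hcon
      exact h2 ⟨hVg, hv.hs (i + 1), hcon⟩
    obtain ⟨ε, g1⟩ := g1
    obtain ⟨ε', g2⟩ := g2
    have e1 := SIG_good hl.2 g1 (hub i)
    have e2 := SIG_good hl.2 g2 (hus (i + 1))
    have e3 := pl_ends a0 s g V i (g1 _ (hC.eqv.refl _)) (g2 _ (hC.eqv.refl _))
    refine sep_coset.2 ?_
    intro h
    apply hx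
    have e4 : EndP E (FreeGroup.mk l) (pl s g V i) ↔ EndM E (FreeGroup.mk l) (pl s g V i) := h
    rw [e1, e2, ← e3.1, ← e3.2]
    exact e4.symm
  have i3 : Set.InjOn (fun x : FG k × Fin m =>
      ((pl s g x.1 x.2 : FG k) : FG k ⧸ Subgroup.zpowers (FreeGroup.mk l))) S3 := by
    rintro ⟨V, i⟩ ⟨hx, _⟩ ⟨V', i'⟩ ⟨hx', _⟩ he
    obtain ⟨e1, e2⟩ := pl_inj hv hx.1 hx'.1 he
    simp only at e1 e2
    rw [e1, e2]
  have f1 : S1.Finite := Set.Finite.of_injOn m1 i1 hBfin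
  have f2 : S2.Finite := Set.Finite.of_injOn m2 i2 hBfin
  have f3 : S3.Finite := Set.Finite.of_injOn m3 i3 hfin
  have fU : (S1 ∪ S2 ∪ S3).Finite := (f1.union f2).union f3
  have c1 : S1.ncard ≤ c0 * M := (Set.ncard_le_ncard_of_injOn _ m1 i1 hBfin).trans hBcard
  have c2 : S2.ncard ≤ c0 * M := (Set.ncard_le_ncard_of_injOn _ m2 i2 hBfin).trans hBcard
  have c3 : S3.ncard ≤ c0 := (Set.ncard_le_ncard_of_injOn _ m3 i3 hfin).trans hcard
  refine ⟨SIG_s C E a0 l, fun V => V ∈ E, ρ, SIG_tame hC hy hl a0 hE, hi1, hi2,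
    fU.subset hsub, ?_⟩
  calc P.ncard ≤ (S1 ∪ S2 ∪ S3).ncard := Set.ncard_le_ncard hsub fU
    _ ≤ (S1 ∪ S2).ncard + S3.ncard := Set.ncard_union_le _ _
    _ ≤ S1.ncard + S2.ncard + S3.ncard := Nat.add_le_add_right (Set.ncard_union_le _ _) _
    _ ≤ c0 * M + c0 * M + c0 := Nat.add_le_add (Nat.add_le_add c1 c2) c3
    _ = c0 + 2 * c0 * M := by ring

end Pool.Agent.GRO
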