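import Pool.Agent.GRO.LC
import Pool.Agent.GRO.CONN

/-!
# SIG1: mixed classes contain separated lines, different classes contain different lines
* `norm_port`: the last letter of `V` is over `Y`, `q` is not.
* `unmixed`: by `lc` every `q` with `C p q` has a sign `ε q` (hypothesis of `lc`: a line all of whose
  vertices begin with `V * lt q` is in `InOm V`). For an edge `(x, y)` with `x, y` in the class
  `A` of `p`, at position `j`: the line `h = V * (Pz l j)⁻¹` has all vertices in `InOm V A`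
  (`ray_pre`, `ray_back`), so `ε x ↔ ε y`. Let `S = {x ∈ A | Used l x ∧ ε x}`. An edge leaving `S`
  leaves `A` (neighbours are used), so `cap l S ≤ cap l A ≤ tran C l ≤ M` (`cap_cls_le_tran`; the
  comparison `cap l S ≤ cap l A` edge by edge). `2 M < T` and `I3`: `S` is empty or `S = A`.
  If `S = ∅` take `ε = False` (all used letters of `A` have sign false; unused letters have no
  lines), otherwise `ε = True`.
* `om_disj`: choose a vertex of large norm (`far_vertex`); its word begins with the word of `V`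
  followed by a letter outside `Y`, so `V.toWord` is the longest beginning with letters over `Y`.
-/

set_option autoImplicit false

open Filter

namespace Pool.Agent.GRO

variable {k : ℕ}

theorem norm_port {Y : Finset (Fin k)} {V : FG k} (hV : V ∈ FY Y) {q : Lt k} (hq : q.1 ∉ Y) :
    (V * lt q).norm = V.norm + 1 ∧ (V * lt q).toWord = V.toWord ++ [q] := by
  have h1 : (lt q).toWord = [q] := by
    unfold lt
    rw [FreeGroup.toWord_mk, FreeGroup.reduce_singleton]
  have h2 : (V * lt q).toWord = V.toWord ++ [q] := by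
    rw [FreeGroup.toWord_mul, h1]
    apply FreeGroup.IsReduced.reduce_eq
    unfold FreeGroup.IsReduced
    rw [List.isChain_append]
    refine ⟨FreeGroup.isReduced_toWord, List.isChain_singleton _, ?_⟩
    intro x hx z hz hxz
    exfalso
    have h3 : z = q := by simpa using hz.symm
    rw [h3] at hxz
    apply hq
    rw [← hxz]
    exact (mem_FY Y V).mp hV x (List.mem_of_getLast? hx)
  refine ⟨?_, h2⟩
  have h3 : (V * lt q).norm = (V * lt q).toWord.length := rfl
  rw [h3, h2, List.length_append]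
  rfl

private theorem cls_out {C : Lt k → Lt k → Prop} (hC : Str C) {y : Fin k}
    (hy : C (y, true) (y, false)) {p q : Lt k} (hp : p.1 ∉ Yb C y) (h : C p q) :
    q.1 ∉ Yb C y := fun hq => hp ((Yb_spec hC hy q p hq).mp (hC.eqv.symm h))

private theorem all_om (a0 : Lt k) {l : List (Lt k)} (hl : CR l) {Y : Finset (Fin k)} {V : FG k}
    (hV : V ∈ FY Y) {A : Lt k → Prop} (hA : ∀ q, A q → q.1 ∉ Y) (j : ℤ)
    (h1 : A (bar (Lz a0 l (j - 1)))) (h2 : A (Lz a0 l j)) (i : ℤ) :
    InOm V A (V * (Pz l j)⁻¹ * Pz l i) := by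
  rcases lt_trichotomy i j with h | h | h
  · exact Or.inr ⟨_, h1, ray_back a0 hl V j (norm_port hV (hA _ h1)).1 i h⟩
  · left
    rw [h]
    group
  · exact Or.inr ⟨_, h2, ray_pre a0 hl V j (norm_port hV (hA _ h2)).1 i h⟩

theorem unmixed (a0 : Lt k) {C : Lt k → Lt k → Prop} (hC : Str C) {T M : ℕ} {y : Fin k}
    (hy : C (y, true) (y, false)) {l : List (Lt k)} (hl : CR l) (hI : I3 C T l) (hN : NC l)
    (hZ : ZC l) (hM : tran C l ≤ M) (hT : 2 * M < T) {E : Set (FG k)} {ρ : ℕ} (hE : TameE E ρ)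
    {V : FG k} (hV : V ∈ FY (Yb C y)) {p : Lt k} (hp : p.1 ∉ Yb C y)
    (hs : ∀ h : FG k, (∀ j : ℤ, InOm V (C p) (h * Pz l j)) →
      (EndP E (FreeGroup.mk l) h ↔ EndM E (FreeGroup.mk l) h)) :
    ∃ ε : Prop, ∀ q, C p q → AllSg E a0 l V q ε := by
  classical
  have hout : ∀ q, C p q → q.1 ∉ Yb C y := fun q hq => cls_out hC hy hp hq
  have h1 : ∀ q, ∃ ε : Prop, C p q → AllSg E a0 l V q ε := by
    intro q
    by_cases hq : C p q
    · obtain ⟨ε, hε⟩ := lc a0 hl hN hZ hE V q (norm_port hV (hout q hq)).1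
        (fun h hh => hs h fun j => Or.inr ⟨q, hq, hh j⟩)
      exact ⟨ε, fun _ => hε⟩
    · exact ⟨True, fun h => absurd h hq⟩
  choose ε hε using h1
  have hedge0 : ∀ j : ℤ, C p (bar (Lz a0 l (j - 1))) → C p (Lz a0 l j) →
      (ε (bar (Lz a0 l (j - 1))) ↔ ε (Lz a0 l j)) := by
    intro j hx hz
    have h2 := hs (V * (Pz l j)⁻¹) (all_om a0 hl hV hout j hx hz)
    have h3 := (hε _ hz).1 j rfl
    have h4 := (hε _ hx).2 j rfl
    exact h4.symm.trans (h2.symm.trans h3)
  have hedge : ∀ x z, Adj l x z → C p x → C p z → (ε x ↔ ε z) := by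
    intro x z hxz hx hz
    obtain ⟨j, ⟨hj1, hj2⟩ | ⟨hj1, hj2⟩⟩ := (adj_Lz a0 hl.2 x z).mp hxz
    · subst hj1; subst hj2
      exact hedge0 j hx hz
    · subst hj1; subst hj2
      exact (hedge0 j hz hx).symm
  obtain ⟨S, hS⟩ : ∃ S : Finset (Lt k), ∀ x, x ∈ S ↔ (C p x ∧ Used l x ∧ ε x) :=
    ⟨Finset.univ.filter fun x => C p x ∧ Used l x ∧ ε x, fun x => by simp⟩
  have hstep : ∀ x z, Adj l x z → x ∈ S → C p z → z ∈ S := by
    intro x z hxz hx hz
    rw [hS] at hx ⊢
    have hu : Used l z := by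
      rcases hxz with h | h
      · exact Or.inl (edg_used _ h).2
      · exact Or.inr (edg_used _ h).1
    exact ⟨hz, hu, (hedge x z hxz hx.1 hz).mp hx.2.2⟩
  have hcap : cap l S ≤ tran C l := by
    refine le_trans ?_ (cap_cls_le_tran hC.eqv l p)
    unfold cap
    apply List.countP_mono_left
    intro e he hb
    have hadj : Adj l e.1 e.2 := Or.inl he
    have hadj' : Adj l e.2 e.1 := Or.inr he
    by_cases h2 : e.1 ∈ S
    · have h3 : e.2 ∉ S := by
        intro h3
        simp [h2, h3] at hb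
      have h4 : C p e.1 := ((hS _).mp h2).1
      have h5 : ¬ C p e.2 := fun h5 => h3 (hstep _ _ hadj h2 h5)
      simp [h4, h5]
    · have h3 : e.2 ∈ S := by
        by_contra h3
        simp [h2, h3] at hb
      have h4 : C p e.2 := ((hS _).mp h3).1
      have h5 : ¬ C p e.1 := fun h5 => h2 (hstep _ _ hadj' h3 h5)
      simp [h4, h5]
  have hI' := hI S (by omega)
  by_cases hpS : p ∈ S
  · refine ⟨True, fun q hq => ?_⟩
    have h2 : ε q := ((hS q).mp ((hI' p q hq).mp hpS)).2.2
    have h3 := hε q hq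
    rwa [eq_true h2] at h3
  · refine ⟨False, fun q hq => ?_⟩
    have h2 : q ∉ S := fun h => hpS ((hI' p q hq).mpr h)
    by_cases h3 : Used l q
    · have h4 : ¬ ε q := fun h4 => h2 ((hS q).mpr ⟨hq, h3, h4⟩)
      have h5 := hε q hq
      rwa [eq_false h4] at h5
    · rw [used_Lz a0 hl.2] at h3
      push Not at h3
      exact ⟨fun j hj => absurd hj (h3 j).1, fun j hj => absurd hj (h3 j).2⟩

private theorem om_disj' {Y : Finset (Fin k)} {V V' : FG k} (hV : V ∈ FY Y) (hV' : V' ∈ FY Y)
    {q q' : Lt k} (hq : q.1 ∉ Y) (hq' : q'.1 ∉ Y) {w : List (Lt k)}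
    (h : (V * lt q).toWord <+: w) (h' : (V' * lt q').toWord <+: w)
    (hle : V.norm ≤ V'.norm) : V = V' := by
  rw [(norm_port hV hq).2] at h
  rw [(norm_port hV' hq').2] at h'
  have e1 : V.toWord.length = V.norm := rfl
  have e2 : V'.toWord.length = V'.norm := rfl
  rcases Nat.lt_or_ge V.norm V'.norm with h1 | h1
  · exfalso
    have h2 : V'.toWord <+: w := (List.prefix_append _ _).trans h'
    have h3 : V.toWord ++ [q] <+: V'.toWord := by
      apply List.prefix_of_prefix_length_le h h2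
      rw [List.length_append, List.length_singleton]
      omega
    have h4 : q ∈ V'.toWord := h3.subset (by simp)
    exact hq ((mem_FY Y V').mp hV' q h4)
  · have h2 : V'.toWord <+: w := (List.prefix_append _ _).trans h'
    have h3 : V.toWord <+: w := (List.prefix_append _ _).trans h
    have h4 : V.toWord <+: V'.toWord := List.prefix_of_prefix_length_le h3 h2 (by omega)
    exact FreeGroup.toWord_injective (h4.eq_of_length (by omega))

theorem om_disj {Y : Finset (Fin k)} {l : List (Lt k)} (hl : CR l) {V V' : FG k}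
    (hV : V ∈ FY Y) (hV' : V' ∈ FY Y) {A A' : Lt k → Prop} (hA : ∀ q, A q → q.1 ∉ Y)
    (hA' : ∀ q, A' q → q.1 ∉ Y) {h : FG k} (H : ∀ j : ℤ, InOm V A (h * Pz l j))
    (H' : ∀ j : ℤ, InOm V' A' (h * Pz l j)) : V = V' := by
  obtain ⟨j, hj⟩ := far_vertex hl h (max V.norm V'.norm)
  rcases H j with h1 | ⟨q, hq, h1⟩
  · exfalso
    rw [h1] at hj
    omega
  rcases H' j with h2 | ⟨q', hq', h2⟩
  · exfalso
    rw [h2] at hj
    omega
  rcases le_total V.norm V'.norm with h3 | h3
  · exact om_disj' hV hV' (hA q hq) (hA' q' hq') h1 h2 h3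
  · exact (om_disj' hV' hV (hA' q' hq') (hA q hq) h2 h1 h3).symm

end Pool.Agent.GRO
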