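import Pool.Agent.GRO.RAY
import Pool.Agent.GRO.POS
import Pool.Agent.GRO.SIG1

/-!
# SIG2: the line of a passage
`l = wrd s g`, `u = mk l`; the line of the passage `(V, i)` is the line of
`pl V i = V * (Pz l (pos g i + 1))⁻¹`.
* `pl_ends`: at the vertex `V` the position is `j = pos g i + 1`, and `bar (Lz (j-1)) = bar (s i)`
  (`Lz_pos`); at `V * g i` the position is `j' = pos g i + 1 + |g i|`, `Lz j' = s (i+1)`
  (`Lz_pos_next`), and `V * g i * (Pz l j')⁻¹ = pl V i` by `seg_pos`.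
* `pl_inj`: if `pl V' i' = pl V i * u^n` then `V' = pl V i * Pz l (pos g i' + 1 + n * len)`,
  `V = pl V i * Pz l (pos g i + 1)`. Let `j = pos g i + 1`, `j' = pos g i' + 1 + n * len`. If `j < j'`,
  then `V⁻¹ * V' ∈ FY Y` has the reduced word `L j ... L (j'-1)` (`seg_word`), whose last letter is
  `s i'` (`Lz_pos`, `Lz_add_mul`), which is not over `Y`: contradiction with `mem_FY`. Similarly
  `j' < j`. So `j = j'`, `V = V'` and `i = i'` by `pos_inj`.
-/

set_option autoImplicit false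

open Filter

namespace Pool.Agent.GRO

variable {k : ℕ}

/-- A point of the line of the passage `(V, i)`. -/
def pl {m : ℕ} (s : Fin m → Lt k) (g : Fin m → FG k) (V : FG k) (i : Fin m) : FG k :=
  V * (Pz (wrd s g) ((pos g i : ℤ) + 1))⁻¹

theorem pl_ends (a0 : Lt k) {m : ℕ} [NeZero m] (s : Fin m → Lt k) (g : Fin m → FG k) (V : FG k)
    (i : Fin m) {E : Set (FG k)} {ε ε' : Prop}
    (h1 : AllSg E a0 (wrd s g) V (bar (s i)) ε)
    (h2 : AllSg E a0 (wrd s g) (V * g i) (s (i + 1)) ε') :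
    (EndM E (FreeGroup.mk (wrd s g)) (pl s g V i) ↔ ε) ∧
      (EndP E (FreeGroup.mk (wrd s g)) (pl s g V i) ↔ ε') := by
  constructor
  · refine h1.2 ((pos g i : ℤ) + 1) ?_
    rw [add_sub_cancel_right, Lz_pos]
  · have h3 := h2.1 ((pos g i : ℤ) + 1 + (g i).norm) (Lz_pos_next a0 s g i)
    rw [seg_pos] at h3
    have h4 : V * g i * (Pz (wrd s g) ((pos g i : ℤ) + 1) * g i)⁻¹ = pl s g V i := by
      unfold pl
      group
    rwa [h4] at h3

private theorem SIG2_last {Y : Finset (Fin k)} (a0 : Lt k) {l : List (Lt k)} (hl : CR l)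
    {j j' : ℤ} (hj : j < j') (h : (Pz l j)⁻¹ * Pz l j' ∈ FY Y) : (Lz a0 l (j' - 1)).1 ∈ Y := by
  obtain ⟨i, hi⟩ : ∃ i : ℕ, j' = j + ((i + 1 : ℕ) : ℤ) :=
    ⟨(j' - j - 1).toNat, by omega⟩
  subst hi
  rw [mem_FY, seg_word a0 hl] at h
  apply h
  rw [List.mem_ofFn]
  refine ⟨Fin.last i, ?_⟩
  congr 1
  rw [Fin.val_last]
  push_cast
  ring

theorem pl_inj {Y : Finset (Fin k)} {m : ℕ} [NeZero m] {s : Fin m → Lt k} {g : Fin m → FG k}
    (hv : Val Y s g) {V V' : FG k} (hV : V ∈ FY Y) (hV' : V' ∈ FY Y) {i i' : Fin m}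
    (h : ((pl s g V i : FG k) : FG k ⧸ Subgroup.zpowers (FreeGroup.mk (wrd s g))) =
      (pl s g V' i' : FG k)) : V = V' ∧ i = i' := by
  have hl : CR (wrd s g) := wrd_CR hv
  rw [QuotientGroup.eq, Subgroup.mem_zpowers_iff] at h
  obtain ⟨n, hn⟩ := h
  have h1 : V⁻¹ * V' = (Pz (wrd s g) ((pos g i : ℤ) + 1))⁻¹ *
      Pz (wrd s g) ((pos g i' : ℤ) + 1 + n * (wrd s g).length) := by
    rw [Pz_add_mul hl.2, hn]
    unfold pl
    group
  have h2 : V'⁻¹ * V = (Pz (wrd s g) ((pos g i' : ℤ) + 1 + n * (wrd s g).length))⁻¹ *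
      Pz (wrd s g) ((pos g i : ℤ) + 1) := by
    rw [← inv_inj, mul_inv_rev, inv_inv, h1]
    group
  rcases lt_trichotomy ((pos g i : ℤ) + 1) ((pos g i' : ℤ) + 1 + n * (wrd s g).length)
    with h3 | h3 | h3
  · exfalso
    have h4 := SIG2_last (Y := Y) (s i) hl h3 (by
      rw [← h1]
      exact (FY Y).mul_mem ((FY Y).inv_mem hV) hV')
    have h5 : (pos g i' : ℤ) + 1 + n * (wrd s g).length - 1 =
      (pos g i' : ℤ) + n * (wrd s g).length := by ring
    rw [h5, Lz_add_mul, Lz_pos] at h4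
    exact hv.hs i' h4
  · constructor
    · rw [← h3, inv_mul_cancel] at h1
      exact inv_mul_eq_one.1 h1
    · have h4 : (pos g i : ℤ) = pos g i' + n * (wrd s g).length := by linarith
      exact (pos_inj s g h4).1
  · exfalso
    have h4 := SIG2_last (Y := Y) (s i) hl h3 (by
      rw [← h2]
      exact (FY Y).mul_mem ((FY Y).inv_mem hV') hV)
    rw [add_sub_cancel_right, Lz_pos] at h4
    exact hv.hs i h4

end Pool.Agent.GRO
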