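import Pool.Agent.GRO.REL3

/-!
# TRS: transport of sign functions under gauge transformations
`σ' V p = σ (V * (h p)⁻¹) p` and the same `τ`. The passage `(V, i)` of `gg s g h` is separated by `σ'`
iff the passage `(V * (h (bar (s i)))⁻¹, i)` of `g` is separated by `σ`; this is a bijection of the
sets `SepP`. Tameness: let `B` be a bound for all `(h p).norm`; `ρ' = ρ + B`. If `ρ' ≤ V.norm`
and `U` begins with `V`, then `U * (h p)⁻¹` begins with `W` = the product of the first `V.norm - B`
letters of `V` (`ρ ≤ W.norm`, `W ∈ FY Y` by `mem_FY`), so `σ (U * (h p)⁻¹) p ↔ τ W ↔ τ V`.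
-/

set_option autoImplicit false

namespace Pool.Agent.GRO

variable {k : ℕ}

private theorem TRS_red_left {L1 L2 : List (Lt k)} (h : FreeGroup.IsReduced (L1 ++ L2)) :
    FreeGroup.IsReduced L1 :=
  List.IsChain.left_of_append h

private theorem TRS_toWord {L : List (Lt k)} (h : FreeGroup.IsReduced L) :
    (FreeGroup.mk L : FG k).toWord = L := by
  rw [FreeGroup.toWord_mk, h.reduce_eq]

private theorem TRS_one (x : FG k) (a : Lt k) (L1 : List (Lt k)) (h : L1 <+: x.toWord)
    (hlen : L1.length + 1 ≤ x.toWord.length) :
    L1 <+: (x * lt a).toWord ∧ x.toWord.length ≤ (x * lt a).toWord.length + 1 := by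
  have hred : FreeGroup.IsReduced x.toWord := FreeGroup.isReduced_toWord
  have hx : (FreeGroup.mk x.toWord : FG k) = x := FreeGroup.mk_toWord
  rcases List.eq_nil_or_concat x.toWord with h0 | ⟨L', c, hc⟩
  · rw [h0] at hlen
    simp at hlen
  · rw [List.concat_eq_append] at hc
    by_cases hca : c = bar a
    · -- cancellation
      have e1 : x * lt a = FreeGroup.mk L' := by
        have e2 : x = FreeGroup.mk L' * lt c := by
          unfold lt
          rw [FreeGroup.mul_mk, ← hc, hx]
        have e3 : (lt c : FG k) * lt a = 1 := by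
          rw [hca, lt_bar, inv_mul_cancel]
        rw [e2, mul_assoc, e3, mul_one]
      have hr' : FreeGroup.IsReduced L' := by
        rw [hc] at hred
        exact TRS_red_left hred
      rw [e1, TRS_toWord hr']
      rw [hc] at h hlen ⊢
      rw [List.length_append, List.length_singleton] at hlen ⊢
      refine ⟨List.prefix_of_prefix_length_le h (List.prefix_append _ _) (by omega), le_rfl⟩
    · have e1 : x * lt a = FreeGroup.mk (x.toWord ++ [a]) := by
        unfold lt
        rw [← FreeGroup.mul_mk, hx]
      have hr' : FreeGroup.IsReduced (x.toWord ++ [a]) := by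
        rw [hc] at hred ⊢
        unfold FreeGroup.IsReduced at hred ⊢
        rw [List.isChain_append]
        refine ⟨hred, List.isChain_singleton a, ?_⟩
        intro u hu v hv
        simp only [List.getLast?_append, List.getLast?_singleton, Option.some_or,
          Option.mem_some_iff] at hu
        simp only [List.head?_cons, Option.mem_some_iff] at hv
        subst hu hv
        intro e
        by_contra hne
        apply hca
        unfold bar
        refine Prod.ext e ?_
        simp only
        cases h1 : c.2 <;> cases h2 : a.2 <;> simp_all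
      rw [e1, TRS_toWord hr']
      refine ⟨h.trans (List.prefix_append _ _), ?_⟩
      rw [List.length_append]
      omega

private theorem TRS_mul (r : List (Lt k)) : ∀ (x : FG k) (L1 : List (Lt k)), L1 <+: x.toWord →
    L1.length + r.length ≤ x.toWord.length → L1 <+: (x * FreeGroup.mk r).toWord := by
  induction r with
  | nil =>
    intro x L1 h _
    have : (FreeGroup.mk ([] : List (Lt k)) : FG k) = 1 := rfl
    rw [this, mul_one]
    exact h
  | cons a t ih =>
    intro x L1 h hlen
    rw [List.length_cons] at hlen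
    obtain ⟨h1, h2⟩ := TRS_one x a L1 h (by omega)
    have e : (FreeGroup.mk (a :: t) : FG k) = lt a * FreeGroup.mk t := by
      unfold lt
      rw [FreeGroup.mul_mk]
      rfl
    rw [e, ← mul_assoc]
    exact ih (x * lt a) L1 h1 (by omega)

theorem trs {Y : Finset (Fin k)} {m : ℕ} [NeZero m] {s : Fin m → Lt k} {g : Fin m → FG k}
    (hv : Val Y s g) {h : Lt k → FG k} (hh : ∀ p, h p ∈ FY Y) {c : ℕ} (H : HasSgn Y s g c) :
    HasSgn Y s (gg s g h) c := by
  obtain ⟨σ, τ, ρ, hT, hi1, hi2, hfin, hcard⟩ := H
  have hB : ∀ p, (h p).norm ≤ ∑ q, (h q).norm := fun p =>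
    Finset.single_le_sum (f := fun q => (h q).norm) (fun _ _ => Nat.zero_le _) (Finset.mem_univ p)
  set B : ℕ := ∑ q, (h q).norm with hBdef
  have hsub : SepP Y s (gg s g h) (fun V p => σ (V * (h p)⁻¹) p) ⊆
      (fun x : FG k × Fin m => (x.1 * h (bar (s x.2)), x.2)) '' SepP Y s g σ := by
    rintro ⟨V, i⟩ ⟨hV, hs⟩
    refine ⟨(V * (h (bar (s i)))⁻¹, i), ⟨?_, ?_⟩, ?_⟩
    · exact (FY Y).mul_mem hV ((FY Y).inv_mem (hh _))
    · have e : V * gg s g h i * (h (s (i + 1)))⁻¹ = V * (h (bar (s i)))⁻¹ * g i := by
        unfold gg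
        group
      simp only [e] at hs
      exact hs
    · simp
  refine ⟨fun V p => σ (V * (h p)⁻¹) p, τ, ρ + B, ?_, hi1, hi2,
    (hfin.image _).subset hsub, ?_⟩
  · intro V hV hn U hU hpre
    have hVn : V.norm = V.toWord.length := rfl
    set W : FG k := FreeGroup.mk (V.toWord.take (V.norm - B)) with hW
    have hred : FreeGroup.IsReduced (V.toWord.take (V.norm - B)) := by
      have h1 : FreeGroup.IsReduced V.toWord := FreeGroup.isReduced_toWord
      rw [← List.take_append_drop (V.norm - B) V.toWord] at h1
      exact TRS_red_left h1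
    have hWw : W.toWord = V.toWord.take (V.norm - B) := TRS_toWord hred
    have hWlen : W.toWord.length = V.norm - B := by
      rw [hWw, List.length_take, ← hVn]
      omega
    have hWY : W ∈ FY Y := by
      rw [mem_FY, hWw]
      intro a ha
      exact (mem_FY Y V).1 hV a (List.mem_of_mem_take ha)
    have hWn : ρ ≤ W.norm := by
      have : W.norm = W.toWord.length := rfl
      rw [this, hWlen]
      omega
    have hWV : W.toWord <+: V.toWord := by
      rw [hWw]
      exact List.take_prefix _ _
    have hτ : τ V ↔ τ W := (hT W hWY hWn V hV hWV).1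
    refine ⟨(hT V hV (by omega) U hU hpre).1, ?_⟩
    intro p hp
    have hUlen : V.toWord.length ≤ U.toWord.length := hpre.length_le
    have h1 : W.toWord <+: (U * (h p)⁻¹).toWord := by
      have h2 := TRS_mul ((h p)⁻¹).toWord U W.toWord (hWV.trans hpre) (by
        rw [hWlen]
        have h3 : ((h p)⁻¹).toWord.length = (h p).norm := FreeGroup.norm_inv_eq
        have h4 := hB p
        omega)
      rwa [FreeGroup.mk_toWord] at h2
    have h5 := (hT W hWY hWn (U * (h p)⁻¹) ((FY Y).mul_mem hU ((FY Y).inv_mem (hh p))) h1).2 p hp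
    exact h5.trans hτ.symm
  · calc (SepP Y s (gg s g h) (fun V p => σ (V * (h p)⁻¹) p)).ncard
        ≤ ((fun x : FG k × Fin m => (x.1 * h (bar (s x.2)), x.2)) '' SepP Y s g σ).ncard :=
          Set.ncard_le_ncard hsub (hfin.image _)
      _ ≤ (SepP Y s g σ).ncard := Set.ncard_image_le hfin
      _ ≤ c := hcard

end Pool.Agent.GRO
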