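import Pool.Agent.GRO.LOOP
import Pool.Agent.GRO.GATES
import Pool.Agent.GRO.DESC
import Pool.Agent.GRO.TRS
import Pool.Agent.GRO.SIG
import Pool.Agent.GRO.M0
import Pool.Agent.GRO.LB
import Pool.Agent.GRO.EX

/-!
# STG: one stage
`c0` from `ex w`. Let `M = 4 k² t` and choose `c1` (depending on `k`, `c0`) such that
`M * (2 k² + 1) + 2 k² + 1 ≤ c1 * t` for `t ≥ 1`, and `c1 * t ≤ T` implies `4 k t ≤ T`, `16 M ≤ T`,
`2 M < T`, `16 (c0 + 2 c0 M) ≤ 3 T`, `0 < T`.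
If `¬ NG T l`: `n = 0`, `v = l`. Otherwise `C = conn t l` is structured (`str_conn`), `tran C l ≤ M`
(`tran_le`, `cls_cap`), `loop` gives a chain of `n ≤ Psi C l ≤ M * (2 k² + 1) + 2 k²` steps to `v` with
`tran C v ≤ M`. If `¬ I3 C T v` (or for any word `v` with `tran C v ≤ 2 * M`): the second alternative:
a cut `S` with `2 cap v S < T`, `C x y`, `x ∈ S`, `y ∉ S` (or exchanged; `conn_equiv` symmetric) shows
`¬ conn T v x y`; if `¬ C x y` then the class `S` of `x` has `cap v S ≤ tran C v ≤ 2 M < T`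
(`cap_cls_le_tran`), so `¬ conn T v x y`. If `¬ NG T v`: done. Otherwise `NC v ∧ ZC v`, `I3`, `NG`.
If no letter is in a block, `v.length = tran C v ≤ M` (`length_eq_tran`). Let `C (y, true) (y, false)`,
`Y = Yb C y` (nonempty, `mem_Yb_self`). If all letters of `v` are over `Y`: contradiction by `ex`, `m0`.
Otherwise `v ~r wrd s g` (`exists_rel`), all properties are invariant under rotation (`orb_rot`,
`NC_rot`, ...). `ex`, `sig`: `HasSgn Y s g (c0 + 2 c0 M)`; `desc` gives `h`, `v' = wrd s (gg s g h)`,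
`RG N v v'` (with `gates`; norms `≤ v.length ≤ N`), `v' ∈ Orb w` (`orb_gau`, `gg_conj`), `tran C v' ≤ 2 M`
(`tran_gg`). If `¬ I3 C T v'`: second alternative. Otherwise `trs` and `lb` show `¬ NG T v'`. The chain
is prolonged by one step.
-/

set_option autoImplicit false

namespace Pool.Agent.GRO

variable {k : ℕ}

theorem Ch_snoc {O : Set (List (Lt k))} {R : List (Lt k) → List (Lt k) → Prop} {n : ℕ}
    {l v v' : List (Lt k)} (h : Ch O R n l v) (hv : v' ∈ O) (hlen : v'.length ≤ v.length)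
    (hR : R v v') : Ch O R (n + 1) l v' := by
  induction n generalizing l with
  | zero =>
    have h' : l = v := h
    subst h'
    exact ⟨v', hv, hlen, hR, rfl⟩
  | succ n ih =>
    obtain ⟨l', hl', hle, hRl, hCh⟩ := h
    exact ⟨l', hl', hle, hRl, ih hCh⟩

private theorem STG_split {C : Lt k → Lt k → Prop} (hC : Equivalence C) {T : ℕ}
    {v : List (Lt k)} (hT : tran C v < T) (hI : ¬ I3 C T v) :
    (∀ x y, conn T v x y → C x y) ∧ ∃ x y, C x y ∧ ¬ conn T v x y := by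
  classical
  constructor
  · intro x y h
    by_contra hne
    have h1 := h (Finset.univ.filter fun z => C x z) (by simpa using hC.refl x)
      (by simpa using hne)
    have h2 := cap_cls_le_tran hC v x
    have h3 : cap v (Finset.univ.filter fun z => C x z) ≤ tran C v := by
      convert h2
    omega
  · unfold I3 at hI
    push Not at hI
    obtain ⟨S, hS, x, y, hxy, h⟩ := hI
    rcases h with ⟨hx, hy⟩ | ⟨hx, hy⟩
    · refine ⟨x, y, hxy, fun hc => ?_⟩
      have := hc S hx hy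
      omega
    · refine ⟨y, x, hC.symm hxy, fun hc => ?_⟩
      have := hc S hy hx
      omega

private theorem STG_num (k c0 t T : ℕ) (ht : 1 ≤ t)
    (h : (4 * k ^ 2 * (2 * k ^ 2 + 1) + 2 * k ^ 2 + 1 + 4 * k + 64 * k ^ 2 + 16 * c0 +
      128 * c0 * k ^ 2 + 1) * t ≤ T) :
    4 * k * t ≤ T ∧ 8 * (4 * k ^ 2 * t) ≤ T ∧ 2 * (4 * k ^ 2 * t) < T ∧
      16 * (c0 + 2 * c0 * (4 * k ^ 2 * t)) ≤ 3 * T ∧ 0 < T := by
  have e : (4 * k ^ 2 * (2 * k ^ 2 + 1) + 2 * k ^ 2 + 1 + 4 * k + 64 * k ^ 2 + 16 * c0 +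
      128 * c0 * k ^ 2 + 1) * t = (4 * k ^ 2 * (2 * k ^ 2 + 1) + 2 * k ^ 2 + 1) * t +
      4 * k * t + 64 * (k ^ 2 * t) + 16 * (c0 * t) + 128 * (c0 * (k ^ 2 * t)) + t := by ring
  have e1 : c0 ≤ c0 * t := Nat.le_mul_of_pos_right _ ht
  have e2 : 8 * (4 * k ^ 2 * t) = 32 * (k ^ 2 * t) := by ring
  have e3 : 2 * (4 * k ^ 2 * t) = 8 * (k ^ 2 * t) := by ring
  have e4 : 16 * (c0 + 2 * c0 * (4 * k ^ 2 * t)) = 16 * c0 + 128 * (c0 * (k ^ 2 * t)) := by ring
  rw [e] at h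
  rw [e2, e3, e4]
  generalize k ^ 2 * t = A at *
  generalize c0 * A = B at *
  generalize c0 * t = D at *
  generalize (4 * k ^ 2 * (2 * k ^ 2 + 1) + 2 * k ^ 2 + 1) * t = G at *
  generalize 4 * k * t = H at *
  refine ⟨by omega, by omega, by omega, by omega, by omega⟩

private theorem STG_end {w : FG k} {c0 : ℕ}
    (hc0 : ∀ l ∈ Orb w, ∀ Y : Finset (Fin k), Y.Nonempty →
      ∃ (E : Set (FG k)) (ρ : ℕ), HasE Y (FreeGroup.mk l) c0 E ρ)
    {C : Lt k → Lt k → Prop} (hC : Str C) {N T M : ℕ} (hT : 0 < T) (h8 : 8 * M ≤ T)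
    (h2 : 2 * M < T) (h16 : 16 * (c0 + 2 * c0 * M) ≤ 3 * T) {v : List (Lt k)} (hv : v ∈ Orb w)
    (hN : v.length ≤ N) (hM : tran C v ≤ M) (hI : I3 C T v) (hG : NG T v) (hNC : NC v)
    (hZC : ZC v) {y : Fin k} (hy : C (y, true) (y, false)) :
    ∃ v' ∈ Orb w, RG N v v' ∧ v'.length ≤ v.length ∧
      (¬ NG T v' ∨ ((∀ x y, conn T v' x y → C x y) ∧ ∃ x y, C x y ∧ ¬ conn T v' x y)) := by
  have hYne : (Yb C y).Nonempty := ⟨y, mem_Yb_self hC y⟩
  have hcr : CR v := hv.1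
  by_cases hall : ∀ a ∈ v, a.1 ∈ Yb C y
  · exfalso
    obtain ⟨E, ρ, hE⟩ := hc0 v hv _ hYne
    exact m0 hC hT (by nlinarith) hy hcr hall hI hG hE
  · push Not at hall
    obtain ⟨m, hm, s, g, hval, hrot⟩ := exists_rel (Yb C y) hcr hall
    have hvw : wrd s g ∈ Orb w := orb_rot hrot hv
    have hI' := I3_rot hrot hI
    have hG' := NG_rot hrot hG
    have hNC' := NC_rot hrot hNC
    have hZC' := ZC_rot hrot hZC
    have hM' : tran C (wrd s g) ≤ M := by rw [← tran_rot C hrot]; exact hM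
    have hlen : (wrd s g).length = v.length := hrot.perm.length_eq.symm
    have hYC : ∀ p q : Lt k, p.1 ∈ Yb C y → (C p q ↔ q.1 ∈ Yb C y) :=
      fun p q hp => Yb_spec hC hy p q hp
    obtain ⟨E, ρ, hE⟩ := hc0 _ hvw _ hYne
    have hsgn := sig hC hy hval hI' hNC' hZC' hM' h2 hE
    obtain ⟨h, hF, hcl, hnorm, hlen2, halt⟩ := desc hC hy hval hM' h8
    have hval' := gg_val hval hF
    have hv'O : wrd s (gg s g h) ∈ Orb w :=
      orb_gau hvw (wrd_CR hval') (Yb C y) h hF (gg_conj hval hF)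
    have htr : tran C (wrd s (gg s g h)) ≤ 2 * M :=
      (tran_gg hYC hC.eqv hval hcl hF).trans (by omega)
    refine ⟨wrd s (gg s g h), hv'O, ?_, by omega, ?_⟩
    · refine ⟨C, Yb C y, m, hm, s, g, h, hC.eqv, ?_, hval, hF, hcl, ?_, ?_, hrot,
        List.IsRotated.refl _, by omega⟩
      · intro p q hpq
        constructor
        · intro hp
          exact (hYC p q hp).1 hpq
        · intro hq
          exact (hYC q p hq).1 (hC.eqv.symm hpq)
      · intro p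
        exact (hnorm p).trans (by omega)
      · exact gates hC hT hy hval hI' hNC' hZC'
    · rcases halt with hnI | hsl
      · right
        exact STG_split hC.eqv (by omega) hnI
      · by_cases hI2 : I3 C T (wrd s (gg s g h))
        · left
          intro hG2
          exact lb hC hT h16 hy hval' hI2 hG2 hsl (trs hval hF hsgn)
        · right
          exact STG_split hC.eqv (by omega) hI2

theorem stage {w : FG k} :
    ∃ c1 : ℕ, ∀ N t T : ℕ, 1 ≤ t → c1 * t ≤ T → ∀ l ∈ Orb w, l.length ≤ N →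
      (∀ x y, conn t l x y → conn T l x y) →
      ∃ n ≤ c1 * t, ∃ v ∈ Orb w, Ch (Orb w) (RB N) n l v ∧ v.length ≤ l.length ∧
        (¬ NG T v ∨
          ((∀ x y, conn T v x y → conn t l x y) ∧ ∃ x y, conn t l x y ∧ ¬ conn T v x y) ∨
          v.length ≤ c1 * t) := by
  classical
  obtain ⟨c0, hc0⟩ := ex w
  refine ⟨4 * k ^ 2 * (2 * k ^ 2 + 1) + 2 * k ^ 2 + 1 + 4 * k + 64 * k ^ 2 + 16 * c0 +
      128 * c0 * k ^ 2 + 1, ?_⟩
  intro N t T ht hT l hl hN hgap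
  obtain ⟨n1, n2, n3, n4, n5⟩ := STG_num k c0 t T ht hT
  by_cases hG : NG T l
  swap
  · exact ⟨0, Nat.zero_le _, l, hl, rfl, le_refl _, Or.inl hG⟩
  have hcr : CR l := hl.1
  have hC : Str (conn t l) := str_conn hcr ht n1 hgap hG
  have hM : tran (conn t l) l ≤ 4 * k ^ 2 * t := by
    have := tran_le hC.eqv l (2 * k * t) (fun x => cls_cap t l x)
    calc tran (conn t l) l ≤ 2 * k * (2 * k * t) := this
      _ = 4 * k ^ 2 * t := by ring
  have hPsi : Psi (conn t l) l ≤ 4 * k ^ 2 * t * (2 * k ^ 2 + 1) + 2 * k ^ 2 := by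
    unfold Psi
    exact Nat.add_le_add (Nat.mul_le_mul_right _ hM) (NA_le _ _)
  have hnum : 4 * k ^ 2 * t * (2 * k ^ 2 + 1) + 2 * k ^ 2 + 1 ≤
      (4 * k ^ 2 * (2 * k ^ 2 + 1) + 2 * k ^ 2 + 1 + 4 * k + 64 * k ^ 2 + 16 * c0 +
      128 * c0 * k ^ 2 + 1) * t := by
    have e1 : 2 * k ^ 2 + 1 ≤ (2 * k ^ 2 + 1) * t := Nat.le_mul_of_pos_right _ ht
    have e2 : (4 * k ^ 2 * (2 * k ^ 2 + 1) + 2 * k ^ 2 + 1 + 4 * k + 64 * k ^ 2 + 16 * c0 +
      128 * c0 * k ^ 2 + 1) * t = 4 * k ^ 2 * t * (2 * k ^ 2 + 1) + (2 * k ^ 2 + 1) * t +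
      (4 * k + 64 * k ^ 2 + 16 * c0 + 128 * c0 * k ^ 2 + 1) * t := by ring
    rw [e2]
    have e3 := Nat.zero_le ((4 * k + 64 * k ^ 2 + 16 * c0 + 128 * c0 * k ^ 2 + 1) * t)
    omega
  have hMle : 4 * k ^ 2 * t ≤ (4 * k ^ 2 * (2 * k ^ 2 + 1) + 2 * k ^ 2 + 1 + 4 * k +
      64 * k ^ 2 + 16 * c0 + 128 * c0 * k ^ 2 + 1) * t := by
    refine le_trans ?_ hnum
    nlinarith [Nat.zero_le (4 * k ^ 2 * t * (2 * k ^ 2))]
  obtain ⟨n, hn, v, hv, hch, hvl, hpsi, halt⟩ := loop hC n5 N hl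
  have htv : tran (conn t l) v ≤ 4 * k ^ 2 * t := (tran_of_Psi hpsi).trans hM
  by_cases hI : I3 (conn t l) T v
  swap
  · refine ⟨n, by omega, v, hv, hch, hvl, Or.inr (Or.inl ?_)⟩
    exact STG_split hC.eqv (by omega) hI
  by_cases hG2 : NG T v
  swap
  · exact ⟨n, by omega, v, hv, hch, hvl, Or.inl hG2⟩
  have hNZ : NC v ∧ ZC v := by
    rcases halt with h | h | h
    · exact absurd hI h
    · exact absurd hG2 h
    · exact h
  by_cases hb : ∃ y : Fin k, conn t l (y, true) (y, false)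
  · obtain ⟨y, hy⟩ := hb
    obtain ⟨v', hv', hRG, hlen', halt'⟩ := STG_end hc0 hC n5 n2 n3 n4 hv (hvl.trans hN) htv
      hI hG2 hNZ.1 hNZ.2 hy
    refine ⟨n + 1, by omega, v', hv', Ch_snoc hch hv' hlen' (Or.inr (Or.inr hRG)),
      hlen'.trans hvl, ?_⟩
    rcases halt' with h | h
    · exact Or.inl h
    · exact Or.inr (Or.inl h)
  · push Not at hb
    refine ⟨n, by omega, v, hv, hch, hvl, Or.inr (Or.inr ?_)⟩
    rw [length_eq_tran hC hb hv.1]
    exact htv.trans hMle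

end Pool.Agent.GRO
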